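import Pool.Agent.P.MP_c09211_an.GL.Basic

/-!
The mean square on a circle (paper: AN2).
-/

set_option autoImplicit false

namespace Pool.Agent.P.MP_c09211_an.Sh.GL

open Metric Set Finset PowerSeries Complex Filter Topology Real MeasureTheory
open scoped ComplexConjugate

variable {N M : ℕ} {β a b l ϖ : ℝ} {E κ : Polynomial ℂ} {s s' : ℝ → ℝ}

theorem AnA_par (hN : 0 < N) (β c : ℝ) (n : ℕ) (y : ℕ → ℂ) :
    ∫ x in c..(c + N * π), ‖∑ p ∈ range n, y p * zc N β x ^ p‖ ^ 2 =
      N * π * ∑ p ∈ range n, ‖y p‖ ^ 2 := by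
  have N0 : (N : ℝ) ≠ 0 := by exact_mod_cast hN.ne'
  have hp : Function.Periodic (fun θ => ‖∑ p ∈ range n, y p * circleMap 0 1 θ ^ p‖ ^ 2) (2 * π) :=
    fun θ => by simp only [periodic_circleMap 0 1 θ]
  have h1 := intervalIntegral.integral_comp_mul_add (a := c) (b := c + N * π)
    (fun θ => ‖∑ p ∈ range n, y p * circleMap 0 1 θ ^ p‖ ^ 2) (c := 2 / N) (by positivity)
    (-(2 * β / N))
  rw [show 2 / N * (c + N * π) + -(2 * β / N) = 2 / N * c + -(2 * β / N) + 2 * π by
    field_simp; ring, hp.intervalIntegral_add_eq _ 0, zero_add, parseval, smul_eq_mul] at h1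
  refine Eq.trans (intervalIntegral.integral_congr fun x _ => ?_) (h1.trans (by field_simp))
  simp only [eI_circ, ofReal_one, one_mul, zc]
  rw [show 2 / N * x + -(2 * β / N) = 2 * (x - β) / N by ring]

theorem AnA_rad {r : ℝ} (r0 : 0 < r) (n : ℕ) (y : ℕ → ℂ) :
    circleAverage (fun z => ‖∑ p ∈ range n, y p * z ^ p‖ ^ 2) 0 r =
      ∑ p ∈ range n, ‖y p‖ ^ 2 * r ^ (2 * p) := by
  have h := parseval n fun p => y p * r ^ p
  simp only [eI_circ, ofReal_one, one_mul, norm_mul, norm_pow, norm_real, Real.norm_eq_abs,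
    abs_of_pos r0, mul_pow, ← pow_mul'] at h
  rw [circleAverage_def]
  simp only [eI_circ, mul_pow, ← mul_assoc]
  rw [h, smul_eq_mul, ← mul_assoc, inv_mul_cancel₀ Real.two_pi_pos.ne', one_mul]

theorem AnA_sum (hM : 2 * M < N) {r : ℝ} (r0 : 0 < r) (r1 : r ≤ 1) {u : ℕ → ℝ}
    (u0 : ∀ p, 0 ≤ u p) (hu : ∀ p ≤ N + 2 * M, u (N + 2 * M - p) = u p) :
    r ^ (N + 2 * M) * ∑ p ∈ range (N + 2 * M + 1), u p + (r ^ (2 * M) - r ^ N) ^ 2 *
      ∑ p ∈ range (N + 2 * M + 1), (if p ≤ 2 * M then u p else 0) ≤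
      ∑ p ∈ range (N + 2 * M + 1), u p * r ^ (2 * p) := by
  have e1 := sum_flip (n := N + 2 * M) fun p => u p * r ^ (2 * p)
  have e2 := sum_flip (n := N + 2 * M) fun p => if p ≤ 2 * M then u p else 0
  have k : ∀ i j, i + j = N + 2 * M → i ≤ 2 * M →
      (r ^ (2 * M) - r ^ N) ^ 2 ≤ (r ^ i - r ^ j) ^ 2 := fun i j h hi => by
    have a1 := pow_le_pow_of_le_one r0.le r1 hi
    have a2 := pow_le_pow_of_le_one r0.le r1 (show N ≤ j by omega)
    have a3 := pow_le_pow_of_le_one r0.le r1 hM.le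
    exact pow_le_pow_left₀ (by linarith) (by linarith) 2
  have h : ∑ p ∈ range (N + 2 * M + 1), (2 * r ^ (N + 2 * M) * u p + (r ^ (2 * M) - r ^ N) ^ 2 *
      ((if p ≤ 2 * M then u p else 0) +
        if N + 2 * M - p ≤ 2 * M then u (N + 2 * M - p) else 0)) ≤
      ∑ p ∈ range (N + 2 * M + 1),
        (u p * r ^ (2 * p) + u (N + 2 * M - p) * r ^ (2 * (N + 2 * M - p))) := by
    refine sum_le_sum fun p hp => ?_
    have hp' := Nat.lt_succ_iff.1 (mem_range.1 hp)
    rw [hu p hp']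
    obtain ⟨q, hq⟩ := Nat.exists_eq_add_of_le hp'
    rw [show N + 2 * M - p = q by omega, hq, pow_add, pow_mul' r 2 p, pow_mul' r 2 q]
    have b0 := u0 p
    split_ifs with c1 c2 c2
    · omega
    · nlinarith [mul_le_mul_of_nonneg_left (k p q hq.symm c1) b0]
    · nlinarith [mul_le_mul_of_nonneg_left (k q p (by omega) c2) b0]
    · nlinarith [mul_nonneg b0 (sq_nonneg (r ^ p - r ^ q))]
  simp only [sum_add_distrib, ← mul_sum] at h
  rw [e1, e2] at h
  linarith

/-- The mean square on a smaller circle. -/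
theorem an_circle (hd : E.natDegree < N) (H : SI N β E) (hW : Win N β M a b l ϖ κ s s')
    (hM : 2 * M < N) {r : ℝ} (r0 : 0 < r) (r1 : r ≤ 1) (t : ℝ) :
    r ^ (N + 2 * M) * (∫ x in (a - l)..(a - l + N * π), s x ^ 2 * rho N β E x ^ 2) +
      (r ^ (2 * M) - r ^ N) ^ 2 *
        (2 * t * (∫ x in (a - l)..(a - l + N * π), (s x : ℂ) ^ 2 * (eI x * rho N β E x)).re -
          t ^ 2 * ∫ x in (a - l)..(a - l + N * π), s x ^ 2) ≤
      4 * π / N * circleAverage (fun z => ‖κ.eval z * (z * E.derivative.eval z)‖ ^ 2) 0 r := by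
  have hN : 0 < N := by omega
  have N0 : (0 : ℝ) < N := by exact_mod_cast hN
  have N1 : (N : ℂ) ≠ 0 := by exact_mod_cast hN.ne'
  obtain ⟨y, hT⟩ : ∃ y : ℕ → ℂ, ∀ z, κ.eval z * (z * E.derivative.eval z) =
      ∑ p ∈ range (N + 2 * M + 1), y p * z ^ p := by
    refine ⟨(κ * (Polynomial.X * E.derivative)).coeff, fun z => ?_⟩
    rw [← Polynomial.eval_eq_sum_range', Polynomial.eval_mul, Polynomial.eval_mul,
      Polynomial.eval_X]
    have a1 := Polynomial.natDegree_mul_le (p := κ) (q := Polynomial.X * E.derivative)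
    have a2 := Polynomial.natDegree_mul_le (p := Polynomial.X) (q := E.derivative)
    have a3 := Polynomial.natDegree_derivative_le E
    have a4 := Polynomial.natDegree_X_le (R := ℂ)
    have a5 := hW.deg
    omega
  have hK : ∀ z, κ.eval z = ∑ p ∈ range (N + 2 * M + 1), κ.coeff p * z ^ p := fun z =>
    Polynomial.eval_eq_sum_range' (by have := hW.deg; omega) z
  obtain ⟨w, hw⟩ : ∃ w : ℂ, w = -(N / 2 * I) := ⟨_, rfl⟩
  have w1 : ‖w‖ = N / 2 := by simp [hw]
  have w2 : conj w = -w := by simp [hw, map_ofNat]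
  have hv : ∀ x, ∑ p ∈ range (N + 2 * M + 1), y p * zc N β x ^ p =
      zc N β x ^ M * s x * (w * (eI x * rho N β E x)) := fun x => by
    rw [← hT, hW.val, ← H.pt hd, hw]
    congr 1
    field_simp
    simp
  have sc : Continuous s := continuous_iff_continuousAt.2 fun x => (hW.der x).continuousAt
  have rc := (H.crv hd).cont
  have ec := eI_cont
  have h1 := AnA_par hN β (a - l) (N + 2 * M + 1) y
  have h2 := AnA_par hN β (a - l) (N + 2 * M + 1) fun p => y p - w * t * κ.coeff p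
  have h3 := AnA_par hN β (a - l) (N + 2 * M + 1)
    fun p => conj (y (N + 2 * M - p)) + conj (eI (2 * β)) * y p
  have e1 : ∀ x, ‖∑ p ∈ range (N + 2 * M + 1), y p * zc N β x ^ p‖ ^ 2 =
      (N / 2) ^ 2 * (s x ^ 2 * rho N β E x ^ 2) := fun x => by
    simp only [hv, norm_mul, norm_pow, zc_norm, eI_norm, w1, norm_real, Real.norm_eq_abs, mul_pow,
      sq_abs]
    ring
  have e2 : ∀ x, ‖∑ p ∈ range (N + 2 * M + 1), (y p - w * t * κ.coeff p) * zc N β x ^ p‖ ^ 2 =
      (N / 2) ^ 2 * (s x ^ 2 * rho N β E x ^ 2 -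
        2 * t * ((s x : ℂ) ^ 2 * (eI x * rho N β E x)).re + t ^ 2 * s x ^ 2) := fun x => by
    simp only [sub_mul, sum_sub_distrib, mul_assoc, ← mul_sum]
    rw [hv, ← hK, hW.val, show zc N β x ^ M * s x * (w * (eI x * rho N β E x)) -
      w * (t * (zc N β x ^ M * s x)) = zc N β x ^ M * s x * w * (eI x * rho N β E x - t) by ring]
    simp only [norm_mul, norm_pow, zc_norm, w1, norm_real, Real.norm_eq_abs, mul_pow, sq_abs]
    rw [Complex.sq_norm, normSq_apply, ← ofReal_pow, re_ofReal_mul]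
    simp only [sub_re, sub_im, re_mul_ofReal, im_mul_ofReal, ofReal_re, ofReal_im, eI_re, eI_im]
    linear_combination (N / 2) ^ 2 * s x ^ 2 * rho N β E x ^ 2 * Real.cos_sq_add_sin_sq x
  have e3 : ∀ x, ∑ p ∈ range (N + 2 * M + 1),
      (conj (y (N + 2 * M - p)) + conj (eI (2 * β)) * y p) * zc N β x ^ p = 0 := fun x => by
    have a1 : zc N β x * conj (zc N β x) = 1 := by rw [mul_conj', zc_norm]; simp
    have a2 : eI x * conj (eI x) = 1 := by rw [mul_conj', eI_norm]; simp
    have a3 : eI (2 * β) * conj (eI (2 * β)) = 1 := by rw [mul_conj', eI_norm]; simp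
    have a4 := zc_pow hN β x
    have a5 : ∀ k : ℕ, zc N β x ^ k * conj (zc N β x) ^ k = 1 := fun k => by
      rw [← mul_pow, a1, one_pow]
    have a6 : ∑ p ∈ range (N + 2 * M + 1), conj (y (N + 2 * M - p)) * zc N β x ^ p =
        zc N β x ^ (N + 2 * M) * conj (∑ p ∈ range (N + 2 * M + 1), y p * zc N β x ^ p) := by
      rw [map_sum, mul_sum, ← sum_flip]
      refine sum_congr rfl fun p hp => ?_
      obtain ⟨q, hq⟩ := Nat.exists_eq_add_of_le (Nat.lt_succ_iff.1 (mem_range.1 hp))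
      rw [hq, Nat.add_sub_cancel_left, show p + q - q = p by omega, map_mul, map_pow, pow_add]
      linear_combination -(conj (y p) * zc N β x ^ q) * a5 p
    simp only [add_mul, sum_add_distrib, mul_assoc, ← mul_sum]
    rw [a6, hv]
    simp only [map_mul, map_pow, conj_ofReal, w2]
    have a7 : zc N β x ^ N = eI x ^ 2 * conj (eI (2 * β)) := by
      linear_combination conj (eI (2 * β)) * a4 - zc N β x ^ N * a3
    rw [pow_add, two_mul, pow_add, a7]
    linear_combination -(eI x ^ 2 * conj (eI (2 * β)) * zc N β x ^ M * s x * w * conj (eI x) *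
      rho N β E x) * a5 M - eI x * conj (eI (2 * β)) * zc N β x ^ M * s x * w * rho N β E x * a2
  simp only [e3, norm_zero, ne_eq, OfNat.ofNat_ne_zero, not_false_eq_true, zero_pow,
    intervalIntegral.integral_zero] at h3
  have h4 := (sum_eq_zero_iff_of_nonneg fun p _ => sq_nonneg _).1
    ((mul_eq_zero.1 h3.symm).resolve_left (by positivity))
  have h5 := AnA_sum hM r0 r1 (u := fun p => ‖y p‖ ^ 2) (fun p => sq_nonneg _) fun p hp => by
    have a1 := h4 p (mem_range.2 (Nat.lt_succ_of_le hp))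
    rw [sq_eq_zero_iff, norm_eq_zero, add_eq_zero_iff_eq_neg] at a1
    have a2 := congrArg norm a1
    rw [norm_conj, norm_neg, norm_mul, norm_conj, eI_norm, one_mul] at a2
    rw [a2]
  have h6 : ∑ p ∈ range (N + 2 * M + 1), ‖y p‖ ^ 2 ≤
      ∑ p ∈ range (N + 2 * M + 1), (if p ≤ 2 * M then ‖y p‖ ^ 2 else 0) +
        ∑ p ∈ range (N + 2 * M + 1), ‖y p - w * t * κ.coeff p‖ ^ 2 := by
    rw [← sum_add_distrib]
    refine sum_le_sum fun p _ => ?_
    split_ifs with c
    · exact le_add_of_nonneg_right (sq_nonneg _)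
    · rw [Polynomial.coeff_eq_zero_of_natDegree_lt (hW.deg.trans_lt (not_le.1 c))]
      simp
  have h7 := Complex.reCLM.intervalIntegral_comp_comm (a := a - l) (b := a - l + N * π)
    (μ := volume) (f := fun x => (s x : ℂ) ^ 2 * (eI x * rho N β E x))
    (Continuous.intervalIntegrable (by fun_prop) _ _)
  simp only [reCLM_apply] at h7
  simp only [e1, intervalIntegral.integral_const_mul] at h1
  simp only [e2, intervalIntegral.integral_const_mul] at h2
  rw [intervalIntegral.integral_add (Continuous.intervalIntegrable (by fun_prop) _ _)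
    (Continuous.intervalIntegrable (by fun_prop) _ _),
    intervalIntegral.integral_sub (Continuous.intervalIntegrable (by fun_prop) _ _)
    (Continuous.intervalIntegrable (by fun_prop) _ _), intervalIntegral.integral_const_mul,
    intervalIntegral.integral_const_mul, h7] at h2
  simp only [hT]
  rw [AnA_rad r0]
  have c0 : 0 < 4 * π / N := by positivity
  have c1 : ∀ v : ℝ, N * π * v = (N / 2 : ℝ) ^ 2 * (4 * π / N * v) := fun v => by
    field_simp; ring
  rw [c1] at h1 h2
  have c2 : (N / 2 : ℝ) ^ 2 ≠ 0 := by positivity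
  have g1 := mul_left_cancel₀ c2 h1
  have g2 := mul_left_cancel₀ c2 h2
  refine le_trans ?_ (mul_le_mul_of_nonneg_left h5 c0.le)
  have g3 := mul_le_mul_of_nonneg_left (mul_le_mul_of_nonneg_left h6 c0.le)
    (sq_nonneg (r ^ (2 * M) - r ^ N))
  rw [mul_add (4 * π / N), ← g1, ← g2] at g3
  rw [mul_add (4 * π / N), mul_left_comm (4 * π / N), ← g1]
  linarith

end Pool.Agent.P.MP_c09211_an.Sh.GL
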