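import Pool.Agent.P.MP_c09211_an.GL.AnA
import Pool.Agent.P.MP_c09211_an.Sh.Area

/-!
The area of the image of a sector (paper: AN2).
-/

set_option autoImplicit false

namespace Pool.Agent.P.MP_c09211_an.Sh.GL

open Metric Set Finset PowerSeries Complex Filter Topology Real MeasureTheory
open scoped ComplexConjugate

variable {N M : ℕ} {β a b l ϖ : ℝ} {E κ : Polynomial ℂ} {s s' : ℝ → ℝ}

theorem AnA2_pol {N : ℕ} (hN : 0 < N) (β α : ℝ) (z : ℂ) :
    ∃ x ∈ Set.Ioc α (α + N * π), z = (‖z‖ : ℝ) * zc N β x := by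
  have hp : (0 : ℝ) < N * π := by
    have : (0 : ℝ) < N := by exact_mod_cast hN
    positivity
  refine ⟨toIocMod hp α (β + N * arg z / 2), toIocMod_mem_Ioc hp _ _, ?_⟩
  have e : toIocMod hp α (β + N * arg z / 2) =
      β + N * arg z / 2 + ((-toIocDiv hp α (β + N * arg z / 2) : ℤ) : ℝ) * (N * π) := by
    rw [← self_sub_toIocDiv_zsmul, zsmul_eq_mul]
    push_cast
    ring
  rw [e, zc_int hN, zc_theta hN]
  exact (norm_mul_exp_arg_mul_I z).symm

theorem AnA2_kap (hN : 0 < N) (hW : Win N β M a b l ϖ κ s s') {z : ℂ} (hz : ‖z‖ ≤ 1) :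
    ‖κ.eval z‖ ≤ 1 := by
  refine Complex.norm_le_of_forall_mem_frontier_norm_le (U := ball (0 : ℂ) 1) isBounded_ball
    κ.differentiable.diffContOnCl (fun w hw => ?_) ?_
  · rw [frontier_ball _ one_ne_zero, mem_sphere_zero_iff_norm] at hw
    obtain ⟨x, -, hx⟩ := AnA2_pol hN β 0 w
    rw [hw, Complex.ofReal_one, one_mul] at hx
    rw [hx, hW.val, norm_mul, norm_pow, zc_norm, one_pow, one_mul, norm_real,
      Real.norm_of_nonneg (hW.s0 x)]
    exact hW.s1 x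
  · rw [closure_ball _ one_ne_zero]
    exact mem_closedBall_zero_iff.mpr hz

theorem AnA2_num {N M : ℕ} {Λ g A B c b₁ b₂ : ℝ} (Λ0 : 0 < Λ) (hΛ : 2 * Λ ≤ N)
    (hM : 2 * (M : ℝ) ≤ g * N) (g1 : g < 1) (A0 : 0 ≤ A) (B0 : 0 ≤ B) (c0 : 0 ≤ c)
    (c1 : b₁ ≤ 1 - Real.exp (-Λ) - g) (c3 : b₂ ≤ Λ - g * Λ ^ 2 - 3 / 2 - Real.exp (-Λ))
    {u v w L : ℝ} (hL : L * N = -Λ) (hu : u = Real.exp (-Λ)) (v0 : 0 ≤ v) (hv : v ≤ u)
    (hw : w = u ^ 2) :
    (b₁ * A + b₂ * B - 2 * π * c) / 2 ≤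
      N / 2 * (A * ((1 - v) / (N + 2 * M)) +
        B * (-L - 2 * M * L ^ 2 - 2 * ((1 - u) / N) + (1 - w) / (2 * N))) + 2 * π * c * L := by
  have N0 : (0 : ℝ) < N := by linarith
  have M0 : (0 : ℝ) ≤ M := Nat.cast_nonneg M
  have g0 : 0 ≤ g := by
    by_contra h
    have : g * N < 0 := mul_neg_of_neg_of_pos (not_le.mp h) N0
    linarith
  have u0 : 0 < u := hu ▸ Real.exp_pos _
  have u1 : u ≤ 1 := hu ▸ Real.exp_le_one_iff.mpr (by linarith)
  rw [← hu] at c1 c3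
  have k1 : b₁ ≤ N * ((1 - v) / (N + 2 * M)) := by
    rw [← mul_div_assoc, le_div_iff₀ (by positivity)]
    have : b₁ * (N + 2 * M) ≤ (1 - u - g) * (N + 2 * M) :=
      mul_le_mul_of_nonneg_right c1 (by positivity)
    have h2 : 2 * (M : ℝ) * (1 - u - g) ≤ 2 * M * 1 :=
      mul_le_mul_of_nonneg_left (by linarith) (by positivity)
    nlinarith
  have k2 : b₂ ≤ N * (-L - 2 * M * L ^ 2 - 2 * ((1 - u) / N) + (1 - w) / (2 * N)) := by
    have e : N * (-L - 2 * M * L ^ 2 - 2 * ((1 - u) / N) + (1 - w) / (2 * N)) =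
        -(L * N) - 2 * M * (N * L ^ 2) - 2 * (1 - u) + (1 - w) / 2 := by
      field_simp
    have h2 : 2 * (M : ℝ) * (N * L ^ 2) ≤ g * N * (N * L ^ 2) :=
      mul_le_mul_of_nonneg_right hM (by positivity)
    have h3 : g * N * (N * L ^ 2) = g * Λ ^ 2 := by
      have : Λ = -(L * N) := by linarith
      rw [this]
      ring
    rw [e, hL, hw]
    nlinarith
  have k3 : -(1 / 2) ≤ L := by
    by_contra h
    have : L * N < -(1 / 2) * N := mul_lt_mul_of_pos_right (not_le.mp h) N0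
    linarith
  have k4 : 2 * π * c * (-(1 / 2)) ≤ 2 * π * c * L :=
    mul_le_mul_of_nonneg_left k3 (by positivity)
  have k5 := mul_le_mul_of_nonneg_right k1 A0
  have k6 := mul_le_mul_of_nonneg_right k2 B0
  nlinarith

theorem AnA2_int {N M : ℕ} {Λ g A B c b₁ b₂ : ℝ} (Λ0 : 0 < Λ) (hΛ : 2 * Λ ≤ N)
    (hM : 2 * (M : ℝ) ≤ g * N) (g1 : g < 1) (A0 : 0 ≤ A) (B0 : 0 ≤ B) (c0 : 0 ≤ c)
    (c1 : b₁ ≤ 1 - Real.exp (-Λ) - g) (c3 : b₂ ≤ Λ - g * Λ ^ 2 - 3 / 2 - Real.exp (-Λ))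
    {F : ℝ → ℝ} (hF : Continuous F)
    (h : ∀ r, 0 < r → r ≤ 1 →
      r ^ (N + 2 * M) * A + (r ^ (2 * M) - r ^ N) ^ 2 * B ≤ 4 * π / N * (F r + c)) :
    (b₁ * A + b₂ * B - 2 * π * c) / 2 ≤ 2 * π * ∫ r in Real.exp (-Λ / N)..1, F r / r := by
  have N0 : (0 : ℝ) < N := by linarith
  have M0 : (0 : ℝ) ≤ M := Nat.cast_nonneg M
  obtain ⟨n, rfl⟩ : ∃ n, N = n + 1 := Nat.exists_eq_succ_of_ne_zero (by
    rintro rfl
    simp at N0)
  set ρ := Real.exp (-Λ / (n + 1 : ℕ)) with hρ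
  have ρ0 : 0 < ρ := Real.exp_pos _
  have ρ1 : ρ ≤ 1 := Real.exp_le_one_iff.mpr (div_nonpos_of_nonpos_of_nonneg (by linarith) N0.le)
  have hp := Real.pi_pos
  set K : ℝ := ((n + 1 : ℕ) : ℝ) with hK
  set Φ : ℝ → ℝ := fun r => K / 2 * (A * (r ^ (n + 2 * M + 1) / (K + 2 * M)) +
    B * (Real.log r + 2 * M * Real.log r ^ 2 - 2 * (r ^ (n + 1) / K) +
      r ^ (2 * n + 1 + 1) / (2 * K))) - 2 * π * c * Real.log r with hΦ
  set φ : ℝ → ℝ := fun r => K / 2 * (A * r ^ (n + 2 * M) +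
    B * (r⁻¹ + 4 * M * Real.log r * r⁻¹ - 2 * r ^ n + r ^ (2 * n + 1))) - 2 * π * c * r⁻¹ with hφ
  have hu : Set.uIcc ρ 1 = Set.Icc ρ 1 := Set.uIcc_of_le ρ1
  have hne : ∀ r ∈ Set.Icc ρ 1, r ≠ 0 := fun r hr => (ρ0.trans_le hr.1).ne'
  have dΦ : ∀ r ∈ Set.uIcc ρ 1, HasDerivAt Φ (φ r) r := by
    intro r hr
    rw [hu] at hr
    have l1 := Real.hasDerivAt_log (hne r hr)
    have := ((((hasDerivAt_pow (n + 2 * M + 1) r).div_const (K + 2 * M)).const_mul A).add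
      ((((l1.add ((l1.pow 2).const_mul (2 * (M : ℝ)))).sub
        (((hasDerivAt_pow (n + 1) r).div_const K).const_mul 2)).add
        ((hasDerivAt_pow (2 * n + 1 + 1) r).div_const (2 * K))).const_mul B)).const_mul (K / 2)
    have := this.sub (l1.const_mul (2 * π * c))
    refine this.congr_deriv ?_
    have hK' : K = n + 1 := by rw [hK]; push_cast; ring
    have e1 : (K + 2 * M) ≠ 0 := by positivity
    simp only [hφ, Nat.add_sub_cancel]
    have e2 : ((n + 2 * M + 1 : ℕ) : ℝ) = K + 2 * M := by rw [hK']; push_cast; ring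
    have e3 : ((2 * n + 1 + 1 : ℕ) : ℝ) = 2 * K := by rw [hK']; push_cast; ring
    rw [e2, e3, ← hK]
    have := hne r hr
    field_simp
    ring
  have cφ : ContinuousOn φ (Set.Icc ρ 1) := by
    have c1 : ContinuousOn (fun r : ℝ => r⁻¹) (Set.Icc ρ 1) := continuousOn_id.inv₀ hne
    have c2 : ContinuousOn Real.log (Set.Icc ρ 1) := continuousOn_id.log hne
    rw [hφ]
    fun_prop
  have iφ : IntervalIntegrable φ volume ρ 1 := (hu ▸ cφ).intervalIntegrable
  have iF : IntervalIntegrable (fun r => 2 * π * (F r / r)) volume ρ 1 := by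
    refine ContinuousOn.intervalIntegrable ?_
    rw [hu]
    exact continuousOn_const.mul (hF.continuousOn.div continuousOn_id hne)
  have le1 : ∫ r in ρ..1, φ r ≤ ∫ r in ρ..1, 2 * π * (F r / r) := by
    refine intervalIntegral.integral_mono_on ρ1 iφ iF fun r hr => ?_
    have r0 : 0 < r := ρ0.trans_le hr.1
    have h1 := h r r0 hr.2
    have h2 : 1 + 4 * M * Real.log r ≤ (r ^ (2 * M)) ^ 2 := by
      have : (r ^ (2 * M)) ^ 2 = Real.exp (4 * M * Real.log r) := by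
        rw [← pow_mul, ← Real.exp_log r0, ← Real.exp_nat_mul, Real.exp_log r0]
        congr 1
        push_cast
        ring
      rw [this]
      linarith [Real.add_one_le_exp (4 * M * Real.log r)]
    have h3 : r ^ (2 * M) ≤ 1 := pow_le_one₀ r0.le hr.2
    have h4 : 0 ≤ r ^ (n + 1) := by positivity
    have h5 : 1 + 4 * M * Real.log r - 2 * r ^ (n + 1) + (r ^ (n + 1)) ^ 2 ≤
        (r ^ (2 * M) - r ^ (n + 1)) ^ 2 := by nlinarith
    have h6 := mul_le_mul_of_nonneg_right h5 B0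
    have h7 : r ^ (n + 1 + 2 * M) * A +
        (1 + 4 * M * Real.log r - 2 * r ^ (n + 1) + (r ^ (n + 1)) ^ 2) * B ≤
          4 * π / K * (F r + c) := by linarith
    have h8 := mul_le_mul_of_nonneg_left h7 (show 0 ≤ K / 2 / r by positivity)
    have e1 : φ r = K / 2 / r * (r ^ (n + 1 + 2 * M) * A +
        (1 + 4 * M * Real.log r - 2 * r ^ (n + 1) + (r ^ (n + 1)) ^ 2) * B) - 2 * π * c / r := by
      simp only [hφ]
      field_simp
      ring
    have e2 : K / 2 / r * (4 * π / K * (F r + c)) = 2 * π * (F r / r) + 2 * π * c / r := by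
      field_simp
      ring
    linarith
  rw [intervalIntegral.integral_const_mul, intervalIntegral.integral_eq_sub_of_hasDerivAt dΦ iφ]
    at le1
  have hL : Real.log ρ * K = -Λ := by
    rw [hρ, Real.log_exp]
    field_simp
  have hu' : ρ ^ (n + 1) = Real.exp (-Λ) := by
    rw [← hL, ← Real.exp_log ρ0, ← Real.exp_nat_mul, Real.exp_log ρ0, mul_comm]
  have key := AnA2_num (N := n + 1) Λ0 hΛ hM g1 A0 B0 c0 c1 c3 hL hu'
    (v := ρ ^ (n + 2 * M + 1)) (w := ρ ^ (2 * n + 1 + 1)) (by positivity)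
    (pow_le_pow_of_le_one ρ0.le ρ1 (by omega)) (by rw [← pow_mul]; congr 1; ring)
  refine key.trans (le_trans (le_of_eq ?_) le1)
  simp only [hΦ, one_pow, Real.log_one, ← hK]
  ring

theorem AnA2_vol (hi : InjOn (fun z => E.eval z) (ball 0 1)) {V : Set ℂ} (hV : MeasurableSet V)
    (hs : V ⊆ ball 0 1) :
    volume ((fun z => E.eval z) '' V) = ∫⁻ z in V, ENNReal.ofReal (‖E.derivative.eval z‖ ^ 2) := by
  have := lintegral_image_eq_lintegral_abs_det_fderiv_mul volume hV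
    (f := fun z => E.eval z)
    (f' := fun z => (ContinuousLinearMap.toSpanSingleton ℂ (E.derivative.eval z)).restrictScalars ℝ)
    (fun z _ => ((E.hasDerivAt z).hasFDerivAt.restrictScalars ℝ).hasFDerivWithinAt)
    (hi.mono hs) (fun _ => 1)
  rw [setLIntegral_one] at this
  rw [this]
  refine lintegral_congr fun z => ?_
  rw [area_det, mul_one, abs_of_nonneg (sq_nonneg _)]

theorem an_area (hd : E.natDegree < N) (H : SI N β E) (hi : InjOn (fun z => E.eval z) (ball 0 1))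
    (hW : Win N β M a b l ϖ κ s s') {Λ g R b₁ b₂ : ℝ} (Λ0 : 0 < Λ) (hΛ : 2 * Λ ≤ N)
    (hM : 2 * (M : ℝ) ≤ g * N) (g1 : g < 1) (l0 : 0 < l) (h1 : 2 * l ≤ b - a)
    (h2 : b - a + 2 * l ≤ N * π) (hR : ∀ z : ℂ, ‖z‖ ≤ 1 → ‖E.derivative.eval z‖ ≤ R)
    (c1 : b₁ ≤ 1 - Real.exp (-Λ) - g) (c2 : 0 ≤ b₂)
    (c3 : b₂ ≤ Λ - g * Λ ^ 2 - 3 / 2 - Real.exp (-Λ)) (t : ℝ) :
    ∃ V : Set ℂ, MeasurableSet V ∧ V ⊆ Sec N β (Real.exp (-Λ / N)) (a - l) (b + l) ∧
      ENNReal.ofReal ((b₁ * (∫ x in (a - l)..(a - l + N * π), s x ^ 2 * rho N β E x ^ 2) +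
        b₂ * (2 * t * (∫ x in (a - l)..(a - l + N * π), (s x : ℂ) ^ 2 * (eI x * rho N β E x)).re -
          t ^ 2 * ∫ x in (a - l)..(a - l + N * π), s x ^ 2) - 2 * π * (ϖ * R) ^ 2) / 2) ≤
        volume ((fun z => E.eval z) '' V) := by
  have N0 : (0 : ℝ) < N := by linarith
  have hN : 0 < N := by exact_mod_cast N0
  have hM' : 2 * M < N := by
    have : 2 * (M : ℝ) < N := by nlinarith
    exact_mod_cast this
  have hp := Real.pi_pos
  set ρ := Real.exp (-Λ / N) with hρ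
  have ρ0 : 0 < ρ := Real.exp_pos _
  have ρ1 : ρ < 1 := Real.exp_lt_one_iff.mpr (div_neg_of_neg_of_pos (by linarith) N0)
  have ρ2 : 1 / 2 ≤ ρ := by
    have h3 : -(1 / 2) ≤ -Λ / N := by
      rw [le_div_iff₀ N0]
      linarith
    linarith [Real.add_one_le_exp (-Λ / N)]
  set T : ℂ → ℝ := fun z => ‖κ.eval z * (z * E.derivative.eval z)‖ ^ 2 with hT
  have cT : Continuous T := by
    have := κ.continuous
    have := E.derivative.continuous
    rw [hT]
    fun_prop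
  set G : ℂ → ℝ := fun z => max (T z - (ϖ * R) ^ 2) 0 with hG
  have cG : Continuous G := (cT.sub continuous_const).max continuous_const
  have G0 : ∀ z, 0 ≤ G z := fun z => le_max_right _ _
  have hA : MeasurableSet (ball (0 : ℂ) 1 \ closedBall 0 ρ) :=
    measurableSet_ball.diff measurableSet_closedBall
  have hP : MeasurableSet {z | 0 < G z} := (isOpen_lt continuous_const cG).measurableSet
  refine ⟨(ball (0 : ℂ) 1 \ closedBall 0 ρ) ∩ {z | 0 < G z}, hA.inter hP, ?_, ?_⟩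
  · rintro z ⟨⟨z1, z2⟩, z3⟩
    rw [mem_ball_zero_iff] at z1
    rw [mem_closedBall_zero_iff, not_le] at z2
    obtain ⟨x, hx, e⟩ := AnA2_pol hN β (a - l) z
    refine ⟨‖z‖, ⟨z2, z1⟩, x, ⟨hx.1, ?_⟩, e⟩
    by_contra hb
    have k1 := (hW.far x ⟨not_lt.mp hb, hx.2⟩).2 ‖z‖ ⟨by linarith, z1.le⟩
    rw [← e] at k1
    have k2 := hR z z1.le
    have k3 : ‖κ.eval z * (z * E.derivative.eval z)‖ ≤ ϖ * R := by
      rw [norm_mul, norm_mul]
      refine mul_le_mul k1 ?_ (by positivity) ((norm_nonneg _).trans k1)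
      exact (mul_le_of_le_one_left (norm_nonneg _) z1.le).trans k2
    have k4 : T z ≤ (ϖ * R) ^ 2 := pow_le_pow_left₀ (norm_nonneg _) k3 2
    have : G z = 0 := max_eq_right (by linarith)
    exact absurd z3 (by rw [Set.mem_ofPred_eq, this]; exact lt_irrefl _)
  rw [AnA2_vol hi (hA.inter hP) (inter_subset_left.trans Set.sdiff_subset)]
  have k1 : ∫⁻ z in ball (0 : ℂ) 1 \ closedBall 0 ρ, ENNReal.ofReal (G z / ‖z‖ ^ 2) ≤
      ∫⁻ z in (ball (0 : ℂ) 1 \ closedBall 0 ρ) ∩ {z | 0 < G z},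
        ENNReal.ofReal (‖E.derivative.eval z‖ ^ 2) := by
    rw [Set.inter_comm, ← Measure.restrict_restrict hP, ← lintegral_indicator hP]
    refine setLIntegral_mono' hA fun z hz => ?_
    by_cases h : 0 < G z
    · rw [Set.indicator_of_mem (show z ∈ {z | 0 < G z} from h)]
      refine ENNReal.ofReal_le_ofReal ?_
      have z1 := mem_ball_zero_iff.mp hz.1
      have z2 : ρ < ‖z‖ := not_le.mp fun h' => hz.2 (mem_closedBall_zero_iff.mpr h')
      have z0 : 0 < ‖z‖ := ρ0.trans z2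
      rw [div_le_iff₀ (by positivity)]
      have m1 : T z ≤ ‖E.derivative.eval z‖ ^ 2 * ‖z‖ ^ 2 := by
        rw [← mul_pow]
        refine pow_le_pow_left₀ (norm_nonneg _) ?_ 2
        rw [norm_mul, norm_mul, mul_comm ‖z‖]
        exact mul_le_of_le_one_left (by positivity) (AnA2_kap hN hW z1.le)
      exact max_le (by linarith [sq_nonneg (ϖ * R)]) (by positivity)
    · have : G z = 0 := le_antisymm (not_lt.mp h) (G0 z)
      rw [this, zero_div, ENNReal.ofReal_zero]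
      exact bot_le
  refine le_trans ?_ ((area_pol cG.measurable G0 ρ0 ρ1).trans k1)
  refine ENNReal.ofReal_le_ofReal ?_
  have hav : ∀ r, circleAverage T 0 r ≤ circleAverage G 0 r + (ϖ * R) ^ 2 := by
    intro r
    have iG : CircleIntegrable G 0 r := cG.continuousOn.circleIntegrable'
    have iT : CircleIntegrable T 0 r := cT.continuousOn.circleIntegrable'
    have ic : CircleIntegrable (fun _ : ℂ => (ϖ * R) ^ 2) 0 r := circleIntegrable_const _ _ _
    rw [← circleAverage_const ((ϖ * R) ^ 2) 0 r, ← circleAverage_fun_add iG ic]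
    refine circleAverage_mono iT (iG.add ic) fun z _ => ?_
    have : T z - (ϖ * R) ^ 2 ≤ G z := le_max_left _ _
    linarith
  have A0 : 0 ≤ ∫ x in (a - l)..(a - l + N * π), s x ^ 2 * rho N β E x ^ 2 :=
    intervalIntegral.integral_nonneg (by nlinarith) fun x _ => by positivity
  have hq : 0 ≤ 4 * π / N := by positivity
  have main : ∀ t : ℝ, 0 ≤ 2 * t * (∫ x in (a - l)..(a - l + N * π),
        (s x : ℂ) ^ 2 * (eI x * rho N β E x)).re - t ^ 2 * ∫ x in (a - l)..(a - l + N * π), s x ^ 2 →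
      (b₁ * (∫ x in (a - l)..(a - l + N * π), s x ^ 2 * rho N β E x ^ 2) +
        b₂ * (2 * t * (∫ x in (a - l)..(a - l + N * π), (s x : ℂ) ^ 2 * (eI x * rho N β E x)).re -
          t ^ 2 * ∫ x in (a - l)..(a - l + N * π), s x ^ 2) - 2 * π * (ϖ * R) ^ 2) / 2 ≤
        2 * π * ∫ r in ρ..1, circleAverage G 0 r / r := fun t B0 =>
    AnA2_int Λ0 hΛ hM g1 A0 B0 (sq_nonneg _) c1 c3 cG.circleAverage fun r r0 r1 =>
      (an_circle hd H hW hM' r0 r1 t).trans (mul_le_mul_of_nonneg_left (hav r) hq)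
  by_cases hB : 0 ≤ 2 * t * (∫ x in (a - l)..(a - l + N * π),
      (s x : ℂ) ^ 2 * (eI x * rho N β E x)).re - t ^ 2 * ∫ x in (a - l)..(a - l + N * π), s x ^ 2
  · exact main t hB
  · have m0 := main 0 (by simp)
    have := mul_nonpos_of_nonneg_of_nonpos c2 (not_le.mp hB).le
    simp only [mul_zero, zero_mul, ne_eq, OfNat.ofNat_ne_zero, not_false_eq_true, zero_pow,
      sub_zero, add_zero] at m0
    linarith

end Pool.Agent.P.MP_c09211_an.Sh.GL
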