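import Pool.Agent.P.MP_c09211_an.GL.Basic

/-!
Means against periodic factors (paper: AN3).
-/

set_option autoImplicit false

namespace Pool.Agent.P.MP_c09211_an.Sh.GL

open Metric Set Finset PowerSeries Complex Filter Topology Real MeasureTheory
open scoped ComplexConjugate

variable {N M : ℕ} {β a b l ϖ : ℝ} {E κ : Polynomial ℂ} {s s' : ℝ → ℝ}

theorem AnB_zc_ne (N : ℕ) (β x : ℝ) : zc N β x ≠ 0 := eI_ne _

theorem AnB_zc_cont (N : ℕ) (β : ℝ) : Continuous (zc N β) :=
  continuous_iff_continuousAt.2 fun x => (zc_deriv N β x).continuousAt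

theorem AnB_zpow_cont (N : ℕ) (β : ℝ) (j : ℤ) : Continuous fun x => zc N β x ^ j :=
  (AnB_zc_cont N β).zpow₀ j fun x => Or.inl (AnB_zc_ne N β x)

theorem AnB_mean {G : ℝ → ℂ} (hG : Continuous G) (hp : ∀ x, G (x + π) = G x) (N : ℕ) (α : ℝ) :
    ∫ x in α..(α + N * π), G x = N * ∫ x in (0 : ℝ)..π, G x := by
  have h : Function.Periodic G π := hp
  have h1 := h.intervalIntegral_add_zsmul_eq N α fun a b => hG.intervalIntegrable a b
  rw [h.intervalIntegral_add_eq α 0, zero_add, zsmul_eq_mul, zsmul_eq_mul] at h1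
  exact_mod_cast h1

theorem an_per (hN : 0 < N) {G : ℝ → ℂ} (hG : Continuous G) (hp : ∀ x, G (x + π) = G x) (β α : ℝ)
    {j : ℤ} (hj : ¬(N : ℤ) ∣ j) : ∫ x in α..(α + N * π), zc N β x ^ j * G x = 0 := by
  have hN' : (N : ℂ) ≠ 0 := by exact_mod_cast hN.ne'
  have h1 : ∀ x, zc N β (x + π) = eI (2 * π / N) * zc N β x := fun x => by
    rw [zc, zc, ← eI_add]
    congr 1
    ring
  have h2 : eI (2 * π / N) ^ j ≠ 1 := fun h => by
    rw [eI, ← Complex.exp_int_mul, Complex.exp_eq_one_iff] at h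
    obtain ⟨n, hn⟩ := h
    have h3 : (π : ℂ) ≠ 0 := by exact_mod_cast Real.pi_ne_zero
    push_cast at hn
    field_simp at hn
    exact hj ⟨n, by exact_mod_cast hn⟩
  have h3 : Function.Periodic (fun x => zc N β x ^ j * G x) (N * π) := fun x => by
    simp only [zc_per hN, Function.Periodic.nat_mul hp N x]
  have h4 := h3.intervalIntegral_add_eq α (α + π)
  have h5 := intervalIntegral.integral_comp_add_right (a := α) (b := α + N * π)
    (fun x => zc N β x ^ j * G x) π
  rw [add_right_comm α (N * π) π, ← h4] at h5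
  simp only [h1, hp, mul_zpow, mul_assoc, intervalIntegral.integral_const_mul] at h5
  exact (mul_left_eq_self₀.1 h5).resolve_left h2

/-- Only two monomials contribute. -/
theorem AnB_two {G : ℝ → ℂ} (hG : Continuous G) (hp : ∀ x, G (x + π) = G x) (β α : ℝ)
    {Q : Polynomial ℂ} {d : ℕ} (hd : d < N) (hQ : Q.natDegree < d + 2 * N) {q : ℝ → ℂ}
    (hq : ∀ x, Q.eval (zc N β x) = zc N β x ^ d * q x) :
    ∫ x in α..(α + N * π), q x * G x = Q.coeff d * (∫ x in α..(α + N * π), G x) +
      Q.coeff (d + N) * ∫ x in α..(α + N * π), zc N β x ^ N * G x := by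
  have hN : 0 < N := by omega
  have e : ∀ x, q x * G x = ∑ m ∈ Finset.range (d + 2 * N),
      Q.coeff m * (zc N β x ^ ((m : ℤ) - d) * G x) := fun x => by
    have h0 := AnB_zc_ne N β x
    have h1 := hq x
    rw [Polynomial.eval_eq_sum_range' hQ] at h1
    rw [(eq_inv_mul_iff_mul_eq₀ (pow_ne_zero d h0)).2 h1.symm, Finset.mul_sum, Finset.sum_mul]
    refine Finset.sum_congr rfl fun m _ => ?_
    rw [zpow_sub₀ h0, zpow_natCast, zpow_natCast]
    ring
  simp only [e]
  rw [intervalIntegral.integral_finsetSum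
    (f := fun (m : ℕ) x => Q.coeff m * (zc N β x ^ ((m : ℤ) - d) * G x)) fun m _ =>
    (continuous_const.mul ((AnB_zpow_cont N β _).mul hG)).intervalIntegrable _ _]
  simp only [intervalIntegral.integral_const_mul]
  rw [Finset.sum_eq_add_of_mem d (d + N) (Finset.mem_range.2 (by omega))
    (Finset.mem_range.2 (by omega)) (by omega)]
  · simp
  · intro m hm h
    rw [an_per hN hG hp, mul_zero]
    rintro ⟨k, hk⟩
    have hm' := Finset.mem_range.1 hm
    have hN' : (0 : ℤ) < N := by exact_mod_cast hN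
    have k0 : -1 < k := by
      by_contra h1
      have : (N : ℤ) * k ≤ N * (-1) := mul_le_mul_of_nonneg_left (not_lt.1 h1) hN'.le
      omega
    have k1 : k < 2 := by
      by_contra h1
      have : (N : ℤ) * 2 ≤ N * k := mul_le_mul_of_nonneg_left (not_lt.1 h1) hN'.le
      omega
    interval_cases k <;> omega

theorem AnB_sq (hW : Win N β M a b l ϖ κ s s') (x : ℝ) :
    (κ ^ 2).eval (zc N β x) = zc N β x ^ (2 * M) * (s x : ℂ) ^ 2 := by
  rw [Polynomial.eval_pow, hW.val]
  ring

theorem AnB_deg (hW : Win N β M a b l ϖ κ s s') : (κ ^ 2).natDegree ≤ 4 * M :=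
  Polynomial.natDegree_pow_le.trans (by have := hW.deg; omega)

theorem AnB_eI {f : ℝ → ℝ} (fc : Continuous f) (fo : ∫ x in (0 : ℝ)..π, f x * Real.sin x = 0)
    (c : ℝ) : ∫ x in (0 : ℝ)..π, ((Real.cos x : ℂ) + c * I * Real.sin x) * f x =
      (∫ x in (0 : ℝ)..π, f x * Real.cos x : ℝ) := by
  have e : ∀ x, ((Real.cos x : ℂ) + c * I * Real.sin x) * f x =
      ((f x * Real.cos x : ℝ) : ℂ) + c * I * ((f x * Real.sin x : ℝ) : ℂ) := fun x => by
    rw [Complex.ofReal_mul, Complex.ofReal_mul]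
    ring
  simp only [e]
  rw [intervalIntegral.integral_add (Continuous.intervalIntegrable (by fun_prop) _ _)
    (Continuous.intervalIntegrable (by fun_prop) _ _), intervalIntegral.integral_const_mul,
    intervalIntegral.integral_ofReal, intervalIntegral.integral_ofReal, fo]
  simp

theorem AnB_key (hd : E.natDegree < N) (H : SI N β E) (hW : Win N β M a b l ϖ κ s s')
    (hM : 2 * M < N) (α : ℝ) : ∃ c : ℂ, ∀ f : ℝ → ℝ, Continuous f → (∀ x, f (x + π) = -f x) →
      ∫ x in (0 : ℝ)..π, f x * Real.sin x = 0 →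
      ((∫ x in α..(α + N * π), s x ^ 2 * rho N β E x * f x : ℝ) : ℂ) =
        c * (∫ x in (0 : ℝ)..π, f x * Real.cos x : ℝ) := by
  have hN : 0 < N := by omega
  set Q := κ ^ 2 * (Polynomial.C (2 / N * I) * (Polynomial.X * E.derivative)) with hQ
  have hQ1 : Q.natDegree < 2 * M + 2 * N := by
    have h1 := AnB_deg hW
    have h2 : (Polynomial.X * E.derivative).natDegree ≤ 1 + (E.natDegree - 1) :=
      Polynomial.natDegree_mul_le.trans
        (add_le_add Polynomial.natDegree_X_le (Polynomial.natDegree_derivative_le E))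
    have h3 := Polynomial.natDegree_C_mul_le (2 / N * I) (Polynomial.X * E.derivative)
    have h4 : Q.natDegree ≤ _ := Polynomial.natDegree_mul_le
    omega
  have hQ2 : ∀ x, Q.eval (zc N β x) =
      zc N β x ^ (2 * M) * ((s x : ℂ) ^ 2 * (eI x * rho N β E x)) := fun x => by
    rw [hQ, Polynomial.eval_mul, AnB_sq hW, Polynomial.eval_mul, Polynomial.eval_mul,
      Polynomial.eval_C, Polynomial.eval_X, H.pt hd, mul_assoc]
  refine ⟨N * (Q.coeff (2 * M) + Q.coeff (2 * M + N) * eI (-(2 * β))), fun f fc fa fo => ?_⟩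
  have hp : ∀ x, eI (x + π) = -eI x := fun x => by rw [eI_add, eI_pi, mul_neg_one]
  have hc := eI_cont
  have h1 := AnB_two (G := fun x => eI (-x) * f x) (by fun_prop)
    (fun x => by simp only [eI_neg, hp, fa, map_neg, Complex.ofReal_neg, neg_mul_neg]) β α hM hQ1
    hQ2
  have e1 : ∀ x, (s x : ℂ) ^ 2 * (eI x * rho N β E x) * (eI (-x) * f x) =
      ((s x ^ 2 * rho N β E x * f x : ℝ) : ℂ) := fun x => by
    push_cast
    linear_combination (s x : ℂ) ^ 2 * rho N β E x * f x * eI_mul_neg x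
  have e2 : ∀ x, zc N β x ^ N * (eI (-x) * f x) = eI (-(2 * β)) * (eI x * f x) := fun x => by
    linear_combination (eI (-(2 * β)) * eI (-x) * f x) * zc_pow hN β x -
      zc N β x ^ N * eI (-x) * f x * eI_mul_neg (2 * β) + eI (-(2 * β)) * eI x * f x * eI_mul_neg x
  have e3 : ∀ x, eI x = (Real.cos x : ℂ) + (1 : ℝ) * I * Real.sin x := fun x => by
    apply Complex.ext <;> simp [eI_re, eI_im, -Complex.ofReal_cos, -Complex.ofReal_sin]
  have e4 : ∀ x, eI (-x) = (Real.cos x : ℂ) + (-1 : ℝ) * I * Real.sin x := fun x => by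
    apply Complex.ext <;> simp [eI_re, eI_im, -Complex.ofReal_cos, -Complex.ofReal_sin]
  simp only [e1, e2, intervalIntegral.integral_const_mul, intervalIntegral.integral_ofReal] at h1
  rw [AnB_mean (G := fun x => eI (-x) * f x) (by fun_prop)
    (fun x => by simp only [eI_neg, hp, fa, map_neg, Complex.ofReal_neg, neg_mul_neg]),
    AnB_mean (G := fun x => eI x * f x) (by fun_prop)
    (fun x => by simp only [hp, fa, Complex.ofReal_neg, neg_mul_neg])] at h1
  have h2 := AnB_eI fc fo 1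
  have h3 := AnB_eI fc fo (-1)
  simp only [← e3] at h2
  simp only [← e4] at h3
  rw [h1, h2, h3]
  ring

theorem an_f (hd : E.natDegree < N) (H : SI N β E) (hW : Win N β M a b l ϖ κ s s')
    (hM : 2 * M < N) {f : ℝ → ℝ} (fc : Continuous f) (fa : ∀ x, f (x + π) = -f x)
    (fo : ∫ x in (0 : ℝ)..π, f x * Real.sin x = 0) (α : ℝ) :
    ∫ x in α..(α + N * π), s x ^ 2 * rho N β E x * f x =
      2 * ((∫ x in (0 : ℝ)..π, f x * Real.cos x) / π) *
        (∫ x in α..(α + N * π), (s x : ℂ) ^ 2 * (eI x * rho N β E x)).re := by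
  obtain ⟨c, hc⟩ := AnB_key hd H hW hM α
  have h1 := hc f fc fa fo
  have h2 := hc Real.cos Real.continuous_cos Real.cos_add_pi (by
    simp only [mul_comm (Real.cos _), integral_sin_mul_cos₁]
    simp)
  have h3 : ∫ x in (0 : ℝ)..π, Real.cos x * Real.cos x = π / 2 := by
    simp only [← pow_two, integral_cos_sq]
    simp
  have hs : Continuous s := continuous_iff_continuousAt.2 fun x => (hW.der x).continuousAt
  have hr := (H.crv hd).cont
  have he := eI_cont
  have h4 : (∫ x in α..(α + N * π), (s x : ℂ) ^ 2 * (eI x * rho N β E x)).re =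
      ∫ x in α..(α + N * π), s x ^ 2 * rho N β E x * Real.cos x := by
    refine (Complex.reCLM.intervalIntegral_comp_comm
      (Continuous.intervalIntegrable (by fun_prop) _ _)).symm.trans ?_
    refine intervalIntegral.integral_congr fun x _ => ?_
    simp only [Complex.reCLM_apply, ← Complex.ofReal_pow, Complex.re_ofReal_mul,
      Complex.re_mul_ofReal, eI_re]
    ring
  have h5 : (π : ℂ) ≠ 0 := by exact_mod_cast Real.pi_ne_zero
  rw [h4]
  apply Complex.ofReal_injective
  rw [Complex.ofReal_mul, h1, h2, h3]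
  push_cast
  field_simp

theorem an_ff (hW : Win N β M a b l ϖ κ s s') (hM : 2 * M < N) {f : ℝ → ℝ} (fc : Continuous f)
    (fa : ∀ x, f (x + π) = -f x) (α : ℝ) :
    ∫ x in α..(α + N * π), s x ^ 2 * f x ^ 2 =
      (∫ x in (0 : ℝ)..π, f x ^ 2) / π * ∫ x in α..(α + N * π), s x ^ 2 := by
  have hd := AnB_deg hW
  have h0 : (κ ^ 2).coeff (2 * M + N) = 0 := Polynomial.coeff_eq_zero_of_natDegree_lt (by omega)
  have hp : ∀ x, ((f (x + π) ^ 2 : ℝ) : ℂ) = (f x ^ 2 : ℝ) := fun x => by rw [fa, neg_sq]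
  have h1 := AnB_two (G := fun x => ((f x ^ 2 : ℝ) : ℂ)) (by fun_prop) hp β α hM (by omega)
    (AnB_sq hW)
  have h2 := AnB_two (G := fun _ => 1) continuous_const (fun _ => rfl) β α hM (by omega)
    (AnB_sq hW)
  rw [h0, zero_mul, add_zero] at h1 h2
  rw [AnB_mean (G := fun x => ((f x ^ 2 : ℝ) : ℂ)) (by fun_prop) hp] at h1
  simp only [← Complex.ofReal_pow, ← Complex.ofReal_mul, mul_one, intervalIntegral.integral_ofReal,
    intervalIntegral.integral_const] at h1 h2
  have h5 : (π : ℂ) ≠ 0 := by exact_mod_cast Real.pi_ne_zero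
  apply Complex.ofReal_injective
  rw [Complex.ofReal_mul, h1, h2, Complex.real_smul]
  push_cast
  field_simp
  ring

end Pool.Agent.P.MP_c09211_an.Sh.GL
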