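import Pool.Agent.P.MP_c09211_an.GL.Basic

/-!
Integration by parts (paper: AN4).
-/

set_option autoImplicit false

namespace Pool.Agent.P.MP_c09211_an.Sh.GL

open Metric Set Finset PowerSeries Complex Filter Topology Real MeasureTheory
open scoped ComplexConjugate

variable {N M : ℕ} {β a b l ϖ : ℝ} {E κ : Polynomial ℂ} {s s' : ℝ → ℝ}

theorem AnB2_piece {c c' : ℝ → ℂ} (hc : ∀ x, HasDerivAt c (c' x) x) (hc' : Continuous c')
    (hs : ∀ x, HasDerivAt s (s' x) x) (hs' : Continuous s') (s0 : ∀ x, 0 ≤ s x)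
    (s1 : ∀ x, s x ≤ 1) {p q e : ℝ} {K : ℂ} (hpq : p ≤ q)
    (he : ∀ x ∈ Set.Icc p q, ‖c x - K‖ ≤ e) :
    ‖(∫ x in p..q, (s x : ℂ) ^ 2 * c' x) -
      ((s q : ℂ) ^ 2 * (c q - K) - (s p : ℂ) ^ 2 * (c p - K))‖ ≤ 2 * e * ∫ x in p..q, |s' x| := by
  have cs : Continuous fun x => (s x : ℂ) := Complex.continuous_ofReal.comp
    (continuous_iff_continuousAt.2 fun x => (hs x).continuousAt)
  have cs' : Continuous fun x => (s' x : ℂ) := Complex.continuous_ofReal.comp hs'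
  have cc : Continuous c := continuous_iff_continuousAt.2 fun x => (hc x).continuousAt
  have i1 : IntervalIntegrable (fun x => (s x : ℂ) ^ 2 * c' x) volume p q :=
    ((cs.pow 2).mul hc').intervalIntegrable p q
  have i2 : IntervalIntegrable (fun x => 2 * (s x : ℂ) * s' x * (c x - K)) volume p q :=
    (((continuous_const.mul cs).mul cs').mul (cc.sub continuous_const)).intervalIntegrable p q
  have hF : ∀ x, HasDerivAt (fun x => (s x : ℂ) ^ 2 * (c x - K))
      ((s x : ℂ) ^ 2 * c' x + 2 * (s x : ℂ) * s' x * (c x - K)) x := by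
    intro x
    have h := (((hs x).ofReal_comp).fun_pow 2).fun_mul ((hc x).sub_const K)
    refine h.congr_deriv ?_
    norm_num
    ring
  have h1 := intervalIntegral.integral_eq_sub_of_hasDerivAt (fun x _ => hF x) (i1.add i2)
  rw [intervalIntegral.integral_add i1 i2] at h1
  rw [← h1, sub_add_cancel_left, norm_neg, ← intervalIntegral.integral_const_mul]
  refine intervalIntegral.norm_integral_le_of_norm_le hpq (Eventually.of_forall fun x hx => ?_)
    ((continuous_const.mul hs'.abs).intervalIntegrable p q)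
  have h2 := he x (Set.Ioc_subset_Icc_self hx)
  rw [norm_mul, norm_mul, norm_mul, Complex.norm_real, Complex.norm_real, Real.norm_eq_abs,
    Real.norm_eq_abs, abs_of_nonneg (s0 x), Complex.norm_two]
  have h3 : s x * ‖c x - K‖ ≤ e := (mul_le_of_le_one_left (norm_nonneg _) (s1 x)).trans h2
  have h4 := mul_le_mul_of_nonneg_right h3 (abs_nonneg (s' x))
  linarith

theorem AnB2_small {n p q : ℝ} (hn : 0 < n) (hs' : Continuous s') (hpq : p ≤ q)
    (h : ∀ x ∈ Set.Icc p q, n * |s' x| ≤ ϖ) : ∫ x in p..q, |s' x| ≤ ϖ / n * (q - p) := by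
  have h1 : ∫ x in p..q, |s' x| ≤ ∫ _ in p..q, ϖ / n :=
    intervalIntegral.integral_mono_on hpq (hs'.abs.intervalIntegrable p q)
      intervalIntegrable_const fun x hx => by
        rw [le_div_iff₀' hn]
        exact h x hx
  rwa [intervalIntegral.integral_const, smul_eq_mul, mul_comm] at h1

theorem AnB2_bdry {A : ℂ} {R u v : ℝ} (hA : ‖A‖ ≤ R) (w1 : ϖ ≤ 1) (u0 : 0 ≤ u) (u1 : u ≤ ϖ)
    (v0 : 1 - ϖ ≤ v) (v1 : v ≤ 1) :
    ‖A * (1 - (v : ℂ) ^ 2 + (u : ℂ) ^ 2)‖ ≤ 3 * (ϖ * R) := by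
  have e : (1 - (v : ℂ) ^ 2 + (u : ℂ) ^ 2) = ((1 - v ^ 2 + u ^ 2 : ℝ) : ℂ) := by push_cast; ring
  have h1 : |1 - v ^ 2 + u ^ 2| ≤ 3 * ϖ := by
    rw [abs_le]
    constructor <;> nlinarith
  rw [e, norm_mul, Complex.norm_real, Real.norm_eq_abs]
  have h2 := mul_le_mul hA h1 (abs_nonneg _) ((norm_nonneg _).trans hA)
  linarith

theorem an_parts (hd : E.natDegree < N) (H : SI N β E) (hW : Win N β M a b l ϖ κ s s')
    (l0 : 0 < l) (h1 : 2 * l ≤ b - a) (h2 : b - a + 2 * l ≤ N * π) {R e : ℝ} {A B : ℂ}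
    (hR : ∀ x, ‖cv N β E x‖ ≤ R) (hA : ‖A‖ ≤ R) (hB : ‖B‖ ≤ R) (w1 : ϖ ≤ 1)
    (ea : ∀ x ∈ Set.Icc (a - l) (a + l), ‖cv N β E x - A‖ ≤ e)
    (eb : ∀ x ∈ Set.Icc (b - l) (b + l), ‖cv N β E x - B‖ ≤ e) :
    ‖(∫ x in (a - l)..(a - l + N * π), (s x : ℂ) ^ 2 * (eI x * rho N β E x)) - (B - A)‖ ≤
      4 * e + 13 * (ϖ * R) := by
  have hN : 0 < N := lt_of_le_of_lt (Nat.zero_le _) hd
  have hN' : (0 : ℝ) < N := Nat.cast_pos.2 hN
  have C := H.crv hd
  have hc' : Continuous fun x => eI x * (rho N β E x : ℂ) :=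
    eI_cont.mul (Complex.continuous_ofReal.comp C.cont)
  have hs : Continuous s := continuous_iff_continuousAt.2 fun x => (hW.der x).continuousAt
  have o1 : a - l ≤ a + l := by linarith
  have o2 : a + l ≤ b - l := by linarith
  have o3 : b - l ≤ b + l := by linarith
  have o4 : b + l ≤ a - l + N * π := by linarith
  have hR' : ∀ x, ‖cv N β E x - 0‖ ≤ R := fun x => by rw [sub_zero]; exact hR x
  have p1 := AnB2_piece C.der hc' hW.der hW.dc hW.s0 hW.s1 o1 ea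
  have p2 := AnB2_piece C.der hc' hW.der hW.dc hW.s0 hW.s1 o2 fun x _ => hR' x
  have p3 := AnB2_piece C.der hc' hW.der hW.dc hW.s0 hW.s1 o3 eb
  have p4 := AnB2_piece C.der hc' hW.der hW.dc hW.s0 hW.s1 o4 fun x _ => hR' x
  have i1 : ∀ p q : ℝ, IntervalIntegrable (fun x => (s x : ℂ) ^ 2 * (eI x * rho N β E x))
      volume p q := fun p q =>
    (((Complex.continuous_ofReal.comp hs).pow 2).mul hc').intervalIntegrable p q
  have i2 : ∀ p q : ℝ, IntervalIntegrable (fun x => |s' x|) volume p q := fun p q =>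
    hW.dc.abs.intervalIntegrable p q
  have tv := hW.tv
  rw [← intervalIntegral.integral_add_adjacent_intervals (i2 _ (a + l)) (i2 _ _),
    ← intervalIntegral.integral_add_adjacent_intervals (i2 (a + l) (b - l)) (i2 _ _),
    ← intervalIntegral.integral_add_adjacent_intervals (i2 (b - l) (b + l)) (i2 _ _)] at tv
  rw [← intervalIntegral.integral_add_adjacent_intervals (i1 _ (a + l)) (i1 _ _),
    ← intervalIntegral.integral_add_adjacent_intervals (i1 (a + l) (b - l)) (i1 _ _),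
    ← intervalIntegral.integral_add_adjacent_intervals (i1 (b - l) (b + l)) (i1 _ _)]
  have t2 := AnB2_small hN' hW.dc o2 fun x hx => (hW.core x hx).2
  have t4 := AnB2_small hN' hW.dc o4 fun x hx => (hW.far x hx).1
  have n2 : 0 ≤ ∫ x in (a + l)..(b - l), |s' x| :=
    intervalIntegral.integral_nonneg o2 fun _ _ => abs_nonneg _
  have n4 : 0 ≤ ∫ x in (b + l)..(a - l + N * π), |s' x| :=
    intervalIntegral.integral_nonneg o4 fun _ _ => abs_nonneg _
  have e0 : 0 ≤ e := (norm_nonneg _).trans (ea a ⟨by linarith, by linarith⟩)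
  have R0 : 0 ≤ R := (norm_nonneg _).trans hA
  have hfar : ∀ x ∈ Set.Icc (b + l) (a - l + N * π), s x ≤ ϖ := by
    intro x hx
    have h := (hW.far x hx).2 1 ⟨by norm_num, le_rfl⟩
    rw [Complex.ofReal_one, one_mul, hW.val, norm_mul, norm_pow, zc_norm, one_pow, one_mul,
      Complex.norm_real, Real.norm_eq_abs] at h
    exact (le_abs_self _).trans h
  have w0 : 0 ≤ ϖ := (hW.s0 _).trans (hfar _ ⟨le_rfl, o4⟩)
  have per : s (a - l + N * π) = s (a - l) := by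
    have h := hW.val (a - l + N * π)
    rw [zc_per hN, hW.val] at h
    have hz : zc N β (a - l) ^ M ≠ 0 := pow_ne_zero _ (eI_ne _)
    exact_mod_cast (mul_left_cancel₀ hz h).symm
  have b1 := AnB2_bdry hA w1 (hW.s0 _) (per ▸ hfar _ ⟨o4, le_rfl⟩) (hW.core _ ⟨le_rfl, o2⟩).1
    (hW.s1 _)
  have b2 := AnB2_bdry hB w1 (hW.s0 _) (hfar _ ⟨le_rfl, o4⟩) (hW.core _ ⟨o2, le_rfl⟩).1
    (hW.s1 _)
  rw [per, cv_per hN] at p4
  have t : (∫ x in (a + l)..(b - l), |s' x|) + ∫ x in (b + l)..(a - l + N * π), |s' x| ≤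
      ϖ * (7 / 2) := by
    have h3 : ϖ / N * (b - l - (a + l)) + ϖ / N * (a - l + N * π - (b + l)) ≤
        ϖ / N * (N * π) := by
      rw [← mul_add]
      exact mul_le_mul_of_nonneg_left (by linarith) (div_nonneg w0 hN'.le)
    have h4 : ϖ / N * (N * π) = ϖ * π := by field_simp
    have h5 : ϖ * π ≤ ϖ * (7 / 2) :=
      mul_le_mul_of_nonneg_left (by linarith [Real.pi_lt_d2]) w0
    linarith
  generalize (∫ x in (a - l)..(a + l), (s x : ℂ) ^ 2 * (eI x * rho N β E x)) = I₁ at p1 ⊢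
  generalize (∫ x in (a + l)..(b - l), (s x : ℂ) ^ 2 * (eI x * rho N β E x)) = I₂ at p2 ⊢
  generalize (∫ x in (b - l)..(b + l), (s x : ℂ) ^ 2 * (eI x * rho N β E x)) = I₃ at p3 ⊢
  generalize (∫ x in (b + l)..(a - l + N * π), (s x : ℂ) ^ 2 * (eI x * rho N β E x)) = I₄
    at p4 ⊢
  have key : I₁ + (I₂ + (I₃ + I₄)) - (B - A) =
      (I₁ - ((s (a + l) : ℂ) ^ 2 * (cv N β E (a + l) - A) -
        (s (a - l) : ℂ) ^ 2 * (cv N β E (a - l) - A))) +
      (I₂ - ((s (b - l) : ℂ) ^ 2 * (cv N β E (b - l) - 0) -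
        (s (a + l) : ℂ) ^ 2 * (cv N β E (a + l) - 0))) +
      (I₃ - ((s (b + l) : ℂ) ^ 2 * (cv N β E (b + l) - B) -
        (s (b - l) : ℂ) ^ 2 * (cv N β E (b - l) - B))) +
      (I₄ - ((s (a - l) : ℂ) ^ 2 * (cv N β E (a - l) - 0) -
        (s (b + l) : ℂ) ^ 2 * (cv N β E (b + l) - 0))) +
      A * (1 - (s (a + l) : ℂ) ^ 2 + (s (a - l) : ℂ) ^ 2) -
      B * (1 - (s (b - l) : ℂ) ^ 2 + (s (b + l) : ℂ) ^ 2) := by ring
  rw [key]
  refine (norm_sub_le_of_le (norm_add_le_of_le (norm_add_le_of_le (norm_add_le_of_le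
    (norm_add_le_of_le p1 p2) p3) p4) b1) b2).trans ?_
  have f1 := mul_le_mul_of_nonneg_left t R0
  have f2 : (∫ x in (a - l)..(a + l), |s' x|) + ∫ x in (b - l)..(b + l), |s' x| ≤ 2 := by
    linarith
  have f3 := mul_le_mul_of_nonneg_left f2 e0
  linarith

end Pool.Agent.P.MP_c09211_an.Sh.GL
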