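import Pool.Agent.P.MP_c09211_an.GL.AnA2
import Pool.Agent.P.MP_c09211_an.GL.AnB
import Pool.Agent.P.MP_c09211_an.GL.AnB2

/-!
The area of the image of a sector against a test function (paper: AN5).
-/

set_option autoImplicit false

namespace Pool.Agent.P.MP_c09211_an.Sh.GL

open Metric Set Finset PowerSeries Complex Filter Topology Real MeasureTheory
open scoped ComplexConjugate

theorem AnC_pt {lam η u w : ℝ} (η0 : 0 ≤ η) (η1 : η ≤ 1 / 6) (hl : 1 - 3 * η ≤ lam) :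
    -(6 * η * w ^ 2) ≤ lam * u ^ 2 + 2 * w * u + w ^ 2 := by
  have hk : 0 < 1 + 6 * η := by linarith
  have h1 : 0 ≤ (1 + 6 * η) * lam - 1 := by nlinarith
  have h2 : 0 ≤ (1 + 6 * η) * (lam * u ^ 2 + 2 * w * u + w ^ 2 + 6 * η * w ^ 2) := by
    have : (1 + 6 * η) * (lam * u ^ 2 + 2 * w * u + w ^ 2 + 6 * η * w ^ 2) =
        ((1 + 6 * η) * w + u) ^ 2 + ((1 + 6 * η) * lam - 1) * u ^ 2 := by ring
    rw [this]
    positivity
  have h3 := nonneg_of_mul_nonneg_right h2 hk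
  linarith

theorem AnC_core {η y : ℝ} (η1 : η ≤ 1 / 6) (h : 1 - η ≤ y) : 1 - 3 * η ≤ (1 - η) * y ^ 2 := by
  have h4 : (1 - η) ^ 2 ≤ y ^ 2 := pow_le_pow_left₀ (by linarith) h 2
  have h5 := mul_le_mul_of_nonneg_left h4 (show 0 ≤ 1 - η by linarith)
  linarith [mul_nonneg (sq_nonneg η) (show 0 ≤ 3 - η by linarith)]

theorem AnC_arith {T u σ b₁ b₂ m₁ m₂ Z Λ η e₀ C ε z : ℝ} (hT : 1 ≤ T) (hu : |u| ≤ 17 * e₀ * T)
    (σ0 : 0 ≤ σ) (σT : σ ≤ T) (η0 : 0 < η) (η1 : η ≤ 1 / 6) (hb : 1 - η ≤ b₁) (hb' : b₁ ≤ 1)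
    (hb2 : Λ - 3 / 2 - η ≤ b₂) (hb2' : b₂ ≤ Λ) (hΛ : 3 ≤ Λ) (he : e₀ * Λ = η) (e0 : 0 < e₀)
    (hm : 0 ≤ m₂) (z0 : 0 ≤ z) (hz : z ≤ e₀) (hε : η * (72 * (1 + |m₁| + C ^ 2)) ≤ ε)
    (hZ : 4 * b₁ * m₁ * (T + u) - b₁ * m₂ * σ - 6 * η * C ^ 2 * T ≤ Z) :
    T * (Λ - 3 / 2 + (4 * m₁ - m₂) - ε) ≤ Z + b₂ * (2 * (T + u) - σ) - 2 * π * z ^ 2 := by
  have T0 : 0 ≤ T := by linarith
  have hm1 := abs_nonneg m₁
  have eη : e₀ ≤ η := he ▸ le_mul_of_one_le_right e0.le (by linarith)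
  have b0 : 0 ≤ b₁ := by linarith
  have b20 : 0 ≤ b₂ := by linarith
  have h1 : m₁ * T - |m₁| * η * T ≤ b₁ * m₁ * T := by
    have h : (1 - b₁) * m₁ ≤ η * |m₁| :=
      (mul_le_mul_of_nonneg_left (le_abs_self m₁) (by linarith)).trans
        (mul_le_mul_of_nonneg_right (by linarith) hm1)
    linarith [mul_le_mul_of_nonneg_right h T0]
  have h2 : -(17 * |m₁| * η * T) ≤ b₁ * m₁ * u := by
    have h : |b₁ * m₁ * u| ≤ 1 * |m₁| * (17 * η * T) := by
      rw [abs_mul, abs_mul, abs_of_nonneg b0]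
      refine mul_le_mul (mul_le_mul_of_nonneg_right hb' hm1) (hu.trans ?_) (abs_nonneg _)
        (by positivity)
      exact mul_le_mul_of_nonneg_right (by linarith) T0
    linarith [neg_abs_le (b₁ * m₁ * u)]
  have h3 : b₁ * m₂ * σ ≤ m₂ * T := by
    have := mul_le_mul (mul_le_mul_of_nonneg_right hb' hm) σT σ0 (by positivity)
    linarith
  have h4 : b₂ * σ ≤ b₂ * T := mul_le_mul_of_nonneg_left σT b20
  have h5 : -(17 * η * T) ≤ b₂ * u := by
    have h : |b₂ * u| ≤ Λ * (17 * e₀ * T) := by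
      rw [abs_mul, abs_of_nonneg b20]
      exact mul_le_mul hb2' hu (abs_nonneg _) (by linarith)
    have h' : Λ * (17 * e₀ * T) = 17 * η * T := by rw [← he]; ring
    linarith [neg_abs_le (b₂ * u)]
  have h6 : 2 * π * z ^ 2 ≤ 7 * η * T := by
    have hπ : π ≤ 7 / 2 := by linarith [Real.pi_lt_d2]
    have h : z ^ 2 ≤ η := (pow_le_of_le_one z0 (by linarith) two_ne_zero).trans (hz.trans eη)
    have h' : η ≤ η * T := le_mul_of_one_le_right η0.le hT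
    linarith [mul_le_mul_of_nonneg_right hπ (sq_nonneg z)]
  have h7 : (Λ - 3 / 2 - η) * T ≤ b₂ * T := mul_le_mul_of_nonneg_right hb2 T0
  have h8 := mul_le_mul_of_nonneg_right hε T0
  have h9 : 0 ≤ η * T := by positivity
  have h10 : 0 ≤ η * C ^ 2 * T := by positivity
  linarith

/-- The pointwise inequality, integrated. -/
theorem AnC_int {s ρ f W : ℝ → ℝ} (hs : Continuous s) (hρ : Continuous ρ) (hf : Continuous f)
    (hW : Continuous W) {α ω p q b₁ η C t : ℝ} (h1 : α ≤ p) (h2 : p ≤ q) (h3 : q ≤ ω)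
    (b0 : 0 ≤ b₁) (η0 : 0 ≤ η) (η1 : η ≤ 1 / 6) (hC : ∀ x, |W x| ≤ C)
    (hl : ∀ x ∈ Set.Icc p q, 1 - 3 * η ≤ b₁ * s x ^ 2) :
    -(6 * η * C ^ 2 * (t ^ 2 * (q - p))) ≤
      b₁ * (∫ x in α..ω, s x ^ 2 * ρ x ^ 2) - 2 * t * b₁ * (∫ x in α..ω, s x ^ 2 * ρ x * f x) +
        t ^ 2 * b₁ * (∫ x in α..ω, s x ^ 2 * f x ^ 2) + 2 * t * (∫ x in p..q, W x * ρ x) +
        t ^ 2 * ∫ x in p..q, (W x ^ 2 - 2 * f x * W x) := by
  have c0 : Continuous fun x => b₁ * s x ^ 2 * (ρ x - t * f x) ^ 2 := by fun_prop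
  have c1 : Continuous fun x => s x ^ 2 * ρ x ^ 2 := by fun_prop
  have c2 : Continuous fun x => s x ^ 2 * ρ x * f x := by fun_prop
  have c3 : Continuous fun x => s x ^ 2 * f x ^ 2 := by fun_prop
  have c4 : Continuous fun x => W x * ρ x := by fun_prop
  have c5 : Continuous fun x => W x ^ 2 - 2 * f x * W x := by fun_prop
  have e1 : ∫ x in α..ω, b₁ * s x ^ 2 * (ρ x - t * f x) ^ 2 =
      b₁ * (∫ x in α..ω, s x ^ 2 * ρ x ^ 2) - 2 * t * b₁ * (∫ x in α..ω, s x ^ 2 * ρ x * f x) +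
        t ^ 2 * b₁ * ∫ x in α..ω, s x ^ 2 * f x ^ 2 := by
    rw [← intervalIntegral.integral_const_mul, ← intervalIntegral.integral_const_mul,
      ← intervalIntegral.integral_const_mul, ← intervalIntegral.integral_sub
        ((c1.intervalIntegrable _ _).const_mul _) ((c2.intervalIntegrable _ _).const_mul _),
      ← intervalIntegral.integral_add (((c1.intervalIntegrable _ _).const_mul _).sub
        ((c2.intervalIntegrable _ _).const_mul _)) ((c3.intervalIntegrable _ _).const_mul _)]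
    exact intervalIntegral.integral_congr fun x _ => by ring
  have e2 : ∫ x in p..q, b₁ * s x ^ 2 * (ρ x - t * f x) ^ 2 ≤
      ∫ x in α..ω, b₁ * s x ^ 2 * (ρ x - t * f x) ^ 2 :=
    intervalIntegral.integral_mono_interval h1 h2 h3
      (Eventually.of_forall fun x => by positivity) (c0.intervalIntegrable _ _)
  have e3 : ∫ x in p..q, (b₁ * s x ^ 2 * (ρ x - t * f x) ^ 2 + 2 * t * (W x * ρ x) +
        t ^ 2 * (W x ^ 2 - 2 * f x * W x)) =
      (∫ x in p..q, b₁ * s x ^ 2 * (ρ x - t * f x) ^ 2) + 2 * t * (∫ x in p..q, W x * ρ x) +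
        t ^ 2 * ∫ x in p..q, (W x ^ 2 - 2 * f x * W x) := by
    rw [intervalIntegral.integral_add ((c0.intervalIntegrable _ _).add
        ((c4.intervalIntegrable _ _).const_mul _)) ((c5.intervalIntegrable _ _).const_mul _),
      intervalIntegral.integral_add (c0.intervalIntegrable _ _)
        ((c4.intervalIntegrable _ _).const_mul _), intervalIntegral.integral_const_mul (2 * t),
      intervalIntegral.integral_const_mul (t ^ 2)]
  have e4 : ∫ _x in p..q, -(6 * η * C ^ 2 * t ^ 2) ≤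
      ∫ x in p..q, (b₁ * s x ^ 2 * (ρ x - t * f x) ^ 2 + 2 * t * (W x * ρ x) +
        t ^ 2 * (W x ^ 2 - 2 * f x * W x)) := by
    refine intervalIntegral.integral_mono_on h2 intervalIntegrable_const
      (((c0.intervalIntegrable _ _).add ((c4.intervalIntegrable _ _).const_mul _)).add
        ((c5.intervalIntegrable _ _).const_mul _)) fun x hx => ?_
    have h4 := AnC_pt (u := ρ x - t * f x) (w := t * W x) η0 η1 (hl x hx)
    have h5 : W x ^ 2 ≤ C ^ 2 := by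
      rw [← sq_abs (W x)]
      exact pow_le_pow_left₀ (abs_nonneg _) (hC x) 2
    have h6 := mul_le_mul_of_nonneg_left h5 (show 0 ≤ 6 * η * t ^ 2 by positivity)
    linarith
  rw [intervalIntegral.integral_const, smul_eq_mul] at e4
  linarith

theorem an_final {f : ℝ → ℝ} (fc : Continuous f) (fa : ∀ x, f (x + π) = -f x)
    (fo : ∫ x in (0 : ℝ)..π, f x * Real.sin x = 0) (C : ℝ) {ε : ℝ} (hε : 0 < ε) :
    ∃ Λ : ℝ, 1 ≤ Λ ∧ ∃ g : ℝ, 0 < g ∧ g ≤ 1 / 2 ∧ ∃ e₀ : ℝ, 0 < e₀ ∧ ∀ (N M : ℕ) (β a b l ϖ R e t : ℝ)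
    (E κ : Polynomial ℂ) (s s' W : ℝ → ℝ) (A B : ℂ), E.natDegree < N → SI N β E →
      InjOn (fun z => E.eval z) (ball 0 1) → Win N β M a b l ϖ κ s s' → 2 * (M : ℝ) ≤ g * N →
      2 * Λ ≤ N → 0 < l → 2 * l ≤ b - a → b - a + 2 * l ≤ N * π → 1 ≤ b - a → 1 ≤ |t| → 1 ≤ R →
      ϖ * R ≤ e₀ → (∀ z : ℂ, ‖z‖ ≤ 1 → ‖E.eval z‖ ≤ R ∧ ‖E.derivative.eval z‖ ≤ R) →
      ‖A‖ ≤ R → ‖B‖ ≤ R → (B - A).re = t * (b - a) → e ≤ e₀ * (|t| * (b - a)) →
      (∀ x ∈ Set.Icc (a - l) (a + l), ‖cv N β E x - A‖ ≤ e) →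
      (∀ x ∈ Set.Icc (b - l) (b + l), ‖cv N β E x - B‖ ≤ e) →
      Continuous W → (∀ x, |W x| ≤ C) →
      ∃ V : Set ℂ, MeasurableSet V ∧ V ⊆ Sec N β (Real.exp (-Λ / N)) (a - l) (b + l) ∧
        ENNReal.ofReal (-t * (∫ x in (a + l)..(b - l), W x * rho N β E x) +
          t ^ 2 / 2 * ((b - a) * (Λ - 3 / 2 + (4 * (∫ x in (0 : ℝ)..π, f x * Real.cos x) -
            ∫ x in (0 : ℝ)..π, f x ^ 2) / π - ε) -
            ∫ x in (a + l)..(b - l), (W x ^ 2 - 2 * f x * W x))) ≤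
          volume ((fun z => E.eval z) '' V) := by
  set m₁ : ℝ := (∫ x in (0 : ℝ)..π, f x * Real.cos x) / π with hm₁
  set m₂ : ℝ := (∫ x in (0 : ℝ)..π, f x ^ 2) / π with hm₂
  have m0 : 0 ≤ m₂ :=
    div_nonneg (intervalIntegral.integral_nonneg Real.pi_pos.le fun x _ => sq_nonneg _)
      Real.pi_pos.le
  have hQ : 0 < 72 * (1 + |m₁| + C ^ 2) := by positivity
  obtain ⟨η, η0, η1, hη⟩ : ∃ η : ℝ, 0 < η ∧ η ≤ 1 / 6 ∧ η * (72 * (1 + |m₁| + C ^ 2)) ≤ ε :=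
    ⟨min (1 / 6) (ε / (72 * (1 + |m₁| + C ^ 2))), lt_min (by norm_num) (div_pos hε hQ),
      min_le_left _ _, (le_div_iff₀ hQ).1 (min_le_right _ _)⟩
  obtain ⟨Λ, hΛ3, hΛe⟩ : ∃ Λ : ℝ, 3 ≤ Λ ∧ Real.exp (-Λ) ≤ η / 2 := by
    have h0 : 0 < 2 / η := by positivity
    refine ⟨3 + 2 / η, by linarith, ?_⟩
    have h1 : 2 / η ≤ Real.exp (3 + 2 / η) := by linarith [Real.add_one_le_exp (3 + 2 / η)]
    rw [Real.exp_neg, ← inv_div 2 η]
    exact inv_anti₀ h0 h1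
  have Λ0 : 0 < Λ := by linarith
  have hg : η / (2 * Λ ^ 2) * Λ ^ 2 = η / 2 := by field_simp
  have g0 : 0 < η / (2 * Λ ^ 2) := by positivity
  have g1 : η / (2 * Λ ^ 2) ≤ η / 2 := by
    rw [← hg]
    exact le_mul_of_one_le_right g0.le (one_le_pow₀ (by linarith))
  have he : η / Λ * Λ = η := by field_simp
  have e0 : 0 < η / Λ := by positivity
  have e1 : η / Λ ≤ η := div_le_self η0.le (by linarith)
  refine ⟨Λ, by linarith, η / (2 * Λ ^ 2), g0, by linarith, η / Λ, e0, ?_⟩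
  intro N M β a b l ϖ R e t E κ s s' W A B hd H hi hW hM hN l0 h1 h2 hL ht hR hϖ hE hA hB hAB
    hee ea eb Wc WC
  have N0 : (0 : ℝ) < N := by linarith
  have hMN : 2 * M < N := by
    have h3 := mul_le_mul_of_nonneg_right (show η / (2 * Λ ^ 2) ≤ 1 / 2 by linarith) N0.le
    have : 2 * (M : ℝ) < N := by linarith
    exact_mod_cast this
  have hcore : a + l ≤ b - l := by linarith
  have ϖ0 : 0 ≤ ϖ :=
    (mul_nonneg N0.le (abs_nonneg _)).trans (hW.core _ ⟨le_rfl, hcore⟩).2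
  have ϖ1 : ϖ ≤ η := ((le_mul_of_one_le_right ϖ0 hR).trans hϖ).trans e1
  have sc : Continuous s := continuous_iff_continuousAt.2 fun x => (hW.der x).continuousAt
  have hexp := Real.exp_pos (-Λ)
  obtain ⟨V, V1, V2, V3⟩ := an_area hd H hi hW Λ0 hN hM (by linarith) l0 h1 h2
    (fun z hz => (hE z hz).2) (b₁ := 1 - η) (b₂ := Λ - 3 / 2 - η) (by linarith) (by linarith)
    (by linarith) t
  refine ⟨V, V1, V2, (ENNReal.ofReal_le_ofReal ?_).trans V3⟩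
  have hπN : a - l ≤ a - l + N * π := by linarith
  have hI := an_parts hd H hW l0 h1 h2 (fun x => (hE _ (zc_norm N β x).le).1) hA hB
    (by linarith) ea eb
  have hZ := AnC_int sc (H.crv hd).cont fc Wc (α := a - l) (ω := a - l + N * π) (p := a + l)
    (q := b - l) (b₁ := 1 - η) (t := t) (by linarith) hcore (by linarith) (by linarith) η0.le η1 WC
    fun x hx => AnC_core η1 ((sub_le_sub_left ϖ1 1).trans (hW.core x hx).1)
  rw [an_f hd H hW hMN fc fa fo, an_ff hW hMN fc fa] at hZ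
  have hS0 : 0 ≤ ∫ x in (a - l)..(a - l + N * π), s x ^ 2 :=
    intervalIntegral.integral_nonneg hπN fun x _ => sq_nonneg _
  have hS1 : ∫ x in (a - l)..(a - l + N * π), s x ^ 2 ≤ b - a := by
    refine le_trans (intervalIntegral.integral_mono_on hπN ((sc.pow 2).intervalIntegrable _ _)
      (sc.intervalIntegrable _ _) fun x _ => ?_) hW.mass
    exact pow_le_of_le_one (hW.s0 x) (hW.s1 x) two_ne_zero
  set I : ℂ := ∫ x in (a - l)..(a - l + N * π), (s x : ℂ) ^ 2 * (eI x * rho N β E x) with hIdef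
  set S : ℝ := ∫ x in (a - l)..(a - l + N * π), s x ^ 2 with hS
  have t1 : 1 ≤ t ^ 2 := by
    rw [← sq_abs]
    exact one_le_pow₀ ht
  have hT : 1 ≤ t ^ 2 * (b - a) := one_le_mul_of_one_le_of_one_le t1 hL
  have hT' : 1 ≤ |t| * (b - a) := one_le_mul_of_one_le_of_one_le ht hL
  have hu : |t * I.re - t ^ 2 * (b - a)| ≤ 17 * (η / Λ) * (t ^ 2 * (b - a)) := by
    have h3 : |I.re - t * (b - a)| ≤ 17 * (η / Λ) * (|t| * (b - a)) := by
      rw [← hAB, ← Complex.sub_re]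
      refine ((Complex.abs_re_le_norm _).trans hI).trans ?_
      have := le_mul_of_one_le_right e0.le hT'
      linarith
    have h4 : t * I.re - t ^ 2 * (b - a) = t * (I.re - t * (b - a)) := by ring
    rw [h4, abs_mul, ← sq_abs t]
    refine (mul_le_mul_of_nonneg_left h3 (abs_nonneg t)).trans (le_of_eq ?_)
    ring
  have hlen : 6 * η * C ^ 2 * (t ^ 2 * (b - l - (a + l))) ≤ 6 * η * C ^ 2 * (t ^ 2 * (b - a)) :=
    mul_le_mul_of_nonneg_left (mul_le_mul_of_nonneg_left (by linarith) (sq_nonneg t))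
      (by positivity)
  have key := AnC_arith (σ := t ^ 2 * S) (b₁ := 1 - η) (b₂ := Λ - 3 / 2 - η) (z := ϖ * R)
    (Z := (1 - η) * (∫ x in (a - l)..(a - l + N * π), s x ^ 2 * rho N β E x ^ 2) +
      2 * t * (∫ x in (a + l)..(b - l), W x * rho N β E x) +
      t ^ 2 * ∫ x in (a + l)..(b - l), (W x ^ 2 - 2 * f x * W x))
    hT hu (mul_nonneg (sq_nonneg t) hS0) (mul_le_mul_of_nonneg_left hS1 (sq_nonneg t)) η0 η1 le_rfl
    (by linarith) le_rfl (by linarith) hΛ3 he e0 m0 (mul_nonneg ϖ0 (by linarith)) hϖ hη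
    (by rw [← hm₁, ← hm₂] at hZ; linarith)
  have hm : (4 * (∫ x in (0 : ℝ)..π, f x * Real.cos x) - ∫ x in (0 : ℝ)..π, f x ^ 2) / π =
      4 * m₁ - m₂ := by
    rw [hm₁, hm₂]
    ring
  rw [hm]
  linarith

end Pool.Agent.P.MP_c09211_an.Sh.GL
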