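import Pool.Agent.P.MP_c09211_an.GL.Defs
import Pool.Agent.P.MP_c09211_an.Sh.Omit

/-!
Elementary facts on the boundary curve.
-/

set_option autoImplicit false

namespace Pool.Agent.P.MP_c09211_an.Sh.GL

open Metric Set Finset PowerSeries Complex Filter Topology Real MeasureTheory
open scoped ComplexConjugate

theorem eI_add (x y : ℝ) : eI (x + y) = eI x * eI y := by
  simp only [eI, ← Complex.exp_add]
  congr 1
  push_cast
  ring

theorem eI_norm (x : ℝ) : ‖eI x‖ = 1 := by
  simp [eI, Complex.norm_exp_ofReal_mul_I]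

theorem eI_ne (x : ℝ) : eI x ≠ 0 := by
  exact Complex.exp_ne_zero _

theorem eI_zero : eI 0 = 1 := by
  simp [eI]

theorem eI_neg (x : ℝ) : eI (-x) = conj (eI x) := by
  simp only [eI, ← Complex.exp_conj, map_mul, conj_ofReal, conj_I]
  congr 1
  push_cast
  ring

theorem eI_mul_neg (x : ℝ) : eI x * eI (-x) = 1 := by
  rw [← eI_add, add_neg_cancel, eI_zero]

theorem eI_pi : eI π = -1 := by
  exact Complex.exp_pi_mul_I

theorem eI_re (x : ℝ) : (eI x).re = Real.cos x := by
  exact Complex.exp_ofReal_mul_I_re x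

theorem eI_im (x : ℝ) : (eI x).im = Real.sin x := by
  exact Complex.exp_ofReal_mul_I_im x

theorem eI_pow (x : ℝ) (k : ℕ) : eI x ^ k = eI (k * x) := by
  simp only [eI, ← Complex.exp_nat_mul]
  congr 1
  push_cast
  ring

theorem eI_circ (r x : ℝ) : circleMap 0 r x = r * eI x := by
  simp [circleMap, eI]

theorem eI_deriv (x : ℝ) : HasDerivAt eI (eI x * I) x := by
  have h : HasDerivAt (fun y : ℝ => (y : ℂ) * I) I x := by
    simpa using (Complex.ofRealCLM.hasDerivAt (x := x)).mul_const I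
  exact h.cexp

theorem eI_cont : Continuous eI := by
  exact continuous_iff_continuousAt.mpr fun x => (eI_deriv x).continuousAt

theorem zc_norm (N : ℕ) (β x : ℝ) : ‖zc N β x‖ = 1 := by
  exact eI_norm _

theorem zc_pow {N : ℕ} (hN : 0 < N) (β x : ℝ) : eI (2 * β) * zc N β x ^ N = eI x ^ 2 := by
  have : (N : ℝ) ≠ 0 := by exact_mod_cast hN.ne'
  rw [zc, eI_pow, eI_pow, ← eI_add]
  congr 1
  field_simp
  push_cast
  ring

theorem eI_int (k : ℤ) : eI (k * (2 * π)) = 1 := by
  rw [eI, ← Complex.exp_int_mul_two_pi_mul_I k]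
  congr 1
  push_cast
  ring

theorem zc_int_aux {N : ℕ} (hN : 0 < N) (β x : ℝ) (k : ℤ) :
    zc N β (x + k * (N * π)) = zc N β x := by
  have : (N : ℝ) ≠ 0 := by exact_mod_cast hN.ne'
  rw [zc, zc, show 2 * (x + k * (N * π) - β) / N = 2 * (x - β) / N + k * (2 * π) by
    field_simp; ring, eI_add, eI_int, mul_one]

theorem zc_per {N : ℕ} (hN : 0 < N) (β x : ℝ) : zc N β (x + N * π) = zc N β x := by
  have := zc_int_aux hN β x 1
  simpa using this

theorem zc_int {N : ℕ} (hN : 0 < N) (β x : ℝ) (k : ℤ) :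
    zc N β (x + k * (N * π)) = zc N β x := by
  exact zc_int_aux hN β x k

theorem zc_inj {N : ℕ} (hN : 0 < N) (β α : ℝ) : InjOn (zc N β) (Set.Ico α (α + N * π)) := by
  intro x hx y hy h
  have N0 : (0 : ℝ) < N := by exact_mod_cast hN
  obtain ⟨k, hk⟩ := Complex.exp_eq_exp_iff_exists_int.mp h
  have e : 2 * (x - β) / N = 2 * (y - β) / N + k * (2 * π) := by
    have := congrArg Complex.im hk
    simpa using this
  have e2 : x - y = k * (N * π) := by
    field_simp at e
    linarith
  have p0 : 0 < N * π := mul_pos N0 Real.pi_pos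
  have a1 : (k : ℝ) < 1 := by
    by_contra a
    push Not at a
    nlinarith [hx.2, hy.1]
  have a2 : (-1 : ℝ) < k := by
    by_contra a
    push Not at a
    nlinarith [hx.1, hy.2]
  have : k = 0 := by
    have b1 : k < 1 := by exact_mod_cast a1
    have b2 : -1 < k := by exact_mod_cast a2
    omega
  rw [this] at e2
  simp at e2
  linarith

theorem zc_theta {N : ℕ} (hN : 0 < N) (β θ : ℝ) : zc N β (β + N * θ / 2) = eI θ := by
  have : (N : ℝ) ≠ 0 := by exact_mod_cast hN.ne'
  rw [zc]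
  congr 1
  field_simp
  ring

theorem zc_deriv (N : ℕ) (β x : ℝ) : HasDerivAt (zc N β) (2 / N * I * zc N β x) x := by
  have h : HasDerivAt (fun y : ℝ => 2 * (y - β) / N) (2 / N) x := by
    simpa using (((hasDerivAt_id x).sub_const β).const_mul 2).div_const (N : ℝ)
  have := (eI_deriv (2 * (x - β) / N)).scomp x h
  refine this.congr_deriv ?_
  rw [zc, real_smul]
  push_cast
  ring

theorem Sw_eq (w : ℂ) (x : ℝ) : Sw w x = w.im * Real.cos x - w.re * Real.sin x := by
  rw [Sw, mul_im, eI_re, eI_im, Real.cos_neg, Real.sin_neg]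
  ring

theorem Sw_anti (w : ℂ) (x : ℝ) : Sw w (x + π) = -Sw w x := by
  rw [Sw_eq, Sw_eq, Real.cos_add_pi, Real.sin_add_pi]
  ring

theorem Sw_cont (w : ℂ) : Continuous (Sw w) := by
  have : Sw w = fun x => w.im * Real.cos x - w.re * Real.sin x := funext (Sw_eq w)
  rw [this]
  fun_prop

theorem Sw_sub (w w' : ℂ) (x : ℝ) : Sw (w - w') x = Sw w x - Sw w' x := by
  rw [Sw, Sw, Sw, sub_mul, sub_im]

theorem anti_nat {G : ℝ → ℝ} (h : ∀ x, G (x + π) = -G x) (x : ℝ) (j : ℕ) :
    G (x + j * π) = (-1) ^ j * G x := by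
  induction j with
  | zero => simp
  | succ j ih =>
    rw [show x + ((j + 1 : ℕ) : ℝ) * π = x + j * π + π by push_cast; ring, h, ih]
    ring

theorem anti_int {G : ℝ → ℝ} (h : ∀ x, G (x + π) = -G x) (x : ℝ) (j : ℤ) :
    G (x + j * π) = (-1) ^ j * G x := by
  obtain ⟨n, rfl | rfl⟩ := j.eq_nat_or_neg
  · simpa using anti_nat h x n
  · have a := anti_nat h (x + ((-(n : ℤ) : ℤ) : ℝ) * π) n
    rw [show x + ((-(n : ℤ) : ℤ) : ℝ) * π + n * π = x by push_cast; ring] at a
    rw [a, zpow_neg, zpow_natCast, ← mul_assoc, inv_mul_cancel₀ (by positivity), one_mul]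

/-- The derivative of the distance function. -/
theorem Crv.dF {c : ℝ → ℂ} {ρ : ℝ → ℝ} (H : Crv c ρ) (w : ℂ) (x : ℝ) :
    HasDerivAt (fun x => pf c x - Sw w x) ((w - c x) * eI (-x)).re x := by
  have h1 : HasDerivAt (fun y : ℝ => eI (-y)) (-(eI (-x) * I)) x := by
    have := (eI_deriv (-x)).scomp x (hasDerivAt_neg x)
    exact this.congr_deriv (by simp)
  have h2 := ((H.der x).sub_const w).mul h1
  have h3 := Complex.imCLM.hasFDerivAt.comp_hasDerivAt x h2
  have e : (fun x => pf c x - Sw w x) = fun y => ((c y - w) * eI (-y)).im := by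
    funext y
    rw [pf, ← Sw_sub, Sw]
  rw [e]
  refine HasDerivAt.congr_deriv h3 ?_
  have e2 : eI x * ρ x * eI (-x) = ρ x := by
    rw [mul_right_comm, eI_mul_neg, one_mul]
  simp only [imCLM_apply, e2, add_im, ofReal_im, zero_add]
  rw [show (c x - w) * -(eI (-x) * I) = (w - c x) * eI (-x) * I by ring, mul_I_im]

theorem Crv.cc {c : ℝ → ℂ} {ρ : ℝ → ℝ} (H : Crv c ρ) : Continuous c := by
  exact continuous_iff_continuousAt.mpr fun x => (H.der x).continuousAt

theorem Crv.pc {c : ℝ → ℂ} {ρ : ℝ → ℝ} (H : Crv c ρ) : Continuous (pf c) := by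
  have h : Continuous fun x => (c x * eI (-x)).im :=
    Complex.continuous_im.comp (H.cc.mul (eI_cont.comp continuous_neg))
  exact h

/-- The pointwise form of the symmetry. -/
theorem SI.pt {N : ℕ} {β : ℝ} {E : Polynomial ℂ} (H : SI N β E) (hd : E.natDegree < N) (x : ℝ) :
    2 / N * I * (zc N β x * E.derivative.eval (zc N β x)) = eI x * rho N β E x := by
  have hN : 0 < N := by omega
  set z := zc N β x with hz
  have z1 : ‖z‖ = 1 := zc_norm N β x
  have zc1 : conj z * z = 1 := by rw [conj_mul', z1]; simp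
  have e1 : z * E.derivative.eval z = ∑ k ∈ range (N + 1), (k : ℂ) * E.coeff k * z ^ k := by
    have hd' : E.derivative.natDegree < N :=
      (Polynomial.natDegree_derivative_le E).trans_lt (by omega)
    rw [Polynomial.eval_eq_sum_range' hd', sum_range_succ', mul_sum]
    simp only [Nat.cast_zero, zero_mul, add_zero]
    refine sum_congr rfl fun k _ => ?_
    rw [Polynomial.coeff_derivative]
    push_cast
    ring
  have e2 : z * E.derivative.eval z = -eI (2 * β) * z ^ N * conj (z * E.derivative.eval z) := by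
    conv_lhs => rw [e1, ← sum_range_reflect]
    rw [e1, map_sum, mul_sum]
    refine sum_congr rfl fun k hk => ?_
    have hk' : k ≤ N := Nat.lt_succ_iff.mp (mem_range.mp hk)
    rw [show N + 1 - 1 - k = N - k by omega, H k hk', map_mul (starRingEnd ℂ) _ (z ^ k), map_pow]
    have : z ^ N = z ^ (N - k) * z ^ k := by rw [← pow_add, Nat.sub_add_cancel hk']
    have h1 : conj z ^ k * z ^ k = 1 := by rw [← mul_pow, zc1, one_pow]
    rw [this]
    linear_combination (eI (2 * β) * conj ((k : ℂ) * E.coeff k) * z ^ (N - k)) * h1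
  have e3 := zc_pow hN β x
  rw [← hz] at e3
  set y := z * E.derivative.eval z with hy
  have e4 : conj (2 / N * I * y * eI (-x)) = 2 / N * I * y * eI (-x) := by
    have a : conj (eI (-x)) = eI x := by rw [eI_neg, conj_conj]
    simp only [map_mul, map_div₀, map_ofNat, map_natCast, conj_I, a]
    have b := eI_mul_neg x
    linear_combination (-(2 / N * I * eI (-x))) * e2 + (2 / N * I * eI (-x) * conj y) * e3 +
      (2 / N * I * conj y * eI x) * b
  have e5 : (rho N β E x : ℂ) = 2 / N * I * y * eI (-x) := by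
    rw [rho, ← hz, ← hy]
    exact conj_eq_iff_re.mp e4
  rw [e5]
  linear_combination (-(2 / N * I * y)) * eI_mul_neg x

theorem SI.crv {N : ℕ} {β : ℝ} {E : Polynomial ℂ} (H : SI N β E) (hd : E.natDegree < N) :
    Crv (cv N β E) (rho N β E) := by
  refine ⟨fun x => ?_, ?_⟩
  · have := (E.hasDerivAt (zc N β x)).scomp x (zc_deriv N β x)
    refine HasDerivAt.congr_deriv this ?_
    rw [← H.pt hd x, smul_eq_mul]
    ring
  · have hz : Continuous (zc N β) :=
      continuous_iff_continuousAt.mpr fun x => (zc_deriv N β x).continuousAt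
    exact Complex.continuous_re.comp ((continuous_const.mul (hz.mul
      (E.derivative.continuous.comp hz))).mul (eI_cont.comp continuous_neg))

theorem SI.rho_abs {N : ℕ} {β : ℝ} {E : Polynomial ℂ} (H : SI N β E) (hd : E.natDegree < N)
    (x : ℝ) : |rho N β E x| = 2 / N * ‖E.derivative.eval (zc N β x)‖ := by
  have := congrArg norm (H.pt hd x)
  simp only [norm_mul, norm_div, norm_I, zc_norm, eI_norm, norm_real, Real.norm_eq_abs,
    Complex.norm_natCast, Complex.norm_ofNat, mul_one, one_mul] at this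
  exact this.symm

theorem cv_per {N : ℕ} (hN : 0 < N) (β : ℝ) (E : Polynomial ℂ) (x : ℝ) :
    cv N β E (x + N * π) = cv N β E x := by
  rw [cv, cv, zc_per hN]

theorem eI_neg_per (N : ℕ) (x : ℝ) : eI (-(x + N * π)) = (-1) ^ N * eI (-x) := by
  rw [neg_add, eI_add, eI_neg (N * π), ← eI_pow, eI_pi]
  simp [mul_comm]

theorem rho_per {N : ℕ} {β : ℝ} {E : Polynomial ℂ} (hN : 0 < N) (x : ℝ) :
    rho N β E (x + N * π) = (-1) ^ N * rho N β E x := by
  rw [rho, rho, zc_per hN, eI_neg_per, mul_left_comm]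
  have : ((-1 : ℂ)) ^ N = (((-1 : ℝ) ^ N : ℝ) : ℂ) := by push_cast; rfl
  rw [this, re_ofReal_mul]

theorem pf_per {N : ℕ} (hN : 0 < N) (β : ℝ) (E : Polynomial ℂ) (x : ℝ) :
    pf (cv N β E) (x + N * π) = (-1) ^ N * pf (cv N β E) x := by
  rw [pf, pf, cv_per hN, anti_nat (Sw_anti _)]

theorem pf_cont (N : ℕ) (β : ℝ) (E : Polynomial ℂ) : Continuous (pf (cv N β E)) := by
  have hz : Continuous (zc N β) :=
    continuous_iff_continuousAt.mpr fun x => (zc_deriv N β x).continuousAt
  have h : Continuous fun x => (E.eval (zc N β x) * eI (-x)).im :=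
    Complex.continuous_im.comp ((E.continuous.comp hz).mul (eI_cont.comp continuous_neg))
  exact h

theorem br_shift {N : ℕ} {p : ℝ → ℝ} (hp : ∀ x, p (x + N * π) = (-1) ^ N * p x) (j : Fin N)
    (φ : ℝ) : br N p j (φ + π) = -br N p (finRotate N j) φ := by
  obtain ⟨n, rfl⟩ : ∃ n, N = n + 1 := ⟨N - 1, by have := j.pos; omega⟩
  by_cases hj : j = Fin.last n
  · subst hj
    rw [finRotate_last, br, br, Fin.val_last, Fin.val_zero,
      show φ + π + (n : ℝ) * π = φ + (n + 1 : ℕ) * π by push_cast; ring, hp]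
    have : ((-1 : ℝ)) ^ n * (-1) ^ n = 1 := by rw [← mul_pow]; simp
    simp only [Nat.cast_zero, zero_mul, add_zero, pow_zero, one_mul]
    rw [pow_succ]
    linear_combination (-p φ) * this
  · have e : ((finRotate (n + 1) j : Fin (n + 1)) : ℕ) = j + 1 := coe_finRotate_of_ne_last hj
    rw [br, br, e, pow_succ, show φ + π + ((j : ℕ) : ℝ) * π = φ + ((j : ℕ) + 1 : ℕ) * π by
      push_cast; ring]
    ring

theorem br_cont {N : ℕ} {p : ℝ → ℝ} (hp : Continuous p) (j : Fin N) : Continuous (br N p j) := by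
  exact continuous_const.mul (hp.comp (continuous_id.add continuous_const))

/-- A normalised univalent polynomial is a member of the class. -/
theorem sr_poly {E : Polynomial ℂ} (h0 : E.coeff 0 = 0) (h1 : E.coeff 1 = 1)
    (hi : InjOn (fun z => E.eval z) (ball 0 1)) : Sr 1 fun z => E.eval z := by
  refine ⟨E.differentiable.differentiableOn, hi, by simpa [Polynomial.coeff_zero_eq_eval_zero]
    using h0, ?_, ?_⟩
  · rw [Polynomial.deriv, ← Polynomial.coeff_zero_eq_eval_zero, Polynomial.coeff_derivative]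
    simpa using h1
  · obtain ⟨R, hR⟩ := (isCompact_closedBall (0 : ℂ) 1).exists_bound_of_continuousOn
      (f := fun z => E.eval z) E.continuous.continuousOn
    exact ⟨R + 1, fun z hz => (hR z (ball_subset_closedBall hz)).trans_lt (lt_add_one R)⟩

/-- Crude bounds on the closed disc. -/
theorem poly_le {N : ℕ} {E : Polynomial ℂ} (hd : E.natDegree < N) (h0 : E.coeff 0 = 0)
    (h1 : ‖E.coeff 1‖ = 1) (hi : InjOn (fun z => E.eval z) (ball 0 1)) {z : ℂ} (hz : ‖z‖ ≤ 1) :
    ‖E.eval z‖ ≤ 2 * (N : ℝ) ^ 3 ∧ ‖E.derivative.eval z‖ ≤ 2 * (N : ℝ) ^ 3 := by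
  have c0 : E.coeff 1 ≠ 0 := norm_pos_iff.mp (h1 ▸ one_pos)
  have hs : Sr 1 fun z => (Polynomial.C (E.coeff 1)⁻¹ * E).eval z := by
    refine sr_poly (by simp [h0]) (by simp [c0]) fun z hz w hw e => hi hz hw ?_
    simp only [Polynomial.eval_mul, Polynomial.eval_C] at e
    exact mul_left_cancel₀ (inv_ne_zero c0) e
  have hc : ∀ k ≤ N, ‖E.coeff k‖ ≤ 2 * N := fun k hk => by
    have := om_coeff_le (J := N) hs one_pos le_rfl (by norm_num) k hk
    rw [tay_poly, Polynomial.coeff_coe, Polynomial.coeff_C_mul, norm_mul, norm_inv, h1, inv_one,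
      one_mul] at this
    refine this.trans ?_
    have : (k : ℝ) ≤ N := by exact_mod_cast hk
    linarith
  have N1 : (1 : ℝ) ≤ N := by exact_mod_cast (by omega : 1 ≤ N)
  have key : ∀ (a : ℕ → ℂ), (∀ k < N, ‖a k‖ ≤ 2 * (N : ℝ) ^ 2) →
      ‖∑ k ∈ range N, a k * z ^ k‖ ≤ 2 * (N : ℝ) ^ 3 := fun a ha => by
    refine (norm_sum_le _ _).trans ((sum_le_card_nsmul _ _ (2 * (N : ℝ) ^ 2) fun k hk => ?_).trans
      (le_of_eq (by simp; ring)))
    rw [norm_mul, norm_pow]
    exact (mul_le_of_le_one_right (norm_nonneg _) (pow_le_one₀ (norm_nonneg _) hz)).trans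
      (ha k (mem_range.mp hk))
  have hd' : E.derivative.natDegree < N :=
    (Polynomial.natDegree_derivative_le E).trans_lt (by omega)
  rw [Polynomial.eval_eq_sum_range' hd, Polynomial.eval_eq_sum_range' hd']
  refine ⟨key _ fun k hk => (hc k hk.le).trans (by nlinarith), key _ fun k hk => ?_⟩
  rw [Polynomial.coeff_derivative, norm_mul]
  have a : ‖(k : ℂ) + 1‖ ≤ N := by
    rw [show (k : ℂ) + 1 = ((k + 1 : ℕ) : ℂ) by push_cast; rfl, Complex.norm_natCast]
    exact_mod_cast hk
  have b := hc (k + 1) hk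
  exact (mul_le_mul b a (norm_nonneg _) (by positivity)).trans (le_of_eq (by ring))

theorem Near.mono {J : ℕ} {δ δ' : ℝ} {f w : ℂ → ℂ} {a : ℂ} (H : Near J δ f w a) (h : δ ≤ δ') :
    Near J δ' f w a := by
  obtain ⟨g, c, e1, e2, e3⟩ := H.root
  exact ⟨H.sr, H.sch, ⟨g, c, e1, e2, e3.1, e3.2.1,
    e3.2.2.trans (mul_le_mul_of_nonneg_right h (Nat.cast_nonneg J))⟩, H.lam⟩

theorem Shape.mono {J : ℕ} {e A h η η' σ : ℝ} {E : Polynomial ℂ} (H : Shape J e A h η σ E)
    (hη : η ≤ η') : Shape J e A h η' σ E := by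
  refine ⟨fun θ r a b c d => (H.g1 θ r a b c d).trans (by gcongr), H.g2,
    fun θ a b => (H.g3 θ a b).trans (by gcongr), H.g4, fun z hz => (H.d1 z hz).trans (by gcongr),
    H.d2.trans (by gcongr)⟩

end Pool.Agent.P.MP_c09211_an.Sh.GL
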