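import Pool.Agent.P.MP_c09211_an.GL.Loc

/-!
Runs and exceptional sets (paper: COUNT).
-/

set_option autoImplicit false

namespace Pool.Agent.P.MP_c09211_an.Sh.GL

open Metric Set Finset PowerSeries Complex Filter Topology Real MeasureTheory
open scoped ComplexConjugate

variable {N : ℕ} {p : ℝ → ℝ} {cl : ℝ → Option (Fin (N - 2))} {g : Fin (N - 2) → ℝ → ℝ}

theorem Res.conv (H : Res N p cl g) {x₁ x₂ x₃ : ℝ} (h1 : x₁ < x₂) (h2 : x₂ < x₃)
    (h3 : x₃ < x₁ + π) (e : cl x₁ = cl x₃) : cl x₂ = cl x₁ := by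
  obtain ⟨j, hj, e1⟩ := H.hit x₁ (cl x₂)
  rcases Nat.eq_zero_or_pos j with rfl | h0
  · simpa using e1.symm
  · have a1 : (1 : ℝ) ≤ j := by exact_mod_cast h0
    have a2 : (j : ℝ) < N := by exact_mod_cast hj
    have := Real.pi_pos
    exact (H.nc x₁ x₂ x₃ (x₁ + j * π) h1 h2 (by nlinarith) (by nlinarith) e e1.symm).symm

theorem countA_runs {β : Type*} (cl : ℝ → β) (b : ℝ) (n : ℕ) : ∀ (X : Finset ℝ) (a : ℝ),
    X.card = n → a ≤ b → (∀ x y, a ≤ x → x ≤ y → y ≤ b → (∀ ξ ∈ X, ¬(x < ξ ∧ ξ ≤ y)) →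
      cl x = cl y) → ∃ (m : ℕ) (y : ℕ → ℝ), y 0 = a ∧ y m = b ∧ (∀ i < m, y i < y (i + 1)) ∧
    (∀ i < m, ∀ x ∈ Set.Ico (y i) (y (i + 1)), cl x = cl (y i)) ∧
    ∀ i, i + 1 < m → cl (y i) ≠ cl (y (i + 1)) := by
  classical
  induction n using Nat.strong_induction_on with
  | _ n ih =>
  intro X a hn hab hX
  rcases hab.eq_or_lt with rfl | hlt
  · exact ⟨0, fun _ => a, rfl, rfl, by simp, by simp, by simp⟩
  by_cases hne : (X.filter fun ξ => a < ξ ∧ ξ < b).Nonempty
  swap
  · refine ⟨1, fun i => if i = 0 then a else b, rfl, rfl, fun i hi => ?_, fun i hi x hx => ?_,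
      fun i hi => by omega⟩
    · obtain rfl : i = 0 := by omega
      simpa using hlt
    · obtain rfl : i = 0 := by omega
      simp only [if_true, zero_add, one_ne_zero, if_false] at hx ⊢
      exact (hX a x le_rfl hx.1 hx.2.le fun ξ hξ h =>
        hne ⟨ξ, Finset.mem_filter.2 ⟨hξ, h.1, h.2.trans_lt hx.2⟩⟩).symm
  set ξ₀ := (X.filter fun ξ => a < ξ ∧ ξ < b).min' hne with hξ₀
  obtain ⟨m0, m1, m2⟩ := Finset.mem_filter.1 (Finset.min'_mem _ hne)
  rw [← hξ₀] at m0 m1 m2
  have first : ∀ x ∈ Set.Ico a ξ₀, cl x = cl a := fun x hx =>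
    (hX a x le_rfl hx.1 (hx.2.trans m2).le fun ξ hξ h => by
      have : ξ₀ ≤ ξ := Finset.min'_le _ ξ
        (Finset.mem_filter.2 ⟨hξ, h.1, h.2.trans_lt (hx.2.trans m2)⟩)
      exact absurd (this.trans h.2) (not_le.2 hx.2)).symm
  obtain ⟨m, y, y0, ym, s1, s2, s3⟩ := ih (X.erase ξ₀).card
    (hn ▸ Finset.card_erase_lt_of_mem m0) (X.erase ξ₀) ξ₀ rfl m2.le
    fun x y hx hxy hy h => hX x y (m1.le.trans hx) hxy hy fun ξ hξ h' =>
      h ξ (Finset.mem_erase.2 ⟨fun e => absurd (e ▸ h'.1) (not_lt.2 hx), hξ⟩) h'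
  by_cases e : cl a = cl ξ₀
  · have hm : 0 < m := Nat.pos_of_ne_zero fun h => by
      rw [h, y0] at ym; exact m2.ne ym
    refine ⟨m, fun i => if i = 0 then a else y i, rfl, by simp [hm.ne', ym], fun i hi => ?_,
      fun i hi x hx => ?_, fun i hi => ?_⟩
    · rcases Nat.eq_zero_or_pos i with rfl | h0
      · have := s1 0 hi
        rw [y0] at this
        simpa using m1.trans this
      · simpa [h0.ne'] using s1 i hi
    · rcases Nat.eq_zero_or_pos i with rfl | h0
      · simp only [if_true, zero_add, one_ne_zero, if_false] at hx ⊢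
        rcases lt_or_ge x ξ₀ with h | h
        · exact first x ⟨hx.1, h⟩
        · rw [s2 0 hi x ⟨y0 ▸ h, hx.2⟩, y0, e]
      · simp only [h0.ne', if_false, Nat.add_eq_zero_iff, one_ne_zero, and_false] at hx ⊢
        exact s2 i hi x hx
    · rcases Nat.eq_zero_or_pos i with rfl | h0
      · have := s3 0 hi
        rw [y0, ← e] at this
        simpa using this
      · simpa [h0.ne'] using s3 i hi
  · refine ⟨m + 1, fun i => Nat.casesOn i a y, rfl, ym, fun i hi => ?_, fun i hi x hx => ?_,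
      fun i hi => ?_⟩
    · cases i with
      | zero => exact m1.trans_eq y0.symm
      | succ i => exact s1 i (by omega)
    · cases i with
      | zero => exact first x (y0 ▸ hx)
      | succ i => exact s2 i (by omega) x hx
    · cases i with
      | zero => exact fun h => e (h.trans (congrArg cl y0))
      | succ i => exact s3 i (by omega)

/-- The maximal intervals of constancy. -/
theorem Res.runs (H : Res N p cl g) {a b : ℝ} (hab : a ≤ b) : ∃ (m : ℕ) (y : ℕ → ℝ), y 0 = a ∧
    y m = b ∧ (∀ i < m, y i < y (i + 1)) ∧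
    (∀ i < m, ∀ x ∈ Set.Ico (y i) (y (i + 1)), cl x = cl (y i)) ∧
    ∀ i, i + 1 < m → cl (y i) ≠ cl (y (i + 1)) := by
  obtain ⟨X, hX⟩ := H.fin a b
  exact countA_runs cl b _ X a rfl hab hX

theorem Res.countA_two (hN : 2 ≤ N) (H : Res N p cl g) (x : ℝ) :
    ((Finset.range N).filter fun j : ℕ => cl (x + j * π) = none).card ≤ 2 := by
  classical
  choose f hf using fun Δ : Fin (N - 2) => H.hit x (some Δ)
  have h1 : (Finset.univ : Finset (Fin (N - 2))).card
      ≤ ((Finset.range N).filter fun j : ℕ => ¬ cl (x + j * π) = none).card := by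
    refine Finset.card_le_card_of_injOn f (fun Δ _ => ?_) fun Δ _ Δ' _ e => ?_
    · exact Finset.mem_coe.2 (Finset.mem_filter.2 ⟨Finset.mem_range.2 (hf Δ).1, by
        rw [(hf Δ).2]; exact Option.some_ne_none Δ⟩)
    · have := (hf Δ).2
      rw [e, (hf Δ').2] at this
      exact (Option.some.inj this).symm
  have h2 := Finset.card_filter_add_card_filter_not (s := Finset.range N)
    fun j : ℕ => cl (x + j * π) = none
  rw [Finset.card_univ, Fintype.card_fin] at h1
  rw [Finset.card_range] at h2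
  omega

theorem Res.none_le (hN : 2 ≤ N) (H : Res N p cl g) (α : ℝ) :
    volume ({x | cl x = none} ∩ Set.Ico α (α + N * π)) ≤ ENNReal.ofReal (2 * π) := by
  classical
  have hpi := Real.pi_pos
  set S := {x | cl x = none} with hS
  have mS : MeasurableSet S := MeasurableSet.of_mem_nhdsGT fun x hx => by
    obtain ⟨d, d0, hd⟩ := H.right x
    exact mem_of_superset (Ioo_mem_nhdsGT (lt_add_of_pos_right x d0)) fun y hy =>
      (hd y ⟨hy.1.le, hy.2⟩).trans hx
  set T : ℕ → Set ℝ := fun j => (fun x => x + j * π) ⁻¹' S with hT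
  have mT : ∀ j, MeasurableSet (T j) := fun j => measurable_add_const _ mS
  have cov : S ∩ Set.Ico α (α + N * π) ⊆
      ⋃ j ∈ Finset.range N, (fun x => x + -(j * π)) ⁻¹' (T j ∩ Set.Ico α (α + π)) := by
    rintro x ⟨hx, h1, h2⟩
    have a0 : 0 ≤ (x - α) / π := div_nonneg (by linarith) hpi.le
    have a1 := Nat.floor_le a0
    have a2 := Nat.lt_floor_add_one ((x - α) / π)
    rw [le_div_iff₀ hpi] at a1
    rw [div_lt_iff₀ hpi] at a2
    refine Set.mem_iUnion₂.2 ⟨⌊(x - α) / π⌋₊, Finset.mem_range.2 ?_, ?_, ?_, ?_⟩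
    · rw [Nat.floor_lt a0, div_lt_iff₀ hpi]; linarith
    · simpa [hT] using hx
    · linarith
    · linarith
  calc volume (S ∩ Set.Ico α (α + N * π))
      ≤ ∑ j ∈ Finset.range N, volume ((fun x => x + -(j * π)) ⁻¹' (T j ∩ Set.Ico α (α + π))) :=
        (measure_mono cov).trans (measure_biUnion_finset_le _ _)
    _ = ∑ j ∈ Finset.range N, ∫⁻ x in Set.Ico α (α + π), (T j).indicator 1 x := by
        refine Finset.sum_congr rfl fun j _ => ?_
        rw [measure_preimage_add_right, lintegral_indicator_one (mT j),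
          Measure.restrict_apply (mT j)]
    _ = ∫⁻ x in Set.Ico α (α + π), ∑ j ∈ Finset.range N, (T j).indicator 1 x :=
        (lintegral_finset_sum _ fun j _ => measurable_one.indicator (mT j)).symm
    _ ≤ ∫⁻ _ in Set.Ico α (α + π), 2 := by
        refine lintegral_mono fun x => ?_
        have h1 : ∑ j ∈ Finset.range N, (T j).indicator (1 : ℝ → ENNReal) x
            = (((Finset.range N).filter fun j : ℕ => cl (x + j * π) = none).card : ENNReal) := by
          rw [Finset.card_filter, Nat.cast_sum]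
          refine Finset.sum_congr rfl fun j _ => ?_
          by_cases h : cl (x + j * π) = none
          · rw [if_pos h, Set.indicator_of_mem (show x ∈ T j from h)]; simp
          · rw [if_neg h, Set.indicator_of_notMem (show x ∉ T j from h)]; simp
        change ∑ j ∈ Finset.range N, (T j).indicator (1 : ℝ → ENNReal) x ≤ 2
        rw [h1]
        exact_mod_cast H.countA_two hN x
    _ = ENNReal.ofReal (2 * π) := by
        rw [setLIntegral_const, Real.volume_Ico, add_sub_cancel_left,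
          ENNReal.ofReal_mul (by norm_num), ENNReal.ofReal_ofNat]

theorem flat_le {a b e : ℝ} (hab : a ≤ b) (e0 : 0 < e) (e1 : e ≤ 1) :
    volume ({x | |Real.sin x| < Real.sin e} ∩ Set.Icc a b) ≤ ENNReal.ofReal (e * (b - a) + 4) := by
  have hpi := Real.pi_pos
  have h3 := Real.pi_gt_three
  have cov : {x | |Real.sin x| < Real.sin e} ∩ Set.Icc a b ⊆
      ⋃ k ∈ Finset.Icc ⌈(a - e) / π⌉ ⌊(b + e) / π⌋, Set.Ioo (k * π - e) (k * π + e) := by
    rintro x ⟨hx, h1, h2⟩
    set k := round (x / π) with hk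
    have a1 : |x - k * π| ≤ π / 2 := by
      have := abs_sub_round (x / π)
      rw [show x - k * π = (x / π - k) * π by field_simp, abs_mul, abs_of_pos hpi]
      nlinarith
    have a2 : |Real.sin x| = Real.sin |x - k * π| := by
      rw [← Real.abs_sin_eq_sin_abs_of_abs_le_pi (by linarith), Real.sin_sub_int_mul_pi, abs_mul]
      simp
    have a3 : |x - k * π| < e := by
      by_contra hc
      have := Real.sin_le_sin_of_le_of_le_pi_div_two (by linarith) a1 (not_lt.1 hc)
      change |Real.sin x| < Real.sin e at hx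
      linarith
    obtain ⟨a4, a5⟩ := abs_lt.1 a3
    refine Set.mem_iUnion₂.2 ⟨k, Finset.mem_Icc.2 ⟨?_, ?_⟩, by linarith, by linarith⟩
    · rw [Int.ceil_le, div_le_iff₀ hpi]; linarith
    · rw [Int.le_floor, le_div_iff₀ hpi]; linarith
  have hc : ((Finset.Icc ⌈(a - e) / π⌉ ⌊(b + e) / π⌋).card : ℝ) ≤ (b - a + 2 * e) / 3 + 1 := by
    have b1 := Int.le_ceil ((a - e) / π)
    have b2 := Int.floor_le ((b + e) / π)
    have b3 : (b + e) / π - (a - e) / π ≤ (b - a + 2 * e) / 3 := by
      rw [← sub_div, show b + e - (a - e) = b - a + 2 * e by ring]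
      gcongr
    rw [Int.card_Icc]
    rcases le_total 0 (⌊(b + e) / π⌋ + 1 - ⌈(a - e) / π⌉) with h | h
    · have : ((⌊(b + e) / π⌋ + 1 - ⌈(a - e) / π⌉).toNat : ℝ)
          = ((⌊(b + e) / π⌋ + 1 - ⌈(a - e) / π⌉ : ℤ) : ℝ) := by
        exact_mod_cast Int.toNat_of_nonneg h
      rw [this]; push_cast; linarith
    · rw [Int.toNat_of_nonpos h]
      have : 0 ≤ (b - a + 2 * e) / 3 := by linarith
      push_cast; linarith
  refine (measure_mono cov).trans ((measure_biUnion_finset_le _ _).trans ?_)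
  have : ∀ k : ℤ, volume (Set.Ioo (k * π - e) (k * π + e)) = ENNReal.ofReal (2 * e) := fun k => by
    rw [Real.volume_Ioo]; congr 1; ring
  rw [Finset.sum_congr rfl fun k _ => this k, Finset.sum_const, nsmul_eq_mul,
    ← ENNReal.ofReal_natCast, ← ENNReal.ofReal_mul (Nat.cast_nonneg _)]
  refine ENNReal.ofReal_le_ofReal ?_
  have b4 := mul_le_mul_of_nonneg_right hc (by linarith : 0 ≤ 2 * e)
  have b5 : 0 ≤ e * (b - a) := mul_nonneg e0.le (by linarith)
  nlinarith

end Pool.Agent.P.MP_c09211_an.Sh.GL
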