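import Pool.Agent.P.MP_c09211_an.GL.CountA

/-!
The number of intervals (paper: COUNT).
-/

set_option autoImplicit false

namespace Pool.Agent.P.MP_c09211_an.Sh.GL

open Metric Set Finset PowerSeries Complex Filter Topology Real MeasureTheory
open scoped ComplexConjugate

variable {N : ℕ} {p : ℝ → ℝ} {cl : ℝ → Option (Fin (N - 2))} {g : Fin (N - 2) → ℝ → ℝ}

theorem CountB_ds {β : Type} [DecidableEq β] (c : ℝ → β) (P B : Finset ℝ)
    (nc : ∀ x₁ ∈ P, ∀ x₂ ∈ P, ∀ x₃ ∈ P, ∀ x₄ ∈ P, x₁ < x₂ → x₂ < x₃ → x₃ < x₄ → c x₁ = c x₃ →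
      c x₂ = c x₄ → c x₁ = c x₂)
    (hB : ∀ x ∈ P, ∀ y ∈ P, x < y → (∀ z ∈ P, ¬(x < z ∧ z < y)) → c x = c y → y ∈ B) :
    P.card ≤ 2 * (P.image c).card + B.card := by
  classical
  have hF : (P.filter fun x => ∀ y ∈ P, y < x → c y ≠ c x).card ≤ (P.image c).card := by
    refine Finset.card_le_card_of_injOn c (fun x hx => ?_) fun x hx y hy e => ?_
    · exact Finset.mem_coe.2 (Finset.mem_image_of_mem c (Finset.mem_filter.1 hx).1)
    · have hx' := Finset.mem_filter.1 hx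
      have hy' := Finset.mem_filter.1 hy
      rcases lt_trichotomy x y with h | h | h
      · exact absurd e (hy'.2 x hx'.1 h)
      · exact h
      · exact absurd e.symm (hx'.2 y hy'.1 h)
  have hL : (P.filter fun y => ∃ x ∈ P, x < y ∧ (∀ z ∈ P, ¬(x < z ∧ z < y)) ∧
      ∀ z ∈ P, x < z → c z ≠ c x).card ≤ (P.image c).card := by
    have h : ∀ y ∈ P.filter fun y => ∃ x ∈ P, x < y ∧ (∀ z ∈ P, ¬(x < z ∧ z < y)) ∧
        ∀ z ∈ P, x < z → c z ≠ c x, ∃ x ∈ P, x < y ∧ (∀ z ∈ P, ¬(x < z ∧ z < y)) ∧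
        ∀ z ∈ P, x < z → c z ≠ c x := fun y hy => (Finset.mem_filter.1 hy).2
    choose! pr hpr using h
    refine Finset.card_le_card_of_injOn (fun y => c (pr y)) (fun y hy => ?_) fun x hx y hy e => ?_
    · exact Finset.mem_coe.2 (Finset.mem_image_of_mem c (hpr y hy).1)
    · have hx' := hpr x hx
      have hy' := hpr y hy
      have e1 : pr x = pr y := by
        rcases lt_trichotomy (pr x) (pr y) with h | h | h
        · exact absurd e.symm (hx'.2.2.2 _ hy'.1 h)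
        · exact h
        · exact absurd e (hy'.2.2.2 _ hx'.1 h)
      rcases lt_trichotomy x y with h | h | h
      · exact absurd ⟨e1 ▸ hx'.2.1, h⟩ (hy'.2.2.1 x (Finset.mem_filter.1 hx).1)
      · exact h
      · exact absurd ⟨e1 ▸ hy'.2.1, h⟩ (hx'.2.2.1 y (Finset.mem_filter.1 hy).1)
  have hs : P ⊆ ((P.filter fun x => ∀ y ∈ P, y < x → c y ≠ c x) ∪
      (P.filter fun y => ∃ x ∈ P, x < y ∧ (∀ z ∈ P, ¬(x < z ∧ z < y)) ∧
        ∀ z ∈ P, x < z → c z ≠ c x)) ∪ B := by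
    intro y hy
    by_contra hn
    simp only [Finset.mem_union, Finset.mem_filter, not_or, hy, true_and] at hn
    obtain ⟨⟨n1, n2⟩, n3⟩ := hn
    push Not at n1
    obtain ⟨s, hs, hsy, es⟩ := n1
    obtain ⟨x, hx, hm⟩ := (P.filter fun z => z < y).exists_max_image id
      ⟨s, Finset.mem_filter.2 ⟨hs, hsy⟩⟩
    obtain ⟨hx1, hx2⟩ := Finset.mem_filter.1 hx
    have hadj : ∀ z ∈ P, ¬(x < z ∧ z < y) := fun z hz h =>
      absurd (hm z (Finset.mem_filter.2 ⟨hz, h.2⟩)) (not_le.2 h.1)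
    have hne : c x ≠ c y := fun h => n3 (hB x hx1 y hy hx2 hadj h)
    have h3 : ∃ r ∈ P, x < r ∧ c r = c x := by
      by_contra h
      push Not at h
      exact n2 ⟨x, hx1, hx2, hadj, h⟩
    obtain ⟨r, hr, hxr, er⟩ := h3
    have hsx : s < x := lt_of_le_of_ne (hm s (Finset.mem_filter.2 ⟨hs, hsy⟩))
      fun h => hne (h ▸ es)
    have hyr : y < r := by
      rcases lt_trichotomy y r with h | h | h
      · exact h
      · exact absurd (h ▸ er.symm) hne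
      · exact absurd ⟨hxr, h⟩ (hadj r hr)
    exact hne ((nc s hs x hx1 y hy r hr hsx hx2 hyr es er.symm).symm.trans es)
  have h1 := Finset.card_le_card hs
  have h2 := Finset.card_union_le ((P.filter fun x => ∀ y ∈ P, y < x → c y ≠ c x) ∪
      (P.filter fun y => ∃ x ∈ P, x < y ∧ (∀ z ∈ P, ¬(x < z ∧ z < y)) ∧
        ∀ z ∈ P, x < z → c z ≠ c x)) B
  have h3 := Finset.card_union_le (P.filter fun x => ∀ y ∈ P, y < x → c y ≠ c x)
      (P.filter fun y => ∃ x ∈ P, x < y ∧ (∀ z ∈ P, ¬(x < z ∧ z < y)) ∧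
        ∀ z ∈ P, x < z → c z ≠ c x)
  omega

theorem CountB_mono {m : ℕ} {y : ℕ → ℝ} (h : ∀ i < m, y i < y (i + 1)) {i j : ℕ} (hij : i < j)
    (hj : j ≤ m) : y i < y j := by
  induction j, hij using Nat.le_induction with
  | base => exact h i hj
  | succ k hk ih => exact (ih (by omega)).trans (h k hj)

theorem CountB_mono' {m : ℕ} {y : ℕ → ℝ} (h : ∀ i < m, y i < y (i + 1)) {i j : ℕ} (hij : i ≤ j)
    (hj : j ≤ m) : y i ≤ y j := by
  rcases hij.eq_or_lt with rfl | h'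
  · exact le_rfl
  · exact (CountB_mono h h' hj).le

theorem CountB_cover (y : ℕ → ℝ) {i j : ℕ} (hij : i ≤ j) {x : ℝ} (h1 : y i ≤ x) (h2 : x < y j) :
    ∃ k, i ≤ k ∧ k < j ∧ y k ≤ x ∧ x < y (k + 1) := by
  induction j, hij using Nat.le_induction with
  | base => exact absurd h1 (not_le.2 h2)
  | succ k hk ih =>
    by_cases h : x < y k
    · obtain ⟨l, a1, a2, a3⟩ := ih h
      exact ⟨l, a1, by omega, a3⟩
    · exact ⟨k, hk, by omega, not_lt.1 h, h2⟩

theorem CountB_top (u : ℝ) : ∃ x, u ≤ x ∧ x < u + π ∧ |Real.sin x| = 1 := by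
  obtain ⟨k, hk, -⟩ := existsUnique_add_zsmul_mem_Ico Real.pi_pos (π / 2) u
  refine ⟨π / 2 + k • π, hk.1, hk.2, ?_⟩
  rw [zsmul_eq_mul, Real.sin_add_int_mul_pi, Real.sin_pi_div_two, mul_one, abs_neg_one_zpow]

theorem CountB_side (H : Res N p cl g) {a b : ℝ} (hab : a ≤ b) (e : ℝ) :
    ∃ (K : Finset (ℝ × ℝ)) (P : Finset ℝ), Runs cl a b K ∧ K.card ≤ P.card ∧
      (∀ x ∈ P, a ≤ x ∧ x < b ∧ ∃ z ∈ Set.Icc a b, cl z = cl x ∧ Real.sin e ≤ |Real.sin z|) ∧
      (∀ x ∈ P, ∀ y ∈ P, x < y → (∀ z ∈ P, ¬(x < z ∧ z < y)) → cl x ≠ cl y) ∧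
      ∀ x ∈ Set.Ico a b, (∃ q ∈ K, x ∈ Set.Ico q.1 q.2) ∨ |Real.sin x| < Real.sin e ∨
        cl x = none := by
  classical
  obtain ⟨m, y, y0, ym, hy, hc, hd⟩ := H.runs hab
  have hI : ∀ i, i ∈ ((Finset.range m).filter fun i => ∃ z ∈ Set.Ico (y i) (y (i + 1)),
      Real.sin e ≤ |Real.sin z|) ↔ i < m ∧ ∃ z ∈ Set.Ico (y i) (y (i + 1)),
      Real.sin e ≤ |Real.sin z| := fun i => by rw [Finset.mem_filter, Finset.mem_range]
  generalize ((Finset.range m).filter fun i => ∃ z ∈ Set.Ico (y i) (y (i + 1)),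
      Real.sin e ≤ |Real.sin z|) = I at hI
  have lo : ∀ i ≤ m, a ≤ y i := fun i hi => y0 ▸ CountB_mono' hy (Nat.zero_le i) hi
  have hi : ∀ i ≤ m, y i ≤ b := fun i hi => ym ▸ CountB_mono' hy hi le_rfl
  have inv : ∀ i ≤ m, ∀ j ≤ m, y i < y j → i < j := fun i h1 j _ h => by
    by_contra hn
    exact absurd (CountB_mono' hy (not_lt.1 hn) h1) (not_le.2 h)
  refine ⟨(I.filter fun i => cl (y i) ≠ none).image fun i => (y i, y (i + 1)), I.image y,
    ⟨?_, ?_⟩, ?_, ?_, ?_, ?_⟩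
  · intro q hq
    obtain ⟨i, h1, rfl⟩ := Finset.mem_image.1 hq
    obtain ⟨h1, h2⟩ := Finset.mem_filter.1 h1
    have h3 := ((hI i).1 h1).1
    obtain ⟨Δ, hΔ⟩ := Option.ne_none_iff_exists'.1 h2
    exact ⟨lo i h3.le, hy i h3, hi _ h3, Δ, fun x hx => (hc i h3 x hx).trans hΔ⟩
  · intro q hq q' hq' hne
    obtain ⟨i, h1, rfl⟩ := Finset.mem_image.1 hq
    obtain ⟨j, h2, rfl⟩ := Finset.mem_image.1 hq'
    have h3 := ((hI i).1 (Finset.mem_filter.1 h1).1).1
    have h4 := ((hI j).1 (Finset.mem_filter.1 h2).1).1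
    rcases lt_trichotomy i j with h | h | h
    · exact Or.inl (CountB_mono' hy h h4.le)
    · exact absurd (h ▸ rfl) hne
    · exact Or.inr (CountB_mono' hy h h3.le)
  · refine Finset.card_image_le.trans ((Finset.card_filter_le _ _).trans
      (Finset.card_image_of_injOn fun i h1 j h2 h => ?_).ge)
    have h3 := ((hI i).1 h1).1
    have h4 := ((hI j).1 h2).1
    rcases lt_trichotomy i j with h' | h' | h'
    · exact absurd h (CountB_mono hy h' h4.le).ne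
    · exact h'
    · exact absurd h (CountB_mono hy h' h3.le).ne'
  · intro x hx
    obtain ⟨i, h1, rfl⟩ := Finset.mem_image.1 hx
    obtain ⟨h3, z, hz, hs⟩ := (hI i).1 h1
    exact ⟨lo i h3.le, (hy i h3).trans_le (hi _ h3), z,
      ⟨(lo i h3.le).trans hz.1, hz.2.le.trans (hi _ h3)⟩, hc i h3 z hz, hs⟩
  · intro x hx x' hx' hlt hadj heq
    obtain ⟨i, h1, rfl⟩ := Finset.mem_image.1 hx
    obtain ⟨j, h2, rfl⟩ := Finset.mem_image.1 hx'
    have h3 := ((hI i).1 h1).1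
    have h4 := ((hI j).1 h2).1
    have hij : i < j := inv i h3.le j h4.le hlt
    rcases (Nat.succ_le_of_lt hij).eq_or_lt with h | h
    · subst h
      exact hd i h4 heq
    · have hlen : y j < y (i + 1) + π := by
        by_contra hn
        obtain ⟨z, z1, z2, z3⟩ := CountB_top (y (i + 1))
        obtain ⟨k, k1, k2, k3⟩ := CountB_cover y h.le z1 (z2.trans_le (not_lt.1 hn))
        have hk : k ∈ I := (hI k).2 ⟨k2.trans h4, z, k3, z3 ▸ Real.sin_le_one e⟩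
        exact hadj (y k) (Finset.mem_image_of_mem y hk)
          ⟨CountB_mono hy k1 (k2.trans h4).le, CountB_mono hy k2 h4.le⟩
      obtain ⟨x₁, x1, x2⟩ := exists_between (max_lt (hy i h3) (sub_lt_iff_lt_add.2 hlen))
      have x3 := hc i h3 x₁ ⟨((le_max_left _ _).trans x1.le), x2⟩
      have x4 : y j < x₁ + π := sub_lt_iff_lt_add.1 ((le_max_right _ _).trans_lt x1)
      have x5 := H.conv x2 (CountB_mono hy h h4.le) x4 (x3.trans heq)
      exact hd i (h.trans h4) (x5.trans x3).symm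
  · intro x hx
    obtain ⟨k, -, k2, k3⟩ := CountB_cover y (Nat.zero_le m) (y0 ▸ hx.1) (ym ▸ hx.2)
    by_cases h1 : |Real.sin x| < Real.sin e
    · exact Or.inr (Or.inl h1)
    by_cases h2 : cl x = none
    · exact Or.inr (Or.inr h2)
    refine Or.inl ⟨(y k, y (k + 1)), Finset.mem_image.2 ⟨k, Finset.mem_filter.2
      ⟨(hI k).2 ⟨k2, x, k3, not_lt.1 h1⟩, ?_⟩, rfl⟩, k3⟩
    rwa [← hc k k2 x k3]

theorem CountB_vol {K : Finset (ℝ × ℝ)} (h : ∀ q ∈ K, q.1 < q.2) :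
    volume (⋃ q ∈ K, Set.Ico q.1 q.2) ≤ ENNReal.ofReal (∑ q ∈ K, (q.2 - q.1)) := by
  refine (measure_biUnion_finset_le _ _).trans ?_
  rw [ENNReal.ofReal_sum_of_nonneg fun q hq => (sub_pos.2 (h q hq)).le]
  exact Finset.sum_le_sum fun q _ => Real.volume_Ico.le

theorem count (hN : 3 ≤ N) (H : Res N p cl g) {a₁ b₁ a₂ b₂ e κ : ℝ} (h1 : a₁ ≤ b₁) (h2 : b₁ ≤ a₂)
    (h3 : a₂ ≤ b₂) (h4 : b₂ < a₁ + N * π) (e0 : 0 < e) (e1 : e ≤ 1)
    (hκ : ∀ T : Finset (Fin (N - 2)), (∀ Δ ∈ T, ∃ x ∈ Set.Icc a₁ b₁ ∪ Set.Icc a₂ b₂,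
      cl x = some Δ ∧ Real.sin e ≤ |Real.sin x|) → (T.card : ℝ) ≤ κ) :
    ∃ K₁ K₂ : Finset (ℝ × ℝ), Runs cl a₁ b₁ K₁ ∧ Runs cl a₂ b₂ K₂ ∧
      (K₁.card : ℝ) + K₂.card ≤ 2 * κ + 4 ∧
      (b₁ - a₁ + (b₂ - a₂)) * (1 - e) - 20 ≤ ∑ q ∈ K₁, (q.2 - q.1) + ∑ q ∈ K₂, (q.2 - q.1) := by
  classical
  obtain ⟨K₁, P₁, r1, c1, p1, d1, v1⟩ := CountB_side H h1 e
  obtain ⟨K₂, P₂, r2, c2, p2, d2, v2⟩ := CountB_side H h3 e
  have hlt : ∀ x ∈ P₁, ∀ y ∈ P₂, x < y := fun x hx y hy =>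
    ((p1 x hx).2.1.trans_le h2).trans_le (p2 y hy).1
  refine ⟨K₁, K₂, r1, r2, ?_, ?_⟩
  · have hdis : Disjoint P₁ P₂ := Finset.disjoint_left.2 fun x hx hy => lt_irrefl _ (hlt x hx x hy)
    have hb : ∀ x ∈ P₁ ∪ P₂, a₁ ≤ x ∧ x < a₁ + N * π := fun x hx => by
      rcases Finset.mem_union.1 hx with h | h
      · exact ⟨(p1 x h).1, by linarith [(p1 x h).2.1]⟩
      · exact ⟨by linarith [(p2 x h).1], by linarith [(p2 x h).2.1]⟩
    have hds := CountB_ds cl (P₁ ∪ P₂) (P₂.filter fun y => ∀ z ∈ P₂, y ≤ z)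
      (fun x₁ a1 x₂ _ x₃ _ x₄ a4 l1 l2 l3 =>
        H.nc x₁ x₂ x₃ x₄ l1 l2 l3 (by linarith [(hb x₁ a1).1, (hb x₄ a4).2]))
      (fun x hx y hy hxy hadj heq => by
        rcases Finset.mem_union.1 hx with h | h <;> rcases Finset.mem_union.1 hy with h' | h'
        · exact absurd heq (d1 x h y h' hxy fun z hz => hadj z (Finset.mem_union_left _ hz))
        · refine Finset.mem_filter.2 ⟨h', fun z hz => not_lt.1 fun hn => ?_⟩
          exact hadj z (Finset.mem_union_right _ hz) ⟨hlt x h z hz, hn⟩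
        · exact absurd hxy (hlt y h' x h).not_gt
        · exact absurd heq (d2 x h y h' hxy fun z hz => hadj z (Finset.mem_union_right _ hz)))
    have hB : (P₂.filter fun y => ∀ z ∈ P₂, y ≤ z).card ≤ 1 :=
      Finset.card_le_one.2 fun x hx y hy => le_antisymm
        ((Finset.mem_filter.1 hx).2 y (Finset.mem_filter.1 hy).1)
        ((Finset.mem_filter.1 hy).2 x (Finset.mem_filter.1 hx).1)
    have hT := hκ (Finset.univ.filter fun Δ => ∃ x ∈ Set.Icc a₁ b₁ ∪ Set.Icc a₂ b₂,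
      cl x = some Δ ∧ Real.sin e ≤ |Real.sin x|) fun Δ h => (Finset.mem_filter.1 h).2
    have hI : (P₁ ∪ P₂).image cl ⊆ insert none ((Finset.univ.filter fun Δ =>
        ∃ x ∈ Set.Icc a₁ b₁ ∪ Set.Icc a₂ b₂, cl x = some Δ ∧ Real.sin e ≤ |Real.sin x|).image
        some) := by
      intro v hv
      obtain ⟨x, hx, rfl⟩ := Finset.mem_image.1 hv
      cases hcl : cl x with
      | none => exact Finset.mem_insert_self _ _
      | some Δ =>
        refine Finset.mem_insert_of_mem (Finset.mem_image_of_mem _ (Finset.mem_filter.2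
          ⟨Finset.mem_univ _, ?_⟩))
        rcases Finset.mem_union.1 hx with h | h
        · obtain ⟨z, z1, z2, z3⟩ := (p1 x h).2.2
          exact ⟨z, Or.inl z1, z2.trans hcl, z3⟩
        · obtain ⟨z, z1, z2, z3⟩ := (p2 x h).2.2
          exact ⟨z, Or.inr z1, z2.trans hcl, z3⟩
    have hI' := (Finset.card_le_card hI).trans ((Finset.card_insert_le _ _).trans
      (Nat.succ_le_succ Finset.card_image_le))
    rw [Finset.card_union_of_disjoint hdis] at hds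
    generalize (Finset.univ.filter fun Δ => ∃ x ∈ Set.Icc a₁ b₁ ∪ Set.Icc a₂ b₂,
      cl x = some Δ ∧ Real.sin e ≤ |Real.sin x|).card = t at hT hI'
    have : K₁.card + K₂.card ≤ 2 * t + 4 := by omega
    have : (K₁.card : ℝ) + K₂.card ≤ 2 * t + 4 := by exact_mod_cast this
    linarith
  · have s1 : 0 ≤ ∑ q ∈ K₁, (q.2 - q.1) :=
      Finset.sum_nonneg fun q hq => (sub_pos.2 (r1.1 q hq).2.1).le
    have s2 : 0 ≤ ∑ q ∈ K₂, (q.2 - q.1) :=
      Finset.sum_nonneg fun q hq => (sub_pos.2 (r2.1 q hq).2.1).le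
    have w1 := CountB_vol (K := K₁) fun q hq => (r1.1 q hq).2.1
    have w2 := CountB_vol (K := K₂) fun q hq => (r2.1 q hq).2.1
    have f1 := flat_le h1 e0 e1
    have f2 := flat_le h3 e0 e1
    have n0 := H.none_le (by omega) a₁
    have hsub : Set.Ico a₁ b₁ ∪ Set.Ico a₂ b₂ ⊆ (((⋃ q ∈ K₁, Set.Ico q.1 q.2) ∪
        ⋃ q ∈ K₂, Set.Ico q.1 q.2) ∪ ({x | |Real.sin x| < Real.sin e} ∩ Set.Icc a₁ b₁ ∪
        {x | |Real.sin x| < Real.sin e} ∩ Set.Icc a₂ b₂)) ∪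
        {x | cl x = none} ∩ Set.Ico a₁ (a₁ + N * π) := by
      rintro x (hx | hx)
      · rcases v1 x hx with ⟨q, hq, h⟩ | h | h
        · exact Or.inl (Or.inl (Or.inl (Set.mem_biUnion hq h)))
        · exact Or.inl (Or.inr (Or.inl ⟨h, Set.Ico_subset_Icc_self hx⟩))
        · exact Or.inr ⟨h, hx.1, by linarith [hx.2]⟩
      · rcases v2 x hx with ⟨q, hq, h⟩ | h | h
        · exact Or.inl (Or.inl (Or.inr (Set.mem_biUnion hq h)))
        · exact Or.inl (Or.inr (Or.inr ⟨h, Set.Ico_subset_Icc_self hx⟩))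
        · exact Or.inr ⟨h, by linarith [hx.1], by linarith [hx.2]⟩
    have hv := (measure_mono (μ := volume) hsub).trans ((measure_union_le _ _).trans
      (add_le_add ((measure_union_le _ _).trans (add_le_add
        ((measure_union_le _ _).trans (add_le_add w1 w2))
        ((measure_union_le _ _).trans (add_le_add f1 f2)))) n0))
    have g1 : 0 ≤ e * (b₁ - a₁) + 4 := by
      have := mul_nonneg e0.le (sub_nonneg.2 h1)
      linarith
    have g2 : 0 ≤ e * (b₂ - a₂) + 4 := by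
      have := mul_nonneg e0.le (sub_nonneg.2 h3)
      linarith
    have g3 : 0 ≤ 2 * π := by positivity
    rw [measure_union (Set.disjoint_left.2 fun x hx hx' => by linarith [hx.2, hx'.1])
      measurableSet_Ico, Real.volume_Ico, Real.volume_Ico,
      ← ENNReal.ofReal_add (sub_nonneg.2 h1) (sub_nonneg.2 h3), ← ENNReal.ofReal_add s1 s2,
      ← ENNReal.ofReal_add g1 g2, ← ENNReal.ofReal_add (add_nonneg s1 s2) (add_nonneg g1 g2),
      ← ENNReal.ofReal_add (add_nonneg (add_nonneg s1 s2) (add_nonneg g1 g2)) g3,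
      ENNReal.ofReal_le_ofReal_iff
        (add_nonneg (add_nonneg (add_nonneg s1 s2) (add_nonneg g1 g2)) g3)] at hv
    have := Real.pi_le_four
    linarith

end Pool.Agent.P.MP_c09211_an.Sh.GL
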