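import Pool.Agent.P.MP_c09211_an.GL.DPalgB

/-!
The inequality of the calibration (paper: DP, reduction).
-/

set_option autoImplicit false

namespace Pool.Agent.P.MP_c09211_an.Sh.GL

open Metric Set Finset PowerSeries Complex Filter Topology Real MeasureTheory
open scoped ComplexConjugate

section red

variable {ψ τ A B S f₁ : ℝ} {y κ : ℝ → ℝ}

theorem red_poly (p q r a b : ℝ) : ∫ t in a..b, (p + q * t + r * t ^ 2) =
    p * (b - a) + q * (b ^ 2 - a ^ 2) / 2 + r * (b ^ 3 - a ^ 3) / 3 := by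
  have h : ∀ t ∈ Set.uIcc a b, HasDerivAt (fun t : ℝ => p * t + q * t ^ 2 / 2 + r * t ^ 3 / 3)
      (p + q * t + r * t ^ 2) t := fun t _ => by
    have h1 := (((hasDerivAt_id' t).const_mul p).add
      (((hasDerivAt_pow 2 t).const_mul q).div_const 2)).add
      (((hasDerivAt_pow 3 t).const_mul r).div_const 3)
    refine h1.congr_deriv ?_
    push_cast
    ring
  rw [intervalIntegral.integral_eq_sub_of_hasDerivAt h (Continuous.intervalIntegrable
    (by fun_prop) _ _)]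
  ring

theorem red_add {f : ℝ → ℝ} (hf : Continuous f) (a b c : ℝ) :
    (∫ t in a..b, f t) + ∫ t in b..c, f t = ∫ t in a..c, f t :=
  intervalIntegral.integral_add_adjacent_intervals (hf.intervalIntegrable _ _)
    (hf.intervalIntegrable _ _)

theorem red_mono {f g : ℝ → ℝ} (hf : Continuous f) (hg : Continuous g) {a b : ℝ} (hab : a ≤ b)
    (h : ∀ t ∈ Set.Icc a b, f t ≤ g t) : ∫ t in a..b, f t ≤ ∫ t in a..b, g t :=
  intervalIntegral.integral_mono_on hab (hf.intervalIntegrable _ _) (hg.intervalIntegrable _ _) h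

theorem red_shift (f : ℝ → ℝ) (d a b : ℝ) :
    ∫ t in (d + a)..(d + b), f t = ∫ t in a..b, f (d + t) :=
  (intervalIntegral.integral_comp_add_left f d).symm

theorem red_shift0 (f : ℝ → ℝ) (d b : ℝ) : ∫ t in d..(d + b), f t = ∫ t in (0 : ℝ)..b, f (d + t) := by
  rw [← red_shift, add_zero]

theorem red_lin {f g : ℝ → ℝ} (hf : Continuous f) (hg : Continuous g) (p q a b : ℝ) :
    ∫ x in a..b, (f x + p * g x - q) = (∫ x in a..b, f x) + p * (∫ x in a..b, g x) - q * (b - a) := by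
  rw [intervalIntegral.integral_sub (Continuous.intervalIntegrable (by fun_prop) _ _)
    (continuous_const.intervalIntegrable _ _), intervalIntegral.integral_add
    (hf.intervalIntegrable _ _) (Continuous.intervalIntegrable (by fun_prop) _ _),
    intervalIntegral.integral_const_mul, intervalIntegral.integral_const, smul_eq_mul, mul_comm q]

theorem red_W_neg (K : DPy ψ τ S f₁ y κ) (u : ℝ) : ∫ t in (-u)..ψ, y t = ∫ t in u..ψ, y t := by
  have h1 : ∫ t in (-u)..u, y (-t) = ∫ t in (-u)..u, y t := by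
    rw [intervalIntegral.integral_comp_neg, neg_neg]
  simp only [K.yodd, intervalIntegral.integral_neg] at h1
  have h2 := red_add K.yc (-u) u ψ
  linarith

theorem red_W_abs (K : DPy ψ τ S f₁ y κ) (x : ℝ) : ∫ t in x..ψ, y t = ∫ t in |x|..ψ, y t := by
  rcases abs_choice x with h | h
  · rw [h]
  · rw [h, red_W_neg K]

theorem red_K0 (K : DPy ψ τ S f₁ y κ) {u : ℝ} (h0 : 0 ≤ u) (h1 : u ≤ ψ) :
    ∫ t in u..ψ, κ t = 19 / 5 * (ψ - u) ^ 2 / 2 := by
  rw [intervalIntegral.integral_congr (g := fun t => 19 / 5 * ψ + -(19 / 5) * t + 0 * t ^ 2)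
    fun t ht => ?_, red_poly]
  · ring
  · rw [Set.uIcc_of_le h1] at ht
    rw [K.ks t ⟨h0.trans ht.1, ht.2⟩]
    ring

theorem red_W0 (K : DPy ψ τ S f₁ y κ) {u : ℝ} (h0 : 0 ≤ u) (h1 : u ≤ ψ) :
    0 ≤ ∫ t in u..ψ, y t ∧ ∫ t in u..ψ, y t ≤ 0.184 ∧
      ∫ t in u..ψ, y t ≤ S * (ψ - u) / 2 - f₁ * (ψ - u) ^ 2 / 2 := by
  refine ⟨intervalIntegral.integral_nonneg h1 fun t ht => (K.ys t ⟨h0.trans ht.1, ht.2⟩).1, ?_, ?_⟩
  · have h2 := red_add K.yc 0 u ψ
    have h3 : 0 ≤ ∫ t in (0 : ℝ)..u, y t :=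
      intervalIntegral.integral_nonneg h0 fun t ht => (K.ys t ⟨ht.1, ht.2.trans h1⟩).1
    linarith [K.ws]
  · refine (red_mono (g := fun t => S / 2 - f₁ * ψ + f₁ * t + 0 * t ^ 2) K.yc (by fun_prop) h1
      fun t ht => ?_).trans (le_of_eq ?_)
    · have := (K.ys t ⟨h0.trans ht.1, ht.2⟩).2
      linarith
    · rw [red_poly]
      ring

theorem red_min (ψ x : ℝ) : min (ψ - x) (2 * ψ - (ψ - x)) = ψ - |x| := by
  rcases le_total 0 x with h | h
  · rw [abs_of_nonneg h, min_eq_left (by linarith)]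
  · rw [abs_of_nonpos h, min_eq_right (by linarith)]
    ring

theorem red_shrt (K : DPy ψ τ S f₁ y κ) {x : ℝ} (h0 : -ψ ≤ x) (h1 : x ≤ ψ) :
    Shrt ψ S f₁ (ψ - x) (∫ t in x..ψ, y t) (∫ t in x..ψ, κ t) := by
  obtain ⟨a1, a2, a3⟩ := red_W0 K (abs_nonneg x) (abs_le.2 ⟨h0, h1⟩)
  rw [← red_W_abs K] at a1 a2 a3
  refine ⟨by linarith, by linarith, a1, a2, by rw [red_min]; exact a3, ?_⟩
  split_ifs with h
  · exact red_K0 K (by linarith) h1
  · have hx : 0 ≤ -x := by linarith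
    have hψ : 0 ≤ ψ := by linarith
    have e1 : ∫ t in x..0, κ t = ∫ t in (0 : ℝ)..(-x), κ t := by
      have := intervalIntegral.integral_comp_neg (a := 0) (b := -x) κ
      simp only [K.keven, neg_neg, neg_zero] at this
      exact this.symm
    have e2 := red_add K.kc x 0 ψ
    have e3 := red_add K.kc 0 (-x) ψ
    rw [red_K0 K le_rfl hψ] at e2 e3
    rw [red_K0 K hx (by linarith)] at e3
    rw [← e2, e1]
    have e4 : 2 * ψ - (ψ - x) = ψ - -x := by ring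
    rw [e4]
    linarith

theorem red_W_lip (H : DPc ψ τ A B S f₁) (K : DPy ψ τ S f₁ y κ) {a b : ℝ} (ha : |a| ≤ ψ)
    (hb : |b| ≤ ψ) : |(∫ t in a..ψ, y t) - ∫ t in b..ψ, y t| ≤
      S / 2 * |ψ - |a| - (ψ - |b|)| := by
  rw [red_W_abs K a, red_W_abs K b, ← red_add K.yc |a| |b| ψ, add_sub_cancel_right,
    show ψ - |a| - (ψ - |b|) = |b| - |a| by ring]
  refine intervalIntegral.norm_integral_le_of_norm_le_const (f := y) fun t ht => ?_
  have h1 : t ∈ Set.Icc 0 ψ := ⟨(le_min (abs_nonneg _) (abs_nonneg _)).trans ht.1.le,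
    ht.2.trans (max_le ha hb)⟩
  obtain ⟨h2, h3⟩ := K.ys t h1
  have h4 : 0 ≤ f₁ * (ψ - t) := mul_nonneg (by linarith [H.f1]) (by linarith [h1.2])
  rw [Real.norm_of_nonneg h2]
  linarith

theorem red_ylong (H : DPc ψ τ A B S f₁) (K : DPy ψ τ S f₁ y κ) {b : ℝ} (h0 : 0 ≤ b)
    (h1 : b ≤ τ) : S / 2 + f₁ * (b / 2) ≤ y (ψ + b) := by
  have hτ : 0 < τ := by linarith [H.t1]
  have h2 : b ^ 2 / (2 * τ) ≤ b / 2 := by
    rw [div_le_iff₀ (by positivity)]
    nlinarith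
  have h3 : f₁ * (b / 2) ≤ f₁ * (b - b ^ 2 / (2 * τ)) :=
    mul_le_mul_of_nonneg_left (by linarith) (by linarith [H.f1])
  linarith [(K.yl b ⟨h0, h1⟩).1]

theorem red_lng (H : DPc ψ τ A B S f₁) (K : DPy ψ τ S f₁ y κ) {b : ℝ} (h0 : 0 ≤ b) (h1 : b ≤ τ) :
    Lng ψ τ S f₁ b (S * b - ∫ t in ψ..(ψ + b), y t)
      (19 / 5 * ψ ^ 2 / 2 * (3 * b ^ 2 / τ ^ 2 - 2 * b ^ 3 / τ ^ 3)) := by
  have hτ : 0 < τ := by linarith [H.t1]
  have hc : Continuous fun t => y (ψ + t) := K.yc.comp (by fun_prop)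
  refine ⟨h0, h1, (K.wl b ⟨h0, h1⟩).1, (K.wl b ⟨h0, h1⟩).2, ?_, ?_, rfl⟩
  · have e1 := red_mono (f := fun t => S / 2 + f₁ * t + -(f₁ / (2 * τ)) * t ^ 2) (by fun_prop) hc
      h0 fun t ht => by
        have e := (K.yl t ⟨ht.1, ht.2.trans h1⟩).1
        have e' : f₁ * (t - t ^ 2 / (2 * τ)) = f₁ * t + -(f₁ / (2 * τ)) * t ^ 2 := by ring
        linarith
    rw [red_poly, ← red_shift0] at e1
    have e2 : -(f₁ / (2 * τ)) * (b ^ 3 - 0 ^ 3) / 3 = -(f₁ * b ^ 3 / (6 * τ)) := by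
      field_simp
      ring
    rw [e2] at e1
    linarith
  · have e1 := red_add K.yc ψ (ψ + b) (ψ + τ)
    rw [K.we, red_shift y ψ b τ] at e1
    have e2 := red_mono (g := fun t => S + 0.491 + 0 * t + 0 * t ^ 2) hc (by fun_prop) h1
      fun t ht => by
        have e := (K.yl t ⟨h0.trans ht.1, ht.2⟩).2
        linarith
    rw [red_poly] at e2
    linarith

theorem red_Klong (H : DPc ψ τ A B S f₁) (K : DPy ψ τ S f₁ y κ) {b : ℝ} (h0 : 0 ≤ b) (h1 : b ≤ τ) :
    ∫ t in ψ..(ψ + b), κ t = 19 / 5 * ψ ^ 2 / 2 * (3 * b ^ 2 / τ ^ 2 - 2 * b ^ 3 / τ ^ 3) -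
      2 * S * (∫ t in ψ..(ψ + b), y t) + S ^ 2 * b := by
  have hτ : 0 < τ := by linarith [H.t1]
  have hc : Continuous fun t => y (ψ + t) := K.yc.comp (by fun_prop)
  rw [red_shift0, red_shift0, intervalIntegral.integral_congr (g := fun t =>
    (0 + 3 * (19 / 5 * ψ ^ 2) / τ ^ 2 * t + -(3 * (19 / 5 * ψ ^ 2) / τ ^ 3) * t ^ 2) +
      -(2 * S) * y (ψ + t) - -S ^ 2) fun t ht => ?_, red_lin (by fun_prop) hc, red_poly]
  · field_simp
    ring
  · rw [Set.uIcc_of_le h0] at ht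
    rw [K.kl t ⟨ht.1, ht.2.trans h1⟩]
    field_simp
    ring

theorem red_Flong (H : DPc ψ τ A B S f₁) (K : DPy ψ τ S f₁ y κ) {b : ℝ} (h0 : 0 ≤ b) (h1 : b ≤ τ)
    (s : ℝ) : ∫ x in ψ..(ψ + b), (κ x + 2 * s * y x - s ^ 2) =
      19 / 5 * ψ ^ 2 / 2 * (3 * b ^ 2 / τ ^ 2 - 2 * b ^ 3 / τ ^ 3) +
        2 * (S - s) * (S * b - ∫ t in ψ..(ψ + b), y t) - (S - s) ^ 2 * b := by
  rw [red_lin K.kc K.yc, red_Klong H K h0 h1]
  ring

theorem red_Fend (H : DPc ψ τ A B S f₁) (K : DPy ψ τ S f₁ y κ) (s : ℝ) :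
    ∫ x in ψ..(π / 2), (κ x + 2 * s * y x - s ^ 2) = 19 / 5 * ψ ^ 2 / 2 - τ * (S - s) ^ 2 := by
  have hτ : 0 < τ := by linarith [H.t1]
  rw [show π / 2 = ψ + τ by rw [H.tau]; ring, red_Flong H K hτ.le le_rfl, K.we]
  field_simp
  ring

theorem red_w_lip (H : DPc ψ τ A B S f₁) (K : DPy ψ τ S f₁ y κ) {b b' : ℝ} (h0 : 0 ≤ b)
    (h : b ≤ b') (h1 : b' ≤ τ) : |(S * b' - ∫ t in ψ..(ψ + b'), y t) -
      (S * b - ∫ t in ψ..(ψ + b), y t)| ≤ S / 2 * (b' - b) := by
  have hc : Continuous fun t => y (ψ + t) := K.yc.comp (by fun_prop)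
  have e1 := red_add K.yc ψ (ψ + b) (ψ + b')
  rw [red_shift y ψ b b'] at e1
  have e2 := red_mono (g := fun t => 3 * S / 2 + 0 * t + 0 * t ^ 2) hc (by fun_prop) h
    fun t ht => by
      have e := (K.yl t ⟨h0.trans ht.1, ht.2.trans h1⟩).2
      linarith [H.s1]
  have e3 := red_mono (f := fun t => S / 2 + 0 * t + 0 * t ^ 2) (by fun_prop) hc h
    fun t ht => by
      have e := red_ylong H K (h0.trans ht.1) (ht.2.trans h1)
      have e' : 0 ≤ f₁ * (t / 2) := mul_nonneg (by linarith [H.f1]) (by linarith [ht.1])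
      linarith
  rw [red_poly] at e2 e3
  rw [abs_le]
  constructor <;> linarith

/-- The left half: from a point to the centre of symmetry. -/
theorem red_half (H : DPc ψ τ A B S f₁) (K : DPy ψ τ S f₁ y κ) {a : ℝ} (h0 : -ψ ≤ a)
    (h1 : a ≤ π / 2) (s : ℝ) :
    ∫ x in a..(π / 2), (κ x + 2 * s * y x - s ^ 2) ≤ 19 / 5 * ψ ^ 2 / 2 := by
  have hc : Continuous fun x => κ x + 2 * s * y x - s ^ 2 := by
    have := K.kc
    have := K.yc
    fun_prop
  have e0 := red_Fend H K s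
  rcases le_total a ψ with h | h
  · have e1 := red_add hc a ψ (π / 2)
    have e2 := H.q1 (red_shrt K h0 h) s
    rw [red_lin K.kc K.yc _ _ a] at e1
    linarith
  · obtain ⟨b, rfl⟩ : ∃ b, a = ψ + b := ⟨a - ψ, by ring⟩
    have hb : b ≤ τ := by rw [H.tau]; linarith
    have e1 := red_add hc ψ (ψ + b) (π / 2)
    have e2 := H.q2 (red_lng H K (by linarith) hb) (S - s)
    rw [red_Flong H K (by linarith) hb] at e1
    linarith

/-- Both ends to the left of the centre. -/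
theorem red_left (H : DPc ψ τ A B S f₁) (K : DPy ψ τ S f₁ y κ) {a b : ℝ} (h0 : -ψ ≤ a)
    (h : a ≤ b) (h1 : b ≤ π / 2) {s : ℝ} (hs : 0 ≤ s) :
    ∫ x in a..b, (κ x + 2 * s * y x - s ^ 2) ≤ 19 / 5 * ψ ^ 2 := by
  have hc : Continuous fun x => κ x + 2 * s * y x - s ^ 2 := by
    have := K.kc
    have := K.yc
    fun_prop
  rcases le_total b ψ with hb | hb
  · have e1 := red_add hc a b ψ
    have e2 := H.q3 (red_shrt K h0 (h.trans hb)) (red_shrt K (h0.trans h) hb) (by linarith)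
      (by
        rw [red_min, red_min]
        exact red_W_lip H K (abs_le.2 ⟨h0, h.trans hb⟩) (abs_le.2 ⟨h0.trans h, hb⟩)) s
    rw [red_lin K.kc K.yc _ _ a ψ, red_lin K.kc K.yc _ _ b ψ] at e1
    linarith
  · obtain ⟨d, rfl⟩ : ∃ d, b = ψ + d := ⟨b - ψ, by ring⟩
    have hd : d ≤ τ := by rw [H.tau]; linarith
    have hd0 : 0 ≤ d := by linarith
    rcases le_total a ψ with ha | ha
    · have e1 := red_add hc a ψ (ψ + d)
      have e2 := H.q5 (red_shrt K h0 ha) (red_lng H K hd0 hd) hs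
      rw [red_lin K.kc K.yc _ _ a ψ, red_Flong H K hd0 hd] at e1
      linarith
    · obtain ⟨c, rfl⟩ : ∃ c, a = ψ + c := ⟨a - ψ, by ring⟩
      have hc0 : 0 ≤ c := by linarith
      have hcd : c ≤ d := by linarith
      have e1 := red_add hc ψ (ψ + c) (ψ + d)
      have e2 := H.q4 (red_lng H K hc0 (hcd.trans hd)) (red_lng H K hd0 hd) hcd
        (red_w_lip H K hc0 hcd hd) (S - s)
      rw [red_Flong H K hc0 (hcd.trans hd), red_Flong H K hd0 hd] at e1
      linarith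

theorem red_ysym (K : DPy ψ τ S f₁ y κ) (x : ℝ) : y (π - x) = y x := by
  rw [sub_eq_neg_add, K.yanti, K.yodd, neg_neg]

theorem red_ksym (K : DPy ψ τ S f₁ y κ) (x : ℝ) : κ (π - x) = κ x := by
  rw [sub_eq_neg_add, K.kper, K.keven]

theorem red_sym (K : DPy ψ τ S f₁ y κ) (a b s : ℝ) :
    ∫ x in a..b, (κ x + 2 * s * y x - s ^ 2) =
      ∫ x in (π - b)..(π - a), (κ x + 2 * s * y x - s ^ 2) := by
  rw [← intervalIntegral.integral_comp_sub_left (fun x => κ x + 2 * s * y x - s ^ 2) π]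
  simp only [red_ysym K, red_ksym K]

/-- The positive part of the period. -/
theorem red_core (H : DPc ψ τ A B S f₁) (K : DPy ψ τ S f₁ y κ) {a b : ℝ} (h0 : -ψ ≤ a)
    (h : a ≤ b) (h1 : b ≤ π + ψ) {s : ℝ} (hs : 0 ≤ s) :
    ∫ x in a..b, (κ x + 2 * s * y x - s ^ 2) ≤ 19 / 5 * ψ ^ 2 := by
  have hc : Continuous fun x => κ x + 2 * s * y x - s ^ 2 := by
    have := K.kc
    have := K.yc
    fun_prop
  rcases le_total b (π / 2) with hb | hb
  · exact red_left H K h0 h hb hs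
  · rcases le_total a (π / 2) with ha | ha
    · have e1 := red_add hc a (π / 2) b
      have e2 := red_half H K h0 ha s
      have e3 := red_half H K (a := π - b) (by linarith) (by linarith) s
      rw [red_sym K (π / 2) b, show π - π / 2 = π / 2 by ring] at e1
      linarith
    · rw [red_sym K]
      exact red_left H K (by linarith) (by linarith) (by linarith) hs

theorem red_sign (H : DPc ψ τ A B S f₁) (K : DPy ψ τ S f₁ y κ) {x : ℝ} (h0 : ψ ≤ x)
    (h1 : x ≤ π - ψ) : κ x ≤ 0 ∧ 0 ≤ y x := by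
  have key : ∀ x, ψ ≤ x → x ≤ π / 2 → κ x ≤ 0 ∧ 0 ≤ y x := by
    intro x h0 h1
    obtain ⟨b, rfl⟩ : ∃ b, x = ψ + b := ⟨x - ψ, by ring⟩
    have hb : b ≤ τ := by rw [H.tau]; linarith
    have hb0 : 0 ≤ b := by linarith
    have hτ : 1 ≤ τ := by linarith [H.t1]
    have e1 := red_ylong H K hb0 hb
    have s1 := H.s1
    have f1 := H.f1
    have e2 : 0 ≤ f₁ * (b / 2) := mul_nonneg (by linarith) (by linarith)
    refine ⟨?_, by linarith⟩
    rw [K.kl b ⟨hb0, hb⟩]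
    have p2 : ψ ^ 2 ≤ 0.18 := by nlinarith [H.p1, H.p2]
    have e3 : 3 * (19 / 5 * ψ ^ 2) * b * (τ - b) / τ ^ 3 ≤ 3 * b := by
      rw [div_le_iff₀ (by positivity)]
      have a1 : τ - b ≤ τ ^ 3 := by nlinarith [one_le_pow₀ (n := 2) hτ]
      have a2 : 3 * (19 / 5 * ψ ^ 2) * b ≤ 3 * b := by nlinarith
      exact mul_le_mul a2 a1 (by linarith) (by linarith)
    have e4 : S * (S / 2 + f₁ * (b / 2)) ≤ S * y (ψ + b) :=
      mul_le_mul_of_nonneg_left e1 (by linarith)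
    have e5 : 3 ≤ S * f₁ := by nlinarith
    nlinarith
  rcases le_total x (π / 2) with h | h
  · exact key x h0 h
  · rw [← red_ksym K, ← red_ysym K]
    exact key _ (by linarith) (by linarith)

theorem red_neg (H : DPc ψ τ A B S f₁) (K : DPy ψ τ S f₁ y κ) {a b : ℝ} (h0 : ψ ≤ a) (h : a ≤ b)
    (h1 : b ≤ π - ψ) {s : ℝ} (hs : 0 ≤ s) :
    ∫ x in (π + a)..(π + b), (κ x + 2 * s * y x - s ^ 2) ≤ ∫ x in a..b, κ x ∧
      ∫ x in a..b, κ x ≤ 0 := by
  constructor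
  · rw [red_shift]
    refine red_mono ?_ K.kc h fun t ht => ?_
    · have := K.kc
      have := K.yc
      fun_prop
    · rw [add_comm π t, K.kper, K.yanti]
      have e1 := mul_nonneg hs (red_sign H K (h0.trans ht.1) (ht.2.trans h1)).2
      nlinarith [sq_nonneg s]
  · have := red_mono K.kc (continuous_const (y := (0 : ℝ))) h fun t ht =>
      (red_sign H K (h0.trans ht.1) (ht.2.trans h1)).1
    simpa using this

theorem red_full (H : DPc ψ τ A B S f₁) (K : DPy ψ τ S f₁ y κ) :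
    ∫ x in ψ..(π - ψ), κ x ≤ -(19 / 5 * ψ ^ 2) := by
  have e0 := red_Fend H K 0
  have e1 := red_sym K (π / 2) (π - ψ) 0
  rw [show π - π / 2 = π / 2 by ring, sub_sub_cancel, e0] at e1
  simp only [mul_zero, zero_mul, add_zero, ne_eq, OfNat.ofNat_ne_zero, not_false_eq_true,
    zero_pow, sub_zero] at e0 e1
  have e2 := red_add K.kc ψ (π / 2) (π - ψ)
  have p2 : ψ ^ 2 ≤ 0.18 := by nlinarith [H.p1, H.p2]
  have s2 : 1 ≤ S ^ 2 := by nlinarith [H.s1]
  have e3 : 1 ≤ τ * S ^ 2 := by nlinarith [H.t1]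
  linarith

theorem red_per (K : DPy ψ τ S f₁ y κ) (s : ℝ) :
    Function.Periodic (fun x => κ x + 2 * s * y x - s ^ 2) (2 * π) := fun x => by
  have e : x + 2 * π = x + π + π := by ring
  simp only [e, K.kper, K.yanti, neg_neg]

theorem red_int (K : DPy ψ τ S f₁ y κ) (n : ℤ) (a b s : ℝ) :
    ∫ x in a..b, (κ x + 2 * s * y x - s ^ 2) =
      ∫ x in (a - n * (2 * π))..(b - n * (2 * π)), (κ x + 2 * s * y x - s ^ 2) := by
  rw [← intervalIntegral.integral_comp_sub_right (fun x => κ x + 2 * s * y x - s ^ 2)]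
  exact intervalIntegral.integral_congr fun x _ => (((red_per K s).int_mul n).sub_eq x).symm

/-- The left end lies in one period. -/
theorem red_win (H : DPc ψ τ A B S f₁) (K : DPy ψ τ S f₁ y κ) {a b : ℝ} (h0 : -ψ ≤ a)
    (h0' : a ≤ 2 * π - ψ) (h1 : a ≤ b) (h2 : b ≤ a + π) {s : ℝ} (hs : 0 ≤ s) :
    ∫ x in a..b, (κ x + 2 * s * y x - s ^ 2) ≤ 19 / 5 * ψ ^ 2 := by
  have hc : Continuous fun x => κ x + 2 * s * y x - s ^ 2 := by
    have := K.kc
    have := K.yc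
    fun_prop
  have hψ : 0 ≤ ψ := by linarith [H.p1]
  have hψ' : ψ ≤ π - ψ := by linarith [H.p2, Real.pi_gt_three]
  have hμ : 0 ≤ 19 / 5 * ψ ^ 2 := by positivity
  have neg : ∀ u v, π + ψ ≤ u → u ≤ v → v ≤ 2 * π - ψ →
      ∫ x in u..v, (κ x + 2 * s * y x - s ^ 2) ≤ 0 := fun u v a1 a2 a3 => by
    have e := red_neg H K (a := u - π) (b := v - π) (by linarith) (by linarith) (by linarith) hs
    rw [add_sub_cancel, add_sub_cancel] at e
    exact e.1.trans e.2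
  rcases le_total b (π + ψ) with hb | hb
  · exact red_core H K h0 h1 hb hs
  · rcases le_total b (2 * π - ψ) with hb' | hb'
    · rcases le_total a (π + ψ) with ha | ha
      · have e1 := red_add hc a (π + ψ) b
        linarith [red_core H K h0 ha le_rfl hs, neg _ b le_rfl hb hb']
      · exact (neg a b ha h1 hb').trans hμ
    · have e1 := red_add hc a (2 * π - ψ) b
      have e2 : ∫ x in (2 * π - ψ)..b, (κ x + 2 * s * y x - s ^ 2) ≤ 19 / 5 * ψ ^ 2 := by
        rw [red_int K 1]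
        push_cast
        exact red_core H K (by linarith) (by linarith) (by linarith) hs
      rcases le_total a (π + ψ) with ha | ha
      · have e3 := red_add hc a (π + ψ) (2 * π - ψ)
        have e4 := (red_neg H K le_rfl hψ' le_rfl hs).1.trans (red_full H K)
        rw [show π + (π - ψ) = 2 * π - ψ by ring] at e4
        linarith [red_core H K h0 ha le_rfl hs]
      · linarith [neg a _ ha h0' le_rfl]

theorem red_pos (H : DPc ψ τ A B S f₁) (K : DPy ψ τ S f₁ y κ) {a b : ℝ} (h1 : a ≤ b)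
    (h2 : b ≤ a + π) {s : ℝ} (hs : 0 ≤ s) :
    ∫ x in a..b, (κ x + 2 * s * y x - s ^ 2) ≤ 19 / 5 * ψ ^ 2 := by
  have hp : 0 < 2 * π := by positivity
  have e1 := Int.floor_le ((a + ψ) / (2 * π))
  have e2 := Int.lt_floor_add_one ((a + ψ) / (2 * π))
  rw [le_div_iff₀ hp] at e1
  rw [div_lt_iff₀ hp] at e2
  rw [red_int K ⌊(a + ψ) / (2 * π)⌋]
  exact red_win H K (by linarith) (by linarith) (by linarith) (by linarith) hs

end red

theorem dp_ineq {ψ τ A B S f₁ : ℝ} (H : DPc ψ τ A B S f₁) {y κ : ℝ → ℝ} (K : DPy ψ τ S f₁ y κ)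
    {a b : ℝ} (h1 : a ≤ b) (h2 : b ≤ a + π) (s : ℝ) :
    ∫ x in a..b, (κ x + 2 * s * y x - s ^ 2) ≤ 19 / 5 * ψ ^ 2 := by
  rcases le_total 0 s with hs | hs
  · exact red_pos H K h1 h2 hs
  · have e := red_pos H K (a := -b) (b := -a) (by linarith) (by linarith) (neg_nonneg.2 hs)
    rw [← intervalIntegral.integral_comp_neg (fun x => κ x + 2 * -s * y x - (-s) ^ 2)] at e
    refine le_of_eq_of_le (intervalIntegral.integral_congr fun x _ => ?_) e
    simp only [K.keven, K.yodd]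
    ring

end Pool.Agent.P.MP_c09211_an.Sh.GL
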