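import Pool.Agent.P.MP_c09211_an.GL.DPbd

/-!
The value of the calibration (paper: DP, identity).
-/

set_option autoImplicit false

namespace Pool.Agent.P.MP_c09211_an.Sh.GL

open Metric Set Finset PowerSeries Complex Filter Topology Real MeasureTheory
open scoped ComplexConjugate

theorem dpval_short (A ψ m : ℝ) :
    ∫ x in (0 : ℝ)..ψ, (4 * Real.cos x ^ 2 - (A * Real.cos x - x * Real.sin x) ^ 2 +
      ((1 + A) * Real.sin x + x * Real.cos x) ^ 2 + m * (ψ - x)) =
    (5 / 2 + A) * ψ + (3 - 2 * A ^ 2) / 2 * (Real.sin ψ * Real.cos ψ) -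
      A * (ψ * (Real.cos ψ ^ 2 - Real.sin ψ ^ 2)) + ψ ^ 2 * (Real.sin ψ * Real.cos ψ) +
      m * ψ ^ 2 / 2 := by
  rw [intervalIntegral.integral_eq_sub_of_hasDerivAt (f := fun x => (5 / 2 + A) * x +
    (3 - 2 * A ^ 2) / 2 * (Real.sin x * Real.cos x) -
      A * (x * (Real.cos x ^ 2 - Real.sin x ^ 2)) + x ^ 2 * (Real.sin x * Real.cos x) -
      m * (ψ - x) ^ 2 / 2) (fun x _ => ?_) (Continuous.intervalIntegrable (by fun_prop) _ _)]
  · simp
  · have hs := Real.hasDerivAt_sin x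
    have hc := Real.hasDerivAt_cos x
    have hx := hasDerivAt_id' x
    refine ((((((hx.const_mul (5 / 2 + A)).fun_add ((hs.fun_mul hc).const_mul _)).fun_sub
      ((hx.fun_mul ((hc.fun_pow 2).fun_sub (hs.fun_pow 2))).const_mul A)).fun_add
      ((hx.fun_pow 2).fun_mul (hs.fun_mul hc))).fun_sub
      ((((hx.const_sub ψ).fun_pow 2).const_mul m).div_const 2)).congr_deriv ?_)
    have := Real.sin_sq_add_cos_sq x
    push_cast
    linear_combination (-(5 / 2 + A)) * this

theorem dpval_long (B τ m : ℝ) :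
    ∫ t in (-τ)..0, (4 * Real.sin t ^ 2 - (B * Real.sin t - t * Real.cos t) ^ 2 +
      ((1 - B) * Real.cos t - t * Real.sin t) ^ 2 + m * ((τ + t) * (-t))) =
    (5 / 2 - B) * τ + (2 * B ^ 2 - 3) / 2 * (Real.sin τ * Real.cos τ) -
      B * (τ * (Real.cos τ ^ 2 - Real.sin τ ^ 2)) - τ ^ 2 * (Real.sin τ * Real.cos τ) +
      m * τ ^ 3 / 6 := by
  rw [intervalIntegral.integral_eq_sub_of_hasDerivAt (f := fun x => (5 / 2 - B) * x +
    (2 * B ^ 2 - 3) / 2 * (Real.sin x * Real.cos x) -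
      B * (x * (Real.cos x ^ 2 - Real.sin x ^ 2)) - x ^ 2 * (Real.sin x * Real.cos x) -
      m * (τ * x ^ 2 / 2 + x ^ 3 / 3)) (fun x _ => ?_)
      (Continuous.intervalIntegrable (by fun_prop) _ _)]
  · simp only [Real.sin_zero, Real.cos_zero, Real.sin_neg, Real.cos_neg]
    ring
  · have hs := Real.hasDerivAt_sin x
    have hc := Real.hasDerivAt_cos x
    have hx := hasDerivAt_id' x
    refine ((((((hx.const_mul (5 / 2 - B)).fun_add ((hs.fun_mul hc).const_mul _)).fun_sub
      ((hx.fun_mul ((hc.fun_pow 2).fun_sub (hs.fun_pow 2))).const_mul B)).fun_sub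
      ((hx.fun_pow 2).fun_mul (hs.fun_mul hc))).fun_sub
      (((((hx.fun_pow 2).const_mul τ).div_const 2).fun_add
        ((hx.fun_pow 3).div_const 3)).const_mul m)).congr_deriv ?_)
    have := Real.sin_sq_add_cos_sq x
    push_cast
    linear_combination (-(5 / 2 - B)) * this

theorem DPc.value {ψ τ A B S f₁ : ℝ} (H : DPc ψ τ A B S f₁) :
    4 * (∫ x in (0 : ℝ)..π, fz ψ A B x * Real.cos x) - (∫ x in (0 : ℝ)..π, fz ψ A B x ^ 2) +
      (∫ x in (0 : ℝ)..π, (yz ψ A B x ^ 2 + kz ψ τ A B S x)) - 2 * (19 / 5 * ψ ^ 2) =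
      π * (3 / 2 + Real.cos (2 * ψ)) := by
  have Y := H.dpy
  have hf := fz_cont ψ A B
  have hy := Y.yc
  have hk := Y.kc
  have hψ : 0 ≤ ψ := by linarith [H.p1]
  have hτ : 0 < τ := by linarith [H.t1]
  set G : ℝ → ℝ := fun x => 4 * (fz ψ A B x * Real.cos x) - fz ψ A B x ^ 2 +
    (yz ψ A B x ^ 2 + kz ψ τ A B S x) with hG
  have hGc : Continuous G := by
    rw [hG]
    fun_prop
  have e1 : 4 * (∫ x in (0 : ℝ)..π, fz ψ A B x * Real.cos x) -
      (∫ x in (0 : ℝ)..π, fz ψ A B x ^ 2) +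
      (∫ x in (0 : ℝ)..π, (yz ψ A B x ^ 2 + kz ψ τ A B S x)) = ∫ x in (0 : ℝ)..π, G x := by
    rw [hG, intervalIntegral.integral_add (f := fun x => 4 * (fz ψ A B x * Real.cos x) -
        fz ψ A B x ^ 2) (Continuous.intervalIntegrable (by fun_prop) _ _)
        (Continuous.intervalIntegrable (by fun_prop) _ _),
      intervalIntegral.integral_sub (Continuous.intervalIntegrable (by fun_prop) _ _)
        (Continuous.intervalIntegrable (by fun_prop) _ _), intervalIntegral.integral_const_mul]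
  have hsym : ∀ x, G (π - x) = G x := fun x => by
    simp only [hG]
    rw [Real.cos_pi_sub, show π - x = -x + π by ring, H.fz_anti, fz_even, Y.yanti, Y.yodd, Y.kper,
      Y.keven]
    ring
  have e2 : ∫ x in (π / 2)..π, G x = ∫ x in (0 : ℝ)..(π / 2), G x := by
    have := intervalIntegral.integral_comp_sub_left (a := 0) (b := π / 2) G π
    simp only [hsym] at this
    rw [this]
    congr 1 <;> ring
  have e3 : ∫ x in (0 : ℝ)..ψ, G x = _ := (intervalIntegral.integral_congr fun x hx => by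
    rw [Set.uIcc_of_le hψ] at hx
    simp only [hG]
    rw [H.fz_short hx, H.yz_short hx, Y.ks x hx]
    ring).trans (dpval_short A ψ (19 / 5))
  have e4 : ∫ t in (-τ)..0, G (π / 2 + t) = _ := (intervalIntegral.integral_congr fun t ht => by
    rw [Set.uIcc_of_le (by linarith)] at ht
    have ht' : t ∈ Set.Icc (-τ) τ := ⟨ht.1, ht.2.trans hτ.le⟩
    have h1 := Y.kl (τ + t) ⟨by linarith [ht.1], by linarith [ht.2]⟩
    rw [show ψ + (τ + t) = π / 2 + t by rw [H.tau]; ring] at h1
    simp only [hG]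
    rw [h1, H.fz_long ht', H.yz_long ht', add_comm (π / 2) t, Real.cos_add_pi_div_two]
    ring).trans (dpval_long B τ (3 * (19 / 5 * ψ ^ 2) / τ ^ 3))
  rw [intervalIntegral.integral_comp_add_left, show π / 2 + -τ = ψ by rw [H.tau]; ring,
    add_zero] at e4
  rw [e1, ← intervalIntegral.integral_add_adjacent_intervals (b := π / 2)
    (hGc.intervalIntegrable _ _) (hGc.intervalIntegrable _ _), e2,
    ← intervalIntegral.integral_add_adjacent_intervals (b := ψ)
    (hGc.intervalIntegrable _ _) (hGc.intervalIntegrable _ _), e3, e4,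
    show 3 * (19 / 5 * ψ ^ 2) / τ ^ 3 * τ ^ 3 = 3 * (19 / 5 * ψ ^ 2) by field_simp]
  have hs : Real.sin τ = Real.cos ψ := by rw [H.tau, Real.sin_pi_div_two_sub]
  have hc : Real.cos τ = Real.sin ψ := by rw [H.tau, Real.cos_pi_div_two_sub]
  have hc0 : Real.cos ψ ≠ 0 := by
    have := H.hf
    have := H.f1
    intro h
    linarith
  have hT : Real.sin ψ = Real.tan ψ * Real.cos ψ := (Real.tan_mul_cos hc0).symm
  have h1 := Real.sin_sq_add_cos_sq ψ
  have h2 := H.eq
  have h3 : π = 2 * (ψ + τ) := by rw [H.tau]; ring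
  rw [Real.sin_two_mul] at h2
  rw [hs, hc, Real.cos_two_mul, H.hA, H.hB]
  generalize Real.tan ψ = T at *
  generalize Real.cos ψ = c at *
  generalize Real.sin ψ = s at *
  generalize π = p at *
  subst hT h3
  linear_combination (2 * (ψ + τ) * T) * h2 + (-4 * (ψ + τ)) * h1

end Pool.Agent.P.MP_c09211_an.Sh.GL
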