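import Pool.Agent.P.MP_c09211_an.GL.DPnum
import Pool.Agent.P.MP_c09211_an.GL.DPval
import Pool.Agent.P.MP_c09211_an.GL.DPred

/-!
The calibration (paper: DP, conclusion).
-/

set_option autoImplicit false

namespace Pool.Agent.P.MP_c09211_an.Sh.GL

open Metric Set Finset PowerSeries Complex Filter Topology Real MeasureTheory
open scoped ComplexConjugate

theorem dpd_bdd {h : ℝ → ℝ} (hc : Continuous h) (hp : Function.Periodic h π) :
    ∃ C, ∀ x, |h x| ≤ C := by
  obtain ⟨C, hC⟩ := (hp.isBounded_of_continuous pi_ne_zero hc).exists_norm_le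
  exact ⟨C, fun x => hC _ ⟨x, rfl⟩⟩

theorem dpd_exists {D : ℝ} (hD : Real.cos D = D) : ∃ f g U Φ μ Φ₀ C, DPD f g U Φ μ Φ₀ C D := by
  obtain ⟨τ, A, B, S, f₁, H⟩ := dpc_exists hD
  have hcos : Real.cos (2 * (π / 4 - D / 2)) = Real.sin D := by
    rw [← Real.cos_pi_div_two_sub]
    congr 1
    ring
  generalize π / 4 - D / 2 = ψ at H hcos
  have K := H.dpy
  have hyc := K.yc
  have hkc := K.kc
  have hc : Continuous fun x => yz ψ A B x ^ 2 + kz ψ τ A B S x := by fun_prop
  have hp : Function.Periodic (fun x => yz ψ A B x ^ 2 + kz ψ τ A B S x) π := fun x => by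
    simp only [K.yanti, K.kper, neg_sq]
  obtain ⟨C₁, h₁⟩ := dpd_bdd hc hp
  obtain ⟨C₂, h₂⟩ := dpd_bdd (h := fun x => |yz ψ A B x|) hyc.abs fun x => by
    simp only [K.yanti, abs_neg]
  have hsub : ∀ a b : ℝ, (∫ t in (0 : ℝ)..b, (yz ψ A B t ^ 2 + kz ψ τ A B S t)) -
      ∫ t in (0 : ℝ)..a, (yz ψ A B t ^ 2 + kz ψ τ A B S t) =
      ∫ t in a..b, (yz ψ A B t ^ 2 + kz ψ τ A B S t) := fun a b =>
    intervalIntegral.integral_interval_sub_left (hc.intervalIntegrable _ _)
      (hc.intervalIntegrable _ _)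
  refine ⟨fz ψ A B, fun x => -yz ψ A B x, fun x => ∫ t in (0 : ℝ)..x, -yz ψ A B t,
    fun x => ∫ t in (0 : ℝ)..x, (yz ψ A B t ^ 2 + kz ψ τ A B S t), 19 / 5 * ψ ^ 2,
    ∫ t in (0 : ℝ)..π, (yz ψ A B t ^ 2 + kz ψ τ A B S t), max C₁ C₂, fz_cont ψ A B, H.fz_anti,
    fun x => (yz_deriv ψ A B x).neg, fun x => (hyc.neg.integral_hasStrictDerivAt 0 x).hasDerivAt,
    fun x => ?_, fun x y => ?_, fun x => ?_, by positivity, fun a b s hab hb => ?_, ?_, ?_⟩
  · have := h₂ x
    rw [abs_abs] at this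
    rw [abs_neg]
    exact this.trans (le_max_right _ _)
  · rw [hsub]
    exact intervalIntegral.norm_integral_le_of_norm_le_const
      (f := fun t => yz ψ A B t ^ 2 + kz ψ τ A B S t) fun t _ => (h₁ t).trans (le_max_left _ _)
  · have h3 := hp.intervalIntegral_add_eq x 0
    rw [zero_add, ← hsub] at h3
    linarith
  · have h3 := dp_ineq H K hab hb (-s)
    have h4 : ∫ x in a..b, (yz ψ A B x ^ 2 + kz ψ τ A B S x) =
        (∫ x in a..b, (-yz ψ A B x - s) ^ 2) +
          ∫ x in a..b, (kz ψ τ A B S x + 2 * -s * yz ψ A B x - (-s) ^ 2) := by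
      rw [← intervalIntegral.integral_add (Continuous.intervalIntegrable (by fun_prop) _ _)
        (Continuous.intervalIntegrable (by fun_prop) _ _)]
      congr 1
      funext x
      ring
    rw [hsub, h4]
    linarith
  · have h3 := intervalIntegral.integral_comp_sub_left (a := 0) (b := π)
      (fun x => fz ψ A B x * Real.sin x) π
    have h4 : ∀ x, fz ψ A B (π - x) * Real.sin (π - x) = -(fz ψ A B x * Real.sin x) := fun x => by
      have h5 := H.fz_anti (-x)
      rw [fz_even, neg_add_eq_sub] at h5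
      rw [h5, Real.sin_pi_sub, neg_mul]
    simp only [h4, intervalIntegral.integral_neg, sub_self, sub_zero] at h3
    linarith
  · rw [← hcos]
    exact H.value

end Pool.Agent.P.MP_c09211_an.Sh.GL
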