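import Pool.Agent.P.MP_c09211_an.GL.DPdef

/-!
The algebraic inequalities of the calibration (paper: DP, Q1 to Q4).
-/

set_option autoImplicit false

namespace Pool.Agent.P.MP_c09211_an.Sh.GL

open Metric Set Finset PowerSeries Complex Filter Topology Real MeasureTheory
open scoped ComplexConjugate

variable {ψ τ A B S f₁ : ℝ}

/-- The bounds for a point of the short interval at the distance `l` from its right end:
`w` is the integral of `y` and `K` the integral of the multiplier over the last part. -/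
def Shrt (ψ S f₁ l w K : ℝ) : Prop :=
  0 ≤ l ∧ l ≤ 2 * ψ ∧ 0 ≤ w ∧ w ≤ 0.184 ∧
    w ≤ S * min l (2 * ψ - l) / 2 - f₁ * min l (2 * ψ - l) ^ 2 / 2 ∧
    K = if l ≤ ψ then 19 / 5 * l ^ 2 / 2 else 19 / 5 * ψ ^ 2 - 19 / 5 * (2 * ψ - l) ^ 2 / 2

/-- The bounds for a point of the long interval at the distance `b` from its left end. -/
def Lng (ψ τ S f₁ b w Y : ℝ) : Prop :=
  0 ≤ b ∧ b ≤ τ ∧ 0 ≤ w ∧ w ≤ 0.212 ∧ w ≤ S * b / 2 - f₁ * b ^ 2 / 2 + f₁ * b ^ 3 / (6 * τ) ∧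
    w ≤ 0.491 * (τ - b) ∧ Y = 19 / 5 * ψ ^ 2 / 2 * (3 * b ^ 2 / τ ^ 2 - 2 * b ^ 3 / τ ^ 3)

theorem dpalg_disc {a c w : ℝ} (ha : 0 ≤ a) (hc : 0 ≤ c) (h : w ^ 2 ≤ a * c) (s : ℝ) :
    2 * s * w ≤ s ^ 2 * a + c := by
  rcases ha.eq_or_lt with rfl | ha'
  · have : w = 0 := by nlinarith [sq_nonneg w]
    rw [this]
    linarith
  · by_contra hh
    nlinarith [sq_nonneg (s * a - w), mul_pos ha' (sub_pos.2 (not_le.1 hh))]

theorem dpalg_lng (H : DPc ψ τ A B S f₁) {b w Y : ℝ} (h : Lng ψ τ S f₁ b w Y) :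
    ∃ x : ℝ, 0 ≤ x ∧ x ≤ 1 ∧ b = x * τ ∧ Y = 1.9 * ψ ^ 2 * (x ^ 2 * (3 - 2 * x)) ∧
      w ≤ x * τ * (S / 2 - f₁ * τ * (x / 2 - x ^ 2 / 6)) := by
  obtain ⟨b0, b1, -, -, w2, -, hY⟩ := h
  have t0 : 0 < τ := by linarith [H.t1]
  refine ⟨b / τ, by positivity, (div_le_one t0).2 b1, by field_simp, ?_, w2.trans_eq ?_⟩
  · rw [hY]
    field_simp
    ring
  · field_simp
    ring

theorem dpalg_lng_Y (H : DPc ψ τ A B S f₁) {b w Y : ℝ} (h : Lng ψ τ S f₁ b w Y) :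
    0 ≤ Y ∧ Y ≤ 1.9 * ψ ^ 2 := by
  obtain ⟨x, x0, x1, -, rfl, -⟩ := dpalg_lng H h
  refine ⟨mul_nonneg (by positivity) (mul_nonneg (sq_nonneg x) (by linarith)), ?_⟩
  refine mul_le_of_le_one_right (by positivity) ?_
  nlinarith [mul_nonneg (sq_nonneg (1 - x)) (by linarith : 0 ≤ 1 + 2 * x)]

theorem dpalg_mix {ψ m m' : ℝ} (h0 : 0 ≤ m) (h1 : m ≤ m') (h2 : m' ≤ ψ) :
    ψ * (m - m') ^ 2 ≤ (2 * ψ - m - m') * (m ^ 2 + m' ^ 2) := by
  have h3 : 0 ≤ m' - m := by linarith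
  have h4 : ψ * (m' - m) ≤ (ψ - m) * m' := by nlinarith
  have h5 : ψ * (m - m') ^ 2 ≤ (ψ - m) * m' * (m' - m) := by nlinarith
  have h6 : (ψ - m) * m' * (m' - m) ≤ (ψ - m) * m' ^ 2 := by
    nlinarith [mul_nonneg (mul_nonneg (by linarith : 0 ≤ ψ - m) (h0.trans h1)) h0]
  nlinarith [mul_nonneg (by linarith : 0 ≤ ψ - m') (sq_nonneg m'),
    mul_nonneg (by linarith : 0 ≤ 2 * ψ - m - m') (sq_nonneg m)]

theorem DPc.q1 (H : DPc ψ τ A B S f₁) {l w K : ℝ} (h : Shrt ψ S f₁ l w K) (s : ℝ) :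
    K + 2 * s * w - s ^ 2 * l ≤ τ * (S - s) ^ 2 := by
  obtain ⟨l0, l1, w0, w1, w2, hK⟩ := h
  have p1 := H.p1
  have p2 := H.p2
  have t1 := H.t1
  have t2 := H.t2
  have s1 := H.s1
  have s2 := H.s2
  have f1 := H.f1
  have h1 : 1.9823 ≤ τ * S := by nlinarith
  have h2 : τ * S ≤ 1.9841 := by nlinarith
  have h3 : 3.403 ≤ τ * S * S := by nlinarith
  have key : K ≤ 0.66 ∧ w ^ 2 + 2 * (τ * S) * w + (τ + l) * K ≤ τ * S * S * l := by
    by_cases hl : l ≤ ψ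
    · rw [if_pos hl] at hK
      rw [min_eq_left (by linarith)] at w2
      have h4 : w ≤ l * (0.85875 - 0.9145 * l) := by nlinarith [mul_nonneg l0 l0]
      have h5 : w ^ 2 ≤ (l * (0.85875 - 0.9145 * l)) ^ 2 := pow_le_pow_left₀ w0 h4 2
      have h6 : 3.625 ≤ τ * S * f₁ := by nlinarith
      have h7 : 2 * (τ * S) * w ≤ τ * S * S * l - τ * S * f₁ * l ^ 2 := by nlinarith
      have h8 : (0.85875 - 0.9145 * l) ^ 2 + 1.9 * (τ + l) ≤ 3.625 := by nlinarith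
      have h9 := mul_le_mul_of_nonneg_right (h8.trans h6) (sq_nonneg l)
      refine ⟨by nlinarith, ?_⟩
      rw [hK]
      nlinarith
    · rw [if_neg hl] at hK
      obtain ⟨d, rfl⟩ : ∃ d, l = ψ + d := ⟨l - ψ, by ring⟩
      have d0 : 0 ≤ d := by linarith
      have d1 : d ≤ 0.416 := by linarith
      have h4 : K ≤ 0.3289 + 1.581 * d := by nlinarith [sq_nonneg d]
      have h5 : (τ + (ψ + d)) * K ≤ (1.5712 + d) * (0.3289 + 1.581 * d) :=
        (mul_le_mul_of_nonneg_left h4 (by linarith)).trans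
          (mul_le_mul_of_nonneg_right (by linarith) (by linarith))
      have h6 : 3.403 * (0.4157 + d) ≤ τ * S * S * (ψ + d) :=
        mul_le_mul h3 (by linarith) (by linarith) (by linarith)
      have h7 : w ^ 2 + 2 * (τ * S) * w ≤ 0.765 := by nlinarith
      exact ⟨by nlinarith [sq_nonneg (ψ - d)], by nlinarith⟩
  have := dpalg_disc (a := τ + l) (c := τ * S ^ 2 - K) (w := w + τ * S) (by linarith)
    (by nlinarith [key.1]) (by nlinarith [key.2]) s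
  nlinarith

theorem DPc.q2 (H : DPc ψ τ A B S f₁) {b w Y : ℝ} (h : Lng ψ τ S f₁ b w Y) (e : ℝ) :
    -(τ * e ^ 2) ≤ Y + 2 * e * w - e ^ 2 * b := by
  have hY0 := (dpalg_lng_Y H h).1
  obtain ⟨x, x0, x1, rfl, rfl, w2⟩ := dpalg_lng H h
  obtain ⟨b0, b1, w0, -, -, w3, -⟩ := h
  have p1 := H.p1
  have t1 := H.t1
  have t2 := H.t2
  have s2 := H.s2
  have f1 := H.f1
  have h1 : 0.3283 ≤ 1.9 * ψ ^ 2 := by nlinarith
  have key : (-w) ^ 2 ≤ (τ - x * τ) * (1.9 * ψ ^ 2 * (x ^ 2 * (3 - 2 * x))) := by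
    rw [neg_sq]
    have h2 : 0 ≤ x ^ 2 * (3 - 2 * x) := mul_nonneg (sq_nonneg x) (by linarith)
    refine le_trans ?_ (mul_le_mul_of_nonneg_left (mul_le_mul_of_nonneg_right h1 h2)
      (by linarith))
    by_cases hx : x ≤ 0.6
    · have h3 : 2.1119 ≤ f₁ * τ := by nlinarith
      have h4 : 0.4 * x ≤ x / 2 - x ^ 2 / 6 := by nlinarith
      have h5 : S / 2 - f₁ * τ * (x / 2 - x ^ 2 / 6) ≤ 0.859 - 0.844 * x := by
        nlinarith [mul_le_mul h3 h4 (by linarith) (by linarith)]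
      have h6 : w ^ 2 ≤ (x * τ * (0.859 - 0.844 * x)) ^ 2 :=
        pow_le_pow_left₀ w0 (w2.trans (mul_le_mul_of_nonneg_left h5 b0)) 2
      have h7 : τ * (0.859 - 0.844 * x) ^ 2 ≤ 0.3283 * ((1 - x) * (3 - 2 * x)) := by
        nlinarith [mul_le_mul_of_nonneg_right t2 (sq_nonneg (0.859 - 0.844 * x))]
      have h8 := mul_le_mul_of_nonneg_left h7 (by positivity : 0 ≤ x ^ 2 * τ)
      nlinarith
    · have h6 : w ^ 2 ≤ (0.491 * (τ - x * τ)) ^ 2 := pow_le_pow_left₀ w0 w3 2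
      have h3 : 0.648 ≤ x ^ 2 * (3 - 2 * x) := by
        nlinarith [mul_nonneg (by linarith : 0 ≤ x - 0.6) (by linarith : 0 ≤ 1 - x)]
      have h4 : τ - x * τ ≤ 0.47 := by nlinarith
      have h5 : 0.491 ^ 2 * (τ - x * τ) ≤ 0.3283 * (x ^ 2 * (3 - 2 * x)) := by nlinarith
      have h8 := mul_le_mul_of_nonneg_left h5 (by linarith : 0 ≤ τ - x * τ)
      nlinarith
  have := dpalg_disc (by linarith) hY0 key e
  linarith

theorem DPc.q3 (H : DPc ψ τ A B S f₁) {l w K l' w' K' : ℝ} (h : Shrt ψ S f₁ l w K)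
    (h' : Shrt ψ S f₁ l' w' K') (hl : l' ≤ l)
    (hw : |w - w'| ≤ S / 2 * |min l (2 * ψ - l) - min l' (2 * ψ - l')|) (s : ℝ) :
    K - K' + 2 * s * (w - w') - s ^ 2 * (l - l') ≤ 19 / 5 * ψ ^ 2 := by
  obtain ⟨l0, l1, -, -, -, hK⟩ := h
  obtain ⟨l0', l1', -, -, -, hK'⟩ := h'
  have p1 := H.p1
  have s1 := H.s1
  have s2 := H.s2
  have h1 : (S / 2) ^ 2 ≤ 1.9 * ψ := by nlinarith
  have h2 : (w - w') ^ 2 ≤ 1.9 * ψ * (min l (2 * ψ - l) - min l' (2 * ψ - l')) ^ 2 := by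
    have := pow_le_pow_left₀ (abs_nonneg _) hw 2
    rw [mul_pow, sq_abs, sq_abs] at this
    exact this.trans (mul_le_mul_of_nonneg_right h1 (sq_nonneg _))
  have d0 : 0 ≤ l - l' := by linarith
  have key : 0 ≤ 19 / 5 * ψ ^ 2 - K + K' ∧
      (w - w') ^ 2 ≤ (l - l') * (19 / 5 * ψ ^ 2 - K + K') := by
    have same : l - l' ≤ ψ → K - K' ≤ 1.9 * ψ ^ 2 → (w - w') ^ 2 ≤ 1.9 * ψ * (l - l') ^ 2 →
        0 ≤ 19 / 5 * ψ ^ 2 - K + K' ∧
          (w - w') ^ 2 ≤ (l - l') * (19 / 5 * ψ ^ 2 - K + K') := fun a1 a2 a3 => by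
      refine ⟨by nlinarith, a3.trans ?_⟩
      have : 1.9 * ψ * (l - l') ≤ 19 / 5 * ψ ^ 2 - K + K' := by nlinarith
      nlinarith [mul_le_mul_of_nonneg_left this d0]
    by_cases c1 : l ≤ ψ
    · rw [if_pos c1] at hK
      rw [if_pos (hl.trans c1)] at hK'
      rw [min_eq_left (by linarith), min_eq_left (by linarith)] at h2
      exact same (by linarith) (by nlinarith [sq_nonneg l']) h2
    · rw [if_neg c1] at hK
      by_cases c2 : l' ≤ ψ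
      · rw [if_pos c2] at hK'
        rw [min_eq_right (by linarith), min_eq_left (by linarith)] at h2
        have e : 19 / 5 * ψ ^ 2 - K + K' = 1.9 * ((2 * ψ - l) ^ 2 + l' ^ 2) := by
          rw [hK, hK']
          ring
        rw [e]
        refine ⟨by positivity, h2.trans ?_⟩
        rcases le_total (2 * ψ - l) l' with c3 | c3
        · nlinarith [dpalg_mix (ψ := ψ) (by linarith : 0 ≤ 2 * ψ - l) c3 c2]
        · nlinarith [dpalg_mix (ψ := ψ) l0' c3 (by linarith)]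
      · rw [if_neg c2] at hK'
        rw [min_eq_right (by linarith), min_eq_right (by linarith)] at h2
        refine same (by linarith) ?_ (by nlinarith)
        have : (2 * ψ - l') ^ 2 ≤ ψ ^ 2 := pow_le_pow_left₀ (by linarith) (by linarith) 2
        nlinarith [sq_nonneg (2 * ψ - l)]
  have := dpalg_disc d0 key.1 key.2 s
  linarith

theorem DPc.q4 (H : DPc ψ τ A B S f₁) {b w Y b' w' Y' : ℝ} (h : Lng ψ τ S f₁ b w Y)
    (h' : Lng ψ τ S f₁ b' w' Y') (hb : b ≤ b') (hw : |w' - w| ≤ S / 2 * (b' - b)) (e : ℝ) :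
    Y' - Y + 2 * e * (w' - w) - e ^ 2 * (b' - b) ≤ 19 / 5 * ψ ^ 2 := by
  have hY := (dpalg_lng_Y H h).1
  have hY' := (dpalg_lng_Y H h').2
  obtain ⟨-, -, w0, w1, -⟩ := h
  obtain ⟨-, -, w0', w1', -⟩ := h'
  have p1 := H.p1
  have s2 := H.s2
  have h1 : 0.3283 ≤ 1.9 * ψ ^ 2 := by nlinarith
  have d0 : 0 ≤ b' - b := by linarith
  have h2 : |w' - w| ≤ 0.212 := abs_le.2 ⟨by linarith, by linarith⟩
  have h3 : (w' - w) ^ 2 ≤ 0.212 * (S / 2 * (b' - b)) := by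
    rw [← sq_abs, sq]
    exact mul_le_mul h2 hw (abs_nonneg _) (by norm_num)
  have h4 : 0.212 * (S / 2) ≤ 19 / 5 * ψ ^ 2 - Y' + Y := by linarith
  have := dpalg_disc d0 (c := 19 / 5 * ψ ^ 2 - Y' + Y) (w := w' - w) (by linarith)
    (by nlinarith [mul_le_mul_of_nonneg_left h4 d0]) e
  linarith

end Pool.Agent.P.MP_c09211_an.Sh.GL
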