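import Pool.Agent.P.MP_c09211_an.GL.DPalg

/-!
The mixed inequality of the calibration (paper: DP, Q5).
-/

set_option autoImplicit false

namespace Pool.Agent.P.MP_c09211_an.Sh.GL

open Metric Set Finset PowerSeries Complex Filter Topology Real MeasureTheory
open scoped ComplexConjugate

variable {ψ τ A B S f₁ : ℝ}

/-- Polynomial bounds on the long interval. -/
theorem algB_lng (H : DPc ψ τ A B S f₁) {b w Y : ℝ} (h : Lng ψ τ S f₁ b w Y) :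
    Y ≤ 0.74 * b ^ 2 - 0.4265 * b ^ 3 ∧ w ≤ b * (S / 2 - 0.9145 * b + 0.2642 * b ^ 2) ∧
      ∃ x : ℝ, 0 ≤ x ∧ x ≤ 1 ∧ b = x * τ ∧
        19 / 5 * ψ ^ 2 / 2 - Y = 19 / 5 * ψ ^ 2 / 2 * ((1 - x) ^ 2 * (1 + 2 * x)) := by
  obtain ⟨b0, b1, -, -, hw, -, hY⟩ := h
  have t1 := H.t1
  have t2 := H.t2
  have hτ : 0 < τ := by linarith
  obtain ⟨r, hr⟩ : ∃ r, r = τ⁻¹ := ⟨_, rfl⟩
  have hrτ : r * τ = 1 := by rw [hr, inv_mul_cancel₀ hτ.ne']
  have r0 : 0 < r := by rw [hr]; exact inv_pos.2 hτ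
  have r1 : 0.8656 ≤ r := by nlinarith
  have r2 : r ≤ 0.86603 := by nlinarith
  have r3 : r ^ 2 ≤ 0.75001 := by nlinarith
  have r4 : 0.64856 ≤ r ^ 3 := le_trans (by norm_num) (pow_le_pow_left₀ (by norm_num) r1 3)
  have x0 : 0 ≤ b * r := by positivity
  have x1 : b * r ≤ 1 := by nlinarith
  have hY' : Y = 19 / 5 * ψ ^ 2 / 2 * (3 * (b * r) ^ 2 - 2 * (b * r) ^ 3) := by
    rw [hY, hr]
    field_simp
  have hc : 19 / 5 * ψ ^ 2 / 2 ≤ 0.32881 := by nlinarith [H.p1, H.p2]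
  have hZ : 0 ≤ 3 * (b * r) ^ 2 - 2 * (b * r) ^ 3 := by nlinarith [sq_nonneg (b * r)]
  have b2 : 0 ≤ b ^ 2 := by positivity
  have b3 : 0 ≤ b ^ 3 := by positivity
  refine ⟨?_, ?_, b * r, x0, x1, by rw [mul_assoc, hrτ, mul_one], by rw [hY']; ring⟩
  · have h1 : Y ≤ 0.32881 * (3 * (b * r) ^ 2 - 2 * (b * r) ^ 3) := by
      rw [hY']
      exact mul_le_mul_of_nonneg_right hc hZ
    have h2 : (b * r) ^ 2 ≤ b ^ 2 * 0.75001 := by
      rw [mul_pow]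
      exact mul_le_mul_of_nonneg_left r3 b2
    have h3 : b ^ 3 * 0.64856 ≤ (b * r) ^ 3 := by
      rw [mul_pow]
      exact mul_le_mul_of_nonneg_left r4 b3
    linarith
  · have e : f₁ * b ^ 3 / (6 * τ) = b ^ 3 * (f₁ * r / 6) := by
      rw [hr]
      field_simp
    have h1 : f₁ * r / 6 ≤ 0.2642 := by nlinarith [H.f1, H.f2]
    have h2 := mul_le_mul_of_nonneg_left h1 b3
    have h3 := mul_le_mul_of_nonneg_left H.f1 b2
    rw [e] at hw
    nlinarith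

/-- The discriminant inequality on the long interval. -/
theorem algB_disc {S b w Y : ℝ} (s1 : 1.7168 ≤ S) (s2 : S ≤ 1.7175) (b0 : 0 ≤ b) (b1 : b ≤ 1.1552)
    (w0 : 0 ≤ w) (hY : Y ≤ 0.74 * b ^ 2 - 0.4265 * b ^ 3)
    (hw : w ≤ b * (S / 2 - 0.9145 * b + 0.2642 * b ^ 2)) :
    (b + 0.32) * Y + w ^ 2 + 2 * 0.32 * S * w ≤ b * 0.32 * S ^ 2 := by
  have b2 : 0 ≤ b ^ 2 := by positivity
  have h1 : (b + 0.32) * Y ≤ (b + 0.32) * (0.74 * b ^ 2 - 0.4265 * b ^ 3) :=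
    mul_le_mul_of_nonneg_left hY (by linarith)
  have h2 : w ≤ b * (0.85875 - 0.9145 * b + 0.2642 * b ^ 2) :=
    hw.trans (mul_le_mul_of_nonneg_left (by linarith) b0)
  have h3 : w ^ 2 ≤ (b * (0.85875 - 0.9145 * b + 0.2642 * b ^ 2)) ^ 2 := pow_le_pow_left₀ w0 h2 2
  have h4 : S * w ≤ S * (b * (S / 2 - 0.9145 * b + 0.2642 * b ^ 2)) :=
    mul_le_mul_of_nonneg_left hw (by linarith)
  have h5 : 1.7168 * (b ^ 2 * (0.9145 - 0.2642 * b)) ≤ S * (b ^ 2 * (0.9145 - 0.2642 * b)) :=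
    mul_le_mul_of_nonneg_right s1 (mul_nonneg b2 (by linarith))
  have h6 : 0 ≤ 0.67 - 0.87 * b + 0.48 * b ^ 2 - 0.07 * b ^ 3 := by
    nlinarith [sq_nonneg (b - 1), mul_nonneg b2 (sub_nonneg.2 b1)]
  have h7 : 0 ≤ b ^ 2 * (b * (0.67 - 0.87 * b + 0.48 * b ^ 2 - 0.07 * b ^ 3)) := by positivity
  have h8 : 0 ≤ b ^ 3 := by positivity
  have h9 : 0 ≤ b ^ 4 := by positivity
  have h10 : 0 ≤ b ^ 5 := by positivity
  have h11 : 0 ≤ b ^ 6 := by positivity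
  nlinarith

theorem algB_M1 (H : DPc ψ τ A B S f₁) {b w Y : ℝ} (h : Lng ψ τ S f₁ b w Y) (s : ℝ) :
    Y + 2 * (S - s) * w - (S - s) ^ 2 * b ≤ 0.32 * s ^ 2 := by
  obtain ⟨hY, hw, -⟩ := algB_lng H h
  have hd := algB_disc H.s1 H.s2 h.1 (h.2.1.trans H.t2) h.2.2.1 hY hw
  have hb : 0 < b + 0.32 := by linarith [h.1]
  refine le_of_mul_le_mul_left ?_ hb
  nlinarith [sq_nonneg (w + 0.32 * S - (S - s) * (b + 0.32))]

theorem algB_M2 (H : DPc ψ τ A B S f₁) {b w Y : ℝ} (h : Lng ψ τ S f₁ b w Y) (e : ℝ) :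
    Y + 2 * e * w - e ^ 2 * b ≤ 19 / 5 * ψ ^ 2 / 2 := by
  obtain ⟨-, hw, x, x0, x1, hx, hD⟩ := algB_lng H h
  obtain ⟨b0, b1, w0, w1, -, w2, -⟩ := h
  have t1 := H.t1
  have t2 := H.t2
  have hc : 0.32833 ≤ 19 / 5 * ψ ^ 2 / 2 := by nlinarith [H.p1]
  have hw' : w ≤ 0.85875 * b := by
    refine hw.trans ?_
    rw [mul_comm]
    refine mul_le_mul_of_nonneg_right ?_ b0
    nlinarith [H.s2, mul_nonneg b0 (sub_nonneg.2 (b1.trans t2))]
  have hq : 0 ≤ (1 - x) ^ 2 * (1 + 2 * x) := by positivity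
  have hD' : 0.32833 * ((1 - x) ^ 2 * (1 + 2 * x)) ≤ 19 / 5 * ψ ^ 2 / 2 - Y := by
    rw [hD]
    exact mul_le_mul_of_nonneg_right hc hq
  have key : w ^ 2 ≤ b * (0.32833 * ((1 - x) ^ 2 * (1 + 2 * x))) := by
    rcases le_total x 0.45 with hx1 | hx1
    · have h1 : 0.5747 ≤ (1 - x) ^ 2 * (1 + 2 * x) := by
        nlinarith [mul_nonneg x0 (sub_nonneg.2 hx1), mul_nonneg (mul_nonneg x0 x0) x0,
          mul_nonneg (sub_nonneg.2 hx1) (sub_nonneg.2 hx1),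
          mul_nonneg (mul_nonneg x0 (sub_nonneg.2 hx1)) (sub_nonneg.2 hx1)]
      have h2 : w ^ 2 ≤ 0.212 * (0.85875 * b) := by
        rw [sq]
        exact mul_le_mul w1 hw' w0 (by norm_num)
      have h3 := mul_le_mul_of_nonneg_left h1 b0
      nlinarith
    · have h1 : w ≤ 0.56721 * (1 - x) := by
        have : τ - b = τ * (1 - x) := by rw [hx]; ring
        rw [this] at w2
        nlinarith [mul_le_mul_of_nonneg_right t2 (sub_nonneg.2 x1)]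
      have h2 : w ^ 2 ≤ (0.56721 * (1 - x)) ^ 2 := pow_le_pow_left₀ w0 h1 2
      have h3 : 0.5196 ≤ b := by rw [hx]; nlinarith
      have h4 : 0.5196 * 1.9 ≤ b * (1 + 2 * x) :=
        mul_le_mul h3 (by linarith) (by norm_num) b0
      have h5 := mul_le_mul_of_nonneg_left h4 (sq_nonneg (1 - x))
      nlinarith [sq_nonneg (1 - x)]
  rcases b0.eq_or_lt with rfl | hb
  · have : w = 0 := le_antisymm (by linarith) w0
    rw [this]
    nlinarith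
  · refine le_of_mul_le_mul_left ?_ hb
    nlinarith [sq_nonneg (w - e * b), mul_le_mul_of_nonneg_left hD' b0]

theorem algB_m1 (H : DPc ψ τ A B S f₁) {l w K : ℝ} (h : Shrt ψ S f₁ l w K) {s : ℝ} (hs : 0 ≤ s)
    (hs' : s ≤ 1.02) : K + 2 * s * w - s ^ 2 * l ≤ 19 / 5 * ψ ^ 2 - 0.32 * s ^ 2 := by
  obtain ⟨l0, l1, w0, w1, w2, hK⟩ := h
  have p1 := H.p1
  have p2 := H.p2
  have hsw : s * w ≤ s * 0.184 := mul_le_mul_of_nonneg_left w1 hs
  have hs2 : s ^ 2 ≤ 1.0404 := by nlinarith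
  split_ifs at hK with hl
  · rw [min_eq_left (by linarith)] at w2
    have hc : 0.65666 ≤ 19 / 5 * ψ ^ 2 := by nlinarith
    rw [hK]
    rcases le_total l 0.1 with h1 | h1
    · have h2 : w ≤ 0.0859 := by nlinarith [H.s2, H.f1, sq_nonneg l]
      have h3 : s * w ≤ 1.02 * 0.0859 := mul_le_mul hs' h2 w0 (by norm_num)
      have h4 : l ^ 2 ≤ 0.01 := by nlinarith
      nlinarith [mul_nonneg (sq_nonneg s) l0]
    · have h2 : l ≤ 0.416 := hl.trans p2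
      have h3 : l ^ 2 ≤ 0.516 * l - 0.0416 := by
        nlinarith [mul_nonneg (sub_nonneg.2 h1) (sub_nonneg.2 h2)]
      have h4 : 0 ≤ 0.65666 - 0.019 - 0.368 * s - 0.22 * s ^ 2 := by linarith
      have h5 : 0 ≤ 0.65666 - 0.32881 - 0.368 * s + 0.096 * s ^ 2 := by
        nlinarith [mul_nonneg (sub_nonneg.2 hs') (sub_nonneg.2 hs')]
      nlinarith [mul_nonneg h4 (sub_nonneg.2 h2), mul_nonneg h5 (sub_nonneg.2 h1)]
  · rw [min_eq_right (by linarith)] at w2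
    obtain ⟨p, hp⟩ : ∃ p, p = 2 * ψ - l := ⟨_, rfl⟩
    rw [← hp] at w2 hK
    have q0 : 0 ≤ p := by linarith
    have q1 : p ≤ 0.416 := by linarith
    have hl' : 0.8314 - p ≤ l := by linarith
    have hsl := mul_le_mul_of_nonneg_left hl' (sq_nonneg s)
    suffices 2 * s * w ≤ 1.9 * p ^ 2 + s ^ 2 * (0.5114 - p) by
      rw [hK]
      nlinarith
    rcases le_total p 0.334 with h1 | h1
    · have h2 : w ≤ p * (0.85875 - 0.9145 * p) := by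
        nlinarith [mul_le_mul_of_nonneg_right H.s2 q0,
          mul_le_mul_of_nonneg_right H.f1 (sq_nonneg p)]
      have h3 : w ^ 2 ≤ (p * (0.85875 - 0.9145 * p)) ^ 2 := pow_le_pow_left₀ w0 h2 2
      have h4 : (0.85875 - 0.9145 * p) ^ 2 ≤ 1.9 * (0.5114 - p) := by
        nlinarith [mul_nonneg q0 (sub_nonneg.2 h1)]
      have h5 := mul_le_mul_of_nonneg_left h4 (sq_nonneg p)
      have h6 : 0 < 0.5114 - p := by linarith
      refine le_of_mul_le_mul_left ?_ h6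
      nlinarith [sq_nonneg (w - s * (0.5114 - p))]
    · have h2 : 0 ≤ 0.368 - (0.5114 - p) * (1.02 + s) := by nlinarith
      nlinarith [mul_nonneg h2 (sub_nonneg.2 hs'), sq_nonneg (p - 0.274)]

theorem algB_m2 (H : DPc ψ τ A B S f₁) {l w K : ℝ} (h : Shrt ψ S f₁ l w K) {s : ℝ}
    (hs : 1.02 ≤ s) : K + 2 * s * w - s ^ 2 * l ≤ 19 / 5 * ψ ^ 2 / 2 := by
  have h1 := algB_m1 H h (s := 1.02) (by norm_num) le_rfl
  obtain ⟨l0, l1, w0, -, w2, -⟩ := h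
  have hc : 19 / 5 * ψ ^ 2 / 2 ≤ 0.32881 := by nlinarith [H.p1, H.p2]
  have h2 : w ≤ 0.85875 * l := by
    have h3 := min_le_left l (2 * ψ - l)
    have h4 : 0 ≤ min l (2 * ψ - l) := le_min l0 (by linarith)
    nlinarith [mul_le_mul_of_nonneg_right H.s2 h4, H.f1, sq_nonneg (min l (2 * ψ - l))]
  have h3 : 0 ≤ l * (s + 1.02) - 2 * w := by nlinarith
  nlinarith [mul_nonneg (sub_nonneg.2 hs) h3]

theorem DPc.q5 (H : DPc ψ τ A B S f₁) {l w K b w' Y : ℝ} (h : Shrt ψ S f₁ l w K)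
    (h' : Lng ψ τ S f₁ b w' Y) {s : ℝ} (hs : 0 ≤ s) :
    K + 2 * s * w - s ^ 2 * l + (Y + 2 * (S - s) * w' - (S - s) ^ 2 * b) ≤ 19 / 5 * ψ ^ 2 := by
  rcases le_total s 1.02 with h1 | h1
  · linarith [algB_m1 H h hs h1, algB_M1 H h' s]
  · linarith [algB_m2 H h h1, algB_M2 H h' (S - s)]

end Pool.Agent.P.MP_c09211_an.Sh.GL
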