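import Pool.Agent.P.MP_c09211_an.GL.DPfun

/-!
Bounds for the functions of the calibration (paper: DP).
-/

set_option autoImplicit false

namespace Pool.Agent.P.MP_c09211_an.Sh.GL

open Metric Set Finset PowerSeries Complex Filter Topology Real MeasureTheory
open scoped ComplexConjugate

variable {ψ τ A B S f₁ : ℝ}

theorem DPbd_mono {g g' : ℝ → ℝ} (hg : ∀ x, HasDerivAt g (g' x) x) {a b : ℝ} (hab : a ≤ b)
    (h : ∀ x ∈ Set.Icc a b, 0 ≤ g' x) : g a ≤ g b := by
  have hm : MonotoneOn g (Set.Icc a b) :=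
    monotoneOn_of_deriv_nonneg (convex_Icc a b)
      (fun x _ => (hg x).continuousAt.continuousWithinAt)
      (fun x _ => (hg x).differentiableAt.differentiableWithinAt)
      (fun x hx => by
        rw [(hg x).deriv]
        exact h x (interior_subset hx))
  exact hm ⟨le_rfl, hab⟩ ⟨hab, le_rfl⟩ hab

theorem DPbd_cos_le {u : ℝ} (hu : 0 ≤ u) : Real.cos u ≤ 1 - u ^ 2 / 2 + u ^ 4 / 24 := by
  have h := DPbd_mono (g := fun x => 1 - x ^ 2 / 2 + x ^ 4 / 24 - Real.cos x)
    (g' := fun x => Real.sin x - (x - x ^ 3 / 6)) (fun x => by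
      have h1 := ((((hasDerivAt_pow 2 x).div_const 2).const_sub 1).add
        ((hasDerivAt_pow 4 x).div_const 24)).sub (Real.hasDerivAt_cos x)
      exact h1.congr_deriv (by push_cast; ring)) hu
    fun x hx => sub_nonneg.2 (Real.sin_ge_sub_cube hx.1)
  simp only [Real.cos_zero] at h
  linarith

theorem DPbd_yc (ψ A B : ℝ) : Continuous (yz ψ A B) :=
  continuous_iff_continuousAt.2 fun x => (yz_deriv ψ A B x).continuousAt

theorem DPbd_odd (ψ A B x : ℝ) : yz ψ A B (-x) = -yz ψ A B x := by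
  have h := intervalIntegral.integral_comp_neg (a := 0) (b := x) (fz ψ A B)
  simp only [fz_even, neg_zero] at h
  rw [yz, yz, h, intervalIntegral.integral_symm]

theorem DPbd_dz {x : ℝ} (h0 : 0 ≤ x) (h1 : x ≤ π / 2) : dz x = x := by
  have hp := Real.pi_pos
  rw [dz, abs_of_nonneg (Real.sin_nonneg_of_nonneg_of_le_pi h0 (by linarith)),
    Real.arcsin_sin (by linarith) h1]

theorem DPbd_poly {u B : ℝ} (h0 : 0 ≤ u) (h1 : u ≤ 1.1552) (hB : 0.509 ≤ B) :
    u * (1 - u ^ 2 / 2 + u ^ 4 / 24) - B * (u - u ^ 3 / 6) ≤ 0.212 := by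
  have h2 : u ^ 2 ≤ 1.34 := by nlinarith
  have h3 : u ^ 3 ≤ 1.34 * u := by nlinarith
  have h4 : 0 ≤ u - u ^ 3 / 6 := by linarith
  have h5 := mul_le_mul_of_nonneg_right hB h4
  have h6 : 0 ≤ 118547 / 240000 + 17393 / 48000 * u - 13 / 240 * u ^ 2 - 1 / 24 * u ^ 3 := by
    linarith
  have h7 := mul_nonneg (sq_nonneg (u - 13 / 20)) h6
  nlinarith

namespace DPc

theorem DPbd_cos_pos (H : DPc ψ τ A B S f₁) : 0 < Real.cos ψ := by
  linarith [H.hf, H.f1]

theorem DPbd_sin_tau (H : DPc ψ τ A B S f₁) : Real.sin τ = Real.cos ψ := by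
  rw [H.tau, Real.sin_pi_div_two_sub]

theorem DPbd_cos_tau (H : DPc ψ τ A B S f₁) : Real.cos τ = Real.sin ψ := by
  rw [H.tau, Real.cos_pi_div_two_sub]

theorem DPbd_A (H : DPc ψ τ A B S f₁) : A * Real.cos ψ = ψ * Real.sin ψ := by
  have := H.DPbd_cos_pos.ne'
  rw [H.hA, Real.tan_eq_sin_div_cos]
  field_simp

theorem DPbd_B (H : DPc ψ τ A B S f₁) : B * Real.sin τ = τ * Real.cos τ := by
  have := H.DPbd_cos_pos.ne'
  rw [H.DPbd_sin_tau, H.DPbd_cos_tau, H.hB, Real.tan_eq_sin_div_cos]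
  field_simp

theorem DPbd_anti (H : DPc ψ τ A B S f₁) (x : ℝ) : yz ψ A B (x + π) = -yz ψ A B x := by
  have key : ∀ x, yz ψ A B (x + π) = yz ψ A B π - yz ψ A B x := by
    intro x
    have h1 := intervalIntegral.integral_comp_add_right (a := 0) (b := x) (fz ψ A B) π
    simp only [H.fz_anti, zero_add, intervalIntegral.integral_neg] at h1
    have h2 := intervalIntegral.integral_add_adjacent_intervals (μ := volume)
      ((fz_cont ψ A B).intervalIntegrable 0 π) ((fz_cont ψ A B).intervalIntegrable π (x + π))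
    rw [yz, yz, yz, ← h2, ← h1]
    ring
  have h := key (-(π / 2))
  rw [DPbd_odd, show -(π / 2) + π = π / 2 by ring] at h
  rw [key]
  linarith

theorem DPbd_ys (H : DPc ψ τ A B S f₁) {x : ℝ} (hx : x ∈ Set.Icc 0 ψ) :
    0 ≤ yz ψ A B x ∧ yz ψ A B x ≤ S / 2 - f₁ * (ψ - x) := by
  have hp := Real.pi_gt_three
  have hψ := H.p2
  have hA := H.a1
  constructor
  · rw [H.yz_short hx]
    have h1 := Real.sin_nonneg_of_nonneg_of_le_pi hx.1 (by linarith [hx.2])
    have h2 := Real.cos_nonneg_of_neg_pi_div_two_le_of_le (x := x) (by linarith [hx.1])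
      (by linarith [hx.2])
    have := hx.1
    positivity
  · have h := DPbd_mono (g := fun t => yz ψ A B t - f₁ * t) (g' := fun t => fz ψ A B t - f₁)
      (fun t => ((yz_deriv ψ A B t).sub ((hasDerivAt_id t).const_mul f₁)).congr_deriv
        (by ring)) hx.2 fun t ht => by
        have t0 : 0 ≤ t := hx.1.trans ht.1
        have h1 : Real.cos ψ ≤ Real.cos t :=
          Real.cos_le_cos_of_nonneg_of_le_pi t0 (by linarith) ht.2
        have h2 : Real.sin t ≤ Real.sin ψ :=
          Real.sin_le_sin_of_le_of_le_pi_div_two (by linarith) (by linarith) ht.2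
        have h3 := Real.sin_nonneg_of_nonneg_of_le_pi t0 (by linarith [ht.2])
        have h4 : t * Real.sin t ≤ ψ * Real.sin ψ := mul_le_mul ht.2 h2 h3 (t0.trans ht.2)
        have h5 : A * Real.cos ψ ≤ A * Real.cos t := mul_le_mul_of_nonneg_left h1 (by linarith)
        rw [H.fz_short ⟨t0, ht.2⟩, H.hf]
        linarith [H.DPbd_A]
    simp only [H.yz_knot] at h
    linarith

theorem DPbd_ws (H : DPc ψ τ A B S f₁) : ∫ t in (0 : ℝ)..ψ, yz ψ A B t = A := by
  have h0 : 0 ≤ ψ := by linarith [H.p1]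
  rw [intervalIntegral.integral_congr (g := fun t => (1 + A) * Real.sin t + t * Real.cos t)
    (fun t ht => H.yz_short (by rwa [Set.uIcc_of_le h0] at ht)),
    intervalIntegral.integral_eq_sub_of_hasDerivAt
      (f := fun t => -(A * Real.cos t) + t * Real.sin t) (fun t _ => ?_)
      (Continuous.intervalIntegrable (by fun_prop) _ _)]
  · simp only [Real.cos_zero, Real.sin_zero]
    linarith [H.DPbd_A]
  · exact (((Real.hasDerivAt_cos t).const_mul A).neg.add
      ((hasDerivAt_id t).mul (Real.hasDerivAt_sin t))).congr_deriv (by simp only [id]; ring)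

theorem DPbd_f_long (H : DPc ψ τ A B S f₁) {b : ℝ} (hb : b ∈ Set.Icc 0 τ) :
    fz ψ A B (ψ + b) = (2 - B) * Real.sin (τ - b) + (τ - b) * Real.cos (τ - b) := by
  have e : ψ + b = π / 2 + -(τ - b) := by
    rw [H.tau]
    ring
  rw [e, H.fz_long ⟨by linarith [hb.1], by linarith [hb.1, hb.2]⟩, Real.sin_neg, Real.cos_neg]
  ring

theorem DPbd_y_long (H : DPc ψ τ A B S f₁) {b : ℝ} (hb : b ∈ Set.Icc 0 τ) :
    yz ψ A B (ψ + b) = S + (1 - B) * Real.cos (τ - b) - (τ - b) * Real.sin (τ - b) := by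
  have e : ψ + b = π / 2 + -(τ - b) := by
    rw [H.tau]
    ring
  rw [e, H.yz_long ⟨by linarith [hb.1], by linarith [hb.1, hb.2]⟩, Real.sin_neg, Real.cos_neg]
  ring

theorem DPbd_f_ge (H : DPc ψ τ A B S f₁) {u : ℝ} (hu : u ∈ Set.Icc 0 τ) :
    f₁ * (u / τ) ≤ (2 - B) * Real.sin u + u * Real.cos u := by
  have hp := Real.pi_gt_three
  have hτ : 0 < τ := by linarith [H.t1]
  have hτ2 := H.t2
  have hB := H.b2
  have r0 : 0 ≤ u / τ := div_nonneg hu.1 hτ.le
  have r1 : u / τ ≤ 1 := (div_le_one hτ).2 hu.2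
  have e : u / τ * τ = u := div_mul_cancel₀ u hτ.ne'
  have m0 : (0 : ℝ) ∈ Set.Icc 0 π := ⟨le_rfl, by linarith⟩
  have m1 : τ ∈ Set.Icc 0 π := ⟨hτ.le, by linarith⟩
  have h1 := strictConcaveOn_sin_Icc.concaveOn.2 m0 m1 (sub_nonneg.2 r1) r0 (by ring)
  simp only [Real.sin_zero, smul_eq_mul, mul_zero, zero_add, e] at h1
  have h2 : Real.cos τ ≤ Real.cos u := Real.cos_le_cos_of_nonneg_of_le_pi hu.1 (by linarith) hu.2
  have h3 := mul_le_mul_of_nonneg_left h2 hu.1
  have h4 := mul_le_mul_of_nonneg_left h1 (by linarith : 0 ≤ 2 - B)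
  have h5 : u * Real.cos τ = u / τ * (B * Real.sin τ) := by
    rw [H.DPbd_B, ← mul_assoc, e]
  rw [H.hf, ← H.DPbd_sin_tau]
  nlinarith

theorem DPbd_yl (H : DPc ψ τ A B S f₁) {b : ℝ} (hb : b ∈ Set.Icc 0 τ) :
    S / 2 + f₁ * (b - b ^ 2 / (2 * τ)) ≤ yz ψ A B (ψ + b) ∧ yz ψ A B (ψ + b) ≤ S + 0.491 := by
  have hp := Real.pi_gt_three
  have hτ : 0 < τ := by linarith [H.t1]
  have hτ2 := H.t2
  constructor
  · have h := DPbd_mono (g := fun t => yz ψ A B (ψ + t) - f₁ * (t - t ^ 2 / (2 * τ)))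
      (g' := fun t => fz ψ A B (ψ + t) - f₁ * ((τ - t) / τ))
      (fun t => (((yz_deriv ψ A B (ψ + t)).comp_const_add ψ t).sub
        (((hasDerivAt_id t).sub ((hasDerivAt_pow 2 t).div_const (2 * τ))).const_mul
          f₁)).congr_deriv (by
            push_cast
            field_simp)) hb.1 fun t ht => by
        rw [H.DPbd_f_long ⟨ht.1, ht.2.trans hb.2⟩, sub_nonneg]
        exact H.DPbd_f_ge ⟨by linarith [ht.2, hb.2], by linarith [ht.1]⟩
    simp only [add_zero, H.yz_knot] at h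
    have e : f₁ * (0 - 0 ^ 2 / (2 * τ)) = 0 := by simp
    linarith
  · rw [H.DPbd_y_long hb]
    have u0 : 0 ≤ τ - b := by linarith [hb.2]
    have h1 := Real.sin_nonneg_of_nonneg_of_le_pi u0 (by linarith [hb.1])
    have h2 := mul_nonneg u0 h1
    have h3 := mul_le_mul_of_nonneg_left (Real.cos_le_one (τ - b))
      (by linarith [H.b2] : 0 ≤ 1 - B)
    linarith [H.b1]

theorem DPbd_int (H : DPc ψ τ A B S f₁) {b : ℝ} (hb : b ∈ Set.Icc 0 τ) :
    S * b - ∫ t in ψ..(ψ + b), yz ψ A B t =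
      (τ - b) * Real.cos (τ - b) - B * Real.sin (τ - b) := by
  have h1 := intervalIntegral.integral_comp_add_left (a := 0) (b := b) (yz ψ A B) ψ
  rw [add_zero] at h1
  rw [← h1, intervalIntegral.integral_congr
    (g := fun t => S + (1 - B) * Real.cos (τ - t) - (τ - t) * Real.sin (τ - t))
    (fun t ht => by
      rw [Set.uIcc_of_le hb.1] at ht
      exact H.DPbd_y_long ⟨ht.1, ht.2.trans hb.2⟩),
    intervalIntegral.integral_eq_sub_of_hasDerivAt
      (f := fun t => S * t + B * Real.sin (τ - t) - (τ - t) * Real.cos (τ - t)) (fun t _ => ?_)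
      (Continuous.intervalIntegrable (by fun_prop) _ _)]
  · simp only [sub_zero]
    linarith [H.DPbd_B]
  · have d := (hasDerivAt_id t).const_sub τ
    exact ((((hasDerivAt_id t).const_mul S).add (d.sin.const_mul B)).sub
      (d.mul d.cos)).congr_deriv (by simp only [id]; ring)

theorem DPbd_w (H : DPc ψ τ A B S f₁) {u : ℝ} (hu : u ∈ Set.Icc 0 τ) :
    0 ≤ u * Real.cos u - B * Real.sin u ∧ u * Real.cos u - B * Real.sin u ≤ 0.212 := by
  have hp := Real.pi_gt_three
  have hτ2 := H.t2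
  have hB1 := H.b1
  have hB2 := H.b2
  constructor
  · have der : ∀ x, HasDerivAt (fun x => x * Real.cos x - B * Real.sin x)
        ((1 - B) * Real.cos x - x * Real.sin x) x := fun x =>
      (((hasDerivAt_id x).mul (Real.hasDerivAt_cos x)).sub
        ((Real.hasDerivAt_sin x).const_mul B)).congr_deriv (by simp only [id]; ring)
    have anti : ∀ x y, 0 ≤ x → x ≤ y → y ≤ τ →
        (1 - B) * Real.cos y - y * Real.sin y ≤ (1 - B) * Real.cos x - x * Real.sin x := by
      intro x y hx hxy hy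
      have h1 : Real.cos y ≤ Real.cos x := Real.cos_le_cos_of_nonneg_of_le_pi hx (by linarith) hxy
      have h2 : Real.sin x ≤ Real.sin y :=
        Real.sin_le_sin_of_le_of_le_pi_div_two (by linarith) (by linarith) hxy
      have h3 := Real.sin_nonneg_of_nonneg_of_le_pi hx (by linarith)
      have h4 : x * Real.sin x ≤ y * Real.sin y := mul_le_mul hxy h2 h3 (hx.trans hxy)
      have h5 := mul_le_mul_of_nonneg_left h1 (by linarith : 0 ≤ 1 - B)
      linarith
    rcases le_total 0 ((1 - B) * Real.cos u - u * Real.sin u) with h | h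
    · have h1 := DPbd_mono der hu.1 fun x hx => h.trans (anti x u hx.1 hx.2 hu.2)
      simpa using h1
    · have h1 := DPbd_mono (fun x => (der x).neg) hu.2 fun x hx =>
        neg_nonneg.2 ((anti u x hu.1 hx.1 hx.2).trans h)
      simp only [Pi.neg_apply] at h1
      linarith [H.DPbd_B]
  · have h1 := mul_le_mul_of_nonneg_left (DPbd_cos_le hu.1) hu.1
    have h2 := mul_le_mul_of_nonneg_left (Real.sin_ge_sub_cube hu.1) (by linarith : 0 ≤ B)
    have h3 := DPbd_poly hu.1 (hu.2.trans hτ2) hB1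
    linarith

end DPc

theorem DPc.dpy (H : DPc ψ τ A B S f₁) : DPy ψ τ S f₁ (yz ψ A B) (kz ψ τ A B S) := by
  have hτ : 0 < τ := by linarith [H.t1]
  have hψ : 0 < ψ := by linarith [H.p1]
  have hf : 0 < f₁ := by linarith [H.f1]
  have hS : 0 < S := by linarith [H.s1]
  have ht := H.tau
  refine ⟨DPbd_yc ψ A B, ?_, DPbd_odd ψ A B, H.DPbd_anti, fun x => ?_, fun x => ?_,
    fun x hx => ?_, fun b hb => ?_, fun x hx => H.DPbd_ys hx, ?_, fun b hb => H.DPbd_yl hb,
    fun b hb => ?_, ?_⟩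
  · have h1 : Continuous dz := Real.continuous_arcsin.comp Real.continuous_sin.abs
    have h2 := DPbd_yc ψ A B
    unfold kz
    fun_prop
  · rw [kz, kz, dz, dz, Real.sin_neg, abs_neg, DPbd_odd, abs_neg]
  · rw [kz, kz, dz, dz, Real.sin_add_pi, abs_neg, H.DPbd_anti, abs_neg]
  · obtain ⟨h1, h2⟩ := H.DPbd_ys hx
    have h3 := mul_nonneg hf.le (sub_nonneg.2 hx.2)
    rw [kz, DPbd_dz hx.1 (by linarith [hx.2]), abs_of_nonneg h1,
      max_eq_left (sub_nonneg.2 hx.2), max_eq_right (sub_nonpos.2 hx.2),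
      max_eq_right (by linarith)]
    ring
  · obtain ⟨h1, -⟩ := H.DPbd_yl hb
    have h2 : b ^ 2 / (2 * τ) ≤ b := by
      rw [div_le_iff₀ (by linarith)]
      nlinarith [hb.1, hb.2]
    have h3 := mul_nonneg hf.le (sub_nonneg.2 h2)
    rw [kz, DPbd_dz (by linarith [hb.1]) (by linarith [hb.2]), abs_of_nonneg (by linarith),
      max_eq_right (by linarith [hb.1]), add_sub_cancel_left, max_eq_left hb.1,
      max_eq_left (by linarith)]
    ring
  · rw [H.DPbd_ws]
    exact H.a2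
  · rw [H.DPbd_int hb]
    exact H.DPbd_w ⟨by linarith [hb.2], by linarith [hb.1]⟩
  · have h := H.DPbd_int ⟨hτ.le, le_rfl⟩
    simp only [sub_self, Real.sin_zero, mul_zero, zero_mul] at h
    linarith

end Pool.Agent.P.MP_c09211_an.Sh.GL
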