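import Pool.Agent.P.MP_c09211_an.GL.Defs

/-!
Constants and functions of the calibration (paper: DP).
-/

set_option autoImplicit false

namespace Pool.Agent.P.MP_c09211_an.Sh.GL

open Metric Set Finset PowerSeries Complex Filter Topology Real MeasureTheory
open scoped ComplexConjugate

/-- Numerical facts on the angle `ψ` with `sin (2 ψ) = π / 2 - 2 ψ`. -/
structure DPc (ψ τ A B S f₁ : ℝ) : Prop where
  eq : Real.sin (2 * ψ) = π / 2 - 2 * ψ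
  tau : τ = π / 2 - ψ
  hA : A = ψ * Real.tan ψ
  hB : B = τ * Real.tan ψ
  hS : S = π / (2 * Real.cos ψ)
  hf : f₁ = 2 * Real.cos ψ
  p1 : 0.4157 ≤ ψ
  p2 : ψ ≤ 0.416
  t1 : 1.1547 ≤ τ
  t2 : τ ≤ 1.1552
  a1 : 0.183 ≤ A
  a2 : A ≤ 0.184
  b1 : 0.509 ≤ B
  b2 : B ≤ 0.511
  s1 : 1.7168 ≤ S
  s2 : S ≤ 1.7175
  f1 : 1.829 ≤ f₁
  f2 : f₁ ≤ 1.83

/-- The support function of the zigzag on `[0, π]`. -/
noncomputable def wz (ψ A B x : ℝ) : ℝ :=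
  (A * Real.cos (min x ψ) - min x ψ * Real.sin (min x ψ)) +
  (B * Real.sin (max ψ (min x (π - ψ)) - π / 2) -
    (max ψ (min x (π - ψ)) - π / 2) * Real.cos (max ψ (min x (π - ψ)) - π / 2)) +
  (A * Real.cos (max x (π - ψ)) + (π - max x (π - ψ)) * Real.sin (max x (π - ψ)))

/-- The even antiperiodic density. -/
noncomputable def fz (ψ A B x : ℝ) : ℝ := 2 * Real.cos x + wz ψ A B (Real.arccos (Real.cos x))

/-- Its odd primitive. -/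
noncomputable def yz (ψ A B x : ℝ) : ℝ := ∫ t in (0 : ℝ)..x, fz ψ A B t

/-- The distance from the nearest multiple of `π`. -/
noncomputable def dz (x : ℝ) : ℝ := Real.arcsin |Real.sin x|

/-- The multiplier. -/
noncomputable def kz (ψ τ A B S x : ℝ) : ℝ :=
  19 / 5 * max (ψ - dz x) 0 +
    (3 * (19 / 5 * ψ ^ 2) * max (dz x - ψ) 0 * (τ - max (dz x - ψ) 0) / τ ^ 3 -
      2 * S * max (|yz ψ A B x| - S / 2) 0)

/-- The properties of `y` and `κ` that are used in the inequality. -/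
structure DPy (ψ τ S f₁ : ℝ) (y κ : ℝ → ℝ) : Prop where
  yc : Continuous y
  kc : Continuous κ
  yodd : ∀ x, y (-x) = -y x
  yanti : ∀ x, y (x + π) = -y x
  keven : ∀ x, κ (-x) = κ x
  kper : ∀ x, κ (x + π) = κ x
  ks : ∀ x ∈ Set.Icc 0 ψ, κ x = 19 / 5 * (ψ - x)
  kl : ∀ b ∈ Set.Icc 0 τ, κ (ψ + b) =
    3 * (19 / 5 * ψ ^ 2) * b * (τ - b) / τ ^ 3 - 2 * S * y (ψ + b) + S ^ 2
  ys : ∀ x ∈ Set.Icc 0 ψ, 0 ≤ y x ∧ y x ≤ S / 2 - f₁ * (ψ - x)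
  ws : ∫ t in (0 : ℝ)..ψ, y t ≤ 0.184
  yl : ∀ b ∈ Set.Icc 0 τ, S / 2 + f₁ * (b - b ^ 2 / (2 * τ)) ≤ y (ψ + b) ∧ y (ψ + b) ≤ S + 0.491
  wl : ∀ b ∈ Set.Icc 0 τ, 0 ≤ S * b - ∫ t in ψ..(ψ + b), y t ∧
    S * b - ∫ t in ψ..(ψ + b), y t ≤ 0.212
  we : ∫ t in ψ..(ψ + τ), y t = S * τ

end Pool.Agent.P.MP_c09211_an.Sh.GL
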