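import Pool.Agent.P.MP_c09211_an.GL.DPdef

/-!
Formulas for the functions of the calibration (paper: DP).
-/

set_option autoImplicit false

namespace Pool.Agent.P.MP_c09211_an.Sh.GL

open Metric Set Finset PowerSeries Complex Filter Topology Real MeasureTheory
open scoped ComplexConjugate

variable {ψ τ A B S f₁ : ℝ}

theorem DPfun_wz_cont (ψ A B : ℝ) : Continuous (wz ψ A B) := by
  unfold wz
  fun_prop

theorem DPfun_psi (H : DPc ψ τ A B S f₁) : 0 < ψ ∧ ψ < π / 2 := by
  have := H.p1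
  have := H.p2
  have := Real.pi_gt_three
  constructor <;> linarith

theorem DPfun_cos (H : DPc ψ τ A B S f₁) : 0 < Real.cos ψ :=
  Real.cos_pos_of_mem_Ioo ⟨by linarith [(DPfun_psi H).1, Real.pi_pos], (DPfun_psi H).2⟩

theorem DPfun_A (H : DPc ψ τ A B S f₁) : A * Real.cos ψ = ψ * Real.sin ψ := by
  rw [H.hA, mul_assoc, Real.tan_mul_cos (DPfun_cos H).ne']

theorem DPfun_B (H : DPc ψ τ A B S f₁) : B * Real.cos ψ = τ * Real.sin ψ := by
  rw [H.hB, mul_assoc, Real.tan_mul_cos (DPfun_cos H).ne']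

theorem DPfun_S (H : DPc ψ τ A B S f₁) : S * Real.cos ψ = π / 2 := by
  have := (DPfun_cos H).ne'
  rw [H.hS]
  field_simp

theorem DPfun_sc (H : DPc ψ τ A B S f₁) : Real.sin ψ * Real.cos ψ = π / 4 - ψ := by
  have := H.eq
  rw [Real.sin_two_mul] at this
  linarith

theorem DPfun_wz_anti (H : DPc ψ τ A B S f₁) (x : ℝ) : wz ψ A B (π - x) = -wz ψ A B x := by
  have hψ := (DPfun_psi H).2
  have e1 : min (π - x) ψ = π - max x (π - ψ) := by
    simp only [min_def, max_def]
    split_ifs <;> linarith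
  have e2 : max (π - x) (π - ψ) = π - min x ψ := by
    simp only [min_def, max_def]
    split_ifs <;> linarith
  have e3 : max ψ (min (π - x) (π - ψ)) - π / 2 = -(max ψ (min x (π - ψ)) - π / 2) := by
    simp only [min_def, max_def]
    split_ifs <;> linarith
  unfold wz
  rw [e1, e2, e3, Real.cos_pi_sub, Real.sin_pi_sub, Real.cos_pi_sub, Real.sin_pi_sub, Real.sin_neg,
    Real.cos_neg]
  ring

theorem fz_cont (ψ A B : ℝ) : Continuous (fz ψ A B) :=
  (continuous_const.mul Real.continuous_cos).add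
    ((DPfun_wz_cont ψ A B).comp (Real.continuous_arccos.comp Real.continuous_cos))

theorem DPc.fz_anti (H : DPc ψ τ A B S f₁) (x : ℝ) : fz ψ A B (x + π) = -fz ψ A B x := by
  unfold fz
  rw [Real.cos_add_pi, Real.arccos_neg, DPfun_wz_anti H]
  ring

theorem fz_even (ψ A B x : ℝ) : fz ψ A B (-x) = fz ψ A B x := by
  unfold fz
  rw [Real.cos_neg]

theorem DPc.fz_short (H : DPc ψ τ A B S f₁) {x : ℝ} (hx : x ∈ Set.Icc 0 ψ) :
    fz ψ A B x = 2 * Real.cos x + (A * Real.cos x - x * Real.sin x) := by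
  obtain ⟨h0, h1⟩ := hx
  have hψ := (DPfun_psi H).2
  have hp := Real.pi_pos
  unfold fz wz
  rw [Real.arccos_cos h0 (by linarith), min_eq_left h1, min_eq_left (by linarith : x ≤ π - ψ),
    max_eq_left h1, max_eq_right (by linarith : x ≤ π - ψ), Real.cos_pi_sub, Real.sin_pi_sub,
    Real.sin_sub_pi_div_two, Real.cos_sub_pi_div_two]
  have hA := DPfun_A H
  have hB := DPfun_B H
  rw [H.tau] at hB
  linear_combination -hA - hB

theorem DPc.fz_long (H : DPc ψ τ A B S f₁) {t : ℝ} (ht : t ∈ Set.Icc (-τ) τ) :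
    fz ψ A B (π / 2 + t) = -2 * Real.sin t + (B * Real.sin t - t * Real.cos t) := by
  obtain ⟨h0, h1⟩ := ht
  rw [H.tau] at h0 h1
  have hψ := (DPfun_psi H).1
  unfold fz wz
  rw [Real.arccos_cos (by linarith) (by linarith), min_eq_right (by linarith : ψ ≤ π / 2 + t),
    min_eq_left (by linarith : π / 2 + t ≤ π - ψ), max_eq_right (by linarith : ψ ≤ π / 2 + t),
    max_eq_right (by linarith : π / 2 + t ≤ π - ψ), Real.cos_pi_sub, Real.sin_pi_sub,
    add_sub_cancel_left, add_comm (π / 2) t, Real.cos_add_pi_div_two]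
  ring

theorem yz_deriv (ψ A B x : ℝ) : HasDerivAt (yz ψ A B) (fz ψ A B x) x :=
  (fz_cont ψ A B).integral_hasStrictDerivAt 0 x |>.hasDerivAt

theorem DPc.yz_short (H : DPc ψ τ A B S f₁) {x : ℝ} (hx : x ∈ Set.Icc 0 ψ) :
    yz ψ A B x = (1 + A) * Real.sin x + x * Real.cos x := by
  have h1 : ∫ t in (0 : ℝ)..x, fz ψ A B t = ((1 + A) * Real.sin x + x * Real.cos x) -
      ((1 + A) * Real.sin 0 + 0 * Real.cos 0) := by
    refine intervalIntegral.integral_eq_sub_of_hasDerivAt
      (f := fun x => (1 + A) * Real.sin x + x * Real.cos x) (fun t ht => ?_)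
      ((fz_cont ψ A B).intervalIntegrable _ _)
    rw [Set.uIcc_of_le hx.1] at ht
    rw [H.fz_short ⟨ht.1, ht.2.trans hx.2⟩]
    have := ((Real.hasDerivAt_sin t).const_mul (1 + A)).add
      ((hasDerivAt_id' t).mul (Real.hasDerivAt_cos t))
    exact this.congr_deriv (by ring)
  unfold yz
  rw [h1, Real.sin_zero]
  ring

theorem DPc.yz_knot (H : DPc ψ τ A B S f₁) : yz ψ A B ψ = S / 2 := by
  rw [H.yz_short ⟨(DPfun_psi H).1.le, le_rfl⟩]
  refine mul_right_cancel₀ (DPfun_cos H).ne' ?_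
  linear_combination Real.sin ψ * DPfun_A H + DPfun_sc H - DPfun_S H / 2 +
    ψ * Real.sin_sq_add_cos_sq ψ

theorem DPc.yz_long (H : DPc ψ τ A B S f₁) {t : ℝ} (ht : t ∈ Set.Icc (-τ) τ) :
    yz ψ A B (π / 2 + t) = S + (1 - B) * Real.cos t + t * Real.sin t * (-1) := by
  have h1 : ∫ s in (-τ)..t, fz ψ A B (π / 2 + s) = ((1 - B) * Real.cos t - t * Real.sin t) -
      ((1 - B) * Real.cos (-τ) - (-τ) * Real.sin (-τ)) := by
    refine intervalIntegral.integral_eq_sub_of_hasDerivAt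
      (f := fun x => (1 - B) * Real.cos x - x * Real.sin x) (fun s hs => ?_)
      (((fz_cont ψ A B).comp (continuous_const.add continuous_id)).intervalIntegrable _ _)
    rw [Set.uIcc_of_le ht.1] at hs
    rw [H.fz_long ⟨hs.1, hs.2.trans ht.2⟩]
    have := ((Real.hasDerivAt_cos s).const_mul (1 - B)).sub
      ((hasDerivAt_id' s).mul (Real.hasDerivAt_sin s))
    exact this.congr_deriv (by ring)
  have e0 : π / 2 + -τ = ψ := by rw [H.tau]; ring
  have c1 : Real.cos τ = Real.sin ψ := by rw [H.tau, Real.cos_pi_div_two_sub]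
  have c2 : Real.sin τ = Real.cos ψ := by rw [H.tau, Real.sin_pi_div_two_sub]
  rw [intervalIntegral.integral_comp_add_left (fz ψ A B), e0, Real.cos_neg, Real.sin_neg, c1,
    c2] at h1
  have h2 : yz ψ A B (π / 2 + t) = yz ψ A B ψ + ∫ s in ψ..(π / 2 + t), fz ψ A B s :=
    (intervalIntegral.integral_add_adjacent_intervals ((fz_cont ψ A B).intervalIntegrable _ _)
      ((fz_cont ψ A B).intervalIntegrable _ _)).symm
  have h3 : (1 - B) * Real.sin ψ - τ * Real.cos ψ = -(S / 2) := by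
    refine mul_right_cancel₀ (DPfun_cos H).ne' ?_
    linear_combination -Real.sin ψ * DPfun_B H + DPfun_sc H + DPfun_S H / 2 -
      τ * Real.sin_sq_add_cos_sq ψ - H.tau
  rw [h2, H.yz_knot, h1]
  linear_combination -h3

end Pool.Agent.P.MP_c09211_an.Sh.GL
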