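import Pool.Agent.P.MP_c09211_an.GL.DPdef

/-!
Numerical bounds for the constants (paper: DP).
-/

set_option autoImplicit false

namespace Pool.Agent.P.MP_c09211_an.Sh.GL

open Metric Set Finset PowerSeries Complex Filter Topology Real MeasureTheory
open scoped ComplexConjugate

theorem DPnum_cos {t : ℝ} (h : |t| ≤ 1) :
    |Real.cos t - (1 - t ^ 2 / 2 + t ^ 4 / 24 - t ^ 6 / 720)| ≤ 1 / 30000 := by
  have h1 : ‖(t : ℂ) * I‖ ≤ 1 := by simpa using h
  have h2 := (Complex.abs_re_le_norm _).trans (Complex.exp_bound h1 (n := 8) (by norm_num))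
  have h3 : (∑ m ∈ Finset.range 8, ((t : ℂ) * I) ^ m / (m.factorial : ℂ)) =
      ((1 - t ^ 2 / 2 + t ^ 4 / 24 - t ^ 6 / 720 : ℝ) : ℂ) +
        ((t - t ^ 3 / 6 + t ^ 5 / 120 - t ^ 7 / 5040 : ℝ) : ℂ) * I := by
    simp only [Finset.sum_range_succ, Finset.sum_range_zero, Nat.factorial]
    push_cast
    linear_combination ((t : ℂ) ^ 2 / 2 + t ^ 3 / 6 * I + t ^ 4 / 24 * (I ^ 2 - 1) +
      t ^ 5 / 120 * (I ^ 3 - I) + t ^ 6 / 720 * (I ^ 4 - I ^ 2 + 1) +
      t ^ 7 / 5040 * (I ^ 5 - I ^ 3 + I)) * I_sq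
  rw [h3, sub_re, exp_ofReal_mul_I_re, add_re, ofReal_re, mul_I_re, ofReal_im, neg_zero,
    add_zero] at h2
  refine h2.trans ((mul_le_of_le_one_left (by positivity) (pow_le_one₀ (norm_nonneg _) h1)).trans ?_)
  norm_num [Nat.factorial]

theorem DPnum_D {D : ℝ} (hD : Real.cos D = D) : 0.7389 ≤ D ∧ D ≤ 0.7393 := by
  have h1 : |D| ≤ 1 := hD ▸ Real.abs_cos_le_one D
  have h0 : 0 ≤ D := hD ▸ (Real.cos_pos_of_le_one h1).le
  constructor
  · by_contra! h
    have h2 := Real.cos_le_cos_of_nonneg_of_le_pi h0 (by linarith [Real.pi_gt_three]) h.le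
    have h3 := (abs_le.1 (DPnum_cos (t := 0.7389) (by norm_num [abs_le]))).1
    norm_num at h3
    linarith
  · by_contra! h
    have h2 := Real.cos_le_cos_of_nonneg_of_le_pi (by norm_num)
      (by linarith [Real.pi_gt_three, (abs_le.1 h1).2]) h.le
    have h3 := (abs_le.1 (DPnum_cos (t := 0.7393) (by norm_num [abs_le]))).2
    norm_num at h3
    linarith

theorem dpc_exists {D : ℝ} (hD : Real.cos D = D) : ∃ τ A B S f₁, DPc (π / 4 - D / 2) τ A B S f₁ := by
  obtain ⟨d1, d2⟩ := DPnum_D hD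
  have q1 := Real.pi_gt_d6
  have q2 := Real.pi_lt_d6
  have e : 2 * (π / 4 - D / 2) = π / 2 - D := by ring
  have e1 : Real.sin (2 * (π / 4 - D / 2)) = D := by rw [e, Real.sin_pi_div_two_sub, hD]
  have e2 : Real.cos (2 * (π / 4 - D / 2)) = Real.sin D := by rw [e, Real.cos_pi_div_two_sub]
  have e3 : Real.sin D ^ 2 = 1 - D ^ 2 := by rw [Real.sin_sq, hD]
  have s0 : 0 ≤ Real.sin D := Real.sin_nonneg_of_nonneg_of_le_pi (by linarith) (by linarith)
  have s1 : 0.6733 ≤ Real.sin D := by nlinarith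
  have s2 : Real.sin D ≤ 0.6739 := by nlinarith
  have p1 : 0.4157 ≤ π / 4 - D / 2 := by linarith
  have p2 : π / 4 - D / 2 ≤ 0.416 := by linarith
  have t1 : 1.1547 ≤ π / 2 - (π / 4 - D / 2) := by linarith
  have t2 : π / 2 - (π / 4 - D / 2) ≤ 1.1552 := by linarith
  have c0 : 0 < Real.cos (π / 4 - D / 2) := Real.cos_pos_of_le_one (abs_le.2 ⟨by linarith, by linarith⟩)
  have h0 : Real.sin (2 * (π / 4 - D / 2)) = π / 2 - 2 * (π / 4 - D / 2) := by rw [e1]; ring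
  rw [Real.sin_two_mul] at e1
  rw [Real.cos_two_mul] at e2
  generalize π / 4 - D / 2 = ψ at *
  have c1 : 0.9146 ≤ Real.cos ψ := by nlinarith
  have c2 : Real.cos ψ ≤ 0.9149 := by nlinarith
  have e4 : Real.tan ψ * (1 + Real.sin D) = D := by
    rw [Real.tan_eq_sin_div_cos, ← e2, ← e1]
    field_simp
    ring
  have u1 : 0.4414 ≤ Real.tan ψ := by nlinarith
  have u2 : Real.tan ψ ≤ 0.4419 := by nlinarith
  refine ⟨_, _, _, _, _, h0, rfl, rfl, rfl, rfl, rfl, p1, p2, t1, t2, by nlinarith, by nlinarith,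
    by nlinarith, by nlinarith, ?_, ?_, by linarith, by linarith⟩
  · rw [le_div_iff₀ (by positivity)]
    linarith
  · rw [div_le_iff₀ (by positivity)]
    linarith

variable {ψ τ A B S f₁ : ℝ}

end Pool.Agent.P.MP_c09211_an.Sh.GL
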