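import Pool.Agent.P.MP_c09211_an.GL.Basic
import Pool.Agent.P.MP_c09211_an.Sh.Net

/-!
Closeness to the function of Koebe on a circle (paper: G, Deep).
-/

set_option autoImplicit false

namespace Pool.Agent.P.MP_c09211_an.Sh.GL

open Metric Set Finset PowerSeries Complex Filter Topology Real MeasureTheory
open scoped ComplexConjugate

theorem deep_lg {h g : ℂ⟦X⟧} (H : LM h g) {z : ℂ} (hz : ‖z‖ < 1) :
    HasSum (fun k : ℕ => coeff (k + 1) g / (k + 1) * z ^ (k + 1)) (ev (netLg g) z) := by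
  have a := (hasSum_nat_add_iff' 1).mpr (netLg_cv H z hz).of_norm.hasSum
  simp only [range_one, sum_singleton, netLg_zero, zero_mul, sub_zero] at a
  simpa only [netLg, coeff_mk, Nat.cast_succ, ev] using a

theorem deep_norm {y : ℝ} (y0 : 0 ≤ y) : ‖(y : ℂ)‖ = y := by
  rw [norm_real, Real.norm_eq_abs, abs_of_nonneg y0]

theorem deep_sq (w : ℂ) : ‖w - 1‖ ^ 2 = ‖w‖ ^ 2 - 2 * w.re + 1 := by
  rw [Complex.sq_norm, Complex.sq_norm, normSq_apply, normSq_apply]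
  simp only [sub_re, one_re, sub_im, one_im]
  ring

theorem deep_sum {h g : ℂ⟦X⟧} (H : LM h g) {y η : ℝ} (y0 : 0 ≤ y) (y1 : y < 1) (η1 : η ≤ 1 / 2)
    (hy : 1 - η ≤ ‖ev h y‖ ^ 2 * (1 - y) ^ 2) (K : ℕ) :
    ∑ k ∈ range K, ‖coeff (k + 1) g - 1‖ ^ 2 / (k + 1) * y ^ (k + 1) ≤ 2 * η := by
  have ny := deep_norm y0
  have p : 0 < 1 - y := sub_pos.mpr y1
  have s1 := (net_sum H y0 y1).hasSum
  have b1 := Real.tsum_le_of_sum_range_le (fun k => by positivity) (net_milin H y0 y1)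
  have s2 := Complex.hasSum_re (deep_lg H (ny.trans_lt y1))
  have s3 := Real.hasSum_pow_div_log_of_abs_lt_one (x := y) (by rwa [abs_of_nonneg y0])
  have s := (s1.sub (s2.mul_left 2)).add s3
  have e : ∀ k : ℕ, ‖coeff (k + 1) g‖ ^ 2 / (k + 1) * y ^ (k + 1) -
      2 * (coeff (k + 1) g / (k + 1) * (y : ℂ) ^ (k + 1)).re + y ^ (k + 1) / (k + 1) =
      ‖coeff (k + 1) g - 1‖ ^ 2 / (k + 1) * y ^ (k + 1) := fun k => by
    have e1 : coeff (k + 1) g / (k + 1) * (y : ℂ) ^ (k + 1) =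
        coeff (k + 1) g * ((y ^ (k + 1) / (k + 1) : ℝ) : ℂ) := by
      push_cast
      ring
    rw [e1, re_mul_ofReal, deep_sq]
    ring
  simp only [e] at s
  have b2 := sum_le_hasSum (range K) (fun k _ => by positivity) s
  have b3 := ev_le H.ss ny.le y1
  have b4 : ‖ev h y‖ ^ 2 * (1 - y) ^ 2 ≤ 1 := by
    rw [← mul_pow]
    exact pow_le_one₀ (by positivity) ((le_div_iff₀ p).mp b3)
  have n0 : 0 < ‖ev h y‖ := by
    rw [exp_netLg H (ny.trans_lt y1)]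
    exact norm_pos_iff.mpr (Complex.exp_ne_zero _)
  have b5 : Real.log ‖ev h y‖ = (ev (netLg g) y).re := by
    rw [exp_netLg H (ny.trans_lt y1), Complex.norm_exp, Real.log_exp]
  have q : 0 < 1 - η := by linarith
  have b6 := Real.log_le_log q hy
  rw [Real.log_mul (by positivity) (by positivity), Real.log_pow, Real.log_pow, b5] at b6
  have b7 := Real.one_sub_inv_le_log_of_pos q
  have b8 : (1 - η)⁻¹ ≤ 1 + 2 * η := by
    rw [inv_le_iff_one_le_mul₀ q]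
    nlinarith
  push_cast at b6
  linarith

/-- The logarithm of `h(z) (1 - z)`. -/
noncomputable def deepPsi (g : ℂ⟦X⟧) (z : ℂ) : ℂ := ev (netLg g) z + Complex.log (1 - z)

theorem deep_ne {z : ℂ} (hz : ‖z‖ < 1) : 1 - z ≠ 0 := fun e => by
  rw [← sub_eq_zero.mp e, norm_one] at hz
  exact lt_irrefl _ hz

theorem deep_psi {h g : ℂ⟦X⟧} (H : LM h g) {z : ℂ} (hz : ‖z‖ < 1) :
    HasSum (fun k : ℕ => (coeff (k + 1) g - 1) / (k + 1) * z ^ (k + 1)) (deepPsi g z) := by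
  have a := (deep_lg H hz).sub (Complex.hasSum_taylorSeries_neg_log' hz)
  have e : ∀ k : ℕ, coeff (k + 1) g / (k + 1) * z ^ (k + 1) - z ^ (k + 1) / (k + 1) =
      (coeff (k + 1) g - 1) / (k + 1) * z ^ (k + 1) := fun k => by ring
  simpa only [e, sub_neg_eq_add, deepPsi] using a

theorem deep_exp {h g : ℂ⟦X⟧} (H : LM h g) {z : ℂ} (hz : ‖z‖ < 1) :
    Complex.exp (2 * deepPsi g z) = ev h z ^ 2 * (1 - z) ^ 2 := by
  rw [two_mul, Complex.exp_add, deepPsi, Complex.exp_add, Complex.exp_log (deep_ne hz),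
    ← exp_netLg H hz]
  ring

theorem deep_amgm {a b Y R δ : ℝ} (hY : 0 < Y) (hδ : 0 < δ) (hb : b ^ 2 = 2 * Y * (Y - R)) :
    a * b ≤ a ^ 2 * Y / (2 * δ) + δ * (Y - R) := by
  have e : a ^ 2 * Y / (2 * δ) + δ * (Y - R) - a * b = (a * Y - δ * b) ^ 2 / (2 * δ * Y) := by
    field_simp
    linear_combination -δ ^ 2 * hb
  have : 0 ≤ (a * Y - δ * b) ^ 2 / (2 * δ * Y) := by positivity
  linarith

theorem deep_diff {h g : ℂ⟦X⟧} (H : LM h g) {y δ : ℝ} (y0 : 0 < y) (y1 : y < 1) (hδ : 0 < δ)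
    (hs : ∀ K, ∑ k ∈ range K, ‖coeff (k + 1) g - 1‖ ^ 2 / (k + 1) * y ^ (k + 1) ≤ δ ^ 2)
    {z : ℂ} (hz : ‖z‖ = y) :
    ‖deepPsi g z - deepPsi g y‖ ≤ δ / 2 + δ * Real.log (‖1 - z‖ / (1 - y)) := by
  have ny := deep_norm y0.le
  have p : 0 < 1 - y := sub_pos.mpr y1
  have s := (deep_psi H (hz.trans_lt y1)).sub (deep_psi H (ny.trans_lt y1))
  have s1 := (summable_of_sum_range_le (fun k => by positivity) hs).hasSum
  have b1 := Real.tsum_le_of_sum_range_le (fun k => by positivity) hs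
  have s2 := Complex.hasSum_re (Complex.hasSum_taylorSeries_neg_log' (hz.trans_lt y1))
  have s3 := Real.hasSum_pow_div_log_of_abs_lt_one (x := y) (by rwa [abs_of_pos y0])
  have b := s.norm_le_of_bounded ((s1.div_const (2 * δ)).add ((s3.sub s2).mul_left δ)) fun k => by
    have k0 : (0 : ℝ) < k + 1 := by positivity
    have e1 : z ^ (k + 1) / (k + 1) = z ^ (k + 1) / ((k + 1 : ℝ) : ℂ) := by
      push_cast
      rfl
    have e2 : ‖(k + 1 : ℂ)‖ = k + 1 := by exact_mod_cast Complex.norm_natCast (k + 1)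
    have e3 : ‖z ^ (k + 1) - (y : ℂ) ^ (k + 1)‖ ^ 2 =
        2 * y ^ (k + 1) * (y ^ (k + 1) - (z ^ (k + 1)).re) := by
      have e4 : ‖z ^ (k + 1)‖ ^ 2 = (y ^ (k + 1)) ^ 2 := by rw [norm_pow, hz]
      rw [Complex.sq_norm, normSq_apply] at e4
      rw [← ofReal_pow, Complex.sq_norm, normSq_apply]
      simp only [sub_re, ofReal_re, sub_im, ofReal_im]
      linear_combination e4
    have b2 := div_le_div_of_nonneg_right
      (deep_amgm (a := ‖coeff (k + 1) g - 1‖) (pow_pos y0 (k + 1)) hδ e3) k0.le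
    rw [← mul_sub, norm_mul, norm_div, e2, e1, div_ofReal_re]
    refine le_of_eq_of_le (by ring) (b2.trans (le_of_eq ?_))
    ring
  rw [neg_re, Complex.log_re] at b
  rw [Real.log_div (norm_ne_zero_iff.mpr (deep_ne (hz.trans_lt y1))) p.ne']
  have b3 : (∑' k : ℕ, ‖coeff (k + 1) g - 1‖ ^ 2 / (k + 1) * y ^ (k + 1)) / (2 * δ) ≤ δ / 2 := by
    rw [div_le_iff₀ (by positivity)]
    linarith
  linarith

theorem deep_conv {δ u : ℝ} (h0 : 0 ≤ δ) (h1 : δ ≤ 1) (hu : 0 < u) :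
    Real.exp (δ * (1 + 2 * Real.log u)) - 1 ≤ 3 * δ * u ^ 2 := by
  have a := convexOn_exp.2 (mem_univ (1 + 2 * Real.log u)) (mem_univ 0) h0 (sub_nonneg.mpr h1)
    (by ring)
  have e : Real.exp (1 + 2 * Real.log u) = Real.exp 1 * u ^ 2 := by
    rw [Real.exp_add, two_mul, Real.exp_add, Real.exp_log hu, sq]
  simp only [smul_eq_mul, mul_zero, add_zero, Real.exp_zero, mul_one, e] at a
  have b : Real.exp 1 * u ^ 2 ≤ 3 * u ^ 2 :=
    mul_le_mul_of_nonneg_right (by linarith [Real.exp_one_lt_d9]) (sq_nonneg u)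
  nlinarith [mul_le_mul_of_nonneg_left b h0]

/-- The first half of the statement. -/
theorem deep_val {h g : ℂ⟦X⟧} (H : LM h g) {y δ : ℝ} (y0 : 0 < y) (y1 : y < 1) (hδ : 0 < δ)
    (δ1 : δ ≤ 1)
    (hs : ∀ K, ∑ k ∈ range K, ‖coeff (k + 1) g - 1‖ ^ 2 / (k + 1) * y ^ (k + 1) ≤ δ ^ 2)
    {b : ℂ} (hb : ‖ev h y ^ 2 * (1 - y) ^ 2 - b‖ ≤ δ) {z : ℂ} (hz : ‖z‖ = y) :
    ‖z * ev h z ^ 2 - b * (z / (1 - z) ^ 2)‖ ≤ 4 * δ / (1 - y) ^ 2 := by
  have ny := deep_norm y0.le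
  have z1 := hz.trans_lt y1
  have p : 0 < 1 - y := sub_pos.mpr y1
  have n0 := deep_ne z1
  have n1 : 0 < ‖1 - z‖ := norm_pos_iff.mpr n0
  set u := ‖1 - z‖ / (1 - y) with hu
  have u1 : 1 ≤ u := by
    rw [hu, one_le_div p]
    simpa only [norm_one, hz] using norm_sub_norm_le 1 z
  set D := 2 * (deepPsi g z - deepPsi g y) with hD
  have d1 : ‖D‖ ≤ δ * (1 + 2 * Real.log u) := by
    rw [hD, norm_mul, Complex.norm_two]
    linarith [deep_diff H y0 y1 hδ hs hz]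
  have d2 : ‖Complex.exp D - 1‖ ≤ 3 * δ * u ^ 2 := by
    have a := Complex.norm_exp_sub_sum_le_exp_norm_sub_sum D 1
    simp only [range_one, sum_singleton, pow_zero, Nat.factorial_zero, Nat.cast_one, div_one] at a
    linarith [Real.exp_le_exp.mpr d1, deep_conv hδ.le δ1 (zero_lt_one.trans_le u1)]
  have d3 : ‖ev h y ^ 2 * (1 - y) ^ 2‖ ≤ 1 := by
    have e : (1 - y : ℂ) = ((1 - y : ℝ) : ℂ) := by
      push_cast
      rfl
    rw [← mul_pow, norm_pow, norm_mul, e, deep_norm p.le]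
    exact pow_le_one₀ (by positivity) ((le_div_iff₀ p).mp (ev_le H.ss ny.le y1))
  have e1 : ev h z ^ 2 * (1 - z) ^ 2 = ev h y ^ 2 * (1 - y) ^ 2 * Complex.exp D := by
    rw [← deep_exp H z1, ← deep_exp H (ny.trans_lt y1), ← Complex.exp_add, hD]
    congr 1
    ring
  have e2 : z * ev h z ^ 2 - b * (z / (1 - z) ^ 2) = z / (1 - z) ^ 2 *
      (ev h y ^ 2 * (1 - y) ^ 2 * (Complex.exp D - 1) + (ev h y ^ 2 * (1 - y) ^ 2 - b)) := by
    rw [mul_sub, ← e1]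
    field_simp
    ring
  have d4 : ‖ev h y ^ 2 * (1 - y) ^ 2 * (Complex.exp D - 1) + (ev h y ^ 2 * (1 - y) ^ 2 - b)‖ ≤
      4 * δ * u ^ 2 := by
    refine (norm_add_le _ _).trans ?_
    rw [norm_mul]
    have a := (mul_le_of_le_one_left (norm_nonneg _) d3).trans d2
    have c := le_mul_of_one_le_right hδ.le (one_le_pow₀ u1 (n := 2))
    linarith
  rw [e2, norm_mul, norm_div, norm_pow, hz]
  calc _ ≤ 1 / ‖1 - z‖ ^ 2 * (4 * δ * u ^ 2) := by gcongr
    _ = _ := by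
      rw [hu]
      field_simp

theorem deep_deriv {f : ℂ → ℂ} (hf : DifferentiableOn ℂ f (ball 0 1)) {h g : ℂ⟦X⟧}
    (e : X * h ^ 2 = tay f) (H : LM h g) {z : ℂ} (hz : ‖z‖ < 1) (z0 : z ≠ 0) :
    HasSum (fun k : ℕ => 2 * ((coeff (k + 1) g - 1) * z ^ (k + 1)))
      (z * deriv f z / f z - (1 + z) / (1 - z)) := by
  obtain ⟨s, d⟩ := (netLg_cv H).deriv hz
  have ee : f =ᶠ[𝓝 z] fun w => w * Complex.exp (ev (netLg g) w) ^ 2 := by
    filter_upwards [isOpen_ball.mem_nhds (mem_ball_zero_iff.mpr hz)] with w hw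
    rw [mem_ball_zero_iff] at hw
    rw [ev_sq hf e H.ss hw, exp_netLg H hw]
  have d1 := ((hasDerivAt_id' z).mul (d.cexp.pow 2)).congr_of_eventuallyEq ee
  have s1 := s.of_norm.hasSum.mul_left z
  have s2 := (hasSum_geometric_of_norm_lt_one hz).mul_left z
  have n0 := deep_ne hz
  have x0 := Complex.exp_ne_zero (ev (netLg g) z)
  have e1 : ∀ k : ℕ, 2 * (z * (coeff k (d⁄dX ℂ (netLg g)) * z ^ k) - z * z ^ k) =
      2 * ((coeff (k + 1) g - 1) * z ^ (k + 1)) := fun k => by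
    have k0 : (k + 1 : ℂ) ≠ 0 := by exact_mod_cast k.succ_ne_zero
    rw [coeff_derivative, netLg, coeff_mk]
    push_cast
    rw [div_mul_cancel₀ _ k0]
    ring
  have e2 : z * deriv f z / f z - (1 + z) / (1 - z) =
      2 * (z * ev (d⁄dX ℂ (netLg g)) z - z * (1 - z)⁻¹) := by
    rw [d1.deriv, ee.eq_of_nhds]
    simp only [Pi.pow_apply]
    field_simp
    ring
  rw [e2]
  simpa only [e1, ev] using (s1.sub s2).mul_left 2

theorem deep_pars {c : ℕ → ℂ} (hc : Summable fun p => ‖c p‖) {B : ℝ}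
    (hB : ∀ N, ∑ p ∈ range N, ‖c p‖ ^ 2 ≤ B) :
    ∫ θ in (0 : ℝ)..2 * π, ‖∑' p, c p * circleMap 0 1 θ ^ p‖ ^ 2 ≤ 2 * π * B := by
  have n : ∀ θ p, ‖c p * circleMap 0 1 θ ^ p‖ = ‖c p‖ := fun θ p => by simp
  have T := intervalIntegral.tendsto_integral_filter_of_dominated_convergence (μ := volume)
    (a := 0) (b := 2 * π) (l := atTop)
    (F := fun N θ => ‖∑ p ∈ range N, c p * circleMap 0 1 θ ^ p‖ ^ 2)
    (f := fun θ => ‖∑' p, c p * circleMap 0 1 θ ^ p‖ ^ 2) (fun _ => (∑' p, ‖c p‖) ^ 2)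
    (Eventually.of_forall fun N => Continuous.aestronglyMeasurable (by fun_prop))
    (Eventually.of_forall fun N => Eventually.of_forall fun θ _ => by
      rw [norm_pow, norm_norm]
      refine pow_le_pow_left₀ (norm_nonneg _) ((norm_sum_le _ _).trans ?_) 2
      simp only [n]
      exact hc.sum_le_tsum _ fun _ _ => norm_nonneg _)
    intervalIntegrable_const (Eventually.of_forall fun θ _ =>
      (Summable.of_norm (by simpa only [n] using hc)).hasSum.tendsto_sum_nat.norm.pow 2)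
  refine le_of_tendsto' T fun N => ?_
  rw [parseval]
  exact mul_le_mul_of_nonneg_left (hB N) Real.two_pi_pos.le

/-- The second half of the statement. -/
theorem deep_avg {f : ℂ → ℂ} (hf : DifferentiableOn ℂ f (ball 0 1)) {h g : ℂ⟦X⟧}
    (e : X * h ^ 2 = tay f) (H : LM h g) {y ε : ℝ} (y0 : 0 < y) (y1 : y < 1)
    (hs : ∀ K, ∑ k ∈ range K, ‖coeff (k + 1) g - 1‖ ^ 2 / (k + 1) * y ^ (k + 1) ≤ ε) :
    circleAverage (fun z => ‖z * deriv f z / f z - (1 + z) / (1 - z)‖ ^ 2) 0 y ≤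
      4 * ε / (1 - y) := by
  have ny := deep_norm y0.le
  have p : 0 < 1 - y := sub_pos.mpr y1
  set c : ℕ → ℂ := fun k => 2 * ((coeff (k + 1) g - 1) * (y : ℂ) ^ (k + 1)) with hc
  have sc : Summable fun k => ‖c k‖ := summable_norm_iff.mpr
    (deep_deriv hf e H (ny.trans_lt y1) (ofReal_ne_zero.mpr y0.ne')).summable
  have hB : ∀ N, ∑ k ∈ range N, ‖c k‖ ^ 2 ≤ 4 * ε / (1 - y) := fun N => by
    refine le_trans ?_ (div_le_div_of_nonneg_right
      (mul_le_mul_of_nonneg_left (hs N) (by norm_num)) p.le)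
    rw [mul_sum, sum_div]
    refine sum_le_sum fun k _ => ?_
    have a : ((k : ℝ) + 1) * y ^ (k + 1) ≤ 1 / (1 - y) := by
      refine le_trans ?_ (sa_geom y0.le y1 (k + 1))
      have := card_nsmul_le_sum (range (k + 1)) (fun j => y ^ j) (y ^ (k + 1)) fun j hj =>
        pow_le_pow_of_le_one y0.le y1.le (mem_range.mp hj).le
      simpa only [card_range, nsmul_eq_mul, Nat.cast_succ] using this
    have a' := mul_le_mul_of_nonneg_left a
      (show 0 ≤ 4 * (‖coeff (k + 1) g - 1‖ ^ 2 / (k + 1) * y ^ (k + 1)) by positivity)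
    rw [hc, norm_mul, norm_mul, norm_pow, ny, Complex.norm_two]
    refine le_of_eq_of_le ?_ (a'.trans_eq (by ring))
    field_simp
    ring
  have E : ∀ θ, ‖circleMap 0 y θ * deriv f (circleMap 0 y θ) / f (circleMap 0 y θ) -
      (1 + circleMap 0 y θ) / (1 - circleMap 0 y θ)‖ ^ 2 =
      ‖∑' k, c k * circleMap 0 1 θ ^ k‖ ^ 2 := fun θ => by
    have nz : ‖circleMap 0 y θ‖ = y := by rw [norm_circleMap_zero, abs_of_pos y0]
    rw [← (deep_deriv hf e H (nz.trans_lt y1) (circleMap_ne_center y0.ne')).tsum_eq]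
    have e1 : ∀ k, 2 * ((coeff (k + 1) g - 1) * circleMap 0 y θ ^ (k + 1)) =
        circleMap 0 1 θ * (c k * circleMap 0 1 θ ^ k) := fun k => by
      simp only [hc, circleMap_zero, mul_pow, ofReal_one, one_mul]
      ring
    simp only [e1]
    rw [tsum_mul_left, norm_mul, norm_circleMap_zero, abs_one, one_mul]
  rw [circleAverage_def, smul_eq_mul, inv_mul_le_iff₀ Real.two_pi_pos]
  simp only [E]
  exact deep_pars sc hB

theorem deep {σ η : ℝ} (σ0 : 0 < σ) (σ1 : σ ≤ 1) (hη : 0 < η) : ∃ η₀ : ℝ, 0 < η₀ ∧ ∀ J : ℕ, 2 ≤ J →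
    ∀ (f : ℂ → ℂ) (h g : ℂ⟦X⟧) (b : ℂ), DifferentiableOn ℂ f (ball 0 1) → X * h ^ 2 = tay f →
      LM h g → ‖b‖ = 1 →
      ‖f ((1 - σ / J : ℝ) : ℂ) * ((σ / J : ℝ) : ℂ) ^ 2 / ((1 - σ / J : ℝ) : ℂ) - b‖ ≤ η₀ →
      (∀ z : ℂ, ‖z‖ = 1 - σ / J → ‖f z - b * (z / (1 - z) ^ 2)‖ ≤ η * (J : ℝ) ^ 2) ∧
      circleAverage (fun z => ‖z * deriv f z / f z - (1 + z) / (1 - z)‖ ^ 2) 0 (1 - σ / J) ≤
        η * J := by
  set δ := min 1 (η * σ ^ 2 / 4) with hδ
  have δ0 : 0 < δ := lt_min one_pos (by positivity)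
  have δ1 : δ ≤ 1 := min_le_left _ _
  have δ2 : δ ≤ η * σ ^ 2 / 4 := min_le_right _ _
  have δ3 : δ ^ 2 ≤ δ := by nlinarith
  refine ⟨δ ^ 2 / 2, by positivity, fun J hJ f h g b hf e H hb h0 => ?_⟩
  have J2 : (2 : ℝ) ≤ J := by exact_mod_cast hJ
  have t0 : 0 < σ / J := by positivity
  have t1 : σ / J < 1 := by
    rw [div_lt_one (by linarith)]
    linarith
  set y := 1 - σ / J with hy
  have y0 : 0 < y := by linarith
  have y1 : y < 1 := by linarith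
  have ny := deep_norm y0.le
  have et : σ / J = 1 - y := by linarith
  have e1 : f y * ((σ / J : ℝ) : ℂ) ^ 2 / y = ev h y ^ 2 * (1 - y) ^ 2 := by
    have := ofReal_ne_zero.mpr y0.ne'
    rw [ev_sq hf e H.ss (ny.trans_lt y1), et]
    push_cast
    field_simp
  rw [e1] at h0
  have h1 : 1 - δ ^ 2 / 2 ≤ ‖ev h y‖ ^ 2 * (1 - y) ^ 2 := by
    have a := norm_sub_norm_le b (ev h y ^ 2 * (1 - y) ^ 2)
    have e2 : (1 - y : ℂ) = ((1 - y : ℝ) : ℂ) := by
      push_cast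
      rfl
    rw [norm_sub_rev, hb, norm_mul, norm_pow, norm_pow, e2, deep_norm (by linarith), ← e2] at a
    linarith
  have hs : ∀ K, ∑ k ∈ range K, ‖coeff (k + 1) g - 1‖ ^ 2 / (k + 1) * y ^ (k + 1) ≤ δ ^ 2 :=
    fun K => (deep_sum H y0.le y1 (by linarith) h1 K).trans_eq (by ring)
  refine ⟨fun z hz => ?_, (deep_avg hf e H y0 y1 hs).trans ?_⟩
  · rw [ev_sq hf e H.ss (hz.trans_lt y1)]
    refine (deep_val H y0 y1 δ0 δ1 hs (by linarith) hz).trans ?_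
    rw [← et, div_le_iff₀ (by positivity)]
    have e3 : η * (J : ℝ) ^ 2 * (σ / J) ^ 2 = η * σ ^ 2 := by field_simp
    linarith
  · rw [← et, div_le_iff₀ t0]
    have e3 : η * (J : ℝ) * (σ / J) = η * σ := by field_simp
    have e4 : η * σ ^ 2 ≤ η * σ := mul_le_mul_of_nonneg_left (by nlinarith) hη.le
    linarith

end Pool.Agent.P.MP_c09211_an.Sh.GL
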