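import Pool.Agent.P.MP_c09211_an.Sh.Base

/-!
Definitions for the sharp form of the upper bound.
-/

set_option autoImplicit false

namespace Pool.Agent.P.MP_c09211_an.Sh.GL

open Metric Set Finset PowerSeries Complex Filter Topology Real MeasureTheory
open scoped ComplexConjugate

/-- The unit vector of angle `x`. -/
noncomputable def eI (x : ℝ) : ℂ := Complex.exp (x * I)

/-- The point of the unit circle at which the tangent of the image has direction `x`. -/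
noncomputable def zc (N : ℕ) (β x : ℝ) : ℂ := eI (2 * (x - β) / N)

/-- The boundary curve. -/
noncomputable def cv (N : ℕ) (β : ℝ) (E : Polynomial ℂ) (x : ℝ) : ℂ := E.eval (zc N β x)

/-- The signed distance of the origin from the line through `w` of direction `x`. -/
noncomputable def Sw (w : ℂ) (x : ℝ) : ℝ := (w * eI (-x)).im

/-- The support function of a curve. -/
noncomputable def pf (c : ℝ → ℂ) (x : ℝ) : ℝ := Sw (c x) x

/-- The signed speed of the boundary curve. -/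
noncomputable def rho (N : ℕ) (β : ℝ) (E : Polynomial ℂ) (x : ℝ) : ℝ :=
  (2 / N * I * (zc N β x * E.derivative.eval (zc N β x)) * eI (-x)).re

/-- The polynomial `z E'` is self-inversive. -/
def SI (N : ℕ) (β : ℝ) (E : Polynomial ℂ) : Prop :=
  ∀ k ≤ N, ((N - k : ℕ) : ℂ) * E.coeff (N - k) = -eI (2 * β) * conj ((k : ℂ) * E.coeff k)

/-- A curve whose tangent has direction `x` at the parameter `x`. -/
structure Crv (c : ℝ → ℂ) (ρ : ℝ → ℝ) : Prop where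
  der : ∀ x, HasDerivAt c (eI x * ρ x) x
  cont : Continuous ρ

/-- A resolution of the support function into `N - 2` pseudolines and a rest. -/
structure Res (N : ℕ) (p : ℝ → ℝ) (cl : ℝ → Option (Fin (N - 2)))
    (g : Fin (N - 2) → ℝ → ℝ) : Prop where
  per : ∀ x, cl (x + N * π) = cl x
  fin : ∀ a b : ℝ, ∃ X : Finset ℝ, ∀ x y, a ≤ x → x ≤ y → y ≤ b →
    (∀ ξ ∈ X, ¬(x < ξ ∧ ξ ≤ y)) → cl x = cl y
  hit : ∀ x v, ∃ j : ℕ, j < N ∧ cl (x + j * π) = v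
  uniq : ∀ x Δ (j : ℕ), 0 < j → j < N → cl x = some Δ → cl (x + j * π) ≠ some Δ
  cont : ∀ Δ, Continuous (g Δ)
  anti : ∀ Δ x, g Δ (x + π) = -g Δ x
  agree : ∀ x Δ, cl x = some Δ → g Δ x = p x
  nc : ∀ x₁ x₂ x₃ x₄, x₁ < x₂ → x₂ < x₃ → x₃ < x₄ → x₄ < x₁ + N * π → cl x₁ = cl x₃ →
    cl x₂ = cl x₄ → cl x₁ = cl x₂

/-- Two strict changes of sign within a length below `π`. -/
def Alt (G : ℝ → ℝ) : Prop :=
  ∃ x₁ x₂ x₃, x₁ < x₂ ∧ x₂ < x₃ ∧ x₃ < x₁ + π ∧ G x₁ * G x₂ < 0 ∧ G x₂ * G x₃ < 0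

/-- A resolution together with the consequences of the bounds for the number of tangents. -/
structure Cells (N : ℕ) (c : ℝ → ℂ) (Ω : Set ℂ) (cl : ℝ → Option (Fin (N - 2)))
    (g : Fin (N - 2) → ℝ → ℝ) : Prop where
  res : Res N (pf c) cl g
  za : ∀ Δ w, Alt (fun x => g Δ x - Sw w x) → w ∉ Ω
  zb : ∀ Δ w α (Z : Finset ℝ),
    (∀ x ∈ Z, α ≤ x ∧ x < α + N * π ∧ cl x = some Δ ∧ pf c x = Sw w x) → Z.card ≤ 3
  zd : ∀ Δ Δ' w, Alt (fun x => g Δ x - Sw w x) → Alt (fun x => g Δ' x - Sw w x) → Δ = Δ'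

/-- A self-inversive univalent polynomial with its cells. -/
structure Nice (N : ℕ) (β : ℝ) (E : Polynomial ℂ) : Prop where
  deg : E.natDegree < N
  zero : E.coeff 0 = 0
  si : SI N β E
  inj : InjOn (fun z => E.eval z) (ball 0 1)
  cells : ∃ cl g, Cells N (cv N β E) ((fun z => E.eval z) '' ball 0 1) cl g

/-- A family of disjoint intervals in `[a, b]`, each inside one cell. -/
def Runs {ι : Type} (cl : ℝ → Option ι) (a b : ℝ) (K : Finset (ℝ × ℝ)) : Prop :=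
  (∀ I ∈ K, a ≤ I.1 ∧ I.1 < I.2 ∧ I.2 ≤ b ∧ ∃ Δ, ∀ x ∈ Set.Ico I.1 I.2, cl x = some Δ) ∧
    ∀ I ∈ K, ∀ I' ∈ K, I ≠ I' → I.2 ≤ I'.1 ∨ I'.2 ≤ I.1

/-- The data of the one-dimensional calibration. -/
structure DPD (f g U Φ : ℝ → ℝ) (μ Φ₀ C D : ℝ) : Prop where
  fc : Continuous f
  fa : ∀ x, f (x + π) = -f x
  dg : ∀ x, HasDerivAt g (-f x) x
  dU : ∀ x, HasDerivAt U (g x) x
  gb : ∀ x, |g x| ≤ C
  lip : ∀ x y, |Φ x - Φ y| ≤ C * |x - y|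
  per : ∀ x, Φ (x + π) = Φ x + Φ₀
  mu0 : 0 ≤ μ
  dp : ∀ a b s, a ≤ b → b ≤ a + π → Φ b - Φ a - μ ≤ ∫ x in a..b, (g x - s) ^ 2
  odd : ∫ x in (0 : ℝ)..π, f x * Real.sin x = 0
  val : 4 * (∫ x in (0 : ℝ)..π, f x * Real.cos x) - (∫ x in (0 : ℝ)..π, f x ^ 2) + Φ₀ - 2 * μ =
    π * (3 / 2 + Real.sin D)

/-- A polynomial window for the arc with parameters in `[a, b]`. -/
structure Win (N : ℕ) (β : ℝ) (M : ℕ) (a b l ϖ : ℝ) (κ : Polynomial ℂ) (s s' : ℝ → ℝ) : Prop where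
  deg : κ.natDegree ≤ 2 * M
  val : ∀ x, κ.eval (zc N β x) = zc N β x ^ M * s x
  s0 : ∀ x, 0 ≤ s x
  s1 : ∀ x, s x ≤ 1
  der : ∀ x, HasDerivAt s (s' x) x
  dc : Continuous s'
  mass : ∫ x in (a - l)..(a - l + N * π), s x ≤ b - a
  tv : ∫ x in (a - l)..(a - l + N * π), |s' x| ≤ 2
  core : ∀ x ∈ Set.Icc (a + l) (b - l), 1 - ϖ ≤ s x ∧ N * |s' x| ≤ ϖ
  far : ∀ x ∈ Set.Icc (b + l) (a - l + N * π), N * |s' x| ≤ ϖ ∧
    ∀ r ∈ Set.Icc (1 / 2 : ℝ) 1, ‖κ.eval (r * zc N β x)‖ ≤ ϖ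

/-- The open sector of the annulus over the parameters in `(a, b)`. -/
def Sec (N : ℕ) (β ρ a b : ℝ) : Set ℂ :=
  {z | ∃ r ∈ Set.Ioo ρ 1, ∃ x ∈ Set.Ioo a b, z = r * zc N β x}

/-- A nearly extremal pair. -/
structure Near (J : ℕ) (δ : ℝ) (f w : ℂ → ℂ) (a : ℂ) : Prop where
  sr : Sr 1 f
  sch : Schur w
  root : ∃ h g : ℂ⟦X⟧, X * h ^ 2 = tay f ∧ LM h g ∧ NK J δ h 1 a
  lam : (J : ℝ) ^ 2 - J ≤ ‖Lam J w (tay f)‖

/-- The functional on the powers of `f`. -/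
noncomputable def lc (J : ℕ) (w f : ℂ → ℂ) (i : ℕ) : ℂ := Lam J w (tay f ^ i)

/-- The polynomial part of the quadratic differential. -/
noncomputable def yq (J : ℕ) (w f : ℂ → ℂ) (s : ℂ) : ℂ :=
  ∑ i ∈ Finset.Icc 2 J, lc J w f i * s ^ (i - 1)

/-- The quadratic differential. -/
noncomputable def Qd (J : ℕ) (w f : ℂ → ℂ) (t : ℂ) : ℂ :=
  ∑ i ∈ Finset.Icc 2 J, lc J w f i / t ^ (i + 1)

/-- The shape of a polynomial close to the function of Koebe. -/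
structure Shape (J : ℕ) (e A h η σ : ℝ) (E : Polynomial ℂ) : Prop where
  g1 : ∀ θ r : ℝ, e / J ≤ |θ| → |θ| ≤ A / J → 1 - σ / J ≤ r → r ≤ 1 →
    ‖E.eval (r * eI θ) + ((1 / θ ^ 2 : ℝ) : ℂ)‖ ≤ η * (J : ℝ) ^ 2
  g2 : ∀ θ : ℝ, |θ| ≤ π → 16 * (J : ℝ) ^ 2 / A ^ 2 ≤ ‖E.eval (eI θ)‖ →
    ‖E.eval (eI θ)‖ ≤ (J : ℝ) ^ 2 / (16 * e ^ 2) → e / J ≤ |θ| ∧ |θ| ≤ A / J
  g3 : ∀ θ : ℝ, e / J ≤ |θ| → |θ| ≤ A / J → ‖E.derivative.eval (eI θ)‖ ≤ η * (J : ℝ) ^ 4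
  g4 : ∀ t : ℂ, |t.re| ≤ (J : ℝ) ^ 2 / e ^ 2 → |t.im| = h * (J : ℝ) ^ 2 →
    t ∈ (fun z => E.eval z) '' ball 0 1
  d1 : ∀ z : ℂ, ‖z‖ = 1 - σ / J → ‖E.eval z - z / (1 - z) ^ 2‖ ≤ η * (J : ℝ) ^ 2
  d2 : circleAverage (fun z => ‖z * E.derivative.eval z / E.eval z - (1 + z) / (1 - z)‖ ^ 2) 0
    (1 - σ / J) ≤ η * J

/-- A box along the slit. -/
def Box (J : ℕ) (u v : ℝ) : Set ℂ :=
  {t | -((J : ℝ) ^ 2 / u ^ 2) < t.re ∧ t.re < -((J : ℝ) ^ 2 / v ^ 2) ∧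
    |t.im| < (v - u) * (J : ℝ) ^ 2}

/-- Permutations that arise from exchanges of equal values between the angles `l` and `r`. -/
inductive Rl {ι : Type} (F : ι → ℝ → ℝ) (l : ℝ) : ℝ → Equiv.Perm ι → Prop
  | refl {r : ℝ} : l ≤ r → Rl F l r 1
  | step {m r : ℝ} {u v : Equiv.Perm ι} : Rl F l m u → m ≤ r → (∀ i, F (v i) m = F i m) →
      Rl F l r (v * u)

/-- All wires but two close up after a half turn. -/
def Good {ι : Type} [Fintype ι] [DecidableEq ι] (F : ι → ℝ → ℝ) (s : Equiv.Perm ι) (α : ℝ) : Prop :=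
  ∃ u, Rl F α (α + π) u ∧ Fintype.card ι ≤ (univ.filter fun i => s (u i) = i).card + 2

/-- All crossings are transversal. -/
def Simple {ι : Type} (F : ι → ℝ → ℝ) : Prop :=
  ∀ a b φ, a ≠ b → F a φ = F b φ → ∃ d : ℝ, d ≠ 0 ∧ HasDerivAt (fun x => F a x - F b x) d φ

/-- The branches of a support function. -/
noncomputable def br (N : ℕ) (p : ℝ → ℝ) (j : Fin N) (φ : ℝ) : ℝ := (-1) ^ (j : ℕ) * p (φ + j * π)

/-- The bound for the number of crossings in a half turn. -/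
def Cnt {N : ℕ} (F : Fin N → ℝ → ℝ) : Prop :=
  ∀ (α : ℝ) (T : Finset (ℝ × Fin N × Fin N)), (∀ q ∈ T, α ≤ q.1 ∧ q.1 < α + π ∧ q.2.1 ≠ q.2.2 ∧
    F q.2.1 q.1 = F q.2.2 q.1) → T.card ≤ (N - 1) * (N - 2)

/-- A product of at most `n` transpositions. -/
inductive SwN {ι : Type} [DecidableEq ι] : ℕ → Equiv.Perm ι → Prop
  | one : SwN 0 1
  | mul {n : ℕ} {σ : Equiv.Perm ι} (a b : ι) : SwN n σ → SwN (n + 1) (Equiv.swap a b * σ)
  | succ {n : ℕ} {σ : Equiv.Perm ι} : SwN n σ → SwN (n + 1) σ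

/-- The normal form of a realisable permutation: angles `φ 0 < ... < φ (V + 1)` and the position
`W k i` of the wire `i` between `φ k` and `φ (k + 1)`. -/
structure NF {ι : Type} (F : ι → ℝ → ℝ) (α : ℝ) (u : Equiv.Perm ι) (V : ℕ) (φ : ℕ → ℝ)
    (W : ℕ → Equiv.Perm ι) : Prop where
  first : φ 0 = α
  last : φ (V + 1) = α + π
  mono : ∀ k ≤ V, φ k < φ (k + 1)
  sep : ∀ k ≤ V, ∀ x ∈ Set.Ioo (φ k) (φ (k + 1)), Function.Injective fun i => F i x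
  w0 : W 0 = 1
  wV : W V = u
  val : ∀ k < V, ∀ i, F (W (k + 1) i) (φ (k + 1)) = F (W k i) (φ (k + 1))

/-- The self-inversive companion of `c P`. -/
noncomputable def Tl (N : ℕ) (c : ℂ) (β : ℝ) (P : Polynomial ℂ) : Polynomial ℂ :=
  ∑ k ∈ range (N + 1), Polynomial.monomial k
    (((N - k : ℕ) : ℂ) / N * (c * P.coeff k - eI (2 * β) * conj (c * P.coeff (N - k))))

end Pool.Agent.P.MP_c09211_an.Sh.GL
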