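import Pool.Agent.P.MP_c09211_an.GL.UpS
import Pool.Agent.P.MP_c09211_an.Sh.Final

/-!
The location of the threshold.
-/

set_option autoImplicit false

namespace Pool.Agent.P.MP_c09211_an.Sh.GL

open Metric Set Finset PowerSeries Complex Filter Topology Real MeasureTheory
open scoped ComplexConjugate

theorem upper_part' {D ε : ℝ} (hD : Real.cos D = D) (hε : 0 < ε) : ∃ s₀ : ℕ, ∀ s ≥ s₀, ∀ n : ℕ,
    s ^ 2 ≤ n + 1 → n + 1 < (s + 1) ^ 2 → (s : ℝ) ^ 2 + (1 - Real.sin D + ε) * s ≤ n + 1 →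
      n1 n ≤ n + 1 - s := by
  obtain ⟨J₀, h⟩ := upper_sharp' hD (half_pos hε)
  obtain ⟨k, hk⟩ := exists_nat_ge (4 / ε)
  refine ⟨max J₀ (k + 3), fun s hs n h1 h2 h3 => ?_⟩
  have s3 : k + 3 ≤ s := le_of_max_le_right hs
  have a1 : s + 1 ≤ n := by nlinarith
  refine Nat.sInf_le ⟨by omega, by omega, fun m a b => ?_⟩
  rcases a.eq_or_lt with a | a
  · subst a
    refine Real.sSup_le (fun _ ⟨P, hP, hx⟩ => ?_) zero_le_one
    have e := h s (le_of_max_le_left hs) n h1 (by nlinarith) P hP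
    have c1 : ((n + 1 - s : ℕ) : ℝ) = n + 1 - s := by
      rw [Nat.cast_sub (by omega)]; push_cast; ring
    have s0 : (3 : ℝ) + 4 / ε ≤ s := by
      have : ((k + 3 : ℕ) : ℝ) ≤ s := by exact_mod_cast s3
      push_cast at this
      linarith
    have p0 : 0 < 4 / ε := by positivity
    have p1 : 4 ≤ ε * s := by
      have : 4 / ε ≤ s := by linarith
      rwa [div_le_iff₀' hε] at this
    have c2 : (n : ℝ) + 1 ≤ (s : ℝ) ^ 2 + 2 * s := by
      have : n + 1 ≤ s ^ 2 + 2 * s := by nlinarith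
      exact_mod_cast this
    have c4 : (s : ℝ) ^ 2 ≤ n + 1 := by exact_mod_cast h1
    have n0 : (0 : ℝ) < n + 1 := by positivity
    have c3 : (s : ℝ) - 2 ≤ (s : ℝ) ^ 3 / (n + 1) := by
      rw [le_div_iff₀ n0]
      nlinarith
    have c5 : (s : ℝ) ^ 3 / (n + 1) ≤ s := by
      rw [div_le_iff₀ n0]
      nlinarith
    have m0 : (0 : ℝ) < n + 1 - s := by
      have : ((s + 1 : ℕ) : ℝ) ≤ n := by exact_mod_cast a1
      push_cast at this
      linarith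
    rw [c1] at e
    rw [hx]
    refine le_of_mul_le_mul_left (e.trans ?_) m0
    have d1 := Real.sin_le_one D
    generalize (s : ℝ) ^ 3 / (n + 1) = t at *
    rcases le_total 0 (Real.sin D - ε / 2) with d | d
    · nlinarith [mul_le_mul_of_nonneg_left c3 d]
    · nlinarith [mul_le_mul_of_nonpos_left c5 d]
  · refine (A_le (by omega) b).trans ?_
    rw [div_le_one (by norm_cast; omega)]
    obtain ⟨t, rfl⟩ : ∃ t, s = t + 1 := ⟨s - 1, by omega⟩
    have : (n + 1 - m) ^ 2 ≤ m := by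
      have e1 : (n + 1 - m) ^ 2 ≤ t ^ 2 := Nat.pow_le_pow_left (by omega) 2
      have e2 : t ^ 2 + t ≤ n := by nlinarith
      omega
    have h : ((n + 1 - m : ℕ) : ℝ) = n + 1 - m := by
      rw [Nat.cast_sub (by omega)]; push_cast; ring
    rw [← h]
    exact_mod_cast this

theorem sharp' : ∃ D : ℝ, Real.cos D = D ∧ ∀ ε : ℝ, 0 < ε → ∃ n₀ : ℕ, ∀ n ≥ n₀,
    ((Nat.sqrt (n + 1) : ℝ) ^ 2 + (1 - Real.sin D + ε) * Nat.sqrt (n + 1) ≤ n + 1 →
      n1 n = n + 1 - Nat.sqrt (n + 1)) ∧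
    ((n : ℝ) + 1 ≤ (Nat.sqrt (n + 1) : ℝ) ^ 2 + (1 - Real.sin D - ε) * Nat.sqrt (n + 1) →
      n1 n = n + 2 - Nat.sqrt (n + 1)) := by
  obtain ⟨D, d1, d2, d3⟩ := exists_dottie
  refine ⟨D, d1, fun ε hε => ?_⟩
  obtain ⟨s₁, h1⟩ := upper_part' d1 hε
  obtain ⟨s₂, h2⟩ := lower_sharp d2 d3 d1.le (κ := 1 - Real.sin D - ε) (by linarith)
  refine ⟨(s₁ + s₂ + 2) ^ 2, fun n hn => ?_⟩
  have a1 := Nat.sqrt_le' (n + 1)
  have a2 := Nat.lt_succ_sqrt' (n + 1)
  have a3 : s₁ + s₂ + 2 ≤ Nat.sqrt (n + 1) := Nat.le_sqrt'.mpr (by omega)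
  have n2 : 2 ≤ n := by nlinarith
  obtain ⟨b1, b2, -⟩ := within_one n n2
  generalize Nat.sqrt (n + 1) = s at *
  refine ⟨fun h => le_antisymm (h1 s (by omega) n a1 a2 h) b1, fun h => ?_⟩
  obtain ⟨P, p1, p2⟩ := h2 s (by omega) n a1 h
  have a4 : s ≤ n := by nlinarith
  by_contra hne
  have := n1_mem n2 (n + 1 - s) (by omega) (by omega)
  exact absurd (p2.trans_le ((le_A (by omega) (by omega) p1).trans this)) (lt_irrefl _)

end Pool.Agent.P.MP_c09211_an.Sh.GL
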