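import Pool.Agent.P.MP_c09211_an.GL.Basic

/-!
The test function (paper: OM4).
-/

set_option autoImplicit false

namespace Pool.Agent.P.MP_c09211_an.Sh.GL

open Metric Set Finset PowerSeries Complex Filter Topology Real MeasureTheory
open scoped ComplexConjugate

/-- Increments of a monotone function over disjoint intervals. -/
theorem omc_mono {Ψ : ℝ → ℝ} (hΨ : Monotone Ψ) (a : ℝ) (K : Finset (ℝ × ℝ)) :
    ∀ b, a ≤ b → (∀ I ∈ K, a ≤ I.1 ∧ I.1 < I.2 ∧ I.2 ≤ b) →
      (∀ I ∈ K, ∀ I' ∈ K, I ≠ I' → I.2 ≤ I'.1 ∨ I'.2 ≤ I.1) →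
      ∑ q ∈ K, (Ψ q.2 - Ψ q.1) ≤ Ψ b - Ψ a := by
  classical
  induction K using Finset.induction_on_max_value (fun q : ℝ × ℝ => q.1) with
  | empty =>
    intro b hab _ _
    simpa using hΨ hab
  | insert q s hq hmax ih =>
    intro b _ h1 h2
    have hq1 := h1 q (Finset.mem_insert_self q s)
    have := ih q.1 hq1.1 (fun I hI => by
      have hI1 := h1 I (Finset.mem_insert_of_mem hI)
      refine ⟨hI1.1, hI1.2.1, ?_⟩
      rcases h2 I (Finset.mem_insert_of_mem hI) q (Finset.mem_insert_self q s)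
        (fun h => hq (h ▸ hI)) with h | h
      · exact h
      · linarith [hmax I hI, hq1.2.1])
      fun I hI I' hI' => h2 I (Finset.mem_insert_of_mem hI) I' (Finset.mem_insert_of_mem hI')
    rw [Finset.sum_insert hq]
    linarith [hΨ hq1.2.2]

theorem omc_runs {ι : Type} {cl : ℝ → Option ι} {a b : ℝ} (hab : a ≤ b) {K : Finset (ℝ × ℝ)}
    (hK : Runs cl a b K) {Ψ : ℝ → ℝ} (hΨ : Monotone Ψ) :
    ∑ q ∈ K, (Ψ q.2 - Ψ q.1) ≤ Ψ b - Ψ a :=
  omc_mono hΨ a K b hab (fun I hI => ⟨(hK.1 I hI).1, (hK.1 I hI).2.1, (hK.1 I hI).2.2.1⟩) hK.2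

/-- Increments of a function with bounded slope over disjoint intervals. -/
theorem incr_sum {ι : Type} {cl : ℝ → Option ι} {a b C : ℝ} (hab : a ≤ b) {K : Finset (ℝ × ℝ)}
    (hK : Runs cl a b K) {Φ : ℝ → ℝ} (h : ∀ x y, |Φ x - Φ y| ≤ C * |x - y|) :
    Φ b - Φ a - C * (b - a - ∑ q ∈ K, (q.2 - q.1)) ≤ ∑ q ∈ K, (Φ q.2 - Φ q.1) := by
  have hΨ : Monotone fun x => C * x - Φ x := fun x y hxy => by
    have h1 := h y x
    rw [abs_of_nonneg (sub_nonneg.2 hxy)] at h1
    have h2 := le_abs_self (Φ y - Φ x)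
    simp only
    linarith
  have h1 := omc_runs hab hK hΨ
  have h2 : ∑ q ∈ K, (C * q.2 - Φ q.2 - (C * q.1 - Φ q.1)) =
      C * ∑ q ∈ K, (q.2 - q.1) - ∑ q ∈ K, (Φ q.2 - Φ q.1) := by
    rw [Finset.mul_sum, ← Finset.sum_sub_distrib]
    exact Finset.sum_congr rfl fun q _ => by ring
  linarith

/-- The total increment of a function with periodic increments. -/
theorem omc_total {Φ : ℝ → ℝ} {Φ₀ C a b : ℝ} (hC : 0 ≤ C) (h : ∀ x y, |Φ x - Φ y| ≤ C * |x - y|)
    (hp : ∀ x, Φ (x + π) = Φ x + Φ₀) (hab : a ≤ b) :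
    (b - a) * (Φ₀ / π) - 2 * π * C ≤ Φ b - Φ a := by
  have hπ := Real.pi_pos
  have hn : ∀ n : ℕ, Φ (a + n * π) = Φ a + n * Φ₀ := by
    intro n
    induction n with
    | zero => simp
    | succ n ih =>
      rw [show a + ((n + 1 : ℕ) : ℝ) * π = a + n * π + π by push_cast; ring, hp, ih]
      push_cast
      ring
  have h0 : |Φ₀| ≤ C * π := by
    have := h (0 + π) 0
    rw [hp] at this
    simpa [abs_of_pos hπ] using this
  have hx : 0 ≤ (b - a) / π := div_nonneg (sub_nonneg.2 hab) hπ.le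
  obtain ⟨n, r, hr0, hr1, hb⟩ : ∃ (n : ℕ) (r : ℝ), 0 ≤ r ∧ r ≤ 1 ∧ b - a = (n + r) * π :=
    ⟨⌊(b - a) / π⌋₊, (b - a) / π - ⌊(b - a) / π⌋₊, sub_nonneg.2 (Nat.floor_le hx),
      by linarith [Nat.lt_floor_add_one ((b - a) / π)], by field_simp; ring⟩
  have h1 := h (a + n * π) b
  have h2 : |a + n * π - b| = r * π := by
    rw [abs_sub_comm, show b - (a + n * π) = r * π by linarith, abs_of_nonneg (by positivity)]
  rw [h2, hn] at h1
  have h3 := le_abs_self (Φ a + n * Φ₀ - Φ b)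
  have h4 : (b - a) * (Φ₀ / π) = n * Φ₀ + r * Φ₀ := by
    rw [hb]
    field_simp
  have h5 : r * Φ₀ ≤ 1 * (C * π) :=
    (mul_le_mul_of_nonneg_left ((le_abs_self _).trans h0) hr0).trans
      (mul_le_mul_of_nonneg_right hr1 (by positivity))
  have h6 : C * (r * π) ≤ C * (1 * π) :=
    mul_le_mul_of_nonneg_left (mul_le_mul_of_nonneg_right hr1 hπ.le) hC
  linarith

/-- A function vanishing outside `[α, β]`. -/
theorem omc_cut {G G' : ℝ → ℝ} {a b α β : ℝ} (hG : Continuous G) (h1 : a ≤ α) (h2 : α ≤ β)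
    (h3 : β ≤ b) (hl : ∀ x ≤ α, G x = 0) (hr : ∀ x, β ≤ x → G x = 0)
    (hm : ∀ x, α ≤ x → x ≤ β → G x = G' x) : ∫ x in a..b, G x = ∫ x in α..β, G' x := by
  have i1 : ∫ x in a..α, G x = 0 := by
    rw [intervalIntegral.integral_congr (g := fun _ => (0 : ℝ)) fun x hx => hl x (by
      rw [Set.uIcc_of_le h1] at hx
      exact hx.2)]
    simp
  have i2 : ∫ x in β..b, G x = 0 := by
    rw [intervalIntegral.integral_congr (g := fun _ => (0 : ℝ)) fun x hx => hr x (by
      rw [Set.uIcc_of_le h3] at hx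
      exact hx.1)]
    simp
  have i3 : ∫ x in α..β, G x = ∫ x in α..β, G' x :=
    intervalIntegral.integral_congr fun x hx => by
      rw [Set.uIcc_of_le h2] at hx
      exact hm x hx.1 hx.2
  rw [← intervalIntegral.integral_add_adjacent_intervals (hG.intervalIntegrable a β)
      (hG.intervalIntegrable β b),
    ← intervalIntegral.integral_add_adjacent_intervals (hG.intervalIntegrable a α)
      (hG.intervalIntegrable α β), i1, i2, i3]
  ring

/-- The mean slope of `U`. -/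
noncomputable def omcM (U : ℝ → ℝ) (α β : ℝ) : ℝ := (U β - U α) / (β - α)

/-- `U` minus its linear interpolant. -/
noncomputable def omcV (U : ℝ → ℝ) (α β x : ℝ) : ℝ := U x - U α - omcM U α β * (x - α)

/-- The same, extended by zero outside `[α, β]`. -/
noncomputable def omcW (U : ℝ → ℝ) (α β x : ℝ) : ℝ := omcV U α β (max α (min β x))

section
variable {f g U : ℝ → ℝ} {α β C : ℝ}

theorem omcV_left : omcV U α β α = 0 := by simp [omcV]

theorem omcV_right (h : α < β) : omcV U α β β = 0 := by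
  rw [omcV, omcM, div_mul_cancel₀ _ (sub_pos.2 h).ne', sub_self]

theorem omcV_deriv (dU : ∀ x, HasDerivAt U (g x) x) (x : ℝ) :
    HasDerivAt (omcV U α β) (g x - omcM U α β) x := by
  have := ((dU x).sub_const (U α)).sub
    (((hasDerivAt_id x).sub_const α).const_mul (omcM U α β))
  rw [mul_one] at this
  exact this

theorem omcV_cont (dU : ∀ x, HasDerivAt U (g x) x) : Continuous (omcV U α β) :=
  continuous_iff_continuousAt.2 fun x => (omcV_deriv dU x).continuousAt

theorem omcW_cont (dU : ∀ x, HasDerivAt U (g x) x) : Continuous (omcW U α β) :=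
  (omcV_cont dU).comp (continuous_const.max (continuous_const.min continuous_id))

theorem omcW_left {x : ℝ} (hx : x ≤ α) : omcW U α β x = 0 := by
  rw [omcW, max_eq_left ((min_le_right _ _).trans hx), omcV_left]

theorem omcW_right (h : α < β) {x : ℝ} (hx : β ≤ x) : omcW U α β x = 0 := by
  rw [omcW, min_eq_left hx, max_eq_right h.le, omcV_right h]

theorem omcW_mid {x : ℝ} (hx : α ≤ x) (hx' : x ≤ β) : omcW U α β x = omcV U α β x := by
  rw [omcW, min_eq_right hx', max_eq_right hx]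

theorem omc_lip (dU : ∀ x, HasDerivAt U (g x) x) (gb : ∀ x, |g x| ≤ C) (x y : ℝ) :
    |U y - U x| ≤ C * |y - x| :=
  Convex.norm_image_sub_le_of_norm_hasDerivWithin_le (s := Set.univ) (f := U) (f' := g)
    (fun z _ => (dU z).hasDerivWithinAt) (fun z _ => gb z) convex_univ (Set.mem_univ x)
    (Set.mem_univ y)

theorem omcW_abs (dU : ∀ x, HasDerivAt U (g x) x) (gb : ∀ x, |g x| ≤ C) (h : α < β)
    (h' : β ≤ α + π) (x : ℝ) : |omcW U α β x| ≤ 2 * π * C := by
  have hC : 0 ≤ C := (abs_nonneg _).trans (gb 0)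
  have hM : |omcM U α β| ≤ C := by
    rw [omcM, abs_div, div_le_iff₀ (abs_pos.2 (sub_pos.2 h).ne')]
    exact omc_lip dU gb α β
  have y1 : α ≤ max α (min β x) := le_max_left _ _
  have y2 : max α (min β x) ≤ β := max_le h.le (min_le_left _ _)
  rw [omcW]
  generalize max α (min β x) = y at y1 y2
  have hy : |y - α| ≤ π := by
    rw [abs_of_nonneg (sub_nonneg.2 y1)]
    linarith
  have h1 : |U y - U α| ≤ C * π := (omc_lip dU gb α y).trans (mul_le_mul_of_nonneg_left hy hC)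
  have h2 : |omcM U α β * (y - α)| ≤ C * π := by
    rw [abs_mul]
    exact mul_le_mul hM hy (abs_nonneg _) hC
  have h3 := abs_sub (U y - U α) (omcM U α β * (y - α))
  rw [omcV]
  linarith

/-- Integration by parts. -/
theorem omc_parts (fc : Continuous f) (dg : ∀ x, HasDerivAt g (-f x) x)
    (dU : ∀ x, HasDerivAt U (g x) x) (h : α < β) :
    ∫ x in α..β, f x * omcV U α β x = ∫ x in α..β, (g x - omcM U α β) ^ 2 := by
  have gc : Continuous g := continuous_iff_continuousAt.2 fun x => (dg x).continuousAt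
  have vc : Continuous (omcV U α β) := omcV_cont dU
  have c1 : Continuous fun x => f x * omcV U α β x := fc.mul vc
  have c2 : Continuous fun x => (g x - omcM U α β) ^ 2 := by fun_prop
  have h1 := intervalIntegral.integral_eq_sub_of_hasDerivAt (a := α) (b := β)
    (f := fun x => omcV U α β x * (g x - omcM U α β))
    (f' := fun x => (g x - omcM U α β) ^ 2 - f x * omcV U α β x)
    (fun x _ => ((omcV_deriv dU x).mul ((dg x).sub_const (omcM U α β))).congr_deriv (by ring))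
    ((c2.sub c1).intervalIntegrable _ _)
  rw [intervalIntegral.integral_sub (c2.intervalIntegrable _ _) (c1.intervalIntegrable _ _),
    omcV_left, omcV_right h] at h1
  linarith

end

/-- A sum of terms of which at most one is not zero. -/
theorem omc_single {κ : Type} {K : Finset κ} {w : κ → ℝ}
    (h : ∀ q ∈ K, ∀ q' ∈ K, q ≠ q' → w q = 0 ∨ w q' = 0) {F : ℝ → ℝ} (hF : F 0 = 0) :
    F (∑ q ∈ K, w q) = ∑ q ∈ K, F (w q) ∧ (∑ q ∈ K, w q = 0 ∨ ∃ q ∈ K, ∑ q ∈ K, w q = w q) := by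
  by_cases h0 : ∀ q ∈ K, w q = 0
  · rw [Finset.sum_eq_zero h0, Finset.sum_eq_zero fun q hq => by rw [h0 q hq, hF]]
    exact ⟨hF, Or.inl rfl⟩
  · push Not at h0
    obtain ⟨q, hq, hw⟩ := h0
    have h1 : ∀ q' ∈ K, q' ≠ q → w q' = 0 := fun q' hq' hne =>
      (h q' hq' q hq hne).resolve_right hw
    rw [Finset.sum_eq_single_of_mem q hq h1,
      Finset.sum_eq_single_of_mem q hq fun q' hq' hne => by rw [h1 q' hq' hne, hF]]
    exact ⟨rfl, Or.inr ⟨q, hq, rfl⟩⟩

/-- The test function on one side. -/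
theorem om_test {f g U Φ : ℝ → ℝ} {μ Φ₀ C D : ℝ} (H : DPD f g U Φ μ Φ₀ C D) {ι : Type}
    {cl : ℝ → Option ι} {a b e : ℝ} (hab : a ≤ b) (e0 : 0 < e) {K : Finset (ℝ × ℝ)}
    (hK : Runs cl a b K) (hl : ∀ q ∈ K, 2 * e < q.2 - q.1 ∧ q.2 ≤ q.1 + π) :
    ∃ (W : ℝ → ℝ) (v v' : ℝ × ℝ → ℝ → ℝ), Continuous W ∧ (∀ x, |W x| ≤ 2 * π * C) ∧
      (∀ q ∈ K, (∀ x, HasDerivAt (v q) (v' q x) x) ∧ Continuous (v' q) ∧
        v q (q.1 + e) = 0 ∧ v q (q.2 - e) = 0) ∧
      ∀ ρ : ℝ → ℝ, Continuous ρ → ∀ t : ℝ,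
        2 * t * (∫ x in a..b, W x * ρ x) + t ^ 2 * ((∫ x in a..b, (W x ^ 2 - 2 * f x * W x)) +
          ((b - a) * (Φ₀ / π) - 4 * π * C - 2 * C * (b - a - ∑ q ∈ K, (q.2 - q.1)) -
            K.card * (μ + 4 * C * e))) ≤
        ∑ q ∈ K, ∫ x in (q.1 + e)..(q.2 - e),
          (2 * (t * v q x) * ρ x - (t * v' q x) ^ 2 + (t * v q x) ^ 2) := by
  have hπ := Real.pi_pos
  have hC : 0 ≤ C := (abs_nonneg _).trans (H.gb 0)
  have fc := H.fc
  have gc : Continuous g := continuous_iff_continuousAt.2 fun x => (H.dg x).continuousAt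
  have hlt : ∀ q ∈ K, q.1 + e < q.2 - e := fun q hq => by linarith [(hl q hq).1]
  have hle : ∀ q ∈ K, q.2 - e ≤ q.1 + e + π := fun q hq => by linarith [(hl q hq).2]
  have hdis : ∀ x, ∀ q ∈ K, ∀ q' ∈ K, q ≠ q' →
      omcW U (q.1 + e) (q.2 - e) x = 0 ∨ omcW U (q'.1 + e) (q'.2 - e) x = 0 := by
    intro x q hq q' hq' hne
    rcases hK.2 q hq q' hq' hne with h | h
    · rcases le_total x q.2 with hx | hx
      · exact Or.inr (omcW_left (by linarith))
      · exact Or.inl (omcW_right (hlt q hq) (by linarith))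
    · rcases le_total x q'.2 with hx | hx
      · exact Or.inl (omcW_left (by linarith))
      · exact Or.inr (omcW_right (hlt q' hq') (by linarith))
  have key : ∀ F : ℝ → ℝ → ℝ, (∀ x, F x 0 = 0) →
      (∀ w : ℝ → ℝ, Continuous w → Continuous fun x => F x (w x)) →
      ∫ x in a..b, F x (∑ q ∈ K, omcW U (q.1 + e) (q.2 - e) x) =
        ∑ q ∈ K, ∫ x in (q.1 + e)..(q.2 - e), F x (omcV U (q.1 + e) (q.2 - e) x) := by
    intro F hF hc
    rw [intervalIntegral.integral_congr (g := fun x => ∑ q ∈ K, F x (omcW U (q.1 + e) (q.2 - e) x))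
      (fun x _ => (omc_single (hdis x) (hF x)).1),
      intervalIntegral.integral_finsetSum fun q _ => (hc _ (omcW_cont H.dU)).intervalIntegrable _ _]
    refine Finset.sum_congr rfl fun q hq => omc_cut (hc _ (omcW_cont H.dU))
      (by linarith [(hK.1 q hq).1]) (hlt q hq).le (by linarith [(hK.1 q hq).2.2.1])
      (fun x hx => ?_) (fun x hx => ?_) fun x hx hx' => ?_
    · rw [omcW_left hx, hF]
    · rw [omcW_right (hlt q hq) hx, hF]
    · rw [omcW_mid hx hx']
  refine ⟨fun x => ∑ q ∈ K, omcW U (q.1 + e) (q.2 - e) x, fun q => omcV U (q.1 + e) (q.2 - e),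
    fun q x => g x - omcM U (q.1 + e) (q.2 - e),
    continuous_finsetSum _ fun q _ => omcW_cont H.dU, fun x => ?_,
    fun q hq => ⟨omcV_deriv H.dU, gc.sub continuous_const, omcV_left, omcV_right (hlt q hq)⟩,
    fun ρ hρ t => ?_⟩
  · beta_reduce
    rcases (omc_single (hdis x) (F := id) rfl).2 with h | ⟨q, hq, h⟩
    · rw [h, abs_zero]
      positivity
    · rw [h]
      exact omcW_abs H.dU H.gb (hlt q hq) (hle q hq) x
  rw [key (fun x w => w * ρ x) (fun x => zero_mul _) (fun w hw => hw.mul hρ),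
    key (fun x w => w ^ 2 - 2 * f x * w) (fun x => by ring) (fun w hw => by fun_prop)]
  have each : ∀ q ∈ K, 2 * t * (∫ x in (q.1 + e)..(q.2 - e), omcV U (q.1 + e) (q.2 - e) x * ρ x) +
      t ^ 2 * ((∫ x in (q.1 + e)..(q.2 - e), (omcV U (q.1 + e) (q.2 - e) x ^ 2 -
        2 * f x * omcV U (q.1 + e) (q.2 - e) x)) + (Φ q.2 - Φ q.1 - (μ + 4 * C * e))) ≤
      ∫ x in (q.1 + e)..(q.2 - e), (2 * (t * omcV U (q.1 + e) (q.2 - e) x) * ρ x -
        (t * (g x - omcM U (q.1 + e) (q.2 - e))) ^ 2 + (t * omcV U (q.1 + e) (q.2 - e) x) ^ 2) := by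
    intro q hq
    have p1 := omc_parts fc H.dg H.dU (hlt q hq)
    have p2 := H.dp _ _ (omcM U (q.1 + e) (q.2 - e)) (hlt q hq).le (hle q hq)
    have p3 := H.lip (q.1 + e) q.1
    have p4 := H.lip q.2 (q.2 - e)
    rw [add_sub_cancel_left, abs_of_pos e0] at p3
    rw [sub_sub_cancel, abs_of_pos e0] at p4
    have p5 := le_abs_self (Φ (q.1 + e) - Φ q.1)
    have p6 := le_abs_self (Φ q.2 - Φ (q.2 - e))
    have vc : Continuous (omcV U (q.1 + e) (q.2 - e)) := omcV_cont H.dU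
    generalize omcV U (q.1 + e) (q.2 - e) = v at *
    generalize omcM U (q.1 + e) (q.2 - e) = m at *
    have c1 : Continuous fun x => v x * ρ x := vc.mul hρ
    have c2 : Continuous fun x => v x ^ 2 := vc.pow 2
    have c3 : Continuous fun x => f x * v x := fc.mul vc
    have c4 : Continuous fun x => (g x - m) ^ 2 := by fun_prop
    have e1 : ∫ x in (q.1 + e)..(q.2 - e), (v x ^ 2 - 2 * f x * v x) =
        (∫ x in (q.1 + e)..(q.2 - e), v x ^ 2) - 2 * ∫ x in (q.1 + e)..(q.2 - e), f x * v x := by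
      rw [← intervalIntegral.integral_const_mul, ← intervalIntegral.integral_sub
        (c2.intervalIntegrable _ _) ((c3.intervalIntegrable _ _).const_mul 2)]
      exact intervalIntegral.integral_congr fun x _ => by ring
    have e2 : ∫ x in (q.1 + e)..(q.2 - e),
        (2 * (t * v x) * ρ x - (t * (g x - m)) ^ 2 + (t * v x) ^ 2) =
        2 * t * (∫ x in (q.1 + e)..(q.2 - e), v x * ρ x) -
          t ^ 2 * (∫ x in (q.1 + e)..(q.2 - e), (g x - m) ^ 2) +
          t ^ 2 * ∫ x in (q.1 + e)..(q.2 - e), v x ^ 2 := by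
      rw [← intervalIntegral.integral_const_mul, ← intervalIntegral.integral_const_mul,
        ← intervalIntegral.integral_const_mul, ← intervalIntegral.integral_sub
        ((c1.intervalIntegrable _ _).const_mul _) ((c4.intervalIntegrable _ _).const_mul _),
        ← intervalIntegral.integral_add (((c1.intervalIntegrable _ _).const_mul _).sub
          ((c4.intervalIntegrable _ _).const_mul _)) ((c2.intervalIntegrable _ _).const_mul _)]
      exact intervalIntegral.integral_congr fun x _ => by ring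
    rw [e1, e2, p1]
    have p7 : Φ q.2 - Φ q.1 - (μ + 4 * C * e) ≤ ∫ x in (q.1 + e)..(q.2 - e), (g x - m) ^ 2 := by
      have : 0 ≤ C * e := mul_nonneg hC e0.le
      linarith
    have p8 := mul_le_mul_of_nonneg_left p7 (sq_nonneg t)
    linarith
  refine le_trans ?_ (Finset.sum_le_sum each)
  rw [Finset.sum_add_distrib, ← Finset.mul_sum, ← Finset.mul_sum, Finset.sum_add_distrib,
    Finset.sum_sub_distrib (f := fun q : ℝ × ℝ => Φ q.2 - Φ q.1), Finset.sum_const, nsmul_eq_mul]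
  have s1 := incr_sum hab hK H.lip
  have s2 := omc_total hC H.lip H.per hab
  have s3 : ∑ q ∈ K, (q.2 - q.1) ≤ b - a := omc_runs hab hK monotone_id
  have s4 : 0 ≤ C * (b - a - ∑ q ∈ K, (q.2 - q.1)) := mul_nonneg hC (sub_nonneg.2 s3)
  have s5 : 0 ≤ π * C := by positivity
  gcongr
  linarith

end Pool.Agent.P.MP_c09211_an.Sh.GL
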