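import Pool.Agent.P.MP_c09211_an.GL.OmB
import Pool.Agent.P.MP_c09211_an.GL.OmC
import Pool.Agent.P.MP_c09211_an.GL.CountB

/-!
The omitted area against the calibration (paper: OM4).
-/

set_option autoImplicit false

namespace Pool.Agent.P.MP_c09211_an.Sh.GL

open Metric Set Finset PowerSeries Complex Filter Topology Real MeasureTheory
open scoped ComplexConjugate

/-- The short runs are dropped. -/
theorem omd_filter {ι : Type} {cl : ℝ → Option ι} {a b e : ℝ} (e0 : 0 < e) {K : Finset (ℝ × ℝ)}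
    (hK : Runs cl a b K) : ∃ K' : Finset (ℝ × ℝ), Runs cl a b K' ∧ (K'.card : ℝ) ≤ K.card ∧
      (∀ q ∈ K', 2 * e < q.2 - q.1) ∧
      ∑ q ∈ K, (q.2 - q.1) ≤ ∑ q ∈ K', (q.2 - q.1) + 2 * e * K.card := by
  refine ⟨K.filter fun q => 2 * e < q.2 - q.1, ⟨fun q hq => hK.1 q (Finset.mem_filter.1 hq).1,
    fun q hq q' hq' => hK.2 q (Finset.mem_filter.1 hq).1 q' (Finset.mem_filter.1 hq').1⟩,
    Nat.cast_le.2 (Finset.card_filter_le _ _), fun q hq => (Finset.mem_filter.1 hq).2, ?_⟩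
  rw [Finset.sum_filter, mul_comm (2 * e), ← nsmul_eq_mul, ← Finset.sum_const, ← Finset.sum_add_distrib]
  refine Finset.sum_le_sum fun q _ => ?_
  split_ifs with h <;> linarith

theorem omd_union {ι : Type} {cl : ℝ → Option ι} {a₁ b₁ a₂ b₂ : ℝ} (h1 : a₁ ≤ b₁) (h2 : b₁ ≤ a₂)
    (h3 : a₂ ≤ b₂) {K₁ K₂ : Finset (ℝ × ℝ)} (r1 : Runs cl a₁ b₁ K₁) (r2 : Runs cl a₂ b₂ K₂) :
    Disjoint K₁ K₂ ∧ Runs cl a₁ b₂ (K₁ ∪ K₂) := by
  refine ⟨Finset.disjoint_left.2 fun q q1 q2 => ?_, fun q hq => ?_, fun q hq q' hq' hne => ?_⟩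
  · linarith [(r1.1 q q1).2.1, (r1.1 q q1).2.2.1, (r2.1 q q2).1]
  · rcases Finset.mem_union.1 hq with hq | hq
    · obtain ⟨x1, x2, x3, x4⟩ := r1.1 q hq
      exact ⟨x1, x2, by linarith, x4⟩
    · obtain ⟨x1, x2, x3, x4⟩ := r2.1 q hq
      exact ⟨by linarith, x2, x3, x4⟩
  · rcases Finset.mem_union.1 hq with hq | hq <;> rcases Finset.mem_union.1 hq' with hq' | hq'
    · exact r1.2 q hq q' hq' hne
    · exact Or.inl (by linarith [(r1.1 q hq).2.2.1, (r2.1 q' hq').1])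
    · exact Or.inr (by linarith [(r1.1 q' hq').2.2.1, (r2.1 q hq).1])
    · exact r2.2 q hq q' hq' hne

theorem om_final {f g U Φ : ℝ → ℝ} {μ Φ₀ C D : ℝ} (H : DPD f g U Φ μ Φ₀ C D) {ε : ℝ}
    (hε : 0 < ε) : ∃ C₃ : ℝ, 1 ≤ C₃ ∧ ∀ (N : ℕ) (c : ℝ → ℂ) (ρ : ℝ → ℝ) (Ω B : Set ℂ)
    (cl : ℝ → Option (Fin (N - 2))) (G : Fin (N - 2) → ℝ → ℝ)
    (a₁ b₁ a₂ b₂ d₁ d₂ l lo hi h R t : ℝ), 3 ≤ N → Crv c ρ → Cells N c Ω cl G →
      a₁ ≤ b₁ → b₁ ≤ a₂ → a₂ ≤ b₂ → b₂ < a₁ + N * π → 0 ≤ l → 0 < h →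
      (∀ ξ ∈ Set.Icc lo hi, (ξ : ℂ) + h * I ∈ Ω ∧ (ξ : ℂ) - h * I ∈ Ω) →
      (∀ x ∈ Set.Icc a₁ b₁ ∪ Set.Icc a₂ b₂, |(c x).im| < h ∧ lo + C₃ * h < (c x).re ∧
        (c x).re < hi - C₃ * h ∧ |ρ x| ≤ R ∧ closedBall (c x) (R * C₃) ⊆ B) →
      (∀ y, lo ≤ (c y).re → (c y).re ≤ hi → |(c y).im| ≤ h →
        ∃ k : ℤ, y + k * (N * π) ∈ Set.Icc d₁ (d₁ + l) ∪ Set.Icc d₂ (d₂ + l)) →
      ∃ W₁ W₂ : ℝ → ℝ, Continuous W₁ ∧ Continuous W₂ ∧ (∀ x, |W₁ x| ≤ C₃) ∧ (∀ x, |W₂ x| ≤ C₃) ∧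
        ENNReal.ofReal (-t * (∫ x in a₁..b₁, W₁ x * ρ x) + t * (∫ x in a₂..b₂, W₂ x * ρ x) +
          t ^ 2 / 2 * ((∫ x in a₁..b₁, (W₁ x ^ 2 - 2 * f x * W₁ x)) +
            (∫ x in a₂..b₂, (W₂ x ^ 2 - 2 * f x * W₂ x)) +
            ((b₁ - a₁ + (b₂ - a₂)) * (Φ₀ / π - ε) - 4 * (μ + ε) * l / π - C₃))) ≤
          volume (B \ Ω) := by
  have hC : 0 ≤ C := (abs_nonneg _).trans (H.gb 0)
  have hμ := H.mu0
  have hπ := Real.pi_pos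
  have hπ3 := Real.pi_gt_three
  obtain ⟨e, e0, e1, e2⟩ : ∃ e : ℝ, 0 < e ∧ e ≤ 1 ∧ 8 * C * e ≤ ε := by
    refine ⟨ε / (8 * C + ε), by positivity, (div_le_one (by positivity)).2 (by linarith), ?_⟩
    rw [← mul_div_assoc, div_le_iff₀ (by positivity)]
    nlinarith
  have s0 : 0 < Real.sin e := Real.sin_pos_of_pos_of_lt_pi e0 (by linarith)
  have p1 : 0 ≤ π * C := by positivity
  have p2 : 0 < π / Real.sin e := by positivity
  obtain ⟨C₃, hC₃⟩ : ∃ C₃, C₃ = 1 + 8 * (π * C) + 40 * C + 8 * (μ + ε) + π / Real.sin e := ⟨_, rfl⟩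
  refine ⟨C₃, by linarith, fun N c ρ Ω B cl G a₁ b₁ a₂ b₂ d₁ d₂ l lo hi h R t hN hc hce h1 h2 h3 h4
    l0 h0 hΩ hx hy => ?_⟩
  have p3 : 2 * h / Real.sin e ≤ C₃ * h := by
    have : 2 / Real.sin e ≤ π / Real.sin e := div_le_div_of_nonneg_right (by linarith) s0.le
    rw [mul_div_right_comm]
    exact mul_le_mul_of_nonneg_right (by linarith) h0.le
  obtain ⟨K₁, K₂, r1, r2, n1, n2⟩ := count hN hce.res h1 h2 h3 h4 e0 e1 (κ := 2 * (l / π + 1))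
    fun T hT => loc_card hc hce h0 s0 hΩ l0 hy T fun Δ hΔ => by
      obtain ⟨x, x1, x2, x3⟩ := hT Δ hΔ
      obtain ⟨y1, y2, y3, -⟩ := hx x x1
      exact ⟨x, x2, x3, y1, by linarith, by linarith⟩
  obtain ⟨L₁, u1, c1, l1, t1⟩ := omd_filter e0 r1
  obtain ⟨L₂, u2, c2, l2, t2⟩ := omd_filter e0 r2
  obtain ⟨W₁, v₁, v₁', w1, w2, w3, w4⟩ := om_test H h1 e0 u1 fun q hq =>
    ⟨l1 q hq, (u1.1 q hq).2.2.2.elim fun Δ hΔ => hce.res.run_le (by omega) hΔ⟩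
  obtain ⟨W₂, v₂, v₂', z1, z2, z3, z4⟩ := om_test H h3 e0 u2 fun q hq =>
    ⟨l2 q hq, (u2.1 q hq).2.2.2.elim fun Δ hΔ => hce.res.run_le (by omega) hΔ⟩
  obtain ⟨hd, hu⟩ := omd_union h1 h2 h3 u1 u2
  have hR : 0 ≤ R := (abs_nonneg _).trans (hx a₁ (Or.inl ⟨le_rfl, h1⟩)).2.2.2.1
  have key := om_sum hN hc hce hu h4 e0 (R := R) (B := B)
    (v := fun q x => if q ∈ L₁ then -t * v₁ q x else t * v₂ q x)
    (v' := fun q x => if q ∈ L₁ then -t * v₁' q x else t * v₂' q x)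
    (fun q hq => (Finset.mem_union.1 hq).elim (l1 q) (l2 q)) (fun q hq => by
      by_cases q1 : q ∈ L₁
      · obtain ⟨x1, x2, x3, x4⟩ := w3 q q1
        simp only [if_pos q1, x3, x4, mul_zero, and_true]
        exact ⟨fun x => (x1 x).const_mul _, continuous_const.mul x2⟩
      · obtain ⟨x1, x2, x3, x4⟩ := z3 q ((Finset.mem_union.1 hq).resolve_left q1)
        simp only [if_neg q1, x3, x4, mul_zero, and_true]
        exact ⟨fun x => (x1 x).const_mul _, continuous_const.mul x2⟩) (fun q hq x hxq => by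
      have hm : x ∈ Set.Icc a₁ b₁ ∪ Set.Icc a₂ b₂ := by
        rcases Finset.mem_union.1 hq with hq | hq
        · exact Or.inl ⟨(u1.1 q hq).1.trans hxq.1, hxq.2.trans (u1.1 q hq).2.2.1⟩
        · exact Or.inr ⟨(u2.1 q hq).1.trans hxq.1, hxq.2.trans (u2.1 q hq).2.2.1⟩
      exact ⟨(hx x hm).2.2.2.1, (closedBall_subset_closedBall
        (mul_le_mul_of_nonneg_left (by linarith) hR)).trans (hx x hm).2.2.2.2⟩)
  refine ⟨W₁, W₂, w1, z1, fun x => (w2 x).trans (by linarith), fun x => (z2 x).trans (by linarith),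
    (ENNReal.ofReal_le_ofReal ?_).trans key⟩
  have f1 := w4 ρ hc.cont (-t)
  have f2 := z4 ρ hc.cont t
  rw [← Finset.sum_div, Finset.sum_union hd,
    Finset.sum_congr rfl fun q (hq : q ∈ L₁) => by simp only [if_pos hq]; rfl,
    Finset.sum_congr (s₁ := L₂) rfl fun q (hq : q ∈ L₂) => by
      simp only [if_neg (Finset.disjoint_right.1 hd hq)]; rfl]
  refine le_trans ?_ (div_le_div_of_nonneg_right (add_le_add f1 f2) zero_le_two)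
  have g1 : (b₁ - a₁ + (b₂ - a₂)) * (Φ₀ / π - ε) - 4 * (μ + ε) * l / π - C₃ ≤
      ((b₁ - a₁) * (Φ₀ / π) - 4 * π * C - 2 * C * (b₁ - a₁ - ∑ q ∈ L₁, (q.2 - q.1)) -
        L₁.card * (μ + 4 * C * e)) +
      ((b₂ - a₂) * (Φ₀ / π) - 4 * π * C - 2 * C * (b₂ - a₂ - ∑ q ∈ L₂, (q.2 - q.1)) -
        L₂.card * (μ + 4 * C * e)) := by
    have b1 : 2 * C * (b₁ - a₁ + (b₂ - a₂) - ∑ q ∈ L₁, (q.2 - q.1) - ∑ q ∈ L₂, (q.2 - q.1)) ≤
        2 * C * ((b₁ - a₁ + (b₂ - a₂)) * e + 20 + 2 * e * (K₁.card + K₂.card)) :=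
      mul_le_mul_of_nonneg_left (by linarith) (by positivity)
    have b2 : ((L₁.card : ℝ) + L₂.card) * (μ + 4 * C * e) ≤
        (K₁.card + K₂.card) * (μ + 4 * C * e) :=
      mul_le_mul_of_nonneg_right (by linarith) (by positivity)
    have b3 : ((K₁.card : ℝ) + K₂.card) * (μ + 8 * C * e) ≤
        (2 * (2 * (l / π + 1)) + 4) * (μ + ε) :=
      mul_le_mul n1 (by linarith) (by positivity) (by positivity)
    have b4 : (b₁ - a₁ + (b₂ - a₂)) * (8 * C * e) ≤ (b₁ - a₁ + (b₂ - a₂)) * ε :=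
      mul_le_mul_of_nonneg_left e2 (by linarith)
    have b5 : 0 ≤ (b₁ - a₁ + (b₂ - a₂)) * (C * e) := mul_nonneg (by linarith) (by positivity)
    have b6 : 4 * (μ + ε) * l / π = 4 * (l / π) * (μ + ε) := by ring
    linarith
  have g2 := mul_le_mul_of_nonneg_left g1 (sq_nonneg t)
  rw [neg_sq]
  linarith

end Pool.Agent.P.MP_c09211_an.Sh.GL
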