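import Pool.Agent.P.MP_c09211_an.GL.Basic
import Pool.Agent.P.MP_c09211_an.Sh.Ker

/-!
The polynomial window (paper: AN, window).
-/

set_option autoImplicit false

namespace Pool.Agent.P.MP_c09211_an.Sh.GL

open Metric Set Finset PowerSeries Complex Filter Topology Real MeasureTheory
open scoped ComplexConjugate

theorem Window_far {N : ℕ} (hN : 0 < N) {l u r : ℝ} (l0 : 0 < l) (h1 : l ≤ u) (h2 : u ≤ N * π - l)
    (hr : 1 / 2 ≤ r) : l / (2 * N) ≤ ‖1 - r * eI (2 * u / N)‖ := by
  have hN' : (0 : ℝ) < N := by exact_mod_cast hN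
  have hπ := Real.pi_pos
  have hl : 0 < l / N := div_pos l0 hN'
  have t1 : l / N ≤ u / N := div_le_div_of_nonneg_right h1 hN'.le
  have t2 : l / N ≤ π - u / N := by
    rw [le_sub_iff_add_le, ← add_div, div_le_iff₀ hN']
    linarith
  have hs : 2 / π * (l / N) ≤ Real.sin (u / N) := by
    rcases le_total (u / N) (π / 2) with h | h
    · exact (mul_le_mul_of_nonneg_left t1 (by positivity)).trans (Real.mul_le_sin (by linarith) h)
    · rw [← Real.sin_pi_sub]
      exact (mul_le_mul_of_nonneg_left t2 (by positivity)).trans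
        (Real.mul_le_sin (by linarith) (by linarith))
  have h4 : 1 / 2 ≤ 2 / π := by
    rw [div_le_div_iff₀ two_pos hπ]
    linarith [Real.pi_le_four]
  have hs2 : l / (2 * N) ≤ Real.sin (u / N) := by
    refine le_trans (le_of_eq ?_) ((mul_le_mul_of_nonneg_right h4 hl.le).trans hs)
    field_simp
  have e : ‖1 - r * eI (2 * u / N)‖ ^ 2 = (1 - r) ^ 2 + 4 * r * Real.sin (u / N) ^ 2 := by
    rw [Complex.sq_norm, Complex.normSq_apply, mul_div_assoc]
    simp only [sub_re, one_re, re_ofReal_mul, sub_im, one_im, im_ofReal_mul, eI_re, eI_im]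
    have c1 := Real.cos_two_mul (u / N)
    have c2 := Real.sin_sq_add_cos_sq (u / N)
    have c3 := Real.sin_sq_add_cos_sq (2 * (u / N))
    linear_combination r ^ 2 * c3 - 2 * r * c1 - 4 * r * c2
  refine hs2.trans (Real.le_sqrt_of_sq_le ?_ |>.trans (le_of_eq (Real.sqrt_sq (norm_nonneg _))))
  rw [e]
  nlinarith [sq_nonneg (1 - r), sq_nonneg (Real.sin (u / N))]

theorem Window_mean {N : ℕ} (hN : 0 < N) (p m : ℕ) :
    N * π * (m : ℝ) ^ (2 * p) ≤ ((p * (m - 1) : ℕ) + 1) *
      ∫ u in (0 : ℝ)..N * π, ‖∑ i ∈ range m, eI (2 * u / N) ^ i‖ ^ (2 * p) := by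
  have hN' : (0 : ℝ) < N := by exact_mod_cast hN
  obtain ⟨c, hc⟩ := Ker_coef p m
  have h1 := parseval (p * (m - 1) + 1) c
  have h2 := intervalIntegral.integral_comp_mul_left (a := 0) (b := N * π)
    (fun θ => ‖∑ i ∈ range (p * (m - 1) + 1), c i * circleMap 0 1 θ ^ i‖ ^ 2)
    (c := 2 / N) (by positivity)
  rw [mul_zero, show 2 / (N : ℝ) * (N * π) = 2 * π by field_simp, h1] at h2
  have h3 : ∀ u : ℝ, ‖∑ i ∈ range m, eI (2 * u / N) ^ i‖ ^ (2 * p) =
      ‖∑ i ∈ range (p * (m - 1) + 1), c i * circleMap 0 1 (2 / N * u) ^ i‖ ^ 2 := fun u => by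
    rw [← hc, eI_circ, norm_pow, ← pow_mul, mul_comm p 2, ofReal_one, one_mul,
      show 2 / (N : ℝ) * u = 2 * u / N by ring]
  have h4 : (m : ℝ) ^ (2 * p) ≤
      ((p * (m - 1) : ℕ) + 1) * ∑ i ∈ range (p * (m - 1) + 1), ‖c i‖ ^ 2 := by
    have e := congrArg norm (hc 1)
    simp only [one_pow, sum_const, card_range, nsmul_eq_mul, mul_one, norm_pow,
      Complex.norm_natCast] at e
    have h5 := sq_sum_le_card_mul_sum_sq (s := range (p * (m - 1) + 1)) (f := fun i => ‖c i‖)
    rw [card_range, Nat.cast_add, Nat.cast_one] at h5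
    rw [mul_comm 2 p, pow_mul, e]
    exact (pow_le_pow_left₀ (norm_nonneg _) (norm_sum_le _ _) 2).trans h5
  simp only [h3]
  rw [h2, smul_eq_mul]
  refine (mul_le_mul_of_nonneg_left h4 (by positivity)).trans (le_of_eq ?_)
  field_simp

/-- The normalised kernel. -/
theorem Window_ker {N : ℕ} (hN : 0 < N) (p : ℕ) {m : ℕ} (hm : 1 ≤ m) {l : ℝ} (l0 : 0 < l) :
    ∃ (g : ℕ → ℂ) (K : ℝ → ℝ), Continuous K ∧ (∀ u, 0 ≤ K u) ∧ Function.Periodic K (N * π) ∧
      (∫ u in (0 : ℝ)..N * π, K u) = 1 ∧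
      (∀ u, ∑ j ∈ range (2 * (p * (m - 1)) + 1), g j * eI (2 * u / N) ^ j =
        eI (2 * u / N) ^ (p * (m - 1)) * K u) ∧
      ∀ u r : ℝ, l ≤ u → u ≤ N * π - l → 1 / 2 ≤ r → r ≤ 1 →
        ‖∑ j ∈ range (2 * (p * (m - 1)) + 1), g j * (r * eI (2 * u / N)) ^ j‖ ≤
          ((p * (m - 1) : ℕ) + 1) * (4 * N / (m * l)) ^ (2 * p) / (N * π) := by
  have hN' : (0 : ℝ) < N := by exact_mod_cast hN
  have hm' : (0 : ℝ) < m := by exact_mod_cast hm
  have hπ := Real.pi_pos
  obtain ⟨g, hg⟩ := Ker_coef (2 * p) m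
  rw [mul_assoc] at hg
  have hlow := Window_mean hN p m
  set c := ∫ u in (0 : ℝ)..N * π, ‖∑ i ∈ range m, eI (2 * u / N) ^ i‖ ^ (2 * p) with hc
  have hM : (0 : ℝ) < (p * (m - 1) : ℕ) + 1 := by positivity
  have hc0 : 0 < c := (mul_pos_iff_of_pos_left hM).1 (lt_of_lt_of_le (by positivity) hlow)
  have e : ∀ y : ℂ, ∑ j ∈ range (2 * (p * (m - 1)) + 1), g j / c * y ^ j =
      (∑ i ∈ range m, y ^ i) ^ (2 * p) / c := fun y => by
    rw [hg, sum_div]
    exact sum_congr rfl fun j _ => by ring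
  have hcont : Continuous fun u : ℝ => eI (2 * u / N) := eI_cont.comp (by fun_prop)
  refine ⟨fun j => g j / c, fun u => ‖∑ i ∈ range m, eI (2 * u / N) ^ i‖ ^ (2 * p) / c,
    by fun_prop, fun u => by positivity, fun u => ?_, ?_, fun u => ?_, fun u r h1 h2 h3 h4 => ?_⟩
  · have := zc_per hN 0 u
    simp only [zc, sub_zero] at this
    simp only [this]
  · rw [intervalIntegral.integral_div, div_self hc0.ne']
  · rw [e, pow_mul, Ker_sym hm (eI_norm _), mul_pow, ← pow_mul, mul_comm (m - 1) p]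
    push_cast
    rw [← pow_mul]
    ring
  · have h5 : ‖(r : ℂ) * eI (2 * u / N)‖ ≤ 1 := by
      rw [norm_mul, eI_norm, mul_one, Complex.norm_real, Real.norm_eq_abs, abs_of_pos (by linarith)]
      exact h4
    have h6 := Ker_le m h5 (by positivity) (Window_far hN l0 h1 h2 h3)
    have h7 := pow_le_pow_left₀ (norm_nonneg _) h6 (2 * p)
    rw [e, norm_div, norm_pow, Complex.norm_real, Real.norm_eq_abs, abs_of_pos hc0,
      div_le_div_iff₀ hc0 (by positivity)]
    have e2 : (2 / (l / (2 * N))) ^ (2 * p) = (4 * N / (m * l)) ^ (2 * p) * (m : ℝ) ^ (2 * p) := by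
      rw [← mul_pow]
      congr 1
      field_simp
      norm_num
    rw [e2] at h7
    have h8 := mul_le_mul_of_nonneg_right h7 (mul_pos hN' hπ).le
    have h9 := mul_le_mul_of_nonneg_left hlow
      (show (0 : ℝ) ≤ (4 * N / (m * l)) ^ (2 * p) by positivity)
    linarith

theorem win_exists {N : ℕ} (hN : 0 < N) (β : ℝ) (p : ℕ) {m : ℕ} (hm : 1 ≤ m) {a b l : ℝ}
    (l0 : 0 < l) (h1 : 2 * l ≤ b - a) (h2 : b - a + 2 * l ≤ N * π) :
    ∃ κ s s', Win N β (p * (m - 1)) a b l
      (((p * (m - 1) : ℕ) + 1) * (4 * N / (m * l)) ^ (2 * p)) κ s s' := by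
  obtain ⟨g, K, hK, hK0, hper, hone, hval, hfar⟩ := Window_ker hN p hm l0
  have hN' : (0 : ℝ) < N := by exact_mod_cast hN
  have hπ := Real.pi_pos
  have hT : 0 < N * π := mul_pos hN' hπ
  have hϖ : (0 : ℝ) ≤ ((p * (m - 1) : ℕ) + 1) * (4 * N / (m * l)) ^ (2 * p) := by positivity
  generalize ((p * (m - 1) : ℕ) + 1 : ℝ) * (4 * N / (m * l)) ^ (2 * p) = ϖ at *
  generalize p * (m - 1) = M at *
  have hab : a ≤ b := by linarith
  have hi : ∀ x y, IntervalIntegrable K volume x y := fun x y => hK.intervalIntegrable x y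
  have hone' : ∀ t, ∫ u in t..t + N * π, K u = 1 := fun t => by
    rw [hper.intervalIntegral_add_eq t 0, zero_add, hone]
  have hKle : ∀ u, l ≤ u → u ≤ N * π - l → K u ≤ ϖ / (N * π) := fun u h3 h4 => by
    have h5 := hfar u 1 h3 h4 (by norm_num) le_rfl
    rw [ofReal_one, one_mul, hval, norm_mul, norm_pow, eI_norm, one_pow, one_mul,
      Complex.norm_real, Real.norm_eq_abs, abs_of_nonneg (hK0 u)] at h5
    exact h5
  have hd : ∀ u v, l ≤ u → u ≤ N * π - l → l ≤ v → v ≤ N * π - l → N * |K u - K v| ≤ ϖ := by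
    intro u v h3 h4 h5 h6
    have h7 : |K u - K v| ≤ ϖ / (N * π) :=
      abs_le.2 ⟨by linarith [hKle v h5 h6, hK0 u], by linarith [hKle u h3 h4, hK0 v]⟩
    rw [le_div_iff₀ hT] at h7
    have h8 : N * |K u - K v| * 1 ≤ N * |K u - K v| * π :=
      mul_le_mul_of_nonneg_left (by linarith [Real.two_le_pi]) (by positivity)
    linarith
  have hzc : Continuous (zc N β) := continuous_iff_continuousAt.2 fun x =>
    (zc_deriv N β x).continuousAt
  have hz : ∀ x y, zc N β x * conj (zc N β y) = eI (2 * (x - y) / N) := fun x y => by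
    rw [zc, zc, ← eI_neg, ← eI_add]
    congr 1
    ring
  have hz' : ∀ x y, eI (2 * (x - y) / N) * zc N β y = zc N β x := fun x y => by
    rw [zc, zc, ← eI_add]
    congr 1
    ring
  obtain ⟨κ, hdeg, hκ⟩ : ∃ κ : Polynomial ℂ, κ.natDegree ≤ 2 * M ∧ ∀ z, κ.eval z =
      ∫ y in a..b, (∑ j ∈ range (2 * M + 1), g j * (z * conj (zc N β y)) ^ j) * zc N β y ^ M := by
    refine ⟨∑ j ∈ range (2 * M + 1), Polynomial.monomial j
      (∫ y in a..b, g j * conj (zc N β y) ^ j * zc N β y ^ M), ?_, fun z => ?_⟩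
    · exact Polynomial.natDegree_sum_le_of_forall_le _ _ fun j hj =>
        (Polynomial.natDegree_monomial_le _).trans (Nat.lt_succ_iff.1 (mem_range.1 hj))
    · simp only [Polynomial.eval_finsetSum, Polynomial.eval_monomial, sum_mul]
      rw [intervalIntegral.integral_finsetSum fun j _ =>
        Continuous.intervalIntegrable (by fun_prop) _ _]
      refine sum_congr rfl fun j _ => ?_
      rw [← intervalIntegral.integral_mul_const]
      exact intervalIntegral.integral_congr fun y _ => by ring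
  have hΦ : ∀ t, HasDerivAt (fun t => ∫ u in (0 : ℝ)..t, K u) (K t) t := fun t =>
    (hK.integral_hasStrictDerivAt 0 t).hasDerivAt
  have hΦc : Continuous fun t => ∫ u in (0 : ℝ)..t, K u :=
    continuous_iff_continuousAt.2 fun t => (hΦ t).continuousAt
  have hs : ∀ x, ∫ u in (x - b)..(x - a), K u =
      (∫ u in (0 : ℝ)..(x - a), K u) - ∫ u in (0 : ℝ)..(x - b), K u := fun x =>
    (intervalIntegral.integral_interval_sub_left (hi _ _) (hi _ _)).symm
  have hc : ∀ x, (∫ u in (x - b)..(x - a), K u) + ∫ u in (x - a)..(x - b + N * π), K u = 1 :=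
    fun x => by rw [intervalIntegral.integral_add_adjacent_intervals (hi _ _) (hi _ _), hone']
  refine ⟨κ, fun x => ∫ u in (x - b)..(x - a), K u, fun x => K (x - a) - K (x - b), hdeg,
    fun x => ?_, fun x => ?_, fun x => ?_, fun x => ?_, by fun_prop, ?_, ?_, fun x hx => ⟨?_, ?_⟩,
    fun x hx => ⟨?_, fun r hr => ?_⟩⟩
  · rw [hκ, ← intervalIntegral.integral_comp_sub_left, ← intervalIntegral.integral_ofReal,
      ← intervalIntegral.integral_const_mul]
    refine intervalIntegral.integral_congr fun y _ => ?_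
    rw [hz, hval, ← hz' x y]
    ring
  · exact intervalIntegral.integral_nonneg (by linarith) fun u _ => hK0 u
  · have := intervalIntegral.integral_nonneg (μ := volume) (a := x - a) (b := x - b + N * π)
      (by linarith) fun u _ => hK0 u
    linarith [hc x]
  · simp only [hs]
    exact ((hΦ (x - a)).comp_sub_const x a).sub ((hΦ (x - b)).comp_sub_const x b)
  · have e : ∀ t, (∫ u in (0 : ℝ)..t + N * π, K u) - ∫ u in (0 : ℝ)..t, K u = 1 := fun t => by
      rw [intervalIntegral.integral_interval_sub_left (hi _ _) (hi _ _), hone']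
    simp only [hs]
    obtain ⟨Φ, hΦ'⟩ : ∃ Φ : ℝ → ℝ, ∀ t, ∫ u in (0 : ℝ)..t, K u = Φ t := ⟨_, fun _ => rfl⟩
    simp only [hΦ'] at e hΦc ⊢
    have hj : ∀ x y, IntervalIntegrable Φ volume x y := fun x y => hΦc.intervalIntegrable x y
    rw [intervalIntegral.integral_sub (Continuous.intervalIntegrable (by fun_prop) _ _)
      (Continuous.intervalIntegrable (by fun_prop) _ _),
      intervalIntegral.integral_comp_sub_right Φ, intervalIntegral.integral_comp_sub_right Φ,
      intervalIntegral.integral_interval_sub_interval_comm' (hj _ _) (hj _ _) (hj _ _),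
      add_sub_right_comm (a - l), add_sub_right_comm (a - l),
      ← intervalIntegral.integral_comp_add_right,
      ← intervalIntegral.integral_sub (Continuous.intervalIntegrable (by fun_prop) _ _) (hj _ _)]
    simp only [e, intervalIntegral.integral_const, smul_eq_mul]
    linarith
  · have e : ∀ t, ∫ x in (a - l)..(a - l + N * π), K (x - t) = 1 := fun t => by
      rw [intervalIntegral.integral_comp_sub_right, add_sub_right_comm, hone']
    have h3 := intervalIntegral.integral_mono_on (μ := volume) (a := a - l) (b := a - l + N * π)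
      (f := fun x => |K (x - a) - K (x - b)|) (g := fun x => K (x - a) + K (x - b)) (by linarith)
      (Continuous.intervalIntegrable (by fun_prop) _ _)
      (Continuous.intervalIntegrable (by fun_prop) _ _) fun x _ =>
        abs_le.2 ⟨by linarith [hK0 (x - a)], by linarith [hK0 (x - b)]⟩
    rw [intervalIntegral.integral_add (Continuous.intervalIntegrable (by fun_prop) _ _)
      (Continuous.intervalIntegrable (by fun_prop) _ _), e, e] at h3
    linarith
  · have h3 := intervalIntegral.integral_mono_on (μ := volume) (a := x - a) (b := x - b + N * π)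
      (f := K) (g := fun _ => ϖ / (N * π)) (by linarith) (hi _ _) intervalIntegrable_const
      fun u hu => hKle u (by linarith [hx.1, hu.1]) (by linarith [hx.2, hu.2])
    rw [intervalIntegral.integral_const, smul_eq_mul] at h3
    have h4 : (x - b + N * π - (x - a)) * (ϖ / (N * π)) ≤ N * π * (ϖ / (N * π)) :=
      mul_le_mul_of_nonneg_right (by linarith) (by positivity)
    rw [mul_div_cancel₀ _ hT.ne'] at h4
    linarith [hc x]
  · rw [← hper (x - b)]
    exact hd _ _ (by linarith [hx.1]) (by linarith [hx.2]) (by linarith [hx.1])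
      (by linarith [hx.2])
  · exact hd _ _ (by linarith [hx.1]) (by linarith [hx.2]) (by linarith [hx.1])
      (by linarith [hx.2])
  · rw [hκ]
    refine (intervalIntegral.norm_integral_le_of_norm_le_const (C := ϖ / (N * π))
      fun y hy => ?_).trans ?_
    · rw [Set.uIoc_of_le hab] at hy
      rw [norm_mul, norm_pow, zc_norm, one_pow, mul_one, mul_assoc, hz]
      exact hfar _ r (by linarith [hx.1, hy.2]) (by linarith [hx.2, hy.1]) hr.1 hr.2
    · rw [abs_of_nonneg (by linarith), div_mul_eq_mul_div, div_le_iff₀ hT]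
      exact mul_le_mul_of_nonneg_left (by linarith) hϖ

end Pool.Agent.P.MP_c09211_an.Sh.GL
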