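import Pool.Agent.P.MP_c09211_an.GL.AnC
import Pool.Agent.P.MP_c09211_an.GL.OmD
import Pool.Agent.P.MP_c09211_an.GL.DP
import Pool.Agent.P.MP_c09211_an.GL.Window

/-!
The area that is omitted in one box (paper: GLoc).
-/

set_option autoImplicit false

namespace Pool.Agent.P.MP_c09211_an.Sh.GL

open Metric Set Finset PowerSeries Complex Filter Topology Real MeasureTheory
open scoped ComplexConjugate

theorem gloc_id {p q : ℝ} (hp : 0 < p) (hq : 0 < q) :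
    1 / p ^ 2 - 1 / q ^ 2 = (q - p) * (1 / (p * q * q) + 1 / (p * p * q)) := by
  field_simp
  ring

theorem gloc_lo {p q a : ℝ} (hp : 0 < p) (hpq : p ≤ q) (hq : q ≤ a) :
    2 * (q - p) / a ^ 3 ≤ 1 / p ^ 2 - 1 / q ^ 2 := by
  have q0 : 0 < q := hp.trans_le hpq
  have hpa : p ≤ a := hpq.trans hq
  have a0 : 0 < a := hp.trans_le hpa
  have h1 : 1 / (a * a * a) ≤ 1 / (p * q * q) := by gcongr
  have h2 : 1 / (a * a * a) ≤ 1 / (p * p * q) := by gcongr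
  have h3 : 0 ≤ q - p := by linarith
  rw [gloc_id hp q0]
  calc 2 * (q - p) / a ^ 3 = (q - p) * (1 / (a * a * a) + 1 / (a * a * a)) := by ring
    _ ≤ _ := by gcongr

theorem gloc_hi {p q e : ℝ} (he : 0 < e) (hp : e ≤ p) (hq : e ≤ q) :
    |1 / p ^ 2 - 1 / q ^ 2| ≤ 2 * |q - p| / e ^ 3 := by
  have p0 : 0 < p := he.trans_le hp
  have q0 : 0 < q := he.trans_le hq
  have h1 : 1 / (p * q * q) ≤ 1 / (e * e * e) := by gcongr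
  have h2 : 1 / (p * p * q) ≤ 1 / (e * e * e) := by gcongr
  rw [gloc_id p0 q0, abs_mul, abs_of_pos (by positivity : 0 < 1 / (p * q * q) + 1 / (p * p * q))]
  calc _ ≤ |q - p| * (1 / (e * e * e) + 1 / (e * e * e)) := by gcongr
    _ = _ := by ring

theorem gloc_re {w : ℂ} {X δ : ℝ} (hw : ‖w + (X : ℂ)‖ ≤ δ) : |w.re + X| ≤ δ ∧ |w.im| ≤ δ := by
  have h1 := (Complex.abs_re_le_norm (w + X)).trans hw
  have h2 := (Complex.abs_im_le_norm (w + X)).trans hw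
  simpa using And.intro h1 h2

theorem gloc_lev {w : ℂ} {Q δ m p q d φ a : ℝ} (hw : ‖w + ((Q / φ ^ 2 : ℝ) : ℂ)‖ ≤ δ * Q)
    (hQ : 0 < Q) (hp : 0 < p) (hd : 0 ≤ d) (h1 : p + d ≤ φ) (h2 : φ ≤ q - d) (hq : q ≤ a)
    (hm : δ + m < 2 * d / a ^ 3) :
    -(Q / p ^ 2) + m * Q < w.re ∧ w.re < -(Q / q ^ 2) - m * Q ∧ |w.im| ≤ δ * Q := by
  obtain ⟨e1, e2⟩ := gloc_re hw
  rw [abs_le] at e1
  have φ0 : 0 < φ := by linarith
  have a0 : 0 < a := by linarith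
  have l1 := gloc_lo hp (by linarith : p ≤ φ) (by linarith : φ ≤ a)
  have l2 := gloc_lo φ0 (by linarith : φ ≤ q) hq
  have l3 : 2 * d / a ^ 3 ≤ 2 * (φ - p) / a ^ 3 := by gcongr; linarith
  have l4 : 2 * d / a ^ 3 ≤ 2 * (q - φ) / a ^ 3 := by gcongr; linarith
  have l5 := mul_lt_mul_of_pos_right ((hm.trans_le l3).trans_le l1) hQ
  have l6 := mul_lt_mul_of_pos_right ((hm.trans_le l4).trans_le l2) hQ
  have r1 : (1 / p ^ 2 - 1 / φ ^ 2) * Q = Q / p ^ 2 - Q / φ ^ 2 := by ring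
  have r2 : (1 / φ ^ 2 - 1 / q ^ 2) * Q = Q / φ ^ 2 - Q / q ^ 2 := by ring
  exact ⟨by linarith [e1.1], by linarith [e1.2], e2⟩

theorem gloc_mem {J : ℕ} {w : ℂ} {δ u v d φ a : ℝ}
    (hw : ‖w + (((J : ℝ) ^ 2 / φ ^ 2 : ℝ) : ℂ)‖ ≤ δ * (J : ℝ) ^ 2) (hJ : 0 < J) (hu : 0 < u)
    (hd : 0 ≤ d) (h1 : u + d ≤ φ) (h2 : φ ≤ v - d) (hv : v ≤ a) (hm : δ < 2 * d / a ^ 3)
    (hδ : δ < v - u) : w ∈ Box J u v := by
  have hQ : (0 : ℝ) < (J : ℝ) ^ 2 := by positivity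
  obtain ⟨e1, e2, e3⟩ := gloc_lev (m := 0) hw hQ hu hd h1 h2 hv (by linarith)
  exact ⟨by linarith, by linarith, e3.trans_lt (mul_lt_mul_of_pos_right hδ hQ)⟩

section

variable {J N : ℕ} {β e A h η σ n : ℝ} {E : Polynomial ℂ}

theorem gloc_theta (hJ : 0 < J) (hN : 0 < N) (hn : n = N / (2 * J)) {x φ : ℝ}
    (hx : |x - β| = n * φ) : |2 * (x - β) / N| = φ / J := by
  have J0 : (0 : ℝ) < J := by exact_mod_cast hJ
  have N0 : (0 : ℝ) < N := by exact_mod_cast hN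
  rw [abs_div, abs_mul, hx, hn, abs_of_pos N0, abs_two]
  field_simp

theorem gloc_pt (hS : Shape J e A h η σ E) (hJ : 0 < J) (hN : 0 < N) (hn : n = N / (2 * J))
    {x φ : ℝ} (hx : |x - β| = n * φ) (h1 : e ≤ φ) (h2 : φ ≤ A) :
    (∀ r : ℝ, 1 - σ / J ≤ r → r ≤ 1 →
      ‖E.eval (r * zc N β x) + (((J : ℝ) ^ 2 / φ ^ 2 : ℝ) : ℂ)‖ ≤ η * (J : ℝ) ^ 2) ∧
      ‖E.derivative.eval (zc N β x)‖ ≤ η * (J : ℝ) ^ 4 := by
  have J0 : (0 : ℝ) < J := by exact_mod_cast hJ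
  have e1 := gloc_theta hJ hN hn hx
  have e2 : e / J ≤ |2 * (x - β) / N| := by rw [e1]; gcongr
  have e3 : |2 * (x - β) / N| ≤ A / J := by rw [e1]; gcongr
  refine ⟨fun r r0 r1 => ?_, hS.g3 _ e2 e3⟩
  have := hS.g1 _ r e2 e3 r0 r1
  rwa [← sq_abs (2 * (x - β) / N), e1, div_pow, one_div_div] at this

theorem gloc_pt1 (hS : Shape J e A h η σ E) (hJ : 0 < J) (hN : 0 < N) (hn : n = N / (2 * J))
    (hσ : 1 - σ / J ≤ 1) {x φ : ℝ} (hx : |x - β| = n * φ) (h1 : e ≤ φ) (h2 : φ ≤ A) :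
    ‖cv N β E x + (((J : ℝ) ^ 2 / φ ^ 2 : ℝ) : ℂ)‖ ≤ η * (J : ℝ) ^ 2 := by
  have := (gloc_pt hS hJ hN hn hx h1 h2).1 1 hσ le_rfl
  rwa [Complex.ofReal_one, one_mul] at this

/-- All boundary points at the given levels have parameters in two intervals. -/
theorem gloc_ext (hS : Shape J e A h η σ E) (hJ : 0 < J) (hN : 0 < N) (hn : n = N / (2 * J))
    (hσ : 1 - σ / J ≤ 1) {u v γ a : ℝ} (e0 : 0 < e) (hu : 8 * e ≤ u) (hv : v ≤ A / 8)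
    (γ0 : 0 ≤ γ) (huv : u + γ ≤ v - γ) (ha : A ≤ a) (hh : h ≤ 1 / (32 * e ^ 2))
    (hη : η ≤ 2 * γ / a ^ 3) (y : ℝ) (h1 : -((J : ℝ) ^ 2 / (u + γ) ^ 2) ≤ (cv N β E y).re)
    (h2 : (cv N β E y).re ≤ -((J : ℝ) ^ 2 / (v - γ) ^ 2))
    (h3 : |(cv N β E y).im| ≤ h * (J : ℝ) ^ 2) :
    ∃ k : ℤ, y + k * (N * π) ∈ Set.Icc (β - n * v) (β - n * v + n * (v - u)) ∪
      Set.Icc (β + n * u) (β + n * u + n * (v - u)) := by
  have J0 : (0 : ℝ) < J := by exact_mod_cast hJ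
  have N0 : (0 : ℝ) < N := by exact_mod_cast hN
  have n0 : 0 < n := by rw [hn]; positivity
  have hQ : (0 : ℝ) < (J : ℝ) ^ 2 := by positivity
  have hπ := Real.pi_pos
  have u0 : 0 < u := by linarith
  have A0 : 0 < A := by linarith
  have vγ : 0 < v - γ := by linarith
  obtain ⟨k, hk, -⟩ := existsUnique_add_zsmul_mem_Ioc (by positivity : 0 < N * π) y (β - N * π / 2)
  rw [zsmul_eq_mul] at hk
  refine ⟨k, ?_⟩
  have ec : cv N β E y = cv N β E (y + k * (N * π)) := by rw [cv, cv, zc_int hN]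
  generalize y + k * (N * π) = x at hk ec
  rw [ec] at h1 h2 h3
  obtain ⟨φ, hφ⟩ : ∃ φ, |x - β| = n * φ := ⟨|x - β| / n, by field_simp⟩
  have e1 := gloc_theta hJ hN hn hφ
  have e2 : |2 * (x - β) / N| ≤ π := by
    rw [abs_div, abs_of_pos N0, div_le_iff₀ N0, abs_le]
    constructor <;> linarith [hk.1, hk.2]
  have e3 : 16 * (J : ℝ) ^ 2 / A ^ 2 ≤ ‖cv N β E x‖ := by
    calc 16 * (J : ℝ) ^ 2 / A ^ 2 = (J : ℝ) ^ 2 / (A / 4) ^ 2 := by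
          field_simp
          norm_num
      _ ≤ (J : ℝ) ^ 2 / (v - γ) ^ 2 := by
          gcongr
          linarith
      _ ≤ |(cv N β E x).re| := by linarith [neg_abs_le (cv N β E x).re]
      _ ≤ _ := Complex.abs_re_le_norm _
  have e4 : ‖cv N β E x‖ ≤ (J : ℝ) ^ 2 / (16 * e ^ 2) := by
    have f1 : (J : ℝ) ^ 2 / (u + γ) ^ 2 ≤ (J : ℝ) ^ 2 / (8 * e) ^ 2 := by
      gcongr
      linarith
    have f2 : 0 ≤ (J : ℝ) ^ 2 / (v - γ) ^ 2 := by positivity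
    have f3 : |(cv N β E x).re| ≤ (J : ℝ) ^ 2 / (8 * e) ^ 2 := abs_le.2 ⟨by linarith, by
      have : 0 ≤ (J : ℝ) ^ 2 / (8 * e) ^ 2 := by positivity
      linarith⟩
    have f4 := mul_le_mul_of_nonneg_right hh hQ.le
    have f5 : (J : ℝ) ^ 2 / (8 * e) ^ 2 + 1 / (32 * e ^ 2) * (J : ℝ) ^ 2 ≤
        (J : ℝ) ^ 2 / (16 * e ^ 2) := by
      have : 0 ≤ (J : ℝ) ^ 2 / e ^ 2 := by positivity
      calc _ = 3 / 64 * ((J : ℝ) ^ 2 / e ^ 2) := by ring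
        _ ≤ 1 / 16 * ((J : ℝ) ^ 2 / e ^ 2) := by linarith
        _ = _ := by ring
    linarith [Complex.norm_le_abs_re_add_abs_im (cv N β E x)]
  obtain ⟨e5, e6⟩ := hS.g2 _ e2 e3 e4
  rw [e1] at e5 e6
  have e7 : e ≤ φ := (div_le_div_iff_of_pos_right J0).1 e5
  have e8 : φ ≤ A := (div_le_div_iff_of_pos_right J0).1 e6
  have φ0 : 0 < φ := by linarith
  have e9 := abs_le.1 (gloc_re (gloc_pt1 hS hJ hN hn hσ hφ e7 e8)).1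
  have l1 := gloc_lo u0 (by linarith : u ≤ u + γ) (by linarith : u + γ ≤ a)
  have l2 := gloc_lo vγ (by linarith : v - γ ≤ v) (by linarith : v ≤ a)
  rw [add_sub_cancel_left] at l1
  rw [sub_sub_cancel] at l2
  have l3 := mul_le_mul_of_nonneg_right (hη.trans l1) hQ.le
  have l4 := mul_le_mul_of_nonneg_right (hη.trans l2) hQ.le
  have r1 : (1 / u ^ 2 - 1 / (u + γ) ^ 2) * (J : ℝ) ^ 2 =
      (J : ℝ) ^ 2 / u ^ 2 - (J : ℝ) ^ 2 / (u + γ) ^ 2 := by ring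
  have r2 : (1 / (v - γ) ^ 2 - 1 / v ^ 2) * (J : ℝ) ^ 2 =
      (J : ℝ) ^ 2 / (v - γ) ^ 2 - (J : ℝ) ^ 2 / v ^ 2 := by ring
  have l5 : (J : ℝ) ^ 2 / φ ^ 2 ≤ (J : ℝ) ^ 2 / u ^ 2 := by linarith [e9.2]
  have l6 : (J : ℝ) ^ 2 / v ^ 2 ≤ (J : ℝ) ^ 2 / φ ^ 2 := by linarith [e9.1]
  have v0 : 0 < v := by linarith
  rw [div_le_div_iff_of_pos_left hQ (by positivity) (by positivity)] at l5 l6
  have l7 := mul_le_mul_of_nonneg_left (le_of_sq_le_sq l5 φ0.le) n0.le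
  have l8 := mul_le_mul_of_nonneg_left (le_of_sq_le_sq l6 v0.le) n0.le
  rcases abs_cases (x - β) with h4 | h4
  · exact Or.inr ⟨by linarith [h4.1], by linarith [h4.1]⟩
  · exact Or.inl ⟨by linarith [h4.1], by linarith [h4.1]⟩

/-- The window. -/
theorem gloc_win {g γ e₀ : ℝ} (hJ : 2 ≤ J) (h1 : J ^ 2 ≤ N) (h2 : N ≤ 2 * J ^ 2 + 1)
    (hn : n = N / (2 * J)) (g0 : 0 < g) (g1 : g ≤ 1 / 2) (γ0 : 0 < γ) (e0 : 0 < e₀)
    (hb : 162 * (96 / (g * γ)) ^ 12 / e₀ ≤ J) (β : ℝ) :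
    ∃ (M : ℕ) (ϖ : ℝ), 2 * (M : ℝ) ≤ g * N ∧ ϖ * (2 * (N : ℝ) ^ 3) ≤ e₀ ∧ ∀ a b : ℝ,
      2 * (n * γ) ≤ b - a → b - a + 2 * (n * γ) ≤ N * π →
        ∃ κ s s', Win N β M a b (n * γ) ϖ κ s s' := by
  have J2 : (2 : ℝ) ≤ J := by exact_mod_cast hJ
  have N1 : (J : ℝ) ^ 2 ≤ N := by exact_mod_cast h1
  have N2 : (N : ℝ) ≤ 2 * (J : ℝ) ^ 2 + 1 := by exact_mod_cast h2
  have N4 : (4 : ℝ) ≤ N := by nlinarith
  have hN : 0 < N := by exact_mod_cast (by linarith : (0 : ℝ) < N)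
  have n1 : (J : ℝ) / 2 ≤ n := by
    rw [hn, le_div_iff₀ (by positivity)]
    linarith
  have n0 : 0 < n := by linarith
  have m0 : 0 < g * N / 12 := by positivity
  have m1 : 1 ≤ ⌈g * N / 12⌉₊ := Nat.ceil_pos.2 m0
  have m2 : g * N / 12 ≤ ⌈g * N / 12⌉₊ := Nat.le_ceil _
  have m3 : (⌈g * N / 12⌉₊ : ℝ) < g * N / 12 + 1 := Nat.ceil_lt_add_one m0.le
  generalize ⌈g * N / 12⌉₊ = m at m1 m2 m3
  have eM : ((6 * (m - 1) : ℕ) : ℝ) = 6 * (m - 1) := by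
    rw [Nat.cast_mul, Nat.cast_sub m1]
    norm_num
  refine ⟨6 * (m - 1), _, by rw [eM]; linarith, ?_, fun a b k1 k2 =>
    win_exists hN β 6 m1 (by positivity) k1 k2⟩
  have f1 : ((6 * (m - 1) : ℕ) : ℝ) + 1 ≤ 3 * (J : ℝ) ^ 2 := by
    have : g * N ≤ 1 / 2 * N := by gcongr
    rw [eM]
    nlinarith
  have f2 : (N : ℝ) ≤ 3 * (J : ℝ) ^ 2 := by nlinarith
  have f3 : 4 * N / (m * (n * γ)) ≤ 96 / (g * γ) / J := by
    calc 4 * N / (m * (n * γ)) ≤ 4 * N / (g * N / 12 * (J / 2 * γ)) := by gcongr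
      _ = _ := by
        field_simp
        norm_num
  have f4 : (J : ℝ) ≤ (J : ℝ) ^ 4 := le_self_pow₀ (by linarith) (by norm_num)
  calc _ ≤ 3 * (J : ℝ) ^ 2 * (96 / (g * γ) / J) ^ (2 * 6) * (2 * (3 * (J : ℝ) ^ 2) ^ 3) := by gcongr
    _ = 162 * (96 / (g * γ)) ^ 12 / e₀ * (e₀ / (J : ℝ) ^ 4) := by
      generalize 96 / (g * γ) = c
      rw [show 2 * 6 = 12 from rfl, div_pow]
      field_simp
      ring
    _ ≤ (J : ℝ) ^ 4 * (e₀ / (J : ℝ) ^ 4) := by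
      gcongr
      linarith
    _ = e₀ := by field_simp

/-- The conclusion of the estimate for the annulus. -/
def gloc_AN (f : ℝ → ℝ) (C ε Λ g e₀ : ℝ) : Prop :=
  ∀ (N M : ℕ) (β a b l ϖ R e t : ℝ)
    (E κ : Polynomial ℂ) (s s' W : ℝ → ℝ) (A B : ℂ), E.natDegree < N → SI N β E →
      InjOn (fun z => E.eval z) (ball 0 1) → Win N β M a b l ϖ κ s s' → 2 * (M : ℝ) ≤ g * N →
      2 * Λ ≤ N → 0 < l → 2 * l ≤ b - a → b - a + 2 * l ≤ N * π → 1 ≤ b - a → 1 ≤ |t| → 1 ≤ R →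
      ϖ * R ≤ e₀ → (∀ z : ℂ, ‖z‖ ≤ 1 → ‖E.eval z‖ ≤ R ∧ ‖E.derivative.eval z‖ ≤ R) →
      ‖A‖ ≤ R → ‖B‖ ≤ R → (B - A).re = t * (b - a) → e ≤ e₀ * (|t| * (b - a)) →
      (∀ x ∈ Set.Icc (a - l) (a + l), ‖cv N β E x - A‖ ≤ e) →
      (∀ x ∈ Set.Icc (b - l) (b + l), ‖cv N β E x - B‖ ≤ e) →
      Continuous W → (∀ x, |W x| ≤ C) →
      ∃ V : Set ℂ, MeasurableSet V ∧ V ⊆ Sec N β (Real.exp (-Λ / N)) (a - l) (b + l) ∧
        ENNReal.ofReal (-t * (∫ x in (a + l)..(b - l), W x * rho N β E x) +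
          t ^ 2 / 2 * ((b - a) * (Λ - 3 / 2 + (4 * (∫ x in (0 : ℝ)..π, f x * Real.cos x) -
            ∫ x in (0 : ℝ)..π, f x ^ 2) / π - ε) -
            ∫ x in (a + l)..(b - l), (W x ^ 2 - 2 * f x * W x))) ≤
          volume ((fun z => E.eval z) '' V)

theorem gloc_end (hS : Shape J e A h η σ E) (hJ : 0 < J) (hN : 0 < N) (hn : n = N / (2 * J))
    (hσ : 1 - σ / J ≤ 1) (e0 : 0 < e) {γ a p : ℝ} (ha : |a - β| = n * p) (h1 : e + γ ≤ p)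
    (h2 : p + γ ≤ A) (γ0 : 0 ≤ γ) (hR : (J : ℝ) ^ 2 / e ^ 2 ≤ 2 * (N : ℝ) ^ 3) :
    ‖((-((J : ℝ) ^ 2 / p ^ 2) : ℝ) : ℂ)‖ ≤ 2 * (N : ℝ) ^ 3 ∧
      ∀ x ∈ Set.Icc (a - n * γ) (a + n * γ),
        ‖cv N β E x - ((-((J : ℝ) ^ 2 / p ^ 2) : ℝ) : ℂ)‖ ≤ (η + 2 * γ / e ^ 3) * (J : ℝ) ^ 2 := by
  have J0 : (0 : ℝ) < J := by exact_mod_cast hJ
  have N0 : (0 : ℝ) < N := by exact_mod_cast hN
  have n0 : 0 < n := by rw [hn]; positivity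
  have p0 : 0 < p := by linarith
  constructor
  · rw [Complex.norm_real, norm_neg, Real.norm_of_nonneg (by positivity)]
    refine le_trans ?_ hR
    gcongr
    linarith
  · intro x hx
    obtain ⟨φ, hφ⟩ : ∃ φ, |x - β| = n * φ := ⟨|x - β| / n, by field_simp⟩
    have e1 : |p - φ| ≤ γ := by
      have f1 := abs_abs_sub_abs_le_abs_sub (a - β) (x - β)
      rw [ha, hφ, ← mul_sub, abs_mul, abs_of_pos n0, sub_sub_sub_cancel_right] at f1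
      exact le_of_mul_le_mul_left (f1.trans (abs_le.2 ⟨by linarith [hx.2], by linarith [hx.1]⟩)) n0
    have e2 := abs_le.1 e1
    have e3 := gloc_pt1 hS hJ hN hn hσ hφ (by linarith [e2.2]) (by linarith [e2.1])
    have e4 := gloc_hi e0 (by linarith : e ≤ p) (by linarith [e2.2] : e ≤ φ)
    rw [abs_sub_comm φ] at e4
    have e5 : 2 * |p - φ| / e ^ 3 ≤ 2 * γ / e ^ 3 := by gcongr
    have e6 : cv N β E x - ((-((J : ℝ) ^ 2 / p ^ 2) : ℝ) : ℂ) =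
        (cv N β E x + (((J : ℝ) ^ 2 / φ ^ 2 : ℝ) : ℂ)) +
          (((1 / p ^ 2 - 1 / φ ^ 2) * (J : ℝ) ^ 2 : ℝ) : ℂ) := by
      push_cast
      ring
    rw [e6, add_mul]
    refine (norm_add_le _ _).trans (add_le_add e3 ?_)
    rw [Complex.norm_real, Real.norm_eq_abs, abs_mul, abs_of_pos (by positivity : 0 < (J : ℝ) ^ 2)]
    exact mul_le_mul_of_nonneg_right (e4.trans e5) (by positivity)

theorem gloc_side {f : ℝ → ℝ} {C ε Λ g e₀ : ℝ} (hAN : gloc_AN f C ε Λ g e₀) (hE : Nice N β E)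
    (c1 : ‖E.coeff 1‖ = 1) (hS : Shape J e A h η σ E) (hJ : 0 < J) (hN : 0 < N)
    (hn : n = N / (2 * J)) (hσ : 1 - σ / J ≤ 1) (e0 : 0 < e) {M : ℕ} {ϖ γ L T : ℝ}
    (hM : 2 * (M : ℝ) ≤ g * N) (hϖ : ϖ * (2 * (N : ℝ) ^ 3) ≤ e₀)
    (hwin : ∀ a b : ℝ, 2 * (n * γ) ≤ b - a → b - a + 2 * (n * γ) ≤ N * π →
      ∃ κ s s', Win N β M a b (n * γ) ϖ κ s s') (hΛ : 2 * Λ ≤ N) (γ0 : 0 < γ)
    (L1 : 2 * (n * γ) ≤ L) (L2 : L + 2 * (n * γ) ≤ N * π) (L3 : 1 ≤ L) (T1 : 1 ≤ T)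
    (hR : (J : ℝ) ^ 2 / e ^ 2 ≤ 2 * (N : ℝ) ^ 3)
    (herr : (η + 2 * γ / e ^ 3) * (J : ℝ) ^ 2 ≤ e₀ * (T * L)) {a b p q t : ℝ} {W : ℝ → ℝ}
    (hab : b - a = L) (ha : |a - β| = n * p) (hb : |b - β| = n * q) (p1 : e + γ ≤ p)
    (p2 : p + γ ≤ A) (q1 : e + γ ≤ q) (q2 : q + γ ≤ A)
    (ht : (J : ℝ) ^ 2 / p ^ 2 - (J : ℝ) ^ 2 / q ^ 2 = t * L) (hT : |t| = T) (cW : Continuous W)
    (bW : ∀ x, |W x| ≤ C) :
    ∃ V : Set ℂ, MeasurableSet V ∧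
      V ⊆ Sec N β (Real.exp (-Λ / N)) (a - n * γ) (b + n * γ) ∧
        ENNReal.ofReal (-t * (∫ x in (a + n * γ)..(b - n * γ), W x * rho N β E x) +
          t ^ 2 / 2 * (L * (Λ - 3 / 2 + (4 * (∫ x in (0 : ℝ)..π, f x * Real.cos x) -
            ∫ x in (0 : ℝ)..π, f x ^ 2) / π - ε) -
            ∫ x in (a + n * γ)..(b - n * γ), (W x ^ 2 - 2 * f x * W x))) ≤
          volume ((fun z => E.eval z) '' V) := by
  have J0 : (0 : ℝ) < J := by exact_mod_cast hJ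
  have N1 : (1 : ℝ) ≤ N := by exact_mod_cast hN
  have n0 : 0 < n := by rw [hn]; positivity
  subst hab hT
  obtain ⟨κ, s, s', hW⟩ := hwin a b L1 L2
  obtain ⟨a1, a2⟩ := gloc_end hS hJ hN hn hσ e0 ha p1 p2 γ0.le hR
  obtain ⟨b1, b2⟩ := gloc_end hS hJ hN hn hσ e0 hb q1 q2 γ0.le hR
  have R1 : 1 ≤ 2 * (N : ℝ) ^ 3 := by linarith [one_le_pow₀ (n := 3) N1]
  refine hAN N M β a b (n * γ) ϖ _ _ t E κ s s' W _ _ hE.deg hE.si hE.inj hW hM hΛ (by positivity)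
    L1 L2 L3 T1 R1 hϖ (fun z hz => poly_le hE.deg hE.zero c1 hE.inj hz) a1 b1 ?_ herr a2 b2 cW bW
  rw [Complex.sub_re, Complex.ofReal_re, Complex.ofReal_re, ← ht]
  ring

theorem gloc_sec (hS : Shape J e A h η σ E) (hJ : 0 < J) (hN : 0 < N) (hn : n = N / (2 * J))
    {ρ u v γ a r x φ : ℝ} (hσ : 1 - σ / J ≤ ρ) (ρ0 : 0 < ρ) (e0 : 0 < e) (hu : e ≤ u) (hv : v ≤ A)
    (γ0 : 0 ≤ γ) (ha : A ≤ a) (haJ : a ≤ J) (η1 : η < 2 * γ / a ^ 3) (η2 : η < v - u)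
    (hr : r ∈ Set.Ioo ρ 1) (hx : |x - β| = n * φ) (h1 : u + γ ≤ φ) (h2 : φ ≤ v - γ) :
    ρ < ‖r * zc N β x‖ ∧ ‖r * zc N β x‖ < 1 ∧ E.eval (r * zc N β x) ∈ Box J u v ∧
      (β < x → 0 < (r * zc N β x).im) ∧ (x < β → (r * zc N β x).im < 0) := by
  have J0 : (0 : ℝ) < J := by exact_mod_cast hJ
  have N0 : (0 : ℝ) < N := by exact_mod_cast hN
  have r0 : 0 < r := ρ0.trans hr.1
  have e1 : ‖r * zc N β x‖ = r := by
    rw [norm_mul, zc_norm, mul_one, Complex.norm_real, Real.norm_of_nonneg r0.le]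
  have e2 : (r * zc N β x).im = r * Real.sin (2 * (x - β) / N) := by
    rw [Complex.im_ofReal_mul, zc, eI_im]
  have e3 : |2 * (x - β) / N| < π := by
    rw [gloc_theta hJ hN hn hx]
    have : φ / J ≤ 1 := (div_le_one J0).2 (by linarith)
    linarith [Real.two_le_pi]
  rw [abs_lt] at e3
  rw [e1, e2]
  refine ⟨hr.1, hr.2, gloc_mem ((gloc_pt hS hJ hN hn hx (by linarith) (by linarith)).1 r
    (hσ.trans hr.1.le) hr.2.le) hJ (by linarith) γ0 h1 h2 (hv.trans ha) η1 η2, fun h => ?_,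
    fun h => ?_⟩
  · exact mul_pos r0 (Real.sin_pos_of_pos_of_lt_pi (div_pos (by linarith) N0) e3.2)
  · exact mul_neg_of_pos_of_neg r0 (Real.sin_neg_of_neg_of_neg_pi_lt
      (div_neg_of_neg_of_pos (by linarith) N0) e3.1)

theorem gloc_core (hE : Nice N β E) (hS : Shape J e A h η σ E) (hJ : 0 < J) (h1 : J ^ 2 ≤ N)
    (hn : n = N / (2 * J)) (hσ : 1 - σ / J ≤ 1) {u v γ a C x φ : ℝ} (e0 : 0 < e) (hu : e ≤ u)
    (hv : v ≤ A) (γ0 : 0 < γ) (ha : A ≤ a) (η0 : 0 ≤ η) (C1 : 1 ≤ C) (η1 : η < h)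
    (η2 : 3 * (η * C) ≤ γ / a ^ 3) (η3 : 3 * (η * C) < v - u) (hh : C * h ≤ γ / a ^ 3)
    (hx : |x - β| = n * φ) (x1 : u + 3 * γ ≤ φ) (x2 : φ ≤ v - 3 * γ) :
    |(cv N β E x).im| < h * (J : ℝ) ^ 2 ∧
      -((J : ℝ) ^ 2 / (u + γ) ^ 2) + C * (h * (J : ℝ) ^ 2) < (cv N β E x).re ∧
      (cv N β E x).re < -((J : ℝ) ^ 2 / (v - γ) ^ 2) - C * (h * (J : ℝ) ^ 2) ∧
      |rho N β E x| ≤ 2 * η * (J : ℝ) ^ 2 ∧
      closedBall (cv N β E x) (2 * η * (J : ℝ) ^ 2 * C) ⊆ Box J u v := by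
  have J0 : (0 : ℝ) < J := by exact_mod_cast hJ
  have hN : 0 < N := (pow_pos hJ 2).trans_le h1
  have N1 : (J : ℝ) ^ 2 ≤ N := by exact_mod_cast h1
  have hQ : (0 : ℝ) < (J : ℝ) ^ 2 := by positivity
  have a0 : 0 < a := by linarith
  have g0 : 0 < γ / a ^ 3 := by positivity
  have η4 : η ≤ η * C := le_mul_of_one_le_right η0 C1
  have e1 := gloc_pt1 hS hJ hN hn hσ hx (by linarith) (by linarith)
  have e2 := (gloc_pt hS hJ hN hn hx (by linarith) (by linarith)).2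
  obtain ⟨e3, e4, e5⟩ := gloc_lev (m := C * h) (p := u + γ) (q := v - γ) (d := 2 * γ) (a := a) e1 hQ
    (by linarith) (by linarith) (by linarith) (by linarith) (by linarith) (by
      rw [show 2 * (2 * γ) / a ^ 3 = 4 * (γ / a ^ 3) by ring]
      linarith)
  refine ⟨e5.trans_lt (mul_lt_mul_of_pos_right η1 hQ), by linarith, by linarith, ?_, fun w hw => ?_⟩
  · rw [hE.si.rho_abs hE.deg]
    calc _ ≤ 2 / (J : ℝ) ^ 2 * (η * (J : ℝ) ^ 4) := by gcongr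
      _ = _ := by field_simp
  · refine gloc_mem (δ := 3 * (η * C)) (d := 3 * γ) (a := a) (φ := φ) ?_ hJ (by linarith)
      (by linarith) x1 x2 (hv.trans ha) (by
        rw [show 2 * (3 * γ) / a ^ 3 = 6 * (γ / a ^ 3) by ring]
        linarith) η3
    have f1 := mem_closedBall_iff_norm.1 hw
    have f2 := norm_add_le (w - cv N β E x) (cv N β E x + (((J : ℝ) ^ 2 / φ ^ 2 : ℝ) : ℂ))
    rw [← add_assoc, sub_add_cancel] at f2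
    have f3 := mul_le_mul_of_nonneg_right η4 hQ.le
    linarith

end

/-- Three disjoint pieces. -/
theorem gloc_meas {F : ℂ → ℂ} (hF : Continuous F) (hi : InjOn F (ball 0 1)) {ρ : ℝ} (hρ : ρ < 1)
    {V₁ V₂ B : Set ℂ} (m₂ : MeasurableSet V₂) (mB : MeasurableSet B)
    (h₁ : ∀ z ∈ V₁, ρ < ‖z‖ ∧ ‖z‖ < 1 ∧ z.im < 0 ∧ F z ∈ B)
    (h₂ : ∀ z ∈ V₂, ρ < ‖z‖ ∧ ‖z‖ < 1 ∧ 0 < z.im ∧ F z ∈ B) {x₁ x₂ x₃ x : ℝ}
    (e₁ : ENNReal.ofReal x₁ ≤ volume (F '' V₁)) (e₂ : ENNReal.ofReal x₂ ≤ volume (F '' V₂))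
    (e₃ : ENNReal.ofReal x₃ ≤ volume (B \ F '' ball 0 1)) (hx : x ≤ x₁ + x₂ + x₃) :
    ENNReal.ofReal x ≤ volume (B \ F '' closedBall 0 ρ) := by
  have s₁ : V₁ ⊆ ball 0 1 := fun z hz => mem_ball_zero_iff.2 (h₁ z hz).2.1
  have s₂ : V₂ ⊆ ball 0 1 := fun z hz => mem_ball_zero_iff.2 (h₂ z hz).2.1
  have s₀ : closedBall (0 : ℂ) ρ ⊆ ball 0 1 := closedBall_subset_ball hρ
  have k₂ : MeasurableSet (F '' V₂) :=
    m₂.image_of_continuousOn_injOn hF.continuousOn (hi.mono s₂)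
  have k₃ : MeasurableSet (B \ F '' ball 0 1) :=
    mB.diff (measurableSet_ball.image_of_continuousOn_injOn hF.continuousOn hi)
  have d₁ : Disjoint (F '' V₁) (F '' V₂) := by
    rw [Set.disjoint_left]
    rintro _ ⟨z, hz, rfl⟩ ⟨z', hz', e⟩
    have := hi (s₂ hz') (s₁ hz) e
    subst this
    exact lt_asymm (h₁ _ hz).2.2.1 (h₂ _ hz').2.2.1
  have d₂ : Disjoint (F '' V₁ ∪ F '' V₂) (B \ F '' ball 0 1) :=
    Set.disjoint_left.2 fun w hw hw' =>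
      hw'.2 (hw.elim (fun h => image_mono s₁ h) fun h => image_mono s₂ h)
  have key : ∀ z, ρ < ‖z‖ → ‖z‖ < 1 → F z ∉ F '' closedBall 0 ρ := by
    rintro z h1 h2 ⟨z', hz', e⟩
    have := hi (s₀ hz') (mem_ball_zero_iff.2 h2) e
    subst this
    exact h1.not_ge (mem_closedBall_zero_iff.1 hz')
  calc ENNReal.ofReal x ≤ ENNReal.ofReal (x₁ + x₂ + x₃) := ENNReal.ofReal_le_ofReal hx
    _ ≤ ENNReal.ofReal x₁ + ENNReal.ofReal x₂ + ENNReal.ofReal x₃ :=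
      ENNReal.ofReal_add_le.trans (add_le_add ENNReal.ofReal_add_le le_rfl)
    _ ≤ volume (F '' V₁) + volume (F '' V₂) + volume (B \ F '' ball 0 1) := by gcongr
    _ = volume (F '' V₁ ∪ F '' V₂ ∪ (B \ F '' ball 0 1)) := by
      rw [measure_union d₂ k₃, measure_union d₁ k₂]
    _ ≤ _ := by
      refine measure_mono ?_
      rintro w ((⟨z, hz, rfl⟩ | ⟨z, hz, rfl⟩) | hw)
      · exact ⟨(h₁ z hz).2.2.2, key z (h₁ z hz).1 (h₁ z hz).2.1⟩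
      · exact ⟨(h₂ z hz).2.2.2, key z (h₂ z hz).1 (h₂ z hz).2.1⟩
      · exact ⟨hw.1, fun h => hw.2 (image_mono s₀ h)⟩

theorem gloc_box_meas (J : ℕ) (u v : ℝ) : MeasurableSet (Box J u v) := by
  refine IsOpen.measurableSet ?_
  exact (isOpen_lt continuous_const Complex.continuous_re).inter
    ((isOpen_lt Complex.continuous_re continuous_const).inter
      (isOpen_lt Complex.continuous_im.abs continuous_const))

theorem gloc_arith {Λ S ε m Φ μ C τ γ n T X K : ℝ} (hm : m = 3 / 2 + S - Φ / π + 2 * μ / π)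
    (hε : 0 < ε) (hτ : 0 < τ) (γ0 : 0 ≤ γ) (n0 : 0 < n)
    (hK : 4 * (Λ - 3 / 2 + m - ε / 5) + 6 * (Φ / π - ε / 5) ≤ K) (hγ : γ * K ≤ τ * ε / 5)
    (hC : C ≤ 2 * n * (τ * ε / 5)) (h0 : 0 ≤ Λ + S - ε) (hT : X ≤ T ^ 2 * n * τ) :
    (Λ + S - ε) * X ≤ T ^ 2 / 2 * (2 * (n * (τ - 4 * γ) * (Λ - 3 / 2 + m - ε / 5)) +
      (2 * (n * (τ - 6 * γ)) * (Φ / π - ε / 5) - 4 * (μ + ε / 5) * (n * τ) / π - C)) := by
  have h1 : 1 / π ≤ 1 / 2 := one_div_le_one_div_of_le two_pos Real.two_le_pi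
  have h2 := mul_le_mul_of_nonneg_left hK γ0
  have h3 : τ * ε * (1 / π) ≤ τ * ε * (1 / 2) := by gcongr
  have h4 : τ * (Λ + S - ε) + τ * ε / 5 ≤ (τ - 4 * γ) * (Λ - 3 / 2 + m - ε / 5) +
      (τ - 6 * γ) * (Φ / π - ε / 5) - 2 * (μ + ε / 5) * τ / π := by
    have e : (τ - 4 * γ) * (Λ - 3 / 2 + m - ε / 5) + (τ - 6 * γ) * (Φ / π - ε / 5) -
        2 * (μ + ε / 5) * τ / π = τ * (Λ + S - 2 * ε / 5) - 2 / 5 * (τ * ε * (1 / π)) -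
          γ * (4 * (Λ - 3 / 2 + m - ε / 5) + 6 * (Φ / π - ε / 5)) := by
      rw [hm]
      ring
    rw [e]
    linarith
  have h5 := mul_le_mul_of_nonneg_left h4 (by positivity : 0 ≤ 2 * n)
  calc (Λ + S - ε) * X ≤ (Λ + S - ε) * (T ^ 2 * n * τ) := by gcongr
    _ = T ^ 2 / 2 * (2 * n * (τ * (Λ + S - ε))) := by ring
    _ ≤ _ := by
      refine mul_le_mul_of_nonneg_left ?_ (by positivity)
      have e : 4 * (μ + ε / 5) * (n * τ) / π = 2 * n * (2 * (μ + ε / 5) * τ / π) := by ring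
      rw [e]
      linarith

/-- The conclusion of the estimate for the omitted area. -/
def gloc_OM (f : ℝ → ℝ) (μ Φ₀ ε C₃ : ℝ) : Prop :=
  ∀ (N : ℕ) (c : ℝ → ℂ) (ρ : ℝ → ℝ) (Ω B : Set ℂ)
    (cl : ℝ → Option (Fin (N - 2))) (G : Fin (N - 2) → ℝ → ℝ)
    (a₁ b₁ a₂ b₂ d₁ d₂ l lo hi h R t : ℝ), 3 ≤ N → Crv c ρ → Cells N c Ω cl G →
      a₁ ≤ b₁ → b₁ ≤ a₂ → a₂ ≤ b₂ → b₂ < a₁ + N * π → 0 ≤ l → 0 < h →
      (∀ ξ ∈ Set.Icc lo hi, (ξ : ℂ) + h * I ∈ Ω ∧ (ξ : ℂ) - h * I ∈ Ω) →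
      (∀ x ∈ Set.Icc a₁ b₁ ∪ Set.Icc a₂ b₂, |(c x).im| < h ∧ lo + C₃ * h < (c x).re ∧
        (c x).re < hi - C₃ * h ∧ |ρ x| ≤ R ∧ closedBall (c x) (R * C₃) ⊆ B) →
      (∀ y, lo ≤ (c y).re → (c y).re ≤ hi → |(c y).im| ≤ h →
        ∃ k : ℤ, y + k * (N * π) ∈ Set.Icc d₁ (d₁ + l) ∪ Set.Icc d₂ (d₂ + l)) →
      ∃ W₁ W₂ : ℝ → ℝ, Continuous W₁ ∧ Continuous W₂ ∧ (∀ x, |W₁ x| ≤ C₃) ∧ (∀ x, |W₂ x| ≤ C₃) ∧
        ENNReal.ofReal (-t * (∫ x in a₁..b₁, W₁ x * ρ x) + t * (∫ x in a₂..b₂, W₂ x * ρ x) +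
          t ^ 2 / 2 * ((∫ x in a₁..b₁, (W₁ x ^ 2 - 2 * f x * W₁ x)) +
            (∫ x in a₂..b₂, (W₂ x ^ 2 - 2 * f x * W₂ x)) +
            ((b₁ - a₁ + (b₂ - a₂)) * (Φ₀ / π - ε) - 4 * (μ + ε) * l / π - C₃))) ≤
          volume (B \ Ω)

theorem gloc_abs {β n φ x : ℝ} (n0 : 0 < n) (h : 0 ≤ φ) (hx : x = β + n * φ ∨ x = β - n * φ) :
    |x - β| = n * φ := by
  have : 0 ≤ n * φ := by positivity
  rcases hx with rfl | rfl
  · rw [add_sub_cancel_left, abs_of_nonneg this]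
  · rw [sub_sub_cancel_left, abs_neg, abs_of_nonneg this]

theorem gloc_pos {β n p q x : ℝ} (n0 : 0 < n) (p0 : 0 < p) (h1 : β + n * p ≤ x)
    (h2 : x ≤ β + n * q) : ∃ φ, |x - β| = n * φ ∧ p ≤ φ ∧ φ ≤ q ∧ β < x := by
  have h3 : 0 < n * p := by positivity
  have e : x - β = n * ((x - β) / n) := by field_simp
  refine ⟨(x - β) / n, by rw [abs_of_pos (by linarith), ← e], ?_, ?_, by linarith⟩
  · rw [le_div_iff₀ n0]
    linarith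
  · rw [div_le_iff₀ n0]
    linarith

theorem gloc_neg {β n p q x : ℝ} (n0 : 0 < n) (p0 : 0 < p) (h1 : β - n * q ≤ x)
    (h2 : x ≤ β - n * p) : ∃ φ, |x - β| = n * φ ∧ p ≤ φ ∧ φ ≤ q ∧ x < β := by
  have h3 : 0 < n * p := by positivity
  have e : β - x = n * ((β - x) / n) := by field_simp
  refine ⟨(β - x) / n, by rw [abs_sub_comm, abs_of_pos (by linarith), ← e], ?_, ?_, by linarith⟩
  · rw [le_div_iff₀ n0]
    linarith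
  · rw [div_le_iff₀ n0]
    linarith

theorem gloc_om {J N : ℕ} {β e A h η σ n : ℝ} {E : Polynomial ℂ} {f : ℝ → ℝ} {μ Φ₀ ε C : ℝ}
    (hOM : gloc_OM f μ Φ₀ ε C) (hE : Nice N β E) (hS : Shape J e A h η σ E) (hJ : 2 ≤ J)
    (h1 : J ^ 2 ≤ N) (hn : n = N / (2 * J)) (hσ : 1 - σ / J ≤ 1) {u v γ a : ℝ} (e0 : 0 < e)
    (hu : 8 * e ≤ u) (hv : v ≤ A / 8) (γ0 : 0 < γ) (γ1 : 6 * γ ≤ v - u) (ha : A ≤ a) (haJ : a ≤ J)
    (η0 : 0 ≤ η) (C1 : 1 ≤ C) (η1 : η < h) (η2 : 3 * (η * C) ≤ γ / a ^ 3)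
    (η3 : 3 * (η * C) < v - u) (hh : C * h ≤ γ / a ^ 3) (hh' : h ≤ 1 / (32 * e ^ 2)) (t : ℝ)
    {a₁ b₁ a₂ b₂ : ℝ} (ea₁ : a₁ = β - n * (v - 3 * γ)) (eb₁ : b₁ = β - n * (u + 3 * γ))
    (ea₂ : a₂ = β + n * (u + 3 * γ)) (eb₂ : b₂ = β + n * (v - 3 * γ)) :
    ∃ W₁ W₂ : ℝ → ℝ, Continuous W₁ ∧ Continuous W₂ ∧ (∀ x, |W₁ x| ≤ C) ∧ (∀ x, |W₂ x| ≤ C) ∧
      ENNReal.ofReal (-t * (∫ x in a₁..b₁, W₁ x * rho N β E x) +
        t * (∫ x in a₂..b₂, W₂ x * rho N β E x) +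
        t ^ 2 / 2 * ((∫ x in a₁..b₁, (W₁ x ^ 2 - 2 * f x * W₁ x)) +
          (∫ x in a₂..b₂, (W₂ x ^ 2 - 2 * f x * W₂ x)) +
          (2 * (n * (v - u - 6 * γ)) * (Φ₀ / π - ε) - 4 * (μ + ε) * (n * (v - u)) / π - C))) ≤
        volume (Box J u v \ (fun z => E.eval z) '' ball 0 1) := by
  have hJ0 : 0 < J := by omega
  have N3 : 3 ≤ N := by nlinarith
  have hN : 0 < N := by omega
  have J0 : (0 : ℝ) < J := by exact_mod_cast hJ0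
  have N0 : (0 : ℝ) < N := by exact_mod_cast hN
  have n0 : 0 < n := by rw [hn]; positivity
  have hQ : (0 : ℝ) < (J : ℝ) ^ 2 := by positivity
  have eN : (N : ℝ) = 2 * (n * J) := by rw [hn]; field_simp
  have h0 : 0 < h := η0.trans_lt η1
  have a0 : 0 < a := by linarith
  have g0 : 0 < γ / a ^ 3 := by positivity
  have η4 : η ≤ η * C := le_mul_of_one_le_right η0 C1
  have k1 := mul_le_mul_of_nonneg_left γ1 n0.le
  have k2 : 0 < n * (u + 3 * γ) := mul_pos n0 (by linarith)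
  have k3 : n * (v - 3 * γ) < n * J := mul_lt_mul_of_pos_left (by linarith) n0
  have k4 : (N : ℝ) * 1 ≤ N * π := mul_le_mul_of_nonneg_left (by linarith [Real.two_le_pi]) N0.le
  obtain ⟨cl, G, hc⟩ := hE.cells
  have key := hOM N (cv N β E) (rho N β E) _ (Box J u v) cl G a₁ b₁ a₂ b₂ (β - n * v) (β + n * u)
    (n * (v - u)) (-((J : ℝ) ^ 2 / (u + γ) ^ 2)) (-((J : ℝ) ^ 2 / (v - γ) ^ 2)) (h * (J : ℝ) ^ 2)
    (2 * η * (J : ℝ) ^ 2) t N3 (hE.si.crv hE.deg) hc (by linarith) (by linarith) (by linarith)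
    (by linarith) (mul_nonneg n0.le (by linarith)) (by positivity) ?_ ?_
    (gloc_ext hS hJ0 hN hn hσ e0 hu hv γ0.le (by linarith) ha hh' (by
      rw [show 2 * γ / a ^ 3 = 2 * (γ / a ^ 3) by ring]
      linarith))
  · rwa [show b₁ - a₁ + (b₂ - a₂) = 2 * (n * (v - u - 6 * γ)) by rw [ea₁, eb₁, ea₂, eb₂]; ring]
      at key
  · intro ξ hξ
    have f1 : (J : ℝ) ^ 2 / (u + γ) ^ 2 ≤ (J : ℝ) ^ 2 / e ^ 2 := by
      gcongr
      linarith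
    have f2 : 0 ≤ (J : ℝ) ^ 2 / (v - γ) ^ 2 := by positivity
    have f3 : 0 ≤ (J : ℝ) ^ 2 / e ^ 2 := by positivity
    have f4 : |ξ| ≤ (J : ℝ) ^ 2 / e ^ 2 := abs_le.2 ⟨by linarith [hξ.1], by linarith [hξ.2]⟩
    have f5 : |h * (J : ℝ) ^ 2| = h * (J : ℝ) ^ 2 := abs_of_pos (by positivity)
    refine ⟨hS.g4 _ ?_ ?_, hS.g4 _ ?_ ?_⟩
    · rwa [Complex.add_re, Complex.ofReal_re, Complex.mul_I_re, Complex.ofReal_im, neg_zero,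
        add_zero]
    · rwa [Complex.add_im, Complex.ofReal_im, Complex.mul_I_im, Complex.ofReal_re, zero_add]
    · rwa [Complex.sub_re, Complex.ofReal_re, Complex.mul_I_re, Complex.ofReal_im, neg_zero,
        sub_zero]
    · rwa [Complex.sub_im, Complex.ofReal_im, Complex.mul_I_im, Complex.ofReal_re, zero_sub,
        abs_neg]
  · rintro x (hx | hx)
    · obtain ⟨φ, e1, e2, e3, -⟩ := gloc_neg n0 (by linarith) (ea₁ ▸ hx.1) (eb₁ ▸ hx.2)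
      exact gloc_core hE hS hJ0 h1 hn hσ e0 (by linarith) (by linarith) γ0 ha η0 C1 η1 η2 η3 hh
        e1 e2 e3
    · obtain ⟨φ, e1, e2, e3, -⟩ := gloc_pos n0 (by linarith) (ea₂ ▸ hx.1) (eb₂ ▸ hx.2)
      exact gloc_core hE hS hJ0 h1 hn hσ e0 (by linarith) (by linarith) γ0 ha η0 C1 η1 η2 η3 hh
        e1 e2 e3

theorem gloc_main {J N : ℕ} {β e A h η σ : ℝ} {E : Polynomial ℂ} {f : ℝ → ℝ}
    {μ Φ₀ ε C Λ g e₀ S K : ℝ} (hAN : gloc_AN f C (ε / 5) Λ g e₀) (hOM : gloc_OM f μ Φ₀ (ε / 5) C)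
    (hm : (4 * (∫ x in (0 : ℝ)..π, f x * Real.cos x) - ∫ x in (0 : ℝ)..π, f x ^ 2) / π =
      3 / 2 + S - Φ₀ / π + 2 * μ / π)
    (hK : 4 * (Λ - 3 / 2 + (3 / 2 + S - Φ₀ / π + 2 * μ / π) - ε / 5) + 6 * (Φ₀ / π - ε / 5) ≤ K)
    (hε : 0 < ε) (Λ1 : 1 ≤ Λ) (g0 : 0 < g) (g1 : g ≤ 1 / 2) (he₀ : 0 < e₀) (C1 : 1 ≤ C)
    (hE : Nice N β E) (c1 : ‖E.coeff 1‖ = 1) (hS : Shape J e A h η σ E) (hJ : 2 ≤ J)
    (h1 : J ^ 2 ≤ N) (h2 : N ≤ 2 * J ^ 2 + 1) (hσ : 1 - σ / J ≤ Real.exp (-Λ / N))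
    {u τ γ a : ℝ} (e0 : 0 < e) (hτ : 0 < τ) (hu : 8 * e ≤ u) (hv : u + τ ≤ A / 8) (ha : A ≤ a)
    (γ0 : 0 < γ) (γ1 : 6 * γ ≤ τ) (γ2 : 2 * γ / e ^ 3 ≤ e₀ * τ / (3 * a ^ 3))
    (γ3 : γ * K ≤ τ * ε / 5) (hh : C * h ≤ γ / a ^ 3) (hh' : h ≤ 1 / (32 * e ^ 2)) (η0 : 0 ≤ η)
    (η1 : η < h) (η2 : 3 * (η * C) ≤ γ / a ^ 3) (η3 : 3 * (η * C) < τ)
    (η4 : η ≤ e₀ * τ / (3 * a ^ 3)) (j1 : a ≤ J) (j2 : 2 * Λ ≤ J) (j3 : 6 / τ ≤ J) (j4 : a ^ 3 ≤ J)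
    (j5 : 162 * (96 / (g * γ)) ^ 12 / e₀ ≤ J) (j6 : 1 / e ^ 2 ≤ J) (j7 : 5 * C / (τ * ε) ≤ J)
    (h0 : 0 ≤ Λ + S - ε) :
    ENNReal.ofReal ((Λ + S - ε) * (8 * τ * (J : ℝ) ^ 5 / (N * (u + τ) ^ 6))) ≤
      volume (Box J u (u + τ) \ (fun z => E.eval z) '' closedBall 0 (Real.exp (-Λ / N))) := by
  have hJ0 : 0 < J := by omega
  have hN : 0 < N := (pow_pos hJ0 2).trans_le h1
  have J2 : (2 : ℝ) ≤ J := by exact_mod_cast hJ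
  have N0 : (0 : ℝ) < N := by exact_mod_cast hN
  have N1 : (J : ℝ) ^ 2 ≤ N := by exact_mod_cast h1
  have N2 : (N : ℝ) ≤ 2 * (J : ℝ) ^ 2 + 1 := by exact_mod_cast h2
  have JN : (J : ℝ) ≤ N := by nlinarith only [J2, N1]
  obtain ⟨n, hn⟩ : ∃ n : ℝ, n = N / (2 * J) := ⟨_, rfl⟩
  have n1 : (J : ℝ) / 2 ≤ n := by
    rw [hn, le_div_iff₀ (by positivity)]
    linarith
  have n2 : n ≤ 2 * J := by
    rw [hn, div_le_iff₀ (by positivity)]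
    nlinarith only [J2, N2]
  have n0 : 0 < n := by linarith
  have eN : (N : ℝ) = 2 * (n * J) := by rw [hn]; field_simp
  obtain ⟨v, rfl⟩ : ∃ v, τ = v - u := ⟨u + τ, by ring⟩
  rw [add_sub_cancel] at hv ⊢
  have u0 : 0 < u := by linarith
  have v0 : 0 < v := by linarith
  have a0 : 0 < a := by linarith
  have va : v ≤ a := by linarith
  have ρ1 : Real.exp (-Λ / N) < 1 := by
    rw [Real.exp_lt_one_iff]
    exact div_neg_of_neg_of_pos (by linarith) N0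
  have hσ1 : 1 - σ / J ≤ 1 := hσ.trans ρ1.le
  obtain ⟨M, ϖ, hM, hϖ, hwin⟩ := gloc_win hJ h1 h2 hn g0 g1 γ0 he₀ j5 β
  obtain ⟨L, hL⟩ : ∃ L, L = n * (v - u - 4 * γ) := ⟨_, rfl⟩
  have L0 : n * ((v - u) / 3) ≤ L := by
    rw [hL]
    exact mul_le_mul_of_nonneg_left (by linarith) n0.le
  have L3 : 1 ≤ L := by
    have f1 : 6 ≤ J * (v - u) := (div_le_iff₀ hτ).1 j3
    have f2 : J / 2 * ((v - u) / 3) ≤ n * ((v - u) / 3) := by gcongr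
    linarith
  have L1 : 2 * (n * γ) ≤ L := by
    have := mul_le_mul_of_nonneg_left γ1 n0.le
    linarith
  have L2 : L + 2 * (n * γ) ≤ N * π := by
    have f1 : (N : ℝ) * 1 ≤ N * π :=
      mul_le_mul_of_nonneg_left (by linarith [Real.two_le_pi]) N0.le
    have f2 : n * (v - u - 2 * γ) ≤ n * J := mul_le_mul_of_nonneg_left (by linarith) n0.le
    have f3 : 0 < n * J := by positivity
    linarith
  obtain ⟨T, hT⟩ : ∃ T, (J : ℝ) ^ 2 / (u + 2 * γ) ^ 2 - (J : ℝ) ^ 2 / (v - 2 * γ) ^ 2 = T * L :=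
    ⟨_, (div_mul_cancel₀ _ (by linarith)).symm⟩
  have T0 : 2 * (J : ℝ) ^ 2 / (n * v ^ 3) ≤ T := by
    have f1 := gloc_lo (p := u + 2 * γ) (q := v - 2 * γ) (a := v) (by linarith) (by linarith)
      (by linarith)
    have f2 := mul_le_mul_of_nonneg_left f1 (by positivity : 0 ≤ (J : ℝ) ^ 2)
    refine le_of_mul_le_mul_right ?_ (by linarith : 0 < L)
    calc _ = (J : ℝ) ^ 2 * (2 * (v - 2 * γ - (u + 2 * γ)) / v ^ 3) := by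
          rw [hL]
          field_simp
          ring
      _ ≤ _ := f2
      _ = _ := by
        rw [← hT]
        ring
  have T2 : 2 * (J : ℝ) ^ 2 / (n * a ^ 3) ≤ T := le_trans (by gcongr) T0
  have T1 : 1 ≤ T := by
    refine le_trans ?_ T2
    rw [le_div_iff₀ (by positivity)]
    calc 1 * (n * a ^ 3) ≤ 1 * (2 * J * J) := by gcongr
      _ = _ := by ring
  have hR : (J : ℝ) ^ 2 / e ^ 2 ≤ 2 * (N : ℝ) ^ 3 := by
    calc (J : ℝ) ^ 2 / e ^ 2 = (J : ℝ) ^ 2 * (1 / e ^ 2) := by ring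
      _ ≤ (N : ℝ) ^ 2 * N := by
        gcongr
        exact j6.trans JN
      _ ≤ _ := by nlinarith only [pow_pos N0 3]
  have herr : (η + 2 * γ / e ^ 3) * (J : ℝ) ^ 2 ≤ e₀ * (T * L) := by
    calc _ ≤ (e₀ * (v - u) / (3 * a ^ 3) + e₀ * (v - u) / (3 * a ^ 3)) * (J : ℝ) ^ 2 := by gcongr
      _ = e₀ * (2 * (J : ℝ) ^ 2 / (n * a ^ 3) * (n * ((v - u) / 3))) := by
        field_simp
        ring
      _ ≤ _ := by gcongr
  obtain ⟨W₁, W₂, cW₁, cW₂, bW₁, bW₂, e₃⟩ := gloc_om hOM hE hS hJ h1 hn hσ1 e0 hu hv γ0 γ1 ha j1 η0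
    C1 η1 η2 η3 hh hh' T (a₁ := β - n * (v - 2 * γ) + n * γ) (b₁ := β - n * (u + 2 * γ) - n * γ)
    (a₂ := β + n * (u + 2 * γ) + n * γ) (b₂ := β + n * (v - 2 * γ) - n * γ) (by ring) (by ring)
    (by ring) (by ring)
  have p0 : 0 ≤ u + 2 * γ := by linarith
  have q0 : 0 ≤ v - 2 * γ := by linarith
  obtain ⟨V₁, -, s₁, e₁⟩ := gloc_side hAN hE c1 hS hJ0 hN hn hσ1 e0 hM hϖ hwin (j2.trans JN) γ0 L1
    L2 L3 T1 hR herr (a := β - n * (v - 2 * γ)) (b := β - n * (u + 2 * γ)) (t := -T)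
    (by rw [hL]; ring) (gloc_abs n0 q0 (Or.inr rfl)) (gloc_abs n0 p0 (Or.inr rfl))
    (by linarith) (by linarith) (by linarith) (by linarith) (by linarith)
    (by rw [abs_neg, abs_of_pos (by linarith)]) cW₁ bW₁
  obtain ⟨V₂, m₂, s₂, e₂⟩ := gloc_side hAN hE c1 hS hJ0 hN hn hσ1 e0 hM hϖ hwin (j2.trans JN) γ0 L1
    L2 L3 T1 hR herr (a := β + n * (u + 2 * γ)) (b := β + n * (v - 2 * γ)) (t := T)
    (by rw [hL]; ring) (gloc_abs n0 p0 (Or.inl rfl)) (gloc_abs n0 q0 (Or.inl rfl))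
    (by linarith) (by linarith) (by linarith) (by linarith) hT
    (abs_of_pos (by linarith)) cW₂ bW₂
  have g2 : 0 < γ / a ^ 3 := by positivity
  have η5 : η ≤ η * C := le_mul_of_one_le_right η0 C1
  have η6 : η < 2 * γ / a ^ 3 := by
    rw [show 2 * γ / a ^ 3 = 2 * (γ / a ^ 3) by ring]
    linarith
  have η7 : η < v - u := by linarith
  refine gloc_meas E.continuous hE.inj ρ1 m₂ (gloc_box_meas J u v) (fun z hz => ?_)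
    (fun z hz => ?_) e₁ e₂ e₃ ?_
  · obtain ⟨r, hr, x, hx, rfl⟩ := s₁ hz
    obtain ⟨φ, f1, f2, f3, f4⟩ := gloc_neg (β := β) (p := u + γ) (q := v - γ) (x := x) n0
      (by linarith) (by linarith only [hx.1]) (by linarith only [hx.2])
    obtain ⟨f5, f6, f7, -, f8⟩ := gloc_sec hS hJ0 hN hn hσ (Real.exp_pos _) e0 (by linarith)
      (by linarith) γ0.le ha j1 η6 η7 hr f1 f2 f3
    exact ⟨f5, f6, f8 f4, f7⟩
  · obtain ⟨r, hr, x, hx, rfl⟩ := s₂ hz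
    obtain ⟨φ, f1, f2, f3, f4⟩ := gloc_pos (β := β) (p := u + γ) (q := v - γ) (x := x) n0
      (by linarith) (by linarith only [hx.1]) (by linarith only [hx.2])
    obtain ⟨f5, f6, f7, f8, -⟩ := gloc_sec hS hJ0 hN hn hσ (Real.exp_pos _) e0 (by linarith)
      (by linarith) γ0.le ha j1 η6 η7 hr f1 f2 f3
    exact ⟨f5, f6, f8 f4, f7⟩
  · have f1 : C ≤ 2 * n * ((v - u) * ε / 5) := by
      have f2 : 5 * C ≤ J * ((v - u) * ε) := (div_le_iff₀ (by positivity)).1 j7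
      have f3 : J / 2 * ((v - u) * ε) ≤ n * ((v - u) * ε) := by gcongr
      linarith only [f2, f3]
    have f2 : 8 * (v - u) * (J : ℝ) ^ 5 / (N * v ^ 6) ≤ T ^ 2 * n * (v - u) := by
      calc _ = (2 * (J : ℝ) ^ 2 / (n * v ^ 3)) ^ 2 * n * (v - u) := by
            rw [eN]
            field_simp
            ring
        _ ≤ _ := by gcongr
    refine (gloc_arith rfl hε hτ γ0.le n0 hK γ3 f1 h0 f2).trans (le_of_eq ?_)
    rw [hm, hL]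
    ring

theorem gloc {D ε : ℝ} (hD : Real.cos D = D) (hε : 0 < ε) : ∃ Λ : ℝ, 1 ≤ Λ ∧
    ∀ e A τ : ℝ, 0 < e → 0 < τ → ∃ h : ℝ, 0 < h ∧ ∃ η : ℝ, 0 < η ∧ ∃ J₀ : ℕ, ∀ J ≥ J₀,
    ∀ N : ℕ, J ^ 2 ≤ N → N ≤ 2 * J ^ 2 + 1 → ∀ (β σ u : ℝ) (E : Polynomial ℂ), Nice N β E →
      ‖E.coeff 1‖ = 1 → Shape J e A h η σ E → 1 - σ / J ≤ Real.exp (-Λ / N) → 8 * e ≤ u →
      u + τ ≤ A / 8 →
      ENNReal.ofReal ((Λ + Real.sin D - ε) * (8 * τ * (J : ℝ) ^ 5 / (N * (u + τ) ^ 6))) ≤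
        volume (Box J u (u + τ) \ (fun z => E.eval z) '' closedBall 0 (Real.exp (-Λ / N))) := by
  obtain ⟨f, g', U, Φ, μ, Φ₀, C', H⟩ := dpd_exists hD
  have hε' : 0 < ε / 5 := by positivity
  obtain ⟨C, C1, hOM⟩ := om_final H hε'
  obtain ⟨Λ, Λ1, g, g0, g1, e₀, he₀, hAN⟩ := an_final H.fc H.fa H.odd C hε'
  refine ⟨Λ, Λ1, fun e A τ e0 hτ => ?_⟩
  have hm : (4 * (∫ x in (0 : ℝ)..π, f x * Real.cos x) - ∫ x in (0 : ℝ)..π, f x ^ 2) / π =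
      3 / 2 + Real.sin D - Φ₀ / π + 2 * μ / π := by
    have := H.val
    field_simp
    linarith
  obtain ⟨K, K0, hK⟩ : ∃ K : ℝ, 0 < K ∧ 4 * (Λ - 3 / 2 +
      (3 / 2 + Real.sin D - Φ₀ / π + 2 * μ / π) - ε / 5) + 6 * (Φ₀ / π - ε / 5) ≤ K :=
    ⟨max 1 _, lt_max_of_lt_left one_pos, le_max_right _ _⟩
  obtain ⟨a, a0, ha⟩ : ∃ a : ℝ, 0 < a ∧ A ≤ a := ⟨max 1 _, lt_max_of_lt_left one_pos, le_max_right _ _⟩
  obtain ⟨γ, γ0, γ1, γ2, γ3⟩ : ∃ γ : ℝ, 0 < γ ∧ γ ≤ τ / 6 ∧ γ ≤ e₀ * τ / (3 * a ^ 3) * e ^ 3 / 2 ∧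
      γ ≤ τ * ε / 5 / K :=
    ⟨min _ (min _ _), by positivity, min_le_left _ _, (min_le_right _ _).trans (min_le_left _ _),
      (min_le_right _ _).trans (min_le_right _ _)⟩
  obtain ⟨h, h0, hh, hh'⟩ : ∃ h : ℝ, 0 < h ∧ h ≤ γ / a ^ 3 / C ∧ h ≤ 1 / (32 * e ^ 2) :=
    ⟨min _ _, by positivity, min_le_left _ _, min_le_right _ _⟩
  obtain ⟨η, η0, η1, η2, η3⟩ : ∃ η : ℝ, 0 < η ∧ η ≤ h / 3 ∧ η ≤ τ / 4 / C ∧
      η ≤ e₀ * τ / (3 * a ^ 3) :=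
    ⟨min _ (min _ _), by positivity, min_le_left _ _, (min_le_right _ _).trans (min_le_left _ _),
      (min_le_right _ _).trans (min_le_right _ _)⟩
  have C0 : 0 < C := by linarith
  rw [le_div_iff₀ C0] at hh η2
  rw [le_div_iff₀ K0] at γ3
  obtain ⟨J₀, hJ₀⟩ := exists_nat_ge (2 + a + 2 * Λ + 6 / τ + a ^ 3 +
    162 * (96 / (g * γ)) ^ 12 / e₀ + 1 / e ^ 2 + 5 * C / (τ * ε))
  refine ⟨h, h0, η, η0, J₀, fun J hJ N h1 h2 β σ u E hE c1 hS hσ hu hv => ?_⟩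
  rcases le_total (Λ + Real.sin D - ε) 0 with hneg | hpos
  · rw [ENNReal.ofReal_of_nonpos (mul_nonpos_of_nonpos_of_nonneg hneg (by positivity))]
    exact zero_le
  have hJ' : (J₀ : ℝ) ≤ J := by exact_mod_cast hJ
  have p1 : 0 < 6 / τ := by positivity
  have p2 : 0 < a ^ 3 := by positivity
  have p3 : 0 < 162 * (96 / (g * γ)) ^ 12 / e₀ := by positivity
  have p4 : 0 < 1 / e ^ 2 := by positivity
  have p5 : 0 < 5 * C / (τ * ε) := by positivity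
  have p6 := mul_le_mul_of_nonneg_right η1 C0.le
  have J2 : 2 ≤ J := by exact_mod_cast (by linarith : (2 : ℝ) ≤ J)
  exact gloc_main hAN hOM hm hK hε Λ1 g0 g1 he₀ C1 hE c1 hS J2 h1 h2 hσ e0 hτ hu hv ha γ0
    (by linarith) (by rw [div_le_iff₀ (by positivity)]; linarith) γ3 (by linarith) hh' η0.le
    (by linarith) (by linarith) (by linarith) η3 (by linarith) (by linarith) (by linarith)
    (by linarith) (by linarith) (by linarith) (by linarith) hpos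

end Pool.Agent.P.MP_c09211_an.Sh.GL
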