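import Pool.Agent.P.MP_c09211_an.GL.Defs
import Pool.Agent.P.MP_c09211_an.Sh.Coef
import Pool.Agent.P.MP_c09211_an.Sh.Omit

/-!
The mean of the quadratic differential (paper: Q).
-/

set_option autoImplicit false

namespace Pool.Agent.P.MP_c09211_an.Sh.GL

open Metric Set Finset PowerSeries Complex Filter Topology Real MeasureTheory
open scoped ComplexConjugate

theorem GenM_avg {G : ℂ → ℂ} {r : ℝ} (hG : DifferentiableOn ℂ G (closedBall 0 r)) (h0 : 0 < r)
    (k : ℕ) : circleAverage (fun z => G z / z ^ k) 0 r = coeff k (tay G) := by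
  have h := hG.circleIntegral_one_div_sub_center_pow_smul h0 k
  simp only [circleIntegral, deriv_circleMap, smul_eq_mul, sub_zero] at h
  have hp : (2 * π : ℂ) ≠ 0 := by exact_mod_cast Real.two_pi_pos.ne'
  rw [circleAverage_def, real_smul]
  push_cast
  rw [inv_mul_eq_iff_eq_mul₀ hp]
  refine mul_left_cancel₀ I_ne_zero ?_
  rw [← intervalIntegral.integral_const_mul]
  simp only [tay, coeff_mk]
  refine Eq.trans (intervalIntegral.integral_congr fun θ _ => ?_) (h.trans (by ring))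
  have h0 : circleMap 0 r θ ≠ 0 := circleMap_ne_center h0.ne'
  rw [pow_succ]
  field_simp

theorem GenM_norm (f : ℂ → ℂ) (r : ℝ) :
    ‖circleAverage f 0 r‖ ≤ circleAverage (fun z => ‖f z‖) 0 r := by
  have hp : 0 ≤ (2 * π)⁻¹ := inv_nonneg.2 Real.two_pi_pos.le
  rw [circleAverage_def, circleAverage_def, norm_smul, smul_eq_mul, Real.norm_of_nonneg hp]
  exact mul_le_mul_of_nonneg_left
    (intervalIntegral.norm_integral_le_integral_norm Real.two_pi_pos.le) hp

theorem GenM_deriv (f : ℂ → ℂ) : tay (deriv f) = d⁄dX ℂ (tay f) := by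
  ext k
  have h1 : (k.factorial : ℂ) ≠ 0 := Nat.cast_ne_zero.2 k.factorial_ne_zero
  have h2 : (k : ℂ) + 1 ≠ 0 := Nat.cast_add_one_ne_zero k
  simp only [tay, coeff_mk, coeff_derivative, iteratedDeriv_succ', Nat.factorial_succ]
  push_cast
  field_simp

theorem gq_mean {J : ℕ} {f w : ℂ → ℂ} (hf : Sr 1 f) (hJ : 1 ≤ J) {r : ℝ} (r0 : 0 < r)
    (r1 : r < 1) : ‖Lam J w (X * d⁄dX ℂ (tay f)) - Lam J w (tay f)‖ ≤
      circleAverage (fun z => ‖yq J w f (f z)⁻¹‖ * ‖z * deriv f z / f z‖ ^ 2) 0 r := by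
  obtain ⟨hd, hi, h0, h1, -⟩ := hf
  have nh : ball (0 : ℂ) 1 ∈ 𝓝 (0 : ℂ) := ball_mem_nhds _ one_pos
  obtain ⟨g, hg⟩ : ∃ g, g = dslope f 0 := ⟨_, rfl⟩
  have gd : DifferentiableOn ℂ g (ball 0 1) := hg ▸ (Complex.differentiableOn_dslope nh).2 hd
  have gf : ∀ z, z * g z = f z := fun z => by
    have h := sub_smul_dslope f 0 z
    rwa [sub_zero, h0, sub_zero, smul_eq_mul, ← hg] at h
  have g0 : g 0 = 1 := by rw [hg, dslope_same, h1]
  have gn : ∀ z ∈ ball (0 : ℂ) 1, g z ≠ 0 := fun z hz h => by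
    have h2 : z = 0 := hi hz (mem_ball_self one_pos) (by
      change f z = f 0
      rw [← gf, h, mul_zero, h0])
    rw [h2, g0] at h
    exact one_ne_zero h
  have dd : DifferentiableOn ℂ (deriv f) (ball 0 1) := hd.deriv isOpen_ball
  have id : DifferentiableOn ℂ (fun z => (g z)⁻¹) (ball 0 1) := gd.inv gn
  have a0 : AnalyticAt ℂ (fun z : ℂ => z) 0 := analyticAt_id
  have a1 := dd.analyticAt nh
  have a2 := gd.analyticAt nh
  have a3 := id.analyticAt nh
  have c0 : coeff 0 (tay g) = 1 := by rw [tay_coeff_zero, g0]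
  have t1 : X * tay g = tay f := by
    rw [← tay_id, ← tay_mul a0 a2]
    exact congrArg tay (funext gf)
  have t2 : tay (fun z => (g z)⁻¹) = (tay g)⁻¹ := by
    rw [PowerSeries.eq_inv_iff_mul_eq_one (by
      rw [← coeff_zero_eq_constantCoeff_apply, c0]; exact one_ne_zero), ← tay_mul a3 a2,
      ← map_one C, ← tay_const]
    refine tay_congr ?_
    filter_upwards [nh] with z hz
    exact inv_mul_cancel₀ (gn z hz)
  obtain ⟨K, hK⟩ : ∃ K : ℕ → ℂ → ℂ, ∀ i, K i =
    fun z => z * deriv f z * deriv f z * (g z)⁻¹ ^ (i + 1) := ⟨_, fun _ => rfl⟩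
  have kd : ∀ i, DifferentiableOn ℂ (K i) (ball 0 1) := fun i =>
    hK i ▸ ((differentiableOn_id.mul dd).mul dd).mul (id.pow _)
  have kt : ∀ i, tay (K i) =
      X * d⁄dX ℂ (tay f) * d⁄dX ℂ (tay f) * (tay g)⁻¹ ^ (i + 1) := fun i => by
    rw [hK, tay_mul ((a0.fun_mul a1).fun_mul a1) (a3.fun_pow _), tay_mul (a0.fun_mul a1) a1,
      tay_mul a0 a1, tay_pow a3, tay_id, t2, GenM_deriv]
  have e := lagrange_lam c0 (X * d⁄dX ℂ (tay f)) hJ w
  have e2 : range (J + 1) = insert 0 (insert 1 (Finset.Icc 2 J)) := by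
    ext i
    simp only [Finset.mem_range, Finset.mem_insert, Finset.mem_Icc]
    omega
  have k0 : coeff 0 (tay (K 0)) = 0 := by simp [tay_coeff_zero, hK]
  have k1 : coeff 1 (tay (K 1)) = 1 := by
    rw [kt, mul_assoc, mul_assoc, coeff_succ_X_mul, ← GenM_deriv, ← t2,
      coeff_zero_eq_constantCoeff_apply, map_mul, map_mul, map_pow]
    simp only [← coeff_zero_eq_constantCoeff_apply, tay_coeff_zero, h1, g0]
    simp
  simp only [t1, ← kt] at e
  rw [e2, sum_insert (by simp), sum_insert (by simp), k0, k1, zero_mul, zero_add, one_mul,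
    pow_one] at e
  have pd : ∀ i, DifferentiableOn ℂ (fun z => z ^ (J - i) * K i z) (ball 0 1) := fun i =>
    (differentiableOn_id.pow _).mul (kd i)
  have Gd : DifferentiableOn ℂ
      (fun z => ∑ i ∈ Finset.Icc 2 J, lc J w f i * (z ^ (J - i) * K i z)) (ball 0 1) :=
    DifferentiableOn.fun_sum fun i _ => (pd i).const_mul _
  have e3 := GenM_avg (Gd.mono (closedBall_subset_ball r1)) r0 J
  rw [tay_sum _ fun i _ => ((pd i).const_mul _).analyticAt nh, map_sum] at e3
  have e4 : ∀ i ∈ Finset.Icc 2 J, coeff J (tay fun z => lc J w f i * (z ^ (J - i) * K i z)) =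
      coeff i (tay (K i)) * Lam J w (tay f ^ i) := fun i hi => by
    rw [Finset.mem_Icc] at hi
    rw [tay_cmul _ ((pd i).analyticAt nh), tay_mul (a0.fun_pow _) ((kd i).analyticAt nh),
      tay_pow a0, tay_id, coeff_C_mul, coeff_X_pow_mul', if_pos (Nat.sub_le _ _),
      Nat.sub_sub_self hi.2, mul_comm, lc]
  rw [e, add_sub_cancel_left, ← sum_congr rfl e4, ← e3]
  refine (GenM_norm _ r).trans_eq (circleAverage_congr_sphere fun z hz => ?_)
  rw [mem_sphere_zero_iff_norm, abs_of_pos r0] at hz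
  have z0 : z ≠ 0 := norm_pos_iff.1 (hz ▸ r0)
  have z1 := gn z (mem_ball_zero_iff.2 (hz ▸ r1))
  beta_reduce
  rw [← norm_pow, ← norm_mul, yq, sum_div, sum_mul]
  refine congrArg _ (sum_congr rfl fun i hi => ?_)
  rw [Finset.mem_Icc] at hi
  obtain ⟨j, rfl⟩ : ∃ j, i = j + 1 := ⟨i - 1, by omega⟩
  obtain ⟨k, rfl⟩ : ∃ k, J = j + 1 + k := ⟨J - (j + 1), by omega⟩
  rw [hK, Nat.add_sub_cancel_left, Nat.add_sub_cancel]
  beta_reduce
  rw [← gf z, inv_pow, inv_pow]
  field_simp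
  ring

end Pool.Agent.P.MP_c09211_an.Sh.GL
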