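import Pool.Agent.P.MP_c09211_an.GL.Defs
import Pool.Agent.P.MP_c09211_an.Sh.Omit
import Pool.Agent.P.MP_c09211_an.Sh.Area

/-!
The area inequality for a univalent function (paper: Q).
-/

set_option autoImplicit false

namespace Pool.Agent.P.MP_c09211_an.Sh.GL

open Metric Set Finset PowerSeries Complex Filter Topology Real MeasureTheory
open scoped ComplexConjugate

variable {J : ℕ} {f w : ℂ → ℂ}

theorem Qd_eq (J : ℕ) (w f : ℂ → ℂ) {t : ℂ} (ht : t ≠ 0) :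
    Qd J w f t = yq J w f t⁻¹ * t⁻¹ ^ 2 := by
  rw [Qd, yq, sum_mul]
  refine sum_congr rfl fun i hi => ?_
  rw [mul_assoc, ← pow_add, show i - 1 + 2 = i + 1 by have := (Finset.mem_Icc.1 hi).1; omega,
    inv_pow, div_eq_mul_inv]

theorem GenQ_sr (hf : Sr 1 f) {ρ : ℝ} (h1 : ρ ≤ 1) : Sr ρ f := by
  obtain ⟨a1, a2, a3, a4, R, hR⟩ := hf
  exact ⟨a1.mono (ball_subset_ball h1), a2.mono (ball_subset_ball h1), a3, a4, R,
    fun z hz => hR z (ball_subset_ball h1 hz)⟩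

theorem GenQ_open (hf : Sr 1 f) {ρ : ℝ} (h1 : ρ ≤ 1) : IsOpen (f '' ball 0 ρ) := by
  rw [isOpen_iff_mem_nhds]
  rintro _ ⟨z, hz, rfl⟩
  have hn := isOpen_ball.mem_nhds (ball_subset_ball h1 hz)
  have ha : AnalyticAt ℂ f z := hf.1.analyticAt hn
  rw [← ha.hasStrictDerivAt.map_nhds_eq (deriv_ne_zero_of_injOn ha hn hf.2.1)]
  exact image_mem_map (isOpen_ball.mem_nhds hz)

theorem gq_fb (hf : Sr 1 f) (hw : Schur w) (hJ : 1 ≤ J) {ρ : ℝ} (h0 : 0 < ρ) (h1 : ρ ≤ 1) :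
    FB (f '' ball 0 ρ) J (lc J w f) ((J : ℝ) ^ 2 / ρ ^ (J - 1)) := by
  intro Φ a1 a2 a3 a4 a5
  have hS := GenQ_sr hf h1
  have p0 : f 0 = 0 := hS.2.2.1
  have hn : f '' ball 0 ρ ∈ 𝓝 (0 : ℂ) :=
    (GenQ_open hf h1).mem_nhds ⟨0, mem_ball_self h0, p0⟩
  have hΦ : AnalyticAt ℂ Φ 0 := a1.analyticAt hn
  have m := mapsTo_image f (ball (0 : ℂ) ρ)
  obtain ⟨M, hM⟩ := a5
  have hT : Sr ρ fun z => Φ (f z) := by
    refine ⟨a1.comp hS.1 m, a2.comp hS.2.1 m, by simp only [p0, a3], ?_, M,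
      fun z hz => hM _ (m hz)⟩
    have b1 : HasDerivAt Φ 1 (f 0) := by
      rw [p0, ← a4]; exact hΦ.differentiableAt.hasDerivAt
    have b2 := (b1.comp 0 (hS.an h0).differentiableAt.hasDerivAt).deriv
    rw [hS.2.2.2.1, mul_one] at b2
    exact b2
  have h := pair_scaled hT h0 h1 hw hJ
  obtain ⟨E, hE⟩ := tay_comp hΦ (hS.an h0) p0 (J + 1)
  obtain ⟨G, hG⟩ : X ∣ tay f := by
    rw [X_dvd_iff, ← coeff_zero_eq_constantCoeff_apply, tay_coeff_zero, p0]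
  have e : tay f ^ (J + 1) * E = X ^ (J + 1) * (G ^ (J + 1) * E) := by
    rw [← mul_assoc, ← mul_pow, ← hG]
  rw [hE, e, Lam_trunc _ hJ] at h
  rw [le_div_iff₀ (pow_pos h0 _), mul_comm]
  exact h

theorem gq_area (hf : Sr 1 f) (hw : Schur w) (hJ : 1 ≤ J) {ρ : ℝ} (h0 : 0 < ρ) (h1 : ρ < 1) :
    ∫⁻ t in (f '' closedBall 0 ρ)ᶜ, ‖Qd J w f t‖ₑ ≤
      ENNReal.ofReal (2 * π * ((J : ℝ) ^ 2 / ρ ^ (J - 1) - ‖Lam J w (tay f)‖)) := by
  have hK : IsCompact (f '' closedBall 0 ρ) := (isCompact_closedBall 0 ρ).image_of_continuousOn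
    (hf.1.continuousOn.mono (closedBall_subset_ball h1))
  have h := area_ineq (GenQ_open hf h1.le) ⟨0, mem_ball_self h0, hf.2.2.1⟩
    (hK.isBounded.subset (image_mono ball_subset_closedBall)) hK.isClosed.isOpen_compl
    (disjoint_compl_left.mono_right (image_mono ball_subset_closedBall)) hJ
    (gq_fb hf hw hJ h0 h1.le)
  rwa [lc, pow_one] at h

/-- The same after a rotation of the image plane. -/
theorem gq_area_rot (hf : Sr 1 f) (hw : Schur w) (hJ : 1 ≤ J) {ρ : ℝ} (h0 : 0 < ρ) (h1 : ρ < 1)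
    {b : ℂ} (hb : ‖b‖ = 1) {F : ℂ → ℂ} (hF : ∀ z, f z = b * F z) :
    ∫⁻ t in (F '' closedBall 0 ρ)ᶜ, ‖Qd J w f (b * t)‖ₑ ≤
      ENNReal.ofReal (2 * π * ((J : ℝ) ^ 2 / ρ ^ (J - 1) - ‖Lam J w (tay f)‖)) := by
  have b0 : b ≠ 0 := norm_pos_iff.1 (hb ▸ one_pos)
  let R := rotation ⟨b, mem_sphere_zero_iff_norm.2 hb⟩
  have e : (F '' closedBall 0 ρ)ᶜ = R ⁻¹' (f '' closedBall 0 ρ)ᶜ := by
    ext t
    simp only [mem_compl_iff, mem_image, Set.mem_preimage, hF]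
    exact not_congr (exists_congr fun z => and_congr_right fun _ => (mul_right_inj' b0).symm)
  rw [e]
  exact (R.measurePreserving.setLIntegral_comp_preimage_emb R.toHomeomorph.measurableEmbedding
    (fun t => ‖Qd J w f t‖ₑ) _).trans_le (gq_area hf hw hJ h0 h1)

end Pool.Agent.P.MP_c09211_an.Sh.GL
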