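import Pool.Agent.P.MP_c09211_an.GL.Defs
import Pool.Agent.P.MP_c09211_an.Sh.Omit

/-!
Omitted values of a univalent function (paper: Q, KQ).
-/

set_option autoImplicit false

namespace Pool.Agent.P.MP_c09211_an.Sh.GL

open Metric Set Finset PowerSeries Complex Filter Topology Real MeasureTheory
open scoped ComplexConjugate

variable {J : ℕ} {f w : ℂ → ℂ}

theorem GenQ2_tay (hf : Sr 1 f) (s : ℂ) :
    tay (fun z => f z / (1 - s * f z)) * (1 - C s * tay f) = tay f := by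
  have e0 := hf.2.2.1
  have aP := hf.an one_pos
  have aD : AnalyticAt ℂ (fun z => 1 + -s * f z) 0 :=
    analyticAt_const.fun_add (analyticAt_const.fun_mul aP)
  have n0 : (1 : ℂ) + -s * f 0 ≠ 0 := by simp [e0]
  have eH : (fun z => f z / (1 - s * f z)) = fun z => f z / (1 + -s * f z) := by
    funext z
    rw [neg_mul, sub_eq_add_neg]
  have t1 : tay (fun z => 1 + -s * f z) = 1 - C s * tay f := by
    rw [tay_add analyticAt_const (analyticAt_const.fun_mul aP), tay_const, tay_cmul _ aP,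
      map_one, map_neg]
    ring
  rw [← t1, eH, ← tay_mul (aP.fun_div aD n0) aD]
  refine tay_congr ?_
  filter_upwards [aD.continuousAt.eventually_ne n0] with z hz
  exact div_mul_cancel₀ _ hz

theorem GenQ2_lam (hf : Sr 1 f) (hJ : 1 ≤ J) (w : ℂ → ℂ) (s : ℂ) :
    yq J w f s = Lam J w (tay fun z => f z / (1 - s * f z)) - Lam J w (tay f) := by
  have e := GenQ2_tay hf s
  have dp : X ∣ tay f := by
    rw [X_dvd_iff, ← coeff_zero_eq_constantCoeff_apply, tay_coeff_zero, hf.2.2.1]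
  simp only [yq, lc]
  set A := tay fun z => f z / (1 - s * f z)
  set p := tay f with hp
  have dA : X ∣ A := by
    have : A = p * (1 + C s * A) := by linear_combination e
    rw [this]
    exact dp.mul_right _
  have g := mul_neg_geom_sum (C s * p) J
  have e1 : A = ∑ i ∈ range J, C (s ^ i) * p ^ (i + 1) + C s ^ J * (p ^ J * A) := by
    have : ∑ i ∈ range J, C (s ^ i) * p ^ (i + 1) = p * ∑ i ∈ range J, (C s * p) ^ i := by
      rw [mul_sum]
      exact sum_congr rfl fun i _ => by rw [map_pow]; ring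
    rw [this]
    linear_combination (∑ i ∈ range J, (C s * p) ^ i) * e - A * g
  have d : X ^ (J + 1) ∣ C s ^ J * (p ^ J * A) := by
    rw [pow_succ]
    exact (mul_dvd_mul (pow_dvd_pow_of_dvd dp J) dA).mul_left _
  obtain ⟨m, rfl⟩ : ∃ m, J = m + 1 := ⟨J - 1, by omega⟩
  have e2 := congrArg (Lam (m + 1) w) e1
  rw [om_Lam_add, om_Lam_high hJ w d, add_zero, om_Lam_sum, sum_range_succ'] at e2
  rw [e2, pow_zero, map_one, one_mul, zero_add, pow_one, add_sub_cancel_right,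
    ← Finset.Ico_add_one_right_eq_Icc, sum_Ico_eq_sum_range, show m + 1 + 1 - 2 = m by omega]
  refine sum_congr rfl fun i _ => ?_
  rw [om_Lam_C, show 2 + i - 1 = i + 1 by omega, show 2 + i = i + 1 + 1 by omega, mul_comm]

theorem GenQ2_lip (hf : Sr 1 f) (hw : Schur w) (hJ : 1 ≤ J) {s t : ℂ}
    (hs : ∀ k ≤ J, ‖coeff k (tay fun z => f z / (1 - s * f z))‖ ≤ 2 * k)
    (ht : ∀ k ≤ J, ‖coeff k (tay fun z => f z / (1 - t * f z))‖ ≤ 2 * k) :
    ‖yq J w f s - yq J w f t‖ ≤ 4 * (J : ℝ) ^ 4 * ‖s - t‖ := by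
  have a := lam_prod hw hJ hs ht
  rw [GenQ2_lam hf hJ, GenQ2_lam hf hJ, sub_sub_sub_cancel_right, ← om_Lam_sub]
  have e1 := GenQ2_tay hf s
  have e2 := GenQ2_tay hf t
  set A := tay fun z => f z / (1 - s * f z)
  set B := tay fun z => f z / (1 - t * f z)
  have ne : (1 : ℂ⟦X⟧) - C s * tay f ≠ 0 := fun h => by
    have := congrArg (coeff 0) h
    rw [map_sub, coeff_C_mul, tay_coeff_zero, hf.2.2.1] at this
    simp at this
  have e : A - B = C (s - t) * (A * B) := by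
    refine mul_right_cancel₀ ne ?_
    rw [map_sub]
    linear_combination (1 - (C s - C t) * B) * e1 - e2
  rw [e, om_Lam_C, norm_mul, mul_comm]
  exact mul_le_mul_of_nonneg_right a (norm_nonneg _)

/-- Moving the pole to an omitted value. -/
theorem gq_move (hf : Sr 1 f) {ρ : ℝ} (h0 : 0 < ρ) (h1 : ρ < 1) {t : ℂ}
    (ht : t ∉ f '' closedBall 0 ρ) : t ≠ 0 ∧ Sr ρ (fun z => f z / (1 - t⁻¹ * f z)) ∧
      (∀ z : ℂ, ‖z‖ ≤ ρ → 1 - t⁻¹ * f z ≠ 0) ∧ ∀ (J : ℕ) (w : ℂ → ℂ), 1 ≤ J → yq J w f t⁻¹ =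
        Lam J w (tay fun z => f z / (1 - t⁻¹ * f z)) - Lam J w (tay f) := by
  have mem : ∀ z : ℂ, ‖z‖ ≤ ρ → z ∈ ball (0 : ℂ) 1 := fun z hz =>
    mem_ball_zero_iff.mpr (hz.trans_lt h1)
  have e0 := hf.2.2.1
  have p1 : t ≠ 0 := fun h => ht ⟨0, mem_closedBall_self h0.le, e0.trans h.symm⟩
  have ne : ∀ z : ℂ, ‖z‖ ≤ ρ → 1 - t⁻¹ * f z ≠ 0 := fun z hz h => by
    have := congrArg (fun x => t * x) h
    simp only [mul_sub, mul_one, mul_zero, mul_inv_cancel_left₀ p1] at this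
    exact ht ⟨z, mem_closedBall_zero_iff.mpr hz, (sub_eq_zero.mp this).symm⟩
  have df : ∀ z : ℂ, ‖z‖ ≤ ρ → DifferentiableAt ℂ f z := fun z hz =>
    hf.1.differentiableAt (isOpen_ball.mem_nhds (mem z hz))
  have dif : ∀ z : ℂ, ‖z‖ ≤ ρ → DifferentiableAt ℂ (fun z => f z / (1 - t⁻¹ * f z)) z :=
    fun z hz => (df z hz).div ((differentiableAt_const _).sub ((df z hz).const_mul _)) (ne z hz)
  refine ⟨p1, ⟨fun z hz => (dif z (mem_ball_zero_iff.mp hz).le).differentiableWithinAt,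
    fun z hz w hw e => ?_, by simp [e0], ?_, ?_⟩, ne, fun J w hJ => GenQ2_lam hf hJ w _⟩
  · have hz' := (mem_ball_zero_iff.mp hz).le
    have hw' := (mem_ball_zero_iff.mp hw).le
    refine hf.2.1 (mem _ hz') (mem _ hw') ?_
    have e' := (div_eq_div_iff (ne z hz') (ne w hw')).mp e
    linear_combination e'
  · have d : HasDerivAt f 1 0 := hf.2.2.2.1 ▸ (df 0 (by simpa using h0.le)).hasDerivAt
    have := (d.div ((hasDerivAt_const (0 : ℂ) (1 : ℂ)).sub (d.const_mul t⁻¹))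
      (ne 0 (by simpa using h0.le))).deriv
    refine Eq.trans this ?_
    simp [e0]
  · obtain ⟨C, hC⟩ := (isCompact_closedBall (0 : ℂ) ρ).exists_bound_of_continuousOn
      (f := fun z => f z / (1 - t⁻¹ * f z)) fun z hz =>
        (dif z (mem_closedBall_zero_iff.mp hz)).continuousAt.continuousWithinAt
    exact ⟨C + 1, fun z hz => (hC z (ball_subset_closedBall hz)).trans_lt (lt_add_one C)⟩

theorem gq_le (hf : Sr 1 f) (hw : Schur w) (hJ : 1 ≤ J) {ρ : ℝ} (h0 : 0 < ρ) (h1 : ρ < 1)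
    (hρ : 1 / 2 ≤ ρ ^ J) {t : ℂ} (ht : t ∉ f '' closedBall 0 ρ) :
    ‖yq J w f t⁻¹‖ ≤ 3 * (J : ℝ) ^ 2 := by
  have a := om_half h0 h1.le hρ (Nat.sub_le J 1) (norm_nonneg _)
    (pair_scaled (gq_move hf h0 h1 ht).2.1 h0 h1.le hw hJ)
  have b := pair_scaled hf one_pos le_rfl hw hJ
  rw [one_pow, one_mul] at b
  rw [GenQ2_lam hf hJ]
  exact (norm_sub_le _ _).trans (by linarith)

theorem gq_lip (hf : Sr 1 f) (hw : Schur w) (hJ : 1 ≤ J) {ρ : ℝ} (h0 : 0 < ρ) (h1 : ρ < 1)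
    (hρ : 1 / 2 ≤ ρ ^ J) {t t' : ℂ} (ht : t ∉ f '' closedBall 0 ρ)
    (ht' : t' ∉ f '' closedBall 0 ρ) :
    ‖yq J w f t⁻¹ - yq J w f t'⁻¹‖ ≤ 4 * (J : ℝ) ^ 4 * ‖t⁻¹ - t'⁻¹‖ := by
  exact GenQ2_lip hf hw hJ (om_coeff_le (gq_move hf h0 h1 ht).2.1 h0 h1.le hρ)
    (om_coeff_le (gq_move hf h0 h1 ht').2.1 h0 h1.le hρ)

theorem gq_lip0 (hf : Sr 1 f) (hw : Schur w) (hJ : 1 ≤ J) {ρ : ℝ} (h0 : 0 < ρ) (h1 : ρ < 1)
    (hρ : 1 / 2 ≤ ρ ^ J) {t : ℂ} (ht : t ∉ f '' closedBall 0 ρ) :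
    ‖yq J w f t⁻¹‖ ≤ 4 * (J : ℝ) ^ 4 * ‖t⁻¹‖ := by
  have a := GenQ2_lip (t := 0) hf hw hJ (om_coeff_le (gq_move hf h0 h1 ht).2.1 h0 h1.le hρ) (by
    simp only [zero_mul, sub_zero, div_one]
    exact om_coeff_le hf one_pos le_rfl (by norm_num))
  have e : yq J w f 0 = 0 := sum_eq_zero fun i hi => by
    rw [zero_pow (by have := (Finset.mem_Icc.mp hi).1; omega), mul_zero]
  rwa [e, sub_zero, sub_zero] at a

/-- A weak form of the covering result of Koebe. -/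
theorem koebe_cover (hd : DifferentiableOn ℂ f (ball 0 1)) (hi : InjOn f (ball 0 1)) {z₀ : ℂ}
    {R : ℝ} (hR : 0 < R) (hs : closedBall z₀ R ⊆ ball 0 1) :
    ball (f z₀) (R * ‖deriv f z₀‖ / 6) ⊆ f '' ball z₀ R := by
  intro t ht
  by_contra hn
  rw [mem_ball_iff_norm] at ht
  have c0 : deriv f z₀ ≠ 0 := fun h => by
    rw [h, norm_zero, mul_zero, zero_div] at ht
    exact ht.not_ge (norm_nonneg _)
  have R0 : (R : ℂ) ≠ 0 := by exact_mod_cast hR.ne'
  have hc : ‖(R : ℂ)‖ = R := by rw [norm_real, Real.norm_eq_abs, abs_of_pos hR]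
  set c := (R : ℂ) * deriv f z₀ with hcd
  have c1 : c ≠ 0 := mul_ne_zero R0 c0
  have m : ∀ z ∈ ball (0 : ℂ) 1, z₀ + R * z ∈ ball z₀ R := fun z hz => by
    rw [mem_ball_iff_norm, add_sub_cancel_left, norm_mul, hc]
    exact mul_lt_of_lt_one_right hR (mem_ball_zero_iff.mp hz)
  have m' : ∀ z ∈ ball (0 : ℂ) 1, z₀ + R * z ∈ ball (0 : ℂ) 1 := fun z hz =>
    hs (ball_subset_closedBall (m z hz))
  have hg : Sr 1 fun z => c⁻¹ * (f (z₀ + R * z) - f z₀) := by
    refine ⟨((hd.comp (by fun_prop) m').sub_const _).const_mul _, fun z hz w hw e => ?_, by simp,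
      ?_, ?_⟩
    · exact mul_left_cancel₀ R0 (add_left_cancel (hi (m' z hz) (m' w hw)
        (sub_left_injective (mul_left_cancel₀ (inv_ne_zero c1) e))))
    · have d : HasDerivAt f (deriv f z₀) (z₀ + R * 0) := by
        rw [mul_zero, add_zero]
        exact (hd.differentiableAt (isOpen_ball.mem_nhds (hs (mem_closedBall_self hR.le)))).hasDerivAt
      have d2 : HasDerivAt (fun z : ℂ => z₀ + R * z) R 0 := by
        simpa using ((hasDerivAt_id (0 : ℂ)).const_mul (R : ℂ)).const_add z₀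
      refine Eq.trans (((d.comp (0 : ℂ) d2).sub_const (f z₀)).const_mul c⁻¹).deriv ?_
      rw [mul_comm (deriv f z₀), inv_mul_cancel₀ c1]
    · obtain ⟨C, hC⟩ := (isCompact_closedBall z₀ R).exists_bound_of_continuousOn
        (hd.continuousOn.mono hs)
      refine ⟨‖c⁻¹‖ * (C + ‖f z₀‖) + 1, fun z hz => lt_of_le_of_lt ?_ (lt_add_one _)⟩
      rw [norm_mul]
      exact mul_le_mul_of_nonneg_left ((norm_sub_le _ _).trans
        (add_le_add_left (hC _ (ball_subset_closedBall (m z hz))) _)) (norm_nonneg _)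
  have hn' : c⁻¹ * (t - f z₀) ∉ (fun z => c⁻¹ * (f (z₀ + R * z) - f z₀)) '' closedBall 0 (3 / 4) :=
    fun ⟨z, hz, e⟩ => hn ⟨_, m z (closedBall_subset_ball (by norm_num) hz),
      sub_left_injective (mul_left_cancel₀ (inv_ne_zero c1) e)⟩
  have a := gq_le (J := 2) hg om_schur_one (by norm_num) (by norm_num) (by norm_num) (by norm_num)
    hn'
  have n := (gq_move hg (by norm_num) (by norm_num) hn').1
  have d : lc 2 (fun _ => 1) (fun z => c⁻¹ * (f (z₀ + R * z) - f z₀)) 2 = 2 := by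
    rw [lc, om_Lam_one 1, sq, coeff_mul, Finset.Nat.sum_antidiagonal_succ,
      Finset.Nat.sum_antidiagonal_succ]
    have a0 := (tay_coeff_zero fun z => c⁻¹ * (f (z₀ + R * z) - f z₀)).trans hg.2.2.1
    have a1 := (tay_coeff_one _).trans hg.2.2.2.1
    simp only [Finset.Nat.antidiagonal_zero, sum_singleton, zero_add, a0, a1]
    norm_num
  rw [yq, Finset.Icc_self, sum_singleton, d, norm_mul, pow_one, norm_inv] at a
  have h1 : ‖c⁻¹ * (t - f z₀)‖ < 1 / 6 := by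
    rw [norm_mul, norm_inv, inv_mul_lt_iff₀ (norm_pos_iff.mpr c1), hcd, norm_mul, hc]
    linarith
  have h2 := mul_inv_cancel₀ (norm_pos_iff.mpr n).ne'
  have h3 := norm_pos_iff.mpr n
  rw [Complex.norm_ofNat] at a
  push_cast at a
  nlinarith

end Pool.Agent.P.MP_c09211_an.Sh.GL
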