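import Pool.Agent.P.MP_c09211_an.GL.GenQ2
import Pool.Agent.P.MP_c09211_an.Sh.GeoP

/-!
A lower bound for the quadratic differential (paper: Q).
-/

set_option autoImplicit false

namespace Pool.Agent.P.MP_c09211_an.Sh.GL

open Metric Set Finset PowerSeries Complex Filter Topology Real MeasureTheory
open scoped ComplexConjugate

theorem GenR_sr {f : ℂ → ℂ} {ρ : ℝ} (H : Sr 1 f) (h1 : ρ ≤ 1) : Sr ρ f := by
  obtain ⟨a1, a2, a3, a4, R, hR⟩ := H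
  have m : ball (0 : ℂ) ρ ⊆ ball 0 1 := ball_subset_ball h1
  exact ⟨a1.mono m, a2.mono m, a3, a4, R, fun z hz => hR z (m hz)⟩

theorem gq_low {c C : ℝ} (hc : 0 < c) : ∃ κ : ℝ, 0 < κ ∧ ∃ x : ℝ, 0 < x ∧ ∃ δ : ℝ, 0 < δ ∧
    ∃ J₀ : ℕ, ∀ J ≥ J₀, ∀ (f w : ℂ → ℂ) (a t : ℂ) (ρ : ℝ), Near J δ f w a → 1 - x / J ≤ ρ →
      ρ < 1 → t ∉ f '' closedBall 0 ρ → c * (J : ℝ) ^ 2 ≤ ‖t‖ → ‖t‖ ≤ C * (J : ℝ) ^ 2 →
      κ * (J : ℝ) ^ 2 ≤ ‖yq J w f t⁻¹‖ := by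
  obtain ⟨C', hC, hCC⟩ : ∃ C' : ℝ, 0 < C' ∧ C ≤ C' :=
    ⟨max C c, lt_max_of_lt_right hc, le_max_left _ _⟩
  obtain ⟨κ₀, hκ₀, ε, hε, J₂, hfar⟩ := far (c := 1 / (2 * C')) (C := 1 / c) (by positivity)
  obtain ⟨κ, hκ, hκ1, hκκ⟩ : ∃ κ : ℝ, 0 < κ ∧ κ ≤ 1 ∧ κ ≤ κ₀ :=
    ⟨min κ₀ 1, lt_min hκ₀ one_pos, min_le_right _ _, min_le_left _ _⟩
  obtain ⟨x, x0, hx1, hx2⟩ : ∃ x : ℝ, 0 < x ∧ 2 * x ≤ κ ∧ 4 * x ≤ ε :=
    ⟨min (κ / 2) (ε / 4), by positivity, by linarith [min_le_left (κ / 2) (ε / 4)],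
      by linarith [min_le_right (κ / 2) (ε / 4)]⟩
  obtain ⟨J₃, hJ₃⟩ := exists_nat_ge (4 / κ + 1)
  refine ⟨κ / 4, by positivity, x, x0, ε / 4, by positivity, max J₂ J₃,
    fun J hJ f w a t ρ H r0 r1 ht b1 b2 => ?_⟩
  have j2 : J₂ ≤ J := (le_max_left _ _).trans hJ
  have j3 : (J₃ : ℝ) ≤ J := by exact_mod_cast (le_max_right _ _).trans hJ
  have w1 : 0 ≤ 4 / κ := by positivity
  have J1 : (1 : ℝ) ≤ J := by linarith
  have J0 : (0 : ℝ) < J := by linarith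
  have J1' : 1 ≤ J := by exact_mod_cast J1
  have u0 : (0 : ℝ) < (J : ℝ) ^ 2 := by positivity
  have j4 : (J : ℝ) ≤ κ / 4 * (J : ℝ) ^ 2 := by
    have : 4 / κ ≤ J := by linarith
    rw [div_le_iff₀ hκ] at this
    nlinarith
  have xJ : x / J ≤ x := div_le_self x0.le J1
  have xJ0 : 0 < x / J := by positivity
  have h0 : 1 / 2 ≤ ρ := by linarith
  have ρ0 : 0 < ρ := by linarith
  have h1 : ρ ≤ 1 := r1.le
  have hx : 1 - x ≤ ρ ^ J := by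
    have := one_add_mul_le_pow (a := -(x / J)) (by linarith) J
    have e1 : (J : ℝ) * -(x / J) = -x := by field_simp
    have e2 : (1 + -(x / J)) ^ J ≤ ρ ^ J := pow_le_pow_left₀ (by linarith) (by linarith) J
    linarith
  have hρ : ‖(ρ : ℂ)‖ = ρ := by rw [norm_real, Real.norm_eq_abs, abs_of_pos ρ0]
  have ρc : (ρ : ℂ) ≠ 0 := by exact_mod_cast ρ0.ne'
  obtain ⟨t0, S2, ne, hy⟩ := gq_move H.sr ρ0 r1 ht
  obtain ⟨h, g, e, hl, hN⟩ := H.root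
  have S1 := GenR_sr H.sr h1
  have n0 : 0 < ‖t‖ := norm_pos_iff.mpr t0
  have ns : ‖(ρ : ℂ) * t⁻¹‖ = ρ / ‖t‖ := by rw [norm_mul, hρ, norm_inv, div_eq_mul_inv]
  have b3 : ‖t‖ ≤ C' * (J : ℝ) ^ 2 := b2.trans (mul_le_mul_of_nonneg_right hCC u0.le)
  have key := hfar J j2 _ _ _ ((ρ : ℂ) * t⁻¹) a (rescale (ρ : ℂ) h) (S1.scale ρ0 hρ)
    (S2.scale ρ0 hρ)
    (fun z hz => by
      have := ne ((ρ : ℂ) * z) (by
        rw [norm_mul, hρ]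
        exact mul_le_of_le_one_right ρ0.le (mem_ball_zero_iff.mp hz).le)
      have e2 : 1 - (ρ : ℂ) * t⁻¹ * ((ρ : ℂ)⁻¹ * f ((ρ : ℂ) * z)) =
          1 - t⁻¹ * f ((ρ : ℂ) * z) := by field_simp
      rw [e2, mul_assoc, div_mul_cancel₀ _ this])
    (by
      rw [tay_scale' (S1.an ρ0), ← e, map_mul, map_pow, rescale_X, ← mul_assoc,
        ← mul_assoc, ← map_mul, inv_mul_cancel₀ ρc, map_one, one_mul])
    (geo_SS hl.ss ρ0.le h1) (geo_NK hN ρ0.le h1 hx (by linarith) (by nlinarith))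
    (by
      rw [ns, div_mul_eq_mul_div, div_le_div_iff₀ (by positivity) n0]
      nlinarith [mul_le_mul_of_nonneg_right h0 (mul_pos hC u0).le])
    (by
      rw [ns, div_mul_eq_mul_div, div_le_div_iff₀ n0 hc]
      nlinarith [mul_le_mul_of_nonneg_right h1 (mul_pos hc u0).le])
    (H.sch.scale (hρ.trans_le h1))
  rw [tay_scale' (S2.an ρ0), Lam_scale H.sch.an ρc, norm_mul, norm_pow, hρ] at key
  set L₂ := Lam J w (tay fun z => f z / (1 - t⁻¹ * f z)) with hL₂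
  have key' : ρ ^ (J - 1) * ‖L₂‖ ≤ (1 - κ) * (J : ℝ) ^ 2 :=
    key.trans (mul_le_mul_of_nonneg_right (by linarith) u0.le)
  have q1 : ρ ^ J ≤ ρ ^ (J - 1) := pow_le_pow_of_le_one ρ0.le h1 (Nat.sub_le _ _)
  have q2 : 1 - κ / 2 ≤ ρ ^ (J - 1) := by linarith
  have q3 : ‖L₂‖ ≤ (1 - κ / 2) * (J : ℝ) ^ 2 := by
    have q4 : 0 < 1 - κ / 2 := by linarith
    refine le_of_mul_le_mul_left ?_ q4
    have := mul_le_mul_of_nonneg_right q2 (norm_nonneg L₂)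
    nlinarith [mul_nonneg (sq_nonneg κ) u0.le]
  rw [hy J w J1', ← hL₂]
  have := norm_sub_norm_le (Lam J w (tay f)) L₂
  rw [norm_sub_rev] at this
  have := H.lam
  linarith

end Pool.Agent.P.MP_c09211_an.Sh.GL
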