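import Pool.Agent.P.MP_c09211_an.GL.Defs
import Pool.Agent.P.MP_c09211_an.Sh.Zcoef

/-!
Values of the functional near the extremal function (paper: ZF).
-/

set_option autoImplicit false

namespace Pool.Agent.P.MP_c09211_an.Sh.GL

open Metric Set Finset PowerSeries Complex Filter Topology Real MeasureTheory
open scoped ComplexConjugate

theorem GenZ_g {J : ℕ} (hJ : 1 ≤ J) (x : ℂ⟦X⟧) : zN J (x + th x) ≤ 2 * J * zN J x := by
  have h1 := zN_add J x (th x)
  have h3 := zN_th J x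
  have h4 := zN_nonneg J x
  have h5 : (1 : ℝ) ≤ J := by exact_mod_cast hJ
  nlinarith

/-- The version of `z_fin` with one factor `w`. -/
theorem GenZ_one {J : ℕ} (hJ : 1 ≤ J) {h : ℂ⟦X⟧} {w : ℂ → ℂ} {a c : ℂ} (hw : Schur w)
    (ha : ‖a‖ = 1) (hc : ‖c‖ = 1) {σ η : ℝ} (s0 : 0 ≤ σ) (e0 : 0 ≤ η) (s1 : σ + η ≤ 1)
    (hr : zN J (h - C a * zu) ≤ σ * √J) (hv : zN J (tay w * zu - C c * zu) ≤ η * √J) :
    ‖Lam J w (X * d⁄dX ℂ (X * h ^ 2)) - a ^ 2 * c * (J : ℂ) ^ 3‖ ≤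
      27 * (σ + η) * (J : ℝ) ^ 3 := by
  have R2 : √(J : ℝ) * √J = J := Real.mul_self_sqrt (Nat.cast_nonneg _)
  have R0 : 0 ≤ √(J : ℝ) := Real.sqrt_nonneg _
  have J0 : (0 : ℝ) ≤ J := Nat.cast_nonneg J
  set W := tay w with hW
  set r := h - C a * zu with hr'
  set v := W * zu - C c * zu with hv'
  have Ca : ∀ x, zN J (C a * x) ≤ zN J x := fun x => by
    have := zN_C J a x
    rwa [ha, one_mul] at this
  have Cc : ∀ x, zN J (C c * x) ≤ zN J x := fun x => by
    have := zN_C J c x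
    rwa [hc, one_mul] at this
  have q1 : zN J (C c * zu) ≤ √J := (Cc zu).trans (zN_u J).le
  have q2 : zN J (zu + 2 * th zu) ≤ 3 * J * √J := by
    have := zN_g hJ zu
    rwa [zN_u] at this
  have q3 : zN J (C c * th zu) ≤ J * √J := by
    have := zN_th J zu
    rw [zN_u] at this
    exact (Cc _).trans this
  have q4 : zN J (zu + 2 * th zu + th (zu + 2 * th zu)) ≤ 2 * J * (3 * J * √J) :=
    (GenZ_g hJ _).trans (by gcongr)
  have thr : th r = th h - C a * th zu := by rw [hr', th_sub, th_mul, th_C]; ring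
  have g1 : zN J (r + 2 * th r) ≤ 3 * J * (σ * √J) := (zN_g hJ r).trans (by gcongr)
  have l1 : zN J (X * zu * v) ≤ J * (η * √J) := (zN_L J v).trans (by gcongr)
  have gr : h + 2 * th h - C a * (zu + 2 * th zu) = r + 2 * th r := by rw [thr, hr']; ring
  have p1 : zN J (W * h - C a * (C c * zu)) ≤ (σ + η) * √J := by
    rw [show W * h - C a * (C c * zu) = W * r + C a * v by rw [hr', hv']; ring]
    have a1 := zN_add J (W * r) (C a * v)
    have a2 := zN_W hw J r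
    have a3 := Ca v
    linarith
  have p2 : zN J (h + 2 * th h - C a * (zu + 2 * th zu)) ≤ (σ + η) * (3 * J * √J) := by
    rw [gr]
    have : 0 ≤ η * (3 * J * √J) := by positivity
    linarith
  have p3 : zN J (W * th h - C a * (C c * th zu)) ≤ (σ + η) * (J * √J) := by
    rw [show W * th h - C a * (C c * th zu) = W * th r + C a * (X * zu * v) by
      rw [thr, hv', z_th_u]; ring]
    have a1 := zN_add J (W * th r) (C a * (X * zu * v))
    have a2 := zN_W hw J (th r)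
    have a3 := Ca (X * zu * v)
    have a4 : zN J (th r) ≤ J * (σ * √J) := (zN_th J r).trans (by gcongr)
    linarith
  have p4 : zN J (h + 2 * th h + th (h + 2 * th h) -
      C a * (zu + 2 * th zu + th (zu + 2 * th zu))) ≤ (σ + η) * (2 * J * (3 * J * √J)) := by
    rw [show h + 2 * th h + th (h + 2 * th h) - C a * (zu + 2 * th zu + th (zu + 2 * th zu)) =
      r + 2 * th r + th (r + 2 * th r) by rw [← gr, th_sub, th_mul (C a), th_C]; ring]
    have a1 : zN J (r + 2 * th r + th (r + 2 * th r)) ≤ 2 * J * (3 * J * (σ * √J)) :=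
      (GenZ_g hJ _).trans (by gcongr)
    have : 0 ≤ η * (2 * J * (3 * J * √J)) := by positivity
    linarith
  have hk : J - 1 < J := by omega
  have t0 : 0 ≤ σ + η := add_nonneg s0 e0
  have e1 := z_err hk ha t0 s1 q1 q4 p1 p4
  have e2 := z_err hk ha t0 s1 q3 q2 p3 p2
  have m1 : W * d⁄dX ℂ (X * (h * (h + 2 * th h))) =
      W * h * (h + 2 * th h + th (h + 2 * th h)) + W * th h * (h + 2 * th h) := by
    have : d⁄dX ℂ (X * (h * (h + 2 * th h))) = h * (h + 2 * th h) + th (h * (h + 2 * th h)) := by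
      generalize h * (h + 2 * th h) = Y
      simp only [th, Derivation.leibniz, smul_eq_mul, derivative_X]
      ring
    rw [this, th_mul h]
    ring
  have m2 : coeff (J - 1) (C c * zu * (zu + 2 * th zu + th (zu + 2 * th zu))) +
      coeff (J - 1) (C c * th zu * (zu + 2 * th zu)) = c * (J : ℂ) ^ 3 := by
    rw [← map_add, show C c * zu * (zu + 2 * th zu + th (zu + 2 * th zu)) +
      C c * th zu * (zu + 2 * th zu) = C c * (zu * (zu + 2 * th zu) + th (zu * (zu + 2 * th zu)))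
      by rw [th_mul zu]; ring, coeff_C_mul, map_add, coeff_th, z_main, Nat.cast_sub hJ]
    push_cast
    ring
  rw [Lam, z_dF, ← hW, m1, map_add, mul_assoc (a ^ 2), ← m2]
  generalize coeff (J - 1) (W * h * (h + 2 * th h + th (h + 2 * th h))) = A1 at *
  generalize coeff (J - 1) (W * th h * (h + 2 * th h)) = A2 at *
  generalize coeff (J - 1) (C c * zu * (zu + 2 * th zu + th (zu + 2 * th zu))) = B1 at *
  generalize coeff (J - 1) (C c * th zu * (zu + 2 * th zu)) = B2 at *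
  rw [show A1 + A2 - a ^ 2 * (B1 + B2) = (A1 - a ^ 2 * B1) + (A2 - a ^ 2 * B2) by ring]
  refine (norm_add_le _ _).trans ?_
  have r1 : 3 * (σ + η) * (√J * (2 * J * (3 * J * √J))) = 18 * (σ + η) * J ^ 3 := by
    linear_combination 18 * (σ + η) * J ^ 2 * R2
  have r2 : 3 * (σ + η) * (J * √J * (3 * J * √J)) = 9 * (σ + η) * J ^ 3 := by
    linear_combination 9 * (σ + η) * J ^ 2 * R2
  linarith

/-- The values of the functional on `z F'` and on `z w F'`. -/
theorem zf_both {ε : ℝ} (hε : 0 < ε) : ∃ δ : ℝ, 0 < δ ∧ ∀ (J : ℕ) (h : ℂ⟦X⟧) (w : ℂ → ℂ) (a : ℂ),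
    1 ≤ J → Schur w → NK J δ h 1 a → (1 - δ) * (J : ℝ) ^ 2 ≤ ‖Lam J w (X * h ^ 2)‖ →
    ∃ e : ℂ, ‖e‖ = 1 ∧
      ‖Lam J w (X * d⁄dX ℂ (X * h ^ 2)) - a ^ 2 * e * (J : ℂ) ^ 3‖ ≤ ε * (J : ℝ) ^ 3 ∧
      ‖Lam J w (X * (tay w * d⁄dX ℂ (X * h ^ 2))) - (a * e) ^ 2 * (J : ℂ) ^ 3‖ ≤
        ε * (J : ℝ) ^ 3 := by
  obtain ⟨η, e0, e1, e2⟩ : ∃ η : ℝ, 0 < η ∧ η ≤ 1 / 2 ∧ η ≤ ε / 80 :=
    ⟨min (1 / 2) (ε / 80), by positivity, min_le_left _ _, min_le_right _ _⟩
  have t1 : η ^ 2 / 6 ≤ η := by nlinarith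
  have t0 : 0 < η ^ 2 / 6 := by positivity
  have s1 : (η ^ 2 / 6) ^ 3 / 10 ≤ η := by
    have : (η ^ 2 / 6) ^ 3 ≤ η ^ 2 / 6 := pow_le_of_le_one t0.le (by linarith) (by norm_num)
    linarith
  have s0 : 0 < (η ^ 2 / 6) ^ 3 / 10 := by positivity
  refine ⟨((η ^ 2 / 6) ^ 3 / 10) ^ 2, by positivity, fun J h w a hJ hw hN hL => ?_⟩
  have J0 : (0 : ℝ) ≤ J := Nat.cast_nonneg J
  have hr : zN J (h - C a * zu) ≤ (η ^ 2 / 6) ^ 3 / 10 * √J := by
    refine zN_le (by positivity) ?_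
    rw [mul_pow, Real.sq_sqrt J0]
    refine le_trans (le_of_eq (sum_congr rfl fun q _ => ?_)) hN.2.2
    rw [map_sub, coeff_C_mul, zu, coeff_mk, one_pow]
  obtain ⟨c, c1, c2⟩ := z_v hJ hw hN.2.1 s0.le (by linarith) t0 (by linarith) (by linarith) hr hL
  have hv : zN J (tay w * zu - C c * zu) ≤ η * √J := by
    refine zN_le (by positivity) ?_
    rw [mul_pow, Real.sq_sqrt J0]
    linarith
  refine ⟨c, c1, ?_, ?_⟩
  · refine (GenZ_one hJ hw hN.2.1 c1 s0.le e0.le (by linarith) hr hv).trans ?_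
    gcongr
    linarith
  · have := z_fin (j := 0) hJ hw hN.2.1 c1 s0.le e0.le (by linarith) hr hv
    rw [zero_add, pow_one, Nat.cast_zero, sub_zero, mul_assoc ((a * c) ^ 2), ← pow_succ'] at this
    refine this.trans ?_
    gcongr
    linarith

end Pool.Agent.P.MP_c09211_an.Sh.GL
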