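import Pool.Agent.P.MP_c09211_an.GL.Real

/-!
Stability of the realisable permutations under deformation (paper: R2).
-/

set_option autoImplicit false

namespace Pool.Agent.P.MP_c09211_an.Sh.GL

open Metric Set Finset PowerSeries Complex Filter Topology Real MeasureTheory
open scoped ComplexConjugate

variable {ι : Type} [Fintype ι] [DecidableEq ι]

theorem Simple.finite {F : ι → ℝ → ℝ} (hF : ∀ i, Continuous (F i)) (H : Simple F) (l r : ℝ) :
    {x ∈ Set.Icc l r | ¬Function.Injective fun i => F i x}.Finite := by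
  refine (Set.finite_iUnion fun q : {q : ι × ι // q.1 ≠ q.2} => IsCompact.finite
    (isCompact_Icc (a := l) (b := r) |>.inter_right (isClosed_eq (hF q.1.1) (hF q.1.2)))
    (isDiscrete_iff_nhdsNE.2 fun x hx => ?_)).subset fun x hx => ?_
  · obtain ⟨d, hd, h⟩ := H _ _ x q.2 hx.2
    exact Filter.inf_principal_eq_bot.2
      ((h.eventually_ne (c := 0) hd).mono fun y hy h' => hy (sub_eq_zero.2 h'.2))
  · obtain ⟨a, b, h1, h2⟩ := Function.not_injective_iff.1 hx.2
    exact Set.mem_iUnion.2 ⟨⟨(a, b), h2⟩, hx.1, h1⟩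

/-- A crossing that is alone in an interval is a strict change of sign. -/
theorem Simple.sign {F : ι → ℝ → ℝ} (hF : ∀ i, Continuous (F i)) (H : Simple F) {l v r : ℝ}
    (h1 : l < v) (h2 : v < r) {a b : ι} (hab : a ≠ b) (hv : F a v = F b v)
    (ho : ∀ x ∈ Set.Icc l r, x ≠ v → F a x ≠ F b x) : (F a l - F b l) * (F a r - F b r) < 0 := by
  obtain ⟨d, hd, h⟩ := H a b v hab hv
  have hc : ContinuousOn (dslope (fun x => F a x - F b x) v) (Set.Icc l r) :=
    (continuousOn_dslope (Icc_mem_nhds h1 h2)).2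
      ⟨((hF a).sub (hF b)).continuousOn, h.differentiableAt⟩
  have he : ∀ x, (x - v) * dslope (fun x => F a x - F b x) v x = F a x - F b x := fun x => by
    rw [← smul_eq_mul, sub_smul_dslope, hv, sub_self, sub_zero]
  have hn : ∀ x ∈ Set.Icc l r, dslope (fun x => F a x - F b x) v x ≠ 0 := by
    intro x hx h0
    by_cases hx' : x = v
    · rw [hx', dslope_same, h.deriv] at h0
      exact hd h0
    · exact ho x hx hx' (sub_eq_zero.1 (by rw [← he, h0, mul_zero]))
  have hp : 0 < dslope (fun x => F a x - F b x) v l * dslope (fun x => F a x - F b x) v r := by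
    have hlr := (h1.trans h2).le
    by_contra hle
    rcases mul_nonpos_iff.1 (not_lt.1 hle) with h3 | h3
    · obtain ⟨x, hx, h0⟩ := intermediate_value_Icc' hlr hc ⟨h3.2, h3.1⟩
      exact hn x hx h0
    · obtain ⟨x, hx, h0⟩ := intermediate_value_Icc hlr hc h3
      exact hn x hx h0
  rw [← he l, ← he r, mul_mul_mul_comm]
  exact mul_neg_of_neg_of_pos (mul_neg_of_neg_of_pos (by linarith) (by linarith)) hp

theorem Homot_cls {F : ℝ → ι → ℝ → ℝ} (hF : ∀ i, Continuous fun q : ℝ × ℝ => F q.1 i q.2)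
    {t₀ l r : ℝ} (hlr : l ≤ r) {κ : ι → ℝ}
    (hA : ∀ a b, a ≠ b → κ a = κ b → (F t₀ a l - F t₀ b l) * (F t₀ a r - F t₀ b r) < 0)
    (hB : ∀ m ∈ Set.Icc l r, ∀ a b, F t₀ a m = F t₀ b m → κ a = κ b) :
    ∀ᶠ t in 𝓝 t₀, ∀ u, Rl (F t) l r u ↔ ∀ a, κ (u a) = κ a := by
  have hc : ∀ i x, Continuous fun t => F t i x := fun i x =>
    (hF i).comp (continuous_id.prodMk continuous_const)
  have h1 : ∀ᶠ t in 𝓝 t₀, ∀ a b, a ≠ b → κ a = κ b →
      (F t a l - F t b l) * (F t a r - F t b r) < 0 := by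
    simp only [Filter.eventually_all]
    intro a b hab h
    exact (((hc a l).sub (hc b l)).mul ((hc a r).sub (hc b r))).continuousAt.eventually_lt
      continuousAt_const (hA a b hab h)
  have h2 : ∀ᶠ t in 𝓝 t₀, ∀ a b, κ a ≠ κ b → ∀ m ∈ Set.Icc l r, F t a m - F t b m ≠ 0 := by
    refine Filter.eventually_all.2 fun a => Filter.eventually_all.2 fun b =>
      Filter.eventually_all.2 fun h => ?_
    refine isCompact_Icc.eventually_forall_of_forall_eventually fun m hm => ?_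
    exact ((hF a).sub (hF b)).continuousAt.eventually_ne fun h' => h (hB m hm a b (sub_eq_zero.1 h'))
  filter_upwards [h1, h2] with t k1 k2 u
  refine ⟨fun h => h.group fun m hm a b hab => ?_, fun h => Rl.loc (fun i => ?_) hlr k1 h⟩
  · by_contra h'
    exact k2 a b h' m hm (sub_eq_zero.2 hab)
  · exact (hF i).comp (continuous_const.prodMk continuous_id)

theorem Homot_one {F : ℝ → ι → ℝ → ℝ} (hF : ∀ i, Continuous fun q : ℝ × ℝ => F q.1 i q.2)
    {t₀ : ℝ} (H : Simple (F t₀)) {l r v : ℝ} (hv : v ∈ Set.Icc l r)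
    (hl : Function.Injective fun i => F t₀ i l) (hr : Function.Injective fun i => F t₀ i r)
    (ho : ∀ x ∈ Set.Icc l r, x ≠ v → Function.Injective fun i => F t₀ i x) :
    ∀ᶠ t in 𝓝 t₀, ∀ u, Rl (F t) l r u ↔ Rl (F t₀) l r u := by
  have h := Homot_cls hF (t₀ := t₀) (hv.1.trans hv.2) (κ := fun i => F t₀ i v)
    (fun a b hab h => H.sign (fun i => (hF i).comp (continuous_const.prodMk continuous_id))
      (hv.1.lt_of_ne fun e => hab (hl (by rw [e]; exact h)))
      (hv.2.lt_of_ne fun e => hab (hr (by rw [← e]; exact h))) hab h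
      fun x hx hx' e => hab (ho x hx hx' e))
    fun m hm a b h => by
      by_cases e : m = v
      · rwa [← e]
      · rw [ho m hm e h]
  exact h.mono fun t ht u => (ht u).trans (h.self_of_nhds u).symm

theorem Homot_free {F : ι → ℝ → ℝ} (hF : ∀ i, Continuous (F i)) (H : Simple F) {l r : ℝ}
    (h : l < r) : ∃ m ∈ Set.Ioo l r, Function.Injective fun i => F i m := by
  obtain ⟨m, h1, h2⟩ := ((Set.Ioo_infinite h).diff (H.finite hF l r)).nonempty
  exact ⟨m, h1, by_contra fun h3 => h2 ⟨Set.Ioo_subset_Icc_self h1, h3⟩⟩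

theorem rl_stab {F : ℝ → ι → ℝ → ℝ} (hF : ∀ i, Continuous fun q : ℝ × ℝ => F q.1 i q.2) {t₀ : ℝ}
    (H : Simple (F t₀)) {l r : ℝ} (hlr : l ≤ r) (hl : Function.Injective fun i => F t₀ i l)
    (hr : Function.Injective fun i => F t₀ i r) :
    ∀ᶠ t in 𝓝 t₀, ∀ u, Rl (F t) l r u ↔ Rl (F t₀) l r u := by
  have hc : ∀ i, Continuous (F t₀ i) := fun i =>
    (hF i).comp (continuous_const.prodMk continuous_id)
  generalize hn : {x ∈ Set.Icc l r | ¬Function.Injective fun i => F t₀ i x}.ncard = n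
  induction n using Nat.strong_induction_on generalizing l r with
  | _ n ih =>
    by_cases h : ∃ v ∈ Set.Icc l r, ∀ x ∈ Set.Icc l r, x ≠ v →
        Function.Injective fun i => F t₀ i x
    · obtain ⟨v, hv, ho⟩ := h
      exact Homot_one hF H hv hl hr ho
    obtain ⟨x, y, hx, hy, hxy⟩ : ∃ x y, (x ∈ Set.Icc l r ∧ ¬Function.Injective fun i => F t₀ i x) ∧
        (y ∈ Set.Icc l r ∧ ¬Function.Injective fun i => F t₀ i y) ∧ x < y := by
      push Not at h
      obtain ⟨x, hx, -, hx'⟩ := h l ⟨le_rfl, hlr⟩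
      obtain ⟨y, hy, hxy, hy'⟩ := h x hx
      rcases lt_or_gt_of_ne hxy with h1 | h1
      · exact ⟨y, x, ⟨hy, hy'⟩, ⟨hx, hx'⟩, h1⟩
      · exact ⟨x, y, ⟨hx, hx'⟩, ⟨hy, hy'⟩, h1⟩
    obtain ⟨m, hm, hi⟩ := Homot_free hc H hxy
    have h1 := hx.1.1.trans hm.1.le
    have h2 := hm.2.le.trans hy.1.2
    have k1 := ih _ (hn ▸ Set.ncard_lt_ncard ⟨fun z hz => ⟨⟨hz.1.1, hz.1.2.trans h2⟩, hz.2⟩,
      fun hs => (hs hy).1.2.not_gt hm.2⟩ (H.finite hc l r)) h1 hl hi rfl
    have k2 := ih _ (hn ▸ Set.ncard_lt_ncard ⟨fun z hz => ⟨⟨h1.trans hz.1.1, hz.1.2⟩, hz.2⟩,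
      fun hs => (hs hx).1.1.not_gt hm.1⟩ (H.finite hc l r)) h2 hi hr rfl
    filter_upwards [k1, k2] with t e1 e2 u
    constructor
    · intro hu
      obtain ⟨u₁, u₂, a1, a2, rfl⟩ := hu.split h1 h2
      exact ((e1 _).1 a1).trans ((e2 _).1 a2)
    · intro hu
      obtain ⟨u₁, u₂, a1, a2, rfl⟩ := hu.split h1 h2
      exact ((e1 _).2 a1).trans ((e2 _).2 a2)

theorem good_homot {F : ℝ → ι → ℝ → ℝ} (hF : ∀ i, Continuous fun q : ℝ × ℝ => F q.1 i q.2)
    {s : Equiv.Perm ι} (hs : ∀ t i φ, F t i (φ + π) = -F t (s i) φ)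
    (H : ∀ t ∈ Set.Icc (0 : ℝ) 1, Simple (F t)) {α : ℝ} (h0 : Good (F 0) s α) :
    Good (F 1) s α := by
  refine isPreconnected_Icc.induction₂' (fun x y => Good (F x) s α → Good (F y) s α)
    (fun x hx => ?_) (fun _ _ _ _ _ _ h h' k => h' (h k)) (Set.left_mem_Icc.2 zero_le_one)
    (Set.right_mem_Icc.2 zero_le_one) h0
  obtain ⟨m, -, hm⟩ := Homot_free (fun i => (hF i).comp (continuous_const.prodMk continuous_id))
    (H x hx) zero_lt_one
  have hm' : Function.Injective fun i => F x i (m + π) := fun a b h =>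
    s.injective (hm (neg_injective ((hs x a m).symm.trans (h.trans (hs x b m)))))
  filter_upwards [mem_nhdsWithin_of_mem_nhds
    (rl_stab hF (H x hx) (le_add_of_nonneg_right pi_pos.le) hm hm')] with y hy
  constructor
  · intro h
    obtain ⟨u, h1, h2⟩ := h.base (hs x) m
    exact Good.base (hs y) ⟨u, (hy u).2 h1, h2⟩ α
  · intro h
    obtain ⟨u, h1, h2⟩ := h.base (hs y) m
    exact Good.base (hs x) ⟨u, (hy u).1 h1, h2⟩ α

end Pool.Agent.P.MP_c09211_an.Sh.GL
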