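import Pool.Agent.P.MP_c09211_an.GL.Basic

/-!
Elementary facts on the function of Koebe (paper: G, Koebe facts).
-/

set_option autoImplicit false

namespace Pool.Agent.P.MP_c09211_an.Sh.GL

open Metric Set Finset PowerSeries Complex Filter Topology Real MeasureTheory
open scoped ComplexConjugate

theorem koe_norm {y : ℝ} (y0 : 0 ≤ y) (θ : ℝ) :
    ‖1 - y * eI θ‖ ^ 2 = (1 - y) ^ 2 + 4 * y * Real.sin (θ / 2) ^ 2 := by
  have h1 := Real.sin_sq_add_cos_sq θ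
  have h2 := Real.sin_sq_eq_half_sub (θ / 2)
  rw [show 2 * (θ / 2) = θ by ring] at h2
  rw [Complex.sq_norm, Complex.normSq_apply, h2]
  simp only [Complex.sub_re, Complex.one_re, Complex.sub_im, Complex.one_im, Complex.re_ofReal_mul,
    Complex.im_ofReal_mul, eI_re, eI_im]
  linear_combination y ^ 2 * h1

theorem koe_near_aux {θ y ε : ℝ} (hθ : θ ≠ 0) (hε : ε ≤ 1 / 2) (y1 : y ≤ 1)
    (h : |θ| * |θ| + (1 - y) ≤ ε * |θ|) :
    ‖(y * eI θ) / (1 - y * eI θ) ^ 2 + ((1 / θ ^ 2 : ℝ) : ℂ)‖ ≤ 20 * ε / θ ^ 2 := by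
  have ha : 0 < |θ| := abs_pos.2 hθ
  have hθε : |θ| ≤ ε := le_of_mul_le_mul_right (by linarith) ha
  have hε0 : 0 ≤ ε := ha.le.trans hθε
  have hn : ‖(θ : ℂ) * I‖ = |θ| := by simp
  set ρ : ℂ := 1 - y * eI θ + θ * I with hρ
  have h1 : ‖ρ‖ ≤ ε * |θ| := by
    have e : ρ = (1 - y : ℝ) * eI θ - (Complex.exp (θ * I) - 1 - θ * I) := by
      rw [hρ, eI]
      push_cast
      ring
    have h2 := Complex.norm_exp_sub_one_sub_id_le (x := θ * I) (by rw [hn]; linarith)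
    rw [hn] at h2
    rw [e]
    refine (norm_sub_le _ _).trans ?_
    rw [norm_mul, eI_norm, mul_one, Complex.norm_real, Real.norm_eq_abs,
      abs_of_nonneg (by linarith)]
    linarith
  have h3 : ε * |θ| ≤ |θ| / 2 := by nlinarith
  set u : ℂ := 1 - y * eI θ with hu
  have hu1 : u = ρ - θ * I := by rw [hρ]; ring
  have h4 : ‖u‖ ≤ 2 * |θ| := by
    rw [hu1]
    refine (norm_sub_le _ _).trans ?_
    rw [hn]
    linarith
  have h5 : |θ| / 2 ≤ ‖u‖ := by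
    have := norm_sub_norm_le ((θ : ℂ) * I) ρ
    rw [hn, norm_sub_rev, ← hu1] at this
    linarith
  have hu0 : u ≠ 0 := norm_pos_iff.1 (by linarith)
  have hθc : (θ : ℂ) ≠ 0 := by exact_mod_cast hθ
  have e : (y * eI θ) / u ^ 2 + ((1 / θ ^ 2 : ℝ) : ℂ) =
      (ρ * ρ - 2 * (θ * I * ρ) - u * (θ * θ)) / (u ^ 2 * θ ^ 2) := by
    have e1 : (y : ℂ) * eI θ = 1 - u := by rw [hu]; ring
    have e2 : ρ = u + θ * I := by rw [hu1]; ring
    rw [e1, e2]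
    push_cast
    field_simp
    linear_combination (θ : ℂ) ^ 2 * Complex.I_sq
  have h6 : ‖ρ * ρ - 2 * (θ * I * ρ) - u * (θ * θ)‖ ≤ 5 * ε * |θ| ^ 2 := by
    refine (norm_sub_le _ _).trans ((add_le_add_left (norm_sub_le _ _) _).trans ?_)
    rw [norm_mul, norm_mul, norm_mul, hn, norm_mul, norm_mul, Complex.norm_real, Real.norm_eq_abs,
      Complex.norm_two]
    have a1 : ‖ρ‖ * ‖ρ‖ ≤ ε * |θ| * |θ| :=
      mul_le_mul h1 (by linarith) (norm_nonneg _) (by positivity)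
    have a2 : |θ| * ‖ρ‖ ≤ |θ| * (ε * |θ|) := by gcongr
    have a3 : ‖u‖ * (|θ| * |θ|) ≤ 2 * ε * (|θ| * |θ|) :=
      mul_le_mul_of_nonneg_right (by linarith) (by positivity)
    linarith
  rw [e, norm_div, norm_mul, norm_pow, norm_pow, Complex.norm_real, Real.norm_eq_abs,
    ← sq_abs θ, div_le_div_iff₀ (by positivity) (by positivity)]
  have a4 : (|θ| / 2) ^ 2 ≤ ‖u‖ ^ 2 := by gcongr
  calc _ ≤ 5 * ε * |θ| ^ 2 * |θ| ^ 2 := by gcongr
    _ = 20 * ε * ((|θ| / 2) ^ 2 * |θ| ^ 2) := by ring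
    _ ≤ _ := by gcongr

theorem koe_near {e A η : ℝ} (e0 : 0 < e) (hη : 0 < η) : ∃ σ₁ : ℝ, 0 < σ₁ ∧ ∃ J₀ : ℕ, ∀ J ≥ J₀,
    ∀ θ y : ℝ, e / J ≤ |θ| → |θ| ≤ A / J → 1 - σ₁ / J ≤ y → y ≤ 1 →
      ‖(y * eI θ) / (1 - y * eI θ) ^ 2 + ((1 / θ ^ 2 : ℝ) : ℂ)‖ ≤ η * (J : ℝ) ^ 2 := by
  set ε : ℝ := min (1 / 2) (η * e ^ 2 / 20) with hε
  have hε0 : 0 < ε := by positivity
  obtain ⟨J₀, hJ₀⟩ := exists_nat_gt (2 * |A| / ε)
  refine ⟨e * ε / 2, by positivity, J₀, fun J hJ θ y h1 h2 h3 h4 => ?_⟩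
  have hJ1 : 2 * |A| / ε < J := hJ₀.trans_le (by exact_mod_cast hJ)
  have hJ0 : (0 : ℝ) < J := lt_of_le_of_lt (by positivity) hJ1
  have ha : 0 < |θ| := lt_of_lt_of_le (by positivity) h1
  have h5 : |θ| ≤ ε / 2 := by
    refine h2.trans ?_
    rw [div_lt_iff₀ hε0] at hJ1
    rw [div_le_iff₀ hJ0]
    linarith [le_abs_self A]
  have h6 : 1 - y ≤ ε / 2 * |θ| := by
    have : ε / 2 * (e / J) ≤ ε / 2 * |θ| := by gcongr
    have e1 : e * ε / 2 / J = ε / 2 * (e / J) := by ring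
    linarith
  refine (koe_near_aux (abs_pos.1 ha) (min_le_left _ _) h4 (by nlinarith)).trans ?_
  have h7 : e ^ 2 ≤ (J : ℝ) ^ 2 * θ ^ 2 := by
    rw [div_le_iff₀ hJ0] at h1
    rw [← sq_abs θ, ← mul_pow, mul_comm]
    gcongr
  have h8 : ε ≤ η * e ^ 2 / 20 := min_le_right _ _
  rw [div_le_iff₀ (by rw [← sq_abs]; positivity)]
  nlinarith

theorem koe_range {J : ℕ} (hJ : 2 ≤ J) {e A σ θ : ℝ} (e0 : 0 < e) (A0 : 0 < A) (σ0 : 0 < σ)
    (σ1 : σ ≤ 1) (σe : σ ≤ e) (hθ : |θ| ≤ π)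
    (h1 : 8 * (J : ℝ) ^ 2 / A ^ 2 ≤
      ‖((1 - σ / J : ℝ) * eI θ) / (1 - (1 - σ / J : ℝ) * eI θ) ^ 2‖)
    (h2 : ‖((1 - σ / J : ℝ) * eI θ) / (1 - (1 - σ / J : ℝ) * eI θ) ^ 2‖ ≤
      (J : ℝ) ^ 2 / (8 * e ^ 2)) : e / J ≤ |θ| ∧ |θ| ≤ A / J := by
  have hJ2 : (2 : ℝ) ≤ J := by exact_mod_cast hJ
  have hJ0 : (0 : ℝ) < J := by linarith
  have hd0 : 0 < σ / J := by positivity
  have hd1 : σ / J ≤ 1 / 2 := by
    rw [div_le_iff₀ hJ0]
    linarith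
  set y : ℝ := 1 - σ / J with hy
  have hy0 : 1 / 2 ≤ y := by linarith
  have hy1 : 0 < y := by linarith
  rw [norm_div, norm_pow, koe_norm hy1.le, norm_mul, eI_norm, mul_one, Complex.norm_real,
    Real.norm_eq_abs, abs_of_pos hy1, show 1 - y = σ / J by rw [hy]; ring] at h1 h2
  have hD : 0 < (σ / J) ^ 2 + 4 * y * Real.sin (θ / 2) ^ 2 := by positivity
  rw [div_le_div_iff₀ (by positivity) hD] at h1
  rw [div_le_div_iff₀ hD (by positivity)] at h2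
  constructor
  · have h3 : Real.sin (θ / 2) ^ 2 ≤ (θ / 2) ^ 2 := Real.sin_sq_le_sq
    have h4 : (J : ℝ) ^ 2 * (σ / J) ^ 2 = σ ^ 2 := by field_simp
    have h5 : σ ^ 2 ≤ e ^ 2 := by gcongr
    have h6 : (J : ℝ) ^ 2 * (4 * y * Real.sin (θ / 2) ^ 2) ≤ J ^ 2 * (4 * y * (θ / 2) ^ 2) := by
      gcongr
    have h7 : y * e ^ 2 ≤ y * (|θ| * J) ^ 2 := by
      rw [mul_pow, sq_abs]
      nlinarith [sq_nonneg e]
    rw [div_le_iff₀ hJ0]
    exact (pow_le_pow_iff_left₀ e0.le (by positivity) two_ne_zero).1 (le_of_mul_le_mul_left h7 hy1)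
  · have h3 := Real.mul_abs_le_abs_sin (x := θ / 2) (by
      rw [abs_div, abs_two]
      linarith)
    rw [abs_div, abs_two] at h3
    have h4 : |θ| / 4 ≤ |Real.sin (θ / 2)| := by
      refine le_trans ?_ h3
      have : 1 / 2 ≤ 2 / π := by
        rw [div_le_div_iff₀ two_pos Real.pi_pos]
        linarith [Real.pi_le_four]
      have := abs_nonneg θ
      nlinarith
    have h5 : (|θ| / 4) ^ 2 ≤ Real.sin (θ / 2) ^ 2 := by
      rw [← sq_abs (Real.sin _)]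
      gcongr
    have h6 : (J : ℝ) ^ 2 * (4 * y * (|θ| / 4) ^ 2) ≤ J ^ 2 * (4 * y * Real.sin (θ / 2) ^ 2) := by
      gcongr
    have h7 : y * (|θ| * J) ^ 2 ≤ y * A ^ 2 := by
      have : 0 ≤ (J : ℝ) ^ 2 * (σ / J) ^ 2 := by positivity
      have : 0 ≤ y * (|θ| * J) ^ 2 := by positivity
      nlinarith
    rw [le_div_iff₀ hJ0]
    exact (pow_le_pow_iff_left₀ (by positivity) A0.le two_ne_zero).1 (le_of_mul_le_mul_left h7 hy1)

theorem koe_im {z : ℂ} (hz : z ≠ 1) (h1 : ‖z‖ ≤ 1) :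
    |(z / (1 - z) ^ 2).im| ≤ 2 * (1 - ‖z‖) / ‖1 - z‖ ^ 3 := by
  have h0 : 0 < ‖1 - z‖ := norm_pos_iff.2 (sub_ne_zero.2 hz.symm)
  have e : (z / (1 - z) ^ 2).im = z.im * (1 - ‖z‖ ^ 2) / ‖1 - z‖ ^ 4 := by
    rw [Complex.div_im, ← sub_div, map_pow, Complex.normSq_eq_norm_sq, ← pow_mul, Complex.sq_norm z,
      Complex.normSq_apply]
    congr 1
    simp [sq]
    ring
  have h2 : |z.im| ≤ ‖1 - z‖ := by simpa using Complex.abs_im_le_norm (1 - z)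
  have h3 := norm_nonneg z
  have h4 : 0 ≤ 1 - ‖z‖ ^ 2 := by nlinarith
  have h5 : 1 - ‖z‖ ^ 2 ≤ 2 * (1 - ‖z‖) := by nlinarith
  rw [e, abs_div, abs_mul, abs_of_nonneg h4, abs_of_pos (pow_pos h0 4),
    div_le_div_iff₀ (by positivity) (by positivity)]
  calc _ ≤ ‖1 - z‖ * (2 * (1 - ‖z‖)) * ‖1 - z‖ ^ 3 := by gcongr
    _ = _ := by ring

theorem koe_far {M h σ J : ℝ} (h0 : 0 < h) (hM : 0 ≤ M) (hJ : 2 ≤ J) (σ1 : σ ≤ 1)
    (hσ : σ ≤ h / (4 * (2 * (M + h) + 1) ^ 3)) {t z : ℂ} (ht : ‖t‖ ≤ M * J ^ 2)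
    (hi : |t.im| = h * J ^ 2) (hz : z ≠ 1) (h1 : ‖z‖ ≤ 1) (h2 : 1 - σ / J ≤ ‖z‖) :
    h * J ^ 2 / 2 ≤ ‖z / (1 - z) ^ 2 - t‖ := by
  have hu : 0 < ‖1 - z‖ := norm_pos_iff.2 (sub_ne_zero.2 hz.symm)
  have hJ0 : 0 < J := by linarith
  set L : ℝ := 2 * (M + h) + 1 with hL
  have hL1 : 1 ≤ L := by linarith
  rcases le_total (L * J * ‖1 - z‖) 1 with h3 | h3
  · have h4 : σ / J ≤ 1 / 2 := by
      rw [div_le_iff₀ hJ0]
      linarith
    have h5 : (L * J) ^ 2 / 2 ≤ ‖z / (1 - z) ^ 2‖ := by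
      rw [norm_div, norm_pow, le_div_iff₀ (by positivity)]
      have : (L * J * ‖1 - z‖) ^ 2 ≤ 1 := pow_le_one₀ (by positivity) h3
      linarith
    have h6 := norm_sub_norm_le (z / (1 - z) ^ 2) t
    have h7 : (2 * M + h) * J ^ 2 ≤ L ^ 2 * J ^ 2 :=
      mul_le_mul_of_nonneg_right (by nlinarith) (by positivity)
    linarith
  · have h4 := koe_im hz h1
    have h5 : 2 * (1 - ‖z‖) / ‖1 - z‖ ^ 3 ≤ h * J ^ 2 / 2 := by
      have a1 : 1 ≤ (L * J * ‖1 - z‖) ^ 3 := one_le_pow₀ h3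
      have a2 : (1 - ‖z‖) * J ≤ σ := by
        rw [← le_div_iff₀ hJ0]
        linarith
      rw [le_div_iff₀ (by positivity)] at hσ
      have a3 : (1 - ‖z‖) * J * (4 * L ^ 3) ≤ h := le_trans (by gcongr) hσ
      rw [div_le_iff₀ (by positivity)]
      calc 2 * (1 - ‖z‖) ≤ 2 * (1 - ‖z‖) * (L * J * ‖1 - z‖) ^ 3 :=
            le_mul_of_one_le_right (by linarith) a1
        _ = (1 - ‖z‖) * J * (4 * L ^ 3) * J ^ 2 / 2 * ‖1 - z‖ ^ 3 := by ring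
        _ ≤ _ := by gcongr
    have h6 := Complex.abs_im_le_norm (z / (1 - z) ^ 2 - t)
    have h7 := abs_sub_abs_le_abs_sub t.im (z / (1 - z) ^ 2).im
    rw [Complex.sub_im, abs_sub_comm] at h6
    linarith

theorem koe_root {t : ℂ} (ht : t ≠ 0) : ∃ z : ℂ, z ≠ 1 ∧ ‖z‖ ≤ 1 ∧ z / (1 - z) ^ 2 = t := by
  have key : ∀ z : ℂ, t * (z * z) + -(2 * t + 1) * z + t = 0 → z ≠ 1 ∧ z / (1 - z) ^ 2 = t := by
    intro z hz
    have h1 : z ≠ 1 := by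
      rintro rfl
      exact one_ne_zero (by linear_combination -hz : (1 : ℂ) = 0)
    refine ⟨h1, ?_⟩
    rw [div_eq_iff (pow_ne_zero _ (sub_ne_zero.2 h1.symm))]
    linear_combination -hz
  obtain ⟨z, hz⟩ := exists_quadratic_eq_zero (b := -(2 * t + 1)) (c := t) ht
    (IsAlgClosed.exists_eq_mul_self _)
  rcases le_total ‖z‖ 1 with h | h
  · exact ⟨z, (key z hz).1, h, (key z hz).2⟩
  · have h0 : z ≠ 0 := norm_pos_iff.1 (by linarith)
    have hz' := key z⁻¹ (by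
      field_simp
      linear_combination hz)
    exact ⟨z⁻¹, hz'.1, by rw [norm_inv]; exact inv_le_one_of_one_le₀ h, hz'.2⟩

/-- Values at a fixed height above or below the slit are taken. -/
theorem koe_value {C h : ℝ} (h0 : 0 < h) : ∃ η : ℝ, 0 < η ∧ ∃ σ₁ : ℝ, 0 < σ₁ ∧ ∀ J : ℕ, 2 ≤ J →
    ∀ (σ : ℝ) (E : ℂ → ℂ) (t : ℂ), 0 < σ → σ ≤ σ₁ → Differentiable ℂ E →
      (∀ z : ℂ, ‖z‖ = 1 - σ / J → ‖E z - z / (1 - z) ^ 2‖ ≤ η * (J : ℝ) ^ 2) →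
      |t.re| ≤ C * (J : ℝ) ^ 2 → |t.im| = h * (J : ℝ) ^ 2 → t ∈ E '' ball 0 1 := by
  refine ⟨h / 8, by positivity, min 1 (h / (4 * (2 * (|C| + h + h) + 1) ^ 3)), by positivity,
    fun J hJ σ E t σ0 hσ hE hk hre him => ?_⟩
  have hJ2 : (2 : ℝ) ≤ J := by exact_mod_cast hJ
  have hJ0 : (0 : ℝ) < J := by linarith
  have σ1 : σ ≤ 1 := hσ.trans (min_le_left _ _)
  have hd0 : 0 < σ / J := by positivity
  have hd1 : σ / J ≤ 1 / 2 := by
    rw [div_le_iff₀ hJ0]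
    linarith
  have hhJ : 0 < h * (J : ℝ) ^ 2 := by positivity
  have ht : ‖t‖ ≤ (|C| + h) * (J : ℝ) ^ 2 := by
    have h1 := Complex.norm_le_abs_re_add_abs_im t
    have h2 : C * (J : ℝ) ^ 2 ≤ |C| * (J : ℝ) ^ 2 :=
      mul_le_mul_of_nonneg_right (le_abs_self C) (by positivity)
    linarith
  have far := fun z : ℂ => koe_far (z := z) h0 (by positivity) hJ2 σ1
    (hσ.trans (min_le_right _ _)) ht him
  obtain ⟨z₀, z1, z2, z3⟩ := koe_root (t := t) (by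
    rintro rfl
    simp only [Complex.zero_im, abs_zero] at him
    linarith)
  have z4 : ‖z₀‖ < 1 - σ / J := by
    by_contra h1
    have := far z₀ z1 z2 (not_lt.1 h1)
    rw [z3, sub_self, norm_zero] at this
    linarith
  by_contra hn
  have hne : ∀ z : ℂ, ‖z‖ ≤ 1 - σ / J → E z - t ≠ 0 ∧ z ≠ 1 := fun z hz =>
    ⟨fun e => hn ⟨z, mem_ball_zero_iff.2 (by linarith), sub_eq_zero.1 e⟩, fun e => by
      rw [e, norm_one] at hz
      linarith⟩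
  have hr : (1 : ℝ) - σ / J ≠ 0 := by linarith
  have hd : DiffContOnCl ℂ (fun z => (E z - z / (1 - z) ^ 2) / (E z - t))
      (ball 0 (1 - σ / J)) := by
    refine DifferentiableOn.diffContOnCl fun z hz => DifferentiableAt.differentiableWithinAt ?_
    rw [closure_ball _ hr, mem_closedBall_zero_iff] at hz
    have h1 := (hne z hz).1
    have h2 : (1 - z) ^ 2 ≠ 0 := pow_ne_zero _ (sub_ne_zero.2 (hne z hz).2.symm)
    have h3 := hE z
    fun_prop (disch := assumption)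
  have := Complex.norm_le_of_forall_mem_frontier_norm_le isBounded_ball hd (C := 1 / 2)
    (fun z hz => by
      rw [frontier_ball _ hr, mem_sphere_zero_iff_norm] at hz
      have h1 := hk z hz
      have h2 := far z (hne z hz.le).2 (by linarith) hz.ge
      have h3 := norm_sub_le (E z - t) (E z - z / (1 - z) ^ 2)
      rw [sub_sub_sub_cancel_left] at h3
      rw [norm_div, div_le_iff₀ (norm_pos_iff.2 (hne z hz.le).1)]
      linarith) (subset_closure (mem_ball_zero_iff.2 z4))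
  rw [z3, div_self (hne z₀ z4.le).1, norm_one] at this
  linarith

end Pool.Agent.P.MP_c09211_an.Sh.GL
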