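import Pool.Agent.P.MP_c09211_an.GL.Basic

/-!
Localisation of the cells (paper: LOC).
-/

set_option autoImplicit false

namespace Pool.Agent.P.MP_c09211_an.Sh.GL

open Metric Set Finset PowerSeries Complex Filter Topology Real MeasureTheory
open scoped ComplexConjugate

variable {N : ℕ} {c : ℝ → ℂ} {ρ : ℝ → ℝ} {Ω : Set ℂ} {cl : ℝ → Option (Fin (N - 2))}
  {g : Fin (N - 2) → ℝ → ℝ}

theorem Res.right {p : ℝ → ℝ} (H : Res N p cl g) (x : ℝ) :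
    ∃ d : ℝ, 0 < d ∧ ∀ y ∈ Set.Ico x (x + d), cl y = cl x := by
  obtain ⟨X, hX⟩ := H.fin x (x + 1)
  have hne : (insert (x + 1) (X.filter fun ξ => x < ξ)).Nonempty := Finset.insert_nonempty _ _
  have h1 : x < Finset.min' _ hne := by
    rw [Finset.lt_min'_iff]
    intro ξ hξ
    rcases Finset.mem_insert.1 hξ with rfl | h
    · linarith
    · exact (Finset.mem_filter.1 h).2
  refine ⟨Finset.min' _ hne - x, sub_pos.2 h1, fun y hy => ?_⟩
  have h2 : y < Finset.min' _ hne := by linarith [hy.2]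
  have h3 := Finset.min'_le _ _ (Finset.mem_insert_self (x + 1) (X.filter fun ξ => x < ξ))
  refine (hX x y le_rfl hy.1 (h2.le.trans h3) fun ξ hξ h => ?_).symm
  have h4 := Finset.min'_le (insert (x + 1) (X.filter fun ξ => x < ξ)) ξ
    (Finset.mem_insert_of_mem (Finset.mem_filter.2 ⟨hξ, h.1⟩))
  exact not_le.2 h2 (h4.trans h.2)

theorem Res.per_int {p : ℝ → ℝ} (H : Res N p cl g) (x : ℝ) (k : ℤ) :
    cl (x + k * (N * π)) = cl x :=
  Function.Periodic.int_mul (f := cl) H.per k x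

/-- The abscissa at which a pseudoline meets the horizontal line of height `σ`. -/
noncomputable def Loc_xi (G : ℝ → ℝ) (σ φ : ℝ) : ℝ := (σ * Real.cos φ - G φ) / Real.sin φ

theorem Loc_xi_per {G : ℝ → ℝ} (h : ∀ x, G (x + π) = -G x) (σ : ℝ) :
    Function.Periodic (Loc_xi G σ) π := by
  intro x
  rw [Loc_xi, Loc_xi, h, Real.cos_add_pi, Real.sin_add_pi, div_neg, ← neg_div]
  congr 1
  ring

theorem Loc_xi_pf {y : ℝ} (hy : Real.sin y ≠ 0) (σ : ℝ) :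
    Loc_xi (pf c) σ y = (c y).re + (σ - (c y).im) * Real.cos y / Real.sin y := by
  rw [Loc_xi, pf, Sw_eq]
  field_simp
  ring

theorem Loc_xi_der (hc : Crv c ρ) {y : ℝ} (hy : Real.sin y ≠ 0) (σ : ℝ) :
    HasDerivAt (Loc_xi (pf c) σ) (((c y).im - σ) / Real.sin y ^ 2) y := by
  have h1 : HasDerivAt (pf c) (-((c y).re * Real.cos y + (c y).im * Real.sin y)) y := by
    have h2 := hc.dF 0 y
    simp only [Sw_eq, Complex.zero_im, Complex.zero_re, zero_mul, sub_zero] at h2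
    refine h2.congr_deriv ?_
    rw [Complex.mul_re, eI_re, eI_im, Real.cos_neg, Real.sin_neg]
    simp
    ring
  refine ((((Real.hasDerivAt_cos y).const_mul σ).sub h1).div (Real.hasDerivAt_sin y)
    hy).congr_deriv ?_
  simp only [Pi.sub_apply]
  rw [pf, Sw_eq]
  congr 1
  linear_combination ((c y).im - σ) * Real.sin_sq_add_cos_sq y

theorem Loc_slope {f : ℝ → ℝ} {f' y : ℝ} (h : HasDerivAt f f' y) (h0 : f' < 0) {δ : ℝ}
    (hδ : 0 < δ) : ∃ t, 0 < t ∧ t < δ ∧ f (y + t) < f y := by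
  have h1 := h.tendsto_slope_zero_right.eventually (gt_mem_nhds h0)
  obtain ⟨t, ht, h2⟩ := (h1.and (Ioo_mem_nhdsGT hδ)).exists
  refine ⟨t, h2.1, h2.2, ?_⟩
  rw [smul_eq_mul] at ht
  have h3 := neg_of_mul_neg_right ht (inv_pos.2 h2.1).le
  linarith

theorem Loc_agree {p : ℝ → ℝ} (H : Res N p cl g) {y : ℝ} {Δ : Fin (N - 2)} (hy : cl y = some Δ)
    (σ : ℝ) : Loc_xi (g Δ) σ y = Loc_xi p σ y := by
  rw [Loc_xi, Loc_xi, H.agree y Δ hy]

theorem Loc_dn (hc : Crv c ρ) (H : Res N (pf c) cl g) {φ : ℝ} {k : ℤ} {Δ : Fin (N - 2)}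
    (hy : cl (φ + k * π) = some Δ) (hs : Real.sin (φ + k * π) ≠ 0) {σ : ℝ}
    (h : (c (φ + k * π)).im < σ) {δ : ℝ} (hδ : 0 < δ) :
    ∃ t, 0 < t ∧ t < δ ∧ Loc_xi (g Δ) σ (φ + t) < Loc_xi (g Δ) σ φ := by
  obtain ⟨d, hd, hr⟩ := H.right (φ + k * π)
  obtain ⟨t, t0, t1, ht⟩ := Loc_slope (Loc_xi_der hc hs σ)
    (div_neg_of_neg_of_pos (sub_neg.2 h) (by positivity)) (lt_min hδ hd)
  refine ⟨t, t0, t1.trans_le (min_le_left _ _), ?_⟩
  have h1 : cl (φ + k * π + t) = some Δ :=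
    (hr _ ⟨by linarith, by linarith [t1.trans_le (min_le_right _ _)]⟩).trans hy
  have hp := (Loc_xi_per (H.anti Δ) σ).int_mul k
  rw [← hp φ, ← hp (φ + t), add_right_comm, Loc_agree H hy, Loc_agree H h1]
  exact ht

theorem Loc_up (hc : Crv c ρ) (H : Res N (pf c) cl g) {φ : ℝ} {k : ℤ} {Δ : Fin (N - 2)}
    (hy : cl (φ + k * π) = some Δ) (hs : Real.sin (φ + k * π) ≠ 0) {σ : ℝ}
    (h : σ < (c (φ + k * π)).im) {δ : ℝ} (hδ : 0 < δ) :
    ∃ t, 0 < t ∧ t < δ ∧ Loc_xi (g Δ) σ φ < Loc_xi (g Δ) σ (φ + t) := by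
  obtain ⟨d, hd, hr⟩ := H.right (φ + k * π)
  obtain ⟨t, t0, t1, ht⟩ := Loc_slope (Loc_xi_der hc hs σ).neg
    (neg_neg_of_pos (div_pos (sub_pos.2 h) (by positivity))) (lt_min hδ hd)
  refine ⟨t, t0, t1.trans_le (min_le_left _ _), ?_⟩
  have h1 : cl (φ + k * π + t) = some Δ :=
    (hr _ ⟨by linarith, by linarith [t1.trans_le (min_le_right _ _)]⟩).trans hy
  have hp := (Loc_xi_per (H.anti Δ) σ).int_mul k
  rw [← hp φ, ← hp (φ + t), add_right_comm, Loc_agree H hy, Loc_agree H h1]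
  exact neg_lt_neg_iff.1 ht

theorem Loc_alt {G : ℝ → ℝ} {σ a x₁ x₂ x₃ : ℝ} (h0 : 0 < x₁) (h1 : x₁ < x₂) (h2 : x₂ < x₃)
    (h3 : x₃ < π) (a1 : (a - Loc_xi G σ x₁) * (a - Loc_xi G σ x₂) < 0)
    (a2 : (a - Loc_xi G σ x₂) * (a - Loc_xi G σ x₃) < 0) :
    Alt fun x => G x - Sw ((a : ℂ) + σ * I) x := by
  have key : ∀ x, 0 < x → x < π →
      G x - Sw ((a : ℂ) + σ * I) x = Real.sin x * (a - Loc_xi G σ x) := by
    intro x p q
    have hs := (Real.sin_pos_of_pos_of_lt_pi p q).ne'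
    rw [Sw_eq, Loc_xi]
    simp only [Complex.add_im, Complex.ofReal_im, Complex.mul_im, Complex.ofReal_re, Complex.I_im,
      Complex.I_re, Complex.add_re, Complex.mul_re]
    field_simp
    ring
  have s1 := Real.sin_pos_of_pos_of_lt_pi h0 (by linarith)
  have s2 := Real.sin_pos_of_pos_of_lt_pi (x := x₂) (by linarith) (by linarith)
  have s3 := Real.sin_pos_of_pos_of_lt_pi (x := x₃) (by linarith) h3
  refine ⟨x₁, x₂, x₃, h1, h2, by linarith, ?_, ?_⟩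
  · simp only
    rw [key x₁ h0 (by linarith), key x₂ (by linarith) (by linarith), mul_mul_mul_comm]
    exact mul_neg_of_pos_of_neg (mul_pos s1 s2) a1
  · simp only
    rw [key x₂ (by linarith) (by linarith), key x₃ (by linarith) h3, mul_mul_mul_comm]
    exact mul_neg_of_pos_of_neg (mul_pos s2 s3) a2

section shape

variable {G : ℝ → ℝ} {σ lo hi x₁ x₂ x₃ : ℝ}

theorem Loc_valley (hA : ∀ a ∈ Set.Icc lo hi, ¬ Alt fun x => G x - Sw ((a : ℂ) + σ * I) x)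
    (h0 : 0 < x₁) (h1 : x₁ < x₂) (h2 : x₂ < x₃) (h3 : x₃ < π) (hl : lo < hi)
    (a1 : Loc_xi G σ x₂ < Loc_xi G σ x₁) (a2 : Loc_xi G σ x₂ < Loc_xi G σ x₃)
    (a3 : Loc_xi G σ x₂ < hi) (a4 : lo < Loc_xi G σ x₁) (a5 : lo < Loc_xi G σ x₃) : False := by
  obtain ⟨a, b1, b2⟩ := exists_between (show max (Loc_xi G σ x₂) lo <
      min (min (Loc_xi G σ x₁) (Loc_xi G σ x₃)) hi from
    max_lt (lt_min (lt_min a1 a2) a3) (lt_min (lt_min a4 a5) hl))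
  rw [max_lt_iff] at b1
  rw [lt_min_iff, lt_min_iff] at b2
  exact hA a ⟨b1.2.le, b2.2.le⟩ (Loc_alt h0 h1 h2 h3
    (mul_neg_of_neg_of_pos (sub_neg.2 b2.1.1) (sub_pos.2 b1.1))
    (mul_neg_of_pos_of_neg (sub_pos.2 b1.1) (sub_neg.2 b2.1.2)))

theorem Loc_peak (hA : ∀ a ∈ Set.Icc lo hi, ¬ Alt fun x => G x - Sw ((a : ℂ) + σ * I) x)
    (h0 : 0 < x₁) (h1 : x₁ < x₂) (h2 : x₂ < x₃) (h3 : x₃ < π) (hl : lo < hi)
    (a1 : Loc_xi G σ x₁ < Loc_xi G σ x₂) (a2 : Loc_xi G σ x₃ < Loc_xi G σ x₂)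
    (a3 : lo < Loc_xi G σ x₂) (a4 : Loc_xi G σ x₁ < hi) (a5 : Loc_xi G σ x₃ < hi) : False := by
  obtain ⟨a, b1, b2⟩ := exists_between (show max (max (Loc_xi G σ x₁) (Loc_xi G σ x₃)) lo <
      min (Loc_xi G σ x₂) hi from
    max_lt (max_lt (lt_min a1 a4) (lt_min a2 a5)) (lt_min a3 hl))
  rw [max_lt_iff, max_lt_iff] at b1
  rw [lt_min_iff] at b2
  exact hA a ⟨b1.2.le, b2.2.le⟩ (Loc_alt h0 h1 h2 h3
    (mul_neg_of_pos_of_neg (sub_pos.2 b1.1.1) (sub_neg.2 b2.1))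
    (mul_neg_of_neg_of_pos (sub_neg.2 b2.1) (sub_pos.2 b1.1.2)))

end shape

theorem Loc_red {x : ℝ} (hx : Real.sin x ≠ 0) :
    ∃ (φ : ℝ) (m : ℤ), 0 < φ ∧ φ < π ∧ x = φ + m * π := by
  have h1 := Int.floor_le (x / π)
  have h2 := Int.lt_floor_add_one (x / π)
  rw [le_div_iff₀ Real.pi_pos] at h1
  rw [div_lt_iff₀ Real.pi_pos] at h2
  refine ⟨x - ⌊x / π⌋ * π, ⌊x / π⌋, lt_of_le_of_ne (sub_nonneg.2 h1) fun h => hx ?_,
    by linarith, by ring⟩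
  rw [Real.sin_eq_zero_iff]
  exact ⟨⌊x / π⌋, by linarith⟩

theorem Loc_bd {x s h e : ℝ} (e0 : 0 < e) (ht : e ≤ |Real.sin x|) (hs : |s| ≤ 2 * h) :
    |s * Real.cos x / Real.sin x| ≤ 2 * h / e := by
  rw [abs_div, abs_mul]
  refine div_le_div₀ ((abs_nonneg s).trans hs) ?_ e0 ht
  exact (mul_le_of_le_one_right (abs_nonneg s) (Real.abs_cos_le_one x)).trans hs

theorem loc (hc : Crv c ρ) (H : Cells N c Ω cl g) {lo hi h e : ℝ} (h0 : 0 < h) (e0 : 0 < e)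
    (hΩ : ∀ ξ ∈ Set.Icc lo hi, (ξ : ℂ) + h * I ∈ Ω ∧ (ξ : ℂ) - h * I ∈ Ω) {x : ℝ}
    {Δ : Fin (N - 2)} (hx : cl x = some Δ) (ht : e ≤ |Real.sin x|) (i1 : |(c x).im| < h)
    (r1 : lo + 2 * h / e < (c x).re) (r2 : (c x).re < hi - 2 * h / e) :
    ∃ k : ℤ, cl (π / 2 + k * π) = some Δ ∧ lo ≤ (c (π / 2 + k * π)).re ∧
      (c (π / 2 + k * π)).re ≤ hi ∧ |(c (π / 2 + k * π)).im| ≤ h := by
  have hs : Real.sin x ≠ 0 := abs_pos.1 (e0.trans_le ht)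
  have he : 0 < 2 * h / e := by positivity
  have hπ := Real.pi_pos
  have hl : lo < hi := by linarith
  obtain ⟨i2, i3⟩ := abs_lt.1 i1
  obtain ⟨φ, m, p0, p1, rfl⟩ := Loc_red hs
  have hP : ∀ a ∈ Set.Icc lo hi, ¬ Alt fun x => g Δ x - Sw ((a : ℂ) + h * I) x :=
    fun a ha hA => H.za Δ _ hA (hΩ a ha).1
  have hM : ∀ a ∈ Set.Icc lo hi, ¬ Alt fun x => g Δ x - Sw ((a : ℂ) + (-h : ℝ) * I) x :=
    fun a ha hA => H.za Δ _ hA (by
      rw [Complex.ofReal_neg, neg_mul, ← sub_eq_add_neg]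
      exact (hΩ a ha).2)
  have hv : ∀ σ, |σ| ≤ h → lo < Loc_xi (g Δ) σ φ ∧ Loc_xi (g Δ) σ φ < hi := by
    intro σ hσ
    obtain ⟨s1, s2⟩ := abs_le.1 hσ
    have a1 := abs_le.1 (Loc_bd (s := σ - (c (φ + m * π)).im) (h := h) e0 ht
      (abs_le.2 ⟨by linarith, by linarith⟩))
    rw [← (Loc_xi_per (H.res.anti Δ) σ).int_mul m φ, Loc_agree H.res hx, Loc_xi_pf hs]
    exact ⟨by linarith [a1.1], by linarith [a1.2]⟩
  obtain ⟨u1, u2⟩ := hv h (abs_of_pos h0).le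
  obtain ⟨v1, v2⟩ := hv (-h) (by rw [abs_neg, abs_of_pos h0])
  have dn := fun δ hδ => Loc_dn hc H.res hx hs i3 (δ := δ) hδ
  have up := fun δ hδ => Loc_up hc H.res hx hs i2 (δ := δ) hδ
  obtain ⟨j, -, hj⟩ := H.res.hit (π / 2) (some Δ)
  have hj' : cl (π / 2 + (j : ℤ) * π) = some Δ := by rwa [Int.cast_natCast]
  have hcos : Real.cos (π / 2 + (j : ℤ) * π) = 0 := by
    rw [Real.cos_add_int_mul_pi, Real.cos_pi_div_two, mul_zero]
  have hsin : Real.sin (π / 2 + (j : ℤ) * π) ≠ 0 := by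
    intro h1
    have h2 := Real.sin_sq_add_cos_sq (π / 2 + (j : ℤ) * π)
    rw [h1, hcos] at h2
    norm_num at h2
  have hR : ∀ σ, Loc_xi (g Δ) σ (π / 2) = (c (π / 2 + (j : ℤ) * π)).re := by
    intro σ
    rw [← (Loc_xi_per (H.res.anti Δ) σ).int_mul j (π / 2), Loc_agree H.res hj', Loc_xi_pf hsin,
      hcos, mul_zero, zero_div, add_zero]
  have Rp := hR h
  have Rm := hR (-h)
  rcases lt_trichotomy φ (π / 2) with hφ | hφ | hφ
  · have b1 : Loc_xi (g Δ) h (π / 2) < Loc_xi (g Δ) h φ := by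
      by_contra hn
      obtain ⟨t, t0, t1, t2⟩ := dn (π / 2 - φ) (by linarith)
      exact Loc_valley hP (x₁ := φ) (x₂ := φ + t) (x₃ := π / 2) p0 (by linarith) (by linarith)
        (by linarith) hl t2 (by linarith) (by linarith) u1 (by linarith)
    have b2 : Loc_xi (g Δ) (-h) φ < Loc_xi (g Δ) (-h) (π / 2) := by
      by_contra hn
      obtain ⟨t, t0, t1, t2⟩ := up (π / 2 - φ) (by linarith)
      exact Loc_peak hM (x₁ := φ) (x₂ := φ + t) (x₃ := π / 2) p0 (by linarith) (by linarith)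
        (by linarith) hl t2 (by linarith) (by linarith) v2 (by linarith)
    refine ⟨j, hj', by linarith, by linarith, abs_le.2 ⟨?_, ?_⟩⟩
    · by_contra hn
      obtain ⟨t, t0, t1, t2⟩ := Loc_dn hc H.res hj' hsin (not_le.1 hn) (δ := π / 2) (by linarith)
      exact Loc_peak hM (x₁ := φ) (x₂ := π / 2) (x₃ := π / 2 + t) p0 hφ (by linarith)
        (by linarith) hl b2 t2 (by linarith) v2 (by linarith)
    · by_contra hn
      obtain ⟨t, t0, t1, t2⟩ := Loc_up hc H.res hj' hsin (not_le.1 hn) (δ := π / 2) (by linarith)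
      exact Loc_valley hP (x₁ := φ) (x₂ := π / 2) (x₃ := π / 2 + t) p0 hφ (by linarith)
        (by linarith) hl b1 t2 (by linarith) u1 (by linarith)
  · subst hφ
    exact ⟨m, hx, by linarith, by linarith, i1.le⟩
  · have b1 : Loc_xi (g Δ) h φ ≤ Loc_xi (g Δ) h (π / 2) := by
      by_contra hn
      obtain ⟨t, t0, t1, t2⟩ := dn (π - φ) (by linarith)
      exact Loc_peak hP (x₁ := π / 2) (x₂ := φ) (x₃ := φ + t) (by linarith) hφ (by linarith)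
        (by linarith) hl (not_le.1 hn) t2 u1 (by linarith) (by linarith)
    have b2 : Loc_xi (g Δ) (-h) (π / 2) ≤ Loc_xi (g Δ) (-h) φ := by
      by_contra hn
      obtain ⟨t, t0, t1, t2⟩ := up (π - φ) (by linarith)
      exact Loc_valley hM (x₁ := π / 2) (x₂ := φ) (x₃ := φ + t) (by linarith) hφ (by linarith)
        (by linarith) hl (not_le.1 hn) t2 v2 (by linarith) (by linarith)
    refine ⟨j, hj', by linarith, by linarith, abs_le.2 ⟨?_, ?_⟩⟩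
    · by_contra hn
      obtain ⟨t, t0, t1, t2⟩ := Loc_dn hc H.res hj' hsin (not_le.1 hn) (δ := φ - π / 2)
        (by linarith)
      exact Loc_valley hM (x₁ := π / 2) (x₂ := π / 2 + t) (x₃ := φ) (by linarith) (by linarith)
        (by linarith) p1 hl t2 (by linarith) (by linarith) (by linarith) v1
    · by_contra hn
      obtain ⟨t, t0, t1, t2⟩ := Loc_up hc H.res hj' hsin (not_le.1 hn) (δ := φ - π / 2)
        (by linarith)
      exact Loc_peak hP (x₁ := π / 2) (x₂ := π / 2 + t) (x₃ := φ) (by linarith) (by linarith)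
        (by linarith) p1 hl t2 (by linarith) (by linarith) (by linarith) u2

theorem Loc_count (a : ℝ) {l : ℝ} (l0 : 0 ≤ l) : ∃ S : Finset ℤ, (S.card : ℝ) ≤ l / π + 1 ∧
    ∀ n : ℤ, π / 2 + n * π ∈ Set.Icc a (a + l) → n ∈ S := by
  have hπ := Real.pi_pos
  refine ⟨Finset.Icc ⌈(a - π / 2) / π⌉ ⌊(a - π / 2) / π + l / π⌋, ?_, fun n hn => ?_⟩
  · have h1 := Int.le_ceil ((a - π / 2) / π)
    have h2 := Int.floor_le ((a - π / 2) / π + l / π)
    have h3 : 0 ≤ l / π := by positivity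
    rw [Int.card_Icc]
    rcases le_total (⌊(a - π / 2) / π + l / π⌋ + 1 - ⌈(a - π / 2) / π⌉) 0 with h | h
    · rw [Int.toNat_of_nonpos h, Nat.cast_zero]
      linarith
    · rw [← Int.cast_natCast, Int.toNat_of_nonneg h]
      push_cast
      linarith
  · rw [Finset.mem_Icc, Int.ceil_le, Int.le_floor, ← add_div, div_le_iff₀ hπ, le_div_iff₀ hπ]
    exact ⟨by linarith [hn.1], by linarith [hn.2]⟩

theorem loc_card (hc : Crv c ρ) (H : Cells N c Ω cl g) {lo hi h e : ℝ} (h0 : 0 < h) (e0 : 0 < e)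
    (hΩ : ∀ ξ ∈ Set.Icc lo hi, (ξ : ℂ) + h * I ∈ Ω ∧ (ξ : ℂ) - h * I ∈ Ω) {a₁ a₂ l : ℝ}
    (l0 : 0 ≤ l) (hy : ∀ y, lo ≤ (c y).re → (c y).re ≤ hi → |(c y).im| ≤ h →
      ∃ k : ℤ, y + k * (N * π) ∈ Set.Icc a₁ (a₁ + l) ∪ Set.Icc a₂ (a₂ + l))
    (T : Finset (Fin (N - 2))) (hT : ∀ Δ ∈ T, ∃ x, cl x = some Δ ∧ e ≤ |Real.sin x| ∧
      |(c x).im| < h ∧ lo + 2 * h / e < (c x).re ∧ (c x).re < hi - 2 * h / e) :
    (T.card : ℝ) ≤ 2 * (l / π + 1) := by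
  obtain ⟨S₁, c1, m1⟩ := Loc_count a₁ l0
  obtain ⟨S₂, c2, m2⟩ := Loc_count a₂ l0
  have key : ∀ Δ ∈ T, ∃ n : ℤ, n ∈ S₁ ∪ S₂ ∧ cl (π / 2 + n * π) = some Δ := by
    intro Δ hΔ
    obtain ⟨x, x1, x2, x3, x4, x5⟩ := hT Δ hΔ
    obtain ⟨k, k1, k2, k3, k4⟩ := loc hc H h0 e0 hΩ x1 x2 x3 x4 x5
    obtain ⟨m, hm⟩ := hy _ k2 k3 k4
    have e1 : π / 2 + k * π + m * (N * π) = π / 2 + ((k + m * N : ℤ) : ℝ) * π := by
      push_cast
      ring
    refine ⟨k + m * N, ?_, by rw [← e1, H.res.per_int, k1]⟩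
    rw [e1] at hm
    exact Finset.mem_union.2 (hm.imp (m1 _) (m2 _))
  choose! n hn using key
  have h1 : T.card ≤ (S₁ ∪ S₂).card :=
    Finset.card_le_card_of_injOn n (fun Δ hΔ => (hn Δ hΔ).1) fun Δ hΔ Δ' hΔ' e1 =>
      Option.some_injective _ ((hn Δ hΔ).2.symm.trans (by rw [e1]; exact (hn Δ' hΔ').2))
  have h2 : (T.card : ℝ) ≤ S₁.card + S₂.card := by
    exact_mod_cast h1.trans (Finset.card_union_le _ _)
  linarith

end Pool.Agent.P.MP_c09211_an.Sh.GL
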