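import Pool.Agent.P.MP_c09211_an.GL.GenQ
import Pool.Agent.P.MP_c09211_an.GL.GenQ2
import Pool.Agent.P.MP_c09211_an.GL.GenM
import Pool.Agent.P.MP_c09211_an.GL.GenZ
import Pool.Agent.P.MP_c09211_an.GL.Koe

/-!
The weights of the boxes (paper: MASS).
-/

set_option autoImplicit false

namespace Pool.Agent.P.MP_c09211_an.Sh.GL

open Metric Set Finset PowerSeries Complex Filter Topology Real MeasureTheory
open scoped ComplexConjugate

/-- A period as a symmetric interval. -/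
theorem mq_split {G : ℝ → ℝ} (hG : Continuous G) (hp : Function.Periodic G (2 * π)) :
    ∫ θ in (0 : ℝ)..2 * π, G θ = ∫ θ in (0 : ℝ)..π, (G θ + G (-θ)) := by
  have h1 := hp.intervalIntegral_add_eq 0 (-π)
  rw [zero_add, show -π + 2 * π = π by ring] at h1
  have hn : Continuous fun θ => G (-θ) := hG.comp continuous_neg
  rw [h1, intervalIntegral.integral_add (hG.intervalIntegrable _ _) (hn.intervalIntegrable _ _),
    intervalIntegral.integral_comp_neg, neg_zero, add_comm,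
    intervalIntegral.integral_add_adjacent_intervals (hG.intervalIntegrable _ _)
      (hG.intervalIntegrable _ _)]

theorem mq_const {H : ℝ → ℝ} (hH : Continuous H) {a b B : ℝ} (hab : a ≤ b)
    (h : ∀ θ ∈ Set.Icc a b, H θ ≤ B) : ∫ θ in a..b, H θ ≤ (b - a) * B := by
  have := intervalIntegral.integral_mono_on hab (hH.intervalIntegrable (μ := volume) a b)
    (continuous_const.intervalIntegrable a b) h
  rwa [intervalIntegral.integral_const, smul_eq_mul] at this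

theorem mq_tail {H : ℝ → ℝ} (hH : Continuous H) {d B : ℝ} (d0 : 0 < d) (hd : d ≤ π) (hB : 0 ≤ B)
    (h : ∀ θ ∈ Set.Icc d π, H θ ≤ B / θ ^ 2) : ∫ θ in d..π, H θ ≤ B / d := by
  have hc : ContinuousOn (fun θ : ℝ => B / θ ^ 2) (Set.uIcc d π) := by
    rw [Set.uIcc_of_le hd]
    exact continuousOn_const.div (by fun_prop) fun x hx => pow_ne_zero _ (d0.trans_le hx.1).ne'
  have h1 := intervalIntegral.integral_mono_on hd (hH.intervalIntegrable (μ := volume) d π)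
    hc.intervalIntegrable h
  have h2 : ∫ θ in d..π, B / θ ^ 2 = -(B / π) - -(B / d) := by
    refine intervalIntegral.integral_eq_sub_of_hasDerivAt (f := fun θ : ℝ => -(B / θ))
      (fun x hx => ?_) hc.intervalIntegrable
    rw [Set.uIcc_of_le hd] at hx
    have x0 : x ≠ 0 := (d0.trans_le hx.1).ne'
    refine (((hasDerivAt_const x B).fun_div (hasDerivAt_id' x) x0).fun_neg).congr_deriv ?_
    ring
  have h3 : 0 ≤ B / π := div_nonneg hB Real.pi_pos.le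
  linarith

/-- The integral over a half period in three parts. -/
theorem mq_int {H : ℝ → ℝ} (hH : Continuous H) {c l d B₁ B₃ : ℝ} {m : ℕ} {B₂ : ℕ → ℝ}
    (c0 : 0 < c) (l0 : 0 < l) (hd : c + m * l = d) (hπ : d ≤ π) (hB : 0 ≤ B₃)
    (h1 : ∀ θ ∈ Set.Icc 0 c, H θ ≤ B₁)
    (h2 : ∀ j < m, ∀ θ ∈ Set.Icc (c + j * l) (c + j * l + l), H θ ≤ B₂ j)
    (h3 : ∀ θ ∈ Set.Icc d π, H θ ≤ B₃ / θ ^ 2) :
    ∫ θ in (0 : ℝ)..π, H θ ≤ c * B₁ + ∑ j ∈ range m, l * B₂ j + B₃ / d := by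
  have d0 : 0 < d := by rw [← hd]; positivity
  have hi : ∀ a b : ℝ, IntervalIntegrable H volume a b := fun a b => hH.intervalIntegrable a b
  have e1 := intervalIntegral.sum_integral_adjacent_intervals (a := fun j : ℕ => c + j * l)
    (n := m) (f := H) (μ := volume) fun k _ => hi _ _
  simp only [Nat.cast_zero, zero_mul, add_zero] at e1
  rw [hd] at e1
  rw [← intervalIntegral.integral_add_adjacent_intervals (hi 0 d) (hi d π),
    ← intervalIntegral.integral_add_adjacent_intervals (hi 0 c) (hi c d), ← e1]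
  have a1 := mq_const hH c0.le h1
  rw [sub_zero] at a1
  refine add_le_add (add_le_add a1 (sum_le_sum fun j hj => ?_)) (mq_tail hH d0 hπ hB h3)
  have a2 := mq_const hH (by linarith) (h2 j (Finset.mem_range.mp hj))
  rw [show c + j * l + l - (c + j * l) = l by ring] at a2
  rwa [show c + ((j + 1 : ℕ) : ℝ) * l = c + j * l + l by push_cast; ring]

theorem mq_norm {y : ℝ} (y0 : 0 ≤ y) (θ : ℝ) : ‖(y : ℂ) * eI θ‖ = y := by
  rw [norm_mul, eI_norm, mul_one, norm_real, Real.norm_of_nonneg y0]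

theorem mq_pos {z : ℂ} (hz : ‖z‖ < 1) : 0 < ‖1 - z‖ := by
  have := norm_sub_norm_le (1 : ℂ) z
  rw [norm_one] at this
  linarith

theorem mq_K {z : ℂ} (hz : ‖z‖ < 1) : ‖(1 + z) / (1 - z)‖ ^ 2 ≤ 4 / ‖1 - z‖ ^ 2 := by
  rw [norm_div, div_pow]
  have h1 : ‖1 + z‖ ≤ 2 := by
    have := norm_add_le (1 : ℂ) z
    rw [norm_one] at this
    linarith
  have h2 : ‖1 + z‖ ^ 2 ≤ 4 := by nlinarith only [h1, norm_nonneg (1 + z)]
  gcongr

/-- The kernel far from the tip. -/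
theorem mq_K3 {y θ : ℝ} (y0 : 1 / 2 ≤ y) (y1 : y < 1) (h0 : θ ≠ 0) (hθ : |θ| ≤ π) :
    ‖(1 + y * eI θ) / (1 - y * eI θ)‖ ^ 2 ≤ 20 / θ ^ 2 := by
  have y0' : 0 ≤ y := by linarith
  have hz : ‖(y : ℂ) * eI θ‖ < 1 := by rwa [mq_norm y0']
  refine (mq_K hz).trans ?_
  have hπ := Real.pi_pos
  have h1 : 2 / π * |θ / 2| ≤ |Real.sin (θ / 2)| :=
    Real.mul_abs_le_abs_sin (by rw [abs_div, abs_two]; linarith)
  have h2 : (θ / π) ^ 2 ≤ Real.sin (θ / 2) ^ 2 := by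
    rw [← sq_abs (Real.sin _), ← sq_abs (θ / π)]
    refine pow_le_pow_left₀ (abs_nonneg _) (le_trans (le_of_eq ?_) h1) 2
    rw [abs_div, abs_div, abs_two, abs_of_pos hπ]
    field_simp
  have h3 : π ^ 2 ≤ 10 := by nlinarith only [Real.pi_lt_d2, hπ]
  have h4 : θ ^ 2 / 10 ≤ (θ / π) ^ 2 := by
    rw [div_pow]
    gcongr
  have h5 : 0 < θ ^ 2 := by positivity
  rw [div_le_div_iff₀ (pow_pos (mq_pos hz) 2) h5, koe_norm y0']
  nlinarith only [h2, h4, y0, sq_nonneg (1 - y), sq_nonneg (Real.sin (θ / 2))]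

/-- The kernel close to the tip. -/
theorem mq_K2 {y θ s : ℝ} (s0 : 0 < s) (s1 : s ≤ 1) (y0 : 1 - s / 4 ≤ y) (y1 : y < 1) (h0 : θ ≠ 0)
    (hθ : |θ| ≤ s) : ‖(1 + y * eI θ) / (1 - y * eI θ)‖ ^ 2 ≤ (1 + s) * 4 / θ ^ 2 := by
  have y0' : 0 ≤ y := by linarith
  have hz : ‖(y : ℂ) * eI θ‖ < 1 := by rwa [mq_norm y0']
  refine (mq_K hz).trans ?_
  set x := |θ| / 2 with hx
  have x0 : 0 < x := by have := abs_pos.mpr h0; positivity
  have x1 : x ≤ s / 2 := by linarith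
  have h1 : Real.sin (θ / 2) ^ 2 = Real.sin x ^ 2 := by
    rcases abs_cases θ with h | h
    · rw [hx, h.1]
    · rw [hx, h.1, neg_div, Real.sin_neg, neg_sq]
  have h2 : θ ^ 2 = 4 * x ^ 2 := by rw [hx, div_pow, sq_abs]; ring
  have h3 := Real.sin_gt_sub_cube x0
  have h4 : x * (1 - s / 8) ≤ Real.sin x := by
    have : x ^ 2 ≤ s / 4 := by nlinarith only [x0, x1, s0, s1]
    nlinarith only [h3, this, x0, s0]
  have h5 : (x * (1 - s / 8)) ^ 2 ≤ Real.sin x ^ 2 :=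
    pow_le_pow_left₀ (mul_nonneg x0.le (by linarith)) h4 2
  have h6 : x ^ 2 * (1 - s / 4) ≤ Real.sin x ^ 2 := by
    nlinarith only [h5, mul_nonneg (sq_nonneg x) (sq_nonneg s)]
  have h7 : 0 < θ ^ 2 := by positivity
  rw [div_le_div_iff₀ (pow_pos (mq_pos hz) 2) h7, koe_norm y0', h1, h2]
  have h8 : (1 - s / 4) * (x ^ 2 * (1 - s / 4)) ≤ y * Real.sin x ^ 2 :=
    mul_le_mul y0 h6 (mul_nonneg (sq_nonneg x) (by linarith)) y0'
  have h9 : 1 ≤ (1 + s) * ((1 - s / 4) * (1 - s / 4)) := by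
    nlinarith only [s0, s1, mul_nonneg s0.le (sq_nonneg s), mul_nonneg s0.le (sub_nonneg.2 s1)]
  have h10 : x ^ 2 ≤ (1 + s) * (y * Real.sin x ^ 2) := by
    calc x ^ 2 ≤ x ^ 2 * ((1 + s) * ((1 - s / 4) * (1 - s / 4))) :=
          le_mul_of_one_le_right (sq_nonneg x) h9
      _ = (1 + s) * ((1 - s / 4) * (x ^ 2 * (1 - s / 4))) := by ring
      _ ≤ _ := mul_le_mul_of_nonneg_left h8 (by linarith)
  nlinarith only [h10, mul_nonneg (show 0 ≤ 1 + s by linarith) (sq_nonneg (1 - y))]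

/-- At the tip. -/
theorem mq_K1 {L y θ Y : ℝ} {t : ℂ} (L1 : 1 ≤ L) (y0 : 1 - 1 / (4 * L) ≤ y) (y1 : y < 1)
    (hθ : |θ| ≤ 1 / (2 * L)) (ht : ‖t - (y * eI θ) / (1 - y * eI θ) ^ 2‖ ≤ L ^ 2)
    (hY : Y ≤ 4 * L ^ 4 * ‖t⁻¹‖) :
    Y * ‖(1 + y * eI θ) / (1 - y * eI θ)‖ ^ 2 ≤ 64 * L ^ 4 := by
  have L0 : 0 < L := by linarith
  have a1 : 1 / (4 * L) ≤ 1 / 4 := one_div_le_one_div_of_le (by norm_num) (by linarith)
  have y2 : 3 / 4 ≤ y := by linarith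
  have y0' : 0 ≤ y := by linarith
  have hz : ‖(y : ℂ) * eI θ‖ < 1 := by rwa [mq_norm y0']
  have hK := mq_K hz
  have n0 := pow_pos (mq_pos hz) 2
  have hk : ‖(y * eI θ : ℂ) / (1 - y * eI θ) ^ 2‖ = y / ‖1 - y * eI θ‖ ^ 2 := by
    rw [norm_div, norm_pow, mq_norm y0']
  have hn : ‖1 - y * eI θ‖ ^ 2 * L ^ 2 ≤ 5 / 16 := by
    rw [koe_norm y0']
    have b1 : (1 - y) ^ 2 ≤ (1 / (4 * L)) ^ 2 := pow_le_pow_left₀ (by linarith) (by linarith) 2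
    have b2 : Real.sin (θ / 2) ^ 2 ≤ (θ / 2) ^ 2 := Real.sin_sq_le_sq
    have b3 : θ ^ 2 ≤ (1 / (2 * L)) ^ 2 := by
      rw [← sq_abs]
      exact pow_le_pow_left₀ (abs_nonneg _) hθ 2
    have b4 : 4 * y * Real.sin (θ / 2) ^ 2 ≤ θ ^ 2 := by
      nlinarith only [b2, y1, y0', sq_nonneg (Real.sin (θ / 2))]
    calc ((1 - y) ^ 2 + 4 * y * Real.sin (θ / 2) ^ 2) * L ^ 2
        ≤ ((1 / (4 * L)) ^ 2 + (1 / (2 * L)) ^ 2) * L ^ 2 := by gcongr; linarith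
      _ = 5 / 16 := by field_simp; norm_num
  set n := ‖1 - y * eI θ‖ ^ 2 with hn'
  clear_value n
  have c1 : y / n - L ^ 2 ≤ ‖t‖ := by
    have := norm_sub_norm_le ((y * eI θ : ℂ) / (1 - y * eI θ) ^ 2) t
    rw [norm_sub_rev, hk] at this
    linarith
  have c2 : 1 / (4 * n) ≤ ‖t‖ := by
    refine le_trans ?_ c1
    rw [le_sub_iff_add_le, le_div_iff₀ n0, add_mul, show 1 / (4 * n) * n = 1 / 4 by field_simp]
    linarith
  have c3 : ‖t⁻¹‖ ≤ 4 * n := by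
    rw [norm_inv]
    refine (inv_anti₀ (by positivity) c2).trans (le_of_eq ?_)
    rw [one_div, inv_inv]
  have c4 : Y ≤ 4 * L ^ 4 * (4 * n) := hY.trans (by gcongr)
  calc Y * ‖(1 + y * eI θ) / (1 - y * eI θ)‖ ^ 2 ≤ 4 * L ^ 4 * (4 * n) * (4 / n) :=
        mul_le_mul c4 hK (sq_nonneg _) (by positivity)
    _ = 64 * L ^ 4 := by field_simp; norm_num

/-- Two points in a small disc on the slit. -/
theorem mq_disc {L u A r : ℝ} {t t' : ℂ} (L0 : 0 < L) (u0 : 0 < u) (hu : u ≤ A / 8)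
    (hr : r * A ^ 2 ≤ 1) (ht : ‖t + ((L ^ 2 / u ^ 2 : ℝ) : ℂ)‖ ≤ r * L ^ 2)
    (ht' : ‖t' + ((L ^ 2 / u ^ 2 : ℝ) : ℂ)‖ ≤ r * L ^ 2) :
    4 * L ^ 4 * ‖t⁻¹ - t'⁻¹‖ ≤ r * A ^ 4 * L ^ 2 := by
  have A0 : 0 < A := by linarith
  have r0 : 0 ≤ r := by
    by_contra h
    have : r * L ^ 2 < 0 := mul_neg_of_neg_of_pos (not_le.mp h) (by positivity)
    linarith [norm_nonneg (t + ((L ^ 2 / u ^ 2 : ℝ) : ℂ))]
  have key : ∀ x : ℂ, ‖x + ((L ^ 2 / u ^ 2 : ℝ) : ℂ)‖ ≤ r * L ^ 2 → 4 * (L ^ 2 / A ^ 2) ≤ ‖x‖ := by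
    intro x hx
    have a1 := norm_sub_norm_le (((L ^ 2 / u ^ 2 : ℝ) : ℂ)) (-x)
    rw [sub_neg_eq_add, add_comm, norm_neg, norm_real, Real.norm_of_nonneg (by positivity)] at a1
    have a2 : 64 * (L ^ 2 / A ^ 2) ≤ L ^ 2 / u ^ 2 := by
      rw [← mul_div_assoc, div_le_div_iff₀ (by positivity) (by positivity)]
      have : u ^ 2 ≤ (A / 8) ^ 2 := pow_le_pow_left₀ u0.le hu 2
      nlinarith only [this, sq_nonneg L]
    have a3 : r * L ^ 2 ≤ L ^ 2 / A ^ 2 := by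
      rw [le_div_iff₀ (by positivity)]
      nlinarith only [hr, sq_nonneg L]
    have a4 : 0 ≤ L ^ 2 / A ^ 2 := by positivity
    linarith
  have k1 := key t ht
  have k2 := key t' ht'
  have p0 : 0 < 4 * (L ^ 2 / A ^ 2) := by positivity
  have t0 : t ≠ 0 := norm_pos_iff.mp (p0.trans_le k1)
  have t0' : t' ≠ 0 := norm_pos_iff.mp (p0.trans_le k2)
  have hd : ‖t' - t‖ ≤ 2 * (r * L ^ 2) := by
    have := norm_sub_le (t' + ((L ^ 2 / u ^ 2 : ℝ) : ℂ)) (t + ((L ^ 2 / u ^ 2 : ℝ) : ℂ))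
    rw [add_sub_add_right_eq_sub] at this
    linarith
  rw [inv_sub_inv t0 t0', norm_div, norm_mul]
  calc 4 * L ^ 4 * (‖t' - t‖ / (‖t‖ * ‖t'‖))
      ≤ 4 * L ^ 4 * (2 * (r * L ^ 2) / (4 * (L ^ 2 / A ^ 2) * (4 * (L ^ 2 / A ^ 2)))) := by
        gcongr
    _ = r * A ^ 4 * L ^ 2 / 2 := by field_simp; norm_num
    _ ≤ r * A ^ 4 * L ^ 2 := half_le_self (by positivity)

theorem mq_D {c u τ : ℝ} (c0 : 0 < c) (hu : c ≤ u) (τ0 : 0 < τ) :
    1 / u ^ 2 - 1 / (u + τ) ^ 2 ≤ 2 * τ / c ^ 3 := by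
  have u0 : 0 < u := by linarith
  calc 1 / u ^ 2 - 1 / (u + τ) ^ 2 = τ * (u + (u + τ)) / (u ^ 2 * (u + τ) ^ 2) := by
        field_simp; ring
    _ ≤ τ * ((u + τ) + (u + τ)) / (u ^ 2 * (u + τ) ^ 2) := by gcongr; linarith
    _ = 2 * τ / (u ^ 2 * (u + τ)) := by field_simp; ring
    _ ≤ 2 * τ / (c ^ 2 * c) := by gcongr; linarith
    _ = 2 * τ / c ^ 3 := by ring

theorem mq_cell {L u τ η D θ : ℝ} {t : ℂ} (L0 : 0 < L) (u0 : 0 < u)
    (hD : 1 / u ^ 2 - 1 / (u + τ) ^ 2 ≤ D) (h1 : u / L ≤ |θ|) (h2 : |θ| ≤ (u + τ) / L)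
    (ht : ‖t + ((1 / θ ^ 2 : ℝ) : ℂ)‖ ≤ η * L ^ 2) :
    ‖t + ((L ^ 2 / u ^ 2 : ℝ) : ℂ)‖ ≤ (η + D) * L ^ 2 := by
  have p0 : 0 < u / L := by positivity
  have a1 : 1 / θ ^ 2 ≤ L ^ 2 / u ^ 2 := by
    rw [← sq_abs, ← div_pow, ← inv_div u L, inv_pow, ← one_div]
    exact one_div_le_one_div_of_le (by positivity) (pow_le_pow_left₀ p0.le h1 2)
  have a2 : L ^ 2 / (u + τ) ^ 2 ≤ 1 / θ ^ 2 := by
    rw [← sq_abs θ, ← div_pow, ← inv_div (u + τ) L, inv_pow, ← one_div]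
    exact one_div_le_one_div_of_le (pow_pos (p0.trans_le h1) 2)
      (pow_le_pow_left₀ (abs_nonneg _) h2 2)
  have a3 : L ^ 2 / u ^ 2 - L ^ 2 / (u + τ) ^ 2 ≤ D * L ^ 2 := by
    have := mul_le_mul_of_nonneg_right hD (sq_nonneg L)
    rwa [sub_mul, one_div_mul_eq_div, one_div_mul_eq_div] at this
  have e : t + ((L ^ 2 / u ^ 2 : ℝ) : ℂ) =
      t + ((1 / θ ^ 2 : ℝ) : ℂ) + ((L ^ 2 / u ^ 2 - 1 / θ ^ 2 : ℝ) : ℂ) := by
    push_cast; ring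
  rw [e]
  refine (norm_add_le _ _).trans ?_
  rw [norm_real, Real.norm_of_nonneg (sub_nonneg.2 a1)]
  linarith

theorem mq_box {J : ℕ} {u τ D : ℝ} {t : ℂ} (hD : 1 / u ^ 2 - 1 / (u + τ) ^ 2 ≤ D)
    (ht : t ∈ Box J u (u + τ)) :
    ‖t + (((J : ℝ) ^ 2 / u ^ 2 : ℝ) : ℂ)‖ ≤ (τ + D) * (J : ℝ) ^ 2 := by
  obtain ⟨h1, h2, h3⟩ := ht
  have a3 : (J : ℝ) ^ 2 / u ^ 2 - (J : ℝ) ^ 2 / (u + τ) ^ 2 ≤ D * (J : ℝ) ^ 2 := by
    have := mul_le_mul_of_nonneg_right hD (sq_nonneg (J : ℝ))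
    rwa [sub_mul, one_div_mul_eq_div, one_div_mul_eq_div] at this
  refine (Complex.norm_le_abs_re_add_abs_im _).trans ?_
  rw [add_re, add_im, ofReal_re, ofReal_im, add_zero, abs_of_nonneg (by linarith)]
  rw [add_sub_cancel_left] at h3
  linarith

/-- The bounds for the polynomial part of the differential at omitted values. -/
structure MqY (L : ℝ) (Om : Set ℂ) (Y : ℂ → ℝ) : Prop where
  nn : ∀ t, 0 ≤ Y t
  le : ∀ t ∈ Om, Y t ≤ 3 * L ^ 2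
  lip : ∀ t ∈ Om, ∀ t' ∈ Om, Y t ≤ Y t' + 4 * L ^ 4 * ‖t⁻¹ - t'⁻¹‖
  lip0 : ∀ t ∈ Om, Y t ≤ 4 * L ^ 4 * ‖t⁻¹‖

/-- The relations between the constants. -/
structure MqC (e A τ η r s : ℝ) (m : ℕ) : Prop where
  e0 : 0 < e
  e1 : e ≤ 1 / 16
  A1 : 1 ≤ A
  τ0 : 0 < τ
  sum : 8 * e + m * τ = A / 8
  η1 : η ≤ 1
  hη : η + 2 * τ / (8 * e) ^ 3 ≤ r
  hτ : τ + 2 * τ / (8 * e) ^ 3 ≤ r
  s0 : 0 < s
  s1 : s ≤ 1
  rA : r * A ^ 2 ≤ s
  τe : τ ≤ s * (8 * e)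

theorem mq_alg {L e u τ r s κ p : ℝ} (L0 : 0 < L) (e0 : 0 < e) (hu : 8 * e ≤ u) (τ0 : 0 < τ)
    (r0 : 0 ≤ r) (s0 : 0 < s) (s1 : s ≤ 1) (κ0 : 0 ≤ κ) (p0 : 0 ≤ p) (h1 : τ ≤ s * u)
    (h2 : r * u ^ 2 ≤ s) :
    τ / L * (2 * ((p + 2 * (κ * L ^ 2)) * ((1 + s) * 4 * (L ^ 2 / u ^ 2)))) ≤
      (1 + s) ^ 9 * (p / (L ^ 2 / u ^ 2 + r * L ^ 2) ^ 2 * (8 * τ * L ^ 5 / (u + τ) ^ 6)) +
        τ * (κ / (2 * e ^ 2) * L ^ 3) := by
  have u0 : 0 < u := by linarith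
  have a1 : (1 + r * u ^ 2) ^ 2 * (u + τ) ^ 6 ≤ (1 + s) ^ 2 * ((1 + s) * u) ^ 6 := by
    gcongr
    linarith
  have e1 : τ / L * (2 * ((p + 2 * (κ * L ^ 2)) * ((1 + s) * 4 * (L ^ 2 / u ^ 2)))) =
      (1 + s) ^ 9 * (p * (8 * τ * L * u ^ 4) / ((1 + s) ^ 2 * ((1 + s) * u) ^ 6)) +
        τ * ((1 + s) * 16 * κ / u ^ 2 * L ^ 3) := by
    field_simp
    ring
  have e2 : p / (L ^ 2 / u ^ 2 + r * L ^ 2) ^ 2 * (8 * τ * L ^ 5 / (u + τ) ^ 6) =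
      p * (8 * τ * L * u ^ 4) / ((1 + r * u ^ 2) ^ 2 * (u + τ) ^ 6) := by
    field_simp
  have a2 : (1 + s) * 16 * κ / u ^ 2 ≤ κ / (2 * e ^ 2) := by
    calc (1 + s) * 16 * κ / u ^ 2 ≤ (1 + 1) * 16 * κ / (8 * e) ^ 2 := by gcongr
      _ = κ / (2 * e ^ 2) := by field_simp; ring
  rw [e1, e2]
  gcongr

theorem mq_core {J m : ℕ} {e A τ η r s y : ℝ} {Om : Set ℂ} {Y : ℂ → ℝ} {c : ℝ → ℂ}
    (C : MqC e A τ η r s m) (H : MqY J Om Y) (hJ : A / s ≤ J) (y0 : 1 - 1 / (4 * (J : ℝ)) ≤ y)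
    (y1 : y < 1) (hc : ∀ θ, c θ ∈ Om) (hcont : Continuous fun θ => Y (c θ))
    (hper : ∀ θ, c (θ + 2 * π) = c θ)
    (g1 : ∀ θ, e / J ≤ |θ| → |θ| ≤ A / J → ‖c θ + ((1 / θ ^ 2 : ℝ) : ℂ)‖ ≤ η * (J : ℝ) ^ 2)
    (d1 : ∀ θ, ‖c θ - (y * eI θ) / (1 - y * eI θ) ^ 2‖ ≤ η * (J : ℝ) ^ 2) :
    ∃ q : ℕ → ℝ, (∀ j, 0 ≤ q j) ∧
      (∀ j < m, ∀ t ∈ Box J (8 * e + j * τ) (8 * e + j * τ + τ), t ∈ Om →
        q j ≤ Y t * ‖t⁻¹‖ ^ 2) ∧
      ∫ θ in (0 : ℝ)..2 * π, Y (c θ) * ‖(1 + y * eI θ) / (1 - y * eI θ)‖ ^ 2 ≤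
        (1 + s) ^ 9 * ∑ j ∈ range m, q j * (8 * τ * (J : ℝ) ^ 5 / (8 * e + j * τ + τ) ^ 6) +
          (1024 * e + r * A ^ 5 / (16 * e ^ 2) + 960 / A) * (J : ℝ) ^ 3 := by
  obtain ⟨e0, e1, A1, τ0, hsum, η1, hη, hτ, s0, s1, rA, τe⟩ := C
  have hbox : ∀ {u : ℝ} {t : ℂ}, 1 / u ^ 2 - 1 / (u + τ) ^ 2 ≤ 2 * τ / (8 * e) ^ 3 →
      t ∈ Box J u (u + τ) → ‖t + (((J : ℝ) ^ 2 / u ^ 2 : ℝ) : ℂ)‖ ≤
        (τ + 2 * τ / (8 * e) ^ 3) * (J : ℝ) ^ 2 ∧ t.re < -((J : ℝ) ^ 2 / (u + τ) ^ 2) :=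
    fun h1 h2 => ⟨mq_box h1 h2, h2.2.1⟩
  set B := fun u v : ℝ => Box J u v with hB
  have hB' : ∀ u v, Box J u v = B u v := fun _ _ => rfl
  simp only [hB']
  simp only [hB'] at hbox
  clear_value B
  generalize (J : ℝ) = L at *
  have A0 : 0 < A := by linarith
  have hAL : A ≤ s * L := by rwa [div_le_iff₀ s0, mul_comm] at hJ
  have L0 : 0 < L := by
    by_contra h
    nlinarith only [hAL, A0, s0, not_lt.mp h]
  have L1 : A ≤ L := by nlinarith only [hAL, s1, L0]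
  have r0 : 0 ≤ r := le_trans (by positivity) hτ
  have ys : 1 - s / 4 ≤ y := by
    refine le_trans ?_ y0
    have : 1 / (4 * L) ≤ s / 4 := by
      rw [div_le_div_iff₀ (by positivity) (by norm_num)]
      nlinarith only [hAL, A1]
    linarith
  have yh : 1 / 2 ≤ y := by linarith
  have hu0 : ∀ j : ℕ, 8 * e ≤ 8 * e + j * τ := fun j => le_add_of_nonneg_right (by positivity)
  have hu1 : ∀ j < m, 8 * e + j * τ + τ ≤ A / 8 := fun j hj => by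
    have : (j : ℝ) + 1 ≤ m := by exact_mod_cast hj
    nlinarith only [this, τ0, hsum]
  have hD : ∀ j : ℕ, 1 / (8 * e + j * τ) ^ 2 - 1 / (8 * e + j * τ + τ) ^ 2 ≤
      2 * τ / (8 * e) ^ 3 := fun j => mq_D (by positivity) (hu0 j) τ0
  have hcell : ∀ j < m, ∀ θ, (8 * e + j * τ) / L ≤ |θ| → |θ| ≤ (8 * e + j * τ + τ) / L →
      ‖c θ + ((L ^ 2 / (8 * e + j * τ) ^ 2 : ℝ) : ℂ)‖ ≤ r * L ^ 2 := by
    intro j hj θ h1 h2
    refine (mq_cell L0 (by positivity) (hD j) h1 h2 (g1 θ (le_trans ?_ h1) (h2.trans ?_))).trans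
      (mul_le_mul_of_nonneg_right hη (sq_nonneg L))
    · exact div_le_div_of_nonneg_right (by linarith [hu0 j]) L0.le
    · exact div_le_div_of_nonneg_right (by linarith [hu1 j hj]) L0.le
  have href : ∀ j < m, ‖c ((8 * e + j * τ) / L) + ((L ^ 2 / (8 * e + j * τ) ^ 2 : ℝ) : ℂ)‖ ≤
      r * L ^ 2 := fun j hj => hcell j hj _ (le_abs_self _) (by
    rw [abs_of_pos (by positivity)]
    exact div_le_div_of_nonneg_right (by linarith) L0.le)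
  have hlip : ∀ j < m, ∀ t ∈ Om, ∀ t' ∈ Om,
      ‖t + ((L ^ 2 / (8 * e + j * τ) ^ 2 : ℝ) : ℂ)‖ ≤ r * L ^ 2 →
      ‖t' + ((L ^ 2 / (8 * e + j * τ) ^ 2 : ℝ) : ℂ)‖ ≤ r * L ^ 2 →
      Y t ≤ Y t' + r * A ^ 4 * L ^ 2 := fun j hj t ht t' ht' h1 h2 =>
    (H.lip t ht t' ht').trans (add_le_add le_rfl
      (mq_disc L0 (by positivity) (by linarith [hu1 j hj]) (rA.trans s1) h1 h2))
  refine ⟨fun j => max (Y (c ((8 * e + j * τ) / L)) - r * A ^ 4 * L ^ 2) 0 /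
    (L ^ 2 / (8 * e + j * τ) ^ 2 + r * L ^ 2) ^ 2, fun j => by positivity,
    fun j hj t ht ho => ?_, ?_⟩
  · obtain ⟨b1, b2⟩ := hbox (hD j) ht
    have b3 := b1.trans (mul_le_mul_of_nonneg_right hτ (sq_nonneg L))
    have b4 := hlip j hj _ (hc _) t ho (href j hj) b3
    have b5 : max (Y (c ((8 * e + j * τ) / L)) - r * A ^ 4 * L ^ 2) 0 ≤ Y t :=
      max_le (by linarith) (H.nn t)
    have t0 : t ≠ 0 := by
      rintro rfl
      have : 0 ≤ L ^ 2 / (8 * e + j * τ + τ) ^ 2 := by positivity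
      rw [zero_re] at b2
      linarith
    have b6 : ‖t‖ ≤ L ^ 2 / (8 * e + j * τ) ^ 2 + r * L ^ 2 := by
      have := norm_sub_le (t + ((L ^ 2 / (8 * e + j * τ) ^ 2 : ℝ) : ℂ))
        ((L ^ 2 / (8 * e + j * τ) ^ 2 : ℝ) : ℂ)
      rw [add_sub_cancel_right, norm_real, Real.norm_of_nonneg (by positivity)] at this
      linarith
    have n0 : 0 < ‖t‖ := norm_pos_iff.mpr t0
    rw [norm_inv, inv_pow, ← div_eq_mul_inv]
    exact div_le_div₀ (H.nn t) b5 (by positivity) (pow_le_pow_left₀ n0.le b6 2)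
  · set G := fun θ : ℝ => Y (c θ) * ‖(1 + y * eI θ) / (1 - y * eI θ)‖ ^ 2 with hG
    have y0' : 0 ≤ y := by linarith
    have hne : ∀ θ, (1 - y * eI θ : ℂ) ≠ 0 := fun θ =>
      norm_pos_iff.mp (mq_pos (by rwa [mq_norm y0']))
    have hz : Continuous fun θ => (y : ℂ) * eI θ := continuous_const.mul eI_cont
    have Gc : Continuous G := hcont.mul
      (((continuous_const.add hz).div (continuous_const.sub hz) hne).norm.pow 2)
    have Gp : Function.Periodic G (2 * π) := fun θ => by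
      have : eI (θ + 2 * π) = eI θ := by
        rw [two_mul, eI_add, eI_add, eI_pi]
        ring
      simp only [hG, hper, this]
    have G1 : ∀ θ, |θ| ≤ 8 * e / L → G θ ≤ 64 * L ^ 4 := fun θ h =>
      mq_K1 (A1.trans L1) y0 y1 (h.trans (by
        rw [div_le_div_iff₀ L0 (by positivity)]
        nlinarith only [e1, L0])) ((d1 θ).trans (mul_le_of_le_one_left (sq_nonneg L) η1))
        (H.lip0 _ (hc θ))
    have G2 : ∀ j < m, ∀ θ, (8 * e + j * τ) / L ≤ |θ| → |θ| ≤ (8 * e + j * τ + τ) / L →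
        G θ ≤ (max (Y (c ((8 * e + j * τ) / L)) - r * A ^ 4 * L ^ 2) 0 +
          2 * (r * A ^ 4 * L ^ 2)) * ((1 + s) * 4 * (L ^ 2 / (8 * e + j * τ) ^ 2)) := by
      intro j hj θ h1 h2
      have p0 : 0 < (8 * e + j * τ) / L := by positivity
      have b1 := hlip j hj _ (hc θ) _ (hc _) (hcell j hj θ h1 h2) (href j hj)
      have b2 := le_max_left (Y (c ((8 * e + j * τ) / L)) - r * A ^ 4 * L ^ 2) 0
      have b3 : |θ| ≤ s := h2.trans (by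
        rw [div_le_iff₀ L0]
        linarith [hu1 j hj])
      have b4 := mq_K2 s0 s1 ys y1 (abs_pos.mp (p0.trans_le h1)) b3
      have b5 : 1 / θ ^ 2 ≤ L ^ 2 / (8 * e + j * τ) ^ 2 := by
        rw [← sq_abs, ← div_pow, ← inv_div (8 * e + j * τ) L, inv_pow, ← one_div]
        exact one_div_le_one_div_of_le (by positivity) (pow_le_pow_left₀ p0.le h1 2)
      refine mul_le_mul (by linarith) (b4.trans ?_) (sq_nonneg _) (by positivity)
      rw [← mul_one_div]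
      exact mul_le_mul_of_nonneg_left b5 (by positivity)
    have G3 : ∀ θ, θ ≠ 0 → |θ| ≤ π → G θ ≤ 60 * L ^ 2 / θ ^ 2 := fun θ h0 h1 =>
      (mul_le_mul (H.le _ (hc θ)) (mq_K3 yh y1 h0 h1) (sq_nonneg _) (by positivity)).trans
        (le_of_eq (by ring))
    have d0 : 0 < A / 8 / L := by positivity
    have dπ : A / 8 / L ≤ π := by
      rw [div_le_iff₀ L0]
      nlinarith only [Real.pi_gt_three, L1, A0]
    have key := mq_int (H := fun θ => G θ + G (-θ)) (c := 8 * e / L) (l := τ / L) (d := A / 8 / L)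
      (B₁ := 128 * L ^ 4) (B₃ := 120 * L ^ 2) (m := m)
      (B₂ := fun j => 2 * ((max (Y (c ((8 * e + j * τ) / L)) - r * A ^ 4 * L ^ 2) 0 +
          2 * (r * A ^ 4 * L ^ 2)) * ((1 + s) * 4 * (L ^ 2 / (8 * e + j * τ) ^ 2))))
      (Gc.add (Gc.comp continuous_neg)) (by positivity) (by positivity)
      (by rw [← hsum]; ring) dπ (by positivity)
      (fun θ hθ => by
        have b1 : |θ| ≤ 8 * e / L := by rw [abs_of_nonneg hθ.1]; exact hθ.2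
        have b2 := G1 θ b1
        have b3 := G1 (-θ) (by rwa [abs_neg])
        linarith)
      (fun j hj θ hθ => by
        have p1 : (8 * e + j * τ) / L ≤ θ := le_trans (le_of_eq (by ring)) hθ.1
        have p2 : θ ≤ (8 * e + j * τ + τ) / L := hθ.2.trans (le_of_eq (by ring))
        have p0 : 0 ≤ θ := le_trans (by positivity) p1
        have b2 := G2 j hj θ (by rwa [abs_of_nonneg p0]) (by rwa [abs_of_nonneg p0])
        have b3 := G2 j hj (-θ) (by rwa [abs_neg, abs_of_nonneg p0])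
          (by rwa [abs_neg, abs_of_nonneg p0])
        linarith)
      (fun θ hθ => by
        have p0 : 0 < θ := d0.trans_le hθ.1
        have b1 : |θ| ≤ π := by rw [abs_of_pos p0]; exact hθ.2
        have b2 := G3 θ p0.ne' b1
        have b3 := G3 (-θ) (neg_ne_zero.mpr p0.ne') (by rwa [abs_neg])
        rw [neg_sq] at b3
        have b4 : 120 * L ^ 2 / θ ^ 2 = 60 * L ^ 2 / θ ^ 2 + 60 * L ^ 2 / θ ^ 2 := by ring
        linarith)
    rw [mq_split Gc Gp]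
    refine key.trans ?_
    have hs := sum_le_sum fun j (hj : j ∈ range m) => mq_alg (κ := r * A ^ 4)
      (p := max (Y (c ((8 * e + j * τ) / L)) - r * A ^ 4 * L ^ 2) 0) L0 e0 (hu0 j) τ0 r0 s0 s1
      (by positivity) (le_max_right _ _)
      (τe.trans (mul_le_mul_of_nonneg_left (hu0 j) s0.le))
      (le_trans (mul_le_mul_of_nonneg_left (pow_le_pow_left₀ (by positivity)
        (by linarith [hu1 j (Finset.mem_range.mp hj)]) 2) r0) rA)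
    rw [sum_add_distrib, ← mul_sum _ _ ((1 + s) ^ 9), sum_const, card_range, nsmul_eq_mul] at hs
    have f1 : 8 * e / L * (128 * L ^ 4) = 1024 * e * L ^ 3 := by field_simp; norm_num
    have f2 : 120 * L ^ 2 / (A / 8 / L) = 960 / A * L ^ 3 := by field_simp; norm_num
    have f3 : m * (τ * (r * A ^ 4 / (2 * e ^ 2) * L ^ 3)) ≤ r * A ^ 5 / (16 * e ^ 2) * L ^ 3 := by
      calc m * (τ * (r * A ^ 4 / (2 * e ^ 2) * L ^ 3))
          = m * τ * (r * A ^ 4 / (2 * e ^ 2) * L ^ 3) := by ring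
        _ ≤ A / 8 * (r * A ^ 4 / (2 * e ^ 2) * L ^ 3) :=
            mul_le_mul_of_nonneg_right (by linarith) (by positivity)
        _ = r * A ^ 5 / (16 * e ^ 2) * L ^ 3 := by field_simp; ring
    rw [f1, f2]
    beta_reduce
    linarith only [hs, f3]

theorem mq_sq {a b : ℂ} {s : ℝ} (s0 : 0 < s) :
    ‖a‖ ^ 2 ≤ (1 + s) * ‖b‖ ^ 2 + (1 + 1 / s) * ‖a - b‖ ^ 2 := by
  have h1 : ‖a‖ ≤ ‖b‖ + ‖a - b‖ := norm_le_insert' a b
  have h2 : ‖a‖ ^ 2 ≤ (‖b‖ + ‖a - b‖) ^ 2 := pow_le_pow_left₀ (norm_nonneg _) h1 2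
  have h3 : 0 ≤ (s * ‖b‖ - ‖a - b‖) ^ 2 / s := by positivity
  have h4 : (1 + s) * ‖b‖ ^ 2 + (1 + 1 / s) * ‖a - b‖ ^ 2 =
      (‖b‖ + ‖a - b‖) ^ 2 + (s * ‖b‖ - ‖a - b‖) ^ 2 / s := by
    field_simp
    ring
  linarith

/-- The mean with the logarithmic derivative replaced by the kernel. -/
theorem mq_mean {Y : ℝ → ℝ} {D K : ℝ → ℂ} {s M : ℝ} (s0 : 0 < s) (hY : Continuous Y)
    (hD : Continuous D) (hK : Continuous K) (Y0 : ∀ θ, 0 ≤ Y θ) (YM : ∀ θ, Y θ ≤ M) :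
    ∫ θ in (0 : ℝ)..2 * π, Y θ * ‖D θ‖ ^ 2 ≤ (1 + s) * (∫ θ in (0 : ℝ)..2 * π, Y θ * ‖K θ‖ ^ 2) +
      (1 + 1 / s) * M * ∫ θ in (0 : ℝ)..2 * π, ‖D θ - K θ‖ ^ 2 := by
  have c1 : Continuous fun θ => (1 + s) * (Y θ * ‖K θ‖ ^ 2) := by fun_prop
  have c2 : Continuous fun θ => (1 + 1 / s) * M * ‖D θ - K θ‖ ^ 2 := by fun_prop
  have c3 : Continuous fun θ => Y θ * ‖D θ‖ ^ 2 := by fun_prop
  rw [← intervalIntegral.integral_const_mul, ← intervalIntegral.integral_const_mul,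
    ← intervalIntegral.integral_add (c1.intervalIntegrable _ _) (c2.intervalIntegrable _ _)]
  refine intervalIntegral.integral_mono_on Real.two_pi_pos.le (c3.intervalIntegrable _ _)
    ((c1.add c2).intervalIntegrable _ _) fun θ _ => ?_
  have h1 := mul_le_mul_of_nonneg_left (mq_sq (a := D θ) (b := K θ) s0) (Y0 θ)
  have h2 : Y θ * ((1 + 1 / s) * ‖D θ - K θ‖ ^ 2) ≤ M * ((1 + 1 / s) * ‖D θ - K θ‖ ^ 2) :=
    mul_le_mul_of_nonneg_right (YM θ) (by positivity)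
  linarith only [h1, h2]

/-- The choice of the constants. -/
theorem mq_consts {ε : ℝ} (hε : 0 < ε) (h1 : ε ≤ 1) : ∃ e A τ η r : ℝ, ∃ m : ℕ, 0 < η ∧
    MqC e A τ η r (ε / 40) m ∧ 1024 * e + r * A ^ 5 / (16 * e ^ 2) + 960 / A ≤ 3 / 10 * ε ∧
    (1 + 1 / (ε / 40)) * 3 * η ≤ ε / 10 := by
  set e := ε / 10240 with he
  set A := 9600 / ε with hA
  have e0 : 0 < e := by positivity
  have A1 : 9600 ≤ A := by
    rw [hA, le_div_iff₀ hε]
    linarith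
  have A0 : 0 < A := by linarith
  set r := min (ε / 40 / A ^ 2) (ε / 10 * (16 * e ^ 2) / A ^ 5) with hr
  have r0 : 0 < r := lt_min (by positivity) (by positivity)
  have r1 : r * A ^ 2 ≤ ε / 40 := by
    rw [← le_div_iff₀ (by positivity)]
    exact min_le_left _ _
  have r2 : r * A ^ 5 / (16 * e ^ 2) ≤ ε / 10 := by
    rw [div_le_iff₀ (by positivity), ← le_div_iff₀ (by positivity)]
    exact min_le_right _ _
  set τ₀ := min (r / 2) (min (r / 4 * (8 * e) ^ 3) (ε / 40 * (8 * e))) with hτ₀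
  have t0 : 0 < τ₀ := lt_min (by positivity) (lt_min (by positivity) (by positivity))
  have e1 : e ≤ 1 / 16 := by linarith
  have p0 : 0 < A / 8 - 8 * e := by linarith
  obtain ⟨m, hm⟩ := exists_nat_gt ((A / 8 - 8 * e) / τ₀)
  have m0 : (0 : ℝ) < m := lt_trans (by positivity) hm
  have hτ : (A / 8 - 8 * e) / m ≤ τ₀ := by
    rw [div_le_iff₀ m0]
    rw [div_lt_iff₀ t0] at hm
    linarith
  set τ := (A / 8 - 8 * e) / m with hτ'
  have τ0 : 0 < τ := by positivity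
  have τ1 : τ ≤ r / 2 := hτ.trans (min_le_left _ _)
  have τ2 : 2 * τ / (8 * e) ^ 3 ≤ r / 2 := by
    have := hτ.trans ((min_le_right _ _).trans (min_le_left _ _))
    rw [div_le_iff₀ (by positivity)]
    linarith
  have τ3 : τ ≤ ε / 40 * (8 * e) := hτ.trans ((min_le_right _ _).trans (min_le_right _ _))
  set η := min (min 1 (r / 2)) (ε / 10 / ((1 + 1 / (ε / 40)) * 3)) with hη
  have η0 : 0 < η := lt_min (lt_min one_pos (by positivity)) (by positivity)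
  have η1 : η ≤ 1 := (min_le_left _ _).trans (min_le_left _ _)
  have η2 : η ≤ r / 2 := (min_le_left _ _).trans (min_le_right _ _)
  have η3 : (1 + 1 / (ε / 40)) * 3 * η ≤ ε / 10 := by
    rw [mul_comm, ← le_div_iff₀ (by positivity)]
    exact min_le_right _ _
  refine ⟨e, A, τ, η, r, m, η0, ⟨e0, e1, by linarith, τ0, ?_, η1, by linarith, by linarith,
    by positivity, by linarith, r1, τ3⟩, ?_, η3⟩
  · rw [hτ', mul_div_cancel₀ _ m0.ne']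
    ring
  · have a1 : 960 / A = ε / 10 := by
      rw [hA]
      field_simp
      norm_num
    linarith

theorem mq_pow {ε : ℝ} (hε : 0 < ε) (h1 : ε ≤ 1) : (1 - ε) * (1 + ε / 40) ^ 10 ≤ 1 - ε / 2 := by
  have a1 : (1 + ε / 40) ^ 10 ≤ Real.exp (ε / 4) := by
    rw [show ε / 4 = (10 : ℕ) * (ε / 40) by push_cast; ring, Real.exp_nat_mul]
    exact pow_le_pow_left₀ (by positivity) (by linarith [Real.add_one_le_exp (ε / 40)]) 10
  have a2 : Real.exp (ε / 4) * (1 - ε / 4) ≤ 1 := by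
    have := Real.add_one_le_exp (-(ε / 4))
    calc Real.exp (ε / 4) * (1 - ε / 4) ≤ Real.exp (ε / 4) * Real.exp (-(ε / 4)) :=
          mul_le_mul_of_nonneg_left (by linarith) (Real.exp_pos _).le
      _ = 1 := by rw [← Real.exp_add, add_neg_cancel, Real.exp_zero]
  have a3 : Real.exp (ε / 4) ≤ 1 + ε / 2 := by
    by_contra h
    nlinarith only [not_le.mp h, a2, hε, h1]
  have a4 := mul_le_mul_of_nonneg_left (a1.trans a3) (sub_nonneg.2 h1)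
  nlinarith only [a4, sq_nonneg ε]

/-- The bounds for the omitted values of `E`. -/
theorem mq_Y {J : ℕ} {F w : ℂ → ℂ} {b : ℂ} (hb : ‖b‖ = 1) (hf : Sr 1 fun z => b * F z)
    (hw : Schur w) (hJ : 1 ≤ J) {ρ : ℝ} (h0 : 0 < ρ) (h1 : ρ < 1) (hρ : 1 / 2 ≤ ρ ^ J) :
    MqY J (F '' closedBall 0 ρ)ᶜ fun t => ‖yq J w (fun z => b * F z) (b * t)⁻¹‖ := by
  have b0 : b ≠ 0 := norm_pos_iff.mp (by rw [hb]; exact one_pos)
  have om : ∀ t ∈ (F '' closedBall 0 ρ)ᶜ, b * t ∉ (fun z => b * F z) '' closedBall 0 ρ := by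
    rintro t ht ⟨z, hz, e⟩
    exact ht ⟨z, hz, mul_left_cancel₀ b0 e⟩
  refine ⟨fun t => norm_nonneg _, fun t ht => gq_le hf hw hJ h0 h1 hρ (om t ht),
    fun t ht t' ht' => ?_, fun t ht => ?_⟩
  · have a1 := gq_lip hf hw hJ h0 h1 hρ (om t ht) (om t' ht')
    have a2 := norm_sub_norm_le (yq J w (fun z => b * F z) (b * t)⁻¹)
      (yq J w (fun z => b * F z) (b * t')⁻¹)
    have a3 : ‖(b * t)⁻¹ - (b * t')⁻¹‖ = ‖t⁻¹ - t'⁻¹‖ := by
      rw [mul_inv, mul_inv, ← mul_sub, norm_mul, norm_inv, hb, inv_one, one_mul]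
    rw [a3] at a1
    linarith
  · have a1 := gq_lip0 hf hw hJ h0 h1 hρ (om t ht)
    rwa [show ‖(b * t)⁻¹‖ = ‖t⁻¹‖ by rw [mul_inv, norm_mul, norm_inv, hb, inv_one, one_mul]] at a1

theorem mq_yq_cont (J : ℕ) (w f : ℂ → ℂ) : Continuous (yq J w f) := by
  unfold yq
  fun_prop

/-- The final count. -/
theorem mq_fin {ε L S I₁ I₂ I₃ c η l : ℝ} (hε : 0 < ε) (h1 : ε ≤ 1) (L0 : 0 < L) (hL : 10 / ε ≤ L)
    (hl : (1 - ε / 10) * L ^ 3 - L ^ 2 ≤ l) (a1 : l ≤ (2 * π)⁻¹ * I₁)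
    (a2 : I₁ ≤ (1 + ε / 40) * I₂ + (1 + 1 / (ε / 40)) * (3 * L ^ 2) * I₃)
    (a3 : (2 * π)⁻¹ * I₃ ≤ η * L) (a4 : I₂ ≤ (1 + ε / 40) ^ 9 * S + c * L ^ 3)
    (hc : c ≤ 3 / 10 * ε) (hη : (1 + 1 / (ε / 40)) * 3 * η ≤ ε / 10) :
    (1 - ε) * (2 * π * L ^ 3) ≤ S := by
  have hπ := Real.pi_gt_three
  have p0 := Real.two_pi_pos
  have L3 : 0 < L ^ 3 := by positivity
  rw [le_inv_mul_iff₀ p0] at a1
  rw [inv_mul_le_iff₀ p0] at a3
  have b1 : L ^ 2 ≤ ε / 10 * L ^ 3 := by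
    rw [div_le_iff₀ hε] at hL
    nlinarith only [hL, sq_nonneg L]
  have b2 : (1 + 1 / (ε / 40)) * (3 * L ^ 2) * I₃ ≤ 2 * π * (ε / 10 * L ^ 3) := by
    calc (1 + 1 / (ε / 40)) * (3 * L ^ 2) * I₃
        ≤ (1 + 1 / (ε / 40)) * (3 * L ^ 2) * (2 * π * (η * L)) :=
          mul_le_mul_of_nonneg_left a3 (by positivity)
      _ = 2 * π * ((1 + 1 / (ε / 40)) * 3 * η * L ^ 3) := by ring
      _ ≤ _ := by gcongr
  have b3 : (1 + ε / 40) * I₂ ≤ (1 + ε / 40) ^ 10 * S + 2 * π * (ε / 10 * L ^ 3) := by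
    have c1 : I₂ ≤ (1 + ε / 40) ^ 9 * S + 3 / 10 * ε * L ^ 3 :=
      a4.trans (add_le_add le_rfl (mul_le_mul_of_nonneg_right hc L3.le))
    have c2 := mul_le_mul_of_nonneg_left c1 (show 0 ≤ 1 + ε / 40 by positivity)
    have c3 : (1 + ε / 40) * (3 / 10 * ε * L ^ 3) ≤ 2 * π * (ε / 10 * L ^ 3) := by
      have : 0 ≤ ε * L ^ 3 := by positivity
      nlinarith only [this, hπ, h1, mul_nonneg this (sub_nonneg.2 h1),
        mul_nonneg this (sub_nonneg.2 hπ.le)]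
    calc (1 + ε / 40) * I₂ ≤ (1 + ε / 40) ^ 10 * S + (1 + ε / 40) * (3 / 10 * ε * L ^ 3) := by
          linarith only [c2]
      _ ≤ _ := add_le_add le_rfl c3
  have b4 : 2 * π * ((1 - ε / 5) * L ^ 3) ≤ 2 * π * l :=
    mul_le_mul_of_nonneg_left (by linarith only [hl, b1]) p0.le
  have b5 : (1 - ε / 2) * (2 * π * L ^ 3) ≤ (1 + ε / 40) ^ 10 * S := by
    have : 0 ≤ 2 * π * (ε * L ^ 3) := by positivity
    linarith only [a1, a2, b2, b3, b4, this]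
  have b6 := mul_le_mul_of_nonneg_right (mq_pow hε h1) (show 0 ≤ 2 * π * L ^ 3 by positivity)
  refine le_of_mul_le_mul_left (a := (1 + ε / 40) ^ 10) ?_ (by positivity)
  linarith only [b5, b6]

theorem mq_main {ε : ℝ} (hε : 0 < ε) (h1 : ε ≤ 1) : ∃ e A τ : ℝ, ∃ m : ℕ, 0 < e ∧ 0 < A ∧ 0 < τ ∧
    8 * e + m * τ = A / 8 ∧ ∃ η : ℝ, 0 < η ∧ ∃ δ : ℝ, 0 < δ ∧ ∃ J₀ : ℕ, ∀ J ≥ J₀,
    ∀ (E : Polynomial ℂ) (w : ℂ → ℂ) (a : ℂ) (h σ ρ : ℝ),
      Near J δ (fun z => a ^ 2 * E.eval z) w a → Shape J e A h η σ E → 0 < σ → σ ≤ 1 / 4 →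
      1 - σ / J ≤ ρ → ∃ q : ℕ → ℝ, (∀ j, 0 ≤ q j) ∧
        (∀ j < m, ∀ t ∈ Box J (8 * e + j * τ) (8 * e + j * τ + τ) \
          (fun z => E.eval z) '' closedBall 0 ρ,
          q j ≤ ‖Qd J w (fun z => a ^ 2 * E.eval z) (a ^ 2 * t)‖) ∧
        (1 - ε) * (2 * π * (J : ℝ) ^ 3) ≤
          ∑ j ∈ range m, q j * (8 * τ * (J : ℝ) ^ 5 / (8 * e + j * τ + τ) ^ 6) := by
  obtain ⟨e, A, τ, η, r, m, η0, C, hc, hη⟩ := mq_consts hε h1
  obtain ⟨δ, δ0, hδ⟩ := zf_both (ε := ε / 10) (by positivity)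
  obtain ⟨J₀, hJ₀⟩ := exists_nat_ge (max (max (1 / δ) (10 / ε)) (A / (ε / 40)))
  have A0 : 0 < A := by linarith [C.A1]
  refine ⟨e, A, τ, m, C.e0, A0, C.τ0, C.sum, η, η0, δ, δ0, J₀, ?_⟩
  intro J hJ E w a h σ ρ hN hS σ0 σ1 hρ
  have hJ' := hJ₀.trans (Nat.cast_le.mpr hJ : (J₀ : ℝ) ≤ J)
  have J1 : 1 / δ ≤ J := ((le_max_left _ _).trans (le_max_left _ _)).trans hJ'
  have J2 : 10 / ε ≤ J := ((le_max_right _ _).trans (le_max_left _ _)).trans hJ'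
  have J3 : A / (ε / 40) ≤ J := (le_max_right _ _).trans hJ'
  have J4 : (1 : ℝ) ≤ J := le_trans (by rw [le_div_iff₀ hε]; linarith) J2
  have J0 : (0 : ℝ) < J := by linarith
  have J5 : 1 ≤ J := by exact_mod_cast J4
  obtain ⟨hf, hw, ⟨hh, g, hX, -, hK⟩, hlam⟩ := hN
  have hb : ‖a ^ 2‖ = 1 := by rw [norm_pow, hK.2.1, one_pow]
  have b0 : a ^ 2 ≠ 0 := norm_pos_iff.mp (by rw [hb]; exact one_pos)
  have s0 : 0 < σ / J := by positivity
  have s1 : σ / J ≤ 1 / (4 * J) := by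
    rw [← div_div]
    exact div_le_div_of_nonneg_right σ1 J0.le
  have s2 : σ / J ≤ 1 / 4 := (div_le_self σ0.le J4).trans σ1
  have hpow : 1 / 2 ≤ (1 - 2 * (σ / J)) ^ J := by
    have := one_add_mul_le_pow (a := -(2 * (σ / J))) (by linarith) J
    rw [← sub_eq_add_neg, mul_neg, show (J : ℝ) * (2 * (σ / J)) = 2 * σ by field_simp] at this
    linarith
  have HY := mq_Y hb hf hw J5 (ρ := 1 - 2 * (σ / J)) (by linarith) (by linarith) hpow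
  set y := 1 - σ / J with hy
  have y0 : 0 < y := by linarith
  have y1 : y < 1 := by linarith
  have hz : ∀ θ, ‖(y : ℂ) * eI θ‖ = y := mq_norm y0.le
  have hom : ∀ θ, E.eval (y * eI θ) ∈ ((fun z => E.eval z) '' closedBall 0 (1 - 2 * (σ / J)))ᶜ := by
    rintro θ ⟨z, hz1, hz2⟩
    rw [mem_closedBall_zero_iff] at hz1
    have := hf.2.1 (mem_ball_zero_iff.mpr (by linarith : ‖z‖ < 1))
      (mem_ball_zero_iff.mpr (by rw [hz]; exact y1 : ‖(y : ℂ) * eI θ‖ < 1))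
      (congrArg (fun t => a ^ 2 * t) hz2)
    rw [this, hz] at hz1
    linarith
  have hne : ∀ θ, E.eval (y * eI θ) ≠ 0 := fun θ h0 => hom θ ⟨0, by
    rw [mem_closedBall_zero_iff, norm_zero]; linarith, by
    rw [h0]; exact (mul_eq_zero.mp hf.2.2.1).resolve_left b0⟩
  have cz : Continuous fun θ => (y : ℂ) * eI θ := continuous_const.mul eI_cont
  have cE : Continuous fun θ => E.eval (y * eI θ) := E.continuous.comp cz
  have cY : Continuous fun θ => ‖yq J w (fun z => a ^ 2 * E.eval z) (a ^ 2 * E.eval (y * eI θ))⁻¹‖ :=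
    ((mq_yq_cont J w _).comp ((continuous_const.mul cE).inv₀ fun θ => mul_ne_zero b0 (hne θ))).norm
  have cD : Continuous fun θ => y * eI θ * E.derivative.eval (y * eI θ) / E.eval (y * eI θ) :=
    (cz.mul (E.derivative.continuous.comp cz)).div cE hne
  have cK : Continuous fun θ => (1 + y * eI θ) / (1 - y * eI θ : ℂ) :=
    (continuous_const.add cz).div (continuous_const.sub cz) fun θ =>
      norm_pos_iff.mp (mq_pos (by rw [hz]; exact y1))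
  obtain ⟨q, q0, q1, q2⟩ := mq_core (c := fun θ => E.eval (y * eI θ)) C HY J3 (by linarith) y1
    hom cY (fun θ => by
      have : eI (θ + 2 * π) = eI θ := by
        rw [two_mul, eI_add, eI_add, eI_pi]
        ring
      simp only [this])
    (fun θ h1 h2 => hS.g1 θ y h1 h2 le_rfl y1.le) (fun θ => hS.d1 _ (hz θ))
  refine ⟨q, q0, fun j hj t ht => ?_, ?_⟩
  · have t1 : t ∈ ((fun z => E.eval z) '' closedBall 0 (1 - 2 * (σ / J)))ᶜ := fun h0 =>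
      ht.2 (image_mono (closedBall_subset_closedBall (by linarith)) h0)
    have t0 : t ≠ 0 := by
      rintro rfl
      exact t1 ⟨0, by rw [mem_closedBall_zero_iff, norm_zero]; linarith,
        (mul_eq_zero.mp hf.2.2.1).resolve_left b0⟩
    rw [Qd_eq J w _ (mul_ne_zero b0 t0), norm_mul, norm_pow,
      show ‖(a ^ 2 * t)⁻¹‖ = ‖t⁻¹‖ by rw [mul_inv, norm_mul, norm_inv, hb, inv_one, one_mul]]
    exact q1 j hj t ht.1 t1
  · have m1 := gq_mean (w := w) hf J5 y0 y1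
    have m2 := hS.d2
    have m3 := mq_mean (s := ε / 40) (by positivity) cY cD cK (fun θ => norm_nonneg _)
      fun θ => HY.le _ (hom θ)
    have hd : ∀ z, z * deriv (fun z => a ^ 2 * E.eval z) z / (a ^ 2 * E.eval z) =
        z * E.derivative.eval z / E.eval z := fun z => by
      rw [((E.hasDerivAt z).const_mul (a ^ 2)).deriv, mul_left_comm, mul_div_mul_left _ _ b0]
    simp only [circleAverage_def, eI_circ, smul_eq_mul, hd] at m1 m2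
    obtain ⟨u, u1, u2, -⟩ := hδ J hh w a J5 hw hK (by
      rw [hX]
      refine le_trans ?_ hlam
      rw [div_le_iff₀ δ0] at J1
      nlinarith only [J1, J0])
    rw [hX] at u2
    have l1 := pair_scaled hf one_pos le_rfl hw J5
    rw [one_pow, one_mul] at l1
    have l2 : ‖a ^ 2 * u * (J : ℂ) ^ 3‖ = (J : ℝ) ^ 3 := by
      rw [norm_mul, norm_mul, hb, u1, norm_pow, Complex.norm_natCast, one_mul, one_mul]
    refine mq_fin hε h1 J0 J2 ?_ m1 m3 m2 q2 hc hη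
    set P := Lam J w (X * d⁄dX ℂ (tay fun z => a ^ 2 * E.eval z))
    set Q := Lam J w (tay fun z => a ^ 2 * E.eval z)
    have l3 := norm_sub_norm_le (a ^ 2 * u * (J : ℂ) ^ 3) P
    have l4 := norm_sub_norm_le P Q
    rw [norm_sub_rev, l2] at l3
    linarith

theorem mass_q {ε : ℝ} (hε : 0 < ε) : ∃ e A τ : ℝ, ∃ m : ℕ, 0 < e ∧ 0 < A ∧ 0 < τ ∧
    8 * e + m * τ = A / 8 ∧ ∃ η : ℝ, 0 < η ∧ ∃ δ : ℝ, 0 < δ ∧ ∃ J₀ : ℕ, ∀ J ≥ J₀,
    ∀ (E : Polynomial ℂ) (w : ℂ → ℂ) (a : ℂ) (h σ ρ : ℝ),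
      Near J δ (fun z => a ^ 2 * E.eval z) w a → Shape J e A h η σ E → 0 < σ → σ ≤ 1 / 4 →
      1 - σ / J ≤ ρ → ∃ q : ℕ → ℝ, (∀ j, 0 ≤ q j) ∧
        (∀ j < m, ∀ t ∈ Box J (8 * e + j * τ) (8 * e + j * τ + τ) \
          (fun z => E.eval z) '' closedBall 0 ρ,
          q j ≤ ‖Qd J w (fun z => a ^ 2 * E.eval z) (a ^ 2 * t)‖) ∧
        (1 - ε) * (2 * π * (J : ℝ) ^ 3) ≤
          ∑ j ∈ range m, q j * (8 * τ * (J : ℝ) ^ 5 / (8 * e + j * τ + τ) ^ 6) := by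
  obtain ⟨e, A, τ, m, e0, A0, τ0, hs, η, η0, δ, δ0, J₀, H⟩ :=
    mq_main (lt_min hε one_pos) (min_le_right ε 1)
  refine ⟨e, A, τ, m, e0, A0, τ0, hs, η, η0, δ, δ0, J₀, ?_⟩
  intro J hJ E w a h σ ρ hN hS σ0 σ1 hρ
  obtain ⟨q, q0, q1, q2⟩ := H J hJ E w a h σ ρ hN hS σ0 σ1 hρ
  refine ⟨q, q0, q1, le_trans (mul_le_mul_of_nonneg_right ?_ ?_) q2⟩
  · linarith [min_le_left ε 1]
  · have := Real.pi_pos
    positivity

end Pool.Agent.P.MP_c09211_an.Sh.GL
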