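import Pool.Agent.P.MP_c09211_an.GL.Homot

/-!
The number of inversions (paper: R6, count).
-/

set_option autoImplicit false

namespace Pool.Agent.P.MP_c09211_an.Sh.GL

open Metric Set Finset PowerSeries Complex Filter Topology Real MeasureTheory
open scoped ComplexConjugate

section NCLa

variable {ι : Type} {F : ι → ℝ → ℝ} {α : ℝ} {u : Equiv.Perm ι} {V : ℕ} {φ : ℕ → ℝ}
  {W : ℕ → Equiv.Perm ι}

/-- The order persists up to the end points of an interval without crossings. -/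
theorem NCLa_le (hF : ∀ i, Continuous (F i)) {p q x y : ℝ}
    (h : ∀ z ∈ Set.Ioo p q, Function.Injective fun i => F i z) (hx : x ∈ Set.Ioo p q)
    (hy : y ∈ Set.Icc p q) {a b : ι} (hab : F a x < F b x) : F a y ≤ F b y := by
  by_contra hc
  have hc' := not_le.1 hc
  obtain ⟨z, hz, h0⟩ := intermediate_value_uIcc (a := x) (b := y)
    ((hF a).sub (hF b)).continuousOn
    (Set.mem_uIcc_of_le (x := (0 : ℝ)) (sub_nonpos.2 hab.le) (sub_nonneg.2 hc'.le))
  have h1 : F a z = F b z := sub_eq_zero.1 h0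
  have h2 : z ≠ y := fun e => hc'.ne' (e ▸ h1)
  have h3 : z ∈ Set.Ioo p q := by
    rcases Set.mem_uIcc.1 hz with h4 | h4
    · exact ⟨hx.1.trans_le h4.1, (lt_of_le_of_ne h4.2 h2).trans_le hy.2⟩
    · exact ⟨hy.1.trans_lt (lt_of_le_of_ne h4.1 h2.symm), h4.2.trans_lt hx.2⟩
  have h4 : a = b := h z h3 h1
  exact hab.ne (h4 ▸ rfl)

/-- The midpoints. -/
noncomputable def NCLa_l (φ : ℕ → ℝ) (k : ℕ) : ℝ := (φ k + φ (k + 1)) / 2

theorem NCLa_mid (hN : NF F α u V φ W) {k : ℕ} (hk : k ≤ V) :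
    NCLa_l φ k ∈ Set.Ioo (φ k) (φ (k + 1)) := by
  have := hN.mono k hk
  constructor <;> unfold NCLa_l <;> linarith

theorem NCLa_mono (hN : NF F α u V φ W) {j k : ℕ} (hjk : j < k) (hk : k ≤ V + 1) : φ j < φ k := by
  induction k, hjk using Nat.le_induction with
  | base => exact hN.mono j (by omega)
  | succ k _ ih => exact (ih (by omega)).trans (hN.mono k (by omega))

theorem NCLa_right (hF : ∀ i, Continuous (F i)) (hN : NF F α u V φ W) {k : ℕ} (hk : k ≤ V)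
    {a b : ι} (h : F a (NCLa_l φ k) < F b (NCLa_l φ k)) : F a (φ (k + 1)) ≤ F b (φ (k + 1)) :=
  NCLa_le hF (hN.sep k hk) (NCLa_mid hN hk) ⟨(hN.mono k hk).le, le_rfl⟩ h

theorem NCLa_left (hF : ∀ i, Continuous (F i)) (hN : NF F α u V φ W) {k : ℕ} (hk : k ≤ V)
    {a b : ι} (h : F a (NCLa_l φ k) < F b (NCLa_l φ k)) : F a (φ k) ≤ F b (φ k) :=
  NCLa_le hF (hN.sep k hk) (NCLa_mid hN hk) ⟨le_rfl, (hN.mono k hk).le⟩ h

theorem NCLa_val (hN : NF F α u V φ W) {k : ℕ} (hk : k < V) (a : ι) :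
    F (W (k + 1) ((W k)⁻¹ a)) (φ (k + 1)) = F a (φ (k + 1)) := by
  rw [hN.val k hk, Equiv.Perm.inv_def, Equiv.apply_symm_apply]

/-- An inversion. -/
def NCLa_inv (F : ι → ℝ → ℝ) (φ : ℕ → ℝ) (W : ℕ → Equiv.Perm ι) (k : ℕ) (a b : ι) : Prop :=
  F a (NCLa_l φ k) < F b (NCLa_l φ k) ∧
    F (W (k + 1) ((W k)⁻¹ b)) (NCLa_l φ k) < F (W (k + 1) ((W k)⁻¹ a)) (NCLa_l φ k)

/-- A change of the order of two wires. -/
def NCLa_chg (F : ι → ℝ → ℝ) (φ : ℕ → ℝ) (W : ℕ → Equiv.Perm ι) (k : ℕ) (a b : ι) : Prop :=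
  F a (NCLa_l φ k) < F b (NCLa_l φ k) ∧
    F (W (k + 1) ((W k)⁻¹ b)) (NCLa_l φ (k + 1)) < F (W (k + 1) ((W k)⁻¹ a)) (NCLa_l φ (k + 1))

theorem NCLa_inv_eq (hF : ∀ i, Continuous (F i)) (hN : NF F α u V φ W) {k : ℕ} (hk : k < V)
    {a b : ι} (h : NCLa_inv F φ W k a b) : a ≠ b ∧ F a (φ (k + 1)) = F b (φ (k + 1)) := by
  refine ⟨fun e => h.1.ne (e ▸ rfl), le_antisymm (NCLa_right hF hN hk.le h.1) ?_⟩
  have := NCLa_right hF hN hk.le h.2
  rwa [NCLa_val hN hk, NCLa_val hN hk] at this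

theorem NCLa_chg_eq (hF : ∀ i, Continuous (F i)) (hN : NF F α u V φ W) {k : ℕ} (hk : k < V)
    {a b : ι} (h : NCLa_chg F φ W k a b) : a ≠ b ∧ F a (φ (k + 1)) = F b (φ (k + 1)) := by
  refine ⟨fun e => h.1.ne (e ▸ rfl), le_antisymm (NCLa_right hF hN hk.le h.1) ?_⟩
  have := NCLa_left hF hN (k := k + 1) hk h.2
  rwa [NCLa_val hN hk, NCLa_val hN hk] at this

theorem NCLa_not [Fintype ι] [DecidableEq ι] (hF : ∀ i, Continuous (F i)) (H : Simple F)
    (hN : NF F α u V φ W) {k : ℕ} (hk : k < V) {a b : ι} (h : NCLa_inv F φ W k a b) :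
    ¬ NCLa_chg F φ W k a b := fun h' => by
  have h1 := NCLa_mid hN hk.le
  have h2 := NCLa_mid hN (k := k + 1) hk
  have hab : W (k + 1) ((W k)⁻¹ a) ≠ W (k + 1) ((W k)⁻¹ b) := fun e => h.2.ne (e ▸ rfl)
  have := H.sign hF h1.2 h2.1 hab
    (by rw [NCLa_val hN hk, NCLa_val hN hk, (NCLa_inv_eq hF hN hk h).2]) fun x hx hv e => by
      rcases lt_or_gt_of_ne hv with h3 | h3
      · exact hab (hN.sep k hk.le x ⟨h1.1.trans_le hx.1, h3⟩ e)
      · exact hab (hN.sep (k + 1) hk x ⟨h3, hx.2.trans_lt h2.2⟩ e)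
  exact this.not_gt (mul_pos (sub_pos.2 h.2) (sub_pos.2 h'.2))

/-- Two wires whose order is reversed at the end change their order somewhere. -/
theorem NCLa_ex (hN : NF F α u V φ W) {i j : ι} (h0 : F i (NCLa_l φ 0) < F j (NCLa_l φ 0))
    (hV : F (u j) (NCLa_l φ V) < F (u i) (NCLa_l φ V)) :
    ∃ k < V, NCLa_chg F φ W k (W k i) (W k j) := by
  have hij : i ≠ j := fun e => h0.ne (e ▸ rfl)
  by_contra hc
  push Not at hc
  have key : ∀ k ≤ V, F (W k i) (NCLa_l φ k) < F (W k j) (NCLa_l φ k) := by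
    intro k
    induction k with
    | zero => intro _; rw [hN.w0]; exact h0
    | succ k ih =>
      intro hk
      have h1 := hc k hk
      simp only [NCLa_chg, Equiv.Perm.inv_def, Equiv.symm_apply_apply, not_and, not_lt] at h1
      refine lt_of_le_of_ne (h1 (ih (by omega))) fun e => hij ?_
      exact (W (k + 1)).injective (hN.sep (k + 1) hk _ (NCLa_mid hN hk) e)
  have := key V le_rfl
  rw [hN.wV] at this
  exact this.not_gt hV

theorem NCLa_fix (hF : ∀ i, Continuous (F i)) {s : Equiv.Perm ι}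
    (hs : ∀ i x, F i (x + π) = -F (s i) x) (h1 : Function.Injective fun i => F i α)
    (hN : NF F α u V φ W) {i j : ι} (hi : s (u i) = i) (hj : s (u j) = j)
    (h0 : F i (NCLa_l φ 0) < F j (NCLa_l φ 0)) : ∃ k < V, NCLa_chg F φ W k (W k i) (W k j) := by
  have hij : i ≠ j := fun e => h0.ne (e ▸ rfl)
  refine NCLa_ex hN h0 ?_
  have h2 := NCLa_left hF hN (Nat.zero_le V) h0
  rw [hN.first] at h2
  have h3 : F i α < F j α := lt_of_le_of_ne h2 fun e => hij (h1 e)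
  by_contra h4
  have h5 : F (u i) (NCLa_l φ V) < F (u j) (NCLa_l φ V) :=
    lt_of_le_of_ne (not_lt.1 h4) fun e =>
      hij (u.injective (hN.sep V le_rfl _ (NCLa_mid hN le_rfl) e))
  have h6 := NCLa_right hF hN le_rfl h5
  rw [hN.last, hs, hs, hi, hj] at h6
  linarith

end NCLa

open Classical in
/-- The number of inversions is at most `N - 2`. -/
theorem inv_le {n : ℕ} {F : Fin (n + 1) → ℝ → ℝ} (hF : ∀ i, Continuous (F i))
    (hs : ∀ i φ, F i (φ + π) = -F (finRotate (n + 1) i) φ) (H : Simple F) (hC : Cnt F) {α : ℝ}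
    (h1 : Function.Injective fun i => F i α) {u : Equiv.Perm (Fin (n + 1))} {V : ℕ} {φ : ℕ → ℝ}
    {W : ℕ → Equiv.Perm (Fin (n + 1))} (hN : NF F α u V φ W) {Φ : Finset (Fin (n + 1))}
    (hΦ : ∀ i ∈ Φ, finRotate (n + 1) (u i) = i) (hc : Φ.card + 1 = n) :
    ∑ k ∈ range V, (univ.filter fun q : Fin (n + 1) × Fin (n + 1) =>
      F q.1 ((φ k + φ (k + 1)) / 2) < F q.2 ((φ k + φ (k + 1)) / 2) ∧
      F (W (k + 1) ((W k)⁻¹ q.2)) ((φ k + φ (k + 1)) / 2) <
        F (W (k + 1) ((W k)⁻¹ q.1)) ((φ k + φ (k + 1)) / 2)).card + 1 ≤ n := by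
  set U : Finset (ℕ × Fin (n + 1) × Fin (n + 1)) := Finset.range V ×ˢ Finset.univ with hU
  set A := U.filter fun q => NCLa_inv F φ W q.1 q.2.1 q.2.2 with hA
  set B := U.filter fun q => NCLa_inv F φ W q.1 q.2.2 q.2.1 with hB
  set C := U.filter fun q => NCLa_chg F φ W q.1 q.2.1 q.2.2 ∨ NCLa_chg F φ W q.1 q.2.2 q.2.1
    with hCd
  have mU : ∀ q, q ∈ U ↔ q.1 < V := fun q => by simp [hU]
  have e1 : A.card = ∑ k ∈ range V, (univ.filter fun q : Fin (n + 1) × Fin (n + 1) =>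
      F q.1 ((φ k + φ (k + 1)) / 2) < F q.2 ((φ k + φ (k + 1)) / 2) ∧
      F (W (k + 1) ((W k)⁻¹ q.2)) ((φ k + φ (k + 1)) / 2) <
        F (W (k + 1) ((W k)⁻¹ q.1)) ((φ k + φ (k + 1)) / 2)).card := by
    simp only [hA, hU, Finset.card_filter]
    rw [Finset.sum_product]
    exact Finset.sum_congr rfl fun k _ => Finset.sum_congr rfl fun q _ => if_congr Iff.rfl rfl rfl
  have e2 : A.card ≤ B.card := Finset.card_le_card_of_injOn (fun q => (q.1, q.2.2, q.2.1))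
    (fun q hq => by
      have hq' := Finset.mem_filter.1 hq
      exact Finset.mem_filter.2 ⟨(mU _).2 ((mU q).1 hq'.1), hq'.2⟩)
    fun q _ q' _ e => by
      simp only [Prod.mk.injEq] at e
      exact Prod.ext e.1 (Prod.ext e.2.2 e.2.1)
  have e3 : Φ.offDiag.card ≤ C.card := Finset.card_le_card_of_surjOn
    (fun q => ((W q.1)⁻¹ q.2.1, (W q.1)⁻¹ q.2.2)) fun p hp => by
      obtain ⟨hi, hj, hij⟩ := Finset.mem_offDiag.1 hp
      have hne : F p.1 (NCLa_l φ 0) ≠ F p.2 (NCLa_l φ 0) := fun e =>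
        hij (hN.sep 0 (Nat.zero_le V) _ (NCLa_mid hN (Nat.zero_le V)) e)
      rcases lt_or_gt_of_ne hne with h0 | h0
      · obtain ⟨k, hk, h⟩ := NCLa_fix hF hs h1 hN (hΦ _ hi) (hΦ _ hj) h0
        exact ⟨(k, W k p.1, W k p.2), Finset.mem_filter.2 ⟨(mU _).2 hk, Or.inl h⟩, by simp⟩
      · obtain ⟨k, hk, h⟩ := NCLa_fix hF hs h1 hN (hΦ _ hj) (hΦ _ hi) h0
        exact ⟨(k, W k p.1, W k p.2), Finset.mem_filter.2 ⟨(mU _).2 hk, Or.inr h⟩, by simp⟩
  have d1 : Disjoint A B := Finset.disjoint_filter.2 fun q _ h h' => h.1.not_gt h'.1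
  have d2 : Disjoint (A ∪ B) C := Finset.disjoint_left.2 fun q hq hq' => by
    obtain ⟨h0, h⟩ := Finset.mem_filter.1 hq'
    have hk := (mU _).1 h0
    rcases Finset.mem_union.1 hq with h2 | h2 <;> have h3 := (Finset.mem_filter.1 h2).2 <;>
      rcases h with h | h
    · exact NCLa_not hF H hN hk h3 h
    · exact h3.1.not_gt h.1
    · exact h3.1.not_gt h.1
    · exact NCLa_not hF H hN hk h3 h
  have hall : ∀ q ∈ A ∪ B ∪ C, q.1 < V ∧ q.2.1 ≠ q.2.2 ∧
      F q.2.1 (φ (q.1 + 1)) = F q.2.2 (φ (q.1 + 1)) := fun q hq => by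
    simp only [hA, hB, hCd, Finset.mem_union, Finset.mem_filter, mU] at hq
    rcases hq with (⟨hk, h⟩ | ⟨hk, h⟩) | ⟨hk, h | h⟩
    · exact ⟨hk, NCLa_inv_eq hF hN hk h⟩
    · exact ⟨hk, (NCLa_inv_eq hF hN hk h).1.symm, (NCLa_inv_eq hF hN hk h).2.symm⟩
    · exact ⟨hk, NCLa_chg_eq hF hN hk h⟩
    · exact ⟨hk, (NCLa_chg_eq hF hN hk h).1.symm, (NCLa_chg_eq hF hN hk h).2.symm⟩
  have e4 := hC α ((A ∪ B ∪ C).image fun q => (φ (q.1 + 1), q.2)) fun t ht => by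
    obtain ⟨q, hq, rfl⟩ := Finset.mem_image.1 ht
    obtain ⟨h2, h3, h4⟩ := hall q hq
    refine ⟨?_, ?_, h3, h4⟩
    · exact hN.first ▸ (NCLa_mono hN (Nat.succ_pos _) (by omega)).le
    · exact hN.last ▸ NCLa_mono hN (by omega) le_rfl
  rw [Finset.card_image_of_injOn fun q hq q' hq' e => by
      simp only [Prod.mk.injEq] at e
      have h2 := (hall q hq).1
      have h3 := (hall q' hq').1
      refine Prod.ext ?_ e.2
      by_contra h4
      rcases lt_or_gt_of_ne h4 with h5 | h5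
      · exact (NCLa_mono hN (Nat.succ_lt_succ h5) (by omega)).ne e.1
      · exact (NCLa_mono hN (Nat.succ_lt_succ h5) (by omega)).ne' e.1,
    Finset.card_union_of_disjoint d2, Finset.card_union_of_disjoint d1] at e4
  rw [Finset.offDiag_card] at e3
  rw [← e1]
  have e5 : (n + 1 - 1) * (n + 1 - 2) = Φ.card * Φ.card + Φ.card := by
    rw [show n + 1 - 1 = Φ.card + 1 by omega, show n + 1 - 2 = Φ.card by omega]
    ring
  have e6 : Φ.card ≤ Φ.card * Φ.card := Nat.le_mul_self _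
  omega

end Pool.Agent.P.MP_c09211_an.Sh.GL
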