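import Pool.Agent.P.MP_c09211_an.GL.Defs

/-!
Inversions and transpositions (paper: R5, L1).
-/

set_option autoImplicit false

namespace Pool.Agent.P.MP_c09211_an.Sh.GL

open Metric Set Finset PowerSeries Complex Filter Topology Real MeasureTheory
open scoped ComplexConjugate

variable {ι : Type} [Fintype ι] [DecidableEq ι]

theorem SwN.le {m n : ℕ} {σ : Equiv.Perm ι} (H : SwN m σ) (h : m ≤ n) : SwN n σ := by
  induction h with
  | refl => exact H
  | step _ ih => exact ih.succ

omit [DecidableEq ι] in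
theorem permA_eq_one {κ : ι → ℕ} {A : ι → ℝ} (hA : ∀ a b, κ a = κ b → A a = A b → a = b)
    {σ : Equiv.Perm ι} (hσ : ∀ a, κ (σ a) = κ a)
    (h : ∀ a b, κ a = κ b → A a < A b → ¬ A (σ b) < A (σ a)) : σ = 1 := by
  classical
  by_contra hne
  have h1 : (univ.filter fun a => σ a ≠ a).Nonempty := by
    by_contra h2
    refine hne (Equiv.ext fun a => ?_)
    by_contra h3
    exact h2 ⟨a, by simpa using h3⟩
  obtain ⟨a, ha, hmin⟩ := Finset.exists_min_image _ A h1
  simp only [Finset.mem_filter, Finset.mem_univ, true_and] at ha hmin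
  obtain ⟨b, rfl⟩ := σ.surjective a
  have hb : σ b ≠ b := fun e => ha (congrArg σ e)
  refine h (σ b) b (hσ b) ((hmin b hb).lt_of_ne fun e => hb (hA _ _ (hσ b) e)) ?_
  exact (hmin _ fun e => ha (σ.injective e)).lt_of_ne fun e => ha (hA _ _ (hσ _) e.symm)

omit [Fintype ι] in
theorem permA_swap_lt {κ : ι → ℕ} {A : ι → ℝ} (hA : ∀ a b, κ a = κ b → A a = A b → a = b)
    {a b : ι} (hκ : κ a = κ b) (hab : A a < A b)
    (hadj : ∀ c, κ c = κ a → A a < A c → ¬ A c < A b) {x y : ι} (hxy : κ x = κ y)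
    (h : A x < A y) (hne : ¬ (x = a ∧ y = b)) :
    A (Equiv.swap a b x) < A (Equiv.swap a b y) := by
  by_cases hxa : x = a
  · subst hxa
    have hyb : y ≠ b := fun e => hne ⟨rfl, e⟩
    have hyx : y ≠ x := fun e => by simp [e] at h
    rw [Equiv.swap_apply_left, Equiv.swap_apply_of_ne_of_ne hyx hyb]
    exact (not_lt.1 (hadj y hxy.symm h)).lt_of_ne fun e =>
      hyb (hA _ _ (hκ.symm.trans hxy) e).symm
  by_cases hxb : x = b
  · subst hxb
    have hya : y ≠ a := fun e => by
      rw [e] at h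
      exact lt_asymm h hab
    have hyx : y ≠ x := fun e => by simp [e] at h
    rw [Equiv.swap_apply_right, Equiv.swap_apply_of_ne_of_ne hya hyx]
    exact hab.trans h
  rw [Equiv.swap_apply_of_ne_of_ne hxa hxb]
  by_cases hya : y = a
  · subst hya
    rw [Equiv.swap_apply_left]
    exact h.trans hab
  by_cases hyb : y = b
  · subst hyb
    rw [Equiv.swap_apply_right]
    have h1 : κ x = κ a := hxy.trans hκ.symm
    exact (not_lt.1 fun h2 => hadj x h1 h2 h).lt_of_ne fun e => hxa (hA _ _ h1 e)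
  rwa [Equiv.swap_apply_of_ne_of_ne hya hyb]

open Classical in
/-- A permutation is a product of at most as many transpositions as it has inversions. -/
theorem swn_inv {κ : ι → ℕ} {A : ι → ℝ} (hA : ∀ a b, κ a = κ b → A a = A b → a = b)
    {σ : Equiv.Perm ι} (hσ : ∀ a, κ (σ a) = κ a) :
    SwN (univ.filter fun q : ι × ι =>
      κ q.1 = κ q.2 ∧ A q.1 < A q.2 ∧ A (σ q.2) < A (σ q.1)).card σ := by
  generalize hn : (univ.filter fun q : ι × ι =>
    κ q.1 = κ q.2 ∧ A q.1 < A q.2 ∧ A (σ q.2) < A (σ q.1)).card = n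
  induction n using Nat.strong_induction_on generalizing σ with
  | _ n ih =>
  set I := univ.filter fun q : ι × ι => κ q.1 = κ q.2 ∧ A q.1 < A q.2 ∧ A (σ q.2) < A (σ q.1)
    with hI
  have mem : ∀ x y, (x, y) ∈ I ↔ κ x = κ y ∧ A x < A y ∧ A (σ y) < A (σ x) := fun x y => by
    simp [hI]
  rcases I.eq_empty_or_nonempty with h0 | h0
  · have : σ = 1 := permA_eq_one hA hσ fun a b h1 h2 h3 => by
      have := (mem a b).2 ⟨h1, h2, h3⟩
      rw [h0] at this
      exact Finset.notMem_empty _ this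
    rw [this]
    exact SwN.one.le (Nat.zero_le _)
  obtain ⟨⟨a, b⟩, hq, hmin⟩ := Finset.exists_min_image I (fun q => A q.2 - A q.1) h0
  obtain ⟨hκ, hab, hinv⟩ := (mem a b).1 hq
  have hadj : ∀ c, κ c = κ a → A a < A c → ¬ A c < A b := fun c h1 h2 h3 => by
    rcases lt_or_ge (A (σ c)) (A (σ a)) with h4 | h4
    · have := hmin (a, c) ((mem a c).2 ⟨h1.symm, h2, h4⟩)
      simp only at this
      linarith
    · have := hmin (c, b) ((mem c b).2 ⟨h1.trans hκ, h3, hinv.trans_le h4⟩)
      simp only at this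
      linarith
  have hsw : ∀ x, κ (Equiv.swap a b x) = κ x := fun x => by
    rw [Equiv.swap_apply_def]
    split_ifs with h1 h2
    · rw [h1, hκ]
    · rw [h2, hκ]
    · rfl
  have hlt : (univ.filter fun q : ι × ι => κ q.1 = κ q.2 ∧ A q.1 < A q.2 ∧
      A ((σ * Equiv.swap a b) q.2) < A ((σ * Equiv.swap a b) q.1)).card < n := by
    rw [← hn]
    refine lt_of_le_of_lt (Finset.card_le_card_of_injOn
      (fun q => (Equiv.swap a b q.1, Equiv.swap a b q.2)) ?_ ?_) (Finset.card_erase_lt_of_mem hq)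
    · rintro ⟨x, y⟩ hxy
      simp only [Finset.coe_filter, Finset.mem_univ, true_and, Set.mem_ofPred_eq,
        Equiv.Perm.mul_apply] at hxy
      obtain ⟨h1, h2, h3⟩ := hxy
      refine Finset.mem_coe.2 (Finset.mem_erase.2 ⟨fun e => ?_, (mem _ _).2
        ⟨by rw [hsw, hsw, h1], permA_swap_lt hA hκ hab hadj h1 h2 ?_, h3⟩⟩)
      · obtain ⟨e1, e2⟩ := Prod.ext_iff.1 e
        simp only [Equiv.swap_apply_eq_iff, Equiv.swap_apply_left, Equiv.swap_apply_right] at e1 e2
        rw [e1, e2] at h2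
        exact lt_asymm h2 hab
      · rintro ⟨rfl, rfl⟩
        rw [Equiv.swap_apply_left, Equiv.swap_apply_right] at h3
        exact lt_asymm h3 hinv
    · rintro ⟨x, y⟩ - ⟨x', y'⟩ - e
      obtain ⟨e1, e2⟩ := Prod.ext_iff.1 e
      exact Prod.ext ((Equiv.swap a b).injective e1) ((Equiv.swap a b).injective e2)
  have h1 := (ih _ hlt (σ := σ * Equiv.swap a b)
    (fun x => by rw [Equiv.Perm.mul_apply, hσ, hsw]) rfl).mul (σ a) (σ b)
  rw [← mul_assoc, ← Equiv.mul_swap_eq_swap_mul, mul_assoc, Equiv.swap_mul_self, mul_one] at h1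
  exact h1.le hlt

end Pool.Agent.P.MP_c09211_an.Sh.GL
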