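import Pool.Agent.P.MP_c09211_an.GL.Defs

/-!
Products of few transpositions and noncrossing orbits (paper: R5, L2).
-/

set_option autoImplicit false

namespace Pool.Agent.P.MP_c09211_an.Sh.GL

open Metric Set Finset PowerSeries Complex Filter Topology Real MeasureTheory
open scoped ComplexConjugate

variable {ι : Type} [Fintype ι] [DecidableEq ι]

/-- Sets that meet every orbit at most once. -/
def PermB_Ind (σ : Equiv.Perm ι) (T : Finset ι) : Prop :=
  ∀ a ∈ T, ∀ b ∈ T, σ.SameCycle a b → a = b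

theorem PermB_inv {σ : Equiv.Perm ι} {S : ι → Prop} (hS : ∀ a, S a → S (σ a)) {a b : ι}
    (ha : S a) (h : σ.SameCycle a b) : S b := by
  obtain ⟨n, rfl⟩ := h.exists_nat_pow_eq
  induction n with
  | zero => exact ha
  | succ n ih =>
    rw [pow_succ', Equiv.Perm.mul_apply]
    exact hS _ (ih ⟨n, by rw [zpow_natCast]⟩)

/-- The orbits after multiplication by a transposition refine the join. -/
theorem PermB_join {σ : Equiv.Perm ι} {x y a b : ι} (h : (σ * Equiv.swap x y).SameCycle a b) :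
    σ.SameCycle a b ∨ (σ.SameCycle a x ∧ σ.SameCycle y b) ∨
      (σ.SameCycle a y ∧ σ.SameCycle x b) := by
  refine PermB_inv (S := fun b => σ.SameCycle a b ∨ (σ.SameCycle a x ∧ σ.SameCycle y b) ∨
    (σ.SameCycle a y ∧ σ.SameCycle x b)) (fun c hc => ?_) (Or.inl .rfl) h
  simp only [Equiv.Perm.mul_apply, Equiv.Perm.sameCycle_apply_right]
  by_cases h1 : c = x
  · subst h1
    rw [Equiv.swap_apply_left]
    rcases hc with hc | hc | hc
    · exact Or.inr (Or.inl ⟨hc, .rfl⟩)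
    · exact Or.inr (Or.inl ⟨hc.1, .rfl⟩)
    · exact Or.inl hc.1
  by_cases h2 : c = y
  · subst h2
    rw [Equiv.swap_apply_right]
    rcases hc with hc | hc | hc
    · exact Or.inr (Or.inr ⟨hc, .rfl⟩)
    · exact Or.inl hc.1
    · exact Or.inr (Or.inr ⟨hc.1, .rfl⟩)
  rwa [Equiv.swap_apply_of_ne_of_ne h1 h2]

theorem PermB_join' {σ : Equiv.Perm ι} (x y : ι) {a b : ι} (h : σ.SameCycle a b) :
    (σ * Equiv.swap x y).SameCycle a b ∨
      ((σ * Equiv.swap x y).SameCycle a x ∧ (σ * Equiv.swap x y).SameCycle y b) ∨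
      ((σ * Equiv.swap x y).SameCycle a y ∧ (σ * Equiv.swap x y).SameCycle x b) := by
  refine PermB_join ?_
  rwa [mul_assoc, Equiv.swap_mul_self, mul_one]

theorem PermB_refine {σ : Equiv.Perm ι} {x y a b : ι} (hxy : σ.SameCycle x y)
    (h : (σ * Equiv.swap x y).SameCycle a b) : σ.SameCycle a b := by
  rcases PermB_join h with h | h | h
  · exact h
  · exact h.1.trans (hxy.trans h.2)
  · exact h.1.trans (hxy.symm.trans h.2)

/-- A transposition inside an orbit splits it. -/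
theorem PermB_split {σ : Equiv.Perm ι} {x y : ι} (hne : x ≠ y) (hxy : σ.SameCycle x y) :
    ¬ (σ * Equiv.swap x y).SameCycle y x := by
  classical
  have hex : ∃ k : ℕ, (σ ^ k) x = y := hxy.exists_nat_pow_eq
  have hk := Nat.find_spec hex
  have hmin : ∀ j < Nat.find hex, (σ ^ j) x ≠ y := fun j hj => Nat.find_min hex hj
  generalize Nat.find hex = k at hk hmin
  have hk0 : 0 < k := Nat.pos_of_ne_zero fun e => hne (by simpa [e] using hk)
  have hx : ∀ j, 1 ≤ j → j ≤ k → (σ ^ j) x ≠ x := by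
    intro j h1 h2 e
    refine hmin (k - j) (by omega) ?_
    rw [← hk, ← e, ← Equiv.Perm.mul_apply, ← pow_add, Nat.sub_add_cancel h2, e]
  intro h
  obtain ⟨j, h1, h2, h3⟩ := PermB_inv (S := fun c => ∃ j, 1 ≤ j ∧ j ≤ k ∧ (σ ^ j) x = c)
    (fun c hc => by
      obtain ⟨j, h1, h2, rfl⟩ := hc
      rcases h2.lt_or_eq with h2' | rfl
      · refine ⟨j + 1, by omega, h2', ?_⟩
        rw [Equiv.Perm.mul_apply, Equiv.swap_apply_of_ne_of_ne (hx j h1 h2) (hmin j h2'),
          pow_succ', Equiv.Perm.mul_apply]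
      · refine ⟨1, le_rfl, h1, ?_⟩
        rw [hk, Equiv.Perm.mul_apply, Equiv.swap_apply_right, pow_one])
    ⟨k, hk0, le_rfl, hk⟩ h
  exact hx j h1 h2 h3

/-- A transposition between two orbits merges them. -/
theorem PermB_merge {σ : Equiv.Perm ι} {x y : ι} (hxy : ¬ σ.SameCycle x y) :
    (σ * Equiv.swap x y).SameCycle x y := by
  by_contra hn
  have h1 : (σ * Equiv.swap x y).SameCycle x (σ y) := by
    have h := (Equiv.Perm.SameCycle.refl (σ * Equiv.swap x y) x).apply_right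
    rwa [Equiv.Perm.mul_apply, Equiv.swap_apply_left] at h
  have h2 := PermB_inv (σ := σ)
    (S := fun c => (σ * Equiv.swap x y).SameCycle x c ∧ σ.SameCycle y c)
    (fun c hc => by
      refine ⟨?_, hc.2.apply_right⟩
      have h := hc.1.apply_right
      have e1 : c ≠ x := fun e => hxy (e ▸ hc.2).symm
      have e2 : c ≠ y := fun e => hn (e ▸ hc.1)
      rwa [Equiv.Perm.mul_apply, Equiv.swap_apply_of_ne_of_ne e1 e2] at h)
    ⟨h1, (Equiv.Perm.SameCycle.refl σ y).apply_right⟩ (Equiv.Perm.SameCycle.refl σ y).apply_left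
  exact hn h2.1

theorem PermB_card {σ : Equiv.Perm ι} {T : Finset ι} (hT : PermB_Ind σ T) (x : ι) :
    ∃ T' ⊆ T, (∀ a ∈ T', ¬ σ.SameCycle a x) ∧ T.card ≤ T'.card + 1 := by
  classical
  refine ⟨T.filter fun a => ¬ σ.SameCycle a x, Finset.filter_subset _ _,
    fun a ha => (Finset.mem_filter.1 ha).2, ?_⟩
  have h1 := Finset.card_filter_add_card_filter_not (s := T) fun a => σ.SameCycle a x
  have h2 : (T.filter fun a => σ.SameCycle a x).card ≤ 1 := Finset.card_le_one.2 fun a ha b hb =>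
    hT a (Finset.mem_filter.1 ha).1 b (Finset.mem_filter.1 hb).1
      ((Finset.mem_filter.1 ha).2.trans (Finset.mem_filter.1 hb).2.symm)
  omega

theorem PermB_down {σ : Equiv.Perm ι} {x y : ι} {T : Finset ι}
    (hT : PermB_Ind (σ * Equiv.swap x y) T) : ∃ T', PermB_Ind σ T' ∧ T.card ≤ T'.card + 1 := by
  obtain ⟨T', h1, h2, h3⟩ := PermB_card hT x
  refine ⟨T', fun a ha b hb h => ?_, h3⟩
  rcases PermB_join' x y h with h | h | h
  · exact hT a (h1 ha) b (h1 hb) h
  · exact absurd h.1 (h2 a ha)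
  · exact absurd h.2.symm (h2 b hb)

theorem PermB_up {σ : Equiv.Perm ι} {x y : ι} (hne : x ≠ y) (hxy : σ.SameCycle x y) {T : Finset ι}
    (hT : PermB_Ind σ T) :
    ∃ T', PermB_Ind (σ * Equiv.swap x y) T' ∧ T.card + 1 ≤ T'.card := by
  obtain ⟨T', h1, h2, h3⟩ := PermB_card hT x
  have hs := PermB_split hne hxy
  have hy : y ∉ T' := fun h => h2 y h hxy.symm
  have hx : x ∉ insert y T' := fun h => (Finset.mem_insert.1 h).elim hne fun h => h2 x h .rfl
  refine ⟨insert x (insert y T'), fun a ha b hb h => ?_, ?_⟩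
  · have h' := PermB_refine hxy h
    simp only [Finset.mem_insert] at ha hb
    rcases ha with rfl | rfl | ha <;> rcases hb with rfl | rfl | hb
    · rfl
    · exact absurd h.symm hs
    · exact absurd h'.symm (h2 b hb)
    · exact absurd h hs
    · rfl
    · exact absurd (h'.symm.trans hxy.symm) (h2 b hb)
    · exact absurd h' (h2 a ha)
    · exact absurd (h'.trans hxy.symm) (h2 a ha)
    · exact hT a (h1 ha) b (h1 hb) h'
  · rw [Finset.card_insert_of_notMem hx, Finset.card_insert_of_notMem hy]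
    omega

theorem PermB_swn {D : ℕ} {P : Equiv.Perm ι} (hP : SwN D P) (τ : Equiv.Perm ι) {T : Finset ι}
    (hT : PermB_Ind (P * τ) T) : ∃ T', PermB_Ind τ T' ∧ T.card ≤ T'.card + D := by
  induction hP generalizing T with
  | one => exact ⟨T, by rwa [one_mul] at hT, le_rfl⟩
  | mul a b _ ih =>
    rw [mul_assoc, Equiv.swap_mul_eq_mul_swap] at hT
    obtain ⟨T₁, h1, h2⟩ := PermB_down hT
    obtain ⟨T', h3, h4⟩ := ih h1
    exact ⟨T', h3, by omega⟩
  | succ _ ih =>
    obtain ⟨T', h3, h4⟩ := ih hT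
    exact ⟨T', h3, by omega⟩

theorem PermB_one [LinearOrder ι] {σ₀ : Equiv.Perm ι}
    (h0 : ∀ a b, a < b → a < σ₀ a ∧ σ₀ a ≤ b) {T : Finset ι} (hT : PermB_Ind σ₀ T) :
    T.card ≤ 1 := by
  have h1 : ∀ b a, a ≤ b → σ₀.SameCycle a b := by
    intro b a
    induction a using WellFoundedGT.induction with
    | ind a ih =>
      intro hab
      rcases hab.lt_or_eq with h | rfl
      · exact (ih _ (h0 a b h).1 (h0 a b h).2).of_apply_left
      · exact .rfl
  refine Finset.card_le_one.2 fun a ha b hb => hT a ha b hb ?_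
  rcases le_total a b with h | h
  · exact h1 b a h
  · exact (h1 a b h).symm

/-- The number of orbits of the product with the cyclic successor. -/
theorem orbit_le [LinearOrder ι] {σ₀ P : Equiv.Perm ι}
    (h0 : ∀ a b, a < b → a < σ₀ a ∧ σ₀ a ≤ b) {D : ℕ} (hP : SwN D P) {T : Finset ι}
    (hT : ∀ a ∈ T, ∀ b ∈ T, (P * σ₀).SameCycle a b → a = b) : T.card ≤ D + 1 := by
  obtain ⟨T', h1, h2⟩ := PermB_swn hP σ₀ hT
  have h3 := PermB_one h0 h1
  omega

/-- In the case of equality the orbits do not cross. -/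
theorem orbit_nc [LinearOrder ι] {σ₀ P : Equiv.Perm ι}
    (h0 : ∀ a b, a < b → a < σ₀ a ∧ σ₀ a ≤ b) {D : ℕ} (hP : SwN D P) {T : Finset ι}
    (hT : ∀ a ∈ T, ∀ b ∈ T, (P * σ₀).SameCycle a b → a = b) (hc : D + 1 ≤ T.card)
    {x₁ x₂ x₃ x₄ : ι} (h1 : x₁ < x₂) (h2 : x₂ < x₃) (h3 : x₃ < x₄)
    (a : (P * σ₀).SameCycle x₁ x₃) (b : (P * σ₀).SameCycle x₂ x₄) :
    (P * σ₀).SameCycle x₁ x₂ := by
  by_contra hn
  obtain ⟨T₁, k1, c1⟩ := PermB_up (h1.trans h2).ne a hT
  have b' : (P * σ₀ * Equiv.swap x₁ x₃).SameCycle x₂ x₄ := by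
    rcases PermB_join' x₁ x₃ b with h | h | h
    · exact h
    · exact absurd (PermB_refine a h.1).symm hn
    · exact absurd (a.trans (PermB_refine a h.1).symm) hn
  obtain ⟨T₂, k2, c2⟩ := PermB_up (h2.trans h3).ne b' k1
  rw [mul_assoc, mul_assoc, ← mul_assoc σ₀] at k2
  obtain ⟨T₃, k3, c3⟩ := PermB_swn hP _ k2
  have hm : ¬ (σ₀ * Equiv.swap x₁ x₃).SameCycle x₂ x₄ := by
    intro h
    have h4 := PermB_inv (S := fun c => x₁ < c ∧ c ≤ x₃) (fun c hc => by
      rw [Equiv.Perm.mul_apply]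
      rcases hc.2.lt_or_eq with h' | rfl
      · rw [Equiv.swap_apply_of_ne_of_ne hc.1.ne' h'.ne]
        exact ⟨hc.1.trans (h0 c x₃ h').1, (h0 c x₃ h').2⟩
      · rw [Equiv.swap_apply_right]
        exact h0 x₁ c hc.1) ⟨h1, h2.le⟩ h
    exact absurd h4.2 (not_le.2 h3)
  have k4 : PermB_Ind (σ₀ * Equiv.swap x₁ x₃) T₃ := by
    intro u hu v hv h
    refine k3 u hu v hv (PermB_refine (PermB_merge hm) ?_)
    rwa [mul_assoc, Equiv.swap_mul_self, mul_one]
  obtain ⟨T₄, k5, c4⟩ := PermB_down k4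
  have c5 := PermB_one h0 k5
  omega

end Pool.Agent.P.MP_c09211_an.Sh.GL
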