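import Pool.Agent.P.MP_c09211_an.GL.NCLa
import Pool.Agent.P.MP_c09211_an.GL.PermA
import Pool.Agent.P.MP_c09211_an.GL.PermB

/-!
The labels of the arcs do not cross (paper: R6).
-/

set_option autoImplicit false

namespace Pool.Agent.P.MP_c09211_an.Sh.GL

open Metric Set Finset PowerSeries Complex Filter Topology Real MeasureTheory
open scoped ComplexConjugate

/-- The label of the arc number `k` on the branch `j`. -/
noncomputable def lab {N : ℕ} (Φ : Finset (Fin N)) (W : ℕ → Equiv.Perm (Fin N)) (j : Fin N)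
    (k : ℕ) : Option (Fin N) := if (W k)⁻¹ j ∈ Φ then some ((W k)⁻¹ j) else none

/-- The cyclic successor in the lexicographic order. -/
def NCLb_s (n V : ℕ) : Equiv.Perm (Fin (n + 1) ×ₗ Fin (V + 1)) :=
  ofLex.trans (((Equiv.prodCongrLeft fun k : Fin (V + 1) =>
    if k = Fin.last V then finRotate (n + 1) else 1).trans
      (Equiv.prodCongr (Equiv.refl _) (finRotate (V + 1)))).trans toLex)

/-- The exchanges at the vertices. -/
def NCLb_P {n : ℕ} (V : ℕ) (W : ℕ → Equiv.Perm (Fin (n + 1))) :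
    Equiv.Perm (Fin (n + 1) ×ₗ Fin (V + 1)) :=
  ofLex.trans ((Equiv.prodCongrLeft fun k : Fin (V + 1) => W k * (W (k - 1))⁻¹).trans toLex)

theorem NCLb_s_last (n V : ℕ) (j : Fin (n + 1)) :
    NCLb_s n V (toLex (j, Fin.last V)) = toLex (finRotate (n + 1) j, 0) := by
  simp [NCLb_s, Equiv.prodCongrLeft]

theorem NCLb_s_lt (n V : ℕ) (j : Fin (n + 1)) {k : ℕ} (hk : k < V) :
    NCLb_s n V (toLex (j, ⟨k, by omega⟩)) = toLex (j, ⟨k + 1, by omega⟩) := by
  have h : (⟨k, by omega⟩ : Fin (V + 1)) ≠ Fin.last V := by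
    intro h
    have := congrArg Fin.val h
    simp at this
    omega
  have h2 : finRotate (V + 1) ⟨k, by omega⟩ = ⟨k + 1, by omega⟩ :=
    Fin.ext (coe_finRotate_of_ne_last h)
  simp only [NCLb_s, Equiv.trans_apply, ofLex_toLex, Equiv.prodCongrLeft_apply, if_neg h,
    Equiv.prodCongr_apply, Prod.map_apply, h2]
  rfl

theorem NCLb_P_apply {n : ℕ} (V : ℕ) (W : ℕ → Equiv.Perm (Fin (n + 1))) (j : Fin (n + 1))
    (k : Fin (V + 1)) : NCLb_P V W (toLex (j, k)) = toLex (W k ((W (k - 1))⁻¹ j), k) := rfl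

theorem NCLb_succ (n V : ℕ) (a b : Fin (n + 1) ×ₗ Fin (V + 1)) (h : a < b) :
    a < NCLb_s n V a ∧ NCLb_s n V a ≤ b := by
  obtain ⟨⟨j, k, hk⟩, rfl⟩ := toLex.surjective a
  obtain ⟨⟨j', k'⟩, rfl⟩ := toLex.surjective b
  rw [Prod.Lex.toLex_lt_toLex] at h
  rcases Nat.lt_or_ge k V with hV | hV
  · rw [NCLb_s_lt n V j hV, Prod.Lex.toLex_lt_toLex, Prod.Lex.toLex_le_toLex]
    refine ⟨Or.inr ⟨rfl, by simp [Fin.lt_def]⟩, ?_⟩
    rcases h with h | ⟨h, h'⟩
    · exact Or.inl h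
    · exact Or.inr ⟨h, by simpa [Fin.le_def, Fin.lt_def] using h'⟩
  · obtain rfl : k = V := by omega
    have hj : j < j' := by
      rcases h with h | ⟨-, h'⟩
      · exact h
      · exact absurd h' (not_lt.mpr (Fin.le_last k'))
    have hl : j ≠ Fin.last n := fun e => absurd hj (not_lt.mpr (e ▸ Fin.le_last j'))
    have hv := coe_finRotate_of_ne_last hl
    have e : (⟨k, hk⟩ : Fin (k + 1)) = Fin.last k := rfl
    rw [e, NCLb_s_last, Prod.Lex.toLex_lt_toLex, Prod.Lex.toLex_le_toLex]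
    refine ⟨Or.inl ((lt_finRotate_iff_ne_last j).mpr hl), ?_⟩
    have hle : finRotate (n + 1) j ≤ j' := by
      rw [Fin.le_def, hv]
      exact hj
    rcases hle.lt_or_eq with h1 | h1
    · exact Or.inl h1
    · exact Or.inr ⟨h1, Fin.zero_le _⟩

section Orbits

variable {n V : ℕ} {W : ℕ → Equiv.Perm (Fin (n + 1))}

theorem NCLb_step (i : Fin (n + 1)) {k : ℕ} (hk : k < V) :
    (NCLb_P V W * NCLb_s n V) (toLex (W k i, ⟨k, by omega⟩)) =
      toLex (W (k + 1) i, ⟨k + 1, by omega⟩) := by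
  rw [Equiv.Perm.mul_apply, NCLb_s_lt n V _ hk, NCLb_P_apply]
  simp

theorem NCLb_wrap (i : Fin (n + 1)) :
    (NCLb_P V W * NCLb_s n V) (toLex (W V i, Fin.last V)) =
      toLex ((finRotate (n + 1) * W V) i, 0) := by
  rw [Equiv.Perm.mul_apply, NCLb_s_last, NCLb_P_apply]
  simp

theorem NCLb_run (h0 : W 0 = 1) (i : Fin (n + 1)) (k : ℕ) (hk : k < V + 1) :
    (NCLb_P V W * NCLb_s n V).SameCycle (toLex (i, 0)) (toLex (W k i, ⟨k, hk⟩)) := by
  induction k with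
  | zero =>
    rw [h0]
    exact Equiv.Perm.SameCycle.rfl
  | succ k ih =>
    rw [← NCLb_step i (by omega : k < V), Equiv.Perm.sameCycle_apply_right]
    exact ih _

theorem NCLb_up (h0 : W 0 = 1) {i i' : Fin (n + 1)}
    (h : (finRotate (n + 1) * W V).SameCycle i i') :
    (NCLb_P V W * NCLb_s n V).SameCycle (toLex (i, 0)) (toLex (i', 0)) := by
  obtain ⟨m, rfl⟩ := h.exists_nat_pow_eq
  clear h
  induction m with
  | zero => exact Equiv.Perm.SameCycle.rfl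
  | succ m ih =>
    rw [pow_succ', Equiv.Perm.mul_apply (finRotate (n + 1) * W V), ← NCLb_wrap,
      Equiv.Perm.sameCycle_apply_right]
    exact ih.trans (NCLb_run h0 _ V _)

theorem NCLb_up' (h0 : W 0 = 1) {j j' : Fin (n + 1)} {k k' : Fin (V + 1)}
    (h : (finRotate (n + 1) * W V).SameCycle ((W k)⁻¹ j) ((W k')⁻¹ j')) :
    (NCLb_P V W * NCLb_s n V).SameCycle (toLex (j, k)) (toLex (j', k')) := by
  have a := NCLb_run (V := V) h0 ((W k)⁻¹ j) k k.2
  have b := NCLb_run (V := V) h0 ((W k')⁻¹ j') k' k'.2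
  simp only [Equiv.Perm.coe_inv, Equiv.apply_symm_apply] at a b
  exact a.symm.trans ((NCLb_up h0 h).trans b)

theorem NCLb_down (h0 : W 0 = 1) {x y : Fin (n + 1) ×ₗ Fin (V + 1)}
    (h : (NCLb_P V W * NCLb_s n V).SameCycle x y) :
    (finRotate (n + 1) * W V).SameCycle ((W (ofLex x).2)⁻¹ (ofLex x).1)
      ((W (ofLex y).2)⁻¹ (ofLex y).1) := by
  obtain ⟨m, rfl⟩ := h.exists_nat_pow_eq
  clear h
  induction m with
  | zero => exact Equiv.Perm.SameCycle.rfl
  | succ m ih =>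
    refine ih.trans ?_
    rw [pow_succ', Equiv.Perm.mul_apply (NCLb_P V W * NCLb_s n V)]
    generalize ((NCLb_P V W * NCLb_s n V) ^ m) x = z
    obtain ⟨⟨j, k, hk⟩, rfl⟩ := toLex.surjective z
    obtain ⟨i, rfl⟩ := (W k).surjective j
    rcases Nat.lt_or_ge k V with hV | hV
    · rw [NCLb_step i hV]
      simp only [ofLex_toLex, Equiv.Perm.coe_inv, Equiv.symm_apply_apply]
      exact Equiv.Perm.SameCycle.rfl
    · obtain rfl : k = V := by omega
      have e : (⟨k, hk⟩ : Fin (k + 1)) = Fin.last k := rfl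
      rw [e, NCLb_wrap i]
      simp only [ofLex_toLex, Fin.val_last, Fin.val_zero, h0, inv_one, Equiv.Perm.one_apply,
        Equiv.Perm.sameCycle_apply_right]
      simp only [Equiv.Perm.coe_inv, Equiv.symm_apply_apply]
      exact Equiv.Perm.SameCycle.rfl

theorem NCLb_rep (h0 : W 0 = 1) {S : Finset (Fin (n + 1))}
    (hS : ∀ a ∈ S, ∀ b ∈ S, (finRotate (n + 1) * W V).SameCycle a b → a = b) :
    ∃ T : Finset (Fin (n + 1) ×ₗ Fin (V + 1)), T.card = S.card ∧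
      ∀ a ∈ T, ∀ b ∈ T, (NCLb_P V W * NCLb_s n V).SameCycle a b → a = b := by
  refine ⟨S.map ⟨fun i => toLex (i, 0), fun a b h => congrArg (fun x => (ofLex x).1) h⟩,
    Finset.card_map _, ?_⟩
  intro a ha b hb h
  obtain ⟨i, hi, rfl⟩ := Finset.mem_map.mp ha
  obtain ⟨i', hi', rfl⟩ := Finset.mem_map.mp hb
  have := NCLb_down h0 h
  simp only [Function.Embedding.coeFn_mk, ofLex_toLex, Fin.val_zero, h0, inv_one,
    Equiv.Perm.one_apply] at this
  rw [hS i hi i' hi' this]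

end Orbits

open Classical in
/-- The exchanges are a product of few transpositions. -/
theorem NCLb_swn {n : ℕ} {F : Fin (n + 1) → ℝ → ℝ} {α : ℝ}
    (h1 : Function.Injective fun i => F i α) {u : Equiv.Perm (Fin (n + 1))} {V : ℕ} {φ : ℕ → ℝ}
    {W : ℕ → Equiv.Perm (Fin (n + 1))} (hN : NF F α u V φ W) :
    ∃ D, SwN D (NCLb_P V W) ∧
      D ≤ ∑ k ∈ range V, (univ.filter fun q : Fin (n + 1) × Fin (n + 1) =>
      F q.1 ((φ k + φ (k + 1)) / 2) < F q.2 ((φ k + φ (k + 1)) / 2) ∧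
      F (W (k + 1) ((W k)⁻¹ q.2)) ((φ k + φ (k + 1)) / 2) <
        F (W (k + 1) ((W k)⁻¹ q.1)) ((φ k + φ (k + 1)) / 2)).card := by
  let m : ℕ → ℝ := fun k => if k = 0 then α else (φ (k - 1) + φ k) / 2
  have hm : ∀ k ≤ V, Function.Injective fun i => F i (m k) := by
    intro k hk
    rcases k with _ | k
    · exact h1
    · have := hN.mono k (by omega)
      refine hN.sep k (by omega) _ ?_
      simp only [m, Nat.add_sub_cancel, Nat.succ_ne_zero, if_false, Set.mem_Ioo]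
      constructor <;> linarith
  have hs := swn_inv (ι := Fin (n + 1) ×ₗ Fin (V + 1)) (κ := fun x => ((ofLex x).2 : ℕ))
    (A := fun x => F (ofLex x).1 (m (ofLex x).2)) (σ := NCLb_P V W) (by
      intro a b hk hA
      obtain ⟨⟨j, k⟩, rfl⟩ := toLex.surjective a
      obtain ⟨⟨j', k'⟩, rfl⟩ := toLex.surjective b
      obtain rfl : k = k' := Fin.ext hk
      obtain rfl : j = j' := hm k (Nat.lt_succ_iff.mp k.2) hA
      rfl) (fun a => rfl)
  refine ⟨_, hs, ?_⟩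
  rw [← Finset.card_sigma]
  have key : ∀ {j j' : Fin (n + 1)} {k : Fin (V + 1)}, F j (m k) < F j' (m k) →
      F (W k ((W (k - 1))⁻¹ j')) (m k) < F (W k ((W (k - 1))⁻¹ j)) (m k) → (k : ℕ) ≠ 0 := by
    intro j j' k a b hk
    rw [hk] at a b
    simp only [Nat.zero_sub, Equiv.Perm.coe_inv, Equiv.apply_symm_apply] at b
    exact lt_asymm a b
  refine Finset.card_le_card_of_injOn
    (fun q => ⟨((ofLex q.1).2 : ℕ) - 1, ((ofLex q.1).1, (ofLex q.2).1)⟩) ?_ ?_
  · rintro ⟨a, b⟩ hq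
    obtain ⟨⟨j, k⟩, rfl⟩ := toLex.surjective a
    obtain ⟨⟨j', k'⟩, rfl⟩ := toLex.surjective b
    obtain ⟨hk, ha, hb⟩ := (Finset.mem_filter.mp (Finset.mem_coe.mp hq)).2
    obtain rfl : k = k' := Fin.ext hk
    simp only [NCLb_P_apply, ofLex_toLex] at ha hb
    have h0 := key ha hb
    obtain ⟨k, hk2⟩ := k
    obtain ⟨k, rfl⟩ := Nat.exists_eq_succ_of_ne_zero h0
    simp only [m, Nat.succ_eq_add_one, Nat.add_sub_cancel, Nat.succ_ne_zero, if_false] at ha hb
    simp only [Finset.mem_coe, Finset.mem_sigma, Finset.mem_range, Finset.mem_filter,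
      Finset.mem_univ, true_and, ofLex_toLex, Nat.succ_eq_add_one, Nat.add_sub_cancel]
    exact ⟨by omega, ha, hb⟩
  · rintro ⟨a, b⟩ hq ⟨c, d⟩ hr h
    obtain ⟨⟨j, k⟩, rfl⟩ := toLex.surjective a
    obtain ⟨⟨j', k'⟩, rfl⟩ := toLex.surjective b
    obtain ⟨⟨i, l⟩, rfl⟩ := toLex.surjective c
    obtain ⟨⟨i', l'⟩, rfl⟩ := toLex.surjective d
    obtain ⟨hk, ha, hb⟩ := (Finset.mem_filter.mp (Finset.mem_coe.mp hq)).2
    obtain ⟨hl, hc, hd⟩ := (Finset.mem_filter.mp (Finset.mem_coe.mp hr)).2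
    obtain rfl : k = k' := Fin.ext hk
    obtain rfl : l = l' := Fin.ext hl
    simp only [NCLb_P_apply, ofLex_toLex] at ha hb hc hd
    have h2 := key ha hb
    have h3 := key hc hd
    simp only [ofLex_toLex, Sigma.mk.injEq, heq_eq_eq, Prod.mk.injEq] at h
    obtain ⟨e1, rfl, rfl⟩ := h
    obtain rfl : k = l := Fin.ext (by omega)
    rfl

/-- No pattern `a b a b` in the lexicographic order of the arcs. -/
theorem lab_nc {n : ℕ} {F : Fin (n + 1) → ℝ → ℝ} (hF : ∀ i, Continuous (F i))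
    (hs : ∀ i φ, F i (φ + π) = -F (finRotate (n + 1) i) φ) (H : Simple F) (hC : Cnt F) {α : ℝ}
    (h1 : Function.Injective fun i => F i α) {u : Equiv.Perm (Fin (n + 1))} {V : ℕ} {φ : ℕ → ℝ}
    {W : ℕ → Equiv.Perm (Fin (n + 1))} (hN : NF F α u V φ W) {Φ : Finset (Fin (n + 1))}
    (hΦ : ∀ i ∈ Φ, finRotate (n + 1) (u i) = i) (hc : Φ.card + 1 = n)
    {j₁ j₂ j₃ j₄ : Fin (n + 1)} {k₁ k₂ k₃ k₄ : ℕ} (b1 : k₁ ≤ V) (b2 : k₂ ≤ V) (b3 : k₃ ≤ V)
    (b4 : k₄ ≤ V) (o1 : j₁ < j₂ ∨ j₁ = j₂ ∧ k₁ ≤ k₂) (o2 : j₂ < j₃ ∨ j₂ = j₃ ∧ k₂ ≤ k₃)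
    (o3 : j₃ < j₄ ∨ j₃ = j₄ ∧ k₃ ≤ k₄) (e1 : lab Φ W j₁ k₁ = lab Φ W j₃ k₃)
    (e2 : lab Φ W j₂ k₂ = lab Φ W j₄ k₄) : lab Φ W j₁ k₁ = lab Φ W j₂ k₂ := by
  classical
  obtain ⟨D, hD, hle⟩ := NCLb_swn h1 hN
  have hDn : D + 1 ≤ n := (Nat.succ_le_succ hle).trans (inv_le hF hs H hC h1 hN hΦ hc)
  have hfix : ∀ i ∈ Φ, (finRotate (n + 1) * W V) i = i := by
    intro i hi
    rw [hN.wV]
    exact hΦ i hi
  have hins : ∀ a, ∀ x ∈ insert a Φ, ∀ y ∈ insert a Φ,
      (finRotate (n + 1) * W V).SameCycle x y → x = y := by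
    intro a x hx y hy h
    rcases Finset.mem_insert.mp hx with rfl | hx
    · rcases Finset.mem_insert.mp hy with rfl | hy
      · rfl
      · exact h.eq_of_right (hfix y hy)
    · exact h.eq_of_left (hfix x hx)
  have hout : ∀ a ∉ Φ, ∀ b ∉ Φ, (finRotate (n + 1) * W V).SameCycle a b := by
    intro a ha b hb
    by_contra hab
    have hne : a ≠ b := fun e => hab (e ▸ Equiv.Perm.SameCycle.rfl)
    obtain ⟨T, hT, hT'⟩ := NCLb_rep (V := V) hN.w0 (S := insert a (insert b Φ)) (by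
      intro x hx y hy h
      rcases Finset.mem_insert.mp hx with rfl | hx'
      · rcases Finset.mem_insert.mp hy with rfl | hy'
        · rfl
        · rcases Finset.mem_insert.mp hy' with rfl | hy''
          · exact absurd h hab
          · exact h.eq_of_right (hfix y hy'')
      · rcases Finset.mem_insert.mp hy with rfl | hy'
        · rcases Finset.mem_insert.mp hx' with rfl | hx''
          · exact absurd h.symm hab
          · exact h.eq_of_left (hfix x hx'')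
        · exact hins b x hx' y hy' h)
    have := orbit_le (NCLb_succ n V) hD hT'
    rw [hT, Finset.card_insert_of_notMem (by simp [hne, ha]), Finset.card_insert_of_notMem hb]
      at this
    omega
  have hiff : ∀ (j j' : Fin (n + 1)) (k k' : ℕ), lab Φ W j k = lab Φ W j' k' ↔
      (finRotate (n + 1) * W V).SameCycle ((W k)⁻¹ j) ((W k')⁻¹ j') := by
    intro j j' k k'
    unfold lab
    generalize (W k)⁻¹ j = a
    generalize (W k')⁻¹ j' = b
    by_cases ha : a ∈ Φ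
    · by_cases hb : b ∈ Φ
      · rw [if_pos ha, if_pos hb, Option.some.injEq]
        exact ⟨fun e => e ▸ Equiv.Perm.SameCycle.rfl, fun h => h.eq_of_left (hfix a ha)⟩
      · rw [if_pos ha, if_neg hb]
        exact ⟨fun e => (by cases e), fun h => absurd (h.eq_of_left (hfix a ha) ▸ ha) hb⟩
    · by_cases hb : b ∈ Φ
      · rw [if_neg ha, if_pos hb]
        exact ⟨fun e => (by cases e), fun h => absurd ((h.eq_of_right (hfix b hb)).symm ▸ hb) ha⟩
      · rw [if_neg ha, if_neg hb]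
        exact ⟨fun _ => hout a ha b hb, fun _ => rfl⟩
  obtain ⟨a, ha⟩ : ∃ a, a ∉ Φ := by
    by_contra h
    have : Φ = Finset.univ := Finset.eq_univ_of_forall fun a => by_contra fun ha => h ⟨a, ha⟩
    rw [this, Finset.card_univ, Fintype.card_fin] at hc
    omega
  obtain ⟨T, hT, hT'⟩ := NCLb_rep (V := V) hN.w0 (hins a)
  rw [Finset.card_insert_of_notMem ha] at hT
  have hlt : ∀ {j j' : Fin (n + 1)} {k k' : ℕ} (b : k ≤ V) (b' : k' ≤ V),
      (j < j' ∨ j = j' ∧ k ≤ k') → (j = j' ∧ k = k') ∨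
        toLex (j, (⟨k, by omega⟩ : Fin (V + 1))) < toLex (j', (⟨k', by omega⟩ : Fin (V + 1))) := by
    intro j j' k k' b b' o
    rw [Prod.Lex.toLex_lt_toLex]
    rcases o with o | ⟨o, o'⟩
    · exact Or.inr (Or.inl o)
    · rcases o'.lt_or_eq with o' | o'
      · exact Or.inr (Or.inr ⟨o, o'⟩)
      · exact Or.inl ⟨o, o'⟩
  rcases hlt b1 b2 o1 with ⟨rfl, rfl⟩ | l1
  · rfl
  rcases hlt b2 b3 o2 with ⟨rfl, rfl⟩ | l2
  · exact e1
  rcases hlt b3 b4 o3 with ⟨rfl, rfl⟩ | l3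
  · exact e1.trans e2.symm
  have := orbit_nc (NCLb_succ n V) hD hT' (by omega) l1 l2 l3
    (NCLb_up' hN.w0 ((hiff _ _ _ _).mp e1)) (NCLb_up' hN.w0 ((hiff _ _ _ _).mp e2))
  exact (hiff _ _ _ _).mpr (NCLb_down hN.w0 this)

end Pool.Agent.P.MP_c09211_an.Sh.GL
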