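import Pool.Agent.P.MP_c09211_an.GL.Homot

/-!
The normal form of a realisable permutation (paper: R6, NF).
-/

set_option autoImplicit false

namespace Pool.Agent.P.MP_c09211_an.Sh.GL

open Metric Set Finset PowerSeries Complex Filter Topology Real MeasureTheory
open scoped ComplexConjugate

variable {ι : Type} [Fintype ι] [DecidableEq ι]

omit [Fintype ι] [DecidableEq ι] in
theorem NFx_aux {F : ι → ℝ → ℝ} {l : ℝ} (X : Finset ℝ) : ∀ (r m : ℝ) (u : Equiv.Perm ι), l < r →
    (∀ x ∈ X, l < x ∧ x < r) →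
    (∀ x ∈ Set.Ioo l r, (¬Function.Injective fun i => F i x) → x ∈ X) →
    (∀ x ∈ Set.Icc l m, (¬Function.Injective fun i => F i x) → x ∈ X) → Rl F l m u →
    ∃ (V : ℕ) (φ : ℕ → ℝ) (W : ℕ → Equiv.Perm ι), φ 0 = l ∧ φ (V + 1) = r ∧
      (∀ k ≤ V, φ k < φ (k + 1)) ∧
      (∀ k ≤ V, ∀ x ∈ Set.Ioo (φ k) (φ (k + 1)), Function.Injective fun i => F i x) ∧
      W 0 = 1 ∧ W V = u ∧ ∀ k < V, ∀ i, F (W (k + 1) i) (φ (k + 1)) = F (W k i) (φ (k + 1)) := by
  induction X using Finset.induction_on_max with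
  | empty =>
    intro r m u hlr _ h2 h3 hu
    have hi : ∀ x ∈ Set.Icc l m, Function.Injective fun i => F i x := fun x hx => by
      by_contra h
      simpa using h3 x hx h
    have hu1 : u = 1 := by
      ext a
      exact hi l ⟨le_rfl, hu.le⟩ (hu.group (κ := fun i => F i l)
        (fun x hx a b hab => by rw [hi x hx hab]) a)
    refine ⟨0, fun k => if k = 0 then l else r, fun _ => 1, by simp, by simp, ?_, ?_, rfl,
      hu1.symm, by simp⟩
    · intro k hk
      obtain rfl : k = 0 := by omega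
      simpa using hlr
    · intro k hk x hx
      obtain rfl : k = 0 := by omega
      by_contra h
      simpa using h2 x (by simpa using hx) h
  | insert v Y hv ih =>
    intro r m u hlr h1 h2 h3 hu
    have hv1 := h1 v (Finset.mem_insert_self _ _)
    have h4 : ∀ x ∈ Set.Icc l (max m v), (¬Function.Injective fun i => F i x) →
        x ∈ insert v Y := by
      intro x hx h
      by_cases hm : x ≤ m
      · exact h3 x ⟨hx.1, hm⟩ h
      · have hm' : m < x := not_le.1 hm
        have hxv : x ≤ v := by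
          rcases le_max_iff.1 hx.2 with h' | h'
          · exact absurd h' hm
          · exact h'
        exact h2 x ⟨hu.le.trans_lt hm', hxv.trans_lt hv1.2⟩ h
    obtain ⟨c, hc1, hc2, hc3⟩ : ∃ c, l < c ∧ c < v ∧ ∀ y ∈ Y, y < c := by
      have e1 : ∀ᶠ c in 𝓝 v, ∀ y ∈ Y, y < c :=
        (Filter.eventually_all_finset Y).2 fun y hy => eventually_gt_nhds (hv y hy)
      have e2 : ∀ᶠ c in 𝓝[<] v, l < c ∧ c < v ∧ ∀ y ∈ Y, y < c := by
        filter_upwards [mem_nhdsWithin_of_mem_nhds e1,
          mem_nhdsWithin_of_mem_nhds (eventually_gt_nhds hv1.1), self_mem_nhdsWithin]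
          with c a1 a2 a3 using ⟨a2, a3, a1⟩
      exact e2.exists
    obtain ⟨u₁, u₂, hu₁, hu₂, rfl⟩ := (hu.mono (le_max_left m v)).split hc1.le
      (hc2.le.trans (le_max_right m v))
    have hk : ∀ a, F (u₂ a) v = F a v := by
      refine hu₂.group (κ := fun i => F i v) fun x hx a b hab => ?_
      by_cases h : Function.Injective fun i => F i x
      · rw [h hab]
      · rcases Finset.mem_insert.1 (h4 x ⟨hc1.le.trans hx.1, hx.2⟩ h) with rfl | hy
        · exact hab
        · exact absurd hx.1 (not_le.2 (hc3 x hy))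
    obtain ⟨V, φ, W, a1, a2, a3, a4, a5, a6, a7⟩ := ih v c u₁ hv1.1
      (fun x hx => ⟨(h1 x (Finset.mem_insert_of_mem hx)).1, hv x hx⟩)
      (fun x hx h => (Finset.mem_insert.1 (h2 x ⟨hx.1, hx.2.trans hv1.2⟩ h)).resolve_left hx.2.ne)
      (fun x hx h => (Finset.mem_insert.1 (h4 x ⟨hx.1, hx.2.trans
        (hc2.le.trans (le_max_right m v))⟩ h)).resolve_left (hx.2.trans_lt hc2).ne) hu₁
    refine ⟨V + 1, fun k => if k ≤ V + 1 then φ k else r, fun k => if k ≤ V then W k else u₂ * u₁,
      by simpa using a1, by simp, ?_, ?_, by simpa using a5, by simp, ?_⟩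
    · intro k hk
      by_cases h : k ≤ V
      · simp only [if_pos hk, if_pos (Nat.succ_le_succ h)]
        exact a3 k h
      · obtain rfl : k = V + 1 := by omega
        simpa [a2] using hv1.2
    · intro k hk x hx
      by_cases h : k ≤ V
      · simp only [if_pos hk, if_pos (Nat.succ_le_succ h)] at hx
        exact a4 k h x hx
      · obtain rfl : k = V + 1 := by omega
        have hx' : v < x ∧ x < r := by simpa [a2] using hx
        by_contra hn
        rcases Finset.mem_insert.1 (h2 x ⟨hv1.1.trans hx'.1, hx'.2⟩ hn) with rfl | hy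
        · exact lt_irrefl _ hx'.1
        · exact lt_asymm hx'.1 (hv x hy)
    · intro k hk' i
      by_cases h : k < V
      · simp only [if_pos (Nat.succ_le_of_lt h), if_pos h.le, if_pos (Nat.succ_le_of_lt hk')]
        exact a7 k h i
      · obtain rfl : k = V := by omega
        simpa [a2, a6] using hk (u₁ i)

/-- The normal form (paper: R6, NF). -/
theorem exists_nf {F : ι → ℝ → ℝ} (hF : ∀ i, Continuous (F i)) (H : Simple F) {α : ℝ}
    (h1 : Function.Injective fun i => F i α) (h2 : Function.Injective fun i => F i (α + π))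
    {u : Equiv.Perm ι} (hu : Rl F α (α + π) u) : ∃ V φ W, NF F α u V φ W := by
  obtain ⟨V, φ, W, a1, a2, a3, a4, a5, a6, a7⟩ :=
    NFx_aux (F := F) (l := α) (H.finite hF α (α + π)).toFinset (α + π) (α + π) u
      (lt_add_of_pos_right α Real.pi_pos) (fun x hx => by
        obtain ⟨⟨b1, b2⟩, b3⟩ := (Set.Finite.mem_toFinset _).1 hx
        refine ⟨lt_of_le_of_ne b1 ?_, lt_of_le_of_ne b2 ?_⟩
        · rintro rfl
          exact b3 h1
        · rintro rfl
          exact b3 h2)
      (fun x hx h => (Set.Finite.mem_toFinset _).2 ⟨Set.Ioo_subset_Icc_self hx, h⟩)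
      (fun x hx h => (Set.Finite.mem_toFinset _).2 ⟨hx, h⟩) hu
  exact ⟨V, φ, W, a1, a2, a3, a4, a5, a6, a7⟩

end Pool.Agent.P.MP_c09211_an.Sh.GL
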