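import Pool.Agent.P.MP_c09211_an.GL.Basic

/-!
The inequality of Wirtinger on an arc (paper: OM1).
-/

set_option autoImplicit false

namespace Pool.Agent.P.MP_c09211_an.Sh.GL

open Metric Set Finset PowerSeries Complex Filter Topology Real MeasureTheory
open scoped ComplexConjugate

variable {c : ℝ → ℂ} {ρ : ℝ → ℝ}

/-- The length of the tangent at `x` up to the tangent at `β`. -/
noncomputable def sb (c : ℝ → ℂ) (β x : ℝ) : ℝ := Sw (c x - c β) β / Real.sin (β - x)

/-- The region swept by these segments. -/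
def Tr (c : ℝ → ℂ) (a b β : ℝ) : Set ℂ :=
  {w | ∃ x ∈ Set.Ioo a b, ∃ s : ℝ, (0 < s ∧ s < sb c β x ∨ sb c β x < s ∧ s < 0) ∧
    w = c x + s * eI x}

theorem omA_m (hc : Crv c ρ) (β x : ℝ) :
    HasDerivAt (fun x => Sw (c x - c β) β) (-(ρ x * Real.sin (β - x))) x := by
  refine (Complex.imCLM.hasFDerivAt.comp_hasDerivAt x
    (((hc.der x).sub_const (c β)).mul_const (eI (-β)))).congr_deriv ?_
  rw [mul_right_comm, ← eI_add, Complex.imCLM_apply, Complex.im_mul_ofReal, eI_im,
    show x + -β = -(β - x) by ring, Real.sin_neg]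
  ring

theorem omA_sb (hc : Crv c ρ) {β x : ℝ} (h : Real.sin (β - x) ≠ 0) :
    HasDerivAt (sb c β) (-ρ x + sb c β x * (Real.cos (β - x) / Real.sin (β - x))) x := by
  refine ((omA_m hc β x).fun_div ((hasDerivAt_id' x).const_sub β).sin h).congr_deriv ?_
  rw [sb]
  field_simp
  ring

theorem omA_cot {β x : ℝ} (h : Real.sin (β - x) ≠ 0) :
    HasDerivAt (fun x => Real.cos (β - x) / Real.sin (β - x))
      (1 + (Real.cos (β - x) / Real.sin (β - x)) ^ 2) x := by
  refine (((hasDerivAt_id' x).const_sub β).cos.fun_div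
    ((hasDerivAt_id' x).const_sub β).sin h).congr_deriv ?_
  field_simp
  ring

theorem om_wirt (hc : Crv c ρ) {a b β : ℝ} (h1 : a ≤ b) (h2 : b < β) (h3 : β < a + π)
    {v v' : ℝ → ℝ} (hv : ∀ x, HasDerivAt v (v' x) x) (hv' : Continuous v') (va : v a = 0)
    (vb : v b = 0) :
    ∫ x in a..b, (2 * v x * ρ x - v' x ^ 2 + v x ^ 2) ≤ ∫ x in a..b, sb c β x ^ 2 := by
  have hu : ∀ x ∈ Set.Icc a b, Real.sin (β - x) ≠ 0 := fun x hx =>
    (Real.sin_pos_of_pos_of_lt_pi (by linarith [hx.2]) (by linarith [hx.1])).ne'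
  have cv : Continuous v := continuous_iff_continuousAt.2 fun x => (hv x).continuousAt
  have cρ := hc.cont
  have cs : ContinuousOn (sb c β) (Set.Icc a b) := fun x hx =>
    (omA_sb hc (hu x hx)).continuousAt.continuousWithinAt
  have ck : ContinuousOn (fun x => Real.cos (β - x) / Real.sin (β - x)) (Set.Icc a b) :=
    ContinuousOn.div (by fun_prop) (by fun_prop) hu
  have hG : ∀ x ∈ Set.uIcc a b, HasDerivAt
      (fun x => 2 * v x * sb c β x - v x ^ 2 * (Real.cos (β - x) / Real.sin (β - x)))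
      (sb c β x ^ 2 - (sb c β x - (v' x + v x * (Real.cos (β - x) / Real.sin (β - x)))) ^ 2 -
        (2 * v x * ρ x - v' x ^ 2 + v x ^ 2)) x := fun x hx => by
    rw [Set.uIcc_of_le h1] at hx
    refine ((((hv x).const_mul 2).fun_mul (omA_sb hc (hu x hx))).fun_sub
      (((hv x).fun_pow 2).fun_mul (omA_cot (hu x hx)))).congr_deriv ?_
    norm_num
    ring
  have iF : IntervalIntegrable (fun x => 2 * v x * ρ x - v' x ^ 2 + v x ^ 2) volume a b :=
    Continuous.intervalIntegrable (by fun_prop) _ _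
  have iS : IntervalIntegrable (fun x => sb c β x ^ 2) volume a b :=
    (cs.pow 2).intervalIntegrable_of_Icc h1
  have iY : IntervalIntegrable
      (fun x => (sb c β x - (v' x + v x * (Real.cos (β - x) / Real.sin (β - x)))) ^ 2) volume a b :=
    ((cs.sub (hv'.continuousOn.add (cv.continuousOn.mul ck))).pow 2).intervalIntegrable_of_Icc h1
  have h4 := intervalIntegral.integral_eq_sub_of_hasDerivAt hG ((iS.sub iY).sub iF)
  rw [intervalIntegral.integral_sub (iS.sub iY) iF, intervalIntegral.integral_sub iS iY, va, vb]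
    at h4
  have h5 := intervalIntegral.integral_nonneg (μ := volume) h1 fun x _ =>
    sq_nonneg (sb c β x - (v' x + v x * (Real.cos (β - x) / Real.sin (β - x))))
  linarith

theorem sb_le (hc : Crv c ρ) {x β e R : ℝ} (e0 : 0 < e) (h1 : x + e ≤ β) (h2 : β + e ≤ x + π)
    (hR : ∀ t ∈ Set.Icc x β, |ρ t| ≤ R) : |sb c β x| ≤ R * (π / Real.sin e) := by
  have h3 : 0 < Real.sin e := Real.sin_pos_of_pos_of_lt_pi e0 (by linarith)
  have h4 : Real.sin e ≤ Real.sin (β - x) := by
    by_cases h : β - x ≤ π / 2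
    · exact Real.sin_le_sin_of_le_of_le_pi_div_two (by linarith [Real.pi_pos]) h (by linarith)
    · rw [← Real.sin_pi_sub (β - x)]
      exact Real.sin_le_sin_of_le_of_le_pi_div_two (by linarith [Real.pi_pos]) (by linarith)
        (by linarith)
  have h5 : 0 ≤ R := (abs_nonneg _).trans (hR x ⟨le_rfl, by linarith⟩)
  have h6 := norm_image_sub_le_of_norm_deriv_le_segment' (a := x) (b := β) (C := R)
    (fun t _ => (hc.der t).hasDerivWithinAt) (fun t ht => by
      rw [norm_mul, eI_norm, one_mul, Complex.norm_real]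
      exact hR t (Set.Ico_subset_Icc_self ht)) β ⟨by linarith, le_rfl⟩
  have h7 : |Sw (c x - c β) β| ≤ R * π := by
    refine (Complex.abs_im_le_norm _).trans ?_
    rw [norm_mul, eI_norm, mul_one, norm_sub_rev]
    exact h6.trans (mul_le_mul_of_nonneg_left (by linarith) h5)
  rw [sb, abs_div, abs_of_pos (h3.trans_le h4), ← mul_div_assoc]
  exact div_le_div₀ (by positivity) h7 h3 h4

end Pool.Agent.P.MP_c09211_an.Sh.GL
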