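import Pool.Agent.P.MP_c09211_an.GL.OmA

/-!
The area between an arc and the tangent at its end (paper: OM2).
-/

set_option autoImplicit false

namespace Pool.Agent.P.MP_c09211_an.Sh.GL

open Metric Set Finset PowerSeries Complex Filter Topology Real MeasureTheory
open scoped ComplexConjugate

variable {c : ℝ → ℂ} {ρ : ℝ → ℝ}

theorem OmA2_lint {u v : ℝ} (h : u ≤ v) {g : ℝ → ℝ} (hg : ContinuousOn g (Set.Icc u v))
    (h0 : ∀ x, 0 ≤ g x) :
    ∫⁻ x in Set.Ioo u v, ENNReal.ofReal (g x) = ENNReal.ofReal (∫ x in u..v, g x) := by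
  rw [intervalIntegral.integral_of_le h, integral_Ioc_eq_integral_Ioo,
    ofReal_integral_eq_lintegral_ofReal
      ((hg.integrableOn_compact isCompact_Icc).mono_set Set.Ioo_subset_Icc_self)
      (Filter.Eventually.of_forall h0)]

theorem OmA2_inner (t : ℝ) :
    ∫⁻ s in {s : ℝ | 0 < s ∧ s < t ∨ t < s ∧ s < 0}, ENNReal.ofReal |s| =
      ENNReal.ofReal (t ^ 2 / 2) := by
  rcases le_total 0 t with h | h
  · have h1 : {s : ℝ | 0 < s ∧ s < t ∨ t < s ∧ s < 0} = Set.Ioo 0 t := by
      ext s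
      exact ⟨fun hs => hs.elim id fun hs => absurd (hs.1.trans hs.2) (not_lt.mpr h), Or.inl⟩
    rw [h1, OmA2_lint h continuous_abs.continuousOn abs_nonneg,
      intervalIntegral.integral_congr (g := fun s => s) fun s hs => abs_of_nonneg (by
        rw [Set.uIcc_of_le h] at hs
        exact hs.1), integral_id]
    congr 1
    ring
  · have h1 : {s : ℝ | 0 < s ∧ s < t ∨ t < s ∧ s < 0} = Set.Ioo t 0 := by
      ext s
      exact ⟨fun hs => hs.elim (fun hs => absurd (hs.1.trans hs.2) (not_lt.mpr h)) id, Or.inr⟩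
    rw [h1, OmA2_lint h continuous_abs.continuousOn abs_nonneg,
      intervalIntegral.integral_congr (g := fun s => -s) fun s hs => abs_of_nonpos (by
        rw [Set.uIcc_of_le h] at hs
        exact hs.2), intervalIntegral.integral_neg, integral_id]
    congr 1
    ring

theorem OmA2_fubini {σ : ℝ → ℝ} (hσ : Measurable σ) (a b : ℝ) :
    MeasurableSet {p : ℂ | p.re ∈ Set.Ioo a b ∧
      (0 < p.im ∧ p.im < σ p.re ∨ σ p.re < p.im ∧ p.im < 0)} ∧
    ∫⁻ p in {p : ℂ | p.re ∈ Set.Ioo a b ∧ (0 < p.im ∧ p.im < σ p.re ∨ σ p.re < p.im ∧ p.im < 0)},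
      ENNReal.ofReal |p.im| = ∫⁻ x in Set.Ioo a b, ENNReal.ofReal (σ x ^ 2 / 2) := by
  have hD : MeasurableSet {q : ℝ × ℝ | q.1 ∈ Set.Ioo a b ∧
      (0 < q.2 ∧ q.2 < σ q.1 ∨ σ q.1 < q.2 ∧ q.2 < 0)} :=
    (measurable_fst measurableSet_Ioo).inter
      (((measurableSet_lt measurable_const measurable_snd).inter
        (measurableSet_lt measurable_snd (hσ.comp measurable_fst))).union
      ((measurableSet_lt (hσ.comp measurable_fst) measurable_snd).inter
        (measurableSet_lt measurable_snd measurable_const)))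
  refine ⟨Complex.measurableEquivRealProd.measurable hD, ?_⟩
  have hm : Measurable fun q : ℝ × ℝ => ENNReal.ofReal |q.2| :=
    (continuous_abs.measurable.comp measurable_snd).ennreal_ofReal
  refine (Complex.volume_preserving_equiv_real_prod.setLIntegral_comp_preimage hD hm).trans ?_
  rw [← lintegral_indicator hD, Measure.volume_eq_prod,
    lintegral_prod _ (hm.indicator hD).aemeasurable, ← lintegral_indicator measurableSet_Ioo]
  refine lintegral_congr fun x => ?_
  by_cases hx : x ∈ Set.Ioo a b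
  · have hS : MeasurableSet {s : ℝ | 0 < s ∧ s < σ x ∨ σ x < s ∧ s < 0} :=
      (measurableSet_Ioo (a := 0) (b := σ x)).union (measurableSet_Ioo (a := σ x) (b := 0))
    rw [Set.indicator_of_mem hx, ← OmA2_inner, ← lintegral_indicator hS]
    refine lintegral_congr fun s => ?_
    by_cases hs : s ∈ {s : ℝ | 0 < s ∧ s < σ x ∨ σ x < s ∧ s < 0}
    · rw [Set.indicator_of_mem hs]
      exact Set.indicator_of_mem (by exact ⟨hx, hs⟩) _
    · rw [Set.indicator_of_notMem hs]
      exact Set.indicator_of_notMem (by exact fun h => hs h.2) _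
  · rw [Set.indicator_of_notMem hx]
    refine (lintegral_congr fun s => ?_).trans lintegral_zero
    exact Set.indicator_of_notMem (by exact fun h => hx h.1) _

theorem OmA2_det (A B : ℂ) :
    (Complex.reCLM.smulRight A + Complex.imCLM.smulRight B : ℂ →L[ℝ] ℂ).det =
      A.re * B.im - B.re * A.im := by
  rw [ContinuousLinearMap.det, ← LinearMap.det_toMatrix Complex.basisOneI, Matrix.det_fin_two]
  simp [LinearMap.toMatrix_apply]

theorem OmA2_der (hc : Crv c ρ) (p : ℂ) :
    HasFDerivAt (fun p : ℂ => c p.re + p.im * eI p.re)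
      (Complex.reCLM.smulRight (eI p.re * ρ p.re + p.im * (eI p.re * I)) +
        Complex.imCLM.smulRight (eI p.re) : ℂ →L[ℝ] ℂ) p := by
  have h1 := (hc.der p.re).hasFDerivAt.comp p Complex.reCLM.hasFDerivAt
  have h2 := (eI_deriv p.re).hasFDerivAt.comp p Complex.reCLM.hasFDerivAt
  have h3 := (Complex.ofRealCLM.comp Complex.imCLM).hasFDerivAt (x := p)
  refine (h1.add (h3.mul h2)).congr_fderiv ?_
  ext1 v
  simp
  ring

/-- The area of the region, if the parametrisation is injective. -/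
theorem om_area (hc : Crv c ρ) {a b β : ℝ} (h1 : a ≤ b) (h2 : b < β) (h3 : β < a + π)
    (hi : ∀ x ∈ Set.Ioo a b, ∀ x' ∈ Set.Ioo a b, ∀ s s' : ℝ,
      (0 < s ∧ s < sb c β x ∨ sb c β x < s ∧ s < 0) →
      (0 < s' ∧ s' < sb c β x' ∨ sb c β x' < s' ∧ s' < 0) →
      c x + s * eI x = c x' + s' * eI x' → x = x') :
    MeasurableSet (Tr c a b β) ∧
      volume (Tr c a b β) = ENNReal.ofReal ((∫ x in a..b, sb c β x ^ 2) / 2) := by
  have hn : Continuous fun x => Sw (c x - c β) β :=
    Complex.continuous_im.comp ((hc.cc.sub continuous_const).mul continuous_const)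
  have hd : Continuous fun x => Real.sin (β - x) :=
    Real.continuous_sin.comp (continuous_const.sub continuous_id)
  obtain ⟨hD, hI⟩ := OmA2_fubini (σ := sb c β) (hn.measurable.div hd.measurable) a b
  have hT : Tr c a b β = (fun p : ℂ => c p.re + p.im * eI p.re) '' {p : ℂ | p.re ∈ Set.Ioo a b ∧
      (0 < p.im ∧ p.im < sb c β p.re ∨ sb c β p.re < p.im ∧ p.im < 0)} := by
    ext w
    constructor
    · rintro ⟨x, hx, s, hs, rfl⟩
      exact ⟨⟨x, s⟩, ⟨hx, hs⟩, rfl⟩
    · rintro ⟨p, hp, rfl⟩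
      exact ⟨p.re, hp.1, p.im, hp.2, rfl⟩
  have hinj : Set.InjOn (fun p : ℂ => c p.re + p.im * eI p.re) {p : ℂ | p.re ∈ Set.Ioo a b ∧
      (0 < p.im ∧ p.im < sb c β p.re ∨ sb c β p.re < p.im ∧ p.im < 0)} := by
    intro p hp q hq e
    have h4 := hi _ hp.1 _ hq.1 _ _ hp.2 hq.2 e
    refine Complex.ext h4 ?_
    change c p.re + p.im * eI p.re = c q.re + q.im * eI q.re at e
    rw [h4, add_right_inj] at e
    exact_mod_cast mul_right_cancel₀ (eI_ne _) e
  have hder := fun p (_ : p ∈ {p : ℂ | p.re ∈ Set.Ioo a b ∧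
      (0 < p.im ∧ p.im < sb c β p.re ∨ sb c β p.re < p.im ∧ p.im < 0)}) =>
    (OmA2_der hc p).hasFDerivWithinAt (s := {p : ℂ | p.re ∈ Set.Ioo a b ∧
      (0 < p.im ∧ p.im < sb c β p.re ∨ sb c β p.re < p.im ∧ p.im < 0)})
  rw [hT]
  refine ⟨measurable_image_of_fderivWithin hD hder hinj, ?_⟩
  rw [← lintegral_abs_det_fderiv_eq_addHaar_image volume hD hder hinj,
    ← intervalIntegral.integral_div, ← OmA2_lint h1 ?_ fun x => by positivity, ← hI]
  · refine lintegral_congr fun p => ?_
    rw [OmA2_det, ← abs_neg p.im]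
    congr 2
    simp only [add_re, mul_re, ofReal_re, ofReal_im, I_re, I_im, add_im, mul_im, eI_re, eI_im]
    linear_combination (-p.im) * Real.sin_sq_add_cos_sq p.re
  · refine ((hn.continuousOn.div hd.continuousOn fun x hx => ?_).pow 2).div_const 2
    exact (Real.sin_pos_of_pos_of_lt_pi (by linarith [hx.2]) (by linarith [hx.1])).ne'

end Pool.Agent.P.MP_c09211_an.Sh.GL
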