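import Pool.Agent.P.MP_c09211_an.GL.OmA2

/-!
The omitted area (paper: OM2, sum over the intervals).
-/

set_option autoImplicit false

namespace Pool.Agent.P.MP_c09211_an.Sh.GL

open Metric Set Finset PowerSeries Complex Filter Topology Real MeasureTheory
open scoped ComplexConjugate

variable {N : ℕ} {c : ℝ → ℂ} {ρ : ℝ → ℝ} {Ω : Set ℂ} {cl : ℝ → Option (Fin (N - 2))}
  {g : Fin (N - 2) → ℝ → ℝ}

theorem Res.run_le (hN : 2 ≤ N) {p : ℝ → ℝ} (H : Res N p cl g) {a b : ℝ} {Δ : Fin (N - 2)}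
    (h : ∀ x ∈ Set.Ico a b, cl x = some Δ) : b ≤ a + π := by
  by_contra hb
  have hb' : a + π < b := not_le.1 hb
  have h1 := h a ⟨le_rfl, by linarith [Real.pi_pos]⟩
  have h2 := h (a + π) ⟨by linarith [Real.pi_pos], hb'⟩
  refine H.uniq a Δ 1 one_pos (by omega) h1 ?_
  simpa using h2

theorem omb_sign {F : ℝ → ℝ} {x s : ℝ} (hF : HasDerivAt F s x) (h0 : F x = 0) (hs : s ≠ 0) :
    (∀ l < x, ∃ y ∈ Set.Ioo l x, s * F y < 0) ∧ ∀ r > x, ∃ y ∈ Set.Ioo x r, 0 < s * F y := by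
  have h1 : Tendsto (fun y => s * slope F x y) (𝓝[≠] x) (𝓝 (s * s)) :=
    (hasDerivAt_iff_tendsto_slope.1 hF).const_mul s
  have h2 : ∀ᶠ y in 𝓝[≠] x, 0 < s * slope F x y :=
    h1.eventually (lt_mem_nhds (mul_self_pos.2 hs))
  have h3 : ∀ y, y ≠ x → s * F y = s * slope F x y * (y - x) := fun y hy => by
    have : y - x ≠ 0 := sub_ne_zero.2 hy
    rw [slope_def_field, h0]
    field_simp
    ring
  constructor
  · intro l hl
    obtain ⟨y, hy1, hy2⟩ := ((h2.filter_mono (nhdsLT_le_nhdsNE x)).and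
      (Ioo_mem_nhdsLT hl)).exists
    refine ⟨y, hy2, ?_⟩
    rw [h3 y hy2.2.ne]
    exact mul_neg_of_pos_of_neg hy1 (sub_neg.2 hy2.2)
  · intro r hr
    obtain ⟨y, hy1, hy2⟩ := ((h2.filter_mono (nhdsGT_le_nhdsNE x)).and
      (Ioo_mem_nhdsGT hr)).exists
    refine ⟨y, hy2, ?_⟩
    rw [h3 y hy2.1.ne']
    exact mul_pos hy1 (sub_pos.2 hy2.1)

theorem omb_zero {F : ℝ → ℝ} (hF : Continuous F) {s x y : ℝ} (hxy : x < y) (hx : 0 < s * F x)
    (hy : s * F y < 0) : ∃ z ∈ Set.Ioo x y, F z = 0 := by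
  obtain ⟨z, hz, e⟩ := intermediate_value_Ioo' hxy.le (f := fun t => s * F t)
    (hF.const_mul s).continuousOn (⟨hy, hx⟩ : (0 : ℝ) ∈ Set.Ioo _ _)
  refine ⟨z, hz, (mul_eq_zero.1 e).resolve_left ?_⟩
  rintro rfl
  simp at hx

theorem omb_pt (hc : Crv c ρ) {x β s : ℝ} {w : ℂ} (h1 : x < β) (h2 : β < x + π)
    (hs : 0 < s ∧ s < sb c β x ∨ sb c β x < s ∧ s < 0) (hw : w = c x + s * eI x) :
    pf c x - Sw w x = 0 ∧ HasDerivAt (fun t => pf c t - Sw w t) s x ∧ s ≠ 0 ∧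
      s * (pf c β - Sw w β) < 0 := by
  have e1 : w - c x = s * eI x := by rw [hw]; ring
  have u0 : 0 < Real.sin (β - x) := Real.sin_pos_of_pos_of_lt_pi (by linarith) (by linarith)
  refine ⟨?_, ?_, ?_, ?_⟩
  · have : Sw (w - c x) x = 0 := by
      rw [e1, Sw, mul_assoc, eI_mul_neg]
      simp
    rw [Sw_sub] at this
    rw [pf]
    linarith
  · have := hc.dF w x
    rwa [e1, mul_assoc, eI_mul_neg, mul_one, Complex.ofReal_re] at this
  · rcases hs with hs | hs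
    · exact hs.1.ne'
    · exact hs.2.ne
  · have e2 : Sw (w - c x) β = -(s * Real.sin (β - x)) := by
      rw [e1, Sw, mul_assoc, ← eI_add, Complex.im_ofReal_mul, eI_im,
        show x + -β = -(β - x) by ring, Real.sin_neg]
      ring
    have e3 : Sw (c x - c β) β = sb c β x * Real.sin (β - x) := by
      rw [sb]
      field_simp
    rw [Sw_sub] at e2 e3
    have e4 : pf c β - Sw w β = Real.sin (β - x) * (s - sb c β x) := by
      rw [pf]
      linarith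
    rw [e4, mul_left_comm]
    refine mul_neg_of_pos_of_neg u0 ?_
    rcases hs with hs | hs
    · exact mul_neg_of_pos_of_neg hs.1 (by linarith)
    · exact mul_neg_of_neg_of_pos hs.2 (by linarith)

theorem omb_cont (hc : Crv c ρ) (w : ℂ) : Continuous fun t => pf c t - Sw w t :=
  hc.pc.sub (Sw_cont w)

/-- A point of the swept region has an alternation and two tangents from the run. -/
theorem omb_key (hc : Crv c ρ) (H : Cells N c Ω cl g) {a β e : ℝ} {Δ : Fin (N - 2)} (e0 : 0 < e)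
    (h : ∀ x ∈ Set.Ico a β, cl x = some Δ) (hβ : β ≤ a + π) {w : ℂ}
    (hw : w ∈ Tr c (a + e) (β - e) β) :
    Alt (fun x => g Δ x - Sw w x) ∧ ∃ x y, a < x ∧ x < y ∧ y < β ∧ pf c x = Sw w x ∧
      pf c y = Sw w y := by
  obtain ⟨x, hx, s, hs, hw⟩ := hw
  obtain ⟨k1, k2, k3, k4⟩ := omb_pt hc (by linarith [hx.2]) (by linarith [hx.1]) hs hw
  obtain ⟨m1, m2⟩ := omb_sign k2 k1 k3
  obtain ⟨x₁, hx₁, n1⟩ := m1 a (by linarith [hx.1])
  obtain ⟨x₂, hx₂, n2⟩ := m2 β (by linarith [hx.2])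
  obtain ⟨y, hy, n3⟩ := omb_zero (omb_cont hc w) hx₂.2 n2 k4
  have ev : ∀ᶠ t in 𝓝 β, s * (pf c t - Sw w t) < 0 :=
    ((omb_cont hc w).const_mul s).continuousAt.eventually (gt_mem_nhds k4)
  obtain ⟨x₃, n4, hx₃⟩ := ((ev.filter_mono (nhdsWithin_le_nhds (s := Set.Iio β))).and
    (Ioo_mem_nhdsLT hx₂.2)).exists
  have ag : ∀ t, a < t → t < β → g Δ t = pf c t := fun t h1 h2 =>
    H.res.agree t Δ (h t ⟨h1.le, h2⟩)
  have sq : 0 < s * s := mul_self_pos.2 k3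
  refine ⟨⟨x₁, x₂, x₃, by linarith [hx₁.2, hx₂.1], hx₃.1, by linarith [hx₁.1, hx₃.2], ?_, ?_⟩,
    x, y, by linarith [hx.1], by linarith [hx₂.1, hy.1], hy.2, by linarith, by linarith⟩
  · simp only
    rw [ag x₁ hx₁.1 (by linarith [hx₁.2, hx₂.1, hx₂.2]),
      ag x₂ (by linarith [hx₁.1, hx₁.2, hx₂.1]) hx₂.2]
    have := mul_neg_of_neg_of_pos n1 n2
    by_contra hn
    have := mul_nonneg sq.le (not_lt.1 hn)
    nlinarith
  · simp only
    rw [ag x₂ (by linarith [hx₁.1, hx₁.2, hx₂.1]) hx₂.2,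
      ag x₃ (by linarith [hx₁.1, hx₁.2, hx₂.1, hx₃.1]) hx₃.2]
    have := mul_neg_of_pos_of_neg n2 n4
    by_contra hn
    have := mul_nonneg sq.le (not_lt.1 hn)
    nlinarith

theorem omb_four (H : Cells N c Ω cl g) {Δ : Fin (N - 2)} {w : ℂ} {α x₁ x₂ x₃ x₄ : ℝ}
    (h0 : α ≤ x₁) (h1 : x₁ < x₂) (h2 : x₂ < x₃) (h3 : x₃ < x₄) (h4 : x₄ < α + N * π)
    (c1 : cl x₁ = some Δ) (c2 : cl x₂ = some Δ) (c3 : cl x₃ = some Δ) (c4 : cl x₄ = some Δ)
    (z1 : pf c x₁ = Sw w x₁) (z2 : pf c x₂ = Sw w x₂) (z3 : pf c x₃ = Sw w x₃)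
    (z4 : pf c x₄ = Sw w x₄) : False := by
  have hz := H.zb Δ w α {x₁, x₂, x₃, x₄} (by
    intro x hx
    simp only [Finset.mem_insert, Finset.mem_singleton] at hx
    rcases hx with rfl | rfl | rfl | rfl
    · exact ⟨h0, by linarith, c1, z1⟩
    · exact ⟨by linarith, by linarith, c2, z2⟩
    · exact ⟨by linarith, by linarith, c3, z3⟩
    · exact ⟨by linarith, h4, c4, z4⟩)
  rw [Finset.card_insert_of_notMem, Finset.card_insert_of_notMem, Finset.card_pair h3.ne] at hz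
  · omega
  · simp only [Finset.mem_insert, Finset.mem_singleton, not_or]
    exact ⟨h2.ne, (h2.trans h3).ne⟩
  · simp only [Finset.mem_insert, Finset.mem_singleton, not_or]
    exact ⟨h1.ne, (h1.trans h2).ne, ((h1.trans h2).trans h3).ne⟩

theorem omb_inj (hc : Crv c ρ) (H : Cells N c Ω cl g) {α a β e : ℝ} {Δ : Fin (N - 2)}
    (e0 : 0 < e) (h : ∀ x ∈ Set.Ico a β, cl x = some Δ) (hβ : β ≤ a + π) (ha : α ≤ a)
    (hb : β < α + N * π) {x x' s s' : ℝ} (hx : x ∈ Set.Ioo (a + e) (β - e))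
    (hx' : x' ∈ Set.Ioo (a + e) (β - e)) (hs : 0 < s ∧ s < sb c β x ∨ sb c β x < s ∧ s < 0)
    (hs' : 0 < s' ∧ s' < sb c β x' ∨ sb c β x' < s' ∧ s' < 0)
    (hw : c x + s * eI x = c x' + s' * eI x') : ¬x < x' := by
  intro hlt
  obtain ⟨k1, k2, k3, k4⟩ := omb_pt hc (by linarith [hx.2]) (by linarith [hx.1]) hs rfl
  obtain ⟨l1, l2, l3, l4⟩ := omb_pt hc (by linarith [hx'.2]) (by linarith [hx'.1]) hs' hw
  set w := c x + s * eI x
  obtain ⟨x₂, hx₂, n2⟩ := (omb_sign k2 k1 k3).2 x' hlt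
  obtain ⟨x₃, hx₃, n3⟩ := (omb_sign l2 l1 l3).1 x₂ hx₂.2
  obtain ⟨x₄, hx₄, n4⟩ := (omb_sign l2 l1 l3).2 β (by linarith [hx'.2])
  have ss : 0 < s * s' := by
    have := mul_pos_of_neg_of_neg k4 l4
    by_contra hn
    have := mul_nonneg (neg_nonneg.2 (not_lt.1 hn)) (mul_self_nonneg (pf c β - Sw w β))
    nlinarith
  have n3' : s * (pf c x₃ - Sw w x₃) < 0 := by
    have h1 := mul_neg_of_pos_of_neg ss n3
    by_contra hn
    have := mul_nonneg (mul_self_nonneg s') (not_lt.1 hn)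
    nlinarith
  obtain ⟨y, hy, z1⟩ := omb_zero (omb_cont hc w) hx₃.1 n2 n3'
  obtain ⟨y', hy', z2⟩ := omb_zero (omb_cont hc w) hx₄.2 n4 l4
  have o1 : a < x := by linarith [hx.1]
  have o2 : x < y := hx₂.1.trans hy.1
  have o3 : y < x' := hy.2.trans hx₃.2
  have o4 : x' < y' := hx₄.1.trans hy'.1
  have o5 := hy'.2
  exact omb_four H (w := w) (α := α) (by linarith) o2 o3 o4 (by linarith)
    (h x ⟨by linarith, by linarith⟩)
    (h y ⟨by linarith, by linarith⟩) (h x' ⟨by linarith, by linarith⟩)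
    (h y' ⟨by linarith, by linarith⟩) (by linarith) (by linarith) (by linarith) (by linarith)

theorem om_sum (hN : 3 ≤ N) (hc : Crv c ρ) (H : Cells N c Ω cl g) {α b : ℝ}
    {K : Finset (ℝ × ℝ)} (hK : Runs cl α b K) (hb : b < α + N * π) {e R : ℝ} (e0 : 0 < e)
    (hl : ∀ q ∈ K, 2 * e < q.2 - q.1) {v v' : ℝ × ℝ → ℝ → ℝ}
    (hv : ∀ q ∈ K, (∀ x, HasDerivAt (v q) (v' q x) x) ∧ Continuous (v' q) ∧
      v q (q.1 + e) = 0 ∧ v q (q.2 - e) = 0) {B : Set ℂ}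
    (hR : ∀ q ∈ K, ∀ x ∈ Set.Icc q.1 q.2, |ρ x| ≤ R ∧
      closedBall (c x) (R * (π / Real.sin e)) ⊆ B) :
    ENNReal.ofReal (∑ q ∈ K,
      (∫ x in (q.1 + e)..(q.2 - e), (2 * v q x * ρ x - v' q x ^ 2 + v q x ^ 2)) / 2) ≤
      volume (B \ Ω) := by
  obtain ⟨hK1, hK2⟩ := hK
  have hπ : ∀ q ∈ K, q.2 ≤ q.1 + π := fun q hq => by
    obtain ⟨-, -, -, Δ, hΔ⟩ := hK1 q hq
    exact H.res.run_le (by omega) hΔ
  have hle : ∀ q ∈ K, q.1 + e ≤ q.2 - e := fun q hq => by linarith [hl q hq]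
  have area : ∀ q ∈ K, MeasurableSet (Tr c (q.1 + e) (q.2 - e) q.2) ∧
      volume (Tr c (q.1 + e) (q.2 - e) q.2) =
        ENNReal.ofReal ((∫ x in (q.1 + e)..(q.2 - e), sb c q.2 x ^ 2) / 2) := fun q hq => by
    obtain ⟨h1, -, h3, Δ, hΔ⟩ := hK1 q hq
    refine om_area hc (hle q hq) (by linarith) (by linarith [hπ q hq]) ?_
    intro x hx x' hx' s s' hs hs' hw
    exact le_antisymm
      (not_lt.1 (omb_inj hc H e0 hΔ (hπ q hq) h1 (by linarith) hx' hx hs' hs hw.symm))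
      (not_lt.1 (omb_inj hc H e0 hΔ (hπ q hq) h1 (by linarith) hx hx' hs hs' hw))
  have dis0 : ∀ q ∈ K, ∀ q' ∈ K, q.2 ≤ q'.1 →
      Disjoint (Tr c (q.1 + e) (q.2 - e) q.2) (Tr c (q'.1 + e) (q'.2 - e) q'.2) := by
    intro q hq q' hq' hqq
    obtain ⟨h1, -, -, Δ, hΔ⟩ := hK1 q hq
    obtain ⟨-, -, h3, Δ', hΔ'⟩ := hK1 q' hq'
    rw [Set.disjoint_left]
    intro w hw hw'
    obtain ⟨a1, x, y, b1, b2, b3, b4, b5⟩ := omb_key hc H e0 hΔ (hπ q hq) hw
    obtain ⟨a2, x', y', d1, d2, d3, d4, d5⟩ := omb_key hc H e0 hΔ' (hπ q' hq') hw'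
    obtain rfl := H.zd Δ Δ' w a1 a2
    exact omb_four H (α := α) (by linarith) b2 (by linarith) d2 (by linarith)
      (hΔ x ⟨by linarith, by linarith⟩) (hΔ y ⟨by linarith, by linarith⟩)
      (hΔ' x' ⟨by linarith, by linarith⟩) (hΔ' y' ⟨by linarith, by linarith⟩) b4 b5 d4 d5
  have dis : Set.PairwiseDisjoint (K : Set (ℝ × ℝ))
      fun q => Tr c (q.1 + e) (q.2 - e) q.2 := by
    intro q hq q' hq' hne
    rcases hK2 q hq q' hq' hne with h | h
    · exact dis0 q hq q' hq' h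
    · exact (dis0 q' hq' q hq h).symm
  have sub : (⋃ q ∈ K, Tr c (q.1 + e) (q.2 - e) q.2) ⊆ B \ Ω := by
    intro w hw
    simp only [Set.mem_iUnion] at hw
    obtain ⟨q, hq, hw⟩ := hw
    obtain ⟨-, -, -, Δ, hΔ⟩ := hK1 q hq
    refine ⟨?_, H.za Δ w (omb_key hc H e0 hΔ (hπ q hq) hw).1⟩
    obtain ⟨x, hx, s, hs, rfl⟩ := hw
    have h1 := hx.1
    have h2 := hx.2
    have h3 := hπ q hq
    refine (hR q hq x ⟨by linarith, by linarith⟩).2 ?_
    have h4 := sb_le hc (x := x) (β := q.2) (R := R) e0 (by linarith) (by linarith)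
      fun t ht => (hR q hq t ⟨by linarith [ht.1], ht.2⟩).1
    rw [mem_closedBall, dist_eq_norm, add_sub_cancel_left, norm_mul, eI_norm, mul_one,
      Complex.norm_real, Real.norm_eq_abs]
    refine le_trans ?_ h4
    rcases hs with hs | hs
    · rw [abs_of_pos hs.1]
      exact hs.2.le.trans (le_abs_self _)
    · rw [abs_of_neg hs.2]
      exact (neg_le_neg hs.1.le).trans (neg_le_abs _)
  calc _ ≤ ENNReal.ofReal (∑ q ∈ K, (∫ x in (q.1 + e)..(q.2 - e), sb c q.2 x ^ 2) / 2) := by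
        refine ENNReal.ofReal_le_ofReal (Finset.sum_le_sum fun q hq => ?_)
        obtain ⟨v1, v2, v3, v4⟩ := hv q hq
        have := om_wirt hc (hle q hq) (β := q.2) (by linarith) (by linarith [hπ q hq]) v1 v2 v3 v4
        linarith
    _ = ∑ q ∈ K, volume (Tr c (q.1 + e) (q.2 - e) q.2) := by
        rw [ENNReal.ofReal_sum_of_nonneg fun q hq => div_nonneg
          (intervalIntegral.integral_nonneg (hle q hq) fun x _ => sq_nonneg _) zero_le_two]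
        exact Finset.sum_congr rfl fun q hq => (area q hq).2.symm
    _ = volume (⋃ q ∈ K, Tr c (q.1 + e) (q.2 - e) q.2) :=
        (measure_biUnion_finset dis fun q hq => (area q hq).1).symm
    _ ≤ _ := measure_mono sub

end Pool.Agent.P.MP_c09211_an.Sh.GL
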