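import Pool.Agent.P.MP_c09211_an.GL.GenR
import Pool.Agent.P.MP_c09211_an.GL.GenQ

/-!
The derivative near the circle (paper: G, RD).
-/

set_option autoImplicit false

namespace Pool.Agent.P.MP_c09211_an.Sh.GL

open Metric Set Finset PowerSeries Complex Filter Topology Real MeasureTheory
open scoped ComplexConjugate

/-- A lower bound on a disc gives a lower bound for the integral. -/
theorem radA_area {S : Set ℂ} {Q : ℂ → ℂ} {a : ℂ} {r m B : ℝ} (hr : 0 ≤ r) (hm : 0 ≤ m)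
    (hB : 0 ≤ B) (hs : ball a r ⊆ S) (hlow : ∀ s ∈ ball a r, m ≤ ‖Q s‖)
    (h : ∫⁻ t in S, ‖Q t‖ₑ ≤ ENNReal.ofReal B) : m * (r ^ 2 * π) ≤ B := by
  have h1 : ∫⁻ _ in ball a r, ENNReal.ofReal m ≤ ∫⁻ t in ball a r, ‖Q t‖ₑ :=
    setLIntegral_mono' measurableSet_ball fun s hs => by
      rw [← ofReal_norm]
      exact ENNReal.ofReal_le_ofReal (hlow s hs)
  have h2 := (h1.trans (lintegral_mono_set hs)).trans h
  rw [setLIntegral_const, Complex.volume_ball, ← ENNReal.ofReal_pow hr,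
    ← ENNReal.ofReal_coe_nnreal, NNReal.coe_real_pi, ← ENNReal.ofReal_mul (by positivity),
    ← ENNReal.ofReal_mul hm] at h2
  exact (ENNReal.ofReal_le_ofReal_iff hB).1 h2

/-- The defect at the radius `1 - 2 t`. -/
theorem radA_def {J : ℕ} (hJ : 1 ≤ J) {t : ℝ} (t0 : 0 < t) (t1 : t * J ≤ 1 / 4) :
    (J : ℝ) ^ 2 / (1 - 2 * t) ^ (J - 1) ≤ (J : ℝ) ^ 2 + 4 * t * (J : ℝ) ^ 3 := by
  have hJ' : (1 : ℝ) ≤ J := by exact_mod_cast hJ
  have t2 : t ≤ 1 / 4 := by nlinarith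
  have h1 := one_add_mul_le_pow (a := -(2 * t)) (by linarith) (J - 1)
  have h2 : ((J - 1 : ℕ) : ℝ) ≤ J := by exact_mod_cast Nat.sub_le J 1
  have h3 : 1 - 2 * (t * J) ≤ (1 - 2 * t) ^ (J - 1) := by
    rw [show (1 : ℝ) - 2 * t = 1 + -(2 * t) by ring]
    nlinarith
  have h4 : 0 < t * J := by positivity
  rw [div_le_iff₀ (by linarith)]
  have h5 : (J : ℝ) ^ 2 + 4 * t * (J : ℝ) ^ 3 = (J : ℝ) ^ 2 * (1 + 4 * (t * J)) := by ring
  rw [h5, mul_assoc]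
  refine le_mul_of_one_le_right (by positivity) ?_
  calc (1 : ℝ) ≤ (1 + 4 * (t * J)) * (1 - 2 * (t * J)) := by nlinarith
    _ ≤ _ := by gcongr

/-- The disc of the covering result is omitted on the smaller disc. -/
theorem radA_omit {f : ℂ → ℂ} (hf : Sr 1 f) {z : ℂ} (hz : ‖z‖ < 1) :
    ball (f z) ((1 - ‖z‖) * ‖deriv f z‖ / 12) ⊆ (f '' closedBall 0 (1 - 2 * (1 - ‖z‖)))ᶜ := by
  have hsub : closedBall z ((1 - ‖z‖) / 2) ⊆ ball 0 1 := fun u hu => by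
    have h1 := mem_closedBall_iff_norm.1 hu
    have h2 := norm_le_norm_add_norm_sub' u z
    rw [mem_ball_zero_iff]
    linarith
  have hc := koebe_cover hf.1 hf.2.1 (z₀ := z) (R := (1 - ‖z‖) / 2) (by linarith) hsub
  rw [show (1 - ‖z‖) / 2 * ‖deriv f z‖ / 6 = (1 - ‖z‖) * ‖deriv f z‖ / 12 by ring] at hc
  rintro s hs ⟨v, hv, rfl⟩
  obtain ⟨u, hu, he⟩ := hc hs
  have h1 := mem_closedBall_zero_iff.1 hv
  have h2 : u = v := hf.2.1 (hsub (ball_subset_closedBall hu))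
    (mem_ball_zero_iff.2 (by linarith)) he
  have h3 := mem_ball_iff_norm'.1 hu
  have h4 := norm_le_norm_add_norm_sub' z u
  rw [h2] at h3 h4
  linarith

theorem rad_der {c C : ℝ} (hc : 0 < c) : ∃ K : ℝ, 0 < K ∧ ∃ σ₁ : ℝ, 0 < σ₁ ∧ ∃ δ : ℝ, 0 < δ ∧
    ∃ J₀ : ℕ, ∀ J ≥ J₀, ∀ (f w : ℂ → ℂ) (a z : ℂ), Near J δ f w a → 1 - σ₁ / J ≤ ‖z‖ →
      ‖z‖ < 1 → c * (J : ℝ) ^ 2 ≤ ‖f z‖ → ‖f z‖ ≤ C * (J : ℝ) ^ 2 →
      ((1 - ‖z‖) * ‖deriv f z‖) ^ 2 ≤ K * ((1 - ‖z‖) * (J : ℝ) ^ 5 + (J : ℝ) ^ 3) := by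
  obtain ⟨κ, hκ, x, hx, δ, hδ, J₀, hlow⟩ := gq_low (c := c / 2) (C := |C| + c) (by linarith)
  have hπ := Real.pi_pos
  set D := |C| + c with hD
  have D0 : 0 < D := by positivity
  set M := 8 * D ^ 2 / κ with hM
  have M0 : 0 < M := by positivity
  obtain ⟨J₁, hJ₁⟩ := exists_nat_ge (16 * M / c ^ 2)
  refine ⟨144 * M, by positivity, min (min (x / 2) (1 / 4)) (c ^ 2 / (16 * M)), by positivity,
    δ, hδ, max (max J₀ J₁) 1, fun J hJ f w a z hN hz1 hz2 hf1 hf2 => ?_⟩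
  set σ := min (min (x / 2) (1 / 4)) (c ^ 2 / (16 * M)) with hσ
  have σ1 : σ ≤ x / 2 := (min_le_left _ _).trans (min_le_left _ _)
  have σ2 : σ ≤ 1 / 4 := (min_le_left _ _).trans (min_le_right _ _)
  have σ3 : σ ≤ c ^ 2 / (16 * M) := min_le_right _ _
  have hJ0 : J₀ ≤ J := ((le_max_left _ _).trans (le_max_left _ _)).trans hJ
  have hJ1 : J₁ ≤ J := ((le_max_right _ _).trans (le_max_left _ _)).trans hJ
  have hJ2 : 1 ≤ J := (le_max_right _ _).trans hJ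
  have J1 : (1 : ℝ) ≤ J := by exact_mod_cast hJ2
  have J0 : (0 : ℝ) < J := by linarith
  have hom := radA_omit hN.sr hz2
  set t := 1 - ‖z‖ with ht
  have t0 : 0 < t := by linarith
  have tJ : t * J ≤ σ := by
    rw [← le_div_iff₀ J0]
    linarith
  have t2 : t ≤ 1 / 4 := by nlinarith
  set r := min (t * ‖deriv f z‖ / 12) (c * (J : ℝ) ^ 2 / 2) with hr
  have r0 : 0 ≤ r := le_min (by positivity) (by positivity)
  have hρ : 1 - x / J ≤ 1 - 2 * t := by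
    have : 2 * t ≤ x / J := by
      rw [le_div_iff₀ J0]
      linarith
    linarith
  have hsub : ball (f z) r ⊆ (f '' closedBall 0 (1 - 2 * t))ᶜ :=
    (ball_subset_ball (min_le_left _ _)).trans hom
  have hA := gq_area hN.sr hN.sch hJ2 (ρ := 1 - 2 * t) (by linarith) (by linarith)
  have hdef := radA_def hJ2 t0 (tJ.trans σ2)
  have hA' := hA.trans (ENNReal.ofReal_le_ofReal (show _ ≤ 2 * π * (4 * t * (J : ℝ) ^ 3 + J) from
    mul_le_mul_of_nonneg_left (by linarith [hN.lam]) (by positivity)))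
  have hQ : ∀ s ∈ ball (f z) r, κ / (D ^ 2 * (J : ℝ) ^ 2) ≤ ‖Qd J w f s‖ := by
    intro s hs
    have h1 : ‖s - f z‖ ≤ c * (J : ℝ) ^ 2 / 2 :=
      (mem_ball_iff_norm.1 hs).le.trans (min_le_right _ _)
    have h2 : c / 2 * (J : ℝ) ^ 2 ≤ ‖s‖ := by
      have h := norm_sub_norm_le (f z) s
      rw [norm_sub_rev] at h
      linarith
    have h3 : ‖s‖ ≤ D * (J : ℝ) ^ 2 := by
      have h := norm_sub_norm_le s (f z)
      have h4 : C * (J : ℝ) ^ 2 ≤ |C| * (J : ℝ) ^ 2 := by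
        gcongr
        exact le_abs_self C
      have h5 : 0 ≤ c * (J : ℝ) ^ 2 := by positivity
      rw [hD, add_mul]
      linarith
    have s0 : 0 < ‖s‖ := lt_of_lt_of_le (by positivity) h2
    have h6 := hlow J hJ0 f w a s _ hN hρ (by linarith) (hsub hs) h2 h3
    rw [Qd_eq J w f (norm_pos_iff.1 s0), norm_mul, norm_pow, norm_inv]
    calc κ / (D ^ 2 * (J : ℝ) ^ 2) = κ * (J : ℝ) ^ 2 * (D * (J : ℝ) ^ 2)⁻¹ ^ 2 := by
          field_simp
      _ ≤ _ := by gcongr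
  have hfin := radA_area r0 (by positivity) (by positivity) hsub hQ hA'
  have hr2 : r ^ 2 ≤ M * (t * (J : ℝ) ^ 5 + (J : ℝ) ^ 3) := by
    have h1 : κ / (D ^ 2 * (J : ℝ) ^ 2) * r ^ 2 ≤ 2 * (4 * t * (J : ℝ) ^ 3 + J) := by
      refine le_of_mul_le_mul_right ?_ hπ
      linarith
    rw [div_mul_eq_mul_div, div_le_iff₀ (by positivity)] at h1
    rw [hM, div_mul_eq_mul_div, le_div_iff₀ hκ]
    have h2 : 0 ≤ D ^ 2 * (J : ℝ) ^ 3 := by positivity
    nlinarith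
  rcases min_choice (t * ‖deriv f z‖ / 12) (c * (J : ℝ) ^ 2 / 2) with h | h
  · rw [hr, h] at hr2
    nlinarith
  · exfalso
    rw [hr, h] at hr2
    have h1 : M * (t * J) ≤ c ^ 2 / 16 := by
      have h2 := tJ.trans σ3
      rw [le_div_iff₀ (by positivity)] at h2
      linarith
    have h3 : M ≤ c ^ 2 / 16 * J := by
      have h4 : 16 * M / c ^ 2 ≤ J := hJ₁.trans (by exact_mod_cast hJ1)
      rw [div_le_iff₀ (by positivity)] at h4
      linarith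
    have h5 : 0 < (J : ℝ) ^ 4 := by positivity
    have h6 := mul_le_mul_of_nonneg_right h1 h5.le
    have h7 := mul_le_mul_of_nonneg_right h3 (show (0 : ℝ) ≤ (J : ℝ) ^ 3 by positivity)
    have h8 : 0 < c ^ 2 * (J : ℝ) ^ 4 := by positivity
    nlinarith

end Pool.Agent.P.MP_c09211_an.Sh.GL
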