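import Pool.Agent.P.MP_c09211_an.GL.RadA
import Pool.Agent.P.MP_c09211_an.GL.Basic

/-!
Radial variation (paper: G, RC).
-/

set_option autoImplicit false

namespace Pool.Agent.P.MP_c09211_an.Sh.GL

open Metric Set Finset PowerSeries Complex Filter Topology Real MeasureTheory
open scoped ComplexConjugate

theorem RadB_one {z ζ : ℂ} (hz : ‖z‖ = 1) (hζ : 1 ≤ ‖ζ‖) {r r' : ℝ} (r0 : 0 ≤ r) (h : r ≤ r')
    (r1 : r' ≤ 1) : ‖r' * z - ζ‖ ≤ Real.exp (r' - r) * ‖r * z - ζ‖ := by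
  have h2 : z.re * z.re + z.im * z.im = 1 := by
    rw [← normSq_apply, Complex.normSq_eq_norm_sq, hz, one_pow]
  have h3 : 1 ≤ ζ.re * ζ.re + ζ.im * ζ.im := by
    rw [← normSq_apply, Complex.normSq_eq_norm_sq]
    exact one_le_pow₀ hζ
  have e : ∀ x : ℝ, ‖x * z - ζ‖ ^ 2 = x ^ 2 - 2 * x * (z.re * ζ.re + z.im * ζ.im) +
      (ζ.re * ζ.re + ζ.im * ζ.im) := fun x => by
    rw [← Complex.normSq_eq_norm_sq, normSq_apply, sub_re, sub_im, re_ofReal_mul, im_ofReal_mul]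
    linear_combination x ^ 2 * h2
  have h4 : 0 ≤ 1 + 2 * (z.re * ζ.re + z.im * ζ.im) + (ζ.re * ζ.re + ζ.im * ζ.im) := by
    nlinarith [sq_nonneg (z.re + ζ.re), sq_nonneg (z.im + ζ.im)]
  have h5 : (1 + r) * ‖r' * z - ζ‖ ≤ (1 + r') * ‖r * z - ζ‖ := by
    refine le_of_sq_le_sq ?_ (mul_nonneg (by linarith) (norm_nonneg _))
    rw [mul_pow, mul_pow, e, e]
    generalize z.re * ζ.re + z.im * ζ.im = t at h4
    generalize ζ.re * ζ.re + ζ.im * ζ.im = s at h3 h4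
    have h6 : 0 ≤ 1 - r * r' := by nlinarith
    have h7 : 0 ≤ (s - 1) * ((1 + r) * (1 + r')) :=
      mul_nonneg (by linarith) (mul_nonneg (by linarith) (by linarith))
    nlinarith [mul_nonneg (sub_nonneg.2 h) (add_nonneg (mul_nonneg h4 h6) h7)]
  have h6 : 1 + r' ≤ (1 + r) * Real.exp (r' - r) := by
    have := Real.add_one_le_exp (r' - r)
    nlinarith
  refine le_of_mul_le_mul_left (h5.trans ?_) (show 0 < 1 + r by linarith)
  rw [← mul_assoc]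
  exact mul_le_mul_of_nonneg_right h6 (norm_nonneg _)

theorem RadB_ms {z : ℂ} (hz : ‖z‖ = 1) {r r' : ℝ} (r0 : 0 ≤ r) (h : r ≤ r') (r1 : r' ≤ 1)
    (s : Multiset ℂ) (hs : ∀ ζ ∈ s, 1 ≤ ‖ζ‖) : ‖(s.map fun ζ => r' * z - ζ).prod‖ ≤
      Real.exp (s.card * (r' - r)) * ‖(s.map fun ζ => r * z - ζ).prod‖ := by
  induction s using Multiset.induction_on with
  | empty => simp
  | cons a s ih =>
    have h1 := RadB_one hz (hs a (Multiset.mem_cons_self a s)) r0 h r1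
    have h2 := ih fun ζ h => hs ζ (Multiset.mem_cons_of_mem h)
    rw [Multiset.map_cons, Multiset.map_cons, Multiset.prod_cons, Multiset.prod_cons, norm_mul,
      norm_mul, Multiset.card_cons, Nat.cast_succ, add_mul, one_mul, Real.exp_add]
    exact (mul_le_mul h1 h2 (norm_nonneg _) (by positivity)).trans (le_of_eq (by ring))

/-- Growth along a radius of a polynomial without zeros in the disc. -/
theorem rad_poly {Q : Polynomial ℂ} (hQ : ∀ z : ℂ, ‖z‖ < 1 → Q.eval z ≠ 0) {n : ℕ}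
    (hn : Q.natDegree ≤ n) {z : ℂ} (hz : ‖z‖ = 1) {r r' : ℝ} (r0 : 0 ≤ r) (h : r ≤ r')
    (r1 : r' ≤ 1) : ‖Q.eval (r' * z)‖ ≤ Real.exp (n * (r' - r)) * ‖Q.eval (r * z)‖ := by
  have h1 : ∀ ζ ∈ Q.roots, 1 ≤ ‖ζ‖ := fun ζ h =>
    not_lt.1 fun h2 => hQ ζ h2 (Polynomial.isRoot_of_mem_roots h)
  have h2 : (Q.roots.card : ℝ) ≤ n := by exact_mod_cast Q.card_roots'.trans hn
  rw [(IsAlgClosed.splits Q).eval_eq_prod_roots, (IsAlgClosed.splits Q).eval_eq_prod_roots,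
    norm_mul, norm_mul, mul_left_comm]
  refine mul_le_mul_of_nonneg_left ((RadB_ms hz r0 h r1 _ h1).trans ?_) (norm_nonneg _)
  exact mul_le_mul_of_nonneg_right
    (Real.exp_le_exp.2 (mul_le_mul_of_nonneg_right h2 (sub_nonneg.2 h))) (norm_nonneg _)

theorem RadB_right {φ : ℝ → ℂ} (hφ : Continuous φ) {a b c C η : ℝ} (hη : 0 ≤ η)
    (c1 : c + η < ‖φ a‖) (c2 : ‖φ a‖ + η < C)
    (h : ∀ t, a ≤ t → t ≤ b → (∀ r ∈ Set.Icc a t, c ≤ ‖φ r‖ ∧ ‖φ r‖ ≤ C) → ‖φ t - φ a‖ ≤ η) :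
    ∀ r ∈ Set.Icc a b, ‖φ r - φ a‖ ≤ η := by
  have hm : ∀ r, ‖φ r - φ a‖ ≤ η → c < ‖φ r‖ ∧ ‖φ r‖ < C := fun r hr => by
    have := abs_le.1 ((abs_norm_sub_norm_le (φ r) (φ a)).trans hr)
    constructor <;> linarith [this.1, this.2]
  refine IsClosed.Icc_subset_of_forall_mem_nhdsGT_of_Icc_subset (s := {r | ‖φ r - φ a‖ ≤ η})
    ((isClosed_le (by fun_prop) continuous_const).inter isClosed_Icc) (by simpa using hη)
    fun t ht hs => ?_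
  have h0 := hm t (hs ⟨ht.1, le_rfl⟩)
  have h1 : ∀ᶠ r in 𝓝 t, ‖φ r‖ ∈ Set.Ioo c C :=
    hφ.norm.continuousAt.eventually (Ioo_mem_nhds h0.1 h0.2)
  obtain ⟨u, hu, h2⟩ := mem_nhdsGT_iff_exists_Ioo_subset.1 (nhdsWithin_le_nhds h1)
  filter_upwards [Ioo_mem_nhdsGT hu, Ioo_mem_nhdsGT ht.2] with x hx hx'
  refine h x (ht.1.trans hx.1.le) hx'.2.le fun r hr => ?_
  by_cases hrt : r ≤ t
  · exact (hm r (hs ⟨hr.1, hrt⟩)).imp le_of_lt le_of_lt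
  · exact (h2 ⟨not_le.1 hrt, hr.2.trans_lt hx.2⟩).imp le_of_lt le_of_lt

/-- The argument of continuity. -/
theorem rad_cont {φ : ℝ → ℂ} (hφ : Continuous φ) {a b c C η r₁ : ℝ} (h1 : r₁ ∈ Set.Icc a b)
    (hη : 0 ≤ η) (c1 : c + η < ‖φ r₁‖) (c2 : ‖φ r₁‖ + η < C)
    (h : ∀ s t, a ≤ s → s ≤ t → t ≤ b → (∀ r ∈ Set.Icc s t, c ≤ ‖φ r‖ ∧ ‖φ r‖ ≤ C) →
      ‖φ t - φ s‖ ≤ η) : ∀ r ∈ Set.Icc a b, ‖φ r - φ r₁‖ ≤ η := by
  intro r hr
  rcases le_total r₁ r with h2 | h2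
  · exact RadB_right hφ hη c1 c2 (fun t h3 h4 h5 => h r₁ t h1.1 h3 h4 h5) r ⟨h2, hr.2⟩
  · have := RadB_right (φ := fun x => φ (-x)) (hφ.comp continuous_neg) (a := -r₁) (b := -a)
      (c := c) (C := C) hη (by rwa [neg_neg]) (by rwa [neg_neg]) (fun t h3 h4 h5 => ?_) (-r)
      ⟨neg_le_neg h2, neg_le_neg hr.1⟩
    · rwa [neg_neg, neg_neg] at this
    · rw [neg_neg, norm_sub_rev]
      refine h (-t) r₁ (by linarith) (by linarith) h1.2 fun x hx => ?_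
      have := h5 (-x) ⟨neg_le_neg hx.2, by linarith [hx.1]⟩
      rwa [neg_neg] at this

/-- Integration of a bound with an inverse square root. -/
theorem RadB_var {φ φ' : ℝ → ℂ} (hφ : ∀ r, HasDerivAt φ (φ' r) r) {s t g : ℝ} (hst : s ≤ t)
    (ht : t ≤ 1) (hg : 0 ≤ g) (h : ∀ r ∈ Set.Ico s t, (1 - r) * (1 - s) * ‖φ' r‖ ^ 2 ≤ g ^ 2) :
    ‖φ t - φ s‖ ≤ 2 * g := by
  rcases hst.eq_or_lt with rfl | hlt
  · rw [sub_self, norm_zero]
    positivity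
  have h0 : 0 < √(1 - s) := Real.sqrt_pos.2 (by linarith)
  have := image_norm_le_of_norm_deriv_right_le_deriv_boundary' (a := s) (b := t)
    (f := fun r => φ r - φ s) (f' := φ')
    (fun r _ => ((hφ r).sub_const _).continuousAt.continuousWithinAt)
    (fun r _ => ((hφ r).sub_const _).hasDerivWithinAt)
    (B := fun r => 2 * g / √(1 - s) * (√(1 - s) - √(1 - r)))
    (B' := fun r => 2 * g / √(1 - s) * -(-1 / (2 * √(1 - r)))) (by simp) (by fun_prop)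
    (fun r hr => (((((hasDerivAt_id r).const_sub 1).sqrt (by
      have := hr.2
      simp only [id]
      linarith)).const_sub _).const_mul _).hasDerivWithinAt) (fun r hr => ?_) ⟨hst, le_rfl⟩
  · refine this.trans ?_
    have h1 : 2 * g / √(1 - s) * (√(1 - s) - √(1 - t)) ≤ 2 * g / √(1 - s) * √(1 - s) :=
      mul_le_mul_of_nonneg_left (sub_le_self _ (Real.sqrt_nonneg _)) (by positivity)
    rwa [div_mul_cancel₀ _ h0.ne'] at h1
  · have h1 : 0 < 1 - r := by linarith [hr.2]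
    have h2 : 0 < √(1 - r) := Real.sqrt_pos.2 h1
    have h3 : √(1 - r) * √(1 - s) * ‖φ' r‖ ≤ g := by
      refine le_of_sq_le_sq ?_ hg
      rw [mul_pow, mul_pow, Real.sq_sqrt h1.le, Real.sq_sqrt (by linarith)]
      exact h r hr
    rw [show 2 * g / √(1 - s) * -(-1 / (2 * √(1 - r))) = g / (√(1 - r) * √(1 - s)) by field_simp,
      le_div_iff₀' (mul_pos h2 h0)]
    exact h3

theorem RadB_deep {τ d J K : ℝ} (hτ : 0 < τ) (hJ : 0 ≤ J) (hK : 0 ≤ K) (h1 : 1 ≤ 2 * J ^ 2 * τ)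
    (h : (τ * d) ^ 2 ≤ K * (τ * J ^ 5 + J ^ 3)) : τ * d ^ 2 ≤ 3 * K * J ^ 5 := by
  have h2 := mul_le_mul_of_nonneg_left h1 (show 0 ≤ K * J ^ 3 by positivity)
  refine le_of_mul_le_mul_left ?_ hτ
  linarith

theorem RadB_core {D : ℝ → ℝ} (D0 : ∀ r, 0 ≤ D r) {J K σ s t : ℝ} (hJ : 0 < J) (hK : 0 ≤ K)
    (hs : 1 - σ / J ≤ s) (ht : t ≤ 1)
    (hP : ∀ r r', s ≤ r → r ≤ r' → r' ≤ 1 → 2 * J ^ 2 * (r' - r) ≤ 1 → D r' ≤ 3 * D r)
    (hD : ∀ r ∈ Set.Ico s t, ((1 - r) * D r) ^ 2 ≤ K * ((1 - r) * J ^ 5 + J ^ 3)) :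
    ∀ r ∈ Set.Ico s t, (1 - r) * (1 - s) * D r ^ 2 ≤ 9 * K * (3 * σ * J ^ 4 + 2 * J ^ 3) := by
  have hσ : (1 - s) * J ≤ σ := (le_div_iff₀ hJ).1 (by linarith)
  have h1 : ∀ r ∈ Set.Ico s t, 1 ≤ 2 * J ^ 2 * (1 - r) →
      (1 - r) * (1 - s) * D r ^ 2 ≤ 3 * K * σ * J ^ 4 := fun r hr h => by
    have h2 := RadB_deep (by linarith [hr.2]) hJ.le hK h (hD r hr)
    have h3 := mul_le_mul_of_nonneg_left h2 (show 0 ≤ 1 - s by linarith [hr.1, hr.2])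
    have h4 := mul_le_mul_of_nonneg_left hσ (show 0 ≤ 3 * K * J ^ 4 by positivity)
    linarith
  intro r hr
  have s1 : 0 < 1 - s := by linarith [hr.1, hr.2]
  have hσ0 : 0 ≤ σ := (mul_pos s1 hJ).le.trans hσ
  have p1 : 0 ≤ K * σ * J ^ 4 := by positivity
  have p2 : 0 ≤ K * J ^ 3 := by positivity
  have hJ2 : 0 < 2 * J ^ 2 := by positivity
  have key : ∀ u, s ≤ u → u ≤ r → 2 * J ^ 2 * (1 - u) ≤ 1 →
      (1 - r) * (1 - s) * D r ^ 2 ≤ 9 * ((1 - u) * (1 - s) * D u ^ 2) := fun u h2 h3 h4 => by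
    have h5 := hP u r h2 h3 (by linarith [hr.2])
      ((mul_le_mul_of_nonneg_left (by linarith [hr.2]) hJ2.le).trans h4)
    have h6 := pow_le_pow_left₀ (D0 r) h5 2
    have h7 := mul_le_mul (mul_le_mul_of_nonneg_right (show 1 - r ≤ 1 - u by linarith) s1.le) h6
      (sq_nonneg _) (mul_nonneg (by linarith [hr.2]) s1.le)
    linarith
  by_cases h2 : 1 ≤ 2 * J ^ 2 * (1 - r)
  · linarith [h1 r hr h2]
  by_cases h3 : 2 * J ^ 2 * (1 - s) ≤ 1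
  · have h4 := hD s ⟨le_rfl, hr.1.trans_lt hr.2⟩
    have h5 := mul_le_mul_of_nonneg_left h3 p2
    linarith [key s le_rfl hr.1 h3]
  · have e : 2 * J ^ 2 * (1 - (1 - 1 / (2 * J ^ 2))) = 1 := by field_simp; ring
    have h4 : s ≤ 1 - 1 / (2 * J ^ 2) := by
      have := (div_le_iff₀' hJ2).2 (not_le.1 h3).le
      linarith
    have h5 : 1 - 1 / (2 * J ^ 2) ≤ r := by
      have := (le_div_iff₀' hJ2).2 (not_le.1 h2).le
      linarith
    linarith [key _ h4 h5 e.le, h1 _ ⟨h4, h5.trans_lt hr.2⟩ e.ge]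

theorem rad_close {c C η : ℝ} (hc : 0 < c) (hη : 0 < η) : ∃ σ₁ : ℝ, 0 < σ₁ ∧ ∃ δ : ℝ, 0 < δ ∧
    ∃ J₀ : ℕ, ∀ J ≥ J₀, ∀ (E : Polynomial ℂ) (w : ℂ → ℂ) (a : ℂ) (θ r₁ : ℝ),
      E.natDegree ≤ 2 * J ^ 2 → Near J δ (fun z => E.eval z) w a → 1 - σ₁ / J ≤ r₁ → r₁ ≤ 1 →
      c * (J : ℝ) ^ 2 ≤ ‖E.eval (r₁ * eI θ)‖ → ‖E.eval (r₁ * eI θ)‖ ≤ C * (J : ℝ) ^ 2 →
      (∀ r : ℝ, 1 - σ₁ / J ≤ r → r ≤ 1 →
        ‖E.eval (r * eI θ) - E.eval (r₁ * eI θ)‖ ≤ η * (J : ℝ) ^ 2) ∧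
      ‖E.derivative.eval (eI θ)‖ ≤ η * (J : ℝ) ^ 4 := by
  obtain ⟨K, K0, σ₀, hσ₀, δ, hδ, J₀, H⟩ := rad_der (C := C + 1) (half_pos hc)
  obtain ⟨e, e0, e1, e2, e3⟩ : ∃ e : ℝ, 0 < e ∧ e ≤ η ∧ e ≤ c / 4 ∧ e ≤ 1 / 2 :=
    ⟨min η (min (c / 4) (1 / 2)), by positivity, min_le_left _ _,
      (min_le_right _ _).trans (min_le_left _ _), (min_le_right _ _).trans (min_le_right _ _)⟩
  obtain ⟨σ, s0, s1, s2, s3⟩ : ∃ σ : ℝ, 0 < σ ∧ σ ≤ σ₀ ∧ σ ≤ 1 ∧ σ ≤ e ^ 2 / (216 * K) :=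
    ⟨min σ₀ (min 1 (e ^ 2 / (216 * K))), by positivity, min_le_left _ _,
      (min_le_right _ _).trans (min_le_left _ _), (min_le_right _ _).trans (min_le_right _ _)⟩
  obtain ⟨J₁, hJ₁⟩ := exists_nat_ge (144 * K / e ^ 2 + 1 / σ + 1)
  refine ⟨σ, s0, δ, hδ, max J₀ J₁, fun J hJ E w a θ r₁ hd hN a1 a2 a3 a4 => ?_⟩
  have j0 : (J₁ : ℝ) ≤ J := by exact_mod_cast (le_max_right _ _).trans hJ
  have q1 : 0 < 144 * K / e ^ 2 := by positivity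
  have q2 : 0 < 1 / σ := by positivity
  have j1 : (1 : ℝ) ≤ J := by linarith
  have j2 : (0 : ℝ) < J := by linarith
  have j3 : 144 * K ≤ J * e ^ 2 := (div_le_iff₀ (by positivity)).1 (by linarith)
  have j4 : 1 ≤ J * σ := (div_le_iff₀ s0).1 (by linarith)
  have j5 : σ * (216 * K) ≤ e ^ 2 := (le_div_iff₀ (by positivity)).1 s3
  have j6 : 0 ≤ 1 - σ / J := sub_nonneg.2 ((div_le_one j2).2 (s2.trans j1))
  have j7 : (0 : ℝ) < J ^ 2 := by positivity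
  have hz := eI_norm θ
  generalize eI θ = z at *
  have hφ : ∀ r : ℝ, HasDerivAt (fun r : ℝ => E.eval (r * z)) (E.derivative.eval (r * z) * z) r :=
    fun r => by
      have := (E.hasDerivAt (r * z)).comp r ((hasDerivAt_id r).ofReal_comp.mul_const z)
      rwa [ofReal_one, one_mul] at this
  have hP : ∀ r r' : ℝ, 0 ≤ r → r ≤ r' → r' ≤ 1 → 2 * (J : ℝ) ^ 2 * (r' - r) ≤ 1 →
      ‖E.derivative.eval (r' * z)‖ ≤ 3 * ‖E.derivative.eval (r * z)‖ := fun r r' b1 b2 b3 b4 => by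
    refine (rad_poly (n := 2 * J ^ 2) (fun x hx => ?_)
      ((Polynomial.natDegree_derivative_le E).trans ((Nat.sub_le _ _).trans hd)) hz b1 b2 b3).trans
      (mul_le_mul_of_nonneg_right ((Real.exp_le_exp.2 ?_).trans Real.exp_one_lt_three.le)
        (norm_nonneg _))
    · rw [← Polynomial.deriv]
      exact deriv_ne_zero_of_injOn (E.differentiable.analyticAt x)
        (isOpen_ball.mem_nhds (mem_ball_zero_iff.2 hx)) hN.sr.2.1
    · push_cast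
      exact b4
  have hD : ∀ r : ℝ, 1 - σ / J ≤ r → r < 1 → c / 2 * (J : ℝ) ^ 2 ≤ ‖E.eval (r * z)‖ →
      ‖E.eval (r * z)‖ ≤ (C + 1) * (J : ℝ) ^ 2 → ((1 - r) * ‖E.derivative.eval (r * z)‖) ^ 2 ≤
        K * ((1 - r) * (J : ℝ) ^ 5 + (J : ℝ) ^ 3) := fun r b1 b2 b3 b4 => by
    have b5 : ‖r * z‖ = r := by
      rw [norm_mul, hz, mul_one, Complex.norm_real, Real.norm_of_nonneg (j6.trans b1)]
    have b6 : σ / J ≤ σ₀ / J := div_le_div_of_nonneg_right s1 j2.le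
    have := H J ((le_max_left _ _).trans hJ) _ w a (r * z) hN (by linarith) (by linarith) b3 b4
    rwa [b5, Polynomial.deriv] at this
  have k1 := mul_le_mul_of_nonneg_right e2 j7.le
  have k2 := mul_le_mul_of_nonneg_right e3 j7.le
  have k3 := mul_pos hc j7
  have main := rad_cont (φ := fun r : ℝ => E.eval (r * z))
    (continuous_iff_continuousAt.2 fun r => (hφ r).continuousAt) (a := 1 - σ / J) (b := 1)
    (c := c / 2 * (J : ℝ) ^ 2) (C := (C + 1) * (J : ℝ) ^ 2) (η := e * (J : ℝ) ^ 2) ⟨a1, a2⟩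
    (by positivity) (by linarith) (by linarith) fun s t b1 b2 b3 b4 => by
      refine (RadB_var hφ b2 b3 (g := e * (J : ℝ) ^ 2 / 2) (by positivity) fun r hr => ?_).trans
        (le_of_eq (by ring))
      have := RadB_core (D := fun r : ℝ => ‖E.derivative.eval (r * z)‖) (fun _ => norm_nonneg _)
        j2 K0.le b1 b3 (fun r r' h => hP r r' ((j6.trans b1).trans h))
        (fun r hr => hD r (b1.trans hr.1) (hr.2.trans_le b3) (b4 r ⟨hr.1, hr.2.le⟩).1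
          (b4 r ⟨hr.1, hr.2.le⟩).2) r hr
      have m1 := mul_le_mul_of_nonneg_right j5 (show (0 : ℝ) ≤ J ^ 4 by positivity)
      have m2 := mul_le_mul_of_nonneg_right j3 (show (0 : ℝ) ≤ J ^ 3 by positivity)
      rw [norm_mul, hz, mul_one]
      linarith
  refine ⟨fun r b1 b2 => (main r ⟨b1, b2⟩).trans (mul_le_mul_of_nonneg_right e1 j7.le), ?_⟩
  obtain ⟨u, u0, u1⟩ : ∃ u : ℝ, 0 < u ∧ 2 * (J : ℝ) ^ 2 * u = 1 :=
    ⟨1 / (2 * (J : ℝ) ^ 2), by positivity, by field_simp⟩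
  have u2 : u ≤ σ / J := by
    rw [le_div_iff₀ j2]
    refine le_of_mul_le_mul_left ?_ (show (0 : ℝ) < 2 * J by positivity)
    linarith
  have m1 := abs_le.1 ((abs_norm_sub_norm_le _ _).trans (main (1 - u) ⟨by linarith, by linarith⟩))
  have m2 := hD (1 - u) (by linarith) (by linarith) (by linarith [m1.1]) (by linarith [m1.2])
  rw [sub_sub_cancel] at m2
  have m3 := RadB_deep u0 j2.le K0.le u1.ge m2
  have m4 := hP (1 - u) 1 (by linarith) (by linarith) le_rfl (by rw [sub_sub_cancel, u1])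
  rw [ofReal_one, one_mul] at m4
  refine m4.trans (le_trans (le_of_sq_le_sq ?_ (by positivity))
    (mul_le_mul_of_nonneg_right e1 (by positivity)))
  generalize ‖E.derivative.eval ((1 - u : ℝ) * z)‖ = d at m3 ⊢
  have m5 := mul_le_mul_of_nonneg_left m3 (show (0 : ℝ) ≤ 2 * J ^ 2 by positivity)
  have m6 := mul_le_mul_of_nonneg_right j3 (show (0 : ℝ) ≤ J ^ 7 by positivity)
  have m7 : 0 ≤ K * (J : ℝ) ^ 7 := by positivity
  rw [← mul_assoc, u1] at m5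
  linarith

end Pool.Agent.P.MP_c09211_an.Sh.GL
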