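import Pool.Agent.P.MP_c09211_an.GL.Defs

/-!
Realisable permutations (paper: R1).
-/

set_option autoImplicit false

namespace Pool.Agent.P.MP_c09211_an.Sh.GL

open Metric Set Finset PowerSeries Complex Filter Topology Real MeasureTheory
open scoped ComplexConjugate

variable {ι : Type} {F : ι → ℝ → ℝ}

theorem Rl.le {l r : ℝ} {u : Equiv.Perm ι} (H : Rl F l r u) : l ≤ r := by
  induction H with
  | refl h => exact h
  | step _ h _ ih => exact ih.trans h

theorem Rl.mono {l m r : ℝ} {u : Equiv.Perm ι} (H : Rl F l m u) (h : m ≤ r) : Rl F l r u := by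
  have := Rl.step (v := 1) H h fun _ => rfl
  rwa [one_mul] at this

theorem Rl.trans {l m r : ℝ} {u v : Equiv.Perm ι} (H : Rl F l m u) (K : Rl F m r v) :
    Rl F l r (v * u) := by
  induction K with
  | refl h => rw [one_mul]; exact H.mono h
  | step _ h hv ih => rw [mul_assoc]; exact ih.step h hv

theorem Rl.split {l m r : ℝ} {u : Equiv.Perm ι} (H : Rl F l r u) (h1 : l ≤ m) (h2 : m ≤ r) :
    ∃ u₁ u₂, Rl F l m u₁ ∧ Rl F m r u₂ ∧ u = u₂ * u₁ := by
  induction H with
  | refl _ => exact ⟨1, 1, .refl h1, .refl h2, (one_mul 1).symm⟩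
  | @step m₀ r u v H h hv ih =>
    rcases le_total m m₀ with h3 | h3
    · obtain ⟨u₁, u₂, a, b, rfl⟩ := ih h3
      exact ⟨u₁, v * u₂, a, b.step h hv, (mul_assoc _ _ _).symm⟩
    · exact ⟨v * u, 1, H.step h3 hv, .refl h2, (one_mul _).symm⟩

/-- The intermediate value theorem for a weak sign change. -/
theorem Real_ivt {f : ℝ → ℝ} (hf : Continuous f) {l r : ℝ} (hlr : l ≤ r) (h : f l * f r ≤ 0) :
    ∃ m, l ≤ m ∧ m ≤ r ∧ f m = 0 := by
  rcases mul_nonpos_iff.1 h with h | h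
  · obtain ⟨m, hm, e⟩ := intermediate_value_Icc' hlr hf.continuousOn ⟨h.2, h.1⟩
    exact ⟨m, hm.1, hm.2, e⟩
  · obtain ⟨m, hm, e⟩ := intermediate_value_Icc hlr hf.continuousOn ⟨h.1, h.2⟩
    exact ⟨m, hm.1, hm.2, e⟩

theorem Real_swap [DecidableEq ι] (hF : ∀ i, Continuous (F i)) {l m r : ℝ} {u : Equiv.Perm ι}
    (H : ∀ t, m ≤ t → Rl F l t u) (hmr : m ≤ r) {a b : ι}
    (h : (F (u a) m - F (u b) m) * (F (u a) r - F (u b) r) ≤ 0) :
    Rl F l r (u * Equiv.swap a b) := by
  obtain ⟨t, h1, h2, e⟩ := Real_ivt ((hF (u a)).sub (hF (u b))) hmr h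
  rw [Equiv.mul_swap_eq_swap_mul]
  exact (H t h1).step h2 fun i => Equiv.apply_swap_eq_self (v := fun i => F i t) (sub_eq_zero.1 e) i

/-- Two wires that cross can be exchanged. -/
theorem Rl.insert [DecidableEq ι] (hF : ∀ i, Continuous (F i)) {l r : ℝ} {u : Equiv.Perm ι}
    (H : Rl F l r u) {a b : ι} (h : (F a l - F b l) * (F (u a) r - F (u b) r) ≤ 0) :
    Rl F l r (u * Equiv.swap a b) := by
  induction H with
  | refl hlr => exact Real_swap hF (fun _ ht => .refl ht) hlr h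
  | @step m r u v H hmr hv ih =>
    rcases le_or_gt ((F a l - F b l) * (F (u a) m - F (u b) m)) 0 with h1 | h1
    · rw [mul_assoc]
      exact (ih h1).step hmr hv
    · refine Real_swap hF (fun _ ht => H.step ht hv) hmr ?_
      rw [Equiv.Perm.mul_apply, Equiv.Perm.mul_apply] at h ⊢
      rw [hv, hv]
      rcases pos_and_pos_or_neg_and_neg_of_mul_pos h1 with ⟨h2, h3⟩ | ⟨h2, h3⟩
      · exact mul_nonpos_of_nonneg_of_nonpos h3.le (nonpos_of_mul_nonpos_right h h2)
      · exact mul_nonpos_of_nonpos_of_nonneg h3.le (nonneg_of_mul_nonpos_right h h2)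

theorem Rl.group {l r : ℝ} {u : Equiv.Perm ι} (H : Rl F l r u) {κ : ι → ℝ}
    (h : ∀ m ∈ Set.Icc l r, ∀ a b, F a m = F b m → κ a = κ b) (a : ι) : κ (u a) = κ a := by
  induction H with
  | refl _ => rfl
  | @step m r u v H hmr hv ih =>
    rw [Equiv.Perm.mul_apply, h m ⟨H.le, hmr⟩ _ _ (hv (u a))]
    exact ih fun t ht => h t ⟨ht.1, ht.2.trans hmr⟩

/-- A permutation that is increasing on every class is the identity. -/
theorem Real_eq_one [Fintype ι] [DecidableEq ι] {κ A : ι → ℝ}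
    (hA : ∀ a b, a ≠ b → κ a = κ b → A a ≠ A b) {u : Equiv.Perm ι} (hu : ∀ a, κ (u a) = κ a)
    (h : ∀ a b, κ a = κ b → A a < A b → A (u a) < A (u b)) : u = 1 := by
  by_contra h1
  obtain ⟨a, ha, hmin⟩ := Finset.exists_min_image (univ.filter fun a => u a ≠ a) A (by
    by_contra h2
    rw [Finset.not_nonempty_iff_eq_empty, Finset.filter_eq_empty_iff] at h2
    exact h1 (Equiv.ext fun a => not_not.1 (h2 (Finset.mem_univ a))))
  have ha' := (Finset.mem_filter.1 ha).2
  obtain ⟨b, rfl⟩ := u.surjective a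
  have hb : u b ≠ b := fun e => ha' (by rw [e, e])
  have h2 := hmin b (Finset.mem_filter.2 ⟨Finset.mem_univ _, hb⟩)
  have h3 := hmin (u (u b)) (Finset.mem_filter.2 ⟨Finset.mem_univ _, u.injective.ne ha'⟩)
  exact not_lt.2 h3 (h _ _ (hu b) (h2.lt_of_ne (hA _ _ hb (hu b))))

theorem Rl.loc [Fintype ι] [DecidableEq ι] (hF : ∀ i, Continuous (F i)) {l r : ℝ} (hlr : l ≤ r)
    {κ : ι → ℝ} (h : ∀ a b, a ≠ b → κ a = κ b → (F a l - F b l) * (F a r - F b r) < 0)
    {u : Equiv.Perm ι} (hu : ∀ a, κ (u a) = κ a) : Rl F l r u := by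
  classical
  by_contra h0
  obtain ⟨w, hw, hmin⟩ := Finset.exists_min_image
    (univ.filter fun w : Equiv.Perm ι => (∀ a, κ (w a) = κ a) ∧ ¬ Rl F l r w)
    (fun w => ∑ a, F a l * F (w a) r) ⟨u, Finset.mem_filter.2 ⟨Finset.mem_univ _, hu, h0⟩⟩
  obtain ⟨hw1, hw2⟩ := (Finset.mem_filter.1 hw).2
  by_cases hc : ∃ a b, κ a = κ b ∧ F a l < F b l ∧ F (w a) r < F (w b) r
  · obtain ⟨a, b, hab, h1, h2⟩ := hc
    have hne : a ≠ b := fun e => h1.ne (by rw [e])
    have h3 : Rl F l r (w * Equiv.swap a b) := by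
      by_contra h4
      have h5 := hmin _ (Finset.mem_filter.2 ⟨Finset.mem_univ _, fun c => by
        rw [Equiv.Perm.mul_apply, hw1, Equiv.apply_swap_eq_self hab], h4⟩)
      rw [← sub_nonpos, ← Finset.sum_sub_distrib, Finset.sum_eq_add_of_mem a b (Finset.mem_univ _)
        (Finset.mem_univ _) hne fun c _ hc => by
          rw [Equiv.Perm.mul_apply, Equiv.swap_apply_of_ne_of_ne hc.1 hc.2, sub_self],
        Equiv.Perm.mul_apply, Equiv.Perm.mul_apply, Equiv.swap_apply_left,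
        Equiv.swap_apply_right] at h5
      nlinarith [mul_pos (sub_pos.2 h1) (sub_pos.2 h2)]
    have h6 := h3.insert hF (a := a) (b := b) (by
      rw [Equiv.Perm.mul_apply, Equiv.Perm.mul_apply, Equiv.swap_apply_left,
        Equiv.swap_apply_right]
      exact mul_nonpos_of_nonpos_of_nonneg (sub_nonpos.2 h1.le) (sub_nonneg.2 h2.le))
    rw [Equiv.mul_swap_mul_self] at h6
    exact hw2 h6
  · have e : w = 1 := Real_eq_one (A := fun a => F a l) (fun a b hab hκ e => by
      have := h a b hab hκ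
      rw [sub_eq_zero.2 e, zero_mul] at this
      exact lt_irrefl _ this) hw1 fun a b hab h1 => by
        have h2 : F (w b) r ≤ F (w a) r := not_lt.1 fun h2 => hc ⟨a, b, hab, h1, h2⟩
        have h3 := h (w a) (w b) (w.injective.ne fun e => h1.ne (by rw [e]))
          (by rw [hw1, hw1, hab])
        exact sub_neg.1 (neg_of_mul_neg_left h3 (sub_nonneg.2 h2))
    exact hw2 (e ▸ Rl.refl hlr)

theorem Real_shift {s : Equiv.Perm ι} {c : ℝ} (hs : ∀ i φ, F i (φ + c) = -F (s i) φ) {l r : ℝ}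
    {u : Equiv.Perm ι} (H : Rl F l r u) : Rl F (l + c) (r + c) (s⁻¹ * u * s) := by
  induction H with
  | refl h =>
    rw [mul_one, inv_mul_cancel]
    exact .refl (by linarith)
  | @step m r u v H hmr hv ih =>
    have e : s⁻¹ * (v * u) * s = (s⁻¹ * v * s) * (s⁻¹ * u * s) := by group
    rw [e]
    refine ih.step (by linarith) fun i => ?_
    rw [hs, hs, ← Equiv.Perm.mul_apply, ← mul_assoc, ← mul_assoc, mul_inv_cancel, one_mul,
      Equiv.Perm.mul_apply, hv]

theorem Real_back {s : Equiv.Perm ι} (hs : ∀ i φ, F i (φ + π) = -F (s i) φ) (i : ι) (φ : ℝ) :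
    F i (φ + -π) = -F (s⁻¹ i) φ := by
  have := hs (s⁻¹ i) (φ + -π)
  rw [neg_add_cancel_right, show s (s⁻¹ i) = i from s.apply_symm_apply i] at this
  rw [this, neg_neg]

theorem Rl.shift {s : Equiv.Perm ι} (hs : ∀ i φ, F i (φ + π) = -F (s i) φ) {l r : ℝ}
    {u : Equiv.Perm ι} : Rl F l r u ↔ Rl F (l + π) (r + π) (s⁻¹ * u * s) := by
  refine ⟨Real_shift hs, fun H => ?_⟩
  have := Real_shift (Real_back hs) H
  rwa [add_neg_cancel_right, add_neg_cancel_right,
    show s⁻¹⁻¹ * (s⁻¹ * u * s) * s⁻¹ = u by group] at this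

theorem Real_fix [Fintype ι] [DecidableEq ι] {s u u' g : Equiv.Perm ι}
    (e : s * u' = g * (s * u) * g⁻¹) :
    (univ.filter fun i => s (u i) = i).card = (univ.filter fun i => s (u' i) = i).card := by
  refine Finset.card_equiv g fun i => ?_
  simp only [Finset.mem_filter, Finset.mem_univ, true_and]
  rw [← Equiv.Perm.mul_apply s u', e, Equiv.Perm.mul_apply, show g⁻¹ (g i) = i from g.symm_apply_apply i,
    Equiv.Perm.mul_apply, g.injective.eq_iff, Equiv.Perm.mul_apply]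

theorem Real_step [Fintype ι] [DecidableEq ι] {s : Equiv.Perm ι}
    (hs : ∀ i φ, F i (φ + π) = -F (s i) φ) {α α' : ℝ} (H : Good F s α) (h1 : α ≤ α')
    (h2 : α' ≤ α + π) : Good F s α' := by
  obtain ⟨u, hu, hc⟩ := H
  obtain ⟨u₁, u₂, a, b, rfl⟩ := hu.split h1 h2
  exact ⟨_, b.trans (Real_shift hs a), by rwa [← Real_fix (g := u₁) (u := u₂ * u₁) (by group)]⟩

theorem Real_down [Fintype ι] [DecidableEq ι] {s : Equiv.Perm ι}
    (hs : ∀ i φ, F i (φ + π) = -F (s i) φ) {α : ℝ} (H : Good F s α) : Good F s (α + -π) := by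
  obtain ⟨u, hu, hc⟩ := H
  have h := Real_shift (Real_back hs) hu
  rw [add_right_comm] at h
  exact ⟨_, h, by rwa [← Real_fix (g := s) (u := u) (by group)]⟩

/-- The property does not depend on the base angle. -/
theorem Good.base [Fintype ι] [DecidableEq ι] {s : Equiv.Perm ι}
    (hs : ∀ i φ, F i (φ + π) = -F (s i) φ) {α : ℝ} (H : Good F s α) (α' : ℝ) : Good F s α' := by
  have h : ∀ k : ℤ, Good F s (α + k * π) := fun k => by
    induction k using Int.induction_on with
    | zero => simpa using H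
    | succ n ih =>
      refine Real_step hs ih ?_ ?_ <;> push_cast <;> linarith [pi_pos]
    | pred n ih =>
      have := Real_down hs ih
      rwa [show α + ((-(n : ℤ) : ℤ) : ℝ) * π + -π = α + ((-(n : ℤ) - 1 : ℤ) : ℝ) * π by
        push_cast; ring] at this
  have h1 := (le_div_iff₀ pi_pos).1 (Int.floor_le ((α' - α) / π))
  have h2 := (div_lt_iff₀ pi_pos).1 (Int.lt_floor_add_one ((α' - α) / π))
  exact Real_step hs (h ⌊(α' - α) / π⌋) (by linarith) (by linarith)

end Pool.Agent.P.MP_c09211_an.Sh.GL
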