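import Pool.Agent.P.MP_c09211_an.GL.NCLb
import Pool.Agent.P.MP_c09211_an.GL.NFx
import Pool.Agent.P.MP_c09211_an.GL.Basic

/-!
Construction of the resolution (paper: R6, Res).
-/

set_option autoImplicit false

namespace Pool.Agent.P.MP_c09211_an.Sh.GL

open Metric Set Finset PowerSeries Complex Filter Topology Real MeasureTheory
open scoped ComplexConjugate

/-- The number of half turns. -/
noncomputable def resB_J (α x : ℝ) : ℤ := ⌊(x - α) / π⌋

/-- The reduced angle. -/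
noncomputable def resB_R (α x : ℝ) : ℝ := x - resB_J α x * π

open Classical in
/-- The number of the arc. -/
noncomputable def resB_K (φ : ℕ → ℝ) (V : ℕ) (r : ℝ) : ℕ := Nat.findGreatest (fun k => φ k ≤ r) V

/-- The residue. -/
def resB_md (n : ℕ) (J : ℤ) : Fin (n + 1) :=
  ⟨(J % ((n + 1 : ℕ) : ℤ)).toNat, by
    have h1 := Int.emod_nonneg J (b := ((n + 1 : ℕ) : ℤ)) (by omega)
    have h2 := Int.emod_lt_of_pos J (b := ((n + 1 : ℕ) : ℤ)) (by omega)
    omega⟩

theorem resB_J_add (α x : ℝ) (m : ℤ) : resB_J α (x + m * π) = resB_J α x + m := by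
  unfold resB_J
  rw [← Int.floor_add_intCast]
  congr 1
  have := Real.pi_ne_zero
  field_simp
  ring

theorem resB_R_add (α x : ℝ) (m : ℤ) : resB_R α (x + m * π) = resB_R α x := by
  unfold resB_R
  rw [resB_J_add]
  push_cast
  ring

theorem resB_le_J (α x : ℝ) (m : ℤ) : m ≤ resB_J α x ↔ α + m * π ≤ x := by
  unfold resB_J
  rw [Int.le_floor, le_div_iff₀ Real.pi_pos]
  constructor <;> intro h <;> linarith

theorem resB_J_mono (α : ℝ) {x y : ℝ} (h : x ≤ y) : resB_J α x ≤ resB_J α y :=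
  (resB_le_J α y _).2 (((resB_le_J α x _).1 le_rfl).trans h)

theorem resB_R_ge (α x : ℝ) : α ≤ resB_R α x := by
  have h := (resB_le_J α x _).1 le_rfl
  unfold resB_R
  linarith

theorem resB_R_cont {h : ℝ → ℝ} (hc : Continuous h) {α : ℝ} (he : h α = h (α + π)) :
    Continuous fun x => h (resB_R α x) := by
  have h1 : Continuous ((fun t : ℝ => h (α + t * π)) ∘ Int.fract) :=
    ContinuousOn.comp_fract'' (hc.comp (by fun_prop)).continuousOn (by simpa using he)
  have h2 : Continuous fun x : ℝ => (x - α) / π := by fun_prop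
  refine (h1.comp h2).congr fun x => ?_
  simp only [Function.comp_apply]
  congr 1
  unfold resB_R resB_J Int.fract
  have := Real.pi_ne_zero
  field_simp
  ring

/-- The antiperiodic extension is continuous. -/
theorem resB_ext_cont {G : ℝ → ℝ} (hc : Continuous G) {α : ℝ} (he : G (α + π) = -G α) :
    Continuous fun x => (-1 : ℝ) ^ resB_J α x * G (resB_R α x) := by
  have h1 : Continuous fun x => Real.cos (resB_R α x) * G (resB_R α x) :=
    resB_R_cont (h := fun r => Real.cos r * G r) (by fun_prop)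
      (by rw [Real.cos_add_pi, he]; ring)
  have h2 : Continuous fun x => Real.sin (resB_R α x) * G (resB_R α x) :=
    resB_R_cont (h := fun r => Real.sin r * G r) (by fun_prop)
      (by rw [Real.sin_add_pi, he]; ring)
  refine ((Real.continuous_cos.mul h1).add (Real.continuous_sin.mul h2)).congr fun x => ?_
  have h3 : (resB_J α x : ℝ) * π = x - resB_R α x := by
    unfold resB_R
    ring
  rw [← Real.cos_int_mul_pi, h3, Real.cos_sub]
  simp only [Pi.add_apply, Pi.mul_apply]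
  ring

theorem resB_K_le (φ : ℕ → ℝ) (V : ℕ) (r : ℝ) : resB_K φ V r ≤ V := by
  classical
  exact Nat.findGreatest_le V

theorem resB_le_K {φ : ℕ → ℝ} {V k : ℕ} {r : ℝ} (h : k ≤ V) (h' : φ k ≤ r) : k ≤ resB_K φ V r := by
  classical
  exact Nat.le_findGreatest (P := fun k => φ k ≤ r) h h'

theorem resB_K_spec {φ : ℕ → ℝ} (V : ℕ) {r : ℝ} (h : φ 0 ≤ r) : φ (resB_K φ V r) ≤ r := by
  classical
  exact Nat.findGreatest_spec (P := fun k => φ k ≤ r) (Nat.zero_le V) h

theorem resB_K_mono {φ : ℕ → ℝ} (V : ℕ) {r r' : ℝ} (h0 : φ 0 ≤ r) (h : r ≤ r') :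
    resB_K φ V r ≤ resB_K φ V r' :=
  resB_le_K (resB_K_le φ V r) ((resB_K_spec V h0).trans h)

theorem resB_md_val (n : ℕ) (J : ℤ) : ((resB_md n J : ℕ) : ℤ) = J % ((n + 1 : ℕ) : ℤ) :=
  Int.toNat_of_nonneg (Int.emod_nonneg J (by omega))

theorem resB_md_eq {n : ℕ} {J J' : ℤ} :
    resB_md n J = resB_md n J' ↔ J % ((n + 1 : ℕ) : ℤ) = J' % ((n + 1 : ℕ) : ℤ) := by
  rw [← resB_md_val, ← resB_md_val, Fin.ext_iff]
  omega

theorem resB_md_add (n : ℕ) (J : ℤ) : resB_md n (J + ((n + 1 : ℕ) : ℤ)) = resB_md n J :=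
  resB_md_eq.2 (Int.add_emod_right _ _)

theorem resB_md_surj (n : ℕ) (J : ℤ) (i : Fin (n + 1)) :
    ∃ j : ℕ, j < n + 1 ∧ resB_md n (J + j) = i := by
  refine ⟨resB_md n (((i : ℕ) : ℤ) - J), (resB_md n _).2, Fin.ext ?_⟩
  have h1 := resB_md_val n (J + (resB_md n (((i : ℕ) : ℤ) - J) : ℕ))
  have h2 : (J + ((resB_md n (((i : ℕ) : ℤ) - J) : ℕ) : ℤ)) % ((n + 1 : ℕ) : ℤ) = (i : ℕ) := by
    rw [resB_md_val n (((i : ℕ) : ℤ) - J), Int.add_emod_emod, add_sub_cancel]
    exact Int.emod_eq_of_lt (by omega) (by have := i.2; omega)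
  exact_mod_cast h1.trans h2

theorem resB_md_ne (n : ℕ) (J : ℤ) {j : ℕ} (h0 : 0 < j) (h1 : j < n + 1) :
    resB_md n (J + j) ≠ resB_md n J := by
  intro h
  have h2 := Int.ModEq.dvd (resB_md_eq.1 h).symm
  rw [add_sub_cancel_left] at h2
  have h3 := Int.le_of_dvd (by omega) h2
  omega

theorem resB_md_small (n : ℕ) {J : ℤ} (h0 : 0 ≤ J) (h1 : J < ((n + 1 : ℕ) : ℤ)) :
    ((resB_md n J : ℕ) : ℤ) = J := by
  rw [resB_md_val, Int.emod_eq_of_lt h0 h1]

theorem resB_perZ {p : ℝ → ℝ} {c ε : ℝ} (hε : ε ≠ 0) (per : ∀ x, p (x + c) = ε * p x) (q : ℤ)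
    (x : ℝ) : p (x + q * c) = ε ^ q * p x := by
  induction q using Int.induction_on with
  | zero => simp
  | succ q ih =>
    have h : x + ((q : ℤ) + 1 : ℤ) * c = x + (q : ℤ) * c + c := by
      push_cast
      ring
    rw [h, per, ih, zpow_add_one₀ hε]
    ring
  | pred q ih =>
    have h : x + (-(q : ℤ) : ℤ) * c = x + (-(q : ℤ) - 1 : ℤ) * c + c := by
      push_cast
      ring
    rw [h, per] at ih
    refine mul_left_cancel₀ hε ?_
    rw [ih, zpow_sub_one₀ hε]
    field_simp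

theorem resB_br {n : ℕ} {p : ℝ → ℝ}
    (per : ∀ x, p (x + (n + 1 : ℕ) * π) = (-1) ^ (n + 1) * p x) (J : ℤ) (y : ℝ) :
    (-1 : ℝ) ^ J * br (n + 1) p (resB_md n J) y = p (y + J * π) := by
  have h1 : J = ((resB_md n J : ℕ) : ℤ) + ((n + 1 : ℕ) : ℤ) * (J / ((n + 1 : ℕ) : ℤ)) := by
    rw [resB_md_val, Int.emod_add_mul_ediv]
  generalize resB_md n J = j at h1
  generalize J / ((n + 1 : ℕ) : ℤ) = q at h1
  subst h1
  have h2 : y + ((((j : ℕ) : ℤ) + ((n + 1 : ℕ) : ℤ) * q : ℤ) : ℝ) * π =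
      y + (j : ℕ) * π + q * (((n + 1 : ℕ) : ℝ) * π) := by
    push_cast
    ring
  have h3 : ((-1 : ℝ) ^ (j : ℕ)) * (-1) ^ (j : ℕ) = 1 := by
    rw [← mul_pow]
    simp
  rw [h2, resB_perZ (pow_ne_zero _ (by norm_num)) per, zpow_add₀ (by norm_num), zpow_mul,
    zpow_natCast, zpow_natCast]
  unfold br
  linear_combination (((-1 : ℝ) ^ (n + 1)) ^ q * p (y + (j : ℕ) * π)) * h3

section nf

variable {ι : Type} {F : ι → ℝ → ℝ} {α : ℝ} {u : Equiv.Perm ι} {V : ℕ} {φ : ℕ → ℝ}
  {W : ℕ → Equiv.Perm ι}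

theorem resB_lt (hN : NF F α u V φ W) {k k' : ℕ} (h : k < k') (h' : k' ≤ V + 1) : φ k < φ k' := by
  induction k' with
  | zero => omega
  | succ k' ih =>
    rcases Nat.lt_succ_iff_lt_or_eq.1 h with h1 | rfl
    · exact (ih h1 (by omega)).trans (hN.mono k' (by omega))
    · exact hN.mono k (by omega)

theorem resB_le (hN : NF F α u V φ W) {k k' : ℕ} (h : k ≤ k') (h' : k' ≤ V + 1) : φ k ≤ φ k' := by
  rcases h.eq_or_lt with rfl | h1
  · exact le_rfl
  · exact (resB_lt hN h1 h').le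

theorem resB_K_first (hN : NF F α u V φ W) : resB_K φ V α = 0 := by
  by_contra h
  have h1 := resB_K_spec (φ := φ) V hN.first.le
  have h2 := resB_lt hN (Nat.pos_of_ne_zero h) ((resB_K_le φ V α).trans (Nat.le_succ V))
  rw [hN.first] at h2
  exact absurd h1 (not_le.2 h2)

theorem resB_K_last (hN : NF F α u V φ W) : resB_K φ V (α + π) = V :=
  le_antisymm (resB_K_le φ V _) (resB_le_K le_rfl ((hN.mono V le_rfl).le.trans hN.last.le))

/-- A wire is a continuous function. -/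
theorem resB_wire (hF : ∀ i, Continuous (F i)) (hN : NF F α u V φ W) (i : ι) :
    ∃ G : ℝ → ℝ, Continuous G ∧ ∀ r, α ≤ r → G r = F (W (resB_K φ V r) i) r := by
  refine ⟨fun r => F (W 0 i) r + ∑ k ∈ range V,
    (F (W (k + 1) i) (max r (φ (k + 1))) - F (W k i) (max r (φ (k + 1)))), ?_, fun r hr => ?_⟩
  · refine (hF _).add (continuous_finsetSum _ fun k _ => ?_)
    exact ((hF _).comp (continuous_id.max continuous_const)).sub
      ((hF _).comp (continuous_id.max continuous_const))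
  · have hK := resB_K_le φ V r
    have hs := resB_K_spec (φ := φ) V (hN.first.le.trans hr)
    have h1 : ∑ k ∈ range V,
        (F (W (k + 1) i) (max r (φ (k + 1))) - F (W k i) (max r (φ (k + 1)))) =
        ∑ k ∈ range (resB_K φ V r), (F (W (k + 1) i) r - F (W k i) r) := by
      rw [← Finset.sum_subset (Finset.range_mono hK)]
      · refine Finset.sum_congr rfl fun k hk => ?_
        have h2 := Finset.mem_range.1 hk
        rw [max_eq_left ((resB_le hN (show k + 1 ≤ resB_K φ V r from h2) (by omega)).trans hs)]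
      · intro k hk hk'
        have h2 := Finset.mem_range.1 hk
        have h3 : ¬ φ (k + 1) ≤ r := fun h =>
          hk' (Finset.mem_range.2 (resB_le_K (show k + 1 ≤ V from h2) h))
        rw [max_eq_right (not_le.1 h3).le, hN.val k h2 i, sub_self]
    beta_reduce
    rw [h1, Finset.sum_range_sub fun k => F (W k i) r]
    ring

/-- The position is constant between the break points. -/
theorem resB_fin (hN : NF F α u V φ W) (a b : ℝ) : ∃ X : Finset ℝ, ∀ x y, a ≤ x → x ≤ y → y ≤ b →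
    (∀ ξ ∈ X, ¬(x < ξ ∧ ξ ≤ y)) →
    resB_J α x = resB_J α y ∧ resB_K φ V (resB_R α x) = resB_K φ V (resB_R α y) := by
  classical
  refine ⟨(range (V + 1) ×ˢ Finset.Icc (resB_J α a) (resB_J α b)).image
    fun q => φ q.1 + q.2 * π, fun x y hx hxy hy hX => ?_⟩
  have hm : ∀ k ≤ V, φ k + resB_J α y * π ≤ y → φ k + resB_J α y * π ≤ x := by
    intro k hk h
    by_contra hn
    refine hX _ (Finset.mem_image.2 ⟨(k, resB_J α y), Finset.mem_product.2
      ⟨Finset.mem_range.2 (by omega), Finset.mem_Icc.2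
        ⟨resB_J_mono α (hx.trans hxy), resB_J_mono α hy⟩⟩, rfl⟩) ⟨not_le.1 hn, h⟩
  have hJ : resB_J α x = resB_J α y := by
    refine le_antisymm (resB_J_mono α hxy) ((resB_le_J α x _).2 ?_)
    have h1 := hm 0 (Nat.zero_le V) (by rw [hN.first]; exact (resB_le_J α y _).1 le_rfl)
    rwa [hN.first] at h1
  refine ⟨hJ, le_antisymm (resB_K_mono V (hN.first.le.trans (resB_R_ge α x)) ?_)
    (resB_le_K (resB_K_le φ V _) ?_)⟩
  · unfold resB_R
    rw [hJ]
    linarith
  · have h1 := resB_K_spec (φ := φ) V (hN.first.le.trans (resB_R_ge α y))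
    have h2 := hm _ (resB_K_le φ V (resB_R α y)) (by
      have h3 : resB_R α y = y - resB_J α y * π := rfl
      linarith)
    have h4 : resB_R α x = x - resB_J α y * π := by rw [← hJ]; rfl
    linarith

end nf

/-- The order of the positions in the base window. -/
theorem resB_order (n : ℕ) {φ : ℕ → ℝ} (V : ℕ) {α x y : ℝ} (h0 : φ 0 = α) (hx : α ≤ x)
    (hxy : x ≤ y) (hy : y < α + (n + 1 : ℕ) * π) :
    resB_md n (resB_J α x) < resB_md n (resB_J α y) ∨
      resB_md n (resB_J α x) = resB_md n (resB_J α y) ∧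
        resB_K φ V (resB_R α x) ≤ resB_K φ V (resB_R α y) := by
  have h1 : 0 ≤ resB_J α x := (resB_le_J α x 0).2 (by simpa using hx)
  have h2 := resB_J_mono α hxy
  have h3 : resB_J α y < ((n + 1 : ℕ) : ℤ) := by
    by_contra h
    have h4 := (resB_le_J α y _).1 (not_lt.1 h)
    rw [Int.cast_natCast] at h4
    exact absurd hy (not_lt.2 h4)
  rcases h2.eq_or_lt with h4 | h4
  · refine Or.inr ⟨by rw [h4], resB_K_mono V (h0.le.trans (resB_R_ge α x)) ?_⟩
    unfold resB_R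
    rw [h4]
    linarith
  · refine Or.inl (Fin.lt_def.2 ?_)
    have a1 := resB_md_small n h1 (h4.trans h3)
    have a2 := resB_md_small n (h1.trans h2) h3
    omega

/-- From the base window to all windows. -/
theorem resB_nc {β : Type} {c : ℝ → β} {α P : ℝ} (hP : 0 < P) (per : ∀ x, c (x + P) = c x)
    (base : ∀ y₁ y₂ y₃ y₄, α ≤ y₁ → y₁ ≤ y₂ → y₂ ≤ y₃ → y₃ ≤ y₄ → y₄ < α + P → c y₁ = c y₃ →
      c y₂ = c y₄ → c y₁ = c y₂) {x₁ x₂ x₃ x₄ : ℝ} (h1 : x₁ < x₂) (h2 : x₂ < x₃) (h3 : x₃ < x₄)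
    (h4 : x₄ < x₁ + P) (e1 : c x₁ = c x₃) (e2 : c x₂ = c x₄) : c x₁ = c x₂ := by
  have hper : Function.Periodic c P := per
  have key : ∀ y₁ y₂ y₃ y₄, α ≤ y₁ → y₁ < α + P → y₁ < y₂ → y₂ < y₃ → y₃ < y₄ → y₄ < y₁ + P →
      c y₁ = c y₃ → c y₂ = c y₄ → c y₁ = c y₂ := by
    intro y₁ y₂ y₃ y₄ a0 a1 b1 b2 b3 b4 f1 f2
    by_cases c4 : y₄ < α + P
    · exact base y₁ y₂ y₃ y₄ a0 b1.le b2.le b3.le c4 f1 f2
    by_cases c3 : y₃ < α + P
    · have h := base (y₄ - P) y₁ y₂ y₃ (by linarith) (by linarith) b1.le b2.le c3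
        (by rw [hper.sub_eq]; exact f2.symm) f1
      rw [hper.sub_eq] at h
      exact h.symm.trans f2.symm
    by_cases c2 : y₂ < α + P
    · have h := base (y₃ - P) (y₄ - P) y₁ y₂ (by linarith) (by linarith) (by linarith) b1.le c2
        (by rw [hper.sub_eq]; exact f1.symm) (by rw [hper.sub_eq]; exact f2.symm)
      rw [hper.sub_eq, hper.sub_eq] at h
      exact f1.trans (h.trans f2.symm)
    · have h := base (y₂ - P) (y₃ - P) (y₄ - P) y₁ (by linarith) (by linarith) (by linarith)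
        (by linarith) a1 (by rw [hper.sub_eq, hper.sub_eq]; exact f2)
        (by rw [hper.sub_eq]; exact f1.symm)
      rw [hper.sub_eq, hper.sub_eq] at h
      exact f1.trans h.symm
  obtain ⟨q, hq, -⟩ := existsUnique_sub_zsmul_mem_Ico hP x₁ α
  have h := key (x₁ - q • P) (x₂ - q • P) (x₃ - q • P) (x₄ - q • P) hq.1 hq.2 (by linarith)
    (by linarith) (by linarith) (by linarith)
    (by rw [hper.sub_zsmul_eq, hper.sub_zsmul_eq]; exact e1)
    (by rw [hper.sub_zsmul_eq, hper.sub_zsmul_eq]; exact e2)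
  rwa [hper.sub_zsmul_eq, hper.sub_zsmul_eq] at h

/-- Transport of the labels. -/
theorem resB_tr {N m : ℕ} (Φ : Finset (Fin N)) (hc : Φ.card = m) :
    ∃ (e : Fin m → Fin N) (T : Fin N → Option (Fin m)), (∀ Δ, e Δ ∈ Φ) ∧
      (∀ i Δ, T i = some Δ ↔ i = e Δ) ∧ (∀ i, i ∉ Φ → T i = none) ∧
      ∀ i i', T i = T i' ↔
        (if i ∈ Φ then some i else none) = (if i' ∈ Φ then some i' else none) := by
  let e := Finset.equivFinOfCardEq hc
  refine ⟨fun Δ => (e.symm Δ).1, fun i => if h : i ∈ Φ then some (e ⟨i, h⟩) else none,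
    fun Δ => (e.symm Δ).2, fun i Δ => ?_, fun i hi => dif_neg hi, fun i i' => ?_⟩
  · beta_reduce
    constructor
    · intro h
      by_cases hi : i ∈ Φ
      · rw [dif_pos hi] at h
        rw [← Option.some.inj h, Equiv.symm_apply_apply]
      · rw [dif_neg hi] at h
        cases h
    · rintro rfl
      rw [dif_pos (e.symm Δ).2]
      simp
  · by_cases hi : i ∈ Φ <;> by_cases hi' : i' ∈ Φ <;> simp [hi, hi']

theorem res_build {n : ℕ} (hn : 2 ≤ n) {p : ℝ → ℝ} (hp : Continuous p)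
    (per : ∀ x, p (x + (n + 1 : ℕ) * π) = (-1) ^ (n + 1) * p x) (H : Simple (br (n + 1) p))
    (hC : Cnt (br (n + 1) p)) {α : ℝ} (hG : Good (br (n + 1) p) (finRotate (n + 1)) α) :
    ∃ cl g, Res (n + 1) p cl g := by
  have hF : ∀ i, Continuous (br (n + 1) p i) := br_cont hp
  have hs : ∀ i φ, br (n + 1) p i (φ + π) = -br (n + 1) p (finRotate (n + 1) i) φ := br_shift per
  obtain ⟨a, ha, ha'⟩ := (Set.Icc_infinite (zero_lt_one' ℝ)).exists_notMem_finite
    (H.finite hF 0 1)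
  have h1 : Function.Injective fun i => br (n + 1) p i a := by
    by_contra h
    exact ha' ⟨ha, h⟩
  have h2 : Function.Injective fun i => br (n + 1) p i (a + π) := by
    intro i j hij
    simp only [hs] at hij
    exact (finRotate (n + 1)).injective (h1 (neg_injective hij))
  obtain ⟨u, hu, hcard⟩ := hG.base hs a
  obtain ⟨V, φ, W, hN⟩ := exists_nf hF H h1 h2 hu
  rw [Fintype.card_fin] at hcard
  obtain ⟨Φ, hΦ, hc⟩ := Finset.exists_subset_card_eq
    (s := univ.filter fun i => finRotate (n + 1) (u i) = i) (n := n + 1 - 2) (by omega)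
  have hfix : ∀ i ∈ Φ, finRotate (n + 1) (u i) = i := fun i hi => (Finset.mem_filter.1 (hΦ hi)).2
  obtain ⟨e, T, he, hT, hT0, hTT⟩ := resB_tr Φ hc
  have hJ : ∀ (x : ℝ) (j : ℕ), resB_J a (x + j * π) = resB_J a x + j := fun x j => by
    have h := resB_J_add a x j
    rwa [Int.cast_natCast] at h
  have hR : ∀ (x : ℝ) (j : ℕ), resB_R a (x + j * π) = resB_R a x := fun x j => by
    have h := resB_R_add a x j
    rwa [Int.cast_natCast] at h
  have hper : ∀ x : ℝ, T ((W (resB_K φ V (resB_R a (x + (n + 1 : ℕ) * π))))⁻¹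
      (resB_md n (resB_J a (x + (n + 1 : ℕ) * π)))) =
      T ((W (resB_K φ V (resB_R a x)))⁻¹ (resB_md n (resB_J a x))) := fun x => by
    rw [hJ, hR, resB_md_add]
  refine ⟨fun x => T ((W (resB_K φ V (resB_R a x)))⁻¹ (resB_md n (resB_J a x))),
    fun Δ x => (-1 : ℝ) ^ resB_J a x *
      br (n + 1) p (W (resB_K φ V (resB_R a x)) (e Δ)) (resB_R a x),
    hper, fun b b' => ?_, fun x v => ?_, fun x Δ j j0 j1 hx hx' => ?_, fun Δ => ?_,
    fun Δ x => ?_, fun x Δ hx => ?_, fun x₁ x₂ x₃ x₄ a1 a2 a3 a4 e1 e2 => ?_⟩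
  · obtain ⟨X, hX⟩ := resB_fin hN b b'
    refine ⟨X, fun x y c1 c2 c3 c4 => ?_⟩
    obtain ⟨d1, d2⟩ := hX x y c1 c2 c3 c4
    rw [d1, d2]
  · obtain ⟨i, hi⟩ : ∃ i, T i = v := by
      cases v with
      | none =>
        obtain ⟨i, -, hi⟩ := Finset.exists_mem_notMem_of_card_lt_card (s := Φ) (t := univ)
          (by rw [hc, Finset.card_univ, Fintype.card_fin]; omega)
        exact ⟨i, hT0 i hi⟩
      | some Δ => exact ⟨e Δ, (hT _ _).2 rfl⟩
    obtain ⟨j, hj, hj'⟩ := resB_md_surj n (resB_J a x) (W (resB_K φ V (resB_R a x)) i)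
    refine ⟨j, hj, ?_⟩
    rw [hJ, hR, hj', ← hi]
    exact congrArg T ((W (resB_K φ V (resB_R a x))).symm_apply_apply i)
  · beta_reduce at hx hx'
    rw [hJ, hR] at hx'
    exact resB_md_ne n (resB_J a x) j0 j1
      ((W (resB_K φ V (resB_R a x)))⁻¹.injective (((hT _ _).1 hx').trans ((hT _ _).1 hx).symm))
  · obtain ⟨G, hGc, hG'⟩ := resB_wire hF hN (e Δ)
    have hend : G (a + π) = -G a := by
      rw [hG' a le_rfl, hG' (a + π) (by linarith [Real.pi_pos]), resB_K_first hN, resB_K_last hN,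
        hN.w0, hN.wV, hs, hfix _ (he Δ)]
      rfl
    refine (resB_ext_cont hGc hend).congr fun x => ?_
    rw [hG' _ (resB_R_ge a x)]
  · have d1 := hJ x 1
    have d2 := hR x 1
    rw [Nat.cast_one, one_mul] at d1 d2
    rw [d1, d2, Nat.cast_one, zpow_add_one₀ (by norm_num)]
    ring
  · have d1 : W (resB_K φ V (resB_R a x)) (e Δ) = resB_md n (resB_J a x) := by
      rw [← (hT _ _).1 hx]
      exact (W (resB_K φ V (resB_R a x))).apply_symm_apply _
    rw [d1, resB_br per]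
    congr 1
    unfold resB_R
    ring
  · refine resB_nc (c := fun x => T ((W (resB_K φ V (resB_R a x)))⁻¹ (resB_md n (resB_J a x))))
      (α := a) (P := (n + 1 : ℕ) * π) (by have := Real.pi_pos; positivity) hper
      (fun y₁ y₂ y₃ y₄ b0 b1 b2 b3 b4 f1 f2 => ?_) a1 a2 a3 a4 e1 e2
    exact (hTT _ _).2 (lab_nc hF hs H hC h1 hN hfix (by omega) (resB_K_le φ V _) (resB_K_le φ V _)
      (resB_K_le φ V _) (resB_K_le φ V _)
      (resB_order n V hN.first b0 b1 (by linarith))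
      (resB_order n V hN.first (by linarith) b2 (by linarith))
      (resB_order n V hN.first (by linarith) b3 b4) ((hTT _ _).1 f1) ((hTT _ _).1 f2))

end Pool.Agent.P.MP_c09211_an.Sh.GL
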