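import Pool.Agent.P.MP_c09211_an.GL.GenQ

/-!
Rigidity in the bound for the second coefficient (paper: G, RG).
-/

set_option autoImplicit false

namespace Pool.Agent.P.MP_c09211_an.Sh.GL

open Metric Set Finset PowerSeries Complex Filter Topology Real MeasureTheory
open scoped ComplexConjugate

theorem rigA_pol {H : ℂ → ℝ} (hH : ContinuousOn H (ball 0 1)) (H0 : ∀ z, 0 ≤ H z) {ρ m : ℝ}
    (ρ0 : 0 < ρ) (m0 : 0 ≤ m) (hm : ∀ r ∈ Set.Ioo ρ 1, m ≤ circleAverage H 0 r) :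
    ENNReal.ofReal (2 * π * (m * (1 - ρ))) ≤
      ∫⁻ z in ball (0 : ℂ) 1 \ closedBall 0 ρ, ENNReal.ofReal (H z / ‖z‖ ^ 2) := by
  have hp : 0 < 2 * π := Real.two_pi_pos
  have hA : MeasurableSet (ball (0 : ℂ) 1 \ closedBall 0 ρ) :=
    measurableSet_ball.diff measurableSet_closedBall
  have hB : MeasurableSet (Set.Ioo ρ 1 ×ˢ Set.Ioo (-π) π) :=
    measurableSet_Ioo.prod measurableSet_Ioo
  have hc : ContinuousOn (fun p : ℝ × ℝ => H (circleMap 0 p.1 p.2) / p.1)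
      (Set.Ioo ρ 1 ×ˢ Set.Ioo (-π) π) :=
    (hH.comp circleMap.continuous.continuousOn fun p hp' => by
      simpa [abs_of_pos (ρ0.trans hp'.1.1)] using hp'.1.2).div continuousOn_fst
      fun p hp' => (ρ0.trans hp'.1.1).ne'
  have h0 := (hc.aemeasurable (μ := volume) hB).ennreal_ofReal
  rw [Measure.volume_eq_prod, ← Measure.prod_restrict] at h0
  calc ENNReal.ofReal (2 * π * (m * (1 - ρ)))
      = ∫⁻ _ in Set.Ioo ρ 1, ENNReal.ofReal (2 * π) * ENNReal.ofReal m := by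
        rw [setLIntegral_const, Real.volume_Ioo, ENNReal.ofReal_mul hp.le, ENNReal.ofReal_mul m0,
          mul_assoc]
    _ ≤ ∫⁻ r in Set.Ioo ρ 1, ∫⁻ θ in Set.Ioo (-π) π, ENNReal.ofReal (H (circleMap 0 r θ) / r) := by
        refine setLIntegral_mono' measurableSet_Ioo fun r hr =>
          le_trans ?_ (area_avg H0 (ρ0.trans hr.1))
        gcongr
        exact (ENNReal.ofReal_le_ofReal ((hm r hr).trans (le_div_self (m0.trans (hm r hr))
          (ρ0.trans hr.1) hr.2.le))).trans (Real.ofReal_le_enorm _)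
    _ = ∫⁻ p in Set.Ioo ρ 1 ×ˢ Set.Ioo (-π) π,
          ENNReal.ofReal (H (circleMap 0 p.1 p.2) / p.1) := by
        rw [Measure.volume_eq_prod, ← Measure.prod_restrict, lintegral_prod _ h0]
    _ = ∫⁻ p in Set.Ioo ρ 1 ×ˢ Set.Ioo (-π) π, ENNReal.ofReal p.1 •
          (ball (0 : ℂ) 1 \ closedBall 0 ρ).indicator (fun z => ENNReal.ofReal (H z / ‖z‖ ^ 2))
            (Complex.polarCoord.symm p) := by
        refine setLIntegral_congr_fun hB fun p hp' => ?_
        have h1 : 0 < p.1 := ρ0.trans hp'.1.1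
        have h2 : ‖Complex.polarCoord.symm p‖ = p.1 := by
          rw [Complex.norm_polarCoord_symm, abs_of_pos h1]
        have h3 : Complex.polarCoord.symm p = circleMap 0 p.1 p.2 := by
          rw [Complex.polarCoord_symm_apply, circleMap, zero_add, exp_mul_I]
          push_cast
          rfl
        have h4 : Complex.polarCoord.symm p ∈ ball (0 : ℂ) 1 \ closedBall 0 ρ := by
          rw [Set.mem_sdiff, mem_ball_zero_iff, mem_closedBall_zero_iff, h2]
          exact ⟨hp'.1.2, not_le.mpr hp'.1.1⟩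
        rw [indicator_of_mem h4, h2, h3, smul_eq_mul, ← ENNReal.ofReal_mul h1.le]
        congr 1
        field_simp
    _ ≤ ∫⁻ p in polarCoord.target, ENNReal.ofReal p.1 •
          (ball (0 : ℂ) 1 \ closedBall 0 ρ).indicator (fun z => ENNReal.ofReal (H z / ‖z‖ ^ 2))
            (Complex.polarCoord.symm p) :=
        lintegral_mono_set (prod_mono (fun r hr => ρ0.trans hr.1) Subset.rfl)
    _ = _ := by rw [Complex.lintegral_comp_polarCoord_symm, lintegral_indicator hA]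

/-- The inequality of Bessel. -/
theorem rigA_bessel {K : ℂ → ℂ} (hK : DifferentiableOn ℂ K (ball 0 1)) {r : ℝ} (r0 : 0 < r)
    (r1 : r < 1) (N : ℕ) : ∑ k ∈ range N, (‖coeff k (tay K)‖ * r ^ k) ^ 2 ≤
      circleAverage (fun z => ‖K z‖ ^ 2) 0 r := by
  have nr : ‖(r : ℂ)‖ = r := by rw [norm_real, Real.norm_eq_abs, abs_of_pos r0]
  have hd : DifferentiableOn ℂ (fun z => K (r * z)) (closedBall 0 1) :=
    hK.comp (by fun_prop) fun z hz => by
      rw [mem_ball_zero_iff, norm_mul, nr]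
      exact mul_lt_one_of_nonneg_of_lt_one_left r0.le r1 (mem_closedBall_zero_iff.mp hz)
  have h1 := avg_conj hd N fun k => conj (coeff k (tay fun z => K (r * z)))
  have hc := continuous_circleMap 0 1
  have hc' : Continuous fun θ => ‖K (r * circleMap 0 1 θ)‖ ^ 2 := (circ_cont hd).norm.pow 2
  simp only [conj_conj, mul_conj, normSq_eq_norm_sq] at h1
  have h2 := intervalIntegral.norm_integral_le_of_norm_le (μ := volume)
    (f := fun θ => K (r * circleMap 0 1 θ) *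
      conj (∑ k ∈ range N, coeff k (tay fun z => K (r * z)) * circleMap 0 1 θ ^ k))
    (g := fun θ => 1 / 2 * (‖K (r * circleMap 0 1 θ)‖ ^ 2 +
      ‖∑ k ∈ range N, coeff k (tay fun z => K (r * z)) * circleMap 0 1 θ ^ k‖ ^ 2))
    Real.two_pi_pos.le (Eventually.of_forall fun θ _ => by
      rw [norm_mul, norm_conj]
      linarith [two_mul_le_add_sq ‖K (r * circleMap 0 1 θ)‖
        ‖∑ k ∈ range N, coeff k (tay fun z => K (r * z)) * circleMap 0 1 θ ^ k‖])
    ((continuous_const.mul (hc'.add (by fun_prop))).intervalIntegrable _ _)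
  rw [h1, intervalIntegral.integral_const_mul, intervalIntegral.integral_add
    (hc'.intervalIntegrable _ _)
    (Continuous.intervalIntegrable (by fun_prop) _ _), parseval, ← ofReal_sum, norm_mul,
    norm_real, Real.norm_of_nonneg (sum_nonneg fun _ _ => sq_nonneg _),
    tay_scale (hK.analyticAt (ball_mem_nhds _ one_pos))] at h2
  simp only [norm_mul, norm_real, Real.norm_eq_abs, abs_of_pos Real.pi_pos, Complex.norm_ofNat,
    coeff_rescale, norm_pow, abs_of_pos r0, mul_comm (r ^ _)] at h2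
  rw [circleAverage_eq_circleAverage_zero_one, circleAverage_def, smul_eq_mul,
    le_inv_mul_iff₀ Real.two_pi_pos]
  simp only [add_zero]
  linarith

theorem rigA_root {F : ℂ → ℂ} (hF : Sr 1 F) : ∃ G : ℂ → ℂ, DifferentiableOn ℂ G (ball 0 1) ∧
    G 0 = 1 ∧ ∀ z ∈ ball (0 : ℂ) 1, F z * G z ^ 2 = z := by
  have m0 : (0 : ℂ) ∈ ball (0 : ℂ) 1 := mem_ball_self one_pos
  have h1 : ∀ z, F z = z * dslope F 0 z := fun z => by
    simpa [hF.2.2.1] using (sub_smul_dslope F 0 z).symm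
  have h2 : dslope F 0 0 = 1 := by rw [dslope_same, hF.2.2.2.1]
  have h3 : ∀ z ∈ ball (0 : ℂ) 1, dslope F 0 z ≠ 0 := fun z hz h => by
    have h4 : z = 0 := hF.2.1 hz m0 (by rw [h1 z, h, mul_zero, hF.2.2.1])
    rw [h4, h2] at h
    exact one_ne_zero h
  obtain ⟨s, hs, hs'⟩ := exists_sqrt
    ((Complex.differentiableOn_dslope (ball_mem_nhds _ one_pos)).mpr hF.1) h3
  have h4 : ∀ z ∈ ball (0 : ℂ) 1, s z ≠ 0 := fun z hz h => h3 z hz (by rw [← hs', h]; simp)
  refine ⟨fun z => s 0 / s z, (differentiableOn_const _).div hs h4, div_self (h4 0 m0), fun z hz => ?_⟩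
  rw [div_pow, hs', hs', h2, h1 z, mul_one_div, mul_div_cancel_right₀ _ (h3 z hz)]

variable {F G : ℂ → ℂ}

theorem rigA_b1 (hF : Sr 1 F) (hG : DifferentiableOn ℂ G (ball 0 1)) (G0 : G 0 = 1)
    (h : ∀ z ∈ ball (0 : ℂ) 1, F z * G z ^ 2 = z) :
    coeff 2 (tay F) = -(2 * coeff 1 (tay G)) := by
  have aG : AnalyticAt ℂ G 0 := hG.analyticAt (ball_mem_nhds _ one_pos)
  have h1 := tay_congr (f := fun z => F z * G z ^ 2) (g := fun z => z)
    (eventually_of_mem (ball_mem_nhds _ one_pos) h)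
  rw [tay_mul (hF.an one_pos) (aG.fun_pow 2), tay_pow aG, tay_id] at h1
  have h2 := congrArg (coeff 2) h1
  simp only [sq, coeff_mul, Finset.Nat.sum_antidiagonal_eq_sum_range_succ_mk, sum_range_succ,
    coeff_X] at h2
  simp [tay_coeff_zero, G0, hF.2.2.1, tay_coeff_one F, hF.2.2.2.1] at h2
  linear_combination h2

theorem rigA_coeff (hG : DifferentiableOn ℂ G (ball 0 1)) (k : ℕ) :
    coeff k (tay fun z => G z + -2 * (z * deriv G z)) = (1 - 2 * k) * coeff k (tay G) := by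
  have aG : AnalyticAt ℂ G 0 := hG.analyticAt (ball_mem_nhds _ one_pos)
  have aD := aG.deriv
  have h1 : tay (deriv G) = d⁄dX ℂ (tay G) := by
    ext n
    simp only [tay, coeff_mk, coeff_derivative, iteratedDeriv_succ', Nat.factorial_succ]
    have : (n.factorial : ℂ) ≠ 0 := by exact_mod_cast n.factorial_ne_zero
    have : (n : ℂ) + 1 ≠ 0 := by exact_mod_cast n.succ_ne_zero
    push_cast
    field_simp
  have h2 := coeff_th (tay G) k
  rw [tay_add aG (by fun_prop), tay_cmul _ (by fun_prop), tay_mul (f := fun z => z) (by fun_prop) aD,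
    tay_id, h1, map_add, coeff_C_mul]
  rw [th] at h2
  rw [h2]
  ring

theorem rigA_area (hF : Sr 1 F) (hG : DifferentiableOn ℂ G (ball 0 1))
    (h : ∀ z ∈ ball (0 : ℂ) 1, F z * G z ^ 2 = z) {ρ : ℝ} (ρ0 : 0 < ρ) (ρ1 : ρ < 1) (N : ℕ) :
    (∑ k ∈ range N, ((1 - 2 * (k : ℝ)) * (‖coeff k (tay G)‖ * ρ ^ k)) ^ 2) * (1 - ρ) ≤
      2 / ρ - ‖coeff 2 (tay F)‖ := by
  have hp : 0 < 2 * π := Real.two_pi_pos
  have hK : DifferentiableOn ℂ (fun z => G z + -2 * (z * deriv G z)) (ball 0 1) :=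
    hG.add ((differentiableOn_id.mul (hG.deriv isOpen_ball)).const_mul _)
  have oA : IsOpen (ball (0 : ℂ) 1 \ closedBall 0 ρ) := isOpen_ball.sdiff isClosed_closedBall
  have l1 : Lam 2 (fun _ => 1) (tay F) = coeff 2 (tay F) * 2 := by
    rw [om_Lam_one 1]
    norm_num
  have l2 : lc 2 (fun _ => 1) F 2 = 2 := by
    rw [lc, om_Lam_one 1]
    simp [sq, coeff_mul, Finset.Nat.sum_antidiagonal_eq_sum_range_succ_mk, sum_range_succ,
      tay_coeff_zero, hF.2.2.1, tay_coeff_one F, hF.2.2.2.1, one_add_one_eq_two]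
  have l3 := pair_scaled hF one_pos le_rfl om_schur_one (J := 2) one_le_two
  have key := (lintegral_mono_set (s := F '' (ball (0 : ℂ) 1 \ closedBall 0 ρ)) (by
    rintro _ ⟨z, hz, rfl⟩ ⟨w, hw, e⟩
    exact hz.2 (hF.2.1 (closedBall_subset_ball ρ1 hw) hz.1 e ▸ hw))).trans
    (gq_area hF om_schur_one (J := 2) one_le_two ρ0 ρ1)
  rw [lintegral_image_eq_lintegral_abs_det_fderiv_mul volume oA.measurableSet
    (f' := fun z => (ContinuousLinearMap.toSpanSingleton ℂ (deriv F z)).restrictScalars ℝ)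
    (fun z hz => ((hF.1.hasDerivAt (isOpen_ball.mem_nhds hz.1)).hasFDerivAt.restrictScalars
      ℝ).hasFDerivWithinAt) (hF.2.1.mono sdiff_subset)] at key
  have k2 := (rigA_pol (H := fun z => 2 * ‖G z + -2 * (z * deriv G z)‖ ^ 2)
    (m := 2 * ∑ k ∈ range N, ((1 - 2 * (k : ℝ)) * (‖coeff k (tay G)‖ * ρ ^ k)) ^ 2)
    ((hK.continuousOn.norm.pow 2).const_smul (2 : ℝ)) (fun z => by positivity) ρ0
    (by positivity) fun r hr => ?_).trans
    ((setLIntegral_mono' oA.measurableSet fun z hz => ?_).trans key)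
  · rw [l1, norm_mul, Complex.norm_ofNat] at k2 l3
    have h1 : 2 ≤ 2 / ρ := le_div_self two_pos.le ρ0 ρ1.le
    have h2 : ((2 : ℕ) : ℝ) ^ 2 / ρ ^ (2 - 1) = 2 * (2 / ρ) := by
      norm_num
      ring
    rw [h2] at k2
    norm_num at l3
    have h3 := le_of_mul_le_mul_left
      ((ENNReal.ofReal_le_ofReal_iff (mul_nonneg hp.le (by linarith))).mp k2) hp
    linarith
  · refine le_trans ?_ ((mul_le_mul_of_nonneg_left (rigA_bessel hK (ρ0.trans hr.1) hr.2 N)
      two_pos.le).trans_eq (circleAverage_fun_smul (a := (2 : ℝ))).symm)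
    refine mul_le_mul_of_nonneg_left (sum_le_sum fun k _ => ?_) two_pos.le
    have h1 : ‖(1 - 2 * k : ℂ)‖ = |1 - 2 * (k : ℝ)| := by
      rw [← Real.norm_eq_abs, ← norm_real]
      push_cast
      rfl
    rw [rigA_coeff hG, norm_mul, h1, mul_assoc, mul_pow, mul_pow |_|, sq_abs]
    have := hr.1.le
    gcongr
  · have z0 : 0 < ‖z‖ := ρ0.trans (not_le.mp (mem_closedBall_zero_iff.not.mp hz.2))
    have z1 := mem_ball_zero_iff.mp hz.1
    have hn := isOpen_ball.mem_nhds hz.1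
    have h1 := h z hz.1
    have h2 : deriv F z * G z ^ 2 + F z * (2 * G z * deriv G z) = 1 := by
      refine HasDerivAt.unique ?_ ((hasDerivAt_id' z).congr_of_eventuallyEq
        (eventually_of_mem hn h))
      simpa using (hF.1.hasDerivAt hn).fun_mul ((hG.hasDerivAt hn).fun_pow 2)
    have h3 : G z + -2 * (z * deriv G z) = deriv F z * G z ^ 3 := by
      linear_combination 2 * deriv G z * h1 - G z * h2
    have h4 : ‖z‖ = ‖F z‖ * ‖G z‖ ^ 2 := by rw [← norm_pow, ← norm_mul, h1]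
    have h5 : ‖F z‖ ≠ 0 := left_ne_zero_of_mul (h4 ▸ z0.ne')
    have h6 : ‖G z‖ ^ 2 ≠ 0 := right_ne_zero_of_mul (h4 ▸ z0.ne')
    have h7 : ‖G z‖ ≠ 0 := fun e => h6 (by rw [e]; simp)
    rw [area_det, Qd, Finset.Icc_self, sum_singleton, l2, ← ofReal_norm,
      abs_of_nonneg (sq_nonneg _), ← ENNReal.ofReal_mul (sq_nonneg _), h3]
    refine ENNReal.ofReal_le_ofReal ((le_div_self (by positivity) z0 z1.le).trans_eq ?_)
    rw [norm_mul, norm_div, norm_pow, norm_pow, Complex.norm_ofNat, h4]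
    field_simp

theorem rigA_num {t b S : ℝ} (t0 : 0 < t) (t1 : t ≤ 1 / 2) (hb : 1 - t ^ 2 / 2 ≤ b)
    (h : (S + (b * (1 - t)) ^ 2 + 1) * t ≤ 2 / (1 - t) - 2 * b) : S ≤ 7 * t := by
  have h1 : 2 / (1 - t) ≤ 2 + 2 * t + 4 * t ^ 2 := by
    rw [div_le_iff₀ (by linarith)]
    nlinarith [mul_pos t0 t0]
  have h2 : (1 - t ^ 2 / 2) * (1 - t) ≤ b * (1 - t) := by gcongr; linarith
  have h3 : 1 - 2 * t ≤ (b * (1 - t)) ^ 2 := by
    refine le_trans ?_ (pow_le_pow_left₀ (mul_nonneg (by nlinarith) (by linarith)) h2 2)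
    have h4 : 1 - t ^ 2 ≤ (1 - t ^ 2 / 2) ^ 2 := by nlinarith [sq_nonneg (t ^ 2)]
    rw [mul_pow]
    refine le_trans ?_ (mul_le_mul_of_nonneg_right h4 (sq_nonneg _))
    nlinarith [mul_pos (pow_pos t0 3) (show 0 < 2 - t by linarith)]
  refine le_of_mul_le_mul_right ?_ t0
  nlinarith [mul_le_mul_of_nonneg_right h3 t0.le]

theorem rigA_amgm {q : ℝ} (q0 : 0 < q) (x : ℕ → ℝ) (N : ℕ) : ∑ k ∈ range N, x k ≤
    (∑ k ∈ range N, ((1 - 2 * ((k + 1 + 1 : ℕ) : ℝ)) * x k) ^ 2) / (8 * q) + q / 2 := by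
  have h1 := sum_range_sub' (fun k : ℕ => q / 2 / (k + 1)) N
  have h2 : 0 ≤ q / 2 / (N + 1) := by positivity
  simp only [Nat.cast_zero, zero_add, div_one] at h1
  refine le_trans ?_ (add_le_add_right (h1.le.trans (sub_le_self _ h2)) _)
  rw [sum_div, ← sum_add_distrib]
  refine sum_le_sum fun k _ => ?_
  have h3 : (0 : ℝ) ≤ k := k.cast_nonneg
  have h4 : 2 * q / (2 * k + 3) ^ 2 ≤ q / 2 / (k + 1) - q / 2 / ((k + 1 : ℕ) + 1) := by
    push_cast
    rw [div_sub_div _ _ (by positivity) (by positivity), div_le_div_iff₀ (by positivity)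
      (by positivity)]
    nlinarith
  refine le_trans ?_ (add_le_add_right h4 _)
  have h5 : ((1 - 2 * ((k + 1 + 1 : ℕ) : ℝ)) * x k) ^ 2 / (8 * q) + 2 * q / (2 * k + 3) ^ 2 - x k =
      ((2 * k + 3) ^ 2 * x k - 4 * q) ^ 2 / (8 * q * (2 * k + 3) ^ 2) := by
    push_cast
    field_simp
    ring
  rw [← sub_nonneg, h5]
  positivity

theorem rigid2 {F : ℂ → ℂ} (hF : Sr 1 F) {e : ℝ} (e0 : 0 < e) (e1 : e ≤ 1 / 4)
    (h : ‖coeff 2 (tay F) - 2‖ ≤ e) {ζ : ℂ} (hζ : ‖ζ‖ ≤ 1 - √e) :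
    ∃ G : ℂ, F ζ * G ^ 2 = ζ ∧ ‖G - (1 - ζ)‖ ≤ 2 * √(√e) := by
  obtain ⟨G, hG, G0, hFG⟩ := rigA_root hF
  obtain ⟨q, q0, rfl⟩ : ∃ q : ℝ, 0 < q ∧ e = (q ^ 2) ^ 2 :=
    ⟨√(√e), by positivity, by rw [Real.sq_sqrt (Real.sqrt_nonneg _), Real.sq_sqrt e0.le]⟩
  rw [Real.sqrt_sq (sq_nonneg q)] at hζ ⊢
  rw [Real.sqrt_sq q0.le]
  have t0 : 0 < q ^ 2 := by positivity
  have t1 : q ^ 2 ≤ 1 / 2 := by nlinarith
  have hz : ζ ∈ ball (0 : ℂ) 1 := mem_ball_zero_iff.mpr (by linarith)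
  refine ⟨G ζ, hFG ζ hz, ?_⟩
  have b0 : coeff 0 (tay G) = 1 := by rw [tay_coeff_zero, G0]
  have b1 := rigA_b1 hF hG G0 hFG
  have b2 : ‖coeff 1 (tay G) + 1‖ ≤ (q ^ 2) ^ 2 / 2 := by
    rw [b1, show -(2 * coeff 1 (tay G)) - 2 = -(2 * (coeff 1 (tay G) + 1)) by ring, norm_neg,
      norm_mul, Complex.norm_ofNat] at h
    linarith
  have b3 : 1 - (q ^ 2) ^ 2 / 2 ≤ ‖coeff 1 (tay G)‖ := by
    have := norm_sub_le (coeff 1 (tay G) + 1) (coeff 1 (tay G))
    rw [add_sub_cancel_left, norm_one] at this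
    linarith
  have hs : HasSum (fun n => coeff n (tay G) * ζ ^ n) (G ζ) :=
    (Complex.hasSum_taylorSeries_on_ball hG hz).congr_fun fun n => by
      simp only [tay, coeff_mk, sub_zero, smul_eq_mul]
      ring
  refine le_of_tendsto' ((hs.tendsto_sum_nat.comp (tendsto_add_atTop_nat 2)).sub_const
    (1 - ζ)).norm fun N => ?_
  have h1 := rigA_area hF hG hFG (ρ := 1 - q ^ 2) (by linarith) (by linarith) (N + 2)
  rw [sum_range_succ', sum_range_succ', b0, b1, norm_neg, norm_mul, Complex.norm_ofNat] at h1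
  simp only [zero_add, Nat.cast_one, Nat.cast_zero, pow_one, pow_zero, norm_one] at h1
  have h2 := rigA_num t0 t1 b3 (S := ∑ k ∈ range N, ((1 - 2 * ((k + 1 + 1 : ℕ) : ℝ)) *
    (‖coeff (k + 1 + 1) (tay G)‖ * (1 - q ^ 2) ^ (k + 1 + 1))) ^ 2) (by linarith)
  have h3 := rigA_amgm q0 (fun k => ‖coeff (k + 1 + 1) (tay G)‖ * (1 - q ^ 2) ^ (k + 1 + 1)) N
  have h4 : ‖∑ k ∈ range N, coeff (k + 1 + 1) (tay G) * ζ ^ (k + 1 + 1)‖ ≤
      ∑ k ∈ range N, ‖coeff (k + 1 + 1) (tay G)‖ * (1 - q ^ 2) ^ (k + 1 + 1) :=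
    norm_sum_le_of_le _ fun k _ => by
      rw [norm_mul, norm_pow]
      gcongr
  have h5 : ‖(coeff 1 (tay G) + 1) * ζ‖ ≤ (q ^ 2) ^ 2 / 2 := by
    rw [norm_mul]
    exact (mul_le_of_le_one_right (norm_nonneg _) (by linarith)).trans b2
  have h6 := norm_add_le (∑ k ∈ range N, coeff (k + 1 + 1) (tay G) * ζ ^ (k + 1 + 1))
    ((coeff 1 (tay G) + 1) * ζ)
  have h7 : (q ^ 2) ^ 2 ≤ q := by nlinarith [sq_nonneg (q - 1), mul_pos t0 q0]
  have h8 := (div_le_div_of_nonneg_right h2 (by positivity : 0 ≤ 8 * q)).trans_eq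
    (by field_simp : 7 * q ^ 2 / (8 * q) = 7 / 8 * q)
  rw [Function.comp_apply, sum_range_succ', sum_range_succ', b0]
  refine le_trans (le_of_eq (congrArg norm (by ring))) (h6.trans ?_)
  linarith

end Pool.Agent.P.MP_c09211_an.Sh.GL
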