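import Pool.Agent.P.MP_c09211_an.GL.RigidA
import Pool.Agent.P.MP_c09211_an.Sh.StabA

/-!
The size of a nearly extremal function close to the circle (paper: G, RS).
-/

set_option autoImplicit false

namespace Pool.Agent.P.MP_c09211_an.Sh.GL

open Metric Set Finset PowerSeries Complex Filter Topology Real MeasureTheory
open scoped ComplexConjugate

theorem RigidB_id (x : ℝ) (ζ : ℂ) :
    ‖ζ + x‖ ^ 2 = ‖1 + x * ζ‖ ^ 2 - (1 - x ^ 2) * (1 - ‖ζ‖ ^ 2) := by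
  simp only [← normSq_eq_norm_sq, normSq_apply, add_re, add_im, ofReal_re, ofReal_im, mul_re,
    mul_im, one_re, one_im]
  ring

theorem RigidB_ne {x : ℝ} (x0 : 0 ≤ x) (x1 : x ≤ 1) {ζ : ℂ} (hζ : ‖ζ‖ < 1) :
    (1 : ℂ) + x * ζ ≠ 0 := by
  intro h
  have e : (x : ℂ) * ζ = -1 := by linear_combination h
  have := congrArg norm e
  rw [norm_mul, norm_real, Real.norm_eq_abs, abs_of_nonneg x0, norm_neg, norm_one] at this
  nlinarith [norm_nonneg ζ]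

theorem RigidB_one {ζ : ℂ} (hζ : ‖ζ‖ < 1) : (1 : ℂ) - ζ ≠ 0 := by
  intro h
  have e : ζ = 1 := by linear_combination -h
  rw [e, norm_one] at hζ
  exact lt_irrefl _ hζ

theorem RigidB_maps {x : ℝ} (x0 : 0 ≤ x) (x1 : x < 1) {ζ : ℂ} (hζ : ‖ζ‖ < 1) :
    ‖(ζ + x) / (1 + x * ζ)‖ < 1 := by
  have p := norm_pos_iff.mpr (RigidB_ne x0 x1.le hζ)
  rw [norm_div, div_lt_one p]
  refine lt_of_pow_lt_pow_left₀ 2 p.le ?_
  rw [RigidB_id]
  have a : 0 < 1 - x ^ 2 := by nlinarith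
  have b : 0 < 1 - ‖ζ‖ ^ 2 := by nlinarith [norm_nonneg ζ]
  linarith [mul_pos a b]

theorem RigidB_half {x : ℝ} (x0 : 1 / 2 ≤ x) (x1 : x < 1) {ζ : ℂ} (hζ : ‖ζ‖ = 1 / 2) :
    ‖(ζ + x) / (1 + x * ζ)‖ ≤ 1 - (1 - x) / 4 := by
  have p := norm_pos_iff.mpr (RigidB_ne (x := x) (by linarith) x1.le (ζ := ζ) (by linarith))
  have q : ‖1 + x * ζ‖ ≤ 3 / 2 := by
    refine (norm_add_le _ _).trans ?_
    rw [norm_one, norm_mul, norm_real, Real.norm_eq_abs, abs_of_nonneg (by linarith), hζ]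
    linarith
  rw [norm_div, div_le_iff₀ p]
  refine le_of_sq_le_sq ?_ (mul_nonneg (by linarith) p.le)
  rw [RigidB_id, hζ, mul_pow]
  have q2 : ‖1 + x * ζ‖ ^ 2 ≤ 9 / 4 := by nlinarith
  have a : 0 ≤ 1 - x := by linarith
  have b : (1 - x) / 2 * ‖1 + x * ζ‖ ^ 2 ≤ (1 - x) / 2 * (9 / 4) :=
    mul_le_mul_of_nonneg_left q2 (by linarith)
  have c : 0 ≤ ((1 - x) / 4) ^ 2 * ‖1 + x * ζ‖ ^ 2 := by positivity
  nlinarith [mul_nonneg a (show 0 ≤ x - 1 / 2 by linarith)]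

theorem RigidB_k {x ζ : ℂ} (h1 : 1 + x * ζ ≠ 0) (h2 : 1 - ζ ≠ 0) (h3 : 1 - x ≠ 0) :
    (1 - x) ^ 2 * (((ζ + x) / (1 + x * ζ)) / (1 - (ζ + x) / (1 + x * ζ)) ^ 2) =
      x + (1 + x) ^ 2 * (ζ / (1 - ζ) ^ 2) := by
  have e : 1 - (ζ + x) / (1 + x * ζ) = (1 - x) * (1 - ζ) / (1 + x * ζ) := by
    rw [eq_div_iff h1, sub_mul, div_mul_cancel₀ _ h1]
    ring
  rw [e]
  field_simp
  ring

theorem RigidB_kd : DifferentiableOn ℂ (fun ζ : ℂ => ζ / (1 - ζ) ^ 2) (ball 0 1) :=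
  DifferentiableOn.div (by fun_prop) (by fun_prop) fun _ hz =>
    pow_ne_zero 2 (RigidB_one (mem_ball_zero_iff.mp hz))

theorem RigidB_tay : coeff 1 (tay fun ζ : ℂ => ζ / (1 - ζ) ^ 2) = 1 ∧
    coeff 2 (tay fun ζ : ℂ => ζ / (1 - ζ) ^ 2) = 2 := by
  have an := RigidB_kd.analyticAt (ball_mem_nhds _ one_pos)
  have e : (fun ζ : ℂ => ζ / (1 - ζ) ^ 2) =ᶠ[𝓝 0]
      fun ζ : ℂ => (ζ + 2 * (ζ * (ζ / (1 - ζ) ^ 2))) + (-1) * (ζ * (ζ * (ζ / (1 - ζ) ^ 2))) := by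
    filter_upwards [ball_mem_nhds (0 : ℂ) one_pos] with z hz
    have := RigidB_one (mem_ball_zero_iff.mp hz)
    field_simp
    ring
  have i : AnalyticAt ℂ (fun ζ : ℂ => ζ) 0 := by fun_prop
  have a1 := i.fun_mul an
  have a2 := i.fun_mul a1
  have t := tay_congr e
  rw [tay_add (i.fun_add (analyticAt_const.fun_mul a1)) (analyticAt_const.fun_mul a2),
    tay_add i (analyticAt_const.fun_mul a1), tay_cmul _ a1, tay_cmul _ a2, tay_mul i a1,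
    tay_mul i an, tay_id] at t
  set K := tay fun ζ : ℂ => ζ / (1 - ζ) ^ 2 with hK
  have k0 : coeff 0 K = 0 := by rw [hK, tay_coeff_zero]; simp
  have k1 := congrArg (coeff 1) t
  have k2 := congrArg (coeff 2) t
  simp only [map_add, coeff_C_mul, coeff_succ_X_mul, coeff_zero_X_mul, k0, coeff_one_X] at k1
  simp only [map_add, coeff_C_mul, coeff_succ_X_mul, k0, coeff_X] at k2
  have k3 : coeff 1 K = 1 := by rw [k1]; simp
  refine ⟨k3, ?_⟩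
  rw [k2, k3]
  simp

theorem RigidB_alg {G : ℂ} {s τ : ℝ} (s0 : 0 < s) (hτ : τ ≤ s / 4) (hG : ‖G - s‖ ≤ 2 * τ) :
    s / 2 ≤ ‖G‖ ∧ ‖1 / G ^ 2 - 1 / (s : ℂ) ^ 2‖ ≤ 20 * τ / s ^ 3 := by
  have ns : ‖(s : ℂ)‖ = s := by rw [norm_real, Real.norm_eq_abs, abs_of_pos s0]
  have a : s / 2 ≤ ‖G‖ := by
    have := norm_sub_norm_le (s : ℂ) G
    rw [norm_sub_rev, ns] at this
    linarith
  have b : ‖G + s‖ ≤ 5 * s / 2 := by
    have := norm_add_le (G - s) (2 * s)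
    rw [show G - s + 2 * s = G + s by ring, norm_mul, ns, Complex.norm_ofNat] at this
    linarith
  have G0 : G ≠ 0 := norm_pos_iff.mp (by linarith)
  have sc : (s : ℂ) ≠ 0 := by exact_mod_cast s0.ne'
  refine ⟨a, ?_⟩
  have e : 1 / G ^ 2 - 1 / (s : ℂ) ^ 2 = -((G - s) * (G + s)) / (G ^ 2 * s ^ 2) := by
    field_simp
    ring
  have t0 : 0 ≤ τ := by linarith [norm_nonneg (G - s)]
  rw [e, norm_div, norm_neg, norm_mul, norm_mul, norm_pow, norm_pow, ns]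
  calc _ ≤ 2 * τ * (5 * s / 2) / ((s / 2) ^ 2 * s ^ 2) := by gcongr
    _ = _ := by field_simp; ring

theorem RigidB_core {g : ℂ → ℂ} (hd : DifferentiableOn ℂ g (ball 0 1)) (hi : InjOn g (ball 0 1))
    {R : ℝ} (hR : ∀ z ∈ ball (0 : ℂ) 1, ‖g z‖ < R) {b : ℂ} (hb : ‖b‖ = 1) {p q τ s : ℝ}
    (q2 : 2 ≤ q) (q4 : q ≤ 4) (τ0 : 0 < τ) (hτ : τ ≤ s / 4) (s1 : s ≤ 1)
    (h : ∀ ζ ∈ sphere (0 : ℂ) (1 / 2), ‖g ζ - b * (p + q * (ζ / (1 - ζ) ^ 2))‖ ≤ τ ^ 4 / 8) :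
    ‖g (1 - s) - b * (p + q * ((1 - s) / s ^ 2))‖ ≤ 82 * τ / s ^ 3 := by
  have s0 : 0 < s := by linarith
  have τ1 : τ ≤ 1 / 4 := by linarith
  have τ2 : τ ^ 2 ≤ τ / 4 := by nlinarith
  have τ4 : τ ^ 4 ≤ τ / 64 := by nlinarith [sq_nonneg τ, mul_pos τ0 τ0]
  have dD : DifferentiableOn ℂ (fun ζ => g ζ - b * (p + q * (ζ / (1 - ζ) ^ 2))) (ball 0 1) :=
    hd.sub (((RigidB_kd.const_mul _).const_add _).const_mul _)
  have B := tay_bound dD h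
  have aD := dD.analyticAt (ball_mem_nhds _ one_pos)
  have ak := RigidB_kd.analyticAt (ball_mem_nhds _ one_pos)
  have ag := hd.analyticAt (ball_mem_nhds _ one_pos)
  have e : tay g = tay (fun ζ => g ζ - b * (p + q * (ζ / (1 - ζ) ^ 2))) +
      C b * (C (p : ℂ) + C (q : ℂ) * tay fun ζ : ℂ => ζ / (1 - ζ) ^ 2) := by
    rw [← tay_cmul _ ak, ← tay_const (p : ℂ), ← tay_add analyticAt_const (analyticAt_const.fun_mul ak),
      ← tay_cmul _ (analyticAt_const.fun_add (analyticAt_const.fun_mul ak)),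
      ← tay_add aD (analyticAt_const.fun_mul (analyticAt_const.fun_add
        (analyticAt_const.fun_mul ak)))]
    congr 1
    funext z
    ring
  set D := tay (fun ζ => g ζ - b * (p + q * (ζ / (1 - ζ) ^ 2))) with hD
  have e0 : g 0 = coeff 0 D + b * p := by
    rw [hD, tay_coeff_zero]
    simp
  have e1 : deriv g 0 = coeff 1 D + b * q := by
    rw [← tay_coeff_one, e, map_add, coeff_C_mul, map_add, coeff_C_mul, RigidB_tay.1, coeff_C]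
    simp
  have e2 : coeff 2 (tay g) = coeff 2 D + 2 * (b * q) := by
    rw [e, map_add, coeff_C_mul, map_add, coeff_C_mul, RigidB_tay.2, coeff_C]
    simp only [OfNat.ofNat_ne_zero, if_false]
    ring
  have B0 := B 0
  have B1 := B 1
  have B2 := B 2
  have nq : ‖b * q‖ = q := by
    rw [norm_mul, hb, one_mul, norm_real, Real.norm_eq_abs, abs_of_nonneg (by linarith)]
  have g1 : 1 ≤ ‖deriv g 0‖ := by
    have := norm_sub_norm_le (b * q) (-coeff 1 D)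
    rw [nq, norm_neg, sub_neg_eq_add, add_comm, ← e1] at this
    linarith
  have g0 : deriv g 0 ≠ 0 := norm_pos_iff.mp (by linarith)
  have hF : Sr 1 fun ζ => (deriv g 0)⁻¹ * (g ζ + -g 0) := by
    refine ⟨(hd.add_const _).const_mul _, fun z hz w hw e =>
      hi hz hw (add_right_cancel (mul_left_cancel₀ (inv_ne_zero g0) e)), by simp, ?_,
      R + ‖g 0‖, fun z hz => ?_⟩
    · rw [((ag.differentiableAt.hasDerivAt.add_const _).const_mul _).deriv, inv_mul_cancel₀ g0]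
    · rw [norm_mul, norm_inv]
      refine (mul_le_of_le_one_left (norm_nonneg _) (inv_le_one_of_one_le₀ g1)).trans_lt ?_
      refine (norm_add_le _ _).trans_lt ?_
      rw [norm_neg]
      linarith [hR z hz]
  have c2 : ‖coeff 2 (tay fun ζ => (deriv g 0)⁻¹ * (g ζ + -g 0)) - 2‖ ≤ τ ^ 4 := by
    rw [tay_cmul _ (ag.fun_add analyticAt_const), tay_add ag analyticAt_const, tay_const,
      coeff_C_mul, map_add, coeff_C, if_neg (by norm_num), add_zero, e2]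
    have : (deriv g 0)⁻¹ * (coeff 2 D + 2 * (b * q)) - 2 =
        (deriv g 0)⁻¹ * (coeff 2 D - 2 * coeff 1 D) := by
      field_simp
      rw [e1]
      ring
    rw [this, norm_mul, norm_inv]
    refine (mul_le_of_le_one_left (norm_nonneg _) (inv_le_one_of_one_le₀ g1)).trans ?_
    refine (norm_sub_le _ _).trans ?_
    rw [norm_mul, Complex.norm_ofNat]
    linarith
  have r1 : √(τ ^ 4) = τ ^ 2 := by
    rw [show τ ^ 4 = (τ ^ 2) ^ 2 by ring, Real.sqrt_sq (sq_nonneg τ)]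
  have ns : ‖(1 : ℂ) - s‖ = 1 - s := by
    rw [show (1 : ℂ) - s = ((1 - s : ℝ) : ℂ) by push_cast; ring, norm_real, Real.norm_eq_abs,
      abs_of_nonneg (by linarith)]
  obtain ⟨G, hG, hG2⟩ := rigid2 hF (e := τ ^ 4) (by positivity) (by linarith) c2
    (ζ := 1 - s) (by rw [ns, r1]; linarith)
  rw [r1, Real.sqrt_sq τ0.le, sub_sub_cancel] at hG2
  obtain ⟨a1, a2⟩ := RigidB_alg s0 hτ hG2
  have G0 : G ≠ 0 := norm_pos_iff.mp (by linarith)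
  have e3 : g (1 - s) - b * (p + q * ((1 - s) / s ^ 2)) = coeff 0 D +
      b * q * ((1 - s) * (1 / G ^ 2 - 1 / (s : ℂ) ^ 2)) + coeff 1 D * ((1 - s) * (1 / G ^ 2)) := by
    have : g (1 - s) = g 0 + deriv g 0 * ((1 - s) * (1 / G ^ 2)) := by
      have i1 := mul_inv_cancel₀ g0
      have i2 : G ^ 2 * (1 / G ^ 2) = 1 := by field_simp
      linear_combination (deriv g 0 * (1 / G ^ 2)) * hG -
        (g (1 - s) - g 0) * (G ^ 2 * (1 / G ^ 2)) * i1 - (g (1 - s) - g 0) * i2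
    rw [this, e0, e1]
    ring
  have s3 : s ^ 3 ≤ 1 := pow_le_one₀ s0.le s1
  have u0 : τ ≤ τ / s ^ 3 := by
    rw [le_div_iff₀ (by positivity)]
    exact mul_le_of_le_one_right τ0.le s3
  have u1 : ‖b * q * ((1 - s) * (1 / G ^ 2 - 1 / (s : ℂ) ^ 2))‖ ≤ 4 * (1 * (20 * τ / s ^ 3)) := by
    rw [norm_mul, nq, norm_mul, ns]
    gcongr
    linarith
  have u2 : ‖coeff 1 D * ((1 - s) * (1 / G ^ 2))‖ ≤ τ ^ 4 / 8 * 2 ^ 1 * (1 * (1 / (s / 2) ^ 2)) := by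
    rw [norm_mul, norm_mul, ns, norm_div, norm_one, norm_pow]
    gcongr
    linarith
  have u3 : τ ^ 4 / 8 * 2 ^ 1 * (1 * (1 / (s / 2) ^ 2)) ≤ τ / s ^ 3 := by
    rw [show τ ^ 4 / 8 * 2 ^ 1 * (1 * (1 / (s / 2) ^ 2)) = τ ^ 4 * s / s ^ 3 by field_simp; ring]
    gcongr
    nlinarith [pow_pos τ0 4]
  rw [e3]
  refine (norm_add₃_le ..).trans ?_
  have u4 : 82 * τ / s ^ 3 = τ / s ^ 3 + 4 * (1 * (20 * τ / s ^ 3)) + τ / s ^ 3 := by ring
  rw [u4]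
  linarith

theorem RigidB_near {f : ℂ → ℂ} {h : ℂ⟦X⟧} {a : ℂ} {J : ℕ} {δ t : ℝ} (hf : Sr 1 f)
    (e : X * h ^ 2 = tay f) (hh : ∀ K, SS h K ≤ K) (hn : NK J δ h 1 a) (t0 : 0 < t) {z : ℂ}
    (hz : ‖z‖ ≤ 1 - t / 4) {c : ℝ} (c0 : 0 ≤ c)
    (hc : 8 * δ * (t * J) + 128 * rexp (-(t * J / 4)) ≤ c ^ 2) :
    ‖(t : ℂ) ^ 2 * f z - a ^ 2 * ((t : ℂ) ^ 2 * (z / (1 - z) ^ 2))‖ ≤ 8 * c := by
  have x1 : 1 - t / 4 < 1 := by linarith
  have z1 : ‖z‖ < 1 := hz.trans_lt x1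
  have n1 := ev_near hh hn hz x1
  have n2 := ev_le hh hz x1
  rw [one_mul, sub_sub_cancel] at n1
  rw [sub_sub_cancel] at n2
  have nt : ‖(t : ℂ)‖ = t := by rw [norm_real, Real.norm_eq_abs, abs_of_pos t0]
  have p : (1 - t / 4) ^ J ≤ rexp (-(t * J / 4)) := by
    have := pow_le_pow_left₀ ((norm_nonneg z).trans hz)
      (show 1 - t / 4 ≤ rexp (-(t / 4)) by linarith [Real.add_one_le_exp (-(t / 4))]) J
    rwa [← Real.exp_nat_mul, show (J : ℝ) * -(t / 4) = -(t * J / 4) by ring] at this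
  have b1 : ‖t * (ev h z - a / (1 - z))‖ ≤ c := by
    refine le_of_sq_le_sq ?_ c0
    rw [norm_mul, mul_pow, nt]
    refine (mul_le_mul_of_nonneg_left n1 (sq_nonneg t)).trans (le_trans ?_ hc)
    rw [show t ^ 2 * (2 * (δ * J) / (t / 4) + 8 * (1 - t / 4) ^ J / (t / 4) ^ 2) =
      8 * δ * (t * J) + 128 * (1 - t / 4) ^ J by field_simp; ring]
    linarith
  have b2 : ‖a / (1 - z)‖ ≤ 1 / (t / 4) := by
    rw [norm_div, hn.2.1]
    refine one_div_le_one_div_of_le (by linarith) ?_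
    have := norm_sub_norm_le 1 z
    rw [norm_one] at this
    linarith
  have b3 : ‖t * (ev h z + a / (1 - z))‖ ≤ 8 := by
    rw [norm_mul, nt]
    refine (mul_le_mul_of_nonneg_left ((norm_add_le _ _).trans (add_le_add n2 b2)) t0.le).trans
      (le_of_eq ?_)
    field_simp
    ring
  have e2 : (t : ℂ) ^ 2 * f z - a ^ 2 * ((t : ℂ) ^ 2 * (z / (1 - z) ^ 2)) =
      z * ((t * (ev h z + a / (1 - z))) * (t * (ev h z - a / (1 - z)))) := by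
    rw [ev_sq hf.1 e hh z1, div_eq_mul_inv z, div_eq_mul_inv a, ← inv_pow]
    ring
  rw [e2, norm_mul, norm_mul]
  exact (mul_le_of_le_one_left (by positivity) z1.le).trans
    (mul_le_mul b3 b1 (norm_nonneg _) (by norm_num))

theorem RigidB_main {f : ℂ → ℂ} {h : ℂ⟦X⟧} {a : ℂ} {J : ℕ} {δ t u τ s₀ : ℝ} (hf : Sr 1 f)
    (e : X * h ^ 2 = tay f) (hh : ∀ K, SS h K ≤ K) (hn : NK J δ h 1 a) (u0 : 0 < u) (ut : u ≤ t)
    (t1 : t ≤ 1 / 2) (τ0 : 0 < τ) (hτ : τ ≤ s₀ / 4) (hs : s₀ * (2 * t) ≤ u)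
    (hc : 8 * δ * (t * J) + 128 * rexp (-(t * J / 4)) ≤ (τ ^ 4 / 64) ^ 2) :
    ‖f ((1 - u : ℝ) : ℂ) * (u : ℂ) ^ 2 / ((1 - u : ℝ) : ℂ) - a ^ 2‖ ≤ 164 * τ / s₀ ^ 3 := by
  have t0 : 0 < t := u0.trans_le ut
  obtain ⟨x, hx⟩ : ∃ x : ℝ, x = 1 - t := ⟨_, rfl⟩
  have x0 : 1 / 2 ≤ x := by linarith
  have x0' : 0 ≤ x := by linarith
  have x1 : x < 1 := by linarith
  have tc : (t : ℂ) = 1 - x := by rw [hx]; push_cast; ring
  have tn : (t : ℂ) ≠ 0 := by exact_mod_cast t0.ne'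
  have nt : ‖(t : ℂ)‖ = t := by rw [norm_real, Real.norm_eq_abs, abs_of_pos t0]
  have m : MapsTo (fun ζ : ℂ => (ζ + x) / (1 + x * ζ)) (ball 0 1) (ball 0 1) := fun ζ hζ =>
    mem_ball_zero_iff.mpr (RigidB_maps x0' x1 (mem_ball_zero_iff.mp hζ))
  have dm : DifferentiableOn ℂ (fun ζ : ℂ => (ζ + x) / (1 + x * ζ)) (ball 0 1) :=
    DifferentiableOn.div (by fun_prop) (by fun_prop) fun ζ hζ =>
      RigidB_ne x0' x1.le (mem_ball_zero_iff.mp hζ)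
  have im : InjOn (fun ζ : ℂ => (ζ + x) / (1 + x * ζ)) (ball 0 1) := fun z hz w hw e => by
    have e2 := (div_eq_div_iff (RigidB_ne x0' x1.le (mem_ball_zero_iff.mp hz))
      (RigidB_ne x0' x1.le (mem_ball_zero_iff.mp hw))).mp e
    have e3 : ((1 - x ^ 2 : ℝ) : ℂ) ≠ 0 := by
      exact_mod_cast (show 0 < 1 - x ^ 2 by nlinarith).ne'
    refine mul_left_cancel₀ e3 ?_
    push_cast
    linear_combination e2
  obtain ⟨R, hR⟩ := hf.2.2.2.2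
  have W0 : 0 < t + u - t * u := by nlinarith
  obtain ⟨s, hs'⟩ : ∃ s : ℝ, s * (t + u - t * u) = u * (1 + x) :=
    ⟨u * (1 + x) / (t + u - t * u), div_mul_cancel₀ _ W0.ne'⟩
  have s0 : 0 < s₀ := by linarith
  have s1 : s ≤ 1 := by
    refine le_of_mul_le_mul_right ?_ W0
    rw [hs', hx]
    linarith
  have s2 : s₀ ≤ s := by
    refine le_of_mul_le_mul_right ?_ W0
    rw [hs']
    have : s₀ * (t + u - t * u) ≤ s₀ * (2 * t) :=
      mul_le_mul_of_nonneg_left (by nlinarith) s0.le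
    nlinarith
  have s3 : 0 < s := s0.trans_le s2
  have core := RigidB_core (g := fun ζ => (t : ℂ) ^ 2 * f ((ζ + x) / (1 + x * ζ)))
    ((hf.1.comp dm m).const_mul _)
    (fun z hz w hw e => im hz hw (hf.2.1 (m hz) (m hw) (mul_left_cancel₀ (pow_ne_zero 2 tn) e)))
    (R := t ^ 2 * R) (fun z hz => by
      rw [norm_mul, norm_pow, nt]
      exact mul_lt_mul_of_pos_left (hR _ (m hz)) (by positivity))
    (b := a ^ 2) (by rw [norm_pow, hn.2.1, one_pow]) (p := x) (q := (1 + x) ^ 2) (τ := τ) (s := s)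
    (by nlinarith) (by nlinarith) τ0 (by linarith) s1 (fun ζ hζ => by
      have n : ‖ζ‖ = 1 / 2 := by simpa using hζ
      have k := RigidB_k (x := x) (ζ := ζ) (RigidB_ne x0' x1.le (by linarith))
        (RigidB_one (by linarith)) (tc ▸ tn)
      have b := RigidB_half x0 x1 n
      rw [show 1 - x = t by linarith] at b
      have := RigidB_near hf e hh hn t0 b (by positivity) hc
      push_cast
      rw [← k, ← tc]
      linarith)
  have ns : ‖(1 : ℂ) - s‖ < 1 := by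
    rw [show (1 : ℂ) - s = ((1 - s : ℝ) : ℂ) by push_cast; ring, norm_real, Real.norm_eq_abs,
      abs_of_nonneg (by linarith)]
    linarith
  have y : ((1 : ℂ) - s + x) / (1 + x * (1 - s)) = ((1 - u : ℝ) : ℂ) := by
    rw [div_eq_iff (RigidB_ne x0' x1.le ns)]
    have : (1 - s + x) = (1 - u) * (1 + x * (1 - s)) := by
      rw [hx] at hs' ⊢
      linear_combination -hs'
    exact_mod_cast this
  have k := RigidB_k (x := x) (ζ := 1 - s) (RigidB_ne x0' x1.le ns) (RigidB_one ns) (tc ▸ tn)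
  rw [y, sub_sub_cancel, ← tc] at k
  simp only [y] at core
  obtain ⟨M, hM⟩ : ∃ M : ℝ, M = x + (1 + x) ^ 2 * ((1 - s) / s ^ 2) := ⟨_, rfl⟩
  have M0 : 1 / 2 ≤ M := by
    have : 0 ≤ (1 + x) ^ 2 * ((1 - s) / s ^ 2) :=
      mul_nonneg (sq_nonneg _) (div_nonneg (by linarith) (sq_nonneg _))
    linarith
  have Mc : (M : ℂ) = x + (1 + x) ^ 2 * ((1 - s) / s ^ 2) := by rw [hM]; push_cast; ring
  have uc : (u : ℂ) ≠ 0 := by exact_mod_cast u0.ne'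
  have yc : ((1 - u : ℝ) : ℂ) ≠ 0 := by exact_mod_cast (show 0 < 1 - u by linarith).ne'
  have e2 : (f ((1 - u : ℝ) : ℂ) * (u : ℂ) ^ 2 / ((1 - u : ℝ) : ℂ) - a ^ 2) * M =
      (t : ℂ) ^ 2 * f ((1 - u : ℝ) : ℂ) - a ^ 2 * M := by
    rw [Mc, ← k, show 1 - ((1 - u : ℝ) : ℂ) = u by push_cast; ring]
    field_simp
  have e3 := congrArg norm e2
  rw [norm_mul, norm_real, Real.norm_eq_abs, abs_of_nonneg (by linarith)] at e3
  rw [ofReal_pow, ofReal_add, ofReal_one, ← Mc, ← e3] at core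
  have b : 82 * τ / s ^ 3 ≤ 82 * τ / s₀ ^ 3 := by gcongr
  rw [show 164 * τ / s₀ ^ 3 = 2 * (82 * τ / s₀ ^ 3) by ring]
  nlinarith [norm_nonneg (f ((1 - u : ℝ) : ℂ) * (u : ℂ) ^ 2 / ((1 - u : ℝ) : ℂ) - a ^ 2)]

theorem RigidB_exp {c : ℝ} (c0 : 0 < c) : ∃ L : ℝ, 1 ≤ L ∧ L ^ 24 * rexp (-(L / 4)) ≤ c := by
  have a := (Real.tendsto_pow_mul_exp_neg_atTop_nhds_zero 24).eventually
    (ge_mem_nhds (show 0 < c / 4 ^ 24 by positivity))
  obtain ⟨v, h1, h2⟩ := (a.and (eventually_ge_atTop 1)).exists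
  refine ⟨4 * v, by linarith, ?_⟩
  rw [le_div_iff₀ (by positivity)] at h1
  rw [show 4 * v / 4 = v by ring]
  linarith [show (4 * v) ^ 24 * rexp (-v) = v ^ 24 * rexp (-v) * 4 ^ 24 by ring]

theorem rigid {σ η : ℝ} (σ0 : 0 < σ) (σ1 : σ ≤ 1) (hη : 0 < η) : ∃ δ : ℝ, 0 < δ ∧ ∃ J₀ : ℕ,
    ∀ J ≥ J₀, ∀ (f : ℂ → ℂ) (h : ℂ⟦X⟧) (a : ℂ), Sr 1 f → X * h ^ 2 = tay f →
      (∀ K, SS h K ≤ K) → NK J δ h 1 a →
      ‖f ((1 - σ / J : ℝ) : ℂ) * ((σ / J : ℝ) : ℂ) ^ 2 / ((1 - σ / J : ℝ) : ℂ) - a ^ 2‖ ≤ η := by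
  obtain ⟨c, c0, c1, cη⟩ : ∃ c : ℝ, 0 < c ∧ c ≤ 1 ∧ c ≤ η :=
    ⟨min 1 η, lt_min one_pos hη, min_le_left _ _, min_le_right _ _⟩
  obtain ⟨L, L1, hL⟩ := RigidB_exp (c := ((c * (σ / 2) ^ 3 / 164) ^ 4 / 64) ^ 2 / 256)
    (by positivity)
  have L0 : 0 < L := by linarith
  obtain ⟨s₀, hs⟩ : ∃ s₀ : ℝ, s₀ = σ / (2 * L) := ⟨_, rfl⟩
  have s0 : 0 < s₀ := by rw [hs]; positivity
  have s1 : s₀ ≤ 1 := by
    rw [hs, div_le_one (by positivity)]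
    linarith
  obtain ⟨τ, hτ⟩ : ∃ τ : ℝ, τ = c * s₀ ^ 3 / 164 := ⟨_, rfl⟩
  have τ0 : 0 < τ := by rw [hτ]; positivity
  have τ1 : τ ≤ s₀ / 4 := by
    have a : s₀ ^ 3 ≤ s₀ := pow_le_of_le_one s0.le s1 (by norm_num)
    have b : c * s₀ ^ 3 ≤ s₀ ^ 3 := mul_le_of_le_one_left (by positivity) c1
    rw [hτ]
    linarith
  have E : 128 * rexp (-(L / 4)) ≤ (τ ^ 4 / 64) ^ 2 / 2 := by
    refine le_of_mul_le_mul_left ?_ (show 0 < L ^ 24 by positivity)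
    have : L ^ 24 * ((τ ^ 4 / 64) ^ 2 / 2) =
        128 * (((c * (σ / 2) ^ 3 / 164) ^ 4 / 64) ^ 2 / 256) := by
      rw [hτ, hs]
      field_simp
      ring
    rw [this]
    linarith
  refine ⟨(τ ^ 4 / 64) ^ 2 / (16 * L), by positivity, ⌈2 * L⌉₊, fun J hJ f h a hf e hh hn => ?_⟩
  have J1 : 2 * L ≤ J := Nat.ceil_le.mp hJ
  have J0 : (0 : ℝ) < J := by linarith
  have tJ : L / J * J = L := div_mul_cancel₀ _ J0.ne'
  refine (RigidB_main (t := L / J) (τ := τ) (s₀ := s₀) hf e hh hn (by positivity)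
    (by gcongr; linarith) (by rw [div_le_iff₀ J0]; linarith) τ0 τ1 (le_of_eq ?_) ?_).trans ?_
  · rw [hs]
    field_simp
  · rw [tJ, show 8 * ((τ ^ 4 / 64) ^ 2 / (16 * L)) * L = (τ ^ 4 / 64) ^ 2 / 2 by field_simp; ring]
    linarith
  · rw [hτ, show 164 * (c * s₀ ^ 3 / 164) / s₀ ^ 3 = c by field_simp]
    exact cη

end Pool.Agent.P.MP_c09211_an.Sh.GL
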