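import Pool.Agent.P.MP_c09211_an.GL.RadB
import Pool.Agent.P.MP_c09211_an.GL.RigidB
import Pool.Agent.P.MP_c09211_an.GL.Deep
import Pool.Agent.P.MP_c09211_an.GL.Koe

/-!
The shape of a nearly extremal polynomial (paper: G).
-/

set_option autoImplicit false

namespace Pool.Agent.P.MP_c09211_an.Sh.GL

open Metric Set Finset PowerSeries Complex Filter Topology Real MeasureTheory
open scoped ComplexConjugate

/-- Radial closeness for the polynomial without the unimodular factor. -/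
theorem shapeA_rad {c C η : ℝ} (hc : 0 < c) (hη : 0 < η) : ∃ σ₁ : ℝ, 0 < σ₁ ∧ ∃ δ : ℝ, 0 < δ ∧
    ∃ J₀ : ℕ, ∀ J ≥ J₀, ∀ (E : Polynomial ℂ) (w : ℂ → ℂ) (a : ℂ) (θ r₁ : ℝ),
      E.natDegree ≤ 2 * J ^ 2 → Near J δ (fun z => a ^ 2 * E.eval z) w a → 1 - σ₁ / J ≤ r₁ →
      r₁ ≤ 1 → c * (J : ℝ) ^ 2 ≤ ‖E.eval (r₁ * eI θ)‖ → ‖E.eval (r₁ * eI θ)‖ ≤ C * (J : ℝ) ^ 2 →
      (∀ r : ℝ, 1 - σ₁ / J ≤ r → r ≤ 1 →
        ‖E.eval (r * eI θ) - E.eval (r₁ * eI θ)‖ ≤ η * (J : ℝ) ^ 2) ∧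
      ‖E.derivative.eval (eI θ)‖ ≤ η * (J : ℝ) ^ 4 := by
  obtain ⟨σ₁, s0, δ, d0, J₀, H⟩ := rad_close (C := C) hc hη
  refine ⟨σ₁, s0, δ, d0, J₀, fun J hJ E w a θ r₁ hd hN h1 h2 h3 h4 => ?_⟩
  have ha : ‖a ^ 2‖ = 1 := by
    obtain ⟨_, _, -, -, -, ha, -⟩ := hN.root
    rw [norm_pow, ha, one_pow]
  have e1 : ∀ z, (Polynomial.C (a ^ 2) * E).eval z = a ^ 2 * E.eval z := fun z => by
    rw [Polynomial.eval_mul, Polynomial.eval_C]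
  have := H J hJ (Polynomial.C (a ^ 2) * E) w a θ r₁ ((Polynomial.natDegree_C_mul_le _ _).trans hd)
    (by simpa only [e1] using hN) h1 h2 (by rwa [e1, norm_mul, ha, one_mul])
    (by rwa [e1, norm_mul, ha, one_mul])
  simpa only [Polynomial.eval_mul, Polynomial.eval_C, ← mul_sub, norm_mul, ha, one_mul,
    Polynomial.derivative_C_mul] using this

/-- Closeness to the function of Koebe on the circle of radius `1 - σ / J`. -/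
theorem shapeA_deep {σ η : ℝ} (σ0 : 0 < σ) (σ1 : σ ≤ 1) (hη : 0 < η) : ∃ δ : ℝ, 0 < δ ∧
    ∃ J₀ : ℕ, 2 ≤ J₀ ∧ ∀ J ≥ J₀, ∀ (E : Polynomial ℂ) (w : ℂ → ℂ) (a : ℂ),
      Near J δ (fun z => a ^ 2 * E.eval z) w a →
      (∀ z : ℂ, ‖z‖ = 1 - σ / J → ‖E.eval z - z / (1 - z) ^ 2‖ ≤ η * (J : ℝ) ^ 2) ∧
      circleAverage (fun z => ‖z * E.derivative.eval z / E.eval z - (1 + z) / (1 - z)‖ ^ 2) 0
        (1 - σ / J) ≤ η * J := by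
  obtain ⟨η₀, h0, HD⟩ := deep σ0 σ1 hη
  obtain ⟨δ, d0, J₀, HR⟩ := rigid σ0 σ1 h0
  refine ⟨δ, d0, max 2 J₀, le_max_left _ _, fun J hJ E w a hN => ?_⟩
  obtain ⟨h, g, hh, hg, hK⟩ := hN.root
  have ha : ‖a ^ 2‖ = 1 := by rw [norm_pow, hK.2.1, one_pow]
  have ha0 : a ^ 2 ≠ 0 := fun h => by rw [h, norm_zero] at ha; exact zero_ne_one ha
  have h3 := HR J ((le_max_right _ _).trans hJ) (fun z => a ^ 2 * E.eval z) h a hN.sr hh hg.ss hK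
  obtain ⟨h1, h2⟩ := HD J ((le_max_left _ _).trans hJ) (fun z => a ^ 2 * E.eval z) h g (a ^ 2)
    hN.sr.1 hh hg ha h3
  refine ⟨fun z hz => ?_, ?_⟩
  · have := h1 z hz
    rwa [← mul_sub, norm_mul, ha, one_mul] at this
  · have e : ∀ z : ℂ, z * deriv (fun z => a ^ 2 * E.eval z) z / (a ^ 2 * E.eval z) =
        z * E.derivative.eval z / E.eval z := fun z => by
      rw [((E.hasDerivAt z).const_mul (a ^ 2)).deriv, mul_left_comm, mul_div_mul_left _ _ ha0]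
    simpa only [e] using h2

theorem shapeA_inv {J : ℕ} (hJ : 2 ≤ J) {e A θ : ℝ} (e0 : 0 < e) (h1 : e / J ≤ |θ|)
    (h2 : |θ| ≤ A / J) : 1 / A ^ 2 * (J : ℝ) ^ 2 ≤ 1 / θ ^ 2 ∧ 1 / θ ^ 2 ≤ 1 / e ^ 2 * (J : ℝ) ^ 2 := by
  have hJ0 : (0 : ℝ) < J := by exact_mod_cast (by omega : 0 < J)
  have h0 : 0 < e / J := div_pos e0 hJ0
  have h3 : 0 < |θ| := h0.trans_le h1
  rw [← sq_abs θ]
  constructor
  · calc 1 / A ^ 2 * (J : ℝ) ^ 2 = 1 / (A / J) ^ 2 := by rw [div_pow, one_div_div]; ring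
      _ ≤ 1 / |θ| ^ 2 := one_div_le_one_div_of_le (pow_pos h3 2) (pow_le_pow_left₀ h3.le h2 2)
  · calc 1 / |θ| ^ 2 ≤ 1 / (e / J) ^ 2 :=
          one_div_le_one_div_of_le (pow_pos h0 2) (pow_le_pow_left₀ h0.le h1 2)
      _ = 1 / e ^ 2 * (J : ℝ) ^ 2 := by rw [div_pow, one_div_div]; ring

theorem shape {e A h η : ℝ} (e0 : 0 < e) (A0 : 0 < A) (h0 : 0 < h) (hη : 0 < η) :
    ∃ σ : ℝ, 0 < σ ∧ σ ≤ 1 / 4 ∧ ∃ δ : ℝ, 0 < δ ∧ ∃ J₀ : ℕ, ∀ J ≥ J₀,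
    ∀ (E : Polynomial ℂ) (w : ℂ → ℂ) (a : ℂ), E.natDegree ≤ 2 * J ^ 2 →
      Near J δ (fun z => a ^ 2 * E.eval z) w a → Shape J e A h η σ E := by
  obtain ⟨η₂, p₂, σ₂, s₂, HV⟩ := koe_value (C := 1 / e ^ 2) h0
  have hα : 0 < 1 / A ^ 2 := by positivity
  have hε : 0 < 1 / e ^ 2 := by positivity
  obtain ⟨η₁, p₁, q₁, q₂, q₃, q₄⟩ : ∃ η₁ : ℝ, 0 < η₁ ∧ η₁ ≤ η / 3 ∧ η₁ ≤ η₂ ∧
      η₁ ≤ 1 / A ^ 2 / 4 ∧ η₁ ≤ 1 / e ^ 2 / 32 :=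
    ⟨min (min (η / 3) η₂) (min (1 / A ^ 2 / 4) (1 / e ^ 2 / 32)), by positivity,
      (min_le_left _ _).trans (min_le_left _ _), (min_le_left _ _).trans (min_le_right _ _),
      (min_le_right _ _).trans (min_le_left _ _), (min_le_right _ _).trans (min_le_right _ _)⟩
  obtain ⟨σ₃, s₃, δ₃, d₃, J₃, HR⟩ := shapeA_rad (c := 1 / A ^ 2 / 2) (C := 2 * (1 / e ^ 2))
    (by positivity) p₁
  obtain ⟨σ₄, s₄, J₄, HN⟩ := koe_near (A := A) e0 p₁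
  obtain ⟨σ, s0, s1, se, t₂, t₃, t₄⟩ : ∃ σ : ℝ, 0 < σ ∧ σ ≤ 1 / 4 ∧ σ ≤ e ∧ σ ≤ σ₂ ∧ σ ≤ σ₃ ∧
      σ ≤ σ₄ :=
    ⟨min (min (1 / 4) e) (min σ₂ (min σ₃ σ₄)), by positivity,
      (min_le_left _ _).trans (min_le_left _ _), (min_le_left _ _).trans (min_le_right _ _),
      (min_le_right _ _).trans (min_le_left _ _),
      (min_le_right _ _).trans ((min_le_right _ _).trans (min_le_left _ _)),
      (min_le_right _ _).trans ((min_le_right _ _).trans (min_le_right _ _))⟩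
  obtain ⟨δ₅, d₅, J₅, hJ₅, HD⟩ := shapeA_deep s0 (by linarith) p₁
  refine ⟨σ, s0, s1, min δ₃ δ₅, lt_min d₃ d₅, max J₅ (max J₃ J₄), fun J hJ E w a hd hN => ?_⟩
  have j₅ : J₅ ≤ J := (le_max_left _ _).trans hJ
  have j₃ : J₃ ≤ J := ((le_max_left _ _).trans (le_max_right _ _)).trans hJ
  have j₄ : J₄ ≤ J := ((le_max_right _ _).trans (le_max_right _ _)).trans hJ
  have j₂ : 2 ≤ J := hJ₅.trans j₅
  have hJ2 : (2 : ℝ) ≤ J := by exact_mod_cast j₂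
  have hJ0 : (0 : ℝ) < J := by linarith
  have hQ : (0 : ℝ) < (J : ℝ) ^ 2 := by positivity
  obtain ⟨D1, D2⟩ := HD J j₅ E w a (hN.mono (min_le_right _ _))
  have HR' := fun θ r₁ => HR J j₃ E w a θ r₁ hd (hN.mono (min_le_left _ _))
  have y1 : 1 - σ / J ≤ 1 := sub_le_self _ (by positivity)
  have y0 : 0 ≤ 1 - σ / J := by
    rw [sub_nonneg, div_le_one hJ0]; linarith
  have y3 : 1 - σ₃ / J ≤ 1 - σ / J := sub_le_sub_left (div_le_div_of_nonneg_right t₃ hJ0.le) _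
  have y4 : 1 - σ₄ / J ≤ 1 - σ / J := sub_le_sub_left (div_le_div_of_nonneg_right t₄ hJ0.le) _
  have hy : ∀ θ, ‖((1 - σ / J : ℝ) : ℂ) * eI θ‖ = 1 - σ / J := fun θ => by
    rw [norm_mul, eI_norm, mul_one, Complex.norm_real, Real.norm_of_nonneg y0]
  have m₁ := mul_le_mul_of_nonneg_right q₁ hQ.le
  have m₃ := mul_le_mul_of_nonneg_right q₃ hQ.le
  have m₄ := mul_le_mul_of_nonneg_right q₄ hQ.le
  have n₃ := mul_pos hα hQ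
  have n₄ := mul_pos hε hQ
  have main : ∀ θ : ℝ, e / J ≤ |θ| → |θ| ≤ A / J →
      ‖E.eval ((1 - σ / J : ℝ) * eI θ) + ((1 / θ ^ 2 : ℝ) : ℂ)‖ ≤ 2 * (η₁ * (J : ℝ) ^ 2) ∧
      (∀ r : ℝ, 1 - σ₃ / J ≤ r → r ≤ 1 →
        ‖E.eval (r * eI θ) - E.eval ((1 - σ / J : ℝ) * eI θ)‖ ≤ η₁ * (J : ℝ) ^ 2) ∧
      ‖E.derivative.eval (eI θ)‖ ≤ η₁ * (J : ℝ) ^ 4 := by
    intro θ h1 h2
    have a1 := D1 _ (hy θ)
    have a2 := HN J j₄ θ _ h1 h2 y4 y1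
    have a3 : ‖E.eval ((1 - σ / J : ℝ) * eI θ) + ((1 / θ ^ 2 : ℝ) : ℂ)‖ ≤
        2 * (η₁ * (J : ℝ) ^ 2) := by
      have := norm_add_le_of_le a1 a2
      rw [← add_assoc, sub_add_cancel] at this
      linarith
    obtain ⟨b1, b2⟩ := shapeA_inv j₂ e0 h1 h2
    have b3 : ‖((1 / θ ^ 2 : ℝ) : ℂ)‖ = 1 / θ ^ 2 := by
      rw [Complex.norm_real, Real.norm_of_nonneg (by positivity)]
    have c1 := norm_sub_le (E.eval ((1 - σ / J : ℝ) * eI θ) + ((1 / θ ^ 2 : ℝ) : ℂ))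
      ((1 / θ ^ 2 : ℝ) : ℂ)
    have c2 := norm_sub_le (E.eval ((1 - σ / J : ℝ) * eI θ) + ((1 / θ ^ 2 : ℝ) : ℂ))
      (E.eval ((1 - σ / J : ℝ) * eI θ))
    rw [add_sub_cancel_right, b3] at c1
    rw [add_sub_cancel_left, b3] at c2
    exact ⟨a3, HR' θ _ y3 y1 (by linarith) (by linarith)⟩
  refine ⟨fun θ r h1 h2 h3 h4 => ?_, fun θ hθ h1 h2 => ?_, fun θ h1 h2 => ?_, fun t h1 h2 => ?_,
    fun z hz => (D1 z hz).trans (by linarith [mul_pos hη hQ]), D2.trans ?_⟩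
  · obtain ⟨a1, a2, -⟩ := main θ h1 h2
    have := norm_add_le_of_le (a2 r (y3.trans h3) h4) a1
    rw [← add_assoc, sub_add_cancel] at this
    linarith
  · have e1 : 16 * (J : ℝ) ^ 2 / A ^ 2 = 16 * (1 / A ^ 2 * (J : ℝ) ^ 2) := by ring
    have e2 : (J : ℝ) ^ 2 / (16 * e ^ 2) = 1 / e ^ 2 * (J : ℝ) ^ 2 / 16 := by ring
    have e3 : 8 * (J : ℝ) ^ 2 / A ^ 2 = 8 * (1 / A ^ 2 * (J : ℝ) ^ 2) := by ring
    have e4 : (J : ℝ) ^ 2 / (8 * e ^ 2) = 1 / e ^ 2 * (J : ℝ) ^ 2 / 8 := by ring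
    have e5 : ((1 : ℝ) : ℂ) * eI θ = eI θ := by rw [Complex.ofReal_one, one_mul]
    have a1 := (HR' θ 1 (y3.trans y1) le_rfl (by rw [e5]; linarith) (by rw [e5]; linarith)).1 _ y3 y1
    rw [e5] at a1
    have a2 := D1 _ (hy θ)
    have a3 := (abs_norm_sub_norm_le _ _).trans a1
    have a4 := (abs_norm_sub_norm_le _ _).trans a2
    rw [abs_le] at a3 a4
    exact koe_range j₂ e0 A0 s0 (by linarith) se hθ (by linarith [a3.1, a4.2])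
      (by linarith [a3.2, a4.1])
  · refine (main θ h1 h2).2.2.trans (mul_le_mul_of_nonneg_right (by linarith) (by positivity))
  · refine HV J j₂ σ (fun z => E.eval z) t s0 t₂ E.differentiable (fun z hz => (D1 z hz).trans
      (mul_le_mul_of_nonneg_right q₂ hQ.le)) (h1.trans_eq (by ring)) h2
  · exact mul_le_mul_of_nonneg_right (by linarith) hJ0.le

end Pool.Agent.P.MP_c09211_an.Sh.GL
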