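import Pool.Agent.P.MP_c09211_an.GL.GLoc
import Pool.Agent.P.MP_c09211_an.GL.ShapeA
import Pool.Agent.P.MP_c09211_an.GL.MassQ

/-!
The bound for a self-inversive polynomial (paper: Theorem A).
-/

set_option autoImplicit false

namespace Pool.Agent.P.MP_c09211_an.Sh.GL

open Metric Set Finset PowerSeries Complex Filter Topology Real MeasureTheory
open scoped ComplexConjugate

theorem box_open (J : ℕ) (u v : ℝ) : IsOpen (Box J u v) :=
  (isOpen_lt continuous_const continuous_re).inter ((isOpen_lt continuous_re continuous_const).inter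
    (isOpen_lt (continuous_abs.comp continuous_im) continuous_const))

theorem thma_sum {J m : ℕ} {e τ B : ℝ} (e0 : 0 < e) (τ0 : 0 < τ) {K : Set ℂ} (Kc : IsClosed K)
    {q v : ℕ → ℝ} {G : ℂ → ℂ} (q0 : ∀ j, 0 ≤ q j)
    (q1 : ∀ j < m, ∀ t ∈ Box J (8 * e + j * τ) (8 * e + j * τ + τ) \ K, q j ≤ ‖G t‖)
    (hv : ∀ j < m, ENNReal.ofReal (v j) ≤ volume (Box J (8 * e + j * τ) (8 * e + j * τ + τ) \ K))
    (v0 : ∀ j, 0 ≤ v j) (hA : ∫⁻ t in Kᶜ, ‖G t‖ₑ ≤ ENNReal.ofReal B) (B0 : 0 ≤ B) :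
    ∑ j ∈ range m, q j * v j ≤ B := by
  set S : ℕ → Set ℂ := fun j => Box J (8 * e + j * τ) (8 * e + j * τ + τ) \ K with hS
  have Sm : ∀ j, MeasurableSet (S j) := fun j =>
    (box_open _ _ _).measurableSet.diff Kc.measurableSet
  have Sd : (↑(range m) : Set ℕ).PairwiseDisjoint S := by
    have key : ∀ i j : ℕ, i < j → Disjoint (S i) (S j) := fun i j hij => by
      refine Set.disjoint_left.mpr fun t a b => ?_
      have c1 : (i : ℝ) + 1 ≤ j := by exact_mod_cast hij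
      have : (J : ℝ) ^ 2 / (8 * e + j * τ) ^ 2 ≤ (J : ℝ) ^ 2 / (8 * e + i * τ + τ) ^ 2 := by
        refine div_le_div_of_nonneg_left (by positivity) (by positivity)
          (pow_le_pow_left₀ (by positivity) (by nlinarith) 2)
      linarith [a.1.2.1, b.1.1]
    intro i _ j _ hij
    rcases lt_or_gt_of_ne hij with h | h
    · exact key i j h
    · exact (key j i h).symm
  rw [← ENNReal.ofReal_le_ofReal_iff B0, ENNReal.ofReal_sum_of_nonneg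
    fun j _ => mul_nonneg (q0 j) (v0 j)]
  refine le_trans ?_ (le_trans (lintegral_mono_set (show ⋃ j ∈ range m, S j ⊆ Kᶜ from
    iUnion₂_subset fun j _ t ht => ht.2)) hA)
  rw [lintegral_biUnion_finset Sd fun j _ => Sm j]
  refine sum_le_sum fun j hj => ?_
  rw [ENNReal.ofReal_mul (q0 j)]
  refine le_trans (mul_le_mul_right (hv j (mem_range.mp hj)) _) ?_
  rw [← setLIntegral_const]
  refine setLIntegral_mono' (Sm j) fun t ht => ?_
  rw [← ofReal_norm]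
  exact ENNReal.ofReal_le_ofReal (q1 j (mem_range.mp hj) t ht)

theorem thma_exp {J : ℕ} (hJ : 1 ≤ J) {Λ N : ℝ} (Λ1 : 1 ≤ Λ) (k6 : Λ ≤ J) (N1 : (J : ℝ) ^ 2 ≤ N) :
    (J : ℝ) ^ 2 / Real.exp (-Λ / N) ^ (J - 1) ≤
      (J : ℝ) ^ 2 * (1 + J * Λ / N + (J * Λ / N) ^ 2) := by
  have J1 : (1 : ℝ) ≤ J := by exact_mod_cast hJ
  have N0 : 0 < N := by nlinarith
  have x1 : J * Λ / N ≤ 1 := by
    rw [div_le_one N0]
    nlinarith
  have x0 : 0 ≤ J * Λ / N := by positivity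
  have : (Real.exp (-Λ / N) ^ (J - 1))⁻¹ ≤ 1 + J * Λ / N + (J * Λ / N) ^ 2 := by
    have a1 : (Real.exp (-Λ / N) ^ (J - 1))⁻¹ ≤ Real.exp (J * Λ / N) := by
      rw [← Real.exp_nat_mul, ← Real.exp_neg, Real.exp_le_exp, Nat.cast_sub hJ]
      have : 0 ≤ Λ / N := by positivity
      push_cast
      rw [neg_div, mul_div_assoc]
      nlinarith
    have a2 := Real.abs_exp_sub_one_sub_id_le (x := J * Λ / N) (by rwa [abs_of_nonneg x0])
    have := (le_abs_self _).trans a2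
    linarith
  rw [div_eq_mul_inv]
  gcongr

theorem thma_num {ε Λ J N d B L : ℝ} (hε : 0 < ε) (Λ1 : 1 ≤ Λ) (J2 : 2 ≤ J) (N1 : J ^ 2 ≤ N)
    (N2 : N ≤ 2 * J ^ 2 + 1) (k7 : 9 * Λ ^ 2 ≤ J * ε) (d1 : d ≤ 1)
    (r1 : B ≤ J ^ 2 * (1 + J * Λ / N + (J * Λ / N) ^ 2))
    (s3 : (Λ + d - ε / 3) * (1 - ε / (3 * (Λ + 1))) * (J ^ 3 / N) ≤ B - L) :
    L ≤ J ^ 2 - (d - ε) * (J ^ 3 / N) := by
  have N0 : 0 < N := by nlinarith
  have s4 : Λ + d - 2 * ε / 3 ≤ (Λ + d - ε / 3) * (1 - ε / (3 * (Λ + 1))) := by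
    have b1 : (Λ + d - ε / 3) * (ε / (3 * (Λ + 1))) ≤ (Λ + 1) * (ε / (3 * (Λ + 1))) :=
      mul_le_mul_of_nonneg_right (by linarith) (by positivity)
    have : (Λ + 1) * (ε / (3 * (Λ + 1))) = ε / 3 := by field_simp
    linarith
  have t0 : 0 ≤ J ^ 3 / N := by positivity
  have s5 : J ^ 2 * (J * Λ / N) ^ 2 ≤ ε / 3 * (J ^ 3 / N) := by
    have b1 : J ^ 2 * (J * Λ / N) ^ 2 ≤ Λ ^ 2 := by
      rw [← mul_pow]
      refine pow_le_pow_left₀ (by positivity) ?_ 2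
      rw [← mul_div_assoc, div_le_iff₀ N0]
      nlinarith
    have b2 : J / 3 ≤ J ^ 3 / N := by
      rw [div_le_div_iff₀ (by norm_num) N0]
      nlinarith
    nlinarith
  have s6 : J ^ 2 * (J * Λ / N) = Λ * (J ^ 3 / N) := by ring
  have := mul_le_mul_of_nonneg_right s4 t0
  linarith

theorem thma_rho {Λ σ J N : ℝ} (J0 : 0 < J) (σ0 : 0 < σ) (N1 : J ^ 2 ≤ N) (k5 : Λ ≤ J * σ) :
    1 - σ / J ≤ Real.exp (-Λ / N) := by
  have N0 : 0 < N := by nlinarith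
  refine le_trans ?_ (Real.add_one_le_exp _)
  have : Λ / N ≤ σ / J := by
    rw [div_le_div_iff₀ N0 J0]
    nlinarith
  rw [neg_div]
  linarith

theorem thmA {D ε : ℝ} (hD : Real.cos D = D) (hε : 0 < ε) : ∃ δ : ℝ, 0 < δ ∧ ∃ J₀ : ℕ, ∀ J ≥ J₀,
    ∀ N : ℕ, J ^ 2 ≤ N → N ≤ 2 * J ^ 2 + 1 → ∀ (β : ℝ) (E : Polynomial ℂ) (w : ℂ → ℂ) (a : ℂ),
      Nice N β E → Near J δ (fun z => a ^ 2 * E.eval z) w a →
      ‖Lam J w (tay fun z => a ^ 2 * E.eval z)‖ ≤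
        (J : ℝ) ^ 2 - (Real.sin D - ε) * ((J : ℝ) ^ 3 / N) := by
  obtain ⟨Λ, Λ1, H₁⟩ := gloc hD (show 0 < ε / 3 by positivity)
  obtain ⟨e, A, τ, m, e0, A0, τ0, hm, η₁, η10, δ₁, δ10, J₁, H₂⟩ :=
    mass_q (show 0 < ε / (3 * (Λ + 1)) by positivity)
  obtain ⟨h, h0, η₂, η20, J₂, H₃⟩ := H₁ e A τ e0 τ0
  obtain ⟨σ, σ0, σ1, δ₂, δ20, J₃, H₄⟩ := shape e0 A0 h0 (lt_min η10 η20)
  refine ⟨min δ₁ δ₂, lt_min δ10 δ20, max (max J₁ (max J₂ J₃))
    (max 2 (max ⌈Λ / σ⌉₊ (max ⌈Λ⌉₊ ⌈9 * Λ ^ 2 / ε⌉₊))), fun J hJ N n1 n2 β E w a hE hn => ?_⟩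
  simp only [ge_iff_le, max_le_iff] at hJ
  obtain ⟨⟨j1, j2, j3⟩, j4, j5, j6, j7⟩ := hJ
  have J2 : (2 : ℝ) ≤ J := by exact_mod_cast j4
  have J0 : (0 : ℝ) < J := by linarith
  have N1 : (J : ℝ) ^ 2 ≤ N := by exact_mod_cast n1
  have N2 : (N : ℝ) ≤ 2 * (J : ℝ) ^ 2 + 1 := by exact_mod_cast n2
  have N0 : (0 : ℝ) < N := lt_of_lt_of_le (by positivity) N1
  have k5 : Λ ≤ J * σ := by
    rw [← div_le_iff₀ σ0]
    exact (Nat.le_ceil _).trans (by exact_mod_cast j5)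
  have k6 : Λ ≤ J := (Nat.le_ceil _).trans (by exact_mod_cast j6)
  have k7 : 9 * Λ ^ 2 ≤ J * ε := by
    rw [← div_le_iff₀ hε]
    exact (Nat.le_ceil _).trans (by exact_mod_cast j7)
  have hS := H₄ J j3 E w a (by have := hE.deg; omega) (hn.mono (min_le_right _ _))
  set ρ := Real.exp (-Λ / N) with hρ
  have ρ0 : 0 < ρ := Real.exp_pos _
  have ρ1 : ρ < 1 := by
    rw [hρ, Real.exp_lt_one_iff]
    exact div_neg_of_neg_of_pos (by linarith) N0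
  have ρ2 : 1 - σ / J ≤ ρ := thma_rho J0 σ0 N1 k5
  obtain ⟨g, c, -, -, hk⟩ := hn.root
  have ha : ‖a‖ = 1 := hk.2.1
  have hb : ‖a ^ 2‖ = 1 := by rw [norm_pow, ha, one_pow]
  have E1 : ‖E.coeff 1‖ = 1 := by
    have := hn.sr.2.2.2.1
    rw [((E.hasDerivAt 0).const_mul (a ^ 2)).deriv, ← Polynomial.coeff_zero_eq_eval_zero,
      Polynomial.coeff_derivative] at this
    have := congrArg norm this
    simpa [ha] using this
  obtain ⟨q, q0, q1, q2⟩ := H₂ J j1 E w a h σ ρ (hn.mono (min_le_left _ _))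
    (hS.mono (min_le_left _ _)) σ0 σ1 ρ2
  have hA := gq_area_rot hn.sr hn.sch (by omega : 1 ≤ J) ρ0 ρ1 hb (F := fun z => E.eval z)
    fun _ => rfl
  have L2 : ‖Lam J w (tay fun z => a ^ 2 * E.eval z)‖ ≤ (J : ℝ) ^ 2 := by
    have := pair_scaled hn.sr one_pos le_rfl hn.sch (by omega : 1 ≤ J)
    rwa [one_pow, one_mul] at this
  rcases le_total (Λ + Real.sin D - ε / 3) 0 with s0 | s0
  · have t0 : (0 : ℝ) ≤ (J : ℝ) ^ 3 / N := by positivity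
    have := mul_nonneg (show 0 ≤ -(Real.sin D - ε) by linarith) t0
    linarith
  set K := (fun z => E.eval z) '' closedBall 0 ρ with hK
  have Kc : IsClosed K :=
    ((isCompact_closedBall (0 : ℂ) ρ).image E.continuous).isClosed
  have hv : ∀ j < m, ENNReal.ofReal ((Λ + Real.sin D - ε / 3) *
      (8 * τ * (J : ℝ) ^ 5 / (N * (8 * e + j * τ + τ) ^ 6))) ≤
      volume (Box J (8 * e + j * τ) (8 * e + j * τ + τ) \ K) := fun j hj => by
    refine H₃ J j2 N n1 n2 β σ _ E hE E1 (hS.mono (min_le_right _ _)) ρ2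
      (le_add_of_nonneg_right (by positivity)) ?_
    have : (j : ℝ) + 1 ≤ m := by exact_mod_cast hj
    have := mul_le_mul_of_nonneg_right this τ0.le
    linarith
  have main := thma_sum (J := J) e0 τ0 Kc q0 q1 hv (fun j => by positivity) hA
  have r1 := thma_exp (J := J) (by omega) Λ1 k6 N1
  rw [← hρ] at r1
  have r0 : 0 ≤ (J : ℝ) ^ 2 / ρ ^ (J - 1) - ‖Lam J w (tay fun z => a ^ 2 * E.eval z)‖ := by
    have := pair_scaled (ρ := ρ) ⟨hn.sr.1.mono (ball_subset_ball ρ1.le),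
      hn.sr.2.1.mono (ball_subset_ball ρ1.le), hn.sr.2.2.1, hn.sr.2.2.2.1,
      hn.sr.2.2.2.2.imp fun R hR z hz => hR z (ball_subset_ball ρ1.le hz)⟩ ρ0 ρ1.le hn.sch
      (by omega : 1 ≤ J)
    rw [sub_nonneg, le_div_iff₀ (by positivity)]
    linarith
  have main2 := main (by positivity)
  have s1 : ∑ j ∈ range m, q j * ((Λ + Real.sin D - ε / 3) *
      (8 * τ * (J : ℝ) ^ 5 / (N * (8 * e + j * τ + τ) ^ 6))) = (Λ + Real.sin D - ε / 3) / N *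
      ∑ j ∈ range m, q j * (8 * τ * (J : ℝ) ^ 5 / (8 * e + j * τ + τ) ^ 6) := by
    rw [mul_sum]
    refine sum_congr rfl fun j _ => ?_
    have : 0 < 8 * e + j * τ + τ := by positivity
    field_simp
  rw [s1] at main2
  have s2 := (mul_le_mul_of_nonneg_left q2 (div_nonneg s0 N0.le)).trans main2
  have s3 : (Λ + Real.sin D - ε / 3) * (1 - ε / (3 * (Λ + 1))) * ((J : ℝ) ^ 3 / N) ≤
      (J : ℝ) ^ 2 / ρ ^ (J - 1) - ‖Lam J w (tay fun z => a ^ 2 * E.eval z)‖ := by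
    refine le_of_mul_le_mul_left (le_trans (le_of_eq ?_) s2) Real.two_pi_pos
    ring
  exact thma_num hε Λ1 J2 N1 N2 k7 (Real.sin_le_one D) r1 s3

end Pool.Agent.P.MP_c09211_an.Sh.GL
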