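import Pool.Agent.P.MP_c09211_an.GL.Real

/-!
The case of a unimodal sequence of values (paper: R3).
-/

set_option autoImplicit false

namespace Pool.Agent.P.MP_c09211_an.Sh.GL

open Metric Set Finset PowerSeries Complex Filter Topology Real MeasureTheory
open scoped ComplexConjugate

variable {ι : Type} {F : ι → ℝ → ℝ}

theorem unim_inv (s : Equiv.Perm ι) (i : ι) : s (s⁻¹ i) = i := s.apply_symm_apply i

/-- The state of the chain of exchanges. -/
structure UnimInv {n : ℕ} (F : Fin (n + 1) → ℝ → ℝ) (α : ℝ) (p : Fin (n + 1)) (k : ℕ)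
    (v : Equiv.Perm (Fin (n + 1))) : Prop where
  rl : Rl F α (α + π) ((finRotate (n + 1))⁻¹ * v)
  base : ∀ j : Fin (n + 1), (j : ℕ) = k → v p = finRotate (n + 1) j
  fix : ∀ j : Fin (n + 1), (j : ℕ) ≤ k → (j : ℕ) ≠ 0 → j ≠ p → v j = j
  rest : ∀ j : Fin (n + 1), k < (j : ℕ) → v j = finRotate (n + 1) j

theorem unim_step {n : ℕ} {F : Fin (n + 1) → ℝ → ℝ} (hF : ∀ i, Continuous (F i))
    (hs : ∀ i φ, F i (φ + π) = -F (finRotate (n + 1) i) φ) {α : ℝ} {y : ℕ → ℝ}
    (hy : ∀ i : Fin (n + 1), F i α = y i) (hl : y (n + 1) = y 0) {p : Fin (n + 1)} {k : ℕ}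
    (hp : (p : ℕ) ≤ k) (hk : k + 1 ≤ n) (h : 0 ≤ (y p - y (k + 1)) * (y (k + 1) - y (k + 2)))
    {v : Equiv.Perm (Fin (n + 1))} (H : UnimInv F α p k v) : ∃ v', UnimInv F α p (k + 1) v' := by
  obtain ⟨K, hK⟩ : ∃ K : Fin (n + 1), (K : ℕ) = k + 1 := ⟨⟨k + 1, by omega⟩, rfl⟩
  have e1 : v p = K := by
    rw [H.base ⟨k, by omega⟩ rfl]
    refine Fin.ext ?_
    rw [coe_finRotate_of_ne_last (fun e => by simpa using (congrArg Fin.val e).trans_gt hk), hK]
  have e2 : v K = finRotate (n + 1) K := H.rest K (by omega)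
  have e3 : F (finRotate (n + 1) K) α = y (k + 2) := by
    rw [hy, coe_finRotate]
    split_ifs with e
    · have : k + 1 = n := by simpa [hK] using congrArg Fin.val e
      rw [← hl, ← this]
    · rw [hK]
  refine ⟨v * Equiv.swap p K, ?_, fun j hj => ?_, fun j h1 h2 h3 => ?_, fun j hj => ?_⟩
  · rw [← mul_assoc]
    refine H.rl.insert hF ?_
    simp only [hs, Equiv.Perm.mul_apply, unim_inv]
    rw [e1, e2, e3, hy, hy, hK]
    linarith
  · rw [Equiv.Perm.mul_apply, Equiv.swap_apply_left, e2, show j = K from Fin.ext (by omega)]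
  · rw [Equiv.Perm.mul_apply]
    by_cases e : j = K
    · rw [e, Equiv.swap_apply_right, e1]
    · have : (j : ℕ) ≠ K := fun e' => e (Fin.ext e')
      rw [Equiv.swap_apply_of_ne_of_ne h3 e, H.fix j (by omega) h2 h3]
  · rw [Equiv.Perm.mul_apply, Equiv.swap_apply_of_ne_of_ne (fun e => by subst e; omega)
      (fun e => by subst e; omega), H.rest j (by omega)]

/-- The case of a cyclically unimodal sequence of values (paper: R3). -/
theorem good_unimodal {n m : ℕ} {F : Fin (n + 1) → ℝ → ℝ} (hF : ∀ i, Continuous (F i))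
    (hs : ∀ i φ, F i (φ + π) = -F (finRotate (n + 1) i) φ) {α : ℝ} {y : ℕ → ℝ}
    (hy : ∀ i : Fin (n + 1), F i α = y i) (hl : y (n + 1) = y 0) (m0 : 0 < m) (m1 : m ≤ n)
    (h1 : ∀ k < m, y (k + 1) ≤ y k) (h2 : ∀ k, m ≤ k → k ≤ n → y k ≤ y (k + 1)) :
    Good F (finRotate (n + 1)) α := by
  have a1 : ∀ k ≤ m, y k ≤ y 0 := by
    intro k hk
    induction k with
    | zero => exact le_rfl
    | succ k ih => exact (h1 k (by omega)).trans (ih (by omega))
  have a2 : ∀ k, m ≤ k → k ≤ n → y m ≤ y k := by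
    intro k hk
    induction k, hk using Nat.le_induction with
    | base => exact fun _ => le_rfl
    | succ k hk ih => exact fun h => (ih (by omega)).trans (h2 k hk (by omega))
  have c1 : ∀ k < m, ∃ v, UnimInv F α 0 k v := by
    intro k hk
    induction k with
    | zero =>
      refine ⟨finRotate (n + 1), ?_, fun j hj => ?_, fun j h h' => absurd (by omega) h',
        fun _ _ => rfl⟩
      · rw [inv_mul_cancel]
        exact Rl.refl (by linarith [Real.pi_pos])
      · rw [show j = 0 from Fin.ext hj]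
    | succ k ih =>
      obtain ⟨v, hv⟩ := ih (by omega)
      exact unim_step hF hs hy hl (Nat.zero_le k) (by omega)
        (mul_nonneg (sub_nonneg.2 (a1 _ (by omega))) (sub_nonneg.2 (h1 _ hk))) hv
  obtain ⟨M, hM⟩ : ∃ M : Fin (n + 1), (M : ℕ) = m := ⟨⟨m, by omega⟩, rfl⟩
  have c2 : ∀ k, m ≤ k → k ≤ n → ∃ v, UnimInv F α M k v := by
    intro k hk
    induction k, hk using Nat.le_induction with
    | base =>
      intro _
      obtain ⟨v, hv⟩ := c1 (m - 1) (by omega)
      refine ⟨v, hv.rl, fun j hj => ?_, fun j b1 b2 b3 => ?_, fun j hj => hv.rest j (by omega)⟩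
      · rw [hv.rest M (by omega), show j = M from Fin.ext (by omega)]
      · have : (j : ℕ) ≠ M := fun e => b3 (Fin.ext e)
        exact hv.fix j (by omega) b2 fun e => b2 (by rw [e]; rfl)
    | succ k hk ih =>
      intro h
      obtain ⟨v, hv⟩ := ih (by omega)
      refine unim_step hF hs hy hl (by omega) h ?_ hv
      rw [hM]
      exact mul_nonneg_of_nonpos_of_nonpos (sub_nonpos.2 (a2 _ (by omega) h))
        (sub_nonpos.2 (h2 _ (by omega) h))
  obtain ⟨v, hv⟩ := c2 n m1 le_rfl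
  refine ⟨_, hv.rl, ?_⟩
  rw [← Finset.card_univ]
  refine (Finset.card_le_card (t := (univ.filter fun i =>
    finRotate (n + 1) (((finRotate (n + 1))⁻¹ * v) i) = i) ∪ {0, M}) fun i _ => ?_).trans
    ((Finset.card_union_le _ _).trans (Nat.add_le_add_left Finset.card_le_two _))
  by_cases e0 : i = 0
  · simp [e0]
  by_cases e1 : i = M
  · simp [e1]
  refine Finset.mem_union_left _ (Finset.mem_filter.2 ⟨Finset.mem_univ _, ?_⟩)
  rw [Equiv.Perm.mul_apply, unim_inv]
  exact hv.fix i (Nat.lt_succ_iff.1 i.2) (fun e => e0 (Fin.ext e)) e1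

end Pool.Agent.P.MP_c09211_an.Sh.GL
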