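import Pool.Agent.P.MP_c09211_an.GL.WlemA
import Pool.Agent.P.MP_c09211_an.GL.Homot
import Pool.Agent.P.MP_c09211_an.GL.Unim
import Pool.Agent.P.MP_c09211_an.Sh.Up

/-!
The crossings of the branches of a univalent polynomial (paper: R3, R4).
-/

set_option autoImplicit false

namespace Pool.Agent.P.MP_c09211_an.Sh.GL

open Metric Set Finset PowerSeries Complex Filter Topology Real MeasureTheory
open scoped ComplexConjugate

variable {n : ℕ} {P : Polynomial ℂ} {c : ℂ}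

/-- The cyclic difference of two indices. -/
def WlemB_k {N : ℕ} (a b : Fin N) : ℕ := if (a : ℕ) < b then b - a else b + N - a

theorem WlemB_k_pos {a b : Fin (n + 1)} : 0 < WlemB_k a b := by
  have := a.2
  unfold WlemB_k
  split_ifs <;> omega

theorem WlemB_k_le {a b : Fin (n + 1)} (h : a ≠ b) : WlemB_k a b ≤ n := by
  have := b.2
  have := Fin.val_ne_of_ne h
  unfold WlemB_k
  split_ifs <;> omega

theorem WlemB_k_inj {N : ℕ} {a b b' : Fin N} (h : WlemB_k a b = WlemB_k a b') : b = b' := by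
  have := a.2
  have := b.2
  have := b'.2
  unfold WlemB_k at h
  apply Fin.ext
  split_ifs at h <;> omega

theorem WlemB_br {N : ℕ} {p : ℝ → ℝ} (hp : ∀ x, p (x + N * π) = (-1) ^ N * p x) (a b : Fin N)
    (φ : ℝ) : br N p a φ - br N p b φ = (-1) ^ (a : ℕ) *
      (p (φ + a * π) - (-1) ^ WlemB_k a b * p (φ + a * π + WlemB_k a b * π)) := by
  have ha := a.2
  rw [br, br, mul_sub, ← mul_assoc, ← pow_add, add_assoc, ← add_mul, ← Nat.cast_add, WlemB_k]
  split_ifs with h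
  · rw [Nat.add_sub_cancel' h.le]
  · rw [Nat.add_sub_cancel' (by omega), Nat.cast_add, add_mul, ← add_assoc, hp, ← mul_assoc,
      ← pow_add, add_assoc, pow_add, ← two_mul, pow_mul]
    simp

theorem WlemB_eq {N : ℕ} {p : ℝ → ℝ} (hp : ∀ x, p (x + N * π) = (-1) ^ N * p x) {a b : Fin N}
    {φ : ℝ} (h : br N p a φ = br N p b φ) :
    p (φ + a * π) = (-1) ^ WlemB_k a b * p (φ + a * π + WlemB_k a b * π) := by
  have h1 := WlemB_br hp a b φ
  rw [h, sub_self] at h1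
  exact sub_eq_zero.1 ((mul_eq_zero.1 h1.symm).resolve_left (pow_ne_zero _ (by norm_num)))

theorem br_simple (hn : 2 ≤ n) (H : Hyp n P) (hc : c ≠ 0) (β : ℝ) :
    Simple (br (n + 1) (pf (cv (n + 1) β (Polynomial.C c * P)))) := by
  intro a b φ hab h
  have hp := pf_per n.succ_pos β (Polynomial.C c * P)
  obtain ⟨d, hd, hD⟩ := w_simple hn H hc β WlemB_k_pos (WlemB_k_le hab) (WlemB_eq hp h)
  refine ⟨(-1) ^ (a : ℕ) * d, mul_ne_zero (pow_ne_zero _ (by norm_num)) hd, ?_⟩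
  simp only [WlemB_br hp]
  exact (hD.comp_add_const φ (a * π)).const_mul _

theorem br_cnt (hn : 2 ≤ n) (H : Hyp n P) (hc : c ≠ 0) (β : ℝ) :
    Cnt (br (n + 1) (pf (cv (n + 1) β (Polynomial.C c * P)))) := by
  intro α T hT
  have hp := pf_per n.succ_pos β (Polynomial.C c * P)
  have hπ := Real.pi_pos
  have h1 := Finset.card_le_mul_card_image_of_maps_to (s := T) (t := Finset.Icc 1 n)
    (f := fun q => WlemB_k q.2.1 q.2.2)
    (fun q hq => Finset.mem_Icc.2 ⟨WlemB_k_pos, WlemB_k_le (hT q hq).2.2.1⟩) (n - 1) ?_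
  · rw [Nat.card_Icc, Nat.add_sub_cancel, mul_comm] at h1
    exact h1
  intro k hk
  obtain ⟨k0, k1⟩ := Finset.mem_Icc.1 hk
  rw [← Finset.card_image_of_injOn (f := fun q : ℝ × Fin (n + 1) × Fin (n + 1) =>
    q.1 + (q.2.1 : ℕ) * π)]
  · refine w_card hn H hc β k0 k1 (α := α) fun x hx => ?_
    obtain ⟨q, hq, rfl⟩ := Finset.mem_image.1 hx
    obtain ⟨hq', rfl⟩ := Finset.mem_filter.1 hq
    obtain ⟨q1, q2, -, q4⟩ := hT q hq'
    have h2 : ((q.2.1 : ℕ) : ℝ) ≤ n := by exact_mod_cast Nat.lt_succ_iff.1 q.2.1.2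
    refine ⟨le_add_of_le_of_nonneg q1 (by positivity), ?_, WlemB_eq hp q4⟩
    push_cast
    nlinarith
  · rintro ⟨φ, a, b⟩ hq ⟨φ', a', b'⟩ hq' e
    obtain ⟨hq, e1⟩ := Finset.mem_filter.1 hq
    obtain ⟨hq', e2⟩ := Finset.mem_filter.1 hq'
    obtain ⟨q1, q2, -, -⟩ := hT _ hq
    obtain ⟨q3, q4, -, -⟩ := hT _ hq'
    simp only at e q1 q2 q3 q4 e1 e2
    have h3 : ((a : ℕ) : ℝ) < (a' : ℕ) + 1 := lt_of_mul_lt_mul_right (by linarith) hπ.le
    have h4 : ((a' : ℕ) : ℝ) < (a : ℕ) + 1 := lt_of_mul_lt_mul_right (by linarith) hπ.le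
    have h5 : (a : ℕ) < a' + 1 := by exact_mod_cast h3
    have h6 : (a' : ℕ) < a + 1 := by exact_mod_cast h4
    obtain rfl : a = a' := Fin.ext (by omega)
    rw [add_right_cancel e, WlemB_k_inj (e1.trans e2.symm)]

theorem WlemB_pfX (N : ℕ) (c : ℂ) (β x : ℝ) : pf (cv N β (Polynomial.C c * Polynomial.X)) x =
    ‖c‖ * Real.sin (arg c + 2 * (x - β) / N - x) := by
  have h : c = ‖c‖ * eI (arg c) := (Complex.norm_mul_exp_arg_mul_I c).symm
  rw [pf, Sw, cv, Polynomial.eval_mul, Polynomial.eval_C, Polynomial.eval_X, zc, ← eI_im,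
    sub_eq_add_neg _ x, eI_add, eI_add, ← Complex.im_ofReal_mul, ← mul_assoc, ← mul_assoc, ← h]

theorem WlemB_cos {N : ℕ} (k : ℕ) : Real.cos (2 * π * (k + 1 : ℕ) / N) - Real.cos (2 * π * k / N) =
    -2 * Real.sin ((2 * k + 1 : ℕ) * π / N) * Real.sin (π / N) := by
  rw [Real.cos_sub_cos]
  congr 2
  · congr 1
    push_cast
    ring
  · push_cast
    ring

/-- The case of the identity map, from `good_unimodal`. -/
theorem br_good_X (hn : 2 ≤ n) (c : ℂ) (β : ℝ) : ∃ α,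
    Good (br (n + 1) (pf (cv (n + 1) β (Polynomial.C c * Polynomial.X)))) (finRotate (n + 1)) α := by
  have hπ := Real.pi_pos
  have hN : (3 : ℝ) ≤ (n + 1 : ℕ) := by exact_mod_cast Nat.succ_le_succ hn
  have hN0 : (0 : ℝ) < (n + 1 : ℕ) := by linarith
  have hs : 0 ≤ Real.sin (π / (n + 1 : ℕ)) :=
    Real.sin_nonneg_of_nonneg_of_le_pi (by positivity) (div_le_self hπ.le (by linarith))
  obtain ⟨α, hα⟩ : ∃ α : ℝ, arg c + 2 * (α - β) / (n + 1 : ℕ) - α = π / 2 := by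
    refine ⟨((arg c - π / 2) * (n + 1 : ℕ) - 2 * β) / ((n + 1 : ℕ) - 2), ?_⟩
    have : ((n + 1 : ℕ) : ℝ) - 2 ≠ 0 := by linarith
    field_simp
    ring
  refine ⟨α, good_unimodal (m := (n + 1) / 2) (br_cont (pf_cont _ _ _))
    (br_shift (pf_per n.succ_pos β _)) (y := fun k => ‖c‖ * Real.cos (2 * π * k / (n + 1 : ℕ)))
    (fun i => ?_) ?_ (by omega) (by omega) (fun k hk => ?_) fun k hk hk' => ?_⟩
  · rw [br, WlemB_pfX, show arg c + 2 * (α + (i : ℕ) * π - β) / (n + 1 : ℕ) - (α + (i : ℕ) * π) =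
      2 * π * (i : ℕ) / (n + 1 : ℕ) + π / 2 - (i : ℕ) * π by rw [← hα]; ring,
      Real.sin_sub_nat_mul_pi, Real.sin_add_pi_div_two, mul_left_comm, ← mul_assoc ((-1 : ℝ) ^ _),
      ← pow_add, ← two_mul, pow_mul]
    simp
  · rw [mul_div_cancel_right₀ _ hN0.ne']
    simp
  · refine mul_le_mul_of_nonneg_left (sub_nonpos.1 ?_) (norm_nonneg c)
    have h1 : ((2 * k + 1 : ℕ) : ℝ) ≤ (n + 1 : ℕ) := by exact_mod_cast (by omega)
    have h2 : 0 ≤ Real.sin ((2 * k + 1 : ℕ) * π / (n + 1 : ℕ)) :=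
      Real.sin_nonneg_of_nonneg_of_le_pi (by positivity) (by rw [div_le_iff₀ hN0]; nlinarith)
    rw [WlemB_cos]
    nlinarith [mul_nonneg h2 hs]
  · refine mul_le_mul_of_nonneg_left (sub_nonneg.1 ?_) (norm_nonneg c)
    have h1 : ((n + 1 : ℕ) : ℝ) ≤ (2 * k + 1 : ℕ) := by exact_mod_cast (by omega)
    have h1' : ((2 * k + 1 : ℕ) : ℝ) ≤ 2 * (n + 1 : ℕ) := by exact_mod_cast (by omega)
    have h2 : 0 ≤ Real.sin ((2 * k + 1 : ℕ) * π / (n + 1 : ℕ) - π) :=
      Real.sin_nonneg_of_nonneg_of_le_pi (by rw [sub_nonneg, le_div_iff₀ hN0]; nlinarith)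
        (by rw [sub_le_iff_le_add, div_le_iff₀ hN0]; nlinarith)
    rw [Real.sin_sub_pi] at h2
    rw [WlemB_cos]
    nlinarith [mul_nonneg h2 hs]

/-- The deformation of a polynomial. -/
noncomputable def WlemB_h (P : Polynomial ℂ) (t : ℝ) : Polynomial ℂ :=
  Polynomial.X * P.divX.comp (Polynomial.C (t : ℂ) * Polynomial.X)

theorem WlemB_h_zero (H : Hyp n P) : WlemB_h P 0 = Polynomial.X := by
  simp [WlemB_h, ← Polynomial.coeff_zero_eq_eval_zero, Polynomial.coeff_divX, H.2.2.1]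

theorem WlemB_h_eq (H : Hyp n P) {t : ℝ} (ht : t ≠ 0) : WlemB_h P t = upRot t P := by
  have h1 := P.X_mul_divX_add
  rw [H.2.1, map_zero, add_zero] at h1
  have h2 : (Polynomial.C (t : ℂ)⁻¹ : Polynomial ℂ) * Polynomial.C (t : ℂ) = 1 := by
    rw [← map_mul, inv_mul_cancel₀ (by exact_mod_cast ht), map_one]
  conv_rhs => rw [← h1, upRot, Polynomial.mul_comp, Polynomial.X_comp]
  rw [WlemB_h, ← mul_assoc, ← mul_assoc, h2, one_mul]

theorem WlemB_h_hyp (hn : 2 ≤ n) (H : Hyp n P) {t : ℝ} (ht : t ∈ Set.Icc (0 : ℝ) 1) :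
    Hyp n (WlemB_h P t) := by
  rcases eq_or_ne t 0 with rfl | h0
  · rw [WlemB_h_zero H]
    exact ⟨by simp; omega, by simp, by simp, 2, one_lt_two, fun z _ w _ h => by simpa using h⟩
  · obtain ⟨R, hR, hi⟩ := H.2.2.2
    rw [WlemB_h_eq H h0]
    refine upRot_hyp H.1 H.2.1 H.2.2.1 hi (by exact_mod_cast h0) (lt_of_le_of_lt ?_ hR)
    rw [Complex.norm_real, Real.norm_of_nonneg ht.1]
    exact ht.2

/-- The homotopy `z * (divX P) (t z)`, from `good_homot`. -/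
theorem br_good (hn : 2 ≤ n) (H : Hyp n P) (hc : c ≠ 0) (β α : ℝ) :
    Good (br (n + 1) (pf (cv (n + 1) β (Polynomial.C c * P)))) (finRotate (n + 1)) α := by
  obtain ⟨α₀, h0⟩ := br_good_X hn c β
  have h1 : WlemB_h P 1 = P := by
    rw [WlemB_h_eq H one_ne_zero]
    simp [upRot]
  have h2 := good_homot (α := α₀) (s := finRotate (n + 1))
    (F := fun t => br (n + 1) (pf (cv (n + 1) β (Polynomial.C c * WlemB_h P t)))) (fun i => ?_)
    (fun t => br_shift (pf_per n.succ_pos β _))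
    (fun t ht => br_simple hn (WlemB_h_hyp hn H ht) hc β) (by rwa [WlemB_h_zero H])
  · rw [h1] at h2
    exact h2.base (br_shift (pf_per n.succ_pos β _)) α
  · have h3 := eI_cont
    have h4 := P.divX.continuous
    simp only [br, pf, Sw, cv, zc, WlemB_h, Polynomial.eval_mul, Polynomial.eval_C,
      Polynomial.eval_X, Polynomial.eval_comp]
    fun_prop

end Pool.Agent.P.MP_c09211_an.Sh.GL
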