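import Pool.Agent.P.MP_c09211_an.GL.Basic

/-!
Zeros of the pseudolines (paper: Z).
-/

set_option autoImplicit false

namespace Pool.Agent.P.MP_c09211_an.Sh.GL

open Metric Set Finset PowerSeries Complex Filter Topology Real MeasureTheory
open scoped ComplexConjugate

variable {N : ℕ} {β : ℝ} {E : Polynomial ℂ}

/-- Two points of a window of length `π` that differ by a multiple of `π` are equal. -/
theorem zeroB_win {α x y : ℝ} (hx : α ≤ x) (hx' : x < α + π) (hy : α ≤ y) (hy' : y < α + π)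
    {j : ℤ} (h : y = x + j * π) : x = y := by
  have hπ := Real.pi_pos
  have h1 : (j : ℝ) < 1 := by
    by_contra hc
    have := mul_le_mul_of_nonneg_right (not_lt.1 hc) hπ.le
    linarith
  have h2 : (-1 : ℝ) < j := by
    by_contra hc
    have := mul_le_mul_of_nonneg_right (not_lt.1 hc) hπ.le
    linarith
  have h3 : j < 1 := by exact_mod_cast h1
  have h4 : -1 < j := by exact_mod_cast h2
  have h5 : j = 0 := by omega
  rw [h, h5]
  simp

/-- Zeros of the pseudolines give zeros of the distance function. -/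
theorem Res.zsum {p : ℝ → ℝ} {cl : ℝ → Option (Fin (N - 2))} {g : Fin (N - 2) → ℝ → ℝ}
    (H : Res N p cl g) (w : ℂ) (α : ℝ) (Y : Fin (N - 2) → Finset ℝ)
    (hY : ∀ Δ, ∀ x ∈ Y Δ, α ≤ x ∧ x < α + π ∧ g Δ x = Sw w x) :
    ∃ Z : Finset ℝ, (∀ x ∈ Z, α ≤ x ∧ x < α + N * π ∧ p x = Sw w x) ∧
      Z.card = ∑ Δ, (Y Δ).card := by
  classical
  have hπ := Real.pi_pos
  choose j hj hcl using fun (x : ℝ) (Δ : Fin (N - 2)) => H.hit x (some Δ)
  refine ⟨(Finset.univ.sigma Y).image fun q => q.2 + j q.2 q.1 * π, ?_, ?_⟩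
  · intro z hz
    obtain ⟨⟨Δ, x⟩, hq, rfl⟩ := Finset.mem_image.1 hz
    obtain ⟨h1, h2, h3⟩ := hY Δ x (Finset.mem_sigma.1 hq).2
    have h4 : (j x Δ : ℝ) + 1 ≤ N := by exact_mod_cast hj x Δ
    have h5 : (0 : ℝ) ≤ j x Δ * π := by positivity
    have h6 := mul_le_mul_of_nonneg_right h4 hπ.le
    refine ⟨by dsimp only; linarith, by dsimp only; linarith, ?_⟩
    dsimp only
    rw [← H.agree _ Δ (hcl x Δ), anti_nat (H.anti Δ), anti_nat (Sw_anti w), h3]
  · rw [Finset.card_image_of_injOn, Finset.card_sigma]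
    rintro ⟨Δ, x⟩ hq ⟨Δ', x'⟩ hq' he
    dsimp only at he
    have h1 : Δ = Δ' := by
      have h2 := hcl x Δ
      rw [he, hcl x' Δ'] at h2
      exact (Option.some.inj h2).symm
    subst h1
    obtain ⟨a1, a2, -⟩ := hY Δ x (Finset.mem_sigma.1 hq).2
    obtain ⟨b1, b2, -⟩ := hY Δ x' (Finset.mem_sigma.1 hq').2
    have h3 : x = x' := zeroB_win a1 a2 b1 b2 (j := (j x Δ : ℤ) - j x' Δ) (by
      push_cast
      linarith)
    rw [h3]

/-- There are `k` zeros in the window that starts at the origin. -/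
def ZeroBHas (G : ℝ → ℝ) (k : ℕ) : Prop :=
  ∃ Y : Finset ℝ, (∀ x ∈ Y, 0 ≤ x ∧ x < 0 + π ∧ G x = 0) ∧ Y.card = k

/-- Reduction of zeros modulo `π`. -/
theorem zeroB_red {G : ℝ → ℝ} (hG : ∀ x, G (x + π) = -G x) (Z : Finset ℝ)
    (h0 : ∀ x ∈ Z, G x = 0) (hi : ∀ x ∈ Z, ∀ y ∈ Z, ∀ j : ℤ, y = x + j * π → x = y) :
    ZeroBHas G Z.card := by
  classical
  have hπ := Real.pi_pos
  have key : ∀ x : ℝ, toIcoMod hπ 0 x = x + (-toIcoDiv hπ 0 x : ℤ) * π := fun x => by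
    have := toIcoMod_add_toIcoDiv_zsmul hπ 0 x
    rw [zsmul_eq_mul] at this
    push_cast
    linarith
  refine ⟨Z.image (toIcoMod hπ 0), ?_, Finset.card_image_of_injOn ?_⟩
  · intro z hz
    obtain ⟨x, hx, rfl⟩ := Finset.mem_image.1 hz
    have h1 := toIcoMod_mem_Ico hπ 0 x
    refine ⟨h1.1, h1.2, ?_⟩
    rw [key, anti_int hG, h0 x hx, mul_zero]
  · intro x hx y hy he
    rw [key, key] at he
    refine hi x hx y hy (toIcoDiv hπ 0 y - toIcoDiv hπ 0 x) ?_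
    push_cast at he ⊢
    linarith

theorem zeroB_ivt {G : ℝ → ℝ} (hc : Continuous G) {a b : ℝ} (hab : a < b) (h : G a * G b < 0) :
    ∃ x, a < x ∧ x < b ∧ G x = 0 := by
  rcases mul_neg_iff.1 h with ⟨h1, h2⟩ | ⟨h1, h2⟩
  · obtain ⟨x, hx, hx0⟩ := intermediate_value_Ioo' hab.le hc.continuousOn (show (0 : ℝ) ∈ _ from
      ⟨h2, h1⟩)
    exact ⟨x, hx.1, hx.2, hx0⟩
  · obtain ⟨x, hx, hx0⟩ := intermediate_value_Ioo hab.le hc.continuousOn (show (0 : ℝ) ∈ _ from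
      ⟨h1, h2⟩)
    exact ⟨x, hx.1, hx.2, hx0⟩

/-- A continuous antiperiodic function has a zero. -/
theorem zeroB_one {G : ℝ → ℝ} (hc : Continuous G) (hG : ∀ x, G (x + π) = -G x) :
    ZeroBHas G 1 := by
  have hπ := Real.pi_pos
  by_cases h0 : G 0 = 0
  · exact ⟨{0}, by simpa using ⟨hπ, h0⟩, Finset.card_singleton _⟩
  · obtain ⟨x, h1, h2, h3⟩ := zeroB_ivt hc (a := 0) (b := 0 + π) (by linarith) (by
      rw [hG]
      have := mul_self_pos.2 h0
      linarith)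
    refine ⟨{x}, fun y hy => ?_, Finset.card_singleton _⟩
    rw [Finset.mem_singleton.1 hy]
    exact ⟨h1.le, h2, h3⟩

/-- Two changes of sign give three zeros. -/
theorem zeroB_three {G : ℝ → ℝ} (hc : Continuous G) (hG : ∀ x, G (x + π) = -G x) (h : Alt G) :
    ZeroBHas G 3 := by
  classical
  obtain ⟨x₁, x₂, x₃, h12, h23, h31, s1, s2⟩ := h
  have s3 : G x₃ * G (x₁ + π) < 0 := by
    rw [hG]
    have h1 : 0 < G x₁ * G x₂ * (G x₂ * G x₃) := mul_pos_of_neg_of_neg s1 s2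
    have h2 : 0 ≤ G x₂ * G x₂ := mul_self_nonneg _
    by_contra hc
    have h3 : G x₁ * G x₃ ≤ 0 := by linarith [not_lt.1 hc]
    have h4 := mul_nonpos_of_nonneg_of_nonpos h2 h3
    linarith
  obtain ⟨a, a1, a2, a3⟩ := zeroB_ivt hc h12 s1
  obtain ⟨b, b1, b2, b3⟩ := zeroB_ivt hc h23 s2
  obtain ⟨c, c1, c2, c3⟩ := zeroB_ivt hc h31 s3
  have hw : ∀ x ∈ ({a, b, c} : Finset ℝ), x₁ ≤ x ∧ x < x₁ + π ∧ G x = 0 := by
    intro x hx
    simp only [Finset.mem_insert, Finset.mem_singleton] at hx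
    rcases hx with rfl | rfl | rfl
    · exact ⟨by linarith, by linarith, a3⟩
    · exact ⟨by linarith, by linarith, b3⟩
    · exact ⟨by linarith, by linarith, c3⟩
  have hcard : ({a, b, c} : Finset ℝ).card = 3 :=
    Finset.card_eq_three.2 ⟨a, b, c, (show a < b by linarith).ne, (show a < c by linarith).ne,
      (show b < c by linarith).ne, rfl⟩
  rw [← hcard]
  exact zeroB_red hG _ (fun x hx => (hw x hx).2.2) fun x hx y hy j hj =>
    zeroB_win (hw x hx).1 (hw x hx).2.1 (hw y hy).1 (hw y hy).2.1 hj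

theorem Res.zeroB_cont {p : ℝ → ℝ} {cl : ℝ → Option (Fin (N - 2))} {g : Fin (N - 2) → ℝ → ℝ}
    (H : Res N p cl g) (w : ℂ) (Δ : Fin (N - 2)) : Continuous fun x => g Δ x - Sw w x :=
  (H.cont Δ).sub (Sw_cont w)

theorem Res.zeroB_anti {p : ℝ → ℝ} {cl : ℝ → Option (Fin (N - 2))} {g : Fin (N - 2) → ℝ → ℝ}
    (H : Res N p cl g) (w : ℂ) (Δ : Fin (N - 2)) (x : ℝ) :
    g Δ (x + π) - Sw w (x + π) = -(g Δ x - Sw w x) := by
  rw [H.anti, Sw_anti]
  ring

theorem Res.zeroB_sum {p : ℝ → ℝ} {cl : ℝ → Option (Fin (N - 2))} {g : Fin (N - 2) → ℝ → ℝ}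
    (H : Res N p cl g) (w : ℂ) (k : Fin (N - 2) → ℕ)
    (hk : ∀ Δ, ZeroBHas (fun x => g Δ x - Sw w x) (k Δ)) :
    ∃ Z : Finset ℝ, (∀ x ∈ Z, 0 ≤ x ∧ x < 0 + N * π ∧ p x = Sw w x) ∧ Z.card = ∑ Δ, k Δ := by
  choose Y hY hc using hk
  obtain ⟨Z, h1, h2⟩ := H.zsum w 0 Y fun Δ x hx =>
    ⟨(hY Δ x hx).1, (hY Δ x hx).2.1, sub_eq_zero.1 (hY Δ x hx).2.2⟩
  exact ⟨Z, h1, by rw [h2, Finset.sum_congr rfl fun Δ _ => hc Δ]⟩

theorem Res.zeros {p : ℝ → ℝ} {cl : ℝ → Option (Fin (N - 2))} {g : Fin (N - 2) → ℝ → ℝ}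
    (H : Res N p cl g) (w : ℂ) :
    ∃ Z : Finset ℝ, (∀ x ∈ Z, 0 ≤ x ∧ x < N * π ∧ p x = Sw w x) ∧ N - 2 ≤ Z.card := by
  obtain ⟨Z, h1, h2⟩ := H.zeroB_sum w (fun _ => 1) fun Δ =>
    zeroB_one (H.zeroB_cont w Δ) (H.zeroB_anti w Δ)
  refine ⟨Z, fun x hx => by simpa using h1 x hx, ?_⟩
  rw [h2]
  simp

/-- One pseudoline with `m + 1` zeros gives `N - 2 + m` zeros of the distance function. -/
theorem Res.zeroB_single {p : ℝ → ℝ} {cl : ℝ → Option (Fin (N - 2))}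
    {g : Fin (N - 2) → ℝ → ℝ} (H : Res N p cl g) (w : ℂ) (Δ : Fin (N - 2)) (m : ℕ)
    (hm : ZeroBHas (fun x => g Δ x - Sw w x) (1 + m)) :
    ∃ Z : Finset ℝ, (∀ x ∈ Z, 0 ≤ x ∧ x < 0 + N * π ∧ p x = Sw w x) ∧ Z.card = N - 2 + m := by
  obtain ⟨Z, h1, h2⟩ := H.zeroB_sum w (fun Δ' => 1 + if Δ' = Δ then m else 0) fun Δ' => by
    by_cases h : Δ' = Δ
    · rw [if_pos h, h]
      exact hm
    · rw [if_neg h]
      exact zeroB_one (H.zeroB_cont w Δ') (H.zeroB_anti w Δ')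
  refine ⟨Z, h1, ?_⟩
  rw [h2, Finset.sum_add_distrib]
  simp

theorem Res.cells (hN : 3 ≤ N) {c : ℝ → ℂ} {Ω : Set ℂ} {cl : ℝ → Option (Fin (N - 2))}
    {g : Fin (N - 2) → ℝ → ℝ} (H : Res N (pf c) cl g)
    (hZ : ∀ (w : ℂ) (α : ℝ) (Z : Finset ℝ), (∀ x ∈ Z, α ≤ x ∧ x < α + N * π ∧ pf c x = Sw w x) →
      Z.card ≤ N ∧ (Z.card = N → w ∉ Ω)) : Cells N c Ω cl g := by
  have hπ := Real.pi_pos
  refine ⟨H, fun Δ w h => ?_, fun Δ w α Z hZ' => ?_, fun Δ Δ' w h h' => ?_⟩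
  · obtain ⟨Z, h1, h2⟩ := H.zeroB_single w Δ 2
      (zeroB_three (H.zeroB_cont w Δ) (H.zeroB_anti w Δ) h)
    exact (hZ w 0 Z h1).2 (by omega)
  · by_contra hc
    have hlt : ∀ x ∈ Z, ∀ y ∈ Z, ∀ j : ℤ, y = x + j * π → ¬0 < j := by
      intro x hx y hy j hj hpos
      obtain ⟨a1, a2, a3, -⟩ := hZ' x hx
      obtain ⟨b1, b2, b3, -⟩ := hZ' y hy
      obtain ⟨n, rfl⟩ := Int.eq_ofNat_of_zero_le hpos.le
      have h1 : (n : ℝ) < N := by
        by_contra h2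
        have := mul_le_mul_of_nonneg_right (not_lt.1 h2) hπ.le
        push_cast at hj
        linarith
      refine H.uniq x Δ n (by exact_mod_cast hpos) (by exact_mod_cast h1) a3 ?_
      push_cast at hj
      rw [← hj]
      exact b3
    have hred := zeroB_red (G := fun x => g Δ x - Sw w x) (H.zeroB_anti w Δ) Z
      (fun x hx => by
        obtain ⟨-, -, a3, a4⟩ := hZ' x hx
        rw [H.agree x Δ a3, a4, sub_self])
      (fun x hx y hy j hj => by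
        have h1 := hlt x hx y hy j hj
        have h2 := hlt y hy x hx (-j) (by
          push_cast
          linarith)
        have h3 : j = 0 := by omega
        rw [hj, h3]
        simp)
    rw [show Z.card = 1 + (Z.card - 1) by omega] at hred
    obtain ⟨Z', h1, h2⟩ := H.zeroB_single w Δ _ hred
    have := (hZ w 0 Z' h1).1
    omega
  · by_contra hne
    obtain ⟨Z, h1, h2⟩ := H.zeroB_sum w
      (fun D => 1 + (if D = Δ then 2 else 0) + if D = Δ' then 2 else 0) fun D => by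
        by_cases a : D = Δ
        · rw [if_pos a, if_neg (by rw [a]; exact hne), a]
          exact zeroB_three (H.zeroB_cont w Δ) (H.zeroB_anti w Δ) h
        · rw [if_neg a]
          by_cases b : D = Δ'
          · rw [if_pos b, b]
            exact zeroB_three (H.zeroB_cont w Δ') (H.zeroB_anti w Δ') h'
          · rw [if_neg b]
            exact zeroB_one (H.zeroB_cont w D) (H.zeroB_anti w D)
    rw [Finset.sum_add_distrib, Finset.sum_add_distrib] at h2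
    simp only [Finset.sum_const, Finset.card_univ, Fintype.card_fin, smul_eq_mul, mul_one,
      Finset.sum_ite_eq', Finset.mem_univ, if_true] at h2
    have := (hZ w 0 Z h1).1
    omega

end Pool.Agent.P.MP_c09211_an.Sh.GL
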