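import Pool.Agent.P.MP_c09211_an.GL.ZeroA
import Pool.Agent.P.MP_c09211_an.GL.ZeroB
import Pool.Agent.P.MP_c09211_an.GL.WlemB
import Pool.Agent.P.MP_c09211_an.GL.ResB

/-!
The self-inversive companion (paper: T).
-/

set_option autoImplicit false

namespace Pool.Agent.P.MP_c09211_an.Sh.GL

open Metric Set Finset PowerSeries Complex Filter Topology Real MeasureTheory
open scoped ComplexConjugate

variable {n : ℕ} {P : Polynomial ℂ}

theorem tilde_conj (x : ℝ) : eI x * conj (eI x) = 1 := by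
  rw [← eI_neg]
  exact eI_mul_neg x

theorem tilde_arg {w : ℂ} (hw : ‖w‖ = 1) : ∃ β : ℝ, eI (2 * β) = w := by
  refine ⟨Complex.arg w / 2, ?_⟩
  have h := Complex.norm_mul_exp_arg_mul_I w
  rw [hw, Complex.ofReal_one, one_mul] at h
  rw [show 2 * (Complex.arg w / 2) = Complex.arg w by ring]
  exact h

theorem tilde_top (H : Hyp n P) : (n : ℝ) * ‖P.coeff n‖ ≤ 1 := by
  obtain ⟨m, rfl⟩ := Nat.exists_eq_add_of_le' H.one_le
  obtain ⟨h1, h2, h3, R, hR, hi⟩ := H
  have h := upper_core h1 h2 h3 hR hi (Nat.lt_succ_self m)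
  push_cast at h ⊢
  linarith

theorem tilde_Qs (n : ℕ) (P : Polynomial ℂ) (l : ℕ) : coeff l (tay (Qs n P)) =
    if l < n then conj (P.derivative.coeff (n - 1 - l)) else 0 := by
  have h : Qs n P = fun z => (∑ i ∈ range n,
      Polynomial.monomial i (conj (P.derivative.coeff (n - 1 - i)))).eval z := by
    funext z
    rw [Polynomial.eval_finsetSum, Qs]
    simp only [Polynomial.eval_monomial]
  rw [h, tay_poly, Polynomial.coeff_coe, Polynomial.finsetSum_coeff]
  simp only [Polynomial.coeff_monomial, Finset.sum_ite_eq', Finset.mem_range]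

theorem Tl_coeff (N : ℕ) (c : ℂ) (β : ℝ) (P : Polynomial ℂ) (k : ℕ) : (Tl N c β P).coeff k =
    ((N - k : ℕ) : ℂ) / N * (c * P.coeff k - eI (2 * β) * conj (c * P.coeff (N - k))) := by
  rw [Tl, Polynomial.finsetSum_coeff]
  simp only [Polynomial.coeff_monomial, Finset.sum_ite_eq', Finset.mem_range]
  split_ifs with h
  · rfl
  · rw [show N - k = 0 by omega]
    simp

theorem Tl_deg (c : ℂ) (β : ℝ) (P : Polynomial ℂ) : (Tl (n + 1) c β P).natDegree < n + 1 := by
  refine Nat.lt_succ_of_le (Polynomial.natDegree_le_iff_coeff_eq_zero.2 fun k hk => ?_)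
  rw [Tl_coeff, show n + 1 - k = 0 by omega]
  simp

theorem Tl_si (N : ℕ) (c : ℂ) (β : ℝ) (P : Polynomial ℂ) : SI N β (Tl N c β P) := by
  intro k hk
  have he := tilde_conj (2 * β)
  rw [Tl_coeff, Tl_coeff, Nat.sub_sub_self hk]
  simp only [map_mul, map_sub, map_div₀, Complex.conj_natCast, Complex.conj_conj]
  linear_combination (-(((N - k : ℕ) : ℂ) * k / N * (c * P.coeff (N - k)))) * he

theorem Tl_pf (H : Hyp n P) (c : ℂ) (β : ℝ) :
    pf (cv (n + 1) β (Tl (n + 1) c β P)) = pf (cv (n + 1) β (Polynomial.C c * P)) := by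
  funext x
  have hz : conj (zc (n + 1) β x) * zc (n + 1) β x = 1 := by
    rw [Complex.conj_mul', zc_norm]
    simp
  have hp := zc_pow (Nat.succ_pos n) β x
  have hN : ((n + 1 : ℕ) : ℂ) ≠ 0 := Nat.cast_ne_zero.2 (Nat.succ_ne_zero n)
  have hd : (Polynomial.C c * P).natDegree < n + 1 + 1 :=
    (Polynomial.natDegree_C_mul_le _ _).trans_lt (H.1.trans_lt (by omega))
  have hx := eI_mul_neg x
  have hc : conj (eI (-x)) = eI x := by rw [eI_neg, Complex.conj_conj]
  unfold pf Sw cv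
  generalize zc (n + 1) β x = z at hz hp ⊢
  have key : (Tl (n + 1) c β P).eval z * eI (-x) = (Polynomial.C c * P).eval z * eI (-x) -
      (∑ k ∈ range (n + 1 + 1), (k : ℂ) / (n + 1 : ℕ) * (c * P.coeff k) * z ^ k * eI (-x) +
        conj (∑ k ∈ range (n + 1 + 1),
          (k : ℂ) / (n + 1 : ℕ) * (c * P.coeff k) * z ^ k * eI (-x))) := by
    rw [Polynomial.eval_eq_sum_range' ((Tl_deg c β P).trans (Nat.lt_succ_self _)),
      Polynomial.eval_eq_sum_range' hd, map_sum, ← Finset.sum_flip fun k =>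
        conj ((k : ℂ) / (n + 1 : ℕ) * (c * P.coeff k) * z ^ k * eI (-x)),
      Finset.sum_mul, Finset.sum_mul, ← Finset.sum_add_distrib, ← Finset.sum_sub_distrib]
    refine Finset.sum_congr rfl fun k hk => ?_
    obtain ⟨j, hj⟩ := Nat.exists_eq_add_of_le (Nat.lt_succ_iff.1 (Finset.mem_range.1 hk))
    have h1 : conj z ^ j * z ^ j = 1 := by rw [← mul_pow, hz, one_pow]
    have h2 : eI (2 * β) * z ^ k * eI (-x) = conj z ^ j * eI x := by
      rw [Nat.succ_eq_add_one, hj, pow_add] at hp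
      linear_combination (-(eI (2 * β) * z ^ k * eI (-x))) * h1 + conj z ^ j * eI (-x) * hp +
        conj z ^ j * eI x * hx
    have h3 : (j : ℂ) / (n + 1 : ℕ) = 1 - k / (n + 1 : ℕ) := by
      rw [eq_sub_iff_add_eq, ← add_div, div_eq_one_iff_eq hN, hj]
      push_cast
      ring
    rw [Tl_coeff, Polynomial.coeff_C_mul, show n + 1 - k = j by omega]
    simp only [map_mul, map_div₀, map_pow, Complex.conj_natCast, hc]
    linear_combination (c * P.coeff k * z ^ k * eI (-x)) * h3 -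
      ((j : ℂ) / (n + 1 : ℕ) * (conj c * conj (P.coeff j))) * h2
  rw [key, Complex.sub_im, Complex.add_im, Complex.conj_im]
  ring

theorem Tl_one (hn : 2 ≤ n) (H : Hyp n P) (β : ℝ) :
    ‖(Tl (n + 1) 1 β P).coeff 1 - 1‖ ≤ 2 / ((n : ℝ) + 1) := by
  have h1 := tilde_top H
  have hN : (0 : ℝ) < (n : ℝ) + 1 := by positivity
  have hN' : (n : ℂ) + 1 ≠ 0 := by exact_mod_cast hN.ne'
  have h2 : (Tl (n + 1) 1 β P).coeff 1 - 1 =
      -((1 + n * (eI (2 * β) * conj (P.coeff n))) / ((n : ℂ) + 1)) := by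
    rw [Tl_coeff, Nat.add_sub_cancel, H.2.2.1, one_mul, one_mul]
    push_cast
    field_simp
    ring
  have h3 : ‖(n : ℂ) + 1‖ = (n : ℝ) + 1 := by exact_mod_cast Complex.norm_natCast (n + 1)
  have _ := hn
  rw [h2, norm_neg, norm_div, h3]
  refine div_le_div_of_nonneg_right ((norm_add_le _ _).trans ?_) hN.le
  rw [norm_one, norm_mul, norm_mul, eI_norm, Complex.norm_conj, Complex.norm_natCast, one_mul]
  linarith

theorem Tl_one_ne (hn : 2 ≤ n) (H : Hyp n P) {c : ℂ} (hc : c ≠ 0) (β : ℝ) :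
    (Tl (n + 1) c β P).coeff 1 ≠ 0 := by
  have h1 := tilde_top H
  rw [Tl_coeff, Nat.add_sub_cancel, H.2.2.1, mul_one]
  refine mul_ne_zero (div_ne_zero (Nat.cast_ne_zero.2 (by omega))
    (Nat.cast_ne_zero.2 (Nat.succ_ne_zero n))) fun h => ?_
  have h2 := congrArg norm (sub_eq_zero.1 h)
  rw [norm_mul, eI_norm, Complex.norm_conj, norm_mul, one_mul] at h2
  have h3 : ‖P.coeff n‖ = 1 :=
    mul_left_cancel₀ (norm_ne_zero_iff.2 hc) (h2.symm.trans (mul_one _).symm)
  have h4 : (2 : ℝ) ≤ n := by exact_mod_cast hn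
  rw [h3] at h1
  linarith

theorem Tl_nice (hn : 2 ≤ n) (H : Hyp n P) {c : ℂ} (hc : c ≠ 0) (β : ℝ) :
    Nice (n + 1) β (Tl (n + 1) c β P) := by
  have hN : 3 ≤ n + 1 := by omega
  have hd := Tl_deg (n := n) c β P
  have hs := Tl_si (n + 1) c β P
  have h1 := Tl_one_ne hn H hc β
  obtain ⟨cl, g, hR⟩ := res_build hn (pf_cont (n + 1) β (Polynomial.C c * P))
    (pf_per (Nat.succ_pos n) β (Polynomial.C c * P)) (br_simple hn H hc β) (br_cnt hn H hc β)
    (br_good hn H hc β 0)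
  rw [← Tl_pf H c β] at hR
  refine ⟨hd, ?_, hs, zinj hN hd hs h1 fun w => hR.zeros w, cl, g,
    hR.cells hN fun w α Z hZ => zmax hN hd hs h1 w α Z hZ⟩
  rw [Tl_coeff, H.2.1, Nat.sub_zero,
    Polynomial.coeff_eq_zero_of_natDegree_lt (H.1.trans_lt (Nat.lt_succ_self n))]
  simp

/-- The companion as a power series. -/
theorem Tl_series (H : Hyp n P) (β : ℝ) : (Tl (n + 1) 1 β P : ℂ⟦X⟧) =
    (P : ℂ⟦X⟧) - C (((n : ℂ) + 1)⁻¹) * (X * d⁄dX ℂ (P : ℂ⟦X⟧) +
      C (eI (2 * β)) * (X * (tay (om n P) * d⁄dX ℂ (P : ℂ⟦X⟧)))) := by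
  have hN : (n : ℂ) + 1 ≠ 0 := by exact_mod_cast Nat.succ_ne_zero n
  rw [← H.tay_Qs]
  ext k
  rw [Polynomial.coeff_coe, Tl_coeff, map_sub, coeff_C_mul, map_add, coeff_C_mul,
    Polynomial.coeff_coe, one_mul, one_mul]
  cases k with
  | zero =>
    rw [coeff_zero_X_mul, coeff_zero_X_mul, H.2.1, Nat.sub_zero,
      Polynomial.coeff_eq_zero_of_natDegree_lt (H.1.trans_lt (Nat.lt_succ_self n))]
    simp
  | succ l =>
    rw [coeff_succ_X_mul, coeff_succ_X_mul, coeff_derivative, Polynomial.coeff_coe, tilde_Qs]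
    by_cases hl : l < n
    · obtain ⟨j, rfl⟩ := Nat.exists_eq_add_of_lt hl
      rw [if_pos hl, show l + j + 1 + 1 - (l + 1) = j + 1 by omega,
        show l + j + 1 - 1 - l = j by omega, Polynomial.coeff_derivative, map_mul, map_add,
        map_one, Complex.conj_natCast]
      push_cast at hN ⊢
      field_simp
      ring
    · rw [if_neg hl, show n + 1 - (l + 1) = 0 by omega,
        Polynomial.coeff_eq_zero_of_natDegree_lt (H.1.trans_lt (show n < l + 1 by omega))]
      simp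

/-- Rotation and multiplication by a constant. -/
theorem Tl_rot (β : ℝ) (P : Polynomial ℂ) {v c : ℂ} (hv : ‖v‖ = 1) (hc : c ≠ 0) :
    ∃ β' : ℝ, Tl (n + 1) c β' (upRot v P) = Polynomial.C c * upRot v (Tl (n + 1) 1 β P) := by
  have hc' : conj c ≠ 0 := (map_ne_zero _).2 hc
  have hv1 : conj v * v = 1 := by
    rw [Complex.conj_mul', hv]
    simp
  have hvi : v⁻¹ = conj v := (eq_inv_of_mul_eq_one_left hv1).symm
  obtain ⟨β', hβ⟩ := tilde_arg (w := eI (2 * β) * (c / conj c) * conj v ^ 2 * v ^ (n + 1)) (by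
    rw [norm_mul, norm_mul, norm_mul, norm_div, norm_pow, norm_pow, eI_norm, Complex.norm_conj,
      Complex.norm_conj, hv, div_self (norm_ne_zero_iff.2 hc)]
    simp)
  refine ⟨β', Polynomial.ext fun k => ?_⟩
  rw [Polynomial.coeff_C_mul, upRot_coeff, Tl_coeff, Tl_coeff, upRot_coeff, upRot_coeff, hβ, hvi]
  by_cases hk : k ≤ n + 1
  · obtain ⟨j, hj⟩ := Nat.exists_eq_add_of_le hk
    have h1 : conj v ^ j * v ^ j = 1 := by rw [← mul_pow, hv1, one_pow]
    have h2 : c / conj c * conj c = c := div_mul_cancel₀ c hc'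
    have h3 : v ^ (n + 1) = v ^ k * v ^ j := by rw [hj, pow_add]
    rw [show n + 1 - k = j by omega, h3]
    simp only [map_mul, map_pow, Complex.conj_conj, one_mul]
    generalize c / conj c = d at h2
    linear_combination (-((j : ℂ) / (n + 1 : ℕ) * eI (2 * β) * conj (P.coeff j) * v ^ k * conj v)) *
      ((d * conj c * (conj v * v)) * h1 + (d * conj c) * hv1 + h2)
  · rw [show n + 1 - k = 0 by omega]
    simp

end Pool.Agent.P.MP_c09211_an.Sh.GL
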