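import Pool.Agent.P.MP_c09211_an.GL.ThmA
import Pool.Agent.P.MP_c09211_an.GL.Tilde

/-!
The sharp upper bound (paper: T, transfer).
-/

set_option autoImplicit false

namespace Pool.Agent.P.MP_c09211_an.Sh.GL

open Metric Set Finset PowerSeries Complex Filter Topology Real MeasureTheory
open scoped ComplexConjugate

theorem ups_nk {J : ℕ} {δ : ℝ} {h : ℂ⟦X⟧} {u a : ℂ} (H : NK J δ h u a) :
    NK J δ (rescale (conj u) h) 1 a := by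
  obtain ⟨hu, ha, hk⟩ := H
  have c1 : ‖conj u‖ = 1 := by rw [norm_conj, hu]
  have cu : conj u * u = 1 := by rw [conj_mul', hu]; simp
  refine ⟨norm_one, ha, le_trans (le_of_eq (sum_congr rfl fun k _ => ?_)) hk⟩
  have : conj u ^ k * u ^ k = 1 := by rw [← mul_pow, cu, one_pow]
  rw [coeff_rescale, show conj u ^ k * coeff k h - a * 1 ^ k =
    conj u ^ k * (coeff k h - a * u ^ k) by rw [one_pow]; linear_combination a * this,
    norm_mul, norm_pow, c1, one_pow, one_mul]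

theorem ups_small {D ε : ℝ} (hε : 0 < ε) {J n : ℕ} (h1 : J ^ 2 ≤ n + 1) :
    (Real.sin D - ε) * ((J : ℝ) ^ 3 / (n + 1)) ≤ J := by
  have t0 : (0 : ℝ) ≤ (J : ℝ) ^ 3 / (n + 1) := by positivity
  have t1 : (J : ℝ) ^ 3 / (n + 1) ≤ J := by
    rw [div_le_iff₀ (by positivity)]
    have : (J : ℝ) ^ 2 ≤ n + 1 := by exact_mod_cast h1
    have J0 : (0 : ℝ) ≤ J := Nat.cast_nonneg J
    nlinarith
  have := Real.sin_le_one D
  nlinarith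

/-- The functional has nearly the same value on a suitable companion. -/
theorem transfer {ε : ℝ} (hε : 0 < ε) : ∃ δ : ℝ, 0 < δ ∧ ∃ J₀ : ℕ, ∀ J ≥ J₀, ∀ n : ℕ,
    J ^ 2 ≤ n + 1 → ∀ (P : Polynomial ℂ) (h : ℂ⟦X⟧) (a : ℂ), Hyp n P → X * h ^ 2 = (P : ℂ⟦X⟧) →
      NK J δ h 1 a → (1 - δ) * (J : ℝ) ^ 2 ≤ ‖Lam J (om n P) (P : ℂ⟦X⟧)‖ → ∃ β : ℝ,
      ‖Lam J (om n P) (P : ℂ⟦X⟧)‖ - ε * ((J : ℝ) ^ 3 / (n + 1)) ≤
        ‖Lam J (om n P) ((Polynomial.C ((Tl (n + 1) 1 β P).coeff 1)⁻¹ * Tl (n + 1) 1 β P :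
          Polynomial ℂ) : ℂ⟦X⟧)‖ := by
  obtain ⟨δ, hδ, H₁⟩ := zf_both (show 0 < ε / 4 by positivity)
  refine ⟨δ, hδ, max 2 ⌈4 / ε⌉₊, fun J hJ n h1 P h a H e hk hL => ?_⟩
  simp only [ge_iff_le, max_le_iff] at hJ
  obtain ⟨j1, j2⟩ := hJ
  have n2 : 2 ≤ n := by nlinarith
  obtain ⟨v, hv, a1, a2⟩ := H₁ J h _ a (by omega) H.schur hk (e ▸ hL)
  rw [e] at a1 a2
  have vv : conj v * v = 1 := by rw [conj_mul', hv]; simp
  obtain ⟨β, hβ⟩ : ∃ β : ℝ, eI (2 * β) = -conj v := by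
    refine ⟨arg (-conj v) / 2, ?_⟩
    rw [mul_div_cancel₀ _ two_ne_zero, eI]
    exact sa_exp_arg (by rw [norm_neg, norm_conj, hv])
  refine ⟨β, ?_⟩
  have b1 := Tl_one n2 H β
  have b0 := Tl_one_ne n2 H one_ne_zero β
  rw [Polynomial.coe_mul, Polynomial.coe_C, om_Lam_C, Tl_series H, om_Lam_sub, om_Lam_C,
    om_Lam_add, om_Lam_C, hβ, norm_mul, norm_inv]
  have L1 := H.om_lam_le (J := J) (by omega) H.schur
  generalize Lam J (om n P) (P : ℂ⟦X⟧) = L at *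
  generalize Lam J (om n P) (X * d⁄dX ℂ (P : ℂ⟦X⟧)) = L₁ at *
  generalize Lam J (om n P) (X * (tay (om n P) * d⁄dX ℂ (P : ℂ⟦X⟧))) = L₂ at *
  generalize (Tl (n + 1) 1 β P).coeff 1 = b at *
  have N0 : (0 : ℝ) < n + 1 := by positivity
  have c1 : ‖L₁ + -conj v * L₂‖ ≤ ε / 2 * (J : ℝ) ^ 3 := by
    rw [show L₁ + -conj v * L₂ = (L₁ - a ^ 2 * v * (J : ℂ) ^ 3) -
      conj v * (L₂ - (a * v) ^ 2 * (J : ℂ) ^ 3) by
        linear_combination (-(a ^ 2 * v * (J : ℂ) ^ 3)) * vv]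
    refine (norm_sub_le _ _).trans ?_
    rw [norm_mul, norm_conj, hv]
    linarith
  have c2 : ‖L‖ - ε / 2 * ((J : ℝ) ^ 3 / (n + 1)) ≤
      ‖L - ((n : ℂ) + 1)⁻¹ * (L₁ + -conj v * L₂)‖ := by
    refine le_trans ?_ (norm_sub_norm_le _ _)
    rw [norm_mul, norm_inv, show (n : ℂ) + 1 = ((n + 1 : ℕ) : ℂ) by push_cast; rfl,
      Complex.norm_natCast]
    push_cast
    have := mul_le_mul_of_nonneg_left c1 (inv_nonneg.mpr N0.le)
    rw [show ε / 2 * ((J : ℝ) ^ 3 / (n + 1)) = ((n : ℝ) + 1)⁻¹ * (ε / 2 * (J : ℝ) ^ 3) by ring]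
    linarith
  have c3 : ‖b‖ ≤ 1 + 2 / ((n : ℝ) + 1) := by
    have := norm_sub_norm_le b 1
    rw [norm_one] at this
    linarith
  have c4 : 1 - 2 / ((n : ℝ) + 1) ≤ ‖b‖⁻¹ := by
    have p : 0 < ‖b‖ := norm_pos_iff.mpr b0
    rw [← one_div, le_div_iff₀ p]
    have t0 : 0 ≤ 2 / ((n : ℝ) + 1) := by positivity
    have t1 : 2 / ((n : ℝ) + 1) ≤ 1 := by
      rw [div_le_one N0]
      have : (2 : ℝ) ≤ n := by exact_mod_cast n2
      linarith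
    nlinarith
  have J4 : 4 ≤ ε * J := by
    have : 4 / ε ≤ J := (Nat.le_ceil _).trans (by exact_mod_cast j2)
    rwa [div_le_iff₀' hε] at this
  have c5 : 2 / ((n : ℝ) + 1) * (J : ℝ) ^ 2 ≤ ε / 2 * ((J : ℝ) ^ 3 / (n + 1)) := by
    rw [div_mul_eq_mul_div, ← mul_div_assoc]
    refine div_le_div_of_nonneg_right ?_ N0.le
    nlinarith [sq_nonneg (J : ℝ)]
  have y0 := norm_nonneg (L - ((n : ℂ) + 1)⁻¹ * (L₁ + -conj v * L₂))
  generalize ‖L - ((n : ℂ) + 1)⁻¹ * (L₁ + -conj v * L₂)‖ = y at *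
  have t0 : 0 ≤ 2 / ((n : ℝ) + 1) := by positivity
  have t2 : 0 ≤ ε / 2 * ((J : ℝ) ^ 3 / (n + 1)) := by positivity
  rcases le_total (‖L‖ - ε / 2 * ((J : ℝ) ^ 3 / (n + 1))) 0 with q | q
  · have : 0 ≤ ‖b‖⁻¹ * y := mul_nonneg (inv_nonneg.mpr (norm_nonneg _)) y0
    linarith
  · have t1 : 0 ≤ 1 - 2 / ((n : ℝ) + 1) := by
      rw [sub_nonneg, div_le_one N0]
      have : (2 : ℝ) ≤ n := by exact_mod_cast n2
      linarith
    have := mul_le_mul c4 c2 q (inv_nonneg.mpr (norm_nonneg _))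
    nlinarith [mul_le_mul_of_nonneg_left L1 t0, mul_nonneg t0 t2]

/-- The bound for the normalised companion and any bounded weight. -/
theorem comp_le {D ε : ℝ} (hD : Real.cos D = D) (hε : 0 < ε) : ∃ J₀ : ℕ, ∀ J ≥ J₀, ∀ n : ℕ,
    J ^ 2 ≤ n + 1 → n ≤ 2 * J ^ 2 → ∀ (P : Polynomial ℂ) (β : ℝ) (w : ℂ → ℂ), Hyp n P → Schur w →
      ‖Lam J w ((Polynomial.C ((Tl (n + 1) 1 β P).coeff 1)⁻¹ * Tl (n + 1) 1 β P :
        Polynomial ℂ) : ℂ⟦X⟧)‖ ≤ (J : ℝ) ^ 2 - (Real.sin D - ε) * ((J : ℝ) ^ 3 / (n + 1)) := by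
  obtain ⟨δ, hδ, J₁, H₁⟩ := thmA hD hε
  obtain ⟨δ', hδ', J₂, H₂⟩ := stab' hδ
  refine ⟨max (max J₁ J₂) (max 2 ⌈1 / δ'⌉₊), fun J hJ n h1 h2 P β w H hw => ?_⟩
  simp only [ge_iff_le, max_le_iff] at hJ
  obtain ⟨⟨j1, j2⟩, j3, j4⟩ := hJ
  have n2 : 2 ≤ n := by nlinarith
  have b0 := Tl_one_ne n2 H one_ne_zero β
  have hN := Tl_nice n2 H one_ne_zero β
  set T := Tl (n + 1) 1 β P with hT
  set b := T.coeff 1 with hb
  set Q : Polynomial ℂ := Polynomial.C b⁻¹ * T with hQ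
  by_cases hL : (J : ℝ) ^ 2 - J ≤ ‖Lam J w (Q : ℂ⟦X⟧)‖
  swap
  · have := ups_small (D := D) hε h1
    push Not at hL
    linarith
  have q0 : Q.coeff 0 = 0 := by rw [hQ, Polynomial.coeff_C_mul, hN.zero, mul_zero]
  have q1 : Q.coeff 1 = 1 := by rw [hQ, Polynomial.coeff_C_mul, inv_mul_cancel₀ b0]
  have qi : InjOn (fun z => Q.eval z) (ball 0 1) := fun z hz z' hz' e => hN.inj hz hz' (by
    simp only [hQ, Polynomial.eval_mul, Polynomial.eval_C] at e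
    exact mul_left_cancel₀ (inv_ne_zero b0) e)
  have qs := sr_poly q0 q1 qi
  obtain ⟨h, g, e, hl⟩ := qs.lm
  rw [tay_poly] at e
  have J0 : (0 : ℝ) < J := by exact_mod_cast (by omega : 0 < J)
  have t2 : 1 ≤ (J : ℝ) * δ' := by
    rw [← div_le_iff₀ hδ']
    exact (Nat.le_ceil _).trans (by exact_mod_cast j4)
  obtain ⟨u, a, hk⟩ := H₂ J j2 h g hl w hw (by rw [e]; nlinarith)
  have hu := hk.1
  have ha := hk.2.1
  have c1 : ‖conj u‖ = 1 := by rw [norm_conj, hu]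
  have c0 : conj u ≠ 0 := norm_pos_iff.mp (c1 ▸ one_pos)
  have a0 : a ≠ 0 := norm_pos_iff.mp (ha ▸ one_pos)
  obtain ⟨R, hR, hi⟩ := H.2.2.2
  have H' : Hyp n (upRot (conj u) P) := upRot_hyp H.1 H.2.1 H.2.2.1 hi c0 (c1 ▸ hR)
  have cc : (a ^ 2)⁻¹ * b⁻¹ ≠ 0 := mul_ne_zero (inv_ne_zero (pow_ne_zero 2 a0)) (inv_ne_zero b0)
  obtain ⟨β', hβ'⟩ := Tl_rot (n := n) β P c1 cc
  have hE := Tl_nice n2 H' cc β'
  set E := Tl (n + 1) ((a ^ 2)⁻¹ * b⁻¹) β' (upRot (conj u) P) with hEd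
  have ef : (fun z => a ^ 2 * E.eval z) = fun z => (conj u)⁻¹ * Q.eval (conj u * z) := by
    funext z
    rw [hβ', ← hT]
    simp only [hQ, upRot, Polynomial.eval_mul, Polynomial.eval_C, Polynomial.eval_comp,
      Polynomial.eval_X]
    field_simp
  have fs : Sr 1 fun z => (conj u)⁻¹ * Q.eval (conj u * z) := qs.scale one_pos c1
  have ft : tay (fun z => (conj u)⁻¹ * Q.eval (conj u * z)) =
      C (conj u)⁻¹ * rescale (conj u) (Q : ℂ⟦X⟧) := by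
    rw [tay_scale' (f := fun z => Q.eval z) (qs.an one_pos), tay_poly]
  have fl : ‖Lam J (fun z => w (conj u * z))
      (tay fun z => (conj u)⁻¹ * Q.eval (conj u * z))‖ = ‖Lam J w (Q : ℂ⟦X⟧)‖ := by
    rw [ft, Lam_scale hw.an c0, norm_mul, norm_pow, c1, one_pow, one_mul]
  obtain ⟨h', g', e', hl'⟩ := fs.lm
  have e2 : h' = rescale (conj u) h := by
    refine root_unique hl'.2.1 (by rw [coeff_rescale, hl.2.1]; simp) (e'.trans ?_)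
    rw [ft, ← e, map_mul, map_pow, rescale_X]
    have : (C (conj u)⁻¹ : ℂ⟦X⟧) * C (conj u) = 1 := by
      rw [← map_mul, inv_mul_cancel₀ c0, map_one]
    linear_combination (X * rescale (conj u) h ^ 2) * this
  have hn : Near J δ (fun z => a ^ 2 * E.eval z) (fun z => w (conj u * z)) a := by
    rw [ef]
    exact ⟨fs, hw.scale c1.le, ⟨h', g', e', hl', e2 ▸ ups_nk hk⟩, fl ▸ hL⟩
  have := H₁ J j1 (n + 1) h1 (by omega) β' E _ a hE hn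
  rw [ef, fl] at this
  push_cast at this
  exact this

theorem upHyp' {D ε : ℝ} (hD : Real.cos D = D) (hε : 0 < ε) : ∃ J₀ : ℕ, ∀ J ≥ J₀, ∀ n : ℕ,
    J ^ 2 ≤ n + 1 → n ≤ 2 * J ^ 2 → ∀ P : Polynomial ℂ, Hyp n P →
      ((n + 1 - J : ℕ) : ℝ) * ‖P.coeff (n + 1 - J)‖ ≤
        (J : ℝ) ^ 2 - (Real.sin D - ε) * ((J : ℝ) ^ 3 / (n + 1)) := by
  obtain ⟨δ, hδ, J₁, H₁⟩ := transfer (half_pos hε)
  obtain ⟨J₃, H₃⟩ := comp_le hD (half_pos hε)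
  obtain ⟨δ', hδ', J₂, H₂⟩ := stab' hδ
  refine ⟨max (max J₁ (max J₂ J₃)) (max 2 ⌈1 / min δ δ'⌉₊), fun J hJ n h1 h2 P H => ?_⟩
  simp only [ge_iff_le, max_le_iff] at hJ
  obtain ⟨⟨j1, j2, j6⟩, j3, j4⟩ := hJ
  have j5 : J ≤ n := by nlinarith
  obtain ⟨h, g, e, hl⟩ := (H.sr le_rfl).lm
  rw [tay_poly] at e
  have m0 : 0 < min δ δ' := lt_min hδ hδ'
  by_cases hb : (1 - min δ δ') * (J : ℝ) ^ 2 ≤ ‖Lam J (om n P) (X * h ^ 2)‖
  · obtain ⟨u, a, hu, ha, hk⟩ := H₂ J j2 h g hl _ H.schur (le_trans (by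
      have := min_le_right δ δ'
      nlinarith [sq_nonneg (J : ℝ)]) hb)
    have c1 : ‖conj u‖ = 1 := by rw [norm_conj, hu]
    have c0 : conj u ≠ 0 := norm_pos_iff.mp (c1 ▸ one_pos)
    obtain ⟨R, hR, hi⟩ := H.2.2.2
    have H' : Hyp n (upRot (conj u) P) := upRot_hyp H.1 H.2.1 H.2.2.1 hi c0 (c1 ▸ hR)
    have eq : ‖Lam J (om n (upRot (conj u) P)) (upRot (conj u) P : ℂ⟦X⟧)‖ =
        ((n + 1 - J : ℕ) : ℝ) * ‖P.coeff (n + 1 - J)‖ := by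
      rw [H'.lam_eq (by omega) j5, upRot_coeff, norm_mul, norm_mul, norm_inv, norm_pow, c1,
        inv_one, one_pow, one_mul, mul_one]
    rw [e, H.lam_eq (by omega) j5] at hb
    obtain ⟨β, hβ⟩ := H₁ J j1 n h1 _ _ a H' (upRot_root e c0) (ups_nk ⟨hu, ha, hk⟩) (by
      rw [eq]
      refine le_trans ?_ hb
      have := min_le_left δ δ'
      nlinarith [sq_nonneg (J : ℝ)])
    have := H₃ J j6 n h1 h2 _ β _ H' H'.schur
    rw [eq] at hβ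
    linarith
  · rw [e, H.lam_eq (by omega) j5] at hb
    have J0 : (0 : ℝ) < J := by exact_mod_cast (by omega : 0 < J)
    have t2 : 1 ≤ (J : ℝ) * min δ δ' := by
      rw [← div_le_iff₀ m0]
      exact (Nat.le_ceil _).trans (by exact_mod_cast j4)
    have t3 : (J : ℝ) ≤ min δ δ' * (J : ℝ) ^ 2 := by nlinarith
    have := ups_small (D := D) hε h1
    push Not at hb
    linarith

theorem upper_sharp' {D ε : ℝ} (hD : Real.cos D = D) (hε : 0 < ε) : ∃ J₀ : ℕ, ∀ J ≥ J₀, ∀ n : ℕ,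
    J ^ 2 ≤ n + 1 → n ≤ 2 * J ^ 2 → ∀ P : Polynomial ℂ, Univ n P →
      ((n + 1 - J : ℕ) : ℝ) * ‖P.coeff (n + 1 - J)‖ ≤
        (J : ℝ) ^ 2 - (Real.sin D - ε) * ((J : ℝ) ^ 3 / (n + 1)) := by
  obtain ⟨J₀, H⟩ := upHyp' hD hε
  refine ⟨J₀, fun J hJ n h1 h2 P hP => ?_⟩
  have H' := H J hJ n h1 h2
  generalize n + 1 - J = m at H' ⊢
  have ht : Tendsto (fun r : ℝ => (m : ℝ) * (r⁻¹ * (‖P.coeff m‖ * r ^ m))) (𝓝[<] 1)
      (𝓝 ((m : ℝ) * (1⁻¹ * (‖P.coeff m‖ * 1 ^ m)))) := by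
    refine (ContinuousAt.tendsto ?_).mono_left nhdsWithin_le_nhds
    exact continuousAt_const.mul ((continuousAt_inv₀ one_ne_zero).mul (by fun_prop))
  rw [one_pow, mul_one, inv_one, one_mul] at ht
  refine le_of_tendsto ht ?_
  filter_upwards [Ioo_mem_nhdsLT zero_lt_one] with r ⟨r0, r1⟩
  have rc : (r : ℂ) ≠ 0 := by exact_mod_cast r0.ne'
  have rn : ‖(r : ℂ)‖ = r := by rw [norm_real, Real.norm_eq_abs, abs_of_pos r0]
  have := H' _ (upRot_hyp hP.1 hP.2.1 hP.2.2.1 hP.2.2.2 rc (rn.symm ▸ r1))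
  rwa [upRot_coeff, norm_mul, norm_mul, norm_inv, norm_pow, rn] at this

end Pool.Agent.P.MP_c09211_an.Sh.GL
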