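import Pool.Agent.P.MP_c09211_an.GL.Basic
import Pool.Agent.P.MP_c09211_an.Sh.Conc

/-!
Differences of two branches of a univalent polynomial (paper: R4).
-/

set_option autoImplicit false

namespace Pool.Agent.P.MP_c09211_an.Sh.GL

open Metric Set Finset PowerSeries Complex Filter Topology Real MeasureTheory
open scoped ComplexConjugate

variable {n : ℕ} {P : Polynomial ℂ} {c : ℂ}

theorem WlemA_one {z ζ : ℂ} (hz : ‖z‖ = 1) (hζ : 1 < ‖ζ‖) : (z * (1 / (z - ζ))).re < 1 / 2 := by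
  have h0 : z - ζ ≠ 0 := fun h => by
    rw [sub_eq_zero.1 h] at hz
    exact hζ.ne' hz
  have h1 := normSq_pos.2 h0
  have h2 : z.re * z.re + z.im * z.im = 1 := by
    rw [← normSq_apply, Complex.normSq_eq_norm_sq, hz, one_pow]
  have h3 : 1 < ζ.re * ζ.re + ζ.im * ζ.im := by
    rw [← normSq_apply, Complex.normSq_eq_norm_sq]
    exact one_lt_pow₀ hζ two_ne_zero
  rw [mul_one_div, div_re, ← add_div, div_lt_iff₀ h1, normSq_apply, sub_re, sub_im]
  nlinarith

theorem WlemA_ms {z : ℂ} (hz : ‖z‖ = 1) (s : Multiset ℂ) (hs : ∀ ζ ∈ s, 1 < ‖ζ‖) :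
    (z * (s.map fun ζ => 1 / (z - ζ)).sum).re ≤ (s.card : ℝ) / 2 := by
  induction s using Multiset.induction_on with
  | empty => simp
  | cons a s ih =>
    have h1 := WlemA_one hz (hs a (Multiset.mem_cons_self a s))
    have h2 := ih fun ζ h => hs ζ (Multiset.mem_cons_of_mem h)
    rw [Multiset.map_cons, Multiset.sum_cons, mul_add, add_re, Multiset.card_cons]
    push_cast
    linarith

/-- The logarithmic derivative of a polynomial without zeros in the closed disc. -/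
theorem WlemA_log {D : Polynomial ℂ} {m : ℕ} (hm : 1 ≤ m) (hd : D.natDegree ≤ m)
    (h0 : ∀ z : ℂ, ‖z‖ ≤ 1 → D.eval z ≠ 0) {z : ℂ} (hz : ‖z‖ = 1) :
    (z * (D.derivative.eval z / D.eval z)).re < (m : ℝ) / 2 := by
  have h1 : ∀ ζ ∈ D.roots, 1 < ‖ζ‖ := fun ζ h =>
    not_le.1 fun h2 => h0 ζ h2 (Polynomial.isRoot_of_mem_roots h)
  have h2 : D.roots.card ≤ m := D.card_roots'.trans hd
  rw [(IsAlgClosed.splits D).eval_derivative_div_eval_of_ne_zero (h0 z hz.le)]
  generalize D.roots = s at h1 h2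
  induction s using Multiset.induction_on with
  | empty =>
    have : (0 : ℝ) < m := by exact_mod_cast hm
    simpa using this
  | cons a s _ =>
    have h3 := WlemA_one hz (h1 a (Multiset.mem_cons_self a s))
    have h4 := WlemA_ms hz s fun ζ h => h1 ζ (Multiset.mem_cons_of_mem h)
    have h5 : (s.card : ℝ) + 1 ≤ m := by
      rw [Multiset.card_cons] at h2
      exact_mod_cast h2
    rw [Multiset.map_cons, Multiset.sum_cons, mul_add, add_re]
    linarith

/-- The difference of two branches as an imaginary part. -/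
theorem WlemA_rep (H : Hyp n P) (hc : c ≠ 0) (β : ℝ) {k : ℕ} (k0 : 0 < k) (k1 : k ≤ n) :
    ∃ D : Polynomial ℂ, D.natDegree ≤ n - 1 ∧ (∀ z : ℂ, ‖z‖ ≤ 1 → D.eval z ≠ 0) ∧
      ∀ x, pf (cv (n + 1) β (Polynomial.C c * P)) x -
        (-1) ^ k * pf (cv (n + 1) β (Polynomial.C c * P)) (x + k * π) =
        (eI (-x) * (zc (n + 1) β x * D.eval (zc (n + 1) β x))).im := by
  obtain ⟨ω, hω⟩ : ∃ ω : ℂ, ω = eI (2 * (k * π) / (n + 1 : ℕ)) := ⟨_, rfl⟩
  have h1 : ∀ x, zc (n + 1) β (x + k * π) = ω * zc (n + 1) β x := fun x => by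
    rw [hω, zc, zc, ← eI_add]
    congr 1
    ring
  have h2 : ‖ω‖ = 1 := by rw [hω, eI_norm]
  have hk : (0 : ℝ) < k * π := mul_pos (by exact_mod_cast k0) pi_pos
  have hk' : (k : ℝ) * π < (n + 1 : ℕ) * π :=
    mul_lt_mul_of_pos_right (by exact_mod_cast Nat.lt_succ_of_le k1) pi_pos
  have h3 : ω ≠ 1 := fun h => by
    have : 0 + (k : ℝ) * π = 0 := zc_inj (N := n + 1) n.succ_pos β 0
      ⟨by linarith, by linarith⟩ ⟨le_rfl, by linarith⟩ (by rw [h1, h, one_mul])
    linarith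
  obtain ⟨E, hE⟩ : ∃ E : Polynomial ℂ,
      E = Polynomial.C c * (P - P.comp (Polynomial.C ω * Polynomial.X)) := ⟨_, rfl⟩
  have e1 : ∀ z, E.eval z = c * (P.eval z - P.eval (ω * z)) := fun z => by simp [hE]
  have e2 : ∀ z, E.eval z = z * E.divX.eval z := fun z => by
    have h4 := congrArg (Polynomial.eval z) (Polynomial.X_mul_divX_add E)
    rw [Polynomial.coeff_zero_eq_eval_zero, e1 0] at h4
    simpa using h4.symm
  have e3 : E.natDegree ≤ n := by
    rw [hE]
    refine (Polynomial.natDegree_C_mul_le _ _).trans ((Polynomial.natDegree_sub_le _ _).trans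
      (max_le H.1 (Polynomial.natDegree_comp_le.trans ?_)))
    have : (Polynomial.C ω * Polynomial.X).natDegree ≤ 1 :=
      (Polynomial.natDegree_C_mul_le _ _).trans Polynomial.natDegree_X_le
    exact (Nat.mul_le_mul H.1 this).trans (mul_one n).le
  refine ⟨E.divX, ?_, fun z hz h => ?_, fun x => ?_⟩
  · rw [Polynomial.natDegree_divX_eq_natDegree_tsub_one]
    omega
  · by_cases h0 : z = 0
    · rw [h0, ← Polynomial.coeff_zero_eq_eval_zero, Polynomial.coeff_divX, zero_add, hE,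
        Polynomial.coeff_C_mul, Polynomial.coeff_sub, Polynomial.comp_C_mul_X_coeff, H.2.2.1,
        pow_one, one_mul] at h
      exact mul_ne_zero hc (sub_ne_zero.2 h3.symm) h
    · have h4 := e2 z
      rw [h, mul_zero, e1] at h4
      obtain ⟨R, hR, hi⟩ := H.2.2.2
      have h5 : z = ω * z := hi (mem_ball_zero_iff.2 (hz.trans_lt hR))
        (mem_ball_zero_iff.2 (by rw [norm_mul, h2, one_mul]; exact hz.trans_lt hR))
        (sub_eq_zero.1 ((mul_eq_zero.1 h4).resolve_left hc))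
      exact h3 (mul_right_cancel₀ h0 (by rw [← h5, one_mul]))
  · rw [← e2, e1, pf, pf, anti_nat (Sw_anti _), ← mul_assoc, ← mul_pow, neg_one_mul, neg_neg,
      one_pow, one_mul, ← Sw_sub, Sw, cv, cv, h1, mul_comm]
    simp only [Polynomial.eval_mul, Polynomial.eval_C, mul_sub]

theorem WlemA_der (hn : 2 ≤ n) {D : Polynomial ℂ} (hd : D.natDegree ≤ n - 1)
    (h0 : ∀ z : ℂ, ‖z‖ ≤ 1 → D.eval z ≠ 0) (β : ℝ) {x : ℝ}
    (hx : (eI (-x) * (zc (n + 1) β x * D.eval (zc (n + 1) β x))).im = 0) :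
    ∃ d : ℝ, d ≠ 0 ∧
      HasDerivAt (fun x => (eI (-x) * (zc (n + 1) β x * D.eval (zc (n + 1) β x))).im) d x := by
  have h1 : HasDerivAt (fun y : ℝ => eI (-y)) (-(eI (-x) * I)) x :=
    ((eI_deriv (-x)).scomp x (hasDerivAt_neg x)).congr_deriv (by simp)
  have h2 := zc_deriv (n + 1) β x
  have h3 := Complex.imCLM.hasFDerivAt.comp_hasDerivAt x
    (h1.mul (h2.mul ((D.hasDerivAt (zc (n + 1) β x)).comp x h2)))
  refine ⟨_, ?_, h3⟩
  have hz := zc_norm (n + 1) β x
  have h4 := WlemA_log (m := n - 1) (by omega) hd h0 hz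
  have h5 := h0 _ hz.le
  have h6 : zc (n + 1) β x ≠ 0 := fun h => by simp [h] at hz
  have h7 := mul_ne_zero (eI_ne (-x)) (mul_ne_zero h6 h5)
  simp only [imCLM_apply, Function.comp_apply, Pi.mul_apply]
  generalize zc (n + 1) β x = z at *
  generalize D.derivative.eval z = b at *
  generalize D.eval z = a at *
  have e : -(eI (-x) * I) * (z * a) + eI (-x) * (2 / (n + 1 : ℕ) * I * z * a +
      z * (b * (2 / (n + 1 : ℕ) * I * z))) =
      eI (-x) * (z * a) * (-1 + ((2 / (n + 1 : ℕ) : ℝ) : ℂ) * (1 + z * (b / a))) * I := by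
    push_cast
    field_simp
  rw [e, mul_I_im, mul_re, hx, zero_mul, sub_zero, add_re, re_ofReal_mul, add_re]
  refine mul_ne_zero (fun h => h7 (Complex.ext h hx)) (ne_of_lt ?_)
  have h8 : ((n - 1 : ℕ) : ℝ) = n - 1 := by rw [Nat.cast_sub (by omega), Nat.cast_one]
  have h9 : (0 : ℝ) < (n + 1 : ℕ) := by positivity
  rw [neg_re, one_re, neg_add_lt_iff_lt_add, add_zero, div_mul_eq_mul_div, div_lt_one h9]
  push_cast
  linarith

/-- The reversed polynomial. -/
theorem WlemA_rev {D : Polynomial ℂ} {m : ℕ} (hd : D.natDegree ≤ m) :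
    ∃ S : Polynomial ℂ, S.natDegree ≤ m ∧
      ∀ z : ℂ, ‖z‖ = 1 → S.eval z = conj (D.eval z) * z ^ m := by
  have h1 : (D.map (starRingEnd ℂ)).natDegree ≤ m := Polynomial.natDegree_map_le.trans hd
  refine ⟨(D.map (starRingEnd ℂ)).reflect m,
    Polynomial.natDegree_reflect_le.trans (max_le le_rfl h1), fun z hz => ?_⟩
  have b1 : conj z * z = 1 := by rw [conj_mul', hz]; simp
  let _ : Invertible (conj z) := ⟨z, by rw [mul_comm, b1], b1⟩
  have h2 := Polynomial.eval₂_reflect_mul_pow (RingHom.id ℂ) (conj z) m _ h1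
  rw [Polynomial.eval₂_id, Polynomial.eval₂_id, Polynomial.eval_map,
    Polynomial.eval₂_at_apply] at h2
  rw [← h2, mul_assoc, ← mul_pow, b1, one_pow, mul_one]
  rfl

/-- The zeros of the difference of two branches are simple. -/
theorem w_simple (hn : 2 ≤ n) (H : Hyp n P) (hc : c ≠ 0) (β : ℝ) {k : ℕ} (k0 : 0 < k) (k1 : k ≤ n)
    {x : ℝ} (hx : pf (cv (n + 1) β (Polynomial.C c * P)) x =
      (-1) ^ k * pf (cv (n + 1) β (Polynomial.C c * P)) (x + k * π)) :
    ∃ d : ℝ, d ≠ 0 ∧ HasDerivAt (fun x => pf (cv (n + 1) β (Polynomial.C c * P)) x -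
      (-1) ^ k * pf (cv (n + 1) β (Polynomial.C c * P)) (x + k * π)) d x := by
  obtain ⟨D, hd, h0, e⟩ := WlemA_rep H hc β k0 k1
  simp only [e]
  exact WlemA_der hn hd h0 β (by rw [← e, hx, sub_self])

theorem w_card (hn : 2 ≤ n) (H : Hyp n P) (hc : c ≠ 0) (β : ℝ) {k : ℕ} (k0 : 0 < k) (k1 : k ≤ n)
    {α : ℝ} {Z : Finset ℝ} (hZ : ∀ x ∈ Z, α ≤ x ∧ x < α + (n + 1 : ℕ) * π ∧
      pf (cv (n + 1) β (Polynomial.C c * P)) x =
        (-1) ^ k * pf (cv (n + 1) β (Polynomial.C c * P)) (x + k * π)) : Z.card ≤ n - 1 := by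
  classical
  obtain ⟨D, hd, h0, e⟩ := WlemA_rep H hc β k0 k1
  obtain ⟨S, hS, eS⟩ := WlemA_rev hd
  obtain ⟨m, rfl⟩ : ∃ m, n = m + 1 := ⟨n - 1, by omega⟩
  rw [Nat.add_sub_cancel] at hd hS ⊢
  simp only [Nat.add_sub_cancel] at eS
  have key : ∀ x, (eI (-x) * (zc (m + 1 + 1) β x * D.eval (zc (m + 1 + 1) β x))).im = 0 ↔
      (D - Polynomial.C (eI (2 * β)) * S).eval (zc (m + 1 + 1) β x) = 0 := fun x => by
    have hz := zc_norm (m + 1 + 1) β x
    have h1 := zc_pow (m + 1).succ_pos β x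
    have h2 := eI_mul_neg x
    have h3 := eI_ne (-x)
    have h4 : conj (eI (-x)) = eI x := by rw [← eI_neg, neg_neg]
    rw [← conj_eq_iff_im, map_mul, map_mul, h4, Polynomial.eval_sub, Polynomial.eval_mul,
      Polynomial.eval_C, eS _ hz]
    generalize zc (m + 1 + 1) β x = z at *
    have b1 : conj z * z = 1 := by rw [conj_mul', hz]; simp
    have h5 : z ≠ 0 := right_ne_zero_of_mul_eq_one b1
    have h6 : eI x * (conj z * conj (D.eval z)) =
        eI (-x) * (z * (eI (2 * β) * (conj (D.eval z) * z ^ m))) := by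
      rw [Nat.succ_eq_add_one, pow_succ, pow_succ] at h1
      linear_combination (-eI x * conj z * conj (D.eval z)) * h2 -
        eI (-x) * conj z * conj (D.eval z) * h1 +
        eI (-x) * z * eI (2 * β) * conj (D.eval z) * z ^ m * b1
    rw [h6, mul_right_inj' h3, mul_right_inj' h5, sub_eq_zero, eq_comm]
  have hG : D - Polynomial.C (eI (2 * β)) * S ≠ 0 := fun h => by
    have h1 : ∀ x, (eI (-x) * (zc (m + 1 + 1) β x * D.eval (zc (m + 1 + 1) β x))).im = 0 :=
      fun x => (key x).2 (by rw [h, Polynomial.eval_zero])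
    obtain ⟨d, d0, hd'⟩ := WlemA_der hn hd h0 β (h1 0)
    simp only [h1] at hd'
    exact d0 (hd'.unique (hasDerivAt_const _ _))
  have hi : InjOn (zc (m + 1 + 1) β) Z := fun x hx y hy =>
    zc_inj (m + 1).succ_pos β α ⟨(hZ x hx).1, (hZ x hx).2.1⟩ ⟨(hZ y hy).1, (hZ y hy).2.1⟩
  rw [← card_image_of_injOn hi]
  refine (Polynomial.card_le_degree_of_subset_roots
    (p := D - Polynomial.C (eI (2 * β)) * S) fun z hz => ?_).trans
    ((Polynomial.natDegree_sub_le _ _).trans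
      (max_le hd ((Polynomial.natDegree_C_mul_le _ _).trans hS)))
  obtain ⟨x, hx, rfl⟩ := Finset.mem_image.1 hz
  exact (Polynomial.mem_roots hG).2 ((key x).1 (by rw [← e, (hZ x hx).2.2, sub_self]))

end Pool.Agent.P.MP_c09211_an.Sh.GL
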