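import Pool.Agent.P.MP_c09211_an.GL.Basic
import Pool.Agent.P.MP_c09211_an.Suffridge

/-!
The number of tangents through a point (paper: Z).
-/

set_option autoImplicit false

namespace Pool.Agent.P.MP_c09211_an.Sh.GL

open Metric Set Finset PowerSeries Complex Filter Topology Real MeasureTheory
open scoped ComplexConjugate

variable {N : ℕ} {β : ℝ} {E : Polynomial ℂ}

/-- The self-inversive polynomial whose zeros on the circle are the tangents through `w`. -/
noncomputable def zaS (N : ℕ) (β : ℝ) (E : Polynomial ℂ) (w : ℂ) : Polynomial ℂ :=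
  (E - Polynomial.C w) - Polynomial.C (eI (2 * β)) *
    Polynomial.reflect N ((E - Polynomial.C w).map (starRingEnd ℂ))

theorem za_degT (hd : E.natDegree < N) (w : ℂ) : (E - Polynomial.C w).natDegree < N := by
  rwa [Polynomial.natDegree_sub_C]

theorem za_coeff (w : ℂ) (k : ℕ) : (zaS N β E w).coeff k = (E - Polynomial.C w).coeff k -
    eI (2 * β) * conj ((E - Polynomial.C w).coeff (Polynomial.revAt N k)) := by
  rw [zaS, Polynomial.coeff_sub, Polynomial.coeff_C_mul, Polynomial.coeff_reflect,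
    Polynomial.coeff_map]

theorem za_high (hd : E.natDegree < N) (w : ℂ) {k : ℕ} (hk : N < k) :
    (zaS N β E w).coeff k = 0 := by
  rw [za_coeff, Polynomial.revAt_eq_self_of_lt hk,
    Polynomial.coeff_eq_zero_of_natDegree_lt ((za_degT hd w).trans hk), map_zero, mul_zero,
    sub_zero]

theorem za_deg (hd : E.natDegree < N) (w : ℂ) : (zaS N β E w).natDegree ≤ N :=
  Polynomial.natDegree_le_iff_coeff_eq_zero.mpr fun _ hk => za_high hd w hk

theorem za_unit (x : ℝ) : conj (eI x) * eI x = 1 := by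
  rw [← eI_neg, mul_comm, eI_mul_neg]

theorem za_reflect (w : ℂ) :
    Polynomial.reflect N ((zaS N β E w).map (starRingEnd ℂ)) =
      Polynomial.C (-conj (eI (2 * β))) * zaS N β E w := by
  ext k
  rw [Polynomial.coeff_reflect, Polynomial.coeff_map, Polynomial.coeff_C_mul, za_coeff, za_coeff,
    Polynomial.revAt_invol, map_sub, map_mul, conj_conj]
  linear_combination
    -conj ((E - Polynomial.C w).coeff (Polynomial.revAt N k)) * za_unit (2 * β)

theorem za_mul_coeff (w : ℂ) (k : ℕ) :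
    (k : ℂ) * (E - Polynomial.C w).coeff k = k * E.coeff k := by
  cases k with
  | zero => simp
  | succ k => rw [Polynomial.coeff_sub, Polynomial.coeff_C_succ, sub_zero]

theorem za_id (hd : E.natDegree < N) (H : SI N β E) (w : ℂ) :
    Polynomial.C (N : ℂ) * zaS N β E w - Polynomial.X * (zaS N β E w).derivative =
      Polynomial.C (N : ℂ) * (E - Polynomial.C w) := by
  ext k
  have h1 : (Polynomial.X * (zaS N β E w).derivative).coeff k = k * (zaS N β E w).coeff k := by
    cases k with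
    | zero => simp
    | succ k =>
      rw [Polynomial.coeff_X_mul, Polynomial.coeff_derivative]
      push_cast
      ring
  rw [Polynomial.coeff_sub, h1, Polynomial.coeff_C_mul, Polynomial.coeff_C_mul]
  rcases le_or_gt k N with hk | hk
  · have h2 := H (N - k) (Nat.sub_le _ _)
    rw [Nat.sub_sub_self hk, ← za_mul_coeff (E := E) w k, ← za_mul_coeff (E := E) w (N - k),
      map_mul, map_natCast, Nat.cast_sub hk] at h2
    rw [za_coeff, Polynomial.revAt_le hk]
    linear_combination -h2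
  · rw [za_high hd w hk, Polynomial.coeff_eq_zero_of_natDegree_lt ((za_degT hd w).trans hk)]
    simp

theorem za_ev (hd : E.natDegree < N) (H : SI N β E) {w z : ℂ} (hz : E.eval z = w) :
    (N : ℂ) * (zaS N β E w).eval z - z * (zaS N β E w).derivative.eval z = 0 := by
  have h := congrArg (Polynomial.eval z) (za_id hd H w)
  simp only [Polynomial.eval_sub, Polynomial.eval_mul, Polynomial.eval_C, Polynomial.eval_X] at h
  rw [h, hz, sub_self, mul_zero]

theorem za_ne (hN : 3 ≤ N) (hd : E.natDegree < N) (H : SI N β E) (h1 : E.coeff 1 ≠ 0) (w : ℂ) :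
    zaS N β E w ≠ 0 := by
  intro h0
  have h := congrArg (fun P => Polynomial.coeff P 1) (za_id hd H w)
  have hN' : (N : ℂ) ≠ 0 := by
    rw [Nat.cast_ne_zero]
    omega
  simp only [h0, Polynomial.coeff_C_mul, Polynomial.coeff_sub, Polynomial.coeff_C_succ,
    Polynomial.derivative_zero, mul_zero, Polynomial.coeff_zero, sub_zero] at h
  exact mul_ne_zero hN' h1 h.symm

theorem za_refl_eval {T : Polynomial ℂ} (hT : T.natDegree ≤ N) {z : ℂ} (hz : ‖z‖ = 1) :
    (Polynomial.reflect N (T.map (starRingEnd ℂ))).eval z = conj (T.eval z) * z ^ N := by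
  have b1 : conj z * z = 1 := by
    rw [conj_mul', hz]
    simp
  let _ : Invertible (conj z) := ⟨z, by rw [mul_comm, b1], b1⟩
  have h := Polynomial.eval₂_reflect_mul_pow (RingHom.id ℂ) (conj z) N (T.map (starRingEnd ℂ))
    (Polynomial.natDegree_map_le.trans hT)
  have h2 : (T.map (starRingEnd ℂ)).eval (conj z) = conj (T.eval z) := by
    rw [Polynomial.eval_map, Polynomial.eval₂_at_apply]
  have h3 : conj z ^ N * z ^ N = 1 := by rw [← mul_pow, b1, one_pow]
  change (Polynomial.reflect N (T.map (starRingEnd ℂ))).eval z * conj z ^ N =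
    (T.map (starRingEnd ℂ)).eval (conj z) at h
  rw [← h2, ← h, mul_assoc, h3, mul_one]

theorem za_root (hN : 3 ≤ N) (hd : E.natDegree < N) {w : ℂ} {x : ℝ}
    (h : pf (cv N β E) x = Sw w x) : (zaS N β E w).eval (zc N β x) = 0 := by
  have h1 : ((cv N β E x - w) * eI (-x)).im = 0 := by
    have := Sw_sub (cv N β E x) w x
    rw [← pf, h, sub_self] at this
    exact this
  have h2 := conj_eq_iff_im.2 h1
  have h3 := zc_pow (by omega : 0 < N) β x
  have h4 := za_unit x
  rw [eI_neg, map_mul, conj_conj] at h2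
  rw [zaS, Polynomial.eval_sub, Polynomial.eval_mul, Polynomial.eval_C,
    za_refl_eval (za_degT hd w).le (zc_norm N β x), Polynomial.eval_sub, Polynomial.eval_C, ← cv]
  linear_combination -conj (cv N β E x - w) * h3 - eI x * h2 - (cv N β E x - w) * h4

theorem za_prod {z : ℂ} (hz : ‖z‖ < 1) (s : Finset ℂ) (hs : ∀ ζ ∈ s, ‖ζ‖ = 1) :
    (s.card : ℂ) * (∏ ζ ∈ s, (Polynomial.X - Polynomial.C ζ)).eval z -
      z * (∏ ζ ∈ s, (Polynomial.X - Polynomial.C ζ)).derivative.eval z =
      (∑ ζ ∈ s, ζ / (ζ - z)) * (∏ ζ ∈ s, (Polynomial.X - Polynomial.C ζ)).eval z := by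
  classical
  induction s using Finset.induction_on with
  | empty => simp
  | insert ζ s hζ ih =>
    have h1 := ih fun a ha => hs a (mem_insert_of_mem ha)
    have h2 := div_mul_cancel₀ ζ (sub_ne (hs ζ (mem_insert_self _ _)) hz)
    rw [prod_insert hζ, sum_insert hζ, card_insert_of_notMem hζ, Polynomial.derivative_mul]
    simp only [Polynomial.eval_mul, Polynomial.eval_add, Polynomial.eval_sub, Polynomial.eval_X,
      Polynomial.eval_C, Polynomial.derivative_sub, Polynomial.derivative_X,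
      Polynomial.derivative_C, Polynomial.eval_one, sub_zero, Nat.cast_succ]
    linear_combination (z - ζ) * h1 +
      (∏ ζ ∈ s, (Polynomial.X - Polynomial.C ζ)).eval z * h2

theorem za_re {z ζ : ℂ} (hz : ‖z‖ < 1) (hζ : ‖ζ‖ = 1) : 0 < (ζ / (ζ - z)).re := by
  have h0 : 0 < normSq (ζ - z) := normSq_pos.2 (sub_ne hζ hz)
  have h1 : ζ.re * ζ.re + ζ.im * ζ.im = 1 := by
    rw [← normSq_apply, normSq_eq_norm_sq, hζ, one_pow]
  have h2 : z.re * z.re + z.im * z.im < 1 := by
    rw [← normSq_apply, normSq_eq_norm_sq]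
    exact pow_lt_one₀ (norm_nonneg z) hz two_ne_zero
  rw [div_re, ← add_div, sub_re, sub_im]
  refine div_pos ?_ h0
  nlinarith [sq_nonneg (ζ.re - z.re), sq_nonneg (ζ.im - z.im)]

theorem za_full {S : Polynomial ℂ} {z : ℂ} (hz : ‖z‖ < 1) {s : Finset ℂ} (hne : s.Nonempty)
    (hs : ∀ ζ ∈ s, ‖ζ‖ = 1 ∧ S.eval ζ = 0) (hd : S.natDegree ≤ s.card)
    (h : (s.card : ℂ) * S.eval z - z * S.derivative.eval z = 0) : S = 0 := by
  by_contra h0
  have hr : S.roots = s.val :=
    Polynomial.roots_eq_of_natDegree_le_card_of_ne_zero (fun x hx => (hs x hx).2) hd h0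
  have hc : S.roots.card = S.natDegree :=
    (Polynomial.card_roots' S).antisymm (by rw [hr]; exact hd)
  have hf := Polynomial.C_leadingCoeff_mul_prod_multiset_X_sub_C hc
  rw [hr] at hf
  change Polynomial.C S.leadingCoeff * ∏ ζ ∈ s, (Polynomial.X - Polynomial.C ζ) = S at hf
  have h1 := za_prod hz s fun ζ hζ => (hs ζ hζ).1
  have h2 : (∏ ζ ∈ s, (Polynomial.X - Polynomial.C ζ)).eval z ≠ 0 := by
    rw [Polynomial.eval_prod]
    refine prod_ne_zero_iff.2 fun ζ hζ => ?_
    rw [Polynomial.eval_sub, Polynomial.eval_X, Polynomial.eval_C]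
    exact sub_ne_zero.2 (sub_ne_zero.1 (sub_ne (hs ζ hζ).1 hz)).symm
  have h3 : (∑ ζ ∈ s, ζ / (ζ - z)) ≠ 0 := fun e => by
    have := sum_pos (fun ζ hζ => za_re hz (hs ζ hζ).1) hne
    rw [← re_sum, e] at this
    exact lt_irrefl _ this
  have h4 := Polynomial.leadingCoeff_ne_zero.2 h0
  generalize S.leadingCoeff = a at hf h4
  rw [← hf, Polynomial.derivative_C_mul, Polynomial.eval_mul, Polynomial.eval_mul,
    Polynomial.eval_C] at h
  exact mul_ne_zero h4 (mul_ne_zero h3 h2) (by linear_combination h - a * h1)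

theorem za_img (hN : 3 ≤ N) (hd : E.natDegree < N) (w : ℂ) (α : ℝ) (Z : Finset ℝ)
    (hZ : ∀ x ∈ Z, α ≤ x ∧ x < α + N * π ∧ pf (cv N β E) x = Sw w x) :
    ∃ s : Finset ℂ, s.card = Z.card ∧ ∀ ζ ∈ s, ‖ζ‖ = 1 ∧ (zaS N β E w).eval ζ = 0 := by
  classical
  have hsub : (Z : Set ℝ) ⊆ Set.Ico α (α + N * π) := fun x hx => ⟨(hZ x hx).1, (hZ x hx).2.1⟩
  refine ⟨Z.image (zc N β), card_image_of_injOn ((zc_inj (by omega) β α).mono hsub),
    fun ζ hζ => ?_⟩
  obtain ⟨x, hx, rfl⟩ := mem_image.1 hζ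
  exact ⟨zc_norm N β x, za_root hN hd (hZ x hx).2.2⟩

theorem zmax (hN : 3 ≤ N) (hd : E.natDegree < N) (H : SI N β E) (h1 : E.coeff 1 ≠ 0) (w : ℂ)
    (α : ℝ) (Z : Finset ℝ)
    (hZ : ∀ x ∈ Z, α ≤ x ∧ x < α + N * π ∧ pf (cv N β E) x = Sw w x) :
    Z.card ≤ N ∧ (Z.card = N → w ∉ (fun z => E.eval z) '' ball 0 1) := by
  obtain ⟨s, hc, hs⟩ := za_img hN hd w α Z hZ
  have h0 := za_ne hN hd H h1 w
  have hdeg : (zaS N β E w).natDegree ≤ N := za_deg hd w
  refine ⟨?_, fun hZN => ?_⟩
  · rw [← hc]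
    refine (Polynomial.card_le_degree_of_subset_roots fun ζ hζ => ?_).trans hdeg
    exact (Polynomial.mem_roots h0).2 (hs ζ hζ).2
  · rintro ⟨z, hz, hw⟩
    rw [mem_ball_zero_iff] at hz
    rw [hZN] at hc
    refine h0 (za_full hz (card_pos.1 (by omega)) hs (hdeg.trans hc.ge) ?_)
    rw [hc]
    exact za_ev hd H hw

theorem zinj (hN : 3 ≤ N) (hd : E.natDegree < N) (H : SI N β E) (h1 : E.coeff 1 ≠ 0)
    (h : ∀ w : ℂ, ∃ Z : Finset ℝ, (∀ x ∈ Z, 0 ≤ x ∧ x < N * π ∧ pf (cv N β E) x = Sw w x) ∧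
      N - 2 ≤ Z.card) : InjOn (fun z => E.eval z) (ball 0 1) := by
  intro z hz y hy e
  by_contra hzy
  rw [mem_ball_zero_iff] at hz hy
  obtain ⟨Z, hZ, hc⟩ := h (E.eval z)
  obtain ⟨Z', hsub, hc'⟩ := exists_subset_card_eq hc
  obtain ⟨s, hs, hs'⟩ := za_img (β := β) hN hd (E.eval z) 0 Z' fun x hx => by
    rw [zero_add]
    exact hZ x (hsub hx)
  have hn : s.card + 2 = N := by omega
  have hn' : (s.card : ℂ) + 2 = N := by exact_mod_cast hn
  have key : ∀ t : ℂ, E.eval t = E.eval z → (((N : ℝ) : ℂ) + (s.card + 2)) *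
      (zaS N β E (E.eval z)).eval t - 2 * t * (zaS N β E (E.eval z)).derivative.eval t = 0 :=
    fun t ht => by
      rw [hn', ofReal_natCast]
      linear_combination 2 * za_ev hd H ht
  refine za_ne hN hd H h1 _ (pick hz hy hzy s (zaS N β E (E.eval z)) (-conj (eI (2 * β))) _ _ hs'
    ((za_deg hd _).trans hn.ge) (by rw [norm_neg, norm_conj, eI_norm]) (by rw [hn, za_reflect])
    (Pos.const hz hy hzy (c := N) (by positivity)) (key z rfl) (key y e.symm))

end Pool.Agent.P.MP_c09211_an.Sh.GL
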